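import Pool.Agent.K1H48.SW.Co2
import Pool.Agent.Y891.GP.AFE
import Pool.Agent.Y587.GP.Chi

set_option autoImplicit false

/-! The amplitudes of `|ζ(1/2+iu)|²`, and their size for a fixed pair. -/

namespace K1H48.SW

open MeasureTheory Set Finset
open Pool.Agent.Y969.GP
open Pool.Agent.Y587.GP

noncomputable section

lemma one_sub_V {x : ℝ} (hx : 0 < x) : 1 - V x ≤ 3 * x := by
  have h0 := c0_pos
  have h1 : (∫ v in Iic (Real.log x), gs v) + ∫ v in Ioi (Real.log x), gs v = 2 * √Real.pi := by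
    rw [← gs_total]
    exact intervalIntegral.integral_Iic_add_Ioi gs_int.integrableOn gs_int.integrableOn
  have h2 : 1 - V x = (2 * √Real.pi)⁻¹ * ∫ v in Iic (Real.log x), gs v := by
    rw [V_eq]
    have : ∫ v in Iic (Real.log x), gs v = 2 * √Real.pi - ∫ v in Ioi (Real.log x), gs v := by linarith
    rw [this, mul_sub, inv_mul_cancel₀ h0.ne']
  have h3 : ∫ v in Iic (Real.log x), gs v ≤ ∫ v in Iic (Real.log x), Real.exp 1 * Real.exp v := by
    refine setIntegral_mono gs_int.integrableOn ((integrableOn_exp_Iic _).const_mul _) fun v => ?_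
    unfold gs
    rw [← Real.exp_add]
    apply Real.exp_le_exp.2
    nlinarith [sq_nonneg (v / 2 + 1)]
  rw [integral_const_mul, integral_exp_Iic, Real.exp_log hx] at h3
  have h4 : 0 ≤ ∫ v in Iic (Real.log x), gs v :=
    setIntegral_nonneg measurableSet_Iic fun v _ => (gs_pos v).le
  have h5 := Real.exp_one_lt_d9
  rw [h2]
  calc (2 * √Real.pi)⁻¹ * ∫ v in Iic (Real.log x), gs v ≤ 1 * (Real.exp 1 * x) :=
        mul_le_mul c0_inv_le h3 h4 (by norm_num)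
    _ ≤ 3 * x := by nlinarith

/-- the harmonic sum with the smooth cutoff -/
lemma sumV : ∃ C : ℝ, 0 < C ∧ ∀ (y : ℝ) (s : Finset ℕ), 1 ≤ y → (∀ g ∈ s, 1 ≤ g) →
    (∀ g : ℕ, 1 ≤ g → (g : ℝ) ≤ y → g ∈ s) →
    |2 * ∑ g ∈ s, 1 / (g : ℝ) * V ((g : ℝ) ^ 2 / y ^ 2) - 2 * Real.log y| ≤ C := by
  obtain ⟨C1, hC1, h1⟩ := part6 1 (by norm_num)
  refine ⟨2 * (4 + 4 * C1), by positivity, fun y s hy hs hall => ?_⟩
  have hy0 : 0 < y := by linarith
  set N := ⌊y⌋₊ with hN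
  have hN1 : 1 ≤ N := Nat.le_floor (by simpa using hy)
  have hN0 : (0 : ℝ) < N := by exact_mod_cast hN1
  have hNy : (N : ℝ) ≤ y := Nat.floor_le hy0.le
  have hyN : y < N + 1 := Nat.lt_floor_add_one y
  have hN1' : (1 : ℝ) ≤ N := by exact_mod_cast hN1
  obtain ⟨G, hG⟩ : ∃ G, s ⊆ Finset.Icc 1 G :=
    ⟨s.sup id, fun g hg => Finset.mem_Icc.2 ⟨hs g hg, Finset.le_sup (f := id) hg⟩⟩
  have hsplit : ∑ g ∈ s, 1 / (g : ℝ) * V ((g : ℝ) ^ 2 / y ^ 2) =
      ∑ g ∈ Finset.Icc 1 N, 1 / (g : ℝ) * V ((g : ℝ) ^ 2 / y ^ 2) +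
      ∑ g ∈ s.filter (fun g => N < g), 1 / (g : ℝ) * V ((g : ℝ) ^ 2 / y ^ 2) := by
    rw [← Finset.sum_filter_add_sum_filter_not s (fun g => N < g), add_comm]
    congr 1
    apply Finset.sum_congr _ fun _ _ => rfl
    ext g
    rw [Finset.mem_filter, Finset.mem_Icc]
    constructor
    · rintro ⟨a1, a2⟩; exact ⟨hs g a1, by omega⟩
    · rintro ⟨a1, a2⟩
      exact ⟨hall g a1 (le_trans (by exact_mod_cast a2) hNy), by omega⟩
  have hV0 : ∀ x : ℝ, 0 ≤ V x := V_nonneg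
  have t1 : ∑ g ∈ s.filter (fun g => N < g), 1 / (g : ℝ) * V ((g : ℝ) ^ 2 / y ^ 2) ≤ 4 * C1 := by
    have h2 : ∀ g ∈ s.filter (fun g => N < g), 1 / (g : ℝ) * V ((g : ℝ) ^ 2 / y ^ 2) ≤
        4 * C1 * ((N : ℝ) ^ 2 / (g : ℝ) ^ 3) := by
      intro g hg
      rw [Finset.mem_filter] at hg
      have hg0 : (0 : ℝ) < g := by exact_mod_cast (by omega : 0 < g)
      have h3 := h1 ((g : ℝ) ^ 2 / y ^ 2) (by positivity)
      rw [Real.rpow_neg (by positivity), Real.rpow_one, inv_div] at h3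
      have h4 : y ^ 2 ≤ 4 * (N : ℝ) ^ 2 := by nlinarith
      calc 1 / (g : ℝ) * V ((g : ℝ) ^ 2 / y ^ 2) ≤ 1 / (g : ℝ) * (C1 * (y ^ 2 / (g : ℝ) ^ 2)) := by gcongr
        _ ≤ 1 / (g : ℝ) * (C1 * ((4 * (N : ℝ) ^ 2) / (g : ℝ) ^ 2)) := by gcongr
        _ = _ := by field_simp
    refine (Finset.sum_le_sum h2).trans ?_
    rw [← Finset.mul_sum]
    have h5 : ∑ g ∈ s.filter (fun g => N < g), (N : ℝ) ^ 2 / (g : ℝ) ^ 3 ≤
        ∑ g ∈ Finset.Ioc N G, (N : ℝ) ^ 2 / (g : ℝ) ^ 3 := by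
      apply Finset.sum_le_sum_of_subset_of_nonneg
      · intro g hg
        rw [Finset.mem_filter] at hg
        exact Finset.mem_Ioc.2 ⟨hg.2, (Finset.mem_Icc.1 (hG hg.1)).2⟩
      · intro g _ _; positivity
    have h6 := h5.trans (sum_cube_le N hN1 G)
    nlinarith
  have t1' : 0 ≤ ∑ g ∈ s.filter (fun g => N < g), 1 / (g : ℝ) * V ((g : ℝ) ^ 2 / y ^ 2) :=
    Finset.sum_nonneg fun g _ => mul_nonneg (by positivity) (hV0 _)
  have t2 : ∑ g ∈ Finset.Icc 1 N, 1 / (g : ℝ) * V ((g : ℝ) ^ 2 / y ^ 2) ≤ 1 + Real.log N := by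
    refine le_trans (Finset.sum_le_sum fun g hg => ?_) (harm_le N)
    have := V_le_one ((g : ℝ) ^ 2 / y ^ 2)
    have h3 : (0 : ℝ) ≤ 1 / (g : ℝ) := by positivity
    nlinarith
  have t3 : ∑ g ∈ Finset.Icc 1 N, 1 / (g : ℝ) - 3 ≤
      ∑ g ∈ Finset.Icc 1 N, 1 / (g : ℝ) * V ((g : ℝ) ^ 2 / y ^ 2) := by
    have h2 : ∀ g ∈ Finset.Icc 1 N, 1 / (g : ℝ) - 3 / N ≤ 1 / (g : ℝ) * V ((g : ℝ) ^ 2 / y ^ 2) := by
      intro g hg
      rw [Finset.mem_Icc] at hg
      have hg0 : (0 : ℝ) < g := by exact_mod_cast (by omega : 0 < g)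
      have hgN : (g : ℝ) ≤ N := by exact_mod_cast hg.2
      have h3 := one_sub_V (x := (g : ℝ) ^ 2 / y ^ 2) (by positivity)
      have h4 : 1 / (g : ℝ) * (1 - V ((g : ℝ) ^ 2 / y ^ 2)) ≤ 1 / (g : ℝ) * (3 * ((g : ℝ) ^ 2 / y ^ 2)) :=
        mul_le_mul_of_nonneg_left h3 (by positivity)
      have h5 : 1 / (g : ℝ) * (3 * ((g : ℝ) ^ 2 / y ^ 2)) ≤ 3 / N := by
        have e : 1 / (g : ℝ) * (3 * ((g : ℝ) ^ 2 / y ^ 2)) = 3 * g / y ^ 2 := by field_simp
        rw [e, div_le_div_iff₀ (by positivity) hN0]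
        nlinarith
      linarith
    have h3 := Finset.sum_le_sum h2
    rw [Finset.sum_sub_distrib, Finset.sum_const, Nat.card_Icc, nsmul_eq_mul] at h3
    have h4 : ((N + 1 - 1 : ℕ) : ℝ) * (3 / N) = 3 := by
      rw [Nat.add_sub_cancel]; field_simp
    rw [h4] at h3
    exact h3
  have t4 : Real.log (N + 1) ≤ ∑ g ∈ Finset.Icc 1 N, 1 / (g : ℝ) := by
    have := log_add_one_le_harmonic N
    rw [harmonic_eq_sum_Icc] at this
    push_cast at this
    simpa only [one_div] using this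
  have t5 : Real.log y ≤ Real.log (N + 1) := Real.log_le_log hy0 hyN.le
  have t6 : Real.log N ≤ Real.log y := Real.log_le_log hN0 hNy
  rw [hsplit, abs_le]
  constructor <;> linarith

/-- `√h cr_p(u) = log u + O(1)` for a fixed pair -/
lemma cr_low : ∃ C : ℝ, 0 < C ∧ ∀ (X : ℕ) (p : ℕ × ℕ) (u : ℝ), 1 ≤ p.1 → 1 ≤ p.2 →
    2 * Real.pi * ht p ≤ u → u ≤ X → 
    |√(ht p) * cr X p u - (Real.log u - Real.log (2 * Real.pi * ht p))| ≤ C := by
  obtain ⟨C, hC, h⟩ := sumV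
  refine ⟨C, hC, fun X p u h1 h2 hu hX => ?_⟩
  have hpi := Real.pi_pos
  have hh := ht_pos h1 h2
  have hh1 := ht_one_le h1 h2
  have hu0 : 0 < u := lt_of_lt_of_le (by positivity) hu
  set y := √(u / (2 * Real.pi * ht p)) with hy
  have hz : 1 ≤ u / (2 * Real.pi * ht p) := by rw [le_div_iff₀ (by positivity)]; linarith
  have hy1 : 1 ≤ y := Real.one_le_sqrt.2 hz
  have hy2 : y ^ 2 = u / (2 * Real.pi * ht p) := Real.sq_sqrt (by positivity)
  have h3 := h y ((Finset.Icc 1 X).filter (fun g => g * g * (p.1 * p.2) ≤ X)) hy1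
    (fun g hg => (Finset.mem_Icc.1 (Finset.mem_filter.1 hg).1).1) (by
      intro g hg hgy
      have h4 : (g : ℝ) ^ 2 * ht p ≤ u := by
        have h5 : (g : ℝ) ^ 2 ≤ y ^ 2 := pow_le_pow_left₀ (by positivity) hgy 2
        rw [hy2, le_div_iff₀ (by positivity)] at h5
        have h6 : (g : ℝ) ^ 2 * ht p ≤ (g : ℝ) ^ 2 * (2 * Real.pi * ht p) := by
          apply mul_le_mul_of_nonneg_left _ (by positivity)
          nlinarith [Real.pi_gt_three]
        linarith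
      have h5 : g * g * (p.1 * p.2) ≤ X := by
        have : ((g * g * (p.1 * p.2) : ℕ) : ℝ) ≤ X := by
          unfold ht at h4
          push_cast
          nlinarith
        exact_mod_cast this
      rw [Finset.mem_filter, Finset.mem_Icc]
      refine ⟨⟨hg, le_trans ?_ h5⟩, h5⟩
      have : 1 ≤ g * (p.1 * p.2) := Nat.mul_pos hg (Nat.mul_pos h1 h2)
      nlinarith)
  have e1 : √(ht p) * cr X p u = 2 * ∑ g ∈ (Finset.Icc 1 X).filter (fun g => g * g * (p.1 * p.2) ≤ X),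
      1 / (g : ℝ) * V ((g : ℝ) ^ 2 / y ^ 2) := by
    unfold cr
    rw [Finset.mul_sum, Finset.mul_sum]
    refine Finset.sum_congr rfl fun g hg => ?_
    have hg1 := (Finset.mem_Icc.1 (Finset.mem_filter.1 hg).1).1
    have hg0 : (0 : ℝ) < g := by exact_mod_cast hg1
    unfold co
    rw [ht_mul, Real.sqrt_mul (by positivity), Real.sqrt_sq hg0.le, hy2]
    have e2 : 2 * Real.pi * ((g : ℝ) ^ 2 * ht p) / u = (g : ℝ) ^ 2 / (u / (2 * Real.pi * ht p)) := by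
      field_simp
    rw [e2]
    have hs : √(ht p) ≠ 0 := by positivity
    field_simp
  have e2 : 2 * Real.log y = Real.log u - Real.log (2 * Real.pi * ht p) := by
    rw [hy, Real.log_sqrt (by positivity), Real.log_div hu0.ne' (by positivity)]
    ring
  rw [e1, ← e2]
  exact h3

end

end K1H48.SW
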