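import Pool.Agent.K1H48.SW.Co

set_option autoImplicit false

/-! Fubini for the product over the heights. -/

namespace K1H48.SW

open MeasureTheory Set Finset Filter

noncomputable section

/-- the measure on the box -/
def bm (k : ℕ) (a b : ℝ) : Measure (Fin k → ℝ) := Measure.pi fun _ => volume.restrict (Icc a b)

lemma bm_eq (k : ℕ) (a b : ℝ) : bm k a b = (volume : Measure (Fin k → ℝ)).restrict (Set.univ.pi fun _ => Icc a b) := by
  unfold bm
  rw [volume_pi, Measure.restrict_pi_pi]

instance (k : ℕ) (a b : ℝ) : IsFiniteMeasure (bm k a b) := by unfold bm; infer_instance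

/-- continuous functions on the box times a bounded set are integrable -/
lemma int_box {k : ℕ} {a b U : ℝ} {Φ : (Fin k → ℝ) × (ℝ × ℝ) → ℝ} (hΦ : Continuous Φ) :
    Integrable Φ ((bm k a b).prod ((volume.restrict (Ioc 0 U)).prod (volume.restrict (Ioc 0 U)))) := by
  rw [bm_eq, Measure.prod_restrict, Measure.prod_restrict]
  have hK : IsCompact ((Set.univ.pi fun _ : Fin k => Icc a b) ×ˢ (Icc (0 : ℝ) U ×ˢ Icc (0 : ℝ) U)) :=
    (isCompact_univ_pi fun _ => isCompact_Icc).prod (isCompact_Icc.prod isCompact_Icc)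
  have h1 : IntegrableOn Φ ((Set.univ.pi fun _ : Fin k => Icc a b) ×ˢ (Icc (0 : ℝ) U ×ˢ Icc (0 : ℝ) U))
      ((volume : Measure (Fin k → ℝ)).prod ((volume : Measure ℝ).prod (volume : Measure ℝ))) :=
    hΦ.continuousOn.integrableOn_compact hK
  exact h1.mono_set (Set.prod_mono le_rfl (Set.prod_mono Ioc_subset_Icc_self Ioc_subset_Icc_self))

lemma int_sq {U : ℝ} {Φ : ℝ × ℝ → ℝ} (hΦ : Continuous Φ) :
    Integrable Φ ((volume.restrict (Ioc 0 U)).prod (volume.restrict (Ioc 0 U))) := by
  rw [Measure.prod_restrict]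
  have hK : IsCompact (Icc (0 : ℝ) U ×ˢ Icc (0 : ℝ) U) := isCompact_Icc.prod isCompact_Icc
  have h1 : IntegrableOn Φ (Icc (0 : ℝ) U ×ˢ Icc (0 : ℝ) U)
      ((volume : Measure ℝ).prod (volume : Measure ℝ)) := hΦ.continuousOn.integrableOn_compact hK
  exact h1.mono_set (Set.prod_mono Ioc_subset_Icc_self Ioc_subset_Icc_self)

theorem fub {k : ℕ} {a b U : ℝ} (hU : 0 ≤ U) (w : ℝ → ℝ) (hw : Continuous w)
    (g : Fin k → ℝ → ℝ) (hg : ∀ j, Continuous (g j)) :
    ∫ c, (∏ j, w (c j)) * (∫ t in (0 : ℝ)..U, ∏ j, g j (c j + t)) ^ 2 ∂(bm k a b) =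
      ∫ t in (0 : ℝ)..U, ∫ t' in (0 : ℝ)..U, ∏ j, ∫ x in Icc a b, w x * (g j (x + t) * g j (x + t')) := by
  set ν : Measure ℝ := volume.restrict (Ioc 0 U) with hν
  obtain ⟨Φ, hΦ⟩ : ∃ Φ : (Fin k → ℝ) → ℝ × ℝ → ℝ, Φ = fun c z =>
      ∏ j, (w (c j) * (g j (c j + z.1) * g j (c j + z.2))) := ⟨_, rfl⟩
  have hΦc : Continuous (Function.uncurry Φ) := by
    rw [hΦ]
    unfold Function.uncurry
    fun_prop
  -- left side
  have h1 : ∀ c : Fin k → ℝ, (∏ j, w (c j)) * (∫ t in (0 : ℝ)..U, ∏ j, g j (c j + t)) ^ 2 =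
      ∫ z, Φ c z ∂(ν.prod ν) := by
    intro c
    have hcz : Continuous (fun z : ℝ × ℝ => Φ c z) := hΦc.comp (by fun_prop : Continuous fun z : ℝ × ℝ => (c, z))
    have e1 : (∫ t in (0 : ℝ)..U, ∏ j, g j (c j + t)) ^ 2 =
        ∫ z, (∏ j, g j (c j + z.1)) * (∏ j, g j (c j + z.2)) ∂(ν.prod ν) := by
      rw [integral_prod_mul (fun t => ∏ j, g j (c j + t)) (fun t => ∏ j, g j (c j + t)), sq,
        intervalIntegral.integral_of_le hU]
    rw [e1, ← integral_const_mul]
    congr 1
    funext z
    rw [hΦ]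
    simp only [Finset.prod_mul_distrib]
  simp_rw [h1]
  rw [integral_integral_swap (int_box hΦc)]
  -- inner integral
  have h2 : ∀ z : ℝ × ℝ, ∫ c, Φ c z ∂(bm k a b) =
      ∏ j, ∫ x in Icc a b, w x * (g j (x + z.1) * g j (x + z.2)) := by
    intro z
    rw [hΦ]
    unfold bm
    exact integral_fintype_prod_eq_prod (μ := fun _ : Fin k => volume.restrict (Icc a b))
      (fun j x => w x * (g j (x + z.1) * g j (x + z.2)))
  simp_rw [h2]
  have hint : Continuous (fun z : ℝ × ℝ => ∏ j, ∫ x in Icc a b, w x * (g j (x + z.1) * g j (x + z.2))) := by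
    apply continuous_finsetProd
    intro j _
    rcases le_or_gt a b with hab | hab
    · have h := intervalIntegral.continuous_parametric_intervalIntegral_of_continuous' (X := ℝ × ℝ) (μ := volume)
        (f := fun z c => w c * (g j (c + z.1) * g j (c + z.2))) (by
          have := hg j
          fun_prop) a b
      refine h.congr fun z => ?_
      rw [intervalIntegral.integral_of_le hab, integral_Icc_eq_integral_Ioc]
    · rw [Set.Icc_eq_empty (not_le.2 hab)]
      simp only [Measure.restrict_empty, integral_zero_measure]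
      exact continuous_const
  rw [integral_prod _ (int_sq hint), intervalIntegral.integral_of_le hU]
  congr 1
  funext t
  rw [intervalIntegral.integral_of_le hU]

/-- the product inequality -/
lemma prod_ineq {k : ℕ} (i : Fin k) {X Y Z δ : ℝ} (hX : 0 ≤ X) (hY : 0 ≤ Y) (hZ : 0 ≤ Z) (hδ : 0 < δ) :
    ∏ j : Fin k, (if j = i then X else if j < i then Y else Z) ≤
      (δ⁻¹ ^ (k - 1)) ^ k * X ^ k + δ ^ k * (Y ^ k + Z ^ k) := by
  set m := max (δ⁻¹ ^ (k - 1) * X) (max (δ * Y) (δ * Z)) with hm
  have h1 : ∏ j : Fin k, (if j = i then δ⁻¹ ^ (k - 1) else δ) = 1 := by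
    rw [Finset.prod_ite, Finset.filter_eq' , if_pos (Finset.mem_univ i), Finset.prod_singleton, Finset.prod_const]
    have : (Finset.univ.filter fun j : Fin k => ¬ j = i).card = k - 1 := by
      rw [Finset.filter_ne' , Finset.card_erase_of_mem (Finset.mem_univ i), Finset.card_univ, Fintype.card_fin]
    rw [this, ← mul_pow, inv_mul_cancel₀ hδ.ne', one_pow]
  have h2 : ∏ j : Fin k, (if j = i then X else if j < i then Y else Z) =
      ∏ j : Fin k, ((if j = i then δ⁻¹ ^ (k - 1) else δ) * (if j = i then X else if j < i then Y else Z)) := by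
    rw [Finset.prod_mul_distrib, h1, one_mul]
  have h3 : ∀ j : Fin k, ((if j = i then δ⁻¹ ^ (k - 1) else δ) * (if j = i then X else if j < i then Y else Z)) ≤ m := by
    intro j
    split_ifs
    · exact le_max_left _ _
    · exact (le_max_left _ _).trans (le_max_right _ _)
    · exact (le_max_right _ _).trans (le_max_right _ _)
  have h4 : ∀ j : Fin k, 0 ≤ ((if j = i then δ⁻¹ ^ (k - 1) else δ) * (if j = i then X else if j < i then Y else Z)) := by
    intro j
    split_ifs <;> positivity
  have h5 : ∏ j : Fin k, (if j = i then X else if j < i then Y else Z) ≤ m ^ k := by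
    rw [h2]
    calc _ ≤ ∏ _j : Fin k, m := Finset.prod_le_prod (fun j _ => h4 j) fun j _ => h3 j
      _ = m ^ k := by rw [Finset.prod_const, Finset.card_univ, Fintype.card_fin]
  refine h5.trans ?_
  have a1 : 0 ≤ (δ⁻¹ ^ (k - 1)) ^ k * X ^ k := by positivity
  have a2 : 0 ≤ δ ^ k * Y ^ k := by positivity
  have a3 : 0 ≤ δ ^ k * Z ^ k := by positivity
  rcases max_choice (δ⁻¹ ^ (k - 1) * X) (max (δ * Y) (δ * Z)) with h | h
  · rw [hm, h, mul_pow]
    linarith
  · rcases max_choice (δ * Y) (δ * Z) with h' | h'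
    · rw [hm, h, h', mul_pow]; linarith
    · rw [hm, h, h', mul_pow]; linarith

/-- telescoping -/
lemma tele {k : ℕ} (f q : Fin k → ℝ) :
    ∏ j, f j - ∏ j, q j = ∑ i, ∏ j, (if j = i then f j - q j else if j < i then q j else f j) := by
  have h := Finset.prod_sub_ordered Finset.univ f (fun j => f j - q j)
  simp only [sub_sub_cancel] at h
  rw [h, sub_sub_cancel]
  refine Finset.sum_congr rfl fun i _ => ?_
  have h1 : ∏ j, (if j = i then f j - q j else if j < i then q j else f j) =
      (f i - q i) * ((∏ j with j < i, q j) * ∏ j with i < j, f j) := by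
    rw [← Finset.mul_prod_erase Finset.univ _ (Finset.mem_univ i), if_pos rfl]
    congr 1
    rw [← Finset.prod_filter_mul_prod_filter_not (Finset.univ.erase i) (fun j => j < i)]
    congr 1
    · have e : (Finset.univ.erase i).filter (fun j => j < i) = Finset.univ.filter (fun j => j < i) := by
        ext j
        simp only [Finset.mem_filter, Finset.mem_erase, Finset.mem_univ, and_true, true_and]
        constructor
        · exact fun h => h.2
        · exact fun h => ⟨h.ne, h⟩
      rw [e]
      refine Finset.prod_congr rfl fun j hj => ?_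
      have hj' := (Finset.mem_filter.1 hj).2
      rw [if_neg hj'.ne, if_pos hj']
    · have e : (Finset.univ.erase i).filter (fun j => ¬ j < i) = Finset.univ.filter (fun j => i < j) := by
        ext j
        simp only [Finset.mem_filter, Finset.mem_erase, Finset.mem_univ, and_true, true_and]
        constructor
        · exact fun h => lt_of_le_of_ne (not_lt.1 h.2) (Ne.symm h.1)
        · exact fun h => ⟨h.ne', not_lt.2 h.le⟩
      rw [e]
      refine Finset.prod_congr rfl fun j hj => ?_
      have hj' := (Finset.mem_filter.1 hj).2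
      rw [if_neg hj'.ne', if_neg (not_lt.2 hj'.le)]
  rw [h1]
  ring

end

end K1H48.SW
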