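import Pool.Agent.K1H48.SW.Fm

set_option autoImplicit false

/-! Correlations of real functions approximated by Dirichlet polynomials; their `k`-th moment. -/

namespace K1H48.SW

open MeasureTheory Set Finset Filter
open Pool.Agent.Y969.GP

noncomputable section

lemma log_small (r : ℝ) (hr : 0 < r) (c : ℝ) (hc : 0 < c) (n : ℕ) :
    ∀ᶠ T : ℝ in atTop, (1 + Real.log T) ^ n ≤ c * T ^ r := by
  rcases Nat.eq_zero_or_pos n with rfl | hn
  · have h := tendsto_rpow_atTop hr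
    filter_upwards [h.eventually_ge_atTop (1 / c)] with T hT
    rw [pow_zero]
    rw [div_le_iff₀ hc] at hT
    linarith
  · have hn0 : (0 : ℝ) < n := by exact_mod_cast hn
    have h1 : (fun T : ℝ => 1 + Real.log T) =o[atTop] (fun T : ℝ => T ^ (r / n)) := by
      apply Asymptotics.IsLittleO.add
      · rw [Asymptotics.isLittleO_const_left]
        right
        exact (tendsto_norm_atTop_atTop).comp (tendsto_rpow_atTop (by positivity))
      · exact isLittleO_log_rpow_atTop (by positivity)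
    have h2 := h1.pow hn
    have h3 := h2.bound hc
    filter_upwards [h3, eventually_ge_atTop 1] with T hT hT1
    have hl := Real.log_nonneg hT1
    rw [Real.norm_eq_abs, abs_of_nonneg (by positivity), Real.norm_eq_abs,
      abs_of_nonneg (by positivity)] at hT
    refine hT.trans (le_of_eq ?_)
    rw [← Real.rpow_natCast, ← Real.rpow_mul (by linarith)]
    congr 2
    field_simp

/-- the weighted correlation of a real function -/
def Cg (T α β : ℝ) (g : ℝ → ℝ) (t t' : ℝ) : ℝ := ∫ c in α * T..β * T, wt T α β c * (g (c + t) * g (c + t'))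

lemma gP_cont {J : ℕ} {T K : ℝ} {a a1 a2 : ℕ × ℕ → ℝ → ℝ} (h : Fam J T K a a1 a2) :
    ContinuousOn (gP J a) (Icc (T / 2) (8 * T)) := by
  unfold gP
  apply continuousOn_finsetSum
  intro p hp
  exact (Complex.continuous_ofReal.comp_continuousOn (h p hp).c0).mul (ex_cont _).continuousOn

lemma prod_err {g g' : ℝ} {P P' : ℂ} {η : ℝ} (h : ‖(g : ℂ) - P‖ ≤ η) (h' : ‖(g' : ℂ) - P'‖ ≤ η) :
    ‖((g * g' : ℝ) : ℂ) - P * (starRingEnd ℂ) P'‖ ≤ η * (2 + η + ‖P‖ ^ 2 + ‖P'‖ ^ 2) := by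
  have hη : 0 ≤ η := (norm_nonneg _).trans h
  have e : ((g * g' : ℝ) : ℂ) - P * (starRingEnd ℂ) P' =
      ((g : ℂ) - P) * g' + P * (starRingEnd ℂ) ((g' : ℂ) - P') := by
    rw [map_sub, Complex.conj_ofReal]
    push_cast
    ring
  rw [e]
  refine (norm_add_le _ _).trans ?_
  rw [norm_mul, norm_mul, RCLike.norm_conj]
  have h1 : ‖(g' : ℂ)‖ ≤ ‖P'‖ + η := by
    calc ‖(g' : ℂ)‖ = ‖((g' : ℂ) - P') + P'‖ := by ring_nf
      _ ≤ ‖(g' : ℂ) - P'‖ + ‖P'‖ := norm_add_le _ _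
      _ ≤ ‖P'‖ + η := by linarith
  have h2 : ‖(g : ℂ) - P‖ * ‖(g' : ℂ)‖ ≤ η * (‖P'‖ + η) := mul_le_mul h h1 (norm_nonneg _) hη
  have h3 : ‖P‖ * ‖(g' : ℂ) - P'‖ ≤ ‖P‖ * η := mul_le_mul_of_nonneg_left h' (norm_nonneg _)
  have h4 : ‖P‖ ≤ 1 + ‖P‖ ^ 2 := by nlinarith [sq_nonneg (‖P‖ - 1), norm_nonneg P]
  have h5 : ‖P'‖ ≤ 1 + ‖P'‖ ^ 2 := by nlinarith [sq_nonneg (‖P'‖ - 1), norm_nonneg P']
  nlinarith [mul_le_mul_of_nonneg_left h4 hη, mul_le_mul_of_nonneg_left h5 hη]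

lemma corr_step {J : ℕ} {T K U t t' α β η B : ℝ} {a a1 a2 : ℕ × ℕ → ℝ → ℝ} {g : ℝ → ℝ} (hg : Continuous g)
    (hT : 1 ≤ T) (hK : 0 ≤ K) (hα : 1 / 2 ≤ α) (hαβ : α ≤ β) (hβ : β ≤ 4) (hU : U ≤ T) (ht0 : 0 ≤ t)
    (ht : t ≤ U) (ht0' : 0 ≤ t') (ht' : t' ≤ U) (h : Fam J T K a a1 a2)
    (hη : ∀ u ∈ Icc (T / 2) (8 * T), ‖(g u : ℂ) - gP J a u‖ ≤ η)
    (hB : 10 ^ 15 * K ^ 2 * (((J : ℝ) + 1) * T + U * (((J : ℝ) + 1) ^ 2 * (1 + Real.log T) ^ 2)) ≤ B) :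
    ‖(Cg T α β g t t' : ℂ) - T * Cm J (fun p => Dp T α β (a p)) (t - t')‖ ≤
      B + η * ((2 + η) * (602 * T) + 2 * (T * (1204 * K ^ 2 * (((J : ℝ) + 1) ^ 2 * (1 + Real.log T) ^ 2)) + B)) := by
  have hT0 : 0 < T := by linarith
  have hU0 : 0 ≤ U := ht0.trans ht
  have hle : α * T ≤ β * T := by nlinarith
  have hη0 : 0 ≤ η := (norm_nonneg _).trans (hη T ⟨by linarith, by linarith⟩)
  have hsh : ∀ s : ℝ, 0 ≤ s → s ≤ U → ContinuousOn (fun c => gP J a (c + s)) (Icc (α * T) (β * T)) := by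
    intro s hs0 hs
    refine (gP_cont h).comp (by fun_prop) fun c hc' => ⟨?_, ?_⟩
    · nlinarith [hc'.1]
    · nlinarith [hc'.2]
  have hw : Continuous (wt T α β) := wt_cont T α β
  -- the mean square
  have hms : ∀ s : ℝ, 0 ≤ s → s ≤ U → ∫ c in α * T..β * T, wt T α β c * ‖gP J a (c + s)‖ ^ 2 ≤
      T * (1204 * K ^ 2 * (((J : ℝ) + 1) ^ 2 * (1 + Real.log T) ^ 2)) + B := by
    intro s hs0 hs
    have h1 := (corr hT hK hα hαβ hβ hU hs0 hs hs0 hs h).trans hB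
    have h2 := Cm_le hT hα hαβ hβ h (s - s)
    have e1 : ((∫ c in α * T..β * T, wt T α β c * ‖gP J a (c + s)‖ ^ 2 : ℝ) : ℂ) =
        ∫ c in α * T..β * T, (wt T α β c : ℂ) * (gP J a (c + s) * (starRingEnd ℂ) (gP J a (c + s))) := by
      rw [← intervalIntegral.integral_ofReal]
      congr 1
      funext c
      rw [Complex.mul_conj, Complex.normSq_eq_norm_sq]
      push_cast
      ring
    rw [← e1] at h1
    have h3 : ‖((∫ c in α * T..β * T, wt T α β c * ‖gP J a (c + s)‖ ^ 2 : ℝ) : ℂ)‖ ≤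
        ‖(T : ℂ) * Cm J (fun p => Dp T α β (a p)) (s - s)‖ + B := by
      calc _ = ‖(((∫ c in α * T..β * T, wt T α β c * ‖gP J a (c + s)‖ ^ 2 : ℝ) : ℂ) -
            T * Cm J (fun p => Dp T α β (a p)) (s - s)) + T * Cm J (fun p => Dp T α β (a p)) (s - s)‖ := by
            rw [sub_add_cancel]
        _ ≤ _ := (norm_add_le _ _).trans (by linarith)
    rw [norm_mul, Complex.norm_real, Complex.norm_real, Real.norm_eq_abs, Real.norm_eq_abs,
      abs_of_pos hT0] at h3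
    have h4 := mul_le_mul_of_nonneg_left h2 hT0.le
    have h5 := le_abs_self (∫ c in α * T..β * T, wt T α β c * ‖gP J a (c + s)‖ ^ 2)
    linarith
  -- comparison
  have h1 := (corr hT hK hα hαβ hβ hU ht0 ht ht0' ht' h).trans hB
  have hi1 : IntervalIntegrable (fun c => (wt T α β c : ℂ) * ((g (c + t) * g (c + t') : ℝ) : ℂ)) volume
      (α * T) (β * T) := by
    apply Continuous.intervalIntegrable
    fun_prop
  have hi2 : IntervalIntegrable (fun c => (wt T α β c : ℂ) *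
      (gP J a (c + t) * (starRingEnd ℂ) (gP J a (c + t')))) volume (α * T) (β * T) := by
    apply ContinuousOn.intervalIntegrable
    rw [Set.uIcc_of_le hle]
    exact (Complex.continuous_ofReal.comp hw).continuousOn.mul ((hsh t ht0 ht).mul
      (Complex.continuous_conj.comp_continuousOn (hsh t' ht0' ht')))
  have e2 : (Cg T α β g t t' : ℂ) = ∫ c in α * T..β * T, (wt T α β c : ℂ) * ((g (c + t) * g (c + t') : ℝ) : ℂ) := by
    unfold Cg
    rw [← intervalIntegral.integral_ofReal]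
    congr 1
    funext c
    push_cast
    ring
  have h2 : ‖(Cg T α β g t t' : ℂ) - ∫ c in α * T..β * T, (wt T α β c : ℂ) *
      (gP J a (c + t) * (starRingEnd ℂ) (gP J a (c + t')))‖ ≤
      η * ((2 + η) * (602 * T) + 2 * (T * (1204 * K ^ 2 * (((J : ℝ) + 1) ^ 2 * (1 + Real.log T) ^ 2)) + B)) := by
    rw [e2, ← intervalIntegral.integral_sub hi1 hi2]
    have hq : ∀ s : ℝ, 0 ≤ s → s ≤ U → IntervalIntegrable (fun c => wt T α β c * ‖gP J a (c + s)‖ ^ 2) volume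
        (α * T) (β * T) := by
      intro s hs0 hs
      apply ContinuousOn.intervalIntegrable
      rw [Set.uIcc_of_le hle]
      exact hw.continuousOn.mul ((hsh s hs0 hs).norm.pow 2)
    have hw' : IntervalIntegrable (fun c => wt T α β c) volume (α * T) (β * T) := hw.intervalIntegrable _ _
    have hmaj : IntervalIntegrable (fun c => η * ((2 + η) * wt T α β c +
        (wt T α β c * ‖gP J a (c + t)‖ ^ 2 + wt T α β c * ‖gP J a (c + t')‖ ^ 2))) volume (α * T) (β * T) :=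
      (((hw'.const_mul (2 + η)).add ((hq t ht0 ht).add (hq t' ht0' ht'))).const_mul η)
    have h3 : ‖∫ c in α * T..β * T, ((wt T α β c : ℂ) * ((g (c + t) * g (c + t') : ℝ) : ℂ) -
        (wt T α β c : ℂ) * (gP J a (c + t) * (starRingEnd ℂ) (gP J a (c + t'))))‖ ≤
        ∫ c in α * T..β * T, η * ((2 + η) * wt T α β c +
        (wt T α β c * ‖gP J a (c + t)‖ ^ 2 + wt T α β c * ‖gP J a (c + t')‖ ^ 2)) := by
      apply intervalIntegral.norm_integral_le_of_norm_le hle _ hmaj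
      filter_upwards with c hc
      rw [← mul_sub, norm_mul, Complex.norm_real, Real.norm_eq_abs, abs_of_nonneg (wt_nonneg _ _ _ _)]
      have c1 : T / 2 ≤ c := by nlinarith [hc.1]
      have c2 : c ≤ 4 * T := by nlinarith [hc.2]
      have h4 := prod_err (hη (c + t) ⟨by linarith, by linarith⟩) (hη (c + t') ⟨by linarith, by linarith⟩)
      calc _ ≤ wt T α β c * (η * (2 + η + ‖gP J a (c + t)‖ ^ 2 + ‖gP J a (c + t')‖ ^ 2)) :=
            mul_le_mul_of_nonneg_left h4 (wt_nonneg _ _ _ _)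
        _ = _ := by ring
    refine h3.trans ?_
    rw [intervalIntegral.integral_const_mul]
    apply mul_le_mul_of_nonneg_left _ hη0
    rw [intervalIntegral.integral_add (hw'.const_mul _) ((hq t ht0 ht).add (hq t' ht0' ht')),
      intervalIntegral.integral_add (hq t ht0 ht) (hq t' ht0' ht'), intervalIntegral.integral_const_mul]
    have h5 : ∫ c in α * T..β * T, wt T α β c ≤ 602 * T := by
      have h6 := Dp_le (T := T) (α := α) (β := β) (K := 1) hT0 hα hαβ hβ (F := fun _ => 1)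
        (fun c _ => by simp)
      unfold Dp at h6
      rw [div_le_iff₀ hT0] at h6
      simpa using h6
    have h6 := hms t ht0 ht
    have h7 := hms t' ht0' ht'
    have h8 : (2 + η) * ∫ c in α * T..β * T, wt T α β c ≤ (2 + η) * (602 * T) :=
      mul_le_mul_of_nonneg_left h5 (by linarith)
    linarith
  calc _ = ‖((Cg T α β g t t' : ℂ) - ∫ c in α * T..β * T, (wt T α β c : ℂ) *
      (gP J a (c + t) * (starRingEnd ℂ) (gP J a (c + t')))) +
      ((∫ c in α * T..β * T, (wt T α β c : ℂ) *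
      (gP J a (c + t) * (starRingEnd ℂ) (gP J a (c + t')))) - T * Cm J (fun p => Dp T α β (a p)) (t - t'))‖ := by
        rw [sub_add_sub_cancel]
    _ ≤ _ := (norm_add_le _ _).trans (by linarith)

/-- the correlation of a real function approximated by a Dirichlet polynomial -/
theorem corr_real {K E : ℝ} (hK : 0 ≤ K) (hE : 0 ≤ E) : ∃ C T₀ : ℝ, 0 < C ∧ 1 ≤ T₀ ∧ ∀ T : ℝ, T₀ ≤ T →
    ∀ (g : ℝ → ℝ) (a a1 a2 : ℕ × ℕ → ℝ → ℝ), Continuous g → Fam (JT T) T K a a1 a2 →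
    (∀ u ∈ Icc (T / 2) (8 * T), ‖(g u : ℂ) - gP (JT T) a u‖ ≤ E * T ^ (-(1 / 4) : ℝ)) →
    ∀ α β t t' : ℝ, 1 / 2 ≤ α → α ≤ β → β ≤ 4 → 0 ≤ t → t ≤ √T → 0 ≤ t' → t' ≤ √T →
    ‖(Cg T α β g t t' : ℂ) - T * Cm (JT T) (fun p => Dp T α β (a p)) (t - t')‖ ≤
      C * (T * (1 + Real.log T)) := by
  have ev1 := log_small (1 / 2) (by norm_num) (1 / 9) (by norm_num) 4
  have ev2 := log_small (1 / 4) (by norm_num) (1 / (E + 1)) (by positivity) 4
  obtain ⟨T₁, hT₁⟩ := (ev1.and (ev2.and (eventually_ge_atTop (1 : ℝ)))).exists_forall_of_atTop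
  refine ⟨4 * 10 ^ 15 * K ^ 2 * 3 + 1806 + 21672 * K ^ 2, max T₁ 1, by positivity, le_max_right _ _,
    fun T hT g a a1 a2 hg hF hap α β t t' hα hαβ hβ ht0 ht ht0' ht' => ?_⟩
  obtain ⟨e1, e2, hT1⟩ := hT₁ T ((le_max_left _ _).trans hT)
  have hT0 : 0 < T := by linarith
  have hl := Real.log_nonneg hT1
  obtain ⟨ℓ, hℓ⟩ : ∃ ℓ, ℓ = 1 + Real.log T := ⟨_, rfl⟩
  have hℓ1 : 1 ≤ ℓ := by rw [hℓ]; linarith
  rw [← hℓ] at e1 e2
  have hU : √T ≤ T := by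
    rw [Real.sqrt_le_left hT0.le]
    nlinarith
  have hJ := JT_le hT1
  rw [← hℓ] at hJ
  have hJ0 : (0 : ℝ) ≤ (JT T : ℝ) + 1 := by positivity
  obtain ⟨η, hη⟩ : ∃ η, η = E * T ^ (-(1 / 4) : ℝ) := ⟨_, rfl⟩
  have hη0 : 0 ≤ η := by rw [hη]; positivity
  have hη4 : η * ℓ ^ 4 ≤ 1 := by
    have h1 : η * ℓ ^ 4 ≤ (E * T ^ (-(1 / 4) : ℝ)) * (1 / (E + 1) * T ^ (1 / 4 : ℝ)) := by
      rw [hη]
      exact mul_le_mul_of_nonneg_left e2 (by positivity)
    have h2 : (E * T ^ (-(1 / 4) : ℝ)) * (1 / (E + 1) * T ^ (1 / 4 : ℝ)) = E / (E + 1) := by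
      have : T ^ (-(1 / 4) : ℝ) * T ^ (1 / 4 : ℝ) = 1 := by
        rw [← Real.rpow_add hT0]; norm_num
      calc _ = E / (E + 1) * (T ^ (-(1 / 4) : ℝ) * T ^ (1 / 4 : ℝ)) := by ring
        _ = _ := by rw [this, mul_one]
    have h3 : E / (E + 1) ≤ 1 := by rw [div_le_one (by positivity)]; linarith
    linarith
  have hℓ4 : 1 ≤ ℓ ^ 4 := one_le_pow₀ hℓ1
  have hη1 : η ≤ 1 := by nlinarith
  have hsq : √T * (9 * ℓ ^ 4) ≤ T := by
    have h1 : T ^ (1 / 2 : ℝ) = √T := (Real.sqrt_eq_rpow T).symm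
    rw [h1] at e1
    have h2 : √T * √T = T := Real.mul_self_sqrt hT0.le
    have h3 : 0 ≤ √T := Real.sqrt_nonneg T
    nlinarith
  -- the bound B
  have hB : 10 ^ 15 * K ^ 2 * (((JT T : ℕ) + 1 : ℝ) * T + √T * (((JT T : ℕ) + 1 : ℝ) ^ 2 * (1 + Real.log T) ^ 2)) ≤
      4 * 10 ^ 15 * K ^ 2 * (ℓ * T) := by
    rw [← hℓ]
    have h1 : (((JT T : ℕ) + 1 : ℝ) ^ 2 * ℓ ^ 2) ≤ 9 * ℓ ^ 4 := by
      have : ((JT T : ℕ) + 1 : ℝ) ^ 2 ≤ (3 * ℓ) ^ 2 := pow_le_pow_left₀ hJ0 hJ 2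
      nlinarith [mul_le_mul_of_nonneg_right this (sq_nonneg ℓ)]
    have h2 : √T * (((JT T : ℕ) + 1 : ℝ) ^ 2 * ℓ ^ 2) ≤ √T * (9 * ℓ ^ 4) :=
      mul_le_mul_of_nonneg_left h1 (Real.sqrt_nonneg T)
    have h3 : ((JT T : ℕ) + 1 : ℝ) * T ≤ 3 * ℓ * T := mul_le_mul_of_nonneg_right hJ hT0.le
    have h4 : T ≤ ℓ * T := by nlinarith
    have h5 : ((JT T : ℕ) + 1 : ℝ) * T + √T * (((JT T : ℕ) + 1 : ℝ) ^ 2 * ℓ ^ 2) ≤ 4 * (ℓ * T) := by linarith
    have h6 := mul_le_mul_of_nonneg_left h5 (by positivity : 0 ≤ 10 ^ 15 * K ^ 2)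
    linarith
  have hmain := corr_step hg hT1 hK hα hαβ hβ hU ht0 ht ht0' ht' hF (hη ▸ hap) hB
  refine hmain.trans ?_
  rw [← hℓ]
  have h1 : (((JT T : ℕ) + 1 : ℝ) ^ 2 * ℓ ^ 2) ≤ 9 * ℓ ^ 4 := by
    have : ((JT T : ℕ) + 1 : ℝ) ^ 2 ≤ (3 * ℓ) ^ 2 := pow_le_pow_left₀ hJ0 hJ 2
    nlinarith [mul_le_mul_of_nonneg_right this (sq_nonneg ℓ)]
  have h2 : η * (T * (1204 * K ^ 2 * (((JT T : ℕ) + 1 : ℝ) ^ 2 * ℓ ^ 2))) ≤ 10836 * K ^ 2 * T := by
    calc η * (T * (1204 * K ^ 2 * (((JT T : ℕ) + 1 : ℝ) ^ 2 * ℓ ^ 2))) ≤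
          η * (T * (1204 * K ^ 2 * (9 * ℓ ^ 4))) := by
          apply mul_le_mul_of_nonneg_left _ hη0
          apply mul_le_mul_of_nonneg_left _ hT0.le
          exact mul_le_mul_of_nonneg_left h1 (by positivity)
      _ = (η * ℓ ^ 4) * (10836 * K ^ 2 * T) := by ring
      _ ≤ 1 * (10836 * K ^ 2 * T) := mul_le_mul_of_nonneg_right hη4 (by positivity)
      _ = _ := one_mul _
  have h3 : η * (4 * 10 ^ 15 * K ^ 2 * (ℓ * T)) ≤ 1 * (4 * 10 ^ 15 * K ^ 2 * (ℓ * T)) :=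
    mul_le_mul_of_nonneg_right hη1 (by positivity)
  have h4 : η * ((2 + η) * (602 * T)) ≤ 1806 * T := by
    have : η * (2 + η) ≤ 3 := by nlinarith
    nlinarith
  have h5 : T ≤ T * ℓ := by nlinarith
  have h6 : 0 ≤ K ^ 2 * T := by positivity
  have h7 : K ^ 2 * T ≤ K ^ 2 * (T * ℓ) := mul_le_mul_of_nonneg_left h5 (sq_nonneg K)
  nlinarith [h2, h3, h4, h5, h6, h7]

end

end K1H48.SW
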