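import Pool.Agent.K1H48.SW.Blk
import Pool.Agent.K1H48.SW.Km

set_option autoImplicit false

/-! The `k`-th moment of the correlation of a real function. -/

namespace K1H48.SW

open MeasureTheory Set Finset Filter
open Pool.Agent.Y969.GP

noncomputable section

lemma int2_mono' {U : ℝ} (hU : 0 ≤ U) {f g : ℝ → ℝ → ℝ} (hf : Continuous (Function.uncurry f))
    (hg : Continuous (Function.uncurry g)) (h : ∀ t ∈ Icc 0 U, ∀ t' ∈ Icc 0 U, f t t' ≤ g t t') :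
    ∫ t in (0 : ℝ)..U, ∫ t' in (0 : ℝ)..U, f t t' ≤ ∫ t in (0 : ℝ)..U, ∫ t' in (0 : ℝ)..U, g t t' := by
  apply intervalIntegral.integral_mono_on hU
  · exact (intervalIntegral.continuous_parametric_intervalIntegral_of_continuous' hf 0 U).intervalIntegrable _ _
  · exact (intervalIntegral.continuous_parametric_intervalIntegral_of_continuous' hg 0 U).intervalIntegrable _ _
  · intro t ht
    apply intervalIntegral.integral_mono_on hU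
    · exact (hf.comp (by fun_prop : Continuous fun t' : ℝ => (t, t'))).intervalIntegrable _ _
    · exact (hg.comp (by fun_prop : Continuous fun t' : ℝ => (t, t'))).intervalIntegrable _ _
    · intro t' ht'
      exact h t ht t' ht'

lemma Cg_cont (T α β : ℝ) {g : ℝ → ℝ} (hg : Continuous g) :
    Continuous (Function.uncurry fun t t' : ℝ => Cg T α β g t t') := by
  unfold Cg
  have h := intervalIntegral.continuous_parametric_intervalIntegral_of_continuous' (X := ℝ × ℝ) (μ := volume)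
    (f := fun z c => wt T α β c * (g (c + z.1) * g (c + z.2))) (by
      have := wt_cont T α β
      fun_prop) (α * T) (β * T)
  exact h

theorem kmom {k : ℕ} (hk : 2 ≤ k) {K E : ℝ} (hK : 0 ≤ K) (hE : 0 ≤ E) : ∃ C T₀ : ℝ, 0 < C ∧ 1 ≤ T₀ ∧
    ∀ T : ℝ, T₀ ≤ T →
    ∀ (g : ℝ → ℝ) (a a1 a2 : ℕ × ℕ → ℝ → ℝ), Continuous g → Fam (JT T) T K a a1 a2 →
    (∀ u ∈ Icc (T / 2) (8 * T), ‖(g u : ℂ) - gP (JT T) a u‖ ≤ E * T ^ (-(1 / 4) : ℝ)) →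
    ∀ (α β m : ℝ) (J₀ : ℕ), 1 / 2 ≤ α → α ≤ β → β ≤ 4 →
    ∑ p ∈ (FR (2 ^ JT T)).filter (fun p => lev p < J₀), Dp T α β (a p) ≤ m → ∀ U : ℝ, 0 < U → U ≤ √T →
    ∫ t in (0 : ℝ)..U, ∫ t' in (0 : ℝ)..U, |Cg T α β g t t'| ^ k ≤
      C * (T ^ k * U ^ 2 * ((1 + Real.log T) ^ (2 * k) * (tl k J₀ + (1 + Real.log T) ^ (2 * k - 1) / U) +
        m ^ k + (1 + Real.log T) ^ k)) := by
  obtain ⟨C₀, T₀, hC₀, hT₀, h0⟩ := corr_real hK hE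
  obtain ⟨C₁, hC₁, h1⟩ := blk_main hk
  obtain ⟨c, hc⟩ : ∃ c : ℝ, c = (602 * K ^ 2) ^ k * 3 ^ (2 * k - 1) := ⟨_, rfl⟩
  have hc0 : 0 ≤ c := by rw [hc]; positivity
  refine ⟨2 ^ (k - 1) * (C₁ * (c + 1) + C₀ ^ k), T₀, by positivity, hT₀,
    fun T hT g a a1 a2 hg hF hap α β m J₀ hα hαβ hβ hm U hU hUT => ?_⟩
  have hT1 : 1 ≤ T := hT₀.trans hT
  have hTp : 0 < T := by linarith
  have hl := Real.log_nonneg hT1
  have hJ := JT_le hT1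
  obtain ⟨ℓ, hℓ⟩ : ∃ ℓ, ℓ = 1 + Real.log T := ⟨_, rfl⟩
  rw [← hℓ] at hJ
  have hℓ1 : 1 ≤ ℓ := by rw [hℓ]; linarith
  obtain ⟨D, hD⟩ : ∃ D : ℕ × ℕ → ℝ, D = fun p => Dp T α β (a p) := ⟨_, rfl⟩
  have hm' : ∑ p ∈ (FR (2 ^ JT T)).filter (fun p => lev p < J₀), D p ≤ m := by rw [hD]; exact hm
  have hm0 : 0 ≤ m := le_trans (Finset.sum_nonneg fun p _ => by
    rw [hD]; exact Dp_nonneg hTp hαβ _) hm'
  have hblk := h1 (JT T) J₀ D (602 * K ^ 2 * ℓ ^ 2) m U (by positivity) hU (fun p hp => by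
    rw [hD, hℓ]
    exact ⟨Dp_nonneg hTp hαβ _, Dp_fam' hT1 hα hαβ hβ hF hp⟩) hm'
  have hpt : ∀ t ∈ Icc 0 U, ∀ t' ∈ Icc 0 U, |Cg T α β g t t'| ^ k ≤
      2 ^ (k - 1) * ((C₀ * (T * ℓ)) ^ k + T ^ k * ‖Cm (JT T) D (t - t')‖ ^ k) := by
    intro t ht t' ht'
    have h2 := h0 T hT g a a1 a2 hg hF hap α β t t' hα hαβ hβ ht.1 (ht.2.trans hUT) ht'.1 (ht'.2.trans hUT)
    rw [← hD, ← hℓ] at h2
    have h3 : |Cg T α β g t t'| ≤ C₀ * (T * ℓ) + T * ‖Cm (JT T) D (t - t')‖ := by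
      calc |Cg T α β g t t'| = ‖(Cg T α β g t t' : ℂ)‖ := by rw [Complex.norm_real, Real.norm_eq_abs]
        _ = ‖((Cg T α β g t t' : ℂ) - T * Cm (JT T) D (t - t')) + T * Cm (JT T) D (t - t')‖ := by
            rw [sub_add_cancel]
        _ ≤ C₀ * (T * ℓ) + ‖(T : ℂ) * Cm (JT T) D (t - t')‖ := (norm_add_le _ _).trans (by linarith)
        _ = _ := by rw [norm_mul, Complex.norm_real, Real.norm_eq_abs, abs_of_pos hTp]
    refine (pow_le_pow_left₀ (abs_nonneg _) h3 k).trans ((add_pow_le (by positivity) (by positivity) k).trans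
      (le_of_eq ?_))
    rw [mul_pow T]
  have hcL : Continuous (Function.uncurry fun t t' : ℝ => |Cg T α β g t t'| ^ k) :=
    ((Cg_cont T α β hg).abs.pow k)
  have hcC : Continuous (Function.uncurry fun t t' : ℝ => ‖Cm (JT T) D (t - t')‖ ^ k) :=
    uncC (Cm_cont _ _)
  have hcR : Continuous (Function.uncurry fun t t' : ℝ =>
      2 ^ (k - 1) * ((C₀ * (T * ℓ)) ^ k + T ^ k * ‖Cm (JT T) D (t - t')‖ ^ k)) :=
    continuous_const.mul (continuous_const.add (continuous_const.mul hcC))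
  refine (int2_mono' hU.le hcL hcR hpt).trans ?_
  have e1 : ∫ t in (0 : ℝ)..U, ∫ t' in (0 : ℝ)..U,
      2 ^ (k - 1) * ((C₀ * (T * ℓ)) ^ k + T ^ k * ‖Cm (JT T) D (t - t')‖ ^ k) =
      2 ^ (k - 1) * ((C₀ * (T * ℓ)) ^ k * U ^ 2 + T ^ k *
        ∫ t in (0 : ℝ)..U, ∫ t' in (0 : ℝ)..U, ‖Cm (JT T) D (t - t')‖ ^ k) := by
    have := int_expand {0} (fun _ => T ^ k) (fun _ t t' => ‖Cm (JT T) D (t - t')‖ ^ k) (fun _ => hcC)
      (2 ^ (k - 1)) ((C₀ * (T * ℓ)) ^ k) U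
    simpa only [Finset.sum_singleton] using this
  rw [e1, ← hℓ, mul_assoc (2 ^ (k - 1))]
  apply mul_le_mul_of_nonneg_left _ (by positivity)
  have htl := tl_nonneg k J₀
  have a1 : (602 * K ^ 2 * ℓ ^ 2) ^ k * (tl k J₀ + ((JT T : ℕ) + 1 : ℝ) ^ (2 * k - 1) / U) ≤
      c * (ℓ ^ (2 * k) * (tl k J₀ + ℓ ^ (2 * k - 1) / U)) := by
    have e2 : (602 * K ^ 2 * ℓ ^ 2) ^ k = (602 * K ^ 2) ^ k * ℓ ^ (2 * k) := by
      rw [mul_pow, pow_mul]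
    have h3 : ((JT T : ℕ) + 1 : ℝ) ^ (2 * k - 1) ≤ 3 ^ (2 * k - 1) * ℓ ^ (2 * k - 1) := by
      rw [← mul_pow]
      exact pow_le_pow_left₀ (by positivity) hJ _
    have h4 : tl k J₀ + ((JT T : ℕ) + 1 : ℝ) ^ (2 * k - 1) / U ≤
        3 ^ (2 * k - 1) * (tl k J₀ + ℓ ^ (2 * k - 1) / U) := by
      have h5 : (1 : ℝ) ≤ 3 ^ (2 * k - 1) := one_le_pow₀ (by norm_num)
      have h6 : ((JT T : ℕ) + 1 : ℝ) ^ (2 * k - 1) / U ≤ 3 ^ (2 * k - 1) * (ℓ ^ (2 * k - 1) / U) := by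
        rw [mul_div_assoc']
        exact div_le_div_of_nonneg_right h3 hU.le
      nlinarith
    calc (602 * K ^ 2 * ℓ ^ 2) ^ k * (tl k J₀ + ((JT T : ℕ) + 1 : ℝ) ^ (2 * k - 1) / U) ≤
          (602 * K ^ 2 * ℓ ^ 2) ^ k * (3 ^ (2 * k - 1) * (tl k J₀ + ℓ ^ (2 * k - 1) / U)) :=
          mul_le_mul_of_nonneg_left h4 (by positivity)
      _ = _ := by rw [e2, hc]; ring
  obtain ⟨Y, hY⟩ : ∃ Y : ℝ, Y = ℓ ^ (2 * k) * (tl k J₀ + ℓ ^ (2 * k - 1) / U) := ⟨_, rfl⟩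
  have hY0 : 0 ≤ Y := by rw [hY]; positivity
  rw [← hY] at a1
  rw [← hY]
  have a2 : T ^ k * ∫ t in (0 : ℝ)..U, ∫ t' in (0 : ℝ)..U, ‖Cm (JT T) D (t - t')‖ ^ k ≤
      T ^ k * (C₁ * (U ^ 2 * (c * Y + m ^ k))) := by
    apply mul_le_mul_of_nonneg_left _ (by positivity)
    refine hblk.trans ?_
    apply mul_le_mul_of_nonneg_left _ hC₁.le
    apply mul_le_mul_of_nonneg_left _ (by positivity)
    linarith
  have a3 : (C₀ * (T * ℓ)) ^ k * U ^ 2 = C₀ ^ k * (T ^ k * U ^ 2 * ℓ ^ k) := by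
    rw [mul_pow, mul_pow]; ring
  rw [a3]
  have b1 : 0 ≤ T ^ k * U ^ 2 := by positivity
  have b2 : 0 ≤ T ^ k * U ^ 2 * Y := mul_nonneg b1 hY0
  have b3 : 0 ≤ T ^ k * U ^ 2 * m ^ k := by positivity
  have b4 : 0 ≤ T ^ k * U ^ 2 * ℓ ^ k := by positivity
  have b5 : 0 ≤ C₀ ^ k := by positivity
  have b6 : 0 ≤ C₁ * (c + 1) := by positivity
  calc C₀ ^ k * (T ^ k * U ^ 2 * ℓ ^ k) + T ^ k * ∫ t in (0 : ℝ)..U, ∫ t' in (0 : ℝ)..U, ‖Cm (JT T) D (t - t')‖ ^ k ≤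
        C₀ ^ k * (T ^ k * U ^ 2 * ℓ ^ k) + T ^ k * (C₁ * (U ^ 2 * (c * Y + m ^ k))) := by linarith
    _ = C₀ ^ k * (T ^ k * U ^ 2 * ℓ ^ k) + (C₁ * c * (T ^ k * U ^ 2 * Y) + C₁ * (T ^ k * U ^ 2 * m ^ k)) := by ring
    _ ≤ (C₁ * (c + 1) + C₀ ^ k) * (T ^ k * U ^ 2 * Y) + (C₁ * (c + 1) + C₀ ^ k) * (T ^ k * U ^ 2 * m ^ k) +
        (C₁ * (c + 1) + C₀ ^ k) * (T ^ k * U ^ 2 * ℓ ^ k) := by
        nlinarith [mul_nonneg b5 b2, mul_nonneg b5 b3, mul_nonneg b6 b4, mul_nonneg hC₁.le b2,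
          mul_nonneg (mul_nonneg hC₁.le hc0) b3]
    _ = _ := by ring

end

end K1H48.SW
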