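import Pool.Agent.K1H48.SW.Afe
import Pool.Agent.K1H48.SW.Km2
import Pool.Agent.K1H48.SW.Fub

set_option autoImplicit false

/-! Comparison of the short averages of the product with those of the model. -/

namespace K1H48.SW

open MeasureTheory Set Finset Filter
open Pool.Agent.Y969.GP

noncomputable section

lemma int_bm {k : ℕ} {a b : ℝ} {Φ : (Fin k → ℝ) → ℝ} (hΦ : Continuous Φ) : Integrable Φ (bm k a b) := by
  rw [bm_eq]
  exact hΦ.continuousOn.integrableOn_compact (isCompact_univ_pi fun _ => isCompact_Icc)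

lemma cont_avg {k : ℕ} {g : Fin k → ℝ → ℝ} (hg : ∀ j, Continuous (g j)) (U : ℝ) :
    Continuous (fun c : Fin k → ℝ => ∫ t in (0 : ℝ)..U, ∏ j, g j (c j + t)) := by
  apply intervalIntegral.continuous_parametric_intervalIntegral_of_continuous'
    (f := fun (c : Fin k → ℝ) t => ∏ j, g j (c j + t))
  unfold Function.uncurry
  fun_prop

/-- the functions in the telescoping sum -/
def gi {k : ℕ} (f q : ℝ → ℝ) (i j : Fin k) (u : ℝ) : ℝ := if j = i then f u - q u else if j < i then q u else f u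

lemma gi_cont {k : ℕ} {f q : ℝ → ℝ} (hf : Continuous f) (hq : Continuous q) (i j : Fin k) :
    Continuous (gi f q i j) := by
  unfold gi
  by_cases h : j = i
  · simp only [h, if_true]; exact hf.sub hq
  · by_cases h' : j < i
    · simp only [h, h', if_true, if_false]; exact hq
    · simp only [h, h', if_false]; exact hf

lemma Cg_gi {k : ℕ} (T α β : ℝ) (f q : ℝ → ℝ) (i j : Fin k) (t t' : ℝ) :
    |Cg T α β (gi f q i j) t t'| = if j = i then |Cg T α β (fun u => f u - q u) t t'| else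
      if j < i then |Cg T α β q t t'| else |Cg T α β f t t'| := by
  unfold gi
  by_cases h : j = i
  · simp only [h, if_true]
  · by_cases h' : j < i
    · simp only [h, h', if_true, if_false]
    · simp only [h, h', if_false]

theorem asm0 {k : ℕ} {T α β U δ : ℝ} (hαβ : α * T ≤ β * T) (hU : 0 ≤ U) (hδ : 0 < δ) {f q : ℝ → ℝ}
    (hf : Continuous f) (hq : Continuous q) :
    ∫ c, (∏ j, wt T α β (c j)) * ((∫ t in (0 : ℝ)..U, ∏ j, f (c j + t)) -
      ∫ t in (0 : ℝ)..U, ∏ j, q (c j + t)) ^ 2 ∂(bm k (α * T) (β * T)) ≤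
    (k : ℝ) ^ 2 * ((δ⁻¹ ^ (k - 1)) ^ k *
      (∫ t in (0 : ℝ)..U, ∫ t' in (0 : ℝ)..U, |Cg T α β (fun u => f u - q u) t t'| ^ k) +
      δ ^ k * ((∫ t in (0 : ℝ)..U, ∫ t' in (0 : ℝ)..U, |Cg T α β q t t'| ^ k) +
      ∫ t in (0 : ℝ)..U, ∫ t' in (0 : ℝ)..U, |Cg T α β f t t'| ^ k)) := by
  have hw := wt_cont T α β
  have hgc : ∀ i j : Fin k, Continuous (gi f q i j) := gi_cont hf hq
  -- telescoping
  have h1 : ∀ c : Fin k → ℝ, (∫ t in (0 : ℝ)..U, ∏ j, f (c j + t)) - ∫ t in (0 : ℝ)..U, ∏ j, q (c j + t) =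
      ∑ i, ∫ t in (0 : ℝ)..U, ∏ j, gi f q i j (c j + t) := by
    intro c
    rw [← intervalIntegral.integral_sub]
    · have e : ∀ t : ℝ, ∏ j, f (c j + t) - ∏ j, q (c j + t) = ∑ i, ∏ j, gi f q i j (c j + t) := fun t =>
        tele (fun j => f (c j + t)) (fun j => q (c j + t))
      simp_rw [e]
      rw [intervalIntegral.integral_finsetSum]
      intro i _
      apply Continuous.intervalIntegrable
      exact continuous_finsetProd _ fun j _ => (hgc i j).comp (by fun_prop)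
    · apply Continuous.intervalIntegrable
      fun_prop
    · apply Continuous.intervalIntegrable
      fun_prop
  have h2 : ∀ c : Fin k → ℝ, (∏ j, wt T α β (c j)) * ((∫ t in (0 : ℝ)..U, ∏ j, f (c j + t)) -
      ∫ t in (0 : ℝ)..U, ∏ j, q (c j + t)) ^ 2 ≤
      (k : ℝ) * ∑ i, (∏ j, wt T α β (c j)) * (∫ t in (0 : ℝ)..U, ∏ j, gi f q i j (c j + t)) ^ 2 := by
    intro c
    rw [h1 c]
    have h3 := sq_sum_le_card_mul_sum_sq (s := (Finset.univ : Finset (Fin k)))
      (f := fun i => ∫ t in (0 : ℝ)..U, ∏ j, gi f q i j (c j + t))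
    rw [Finset.card_univ, Fintype.card_fin] at h3
    have h4 : 0 ≤ ∏ j, wt T α β (c j) := Finset.prod_nonneg fun j _ => wt_nonneg _ _ _ _
    refine (mul_le_mul_of_nonneg_left h3 h4).trans (le_of_eq ?_)
    rw [← Finset.mul_sum]
    ring
  have hci : ∀ i : Fin k, Continuous (fun c : Fin k → ℝ => (∏ j, wt T α β (c j)) *
      (∫ t in (0 : ℝ)..U, ∏ j, gi f q i j (c j + t)) ^ 2) := by
    intro i
    exact (by fun_prop : Continuous fun c : Fin k → ℝ => ∏ j, wt T α β (c j)).mul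
      ((cont_avg (hgc i) U).pow 2)
  have hcl : Continuous (fun c : Fin k → ℝ => (∏ j, wt T α β (c j)) * ((∫ t in (0 : ℝ)..U, ∏ j, f (c j + t)) -
      ∫ t in (0 : ℝ)..U, ∏ j, q (c j + t)) ^ 2) :=
    (by fun_prop : Continuous fun c : Fin k → ℝ => ∏ j, wt T α β (c j)).mul
      (((cont_avg (fun _ : Fin k => hf) U).sub (cont_avg (fun _ : Fin k => hq) U)).pow 2)
  have h3 := integral_mono (μ := bm k (α * T) (β * T)) (int_bm hcl)
    ((int_bm (continuous_finsetSum _ fun i _ => hci i)).const_mul (k : ℝ)) h2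
  refine h3.trans ?_
  rw [integral_const_mul, integral_finsetSum _ (fun i _ => int_bm (hci i))]
  -- each term
  have h4 : ∀ i : Fin k, ∫ c, (∏ j, wt T α β (c j)) * (∫ t in (0 : ℝ)..U, ∏ j, gi f q i j (c j + t)) ^ 2
      ∂(bm k (α * T) (β * T)) ≤ (δ⁻¹ ^ (k - 1)) ^ k *
      (∫ t in (0 : ℝ)..U, ∫ t' in (0 : ℝ)..U, |Cg T α β (fun u => f u - q u) t t'| ^ k) +
      δ ^ k * ((∫ t in (0 : ℝ)..U, ∫ t' in (0 : ℝ)..U, |Cg T α β q t t'| ^ k) +
      ∫ t in (0 : ℝ)..U, ∫ t' in (0 : ℝ)..U, |Cg T α β f t t'| ^ k) := by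
    intro i
    rw [fub hU _ hw _ (hgc i)]
    have e1 : ∀ t t' : ℝ, ∏ j, ∫ x in Icc (α * T) (β * T), wt T α β x * (gi f q i j (x + t) * gi f q i j (x + t')) =
        ∏ j, Cg T α β (gi f q i j) t t' := by
      intro t t'
      refine Finset.prod_congr rfl fun j _ => ?_
      unfold Cg
      rw [intervalIntegral.integral_of_le hαβ, integral_Icc_eq_integral_Ioc]
    simp_rw [e1]
    have hc1 : Continuous (Function.uncurry fun t t' : ℝ => ∏ j, Cg T α β (gi f q i j) t t') :=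
      continuous_finsetProd _ fun j _ => Cg_cont T α β (hgc i j)
    have hfq : Continuous fun u => f u - q u := hf.sub hq
    have hcd : Continuous (Function.uncurry fun t t' : ℝ => |Cg T α β (fun u => f u - q u) t t'| ^ k) :=
      (Cg_cont T α β hfq).abs.pow k
    have hcq : Continuous (Function.uncurry fun t t' : ℝ => |Cg T α β q t t'| ^ k) :=
      (Cg_cont T α β hq).abs.pow k
    have hcf : Continuous (Function.uncurry fun t t' : ℝ => |Cg T α β f t t'| ^ k) :=
      (Cg_cont T α β hf).abs.pow k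
    have hc2 : Continuous (Function.uncurry fun t t' : ℝ => (δ⁻¹ ^ (k - 1)) ^ k *
        |Cg T α β (fun u => f u - q u) t t'| ^ k + δ ^ k * (|Cg T α β q t t'| ^ k + |Cg T α β f t t'| ^ k)) :=
      (continuous_const.mul hcd).add (continuous_const.mul (hcq.add hcf))
    refine (int2_mono hU hc1 hc2 fun t t' => ?_).trans (le_of_eq ?_)
    · refine (le_abs_self _).trans ?_
      rw [Finset.abs_prod]
      simp_rw [Cg_gi]
      exact prod_ineq i (abs_nonneg _) (abs_nonneg _) (abs_nonneg _) hδ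
    · have i1 : ∀ (G : ℝ → ℝ → ℝ), Continuous (Function.uncurry G) → ∀ t : ℝ,
          IntervalIntegrable (G t) volume 0 U := fun G hG t =>
        (hG.comp (by fun_prop : Continuous fun t' : ℝ => (t, t'))).intervalIntegrable _ _
      have i2 : ∀ (G : ℝ → ℝ → ℝ), Continuous (Function.uncurry G) →
          IntervalIntegrable (fun t => ∫ t' in (0 : ℝ)..U, G t t') volume 0 U := fun G hG =>
        (intervalIntegral.continuous_parametric_intervalIntegral_of_continuous' hG 0 U).intervalIntegrable _ _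
      have e2 : ∀ t : ℝ, ∫ t' in (0 : ℝ)..U, ((δ⁻¹ ^ (k - 1)) ^ k * |Cg T α β (fun u => f u - q u) t t'| ^ k +
          δ ^ k * (|Cg T α β q t t'| ^ k + |Cg T α β f t t'| ^ k)) =
          (δ⁻¹ ^ (k - 1)) ^ k * (∫ t' in (0 : ℝ)..U, |Cg T α β (fun u => f u - q u) t t'| ^ k) +
          δ ^ k * ((∫ t' in (0 : ℝ)..U, |Cg T α β q t t'| ^ k) + ∫ t' in (0 : ℝ)..U, |Cg T α β f t t'| ^ k) := by
        intro t
        rw [intervalIntegral.integral_add ((i1 _ hcd t).const_mul _)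
          (((i1 _ hcq t).add (i1 _ hcf t)).const_mul _), intervalIntegral.integral_const_mul,
          intervalIntegral.integral_const_mul, intervalIntegral.integral_add (i1 _ hcq t) (i1 _ hcf t)]
      simp_rw [e2]
      rw [intervalIntegral.integral_add ((i2 _ hcd).const_mul _)
          (((i2 _ hcq).add (i2 _ hcf)).const_mul _), intervalIntegral.integral_const_mul,
          intervalIntegral.integral_const_mul, intervalIntegral.integral_add (i2 _ hcq) (i2 _ hcf)]
  calc _ ≤ (k : ℝ) * ∑ _i : Fin k, ((δ⁻¹ ^ (k - 1)) ^ k *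
      (∫ t in (0 : ℝ)..U, ∫ t' in (0 : ℝ)..U, |Cg T α β (fun u => f u - q u) t t'| ^ k) +
      δ ^ k * ((∫ t in (0 : ℝ)..U, ∫ t' in (0 : ℝ)..U, |Cg T α β q t t'| ^ k) +
      ∫ t in (0 : ℝ)..U, ∫ t' in (0 : ℝ)..U, |Cg T α β f t t'| ^ k)) := by
        apply mul_le_mul_of_nonneg_left _ (by positivity)
        exact Finset.sum_le_sum fun i _ => h4 i
    _ = _ := by
        rw [Finset.sum_const, Finset.card_univ, Fintype.card_fin, nsmul_eq_mul]
        ring

/-! ### The model as a real function -/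

/-- the model, as a real function -/
def qr (T : ℝ) (S : Finset (ℕ × ℕ)) (u : ℝ) : ℝ :=
  Real.log T * ∑ p ∈ S, (√(ht p))⁻¹ * Real.cos (u * lam p)

lemma qr_cont (T : ℝ) (S : Finset (ℕ × ℕ)) : Continuous (qr T S) := by
  unfold qr; fun_prop

/-- symmetric sets of pairs -/
def Sym (S : Finset (ℕ × ℕ)) : Prop := ∀ p ∈ S, p.swap ∈ S

lemma lam_swap (p : ℕ × ℕ) : lam p.swap = - lam p := by
  unfold lam; simp

lemma ht_swap (p : ℕ × ℕ) : ht p.swap = ht p := by
  unfold ht; simp [mul_comm]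

lemma ex_re (u x : ℝ) : ex u x = (Real.cos (u * x) : ℂ) + (Real.sin (u * x) : ℂ) * Complex.I := by
  unfold ex
  rw [mul_comm Complex.I, Complex.exp_mul_I, ← Complex.ofReal_cos, ← Complex.ofReal_sin]

lemma Qf_real {S : Finset (ℕ × ℕ)} (hS : Sym S) (T u : ℝ) : Qf T S u = (qr T S u : ℂ) := by
  have h1 : ∑ p ∈ S, (√(ht p))⁻¹ * Real.sin (u * lam p) = 0 := by
    have h2 : ∑ p ∈ S, (√(ht p))⁻¹ * Real.sin (u * lam p) =
        ∑ p ∈ S, (√(ht p.swap))⁻¹ * Real.sin (u * lam p.swap) := by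
      symm
      apply Finset.sum_bij (fun p _ => p.swap) (fun p hp => hS p hp)
      · intro p _ q _ h
        exact Prod.swap_injective h
      · intro q hq
        exact ⟨q.swap, hS q hq, Prod.swap_swap q⟩
      · intro p _; rfl
    have h3 : ∑ p ∈ S, (√(ht p.swap))⁻¹ * Real.sin (u * lam p.swap) =
        - ∑ p ∈ S, (√(ht p))⁻¹ * Real.sin (u * lam p) := by
      rw [← Finset.sum_neg_distrib]
      refine Finset.sum_congr rfl fun p _ => ?_
      rw [ht_swap, lam_swap, mul_neg, Real.sin_neg]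
      ring
    linarith
  unfold Qf qr
  simp_rw [ex_re]
  have h2 : ∑ p ∈ S, ((√(ht p))⁻¹ : ℂ) * ((Real.cos (u * lam p) : ℂ) + (Real.sin (u * lam p) : ℂ) * Complex.I) =
      ((∑ p ∈ S, (√(ht p))⁻¹ * Real.cos (u * lam p) : ℝ) : ℂ) +
      ((∑ p ∈ S, (√(ht p))⁻¹ * Real.sin (u * lam p) : ℝ) : ℂ) * Complex.I := by
    push_cast
    rw [Finset.sum_mul, ← Finset.sum_add_distrib]
    refine Finset.sum_congr rfl fun p _ => ?_
    ring
  rw [h2, h1]
  push_cast
  ring

/-- the low part of the difference -/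
theorem low_m (J₀ : ℕ) : ∃ m T₀ : ℝ, 0 ≤ m ∧ 1 ≤ T₀ ∧ ∀ T : ℝ, T₀ ≤ T → ∀ (S : Finset (ℕ × ℕ)) (α β : ℝ),
    FR (2 ^ J₀) ⊆ S → 1 / 2 ≤ α → α ≤ β → β ≤ 4 →
    ∑ p ∈ (FR (2 ^ JT T)).filter (fun p => lev p < J₀),
      Dp T α β (fun u => cr (2 ^ JT T) p u - aQ T S p u) ≤ m := by
  obtain ⟨C, hC, h⟩ := cr_low
  have hpi := Real.pi_gt_three
  have hpi0 := Real.pi_pos
  have hP : (1 : ℝ) ≤ 2 ^ J₀ := one_le_pow₀ (by norm_num)
  obtain ⟨H, hH⟩ : ∃ H : ℝ, H = Real.log (2 * Real.pi * 2 ^ J₀) := ⟨_, rfl⟩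
  have hH0 : 0 ≤ H := by rw [hH]; apply Real.log_nonneg; nlinarith
  refine ⟨((FR (2 ^ J₀)).card : ℝ) * (602 * (C + H + 3) ^ 2), max 8 (4 * Real.pi * 2 ^ J₀), by positivity,
    (by norm_num : (1 : ℝ) ≤ 8).trans (le_max_left _ _), fun T hT S α β hS hα hαβ hβ => ?_⟩
  have hT8 : 8 ≤ T := (le_max_left _ _).trans hT
  have hTJ : 4 * Real.pi * 2 ^ J₀ ≤ T := (le_max_right _ _).trans hT
  have hT0 : 0 < T := by linarith
  have hterm : ∀ p ∈ (FR (2 ^ JT T)).filter (fun p => lev p < J₀),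
      Dp T α β (fun u => cr (2 ^ JT T) p u - aQ T S p u) ≤ 602 * (C + H + 3) ^ 2 := by
    intro p hp
    rw [Finset.mem_filter, FR_iff] at hp
    obtain ⟨⟨h1, h2, h3, h4⟩, h5⟩ := hp
    have hpS : p ∈ S := hS (FR_mono (Nat.pow_le_pow_right (by norm_num) h5.le) (mem_FR_lev h1 h2 h4))
    have hh := ht_pos h1 h2
    have hh1 := ht_one_le h1 h2
    have hhJ : ht p ≤ 2 ^ J₀ := ht_le_lev.trans (pow_le_pow_right₀ (by norm_num) h5.le)
    apply Dp_le hT0 hα hαβ hβ
    intro u hu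
    have hu0 : 0 < u := by linarith [hu.1]
    have hcast : ((2 ^ JT T : ℕ) : ℝ) = 2 ^ JT T := by push_cast; rfl
    have a1 : u ≤ ((2 ^ JT T : ℕ) : ℝ) := by
      rw [hcast]
      have := JT_pow (T := T) (by linarith)
      nlinarith [hu.2]
    have a2 : 2 * Real.pi * ht p ≤ u := by
      have : 2 * Real.pi * ht p ≤ 2 * Real.pi * 2 ^ J₀ := mul_le_mul_of_nonneg_left hhJ (by positivity)
      linarith [hu.1]
    have h6 := h (2 ^ JT T) p u h1 h2 a2 a1
    have hs0 : 0 < √(ht p) := Real.sqrt_pos.2 hh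
    have hs1 : 1 ≤ √(ht p) := Real.one_le_sqrt.2 hh1
    have a3 : |Real.log u - Real.log T| ≤ 3 := by
      have hl2 := Real.log_two_lt_d9
      rw [abs_le]
      constructor
      · have : Real.log (T / 2) ≤ Real.log u := Real.log_le_log (by linarith) hu.1
        rw [Real.log_div hT0.ne' (by norm_num)] at this
        linarith
      · have : Real.log u ≤ Real.log (8 * T) := Real.log_le_log hu0 hu.2
        rw [Real.log_mul (by norm_num) hT0.ne', show (8 : ℝ) = 2 ^ 3 by norm_num, Real.log_pow] at this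
        push_cast at this
        linarith
    have a4 : |Real.log (2 * Real.pi * ht p)| ≤ H := by
      rw [abs_of_nonneg (Real.log_nonneg (by nlinarith)), hH]
      apply Real.log_le_log (by positivity)
      exact mul_le_mul_of_nonneg_left hhJ (by positivity)
    have a5 : |√(ht p) * cr (2 ^ JT T) p u - Real.log T| ≤ C + H + 3 := by
      have e : √(ht p) * cr (2 ^ JT T) p u - Real.log T =
          (√(ht p) * cr (2 ^ JT T) p u - (Real.log u - Real.log (2 * Real.pi * ht p))) +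
          ((Real.log u - Real.log T) - Real.log (2 * Real.pi * ht p)) := by ring
      rw [e]
      refine (abs_add_le _ _).trans ?_
      have := abs_sub (Real.log u - Real.log T) (Real.log (2 * Real.pi * ht p))
      linarith
    unfold aQ
    rw [if_pos hpS]
    have e : cr (2 ^ JT T) p u - Real.log T * (√(ht p))⁻¹ =
        (√(ht p))⁻¹ * (√(ht p) * cr (2 ^ JT T) p u - Real.log T) := by
      field_simp
    rw [e, abs_mul, abs_of_pos (inv_pos.2 hs0)]
    have h7 : (√(ht p))⁻¹ ≤ 1 := inv_le_one_of_one_le₀ hs1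
    calc _ ≤ 1 * (C + H + 3) := mul_le_mul h7 a5 (abs_nonneg _) (by norm_num)
      _ = _ := one_mul _
  refine (Finset.sum_le_sum hterm).trans ?_
  rw [Finset.sum_const, nsmul_eq_mul]
  apply mul_le_mul_of_nonneg_right _ (by positivity)
  have h8 : (FR (2 ^ JT T)).filter (fun p => lev p < J₀) ⊆ FR (2 ^ J₀) := by
    intro p hp
    rw [Finset.mem_filter, FR_iff] at hp
    exact FR_mono (Nat.pow_le_pow_right (by norm_num) hp.2.le) (mem_FR_lev hp.1.1 hp.1.2.1 hp.1.2.2.2)
  exact_mod_cast Finset.card_le_card h8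

end

end K1H48.SW
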