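import Pool.Agent.K1H48.SW.Corr

set_option autoImplicit false

/-! The `k`-th moment of the correlation. -/

namespace K1H48.SW

open MeasureTheory Set Finset
open Pool.Agent.Y969.GP

noncomputable section

/-- the integral of the oscillating factor -/
def Iex (U Δ : ℝ) : ℂ := ∫ t in (0 : ℝ)..U, ex t Δ

lemma Iex_le {U Δ : ℝ} (hU : 0 ≤ U) : ‖Iex U Δ‖ ≤ U := by
  unfold Iex
  have h := intervalIntegral.norm_integral_le_of_norm_le_const (a := 0) (b := U) (C := 1)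
    (f := fun t => ex t Δ) (fun t _ => (norm_ex t Δ).le)
  rwa [sub_zero, abs_of_nonneg hU, one_mul] at h

lemma Iex_le2 {U Δ : ℝ} (hΔ : Δ ≠ 0) : ‖Iex U Δ‖ ≤ 2 / |Δ| := by
  have hI : (Complex.I * (Δ : ℂ)) ≠ 0 := mul_ne_zero Complex.I_ne_zero (by exact_mod_cast hΔ)
  have h : Iex U Δ = (ex U Δ - 1) * (Complex.I * Δ)⁻¹ := by
    unfold Iex
    have h1 := intervalIntegral.integral_eq_sub_of_hasDerivAt (a := 0) (b := U)
      (f := fun t => ex t Δ * (Complex.I * (Δ : ℂ))⁻¹) (f' := fun t => ex t Δ) (fun t _ => by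
        have := (ex_deriv t Δ).mul_const (Complex.I * (Δ : ℂ))⁻¹
        refine this.congr_deriv ?_
        rw [mul_assoc, mul_inv_cancel₀ hI, mul_one]) ((ex_cont Δ).intervalIntegrable _ _)
    rw [h1, ex_zero']
    ring
  rw [h, norm_mul, norm_inv, norm_mul, Complex.norm_I, one_mul, Complex.norm_real, Real.norm_eq_abs,
    div_eq_mul_inv]
  apply mul_le_mul_of_nonneg_right _ (by positivity)
  calc ‖ex U Δ - 1‖ ≤ ‖ex U Δ‖ + ‖(1 : ℂ)‖ := norm_sub_le _ _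
    _ = 2 := by rw [norm_ex, norm_one]; norm_num

lemma Iex_sq {U Δ : ℝ} (hU : 0 ≤ U) : ‖Iex U Δ‖ ^ 2 ≤ 5 * U ^ 2 * (1 / (1 + (U * Δ) ^ 2)) := by
  rw [mul_one_div, le_div_iff₀ (by positivity)]
  have h1 : ‖Iex U Δ‖ ^ 2 ≤ U ^ 2 := pow_le_pow_left₀ (norm_nonneg _) (Iex_le hU) 2
  by_cases hΔ : Δ = 0
  · subst hΔ
    have : 0 ≤ U ^ 2 := sq_nonneg U
    nlinarith
  · have h2 : ‖Iex U Δ‖ ^ 2 * Δ ^ 2 ≤ 4 := by
      have h3 := Iex_le2 (U := U) hΔ
      rw [le_div_iff₀ (abs_pos.2 hΔ)] at h3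
      have h4 := pow_le_pow_left₀ (by positivity) h3 2
      rw [mul_pow, sq_abs] at h4
      linarith
    have h5 : 0 ≤ U ^ 2 := sq_nonneg U
    nlinarith [mul_le_mul_of_nonneg_left h2 h5]

lemma Iex_neg (U Δ : ℝ) : Iex U (-Δ) = (starRingEnd ℂ) (Iex U Δ) := by
  unfold Iex
  rw [← intervalIntegral.intervalIntegral_conj]
  congr 1
  funext t
  rw [ex_conj]

/-- the mean square of a trigonometric polynomial in `t - t'` -/
lemma msq (s : Finset (ℕ × ℕ)) (D : ℕ × ℕ → ℝ) (U : ℝ) :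
    ∫ t in (0 : ℝ)..U, ∫ t' in (0 : ℝ)..U, ‖∑ p ∈ s, (D p : ℂ) * ex (t - t') (lam p)‖ ^ 2 =
      ∑ p ∈ s, ∑ q ∈ s, D p * D q * ‖Iex U (lam p - lam q)‖ ^ 2 := by
  have h1 : ∀ t t' : ℝ, ((‖∑ p ∈ s, (D p : ℂ) * ex (t - t') (lam p)‖ ^ 2 : ℝ) : ℂ) =
      ∑ p ∈ s, ∑ q ∈ s, ((D p : ℂ) * D q) * (ex t (lam p - lam q) * ex t' (-(lam p - lam q))) := by
    intro t t'
    rw [← Complex.normSq_eq_norm_sq, ← Complex.mul_conj, map_sum, Finset.sum_mul_sum]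
    refine Finset.sum_congr rfl fun p _ => Finset.sum_congr rfl fun q _ => ?_
    rw [map_mul, Complex.conj_ofReal, ex_conj]
    have e : ex (t - t') (lam p) * ex (t - t') (-lam q) = ex t (lam p - lam q) * ex t' (-(lam p - lam q)) := by
      rw [← ex_add', ← sub_eq_add_neg, sub_eq_add_neg t, ex_add, ex_neg]
    rw [← e]
    ring
  have h2 : ((∫ t in (0 : ℝ)..U, ∫ t' in (0 : ℝ)..U, ‖∑ p ∈ s, (D p : ℂ) * ex (t - t') (lam p)‖ ^ 2 : ℝ) : ℂ) =
      ((∑ p ∈ s, ∑ q ∈ s, D p * D q * ‖Iex U (lam p - lam q)‖ ^ 2 : ℝ) : ℂ) := by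
    rw [← intervalIntegral.integral_ofReal]
    simp_rw [← intervalIntegral.integral_ofReal, h1]
    have h3 : ∀ t : ℝ, ∫ t' in (0 : ℝ)..U, ∑ p ∈ s, ∑ q ∈ s, ((D p : ℂ) * D q) *
        (ex t (lam p - lam q) * ex t' (-(lam p - lam q))) =
        ∑ p ∈ s, ∑ q ∈ s, ((D p : ℂ) * D q * Iex U (-(lam p - lam q))) * ex t (lam p - lam q) := by
      intro t
      have hc : ∀ p q : ℕ × ℕ, Continuous (fun t' : ℝ => ((D p : ℂ) * D q) *
          (ex t (lam p - lam q) * ex t' (-(lam p - lam q)))) := fun p q =>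
        continuous_const.mul (continuous_const.mul (ex_cont _))
      rw [intervalIntegral.integral_finsetSum (fun p _ =>
        (continuous_finsetSum _ fun q _ => hc p q).intervalIntegrable _ _)]
      refine Finset.sum_congr rfl fun p _ => ?_
      rw [intervalIntegral.integral_finsetSum (fun q _ => (hc p q).intervalIntegrable _ _)]
      refine Finset.sum_congr rfl fun q _ => ?_
      rw [intervalIntegral.integral_const_mul, intervalIntegral.integral_const_mul]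
      unfold Iex
      ring
    simp_rw [h3]
    have hc : ∀ p q : ℕ × ℕ, Continuous (fun t : ℝ => ((D p : ℂ) * D q * Iex U (-(lam p - lam q))) *
        ex t (lam p - lam q)) := fun p q => continuous_const.mul (ex_cont _)
    rw [intervalIntegral.integral_finsetSum (fun p _ =>
      (continuous_finsetSum _ fun q _ => hc p q).intervalIntegrable _ _)]
    push_cast
    refine Finset.sum_congr rfl fun p _ => ?_
    rw [intervalIntegral.integral_finsetSum (fun q _ => (hc p q).intervalIntegrable _ _)]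
    refine Finset.sum_congr rfl fun q _ => ?_
    rw [intervalIntegral.integral_const_mul]
    have e : ∫ t in (0 : ℝ)..U, ex t (lam p - lam q) = Iex U (lam p - lam q) := rfl
    rw [e, Iex_neg, mul_assoc, mul_comm ((starRingEnd ℂ) _), Complex.mul_conj, Complex.normSq_eq_norm_sq]
    push_cast
    ring
  exact_mod_cast h2

/-- a block -/
def Bj (J : ℕ) (D : ℕ × ℕ → ℝ) (j : ℕ) (v : ℝ) : ℂ := ∑ p ∈ blk J j, (D p : ℂ) * ex v (lam p)

lemma Bj_cont (J : ℕ) (D : ℕ × ℕ → ℝ) (j : ℕ) : Continuous (Bj J D j) :=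
  continuous_finsetSum _ fun _ _ => continuous_const.mul (ex_cont _)

lemma Cm_cont (J : ℕ) (D : ℕ × ℕ → ℝ) : Continuous (Cm J D) :=
  continuous_finsetSum _ fun _ _ => continuous_const.mul (ex_cont _)

lemma D_blk {J j : ℕ} {D : ℕ × ℕ → ℝ} {M : ℝ} (hM : 0 ≤ M)
    (hD : ∀ p ∈ FR (2 ^ J), 0 ≤ D p ∧ D p ≤ M / ht p) {p : ℕ × ℕ} (hp : p ∈ blk J j) :
    0 ≤ D p ∧ D p ≤ 2 * M / 2 ^ j := by
  have hp' : p ∈ FR (2 ^ J) := (Finset.mem_filter.1 hp).1
  obtain ⟨h1, h2⟩ := hD p hp'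
  refine ⟨h1, h2.trans ?_⟩
  obtain ⟨h3, -⟩ := blk_ht hp
  obtain ⟨a1, a2⟩ := blk_pos hp
  rw [div_le_div_iff₀ (ht_pos a1 a2) (by positivity)]
  nlinarith

lemma Bj_sup {J j : ℕ} {D : ℕ × ℕ → ℝ} {M : ℝ} (hM : 0 ≤ M)
    (hD : ∀ p ∈ FR (2 ^ J), 0 ≤ D p ∧ D p ≤ M / ht p) (v : ℝ) :
    ‖Bj J D j v‖ ≤ 2 * M * (j + 1) := by
  unfold Bj
  refine (norm_sum_le _ _).trans ?_
  have h1 : ∀ p ∈ blk J j, ‖(D p : ℂ) * ex v (lam p)‖ ≤ 2 * M / 2 ^ j := by
    intro p hp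
    obtain ⟨h1, h2⟩ := D_blk hM hD hp
    rw [norm_mul, norm_ex, mul_one, Complex.norm_real, Real.norm_eq_abs, abs_of_nonneg h1]
    exact h2
  refine (Finset.sum_le_sum h1).trans ?_
  rw [Finset.sum_const, nsmul_eq_mul]
  refine (mul_le_mul_of_nonneg_right (blk_card J j) (by positivity)).trans (le_of_eq ?_)
  field_simp

lemma Bj_msq {J j : ℕ} {D : ℕ × ℕ → ℝ} {M U : ℝ} (hM : 0 ≤ M) (hU : 0 < U)
    (hD : ∀ p ∈ FR (2 ^ J), 0 ≤ D p ∧ D p ≤ M / ht p) :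
    ∫ t in (0 : ℝ)..U, ∫ t' in (0 : ℝ)..U, ‖Bj J D j (t - t')‖ ^ 2 ≤
      160 * (U ^ 2 * (M ^ 2 * (j + 1) * (1 / 2 ^ j + 1 / U))) := by
  unfold Bj
  rw [msq]
  have h1 : ∀ p ∈ blk J j, ∑ q ∈ blk J j, D p * D q * ‖Iex U (lam p - lam q)‖ ^ 2 ≤
      (2 * M / 2 ^ j) ^ 2 * (5 * U ^ 2) * (4 + 4 / (U * (1 / (2 * 2 ^ j)))) := by
    intro p hp
    have h2 : ∀ q ∈ blk J j, D p * D q * ‖Iex U (lam p - lam q)‖ ^ 2 ≤
        (2 * M / 2 ^ j) ^ 2 * (5 * U ^ 2) * (1 / (1 + (U * (lam p - lam q)) ^ 2)) := by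
      intro q hq
      obtain ⟨a1, a2⟩ := D_blk hM hD hp
      obtain ⟨b1, b2⟩ := D_blk hM hD hq
      have h3 := Iex_sq (Δ := lam p - lam q) hU.le
      calc D p * D q * ‖Iex U (lam p - lam q)‖ ^ 2 ≤ (2 * M / 2 ^ j * (2 * M / 2 ^ j)) *
            (5 * U ^ 2 * (1 / (1 + (U * (lam p - lam q)) ^ 2))) := by
            apply mul_le_mul _ h3 (by positivity) (by positivity)
            exact mul_le_mul a2 b2 b1 (by positivity)
        _ = _ := by ring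
    refine (Finset.sum_le_sum h2).trans ?_
    rw [← Finset.mul_sum]
    apply mul_le_mul_of_nonneg_left _ (by positivity)
    apply ker_sum (blk J j) (fun q => lam p - lam q) (by positivity) hU
    intro q hq q' hq' hne
    have := sp_in (blk_FR hq) (blk_FR hq') hne
    rw [abs_sub_comm] at this
    rwa [show lam p - lam q - (lam p - lam q') = lam q' - lam q by ring]
  refine (Finset.sum_le_sum h1).trans ?_
  rw [Finset.sum_const, nsmul_eq_mul]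
  refine (mul_le_mul_of_nonneg_right (blk_card J j) (by positivity)).trans ?_
  have e : 2 ^ j * ((j : ℝ) + 1) * ((2 * M / 2 ^ j) ^ 2 * (5 * U ^ 2) * (4 + 4 / (U * (1 / (2 * 2 ^ j))))) =
      U ^ 2 * (M ^ 2 * (j + 1) * (80 * (1 / 2 ^ j) + 160 * (1 / U))) := by
    field_simp
    ring
  rw [e]
  have h2 : (80 : ℝ) * (1 / 2 ^ j) + 160 * (1 / U) ≤ 160 * (1 / 2 ^ j + 1 / U) := by
    have : (0 : ℝ) ≤ 1 / 2 ^ j := by positivity
    linarith
  have h3 : U ^ 2 * (M ^ 2 * ((j : ℝ) + 1) * (80 * (1 / 2 ^ j) + 160 * (1 / U))) ≤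
      U ^ 2 * (M ^ 2 * ((j : ℝ) + 1) * (160 * (1 / 2 ^ j + 1 / U))) := by gcongr
  linarith

lemma int2_mono {U : ℝ} (hU : 0 ≤ U) {f g : ℝ → ℝ → ℝ} (hf : Continuous (Function.uncurry f))
    (hg : Continuous (Function.uncurry g)) (h : ∀ t t', f t t' ≤ g t t') :
    ∫ t in (0 : ℝ)..U, ∫ t' in (0 : ℝ)..U, f t t' ≤ ∫ t in (0 : ℝ)..U, ∫ t' in (0 : ℝ)..U, g t t' := by
  apply intervalIntegral.integral_mono_on hU
  · exact (intervalIntegral.continuous_parametric_intervalIntegral_of_continuous' hf 0 U).intervalIntegrable _ _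
  · exact (intervalIntegral.continuous_parametric_intervalIntegral_of_continuous' hg 0 U).intervalIntegrable _ _
  · intro t _
    apply intervalIntegral.integral_mono_on hU
    · exact (hf.comp (by fun_prop : Continuous fun t' : ℝ => (t, t'))).intervalIntegrable _ _
    · exact (hg.comp (by fun_prop : Continuous fun t' : ℝ => (t, t'))).intervalIntegrable _ _
    · intro t' _
      exact h t t'

lemma Bj_pow {k J j : ℕ} (hk : 2 ≤ k) {D : ℕ × ℕ → ℝ} {M U : ℝ} (hM : 0 ≤ M) (hU : 0 < U)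
    (hD : ∀ p ∈ FR (2 ^ J), 0 ≤ D p ∧ D p ≤ M / ht p) :
    ∫ t in (0 : ℝ)..U, ∫ t' in (0 : ℝ)..U, ‖Bj J D j (t - t')‖ ^ k ≤
      160 * 2 ^ k * (U ^ 2 * (M ^ k * (j + 1) ^ (k - 1) * (1 / 2 ^ j + 1 / U))) := by
  have h1 : ∀ t t' : ℝ, ‖Bj J D j (t - t')‖ ^ k ≤ (2 * M * (j + 1)) ^ (k - 2) * ‖Bj J D j (t - t')‖ ^ 2 := by
    intro t t'
    calc ‖Bj J D j (t - t')‖ ^ k = ‖Bj J D j (t - t')‖ ^ (k - 2) * ‖Bj J D j (t - t')‖ ^ 2 := by
          rw [← pow_add]; congr 1; omega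
      _ ≤ _ := by
          apply mul_le_mul_of_nonneg_right _ (by positivity)
          exact pow_le_pow_left₀ (norm_nonneg _) (Bj_sup hM hD _) _
  have hc : Continuous (Function.uncurry fun t t' : ℝ => ‖Bj J D j (t - t')‖) := by
    have := Bj_cont J D j
    exact (this.comp (by fun_prop : Continuous fun z : ℝ × ℝ => z.1 - z.2)).norm
  have hck : Continuous (Function.uncurry fun t t' : ℝ => ‖Bj J D j (t - t')‖ ^ k) := hc.pow k
  have hc2 : Continuous (Function.uncurry fun t t' : ℝ => (2 * M * (j + 1)) ^ (k - 2) * ‖Bj J D j (t - t')‖ ^ 2) :=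
    continuous_const.mul (hc.pow 2)
  refine (int2_mono hU.le hck hc2 h1).trans ?_
  simp_rw [intervalIntegral.integral_const_mul]
  refine (mul_le_mul_of_nonneg_left (Bj_msq hM hU hD) (by positivity)).trans ?_
  have h2 : (2 * M * ((j : ℝ) + 1)) ^ (k - 2) * (M ^ 2 * (j + 1)) ≤ 2 ^ k * (M ^ k * (j + 1) ^ (k - 1)) := by
    rw [mul_pow, mul_pow]
    have e1 : (2 : ℝ) ^ (k - 2) ≤ 2 ^ k := pow_le_pow_right₀ (by norm_num) (by omega)
    have e2 : M ^ (k - 2) * M ^ 2 = M ^ k := by rw [← pow_add]; congr 1; omega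
    have e3 : ((j : ℝ) + 1) ^ (k - 2) * (j + 1) = (j + 1) ^ (k - 1) := by
      rw [← pow_succ]; congr 1; omega
    calc 2 ^ (k - 2) * M ^ (k - 2) * ((j : ℝ) + 1) ^ (k - 2) * (M ^ 2 * (j + 1)) =
          2 ^ (k - 2) * ((M ^ (k - 2) * M ^ 2) * (((j : ℝ) + 1) ^ (k - 2) * (j + 1))) := by ring
      _ = 2 ^ (k - 2) * (M ^ k * (j + 1) ^ (k - 1)) := by rw [e2, e3]
      _ ≤ _ := by
          apply mul_le_mul_of_nonneg_right e1 (by positivity)
  calc (2 * M * ((j : ℝ) + 1)) ^ (k - 2) * (160 * (U ^ 2 * (M ^ 2 * (j + 1) * (1 / 2 ^ j + 1 / U)))) =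
        160 * (U ^ 2 * (((2 * M * ((j : ℝ) + 1)) ^ (k - 2) * (M ^ 2 * (j + 1))) * (1 / 2 ^ j + 1 / U))) := by ring
    _ ≤ 160 * (U ^ 2 * ((2 ^ k * (M ^ k * (j + 1) ^ (k - 1))) * (1 / 2 ^ j + 1 / U))) := by gcongr
    _ = _ := by ring

/-- the tail of the series -/
def sf (k : ℕ) (j : ℕ) : ℝ := ((j : ℝ) + 1) ^ (k - 1) * ((k : ℝ) / (k + 1)) ^ j

lemma sf_nonneg (k j : ℕ) : 0 ≤ sf k j := by unfold sf; positivity

lemma sf_summable (k : ℕ) (hk : 1 ≤ k) : Summable (sf k) := by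
  have hk0 : (0 : ℝ) < k := by exact_mod_cast hk
  have hr : ‖((k : ℝ) / (k + 1))‖ < 1 := by
    rw [Real.norm_eq_abs, abs_of_nonneg (by positivity), div_lt_one (by positivity)]
    linarith
  have h1 := summable_pow_mul_geometric_of_norm_lt_one (k - 1) hr
  have h2 := (summable_nat_add_iff 1).2 h1
  have h3 := h2.mul_left (((k : ℝ) / (k + 1))⁻¹)
  refine h3.congr fun j => ?_
  unfold sf
  push_cast
  rw [pow_succ]
  field_simp

def tl (k J₀ : ℕ) : ℝ := ∑' j, sf k (j + J₀)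

lemma tl_tendsto (k : ℕ) : Filter.Tendsto (tl k) Filter.atTop (nhds 0) := tendsto_sum_nat_add (sf k)

lemma tl_nonneg (k J₀ : ℕ) : 0 ≤ tl k J₀ := tsum_nonneg fun _ => sf_nonneg _ _

lemma sum_le_tl (k : ℕ) (hk : 1 ≤ k) (J₀ J : ℕ) : ∑ j ∈ Finset.Ico J₀ (J + 1), sf k j ≤ tl k J₀ := by
  rw [Finset.sum_Ico_eq_sum_range]
  unfold tl
  have h := ((summable_nat_add_iff J₀).2 (sf_summable k hk)).sum_le_tsum (Finset.range (J + 1 - J₀))
    (fun _ _ => sf_nonneg _ _)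
  refine le_trans (le_of_eq ?_) h
  refine Finset.sum_congr rfl fun j _ => ?_
  rw [add_comm]

/-- weighted Hölder inequality -/
lemma jen {k : ℕ} (hk : 1 ≤ k) (s : Finset ℕ) (ω b : ℕ → ℝ) (hω : ∀ j ∈ s, 0 < ω j) (hb : ∀ j ∈ s, 0 ≤ b j)
    {Ω : ℝ} (hΩ : ∑ j ∈ s, ω j ≤ Ω) :
    (∑ j ∈ s, b j) ^ k ≤ ∑ j ∈ s, (Ω / ω j) ^ (k - 1) * b j ^ k := by
  rcases s.eq_empty_or_nonempty with rfl | hs
  · simp only [Finset.sum_empty]
    rw [zero_pow (by omega)]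
  set O := ∑ j ∈ s, ω j with hO
  have hO0 : 0 < O := Finset.sum_pos hω hs
  have h1 := Real.pow_arith_mean_le_arith_mean_pow s (fun j => ω j / O) (fun j => b j * (O / ω j))
    (fun j hj => (div_pos (hω j hj) hO0).le) (by
      rw [← Finset.sum_div, ← hO, div_self hO0.ne'])
    (fun j hj => mul_nonneg (hb j hj) (div_pos hO0 (hω j hj)).le) k
  have e1 : ∑ j ∈ s, ω j / O * (b j * (O / ω j)) = ∑ j ∈ s, b j := by
    refine Finset.sum_congr rfl fun j hj => ?_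
    have := (hω j hj).ne'
    field_simp
  rw [e1] at h1
  refine h1.trans (Finset.sum_le_sum fun j hj => ?_)
  have hj0 := hω j hj
  have e2 : ω j / O * (b j * (O / ω j)) ^ k = (O / ω j) ^ (k - 1) * b j ^ k := by
    obtain ⟨n, rfl⟩ : ∃ n, k = n + 1 := ⟨k - 1, by omega⟩
    rw [mul_pow, pow_succ (O / ω j), Nat.add_sub_cancel]
    have := hj0.ne'
    field_simp
  rw [e2]
  apply mul_le_mul_of_nonneg_right _ (pow_nonneg (hb j hj) _)
  apply pow_le_pow_left₀ (div_pos hO0 hj0).le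
  exact div_le_div_of_nonneg_right hΩ hj0.le

/-- the weights -/
def om (k J j : ℕ) : ℝ := 1 / ((J : ℝ) + 1) + (1 - 1 / (2 * (k : ℝ))) ^ j

lemma om_sum {k J : ℕ} (hk : 1 ≤ k) (s : Finset ℕ) (hs : s ⊆ Finset.range (J + 1)) :
    ∑ j ∈ s, om k J j ≤ 2 * k + 1 := by
  have hk0 : (1 : ℝ) ≤ k := by exact_mod_cast hk
  have hr0 : 0 ≤ 1 - 1 / (2 * (k : ℝ)) := by
    rw [sub_nonneg, div_le_one (by positivity)]; linarith
  have hr1 : 1 - 1 / (2 * (k : ℝ)) < 1 := by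
    have : 0 < 1 / (2 * (k : ℝ)) := by positivity
    linarith
  have h1 : ∑ j ∈ s, om k J j ≤ ∑ j ∈ Finset.range (J + 1), om k J j := by
    apply Finset.sum_le_sum_of_subset_of_nonneg hs
    intro j _ _
    unfold om
    positivity
  refine h1.trans ?_
  unfold om
  rw [Finset.sum_add_distrib, Finset.sum_const, Finset.card_range, nsmul_eq_mul]
  have h2 : ((J + 1 : ℕ) : ℝ) * (1 / ((J : ℝ) + 1)) = 1 := by
    push_cast
    field_simp
  have h3 : ∑ j ∈ Finset.range (J + 1), (1 - 1 / (2 * (k : ℝ))) ^ j ≤ 2 * k := by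
    have h4 := (summable_geometric_of_lt_one hr0 hr1).sum_le_tsum (Finset.range (J + 1))
      (fun _ _ => pow_nonneg hr0 _)
    rw [tsum_geometric_of_lt_one hr0 hr1] at h4
    refine h4.trans (le_of_eq ?_)
    field_simp
    ring
  rw [h2]
  linarith

lemma om_pos {k J j : ℕ} (hk : 1 ≤ k) : 0 < om k J j := by
  have hk0 : (1 : ℝ) ≤ k := by exact_mod_cast hk
  have hr0 : 0 ≤ 1 - 1 / (2 * (k : ℝ)) := by
    rw [sub_nonneg, div_le_one (by positivity)]; linarith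
  unfold om
  positivity

lemma om_pow1 {k J j : ℕ} (hk : 1 ≤ k) :
    ((2 * (k : ℝ) + 1) / om k J j) ^ (k - 1) ≤ (2 * (k : ℝ) + 1) ^ (k - 1) * ((J : ℝ) + 1) ^ (k - 1) := by
  have hk0 : (1 : ℝ) ≤ k := by exact_mod_cast hk
  have hr0 : 0 ≤ 1 - 1 / (2 * (k : ℝ)) := by
    rw [sub_nonneg, div_le_one (by positivity)]; linarith
  rw [← mul_pow]
  apply pow_le_pow_left₀ (div_pos (by positivity) (om_pos hk)).le
  rw [div_le_iff₀ (om_pos hk)]
  have h1 : 1 / ((J : ℝ) + 1) ≤ om k J j := by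
    unfold om
    have := pow_nonneg hr0 j
    linarith
  have h2 : 1 ≤ ((J : ℝ) + 1) * om k J j := by
    rw [div_le_iff₀ (by positivity)] at h1
    linarith
  nlinarith

lemma om_pow2 {k J j : ℕ} (hk : 1 ≤ k) :
    ((2 * (k : ℝ) + 1) / om k J j) ^ (k - 1) ≤ (2 * (k : ℝ) + 1) ^ (k - 1) * (2 * k / (k + 1)) ^ j := by
  have hk0 : (1 : ℝ) ≤ k := by exact_mod_cast hk
  have hr0 : 0 < 1 - 1 / (2 * (k : ℝ)) := by
    rw [sub_pos, div_lt_one (by positivity)]; linarith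
  have h1 : (1 - 1 / (2 * (k : ℝ))) ^ j ≤ om k J j := by
    unfold om
    have : 0 ≤ 1 / ((J : ℝ) + 1) := by positivity
    linarith
  have h2 : ((2 * (k : ℝ) + 1) / om k J j) ^ (k - 1) ≤
      ((2 * (k : ℝ) + 1) / (1 - 1 / (2 * (k : ℝ))) ^ j) ^ (k - 1) := by
    apply pow_le_pow_left₀ (div_pos (by positivity) (om_pos hk)).le
    exact div_le_div_of_nonneg_left (by positivity) (by positivity) h1
  refine h2.trans ?_
  rw [div_pow, div_eq_mul_inv]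
  apply mul_le_mul_of_nonneg_left _ (by positivity)
  rw [← pow_mul, mul_comm j, pow_mul, ← inv_pow]
  apply pow_le_pow_left₀ (by positivity)
  have h3 := one_add_mul_le_pow (a := -(1 / (2 * (k : ℝ)))) (by
    have : 1 / (2 * (k : ℝ)) ≤ 1 := by rw [div_le_one (by positivity)]; linarith
    linarith) (k - 1)
  rw [← sub_eq_add_neg] at h3
  have h4 : ((k : ℝ) + 1) / (2 * k) ≤ (1 - 1 / (2 * (k : ℝ))) ^ (k - 1) := by
    refine le_trans (le_of_eq ?_) h3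
    rw [Nat.cast_sub hk]
    push_cast
    field_simp
    ring
  calc ((1 - 1 / (2 * (k : ℝ))) ^ (k - 1))⁻¹ ≤ (((k : ℝ) + 1) / (2 * k))⁻¹ :=
        inv_anti₀ (by positivity) h4
    _ = 2 * k / (k + 1) := by rw [inv_div]

/-- the Hölder factor -/
def rj (k J j : ℕ) : ℝ := ((2 * (k : ℝ) + 1) / om k J j) ^ (k - 1)

lemma rj_nonneg {k J j : ℕ} (hk : 1 ≤ k) : 0 ≤ rj k J j := by
  have := om_pos (J := J) (j := j) hk
  unfold rj
  positivity

lemma Cm_split (J J₀ : ℕ) (D : ℕ × ℕ → ℝ) (v : ℝ) :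
    Cm J D v = ∑ p ∈ (FR (2 ^ J)).filter (fun p => lev p < J₀), (D p : ℂ) * ex v (lam p) +
        ∑ j ∈ Finset.Ico J₀ (J + 1), Bj J D j v := by
  unfold Cm Bj
  rw [← Finset.sum_filter_add_sum_filter_not (FR (2 ^ J)) (fun p => lev p < J₀)]
  congr 1
  have h2 : ∀ p ∈ (FR (2 ^ J)).filter (fun p => ¬ lev p < J₀), lev p ∈ Finset.Ico J₀ (J + 1) := by
    intro p hp
    rw [Finset.mem_filter] at hp
    have := lev_le hp.1
    rw [Finset.mem_Ico]
    omega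
  rw [← Finset.sum_fiberwise_of_maps_to h2]
  refine Finset.sum_congr rfl fun j hj => ?_
  unfold blk
  apply Finset.sum_congr _ fun _ _ => rfl
  ext p
  simp only [Finset.mem_filter]
  rw [Finset.mem_Ico] at hj
  constructor
  · rintro ⟨⟨h3, h4⟩, h5⟩; exact ⟨h3, h5⟩
  · rintro ⟨h3, h5⟩; exact ⟨⟨h3, by omega⟩, h5⟩

lemma Cm_pt {k : ℕ} (hk : 1 ≤ k) (J J₀ : ℕ) (D : ℕ × ℕ → ℝ) (m v : ℝ) (hD : ∀ p ∈ FR (2 ^ J), 0 ≤ D p)
    (hm : ∑ p ∈ (FR (2 ^ J)).filter (fun p => lev p < J₀), D p ≤ m) :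
    ‖Cm J D v‖ ^ k ≤ 2 ^ (k - 1) * (m ^ k + ∑ j ∈ Finset.Ico J₀ (J + 1), rj k J j * ‖Bj J D j v‖ ^ k) := by
  have hm0 : 0 ≤ m := le_trans (Finset.sum_nonneg fun p hp => hD p (Finset.mem_filter.1 hp).1) hm
  have h2 : ‖Cm J D v‖ ≤ m + ∑ j ∈ Finset.Ico J₀ (J + 1), ‖Bj J D j v‖ := by
    rw [Cm_split J J₀]
    refine (norm_add_le _ _).trans (add_le_add ?_ (norm_sum_le _ _))
    refine (norm_sum_le _ _).trans (le_trans (Finset.sum_le_sum fun p hp => ?_) hm)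
    rw [norm_mul, norm_ex, mul_one, Complex.norm_real, Real.norm_eq_abs,
      abs_of_nonneg (hD p (Finset.mem_filter.1 hp).1)]
  have hbn : ∀ j ∈ Finset.Ico J₀ (J + 1), 0 ≤ ‖Bj J D j v‖ := fun j _ => norm_nonneg _
  have h3 : ‖Cm J D v‖ ^ k ≤ (m + ∑ j ∈ Finset.Ico J₀ (J + 1), ‖Bj J D j v‖) ^ k :=
    pow_le_pow_left₀ (norm_nonneg _) h2 k
  refine h3.trans ((add_pow_le hm0 (Finset.sum_nonneg hbn) k).trans ?_)
  apply mul_le_mul_of_nonneg_left _ (by positivity)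
  apply add_le_add le_rfl
  unfold rj
  apply jen hk _ _ _ (fun j _ => om_pos hk) hbn
  apply om_sum hk
  intro j hj
  rw [Finset.mem_Ico] at hj
  exact Finset.mem_range.2 hj.2

lemma int_expand (s : Finset ℕ) (r : ℕ → ℝ) (b : ℕ → ℝ → ℝ → ℝ) (hb : ∀ j, Continuous (Function.uncurry (b j)))
    (c n U : ℝ) :
    ∫ t in (0 : ℝ)..U, ∫ t' in (0 : ℝ)..U, c * (n + ∑ j ∈ s, r j * b j t t') =
      c * (n * U ^ 2 + ∑ j ∈ s, r j * ∫ t in (0 : ℝ)..U, ∫ t' in (0 : ℝ)..U, b j t t') := by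
  have hbi : ∀ t : ℝ, ∀ j, Continuous (fun t' => r j * b j t t') := fun t j =>
    continuous_const.mul ((hb j).comp (by fun_prop : Continuous fun t' : ℝ => (t, t')))
  have hsi : ∀ t : ℝ, Continuous (fun t' => ∑ j ∈ s, r j * b j t t') := fun t =>
    continuous_finsetSum _ fun j _ => hbi t j
  have e1 : ∀ t : ℝ, ∫ t' in (0 : ℝ)..U, c * (n + ∑ j ∈ s, r j * b j t t') = c * (n * U +
      ∑ j ∈ s, r j * ∫ t' in (0 : ℝ)..U, b j t t') := by
    intro t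
    rw [intervalIntegral.integral_const_mul, intervalIntegral.integral_add
      (continuous_const.intervalIntegrable _ _) ((hsi t).intervalIntegrable _ _),
      intervalIntegral.integral_const, intervalIntegral.integral_finsetSum
        (fun j _ => (hbi t j).intervalIntegrable _ _)]
    simp_rw [intervalIntegral.integral_const_mul]
    rw [sub_zero, smul_eq_mul]
    ring
  have hJc : ∀ j, Continuous (fun t : ℝ => r j * ∫ t' in (0 : ℝ)..U, b j t t') := fun j =>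
    continuous_const.mul
    (intervalIntegral.continuous_parametric_intervalIntegral_of_continuous' (hb j) 0 U)
  have hJs : Continuous (fun t : ℝ => ∑ j ∈ s, r j * ∫ t' in (0 : ℝ)..U, b j t t') :=
    continuous_finsetSum _ fun j _ => hJc j
  simp_rw [e1]
  rw [intervalIntegral.integral_const_mul, intervalIntegral.integral_add
    (continuous_const.intervalIntegrable _ _) (hJs.intervalIntegrable _ _),
    intervalIntegral.integral_const, intervalIntegral.integral_finsetSum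
      (fun j _ => (hJc j).intervalIntegrable _ _)]
  simp_rw [intervalIntegral.integral_const_mul]
  rw [sub_zero, smul_eq_mul]
  ring

lemma uncC {k : ℕ} {F : ℝ → ℂ} (hF : Continuous F) :
    Continuous (Function.uncurry fun t t' : ℝ => ‖F (t - t')‖ ^ k) :=
  ((hF.comp (by fun_prop : Continuous fun z : ℝ × ℝ => z.1 - z.2)).norm.pow k)

lemma rj_Bj {k J j : ℕ} (hk : 2 ≤ k) (hj : j ≤ J) {D : ℕ × ℕ → ℝ} {M U : ℝ} (hM : 0 ≤ M) (hU : 0 < U)
    (hD : ∀ p ∈ FR (2 ^ J), 0 ≤ D p ∧ D p ≤ M / ht p) :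
    rj k J j * ∫ t in (0 : ℝ)..U, ∫ t' in (0 : ℝ)..U, ‖Bj J D j (t - t')‖ ^ k ≤
      (2 * (k : ℝ) + 1) ^ (k - 1) * (160 * 2 ^ k) *
        (U ^ 2 * (M ^ k * (sf k j + ((J : ℝ) + 1) ^ (2 * k - 2) / U))) := by
  have hk1 : 1 ≤ k := by omega
  have hjJ : (j : ℝ) ≤ J := by exact_mod_cast hj
  have hO : 0 ≤ rj k J j := rj_nonneg hk1
  refine (mul_le_mul_of_nonneg_left (Bj_pow (j := j) hk hM hU hD) hO).trans ?_
  have e3 : rj k J j * (160 * 2 ^ k * (U ^ 2 * (M ^ k * ((j : ℝ) + 1) ^ (k - 1) * (1 / 2 ^ j + 1 / U)))) =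
      160 * 2 ^ k * (U ^ 2 * (M ^ k * (rj k J j * (((j : ℝ) + 1) ^ (k - 1) *
        (1 / 2 ^ j)) + rj k J j * (((j : ℝ) + 1) ^ (k - 1) * (1 / U))))) := by
    ring
  rw [e3]
  have a1 : rj k J j * (((j : ℝ) + 1) ^ (k - 1) * (1 / 2 ^ j)) ≤
      (2 * (k : ℝ) + 1) ^ (k - 1) * sf k j := by
    refine (mul_le_mul_of_nonneg_right (om_pow2 hk1) (by positivity)).trans (le_of_eq ?_)
    unfold sf
    have : (2 * (k : ℝ) / (k + 1)) ^ j = 2 ^ j * ((k : ℝ) / (k + 1)) ^ j := by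
      rw [← mul_pow]; congr 1; ring
    rw [this]
    have h2 : (2 : ℝ) ^ j ≠ 0 := by positivity
    field_simp
  have a2 : rj k J j * (((j : ℝ) + 1) ^ (k - 1) * (1 / U)) ≤
      (2 * (k : ℝ) + 1) ^ (k - 1) * (((J : ℝ) + 1) ^ (2 * k - 2) / U) := by
    refine (mul_le_mul_of_nonneg_right (om_pow1 hk1) (by positivity)).trans ?_
    have e4 : ((J : ℝ) + 1) ^ (2 * k - 2) = ((J : ℝ) + 1) ^ (k - 1) * ((J : ℝ) + 1) ^ (k - 1) := by
      rw [← pow_add]; congr 1; omega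
    rw [e4]
    have h7 : ((j : ℝ) + 1) ^ (k - 1) ≤ ((J : ℝ) + 1) ^ (k - 1) :=
      pow_le_pow_left₀ (by positivity) (by linarith) _
    calc (2 * (k : ℝ) + 1) ^ (k - 1) * ((J : ℝ) + 1) ^ (k - 1) * (((j : ℝ) + 1) ^ (k - 1) * (1 / U)) ≤
          (2 * (k : ℝ) + 1) ^ (k - 1) * ((J : ℝ) + 1) ^ (k - 1) * (((J : ℝ) + 1) ^ (k - 1) * (1 / U)) := by
          apply mul_le_mul_of_nonneg_left _ (by positivity)
          exact mul_le_mul_of_nonneg_right h7 (by positivity)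
      _ = _ := by ring
  have a3 := add_le_add a1 a2
  have a4 : 160 * 2 ^ k * (U ^ 2 * (M ^ k * (rj k J j * (((j : ℝ) + 1) ^ (k - 1) *
        (1 / 2 ^ j)) + rj k J j * (((j : ℝ) + 1) ^ (k - 1) * (1 / U))))) ≤
      160 * 2 ^ k * (U ^ 2 * (M ^ k * ((2 * (k : ℝ) + 1) ^ (k - 1) * sf k j +
        (2 * (k : ℝ) + 1) ^ (k - 1) * (((J : ℝ) + 1) ^ (2 * k - 2) / U)))) := by
    apply mul_le_mul_of_nonneg_left _ (by positivity)
    apply mul_le_mul_of_nonneg_left _ (by positivity)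
    exact mul_le_mul_of_nonneg_left a3 (by positivity)
  refine a4.trans (le_of_eq ?_)
  ring

/-- the main estimate for the `k`-th moment of the correlation -/
theorem blk_main {k : ℕ} (hk : 2 ≤ k) : ∃ C : ℝ, 0 < C ∧ ∀ (J J₀ : ℕ) (D : ℕ × ℕ → ℝ) (M m U : ℝ),
    0 ≤ M → 0 < U → (∀ p ∈ FR (2 ^ J), 0 ≤ D p ∧ D p ≤ M / ht p) →
    ∑ p ∈ (FR (2 ^ J)).filter (fun p => lev p < J₀), D p ≤ m →
    ∫ t in (0 : ℝ)..U, ∫ t' in (0 : ℝ)..U, ‖Cm J D (t - t')‖ ^ k ≤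
      C * (U ^ 2 * (M ^ k * (tl k J₀ + ((J : ℝ) + 1) ^ (2 * k - 1) / U) + m ^ k)) := by
  obtain ⟨c₁, hc₁⟩ : ∃ c₁ : ℝ, c₁ = (2 * (k : ℝ) + 1) ^ (k - 1) * (160 * 2 ^ k) := ⟨_, rfl⟩
  have hc₁0 : 0 < c₁ := by rw [hc₁]; positivity
  refine ⟨2 ^ (k - 1) * (c₁ + 1), by positivity, fun J J₀ D M m U hM hU hD hm => ?_⟩
  have hk1 : 1 ≤ k := by omega
  have hm0 : 0 ≤ m := le_trans (Finset.sum_nonneg fun p hp => (hD p (Finset.mem_filter.1 hp).1).1) hm
  have hbc : ∀ j, Continuous (Function.uncurry fun t t' : ℝ => ‖Bj J D j (t - t')‖ ^ k) :=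
    fun j => uncC (Bj_cont J D j)
  have hcR : Continuous (Function.uncurry fun t t' : ℝ => 2 ^ (k - 1) * (m ^ k +
      ∑ j ∈ Finset.Ico J₀ (J + 1), rj k J j * ‖Bj J D j (t - t')‖ ^ k)) := by
    apply continuous_const.mul
    apply continuous_const.add
    exact continuous_finsetSum _ fun j _ => continuous_const.mul (hbc j)
  refine (int2_mono hU.le (uncC (Cm_cont J D)) hcR fun t t' =>
    Cm_pt hk1 J J₀ D m (t - t') (fun p hp => (hD p hp).1) hm).trans ?_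
  rw [int_expand _ (rj k J) (fun j t t' => ‖Bj J D j (t - t')‖ ^ k) hbc]
  have h5 : ∑ j ∈ Finset.Ico J₀ (J + 1), rj k J j *
      ∫ t in (0 : ℝ)..U, ∫ t' in (0 : ℝ)..U, ‖Bj J D j (t - t')‖ ^ k ≤
      c₁ * (U ^ 2 * (M ^ k * (tl k J₀ + ((J : ℝ) + 1) ^ (2 * k - 1) / U))) := by
    rw [hc₁]
    refine (Finset.sum_le_sum fun j hj => rj_Bj hk (by rw [Finset.mem_Ico] at hj; omega) hM hU hD).trans ?_
    rw [← Finset.mul_sum, ← Finset.mul_sum, ← Finset.mul_sum, Finset.sum_add_distrib, Finset.sum_const,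
      nsmul_eq_mul]
    have a1 := sum_le_tl k hk1 J₀ J
    have a2 : ((Finset.Ico J₀ (J + 1)).card : ℝ) * (((J : ℝ) + 1) ^ (2 * k - 2) / U) ≤
        ((J : ℝ) + 1) ^ (2 * k - 1) / U := by
      have h6 : ((Finset.Ico J₀ (J + 1)).card : ℝ) ≤ (J : ℝ) + 1 := by
        rw [Nat.card_Ico]
        exact_mod_cast Nat.sub_le _ _
      refine (mul_le_mul_of_nonneg_right h6 (by positivity)).trans (le_of_eq ?_)
      rw [mul_div_assoc', ← pow_succ']
      congr 2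
      omega
    apply mul_le_mul_of_nonneg_left _ (by positivity)
    apply mul_le_mul_of_nonneg_left _ (by positivity)
    exact mul_le_mul_of_nonneg_left (add_le_add a1 a2) (by positivity)
  have htl := tl_nonneg k J₀
  obtain ⟨X, hX⟩ : ∃ X : ℝ, X = U ^ 2 * (M ^ k * (tl k J₀ + ((J : ℝ) + 1) ^ (2 * k - 1) / U)) := ⟨_, rfl⟩
  have hX0 : 0 ≤ X := by rw [hX]; positivity
  have hY : 0 ≤ U ^ 2 * m ^ k := by positivity
  rw [← hX] at h5
  have e5 : U ^ 2 * (M ^ k * (tl k J₀ + ((J : ℝ) + 1) ^ (2 * k - 1) / U) + m ^ k) = X + U ^ 2 * m ^ k := by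
    rw [hX]; ring
  rw [e5, mul_assoc (2 ^ (k - 1))]
  apply mul_le_mul_of_nonneg_left _ (by positivity)
  nlinarith [mul_nonneg hc₁0.le hY]

end

end K1H48.SW
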