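import Pool.Agent.K1H48.SW.Asm

set_option autoImplicit false

/-! The short averages of the product are close to those of the model. -/

namespace K1H48.SW

open MeasureTheory Set Finset Filter
open Pool.Agent.Y969.GP

noncomputable section

lemma J_le_JT {J₁ : ℕ} {T : ℝ} (hT : ((2 : ℝ) ^ J₁) ^ 2 ≤ T) : J₁ ≤ JT T := by
  have h1 : (1 : ℝ) ≤ 2 ^ J₁ := one_le_pow₀ (by norm_num)
  have hT1 : 1 ≤ T := by nlinarith
  have h2 := JT_pow hT1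
  have h3 : (2 : ℝ) ^ J₁ ≤ 2 ^ JT T := by nlinarith
  exact (pow_le_pow_iff_right₀ (by norm_num : (1 : ℝ) < 2)).1 h3

/-- the bound of `kmom` in terms of `L = log T` -/
lemma err_bd {k : ℕ} (hk : 2 ≤ k) {L U A m τ : ℝ} (hL : 1 ≤ L) (hA : 0 < A) (hm : 0 ≤ m) (hτ : 0 ≤ τ)
    (hU : A * L ^ (2 * k - 1) ≤ U) :
    (1 + L) ^ (2 * k) * (τ + (1 + L) ^ (2 * k - 1) / U) + m ^ k + (1 + L) ^ k ≤
      L ^ (2 * k) * (4 ^ k * (τ + 2 ^ (2 * k - 1) / A) + (m ^ k + 2 ^ k) / L) := by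
  have hL0 : 0 < L := by linarith
  have h1 : 1 + L ≤ 2 * L := by linarith
  have hU0 : 0 < U := lt_of_lt_of_le (by positivity) hU
  have a1 : (1 + L) ^ (2 * k) ≤ 4 ^ k * L ^ (2 * k) := by
    calc (1 + L) ^ (2 * k) ≤ (2 * L) ^ (2 * k) := pow_le_pow_left₀ (by positivity) h1 _
      _ = 4 ^ k * L ^ (2 * k) := by rw [mul_pow, pow_mul (2 : ℝ)]; norm_num
  have a2 : (1 + L) ^ (2 * k - 1) / U ≤ 2 ^ (2 * k - 1) / A := by
    rw [div_le_div_iff₀ hU0 hA]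
    calc (1 + L) ^ (2 * k - 1) * A ≤ (2 * L) ^ (2 * k - 1) * A :=
          mul_le_mul_of_nonneg_right (pow_le_pow_left₀ (by positivity) h1 _) hA.le
      _ = 2 ^ (2 * k - 1) * (A * L ^ (2 * k - 1)) := by rw [mul_pow]; ring
      _ ≤ _ := mul_le_mul_of_nonneg_left hU (by positivity)
  have a3 : m ^ k + (1 + L) ^ k ≤ L ^ (2 * k) * ((m ^ k + 2 ^ k) / L) := by
    have b1 : (1 + L) ^ k ≤ 2 ^ k * L ^ k := by
      rw [← mul_pow]; exact pow_le_pow_left₀ (by positivity) h1 _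
    have b2 : (1 : ℝ) ≤ L ^ k := one_le_pow₀ hL
    have b3 : L ^ k * L ≤ L ^ (2 * k) := by
      rw [← pow_succ]
      exact pow_le_pow_right₀ hL (by omega)
    have b4 : m ^ k + (1 + L) ^ k ≤ (m ^ k + 2 ^ k) * L ^ k := by
      have : m ^ k ≤ m ^ k * L ^ k := le_mul_of_one_le_right (by positivity) b2
      nlinarith
    refine b4.trans ?_
    rw [mul_div_assoc', le_div_iff₀ hL0]
    calc (m ^ k + 2 ^ k) * L ^ k * L = (m ^ k + 2 ^ k) * (L ^ k * L) := by ring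
      _ ≤ (m ^ k + 2 ^ k) * L ^ (2 * k) := mul_le_mul_of_nonneg_left b3 (by positivity)
      _ = _ := by ring
  have a4 : (1 + L) ^ (2 * k) * (τ + (1 + L) ^ (2 * k - 1) / U) ≤
      (4 ^ k * L ^ (2 * k)) * (τ + 2 ^ (2 * k - 1) / A) :=
    mul_le_mul a1 (by linarith) (by positivity) (by positivity)
  nlinarith

theorem close {k : ℕ} (hk : 2 ≤ k) {ε : ℝ} (hε : 0 < ε) : ∃ (J₀ : ℕ) (A : ℝ), 0 < A ∧
    ∀ (J₁ : ℕ) (S : Finset (ℕ × ℕ)), S ⊆ FR (2 ^ J₁) → FR (2 ^ J₀) ⊆ S → Sym S →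
    ∃ T₀ : ℝ, 1 ≤ T₀ ∧ ∀ T : ℝ, T₀ ≤ T → ∀ U : ℝ, A * Real.log T ^ (2 * k - 1) ≤ U → U ≤ √T →
    ∫ c, (∏ j, wt T (1 / 2) 4 (c j)) * ((∫ t in (0 : ℝ)..U, ∏ j, ff (c j + t)) -
      ∫ t in (0 : ℝ)..U, ∏ j, qr T S (c j + t)) ^ 2 ∂(bm k (1 / 2 * T) (4 * T)) ≤
      ε * (T ^ k * U ^ 2 * Real.log T ^ (2 * k)) := by
  obtain ⟨Kf, hKf, famf⟩ := fam_f
  obtain ⟨Ef, hEf, afe⟩ := afe_f
  obtain ⟨C1, T1, hC1, hT1, k1⟩ := kmom hk hKf.le hEf.le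
  obtain ⟨C2, T2, hC2, hT2, k2⟩ := kmom hk (K := 2) (E := 0) (by norm_num) le_rfl
  obtain ⟨C3, T3, hC3, hT3, k3⟩ := kmom hk (K := Kf + 2) (E := Ef) (by positivity) hEf.le
  have hk0 : (0 : ℝ) < k := by exact_mod_cast (by omega : 0 < k)
  have htl0 := tl_nonneg k 0
  obtain ⟨B, hB⟩ : ∃ B : ℝ, B = 4 ^ k * (tl k 0 + 2 ^ (2 * k - 1)) + 2 ^ k := ⟨_, rfl⟩
  have hB0 : 0 < B := by rw [hB]; positivity
  obtain ⟨M, hM⟩ : ∃ M : ℝ, M = (k : ℝ) ^ 2 * ((C1 + C2) * B) := ⟨_, rfl⟩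
  have hM0 : 0 < M := by rw [hM]; positivity
  obtain ⟨δ, hδ⟩ : ∃ δ : ℝ, δ = min 1 (ε / (2 * M)) := ⟨_, rfl⟩
  have hδ0 : 0 < δ := by rw [hδ]; exact lt_min one_pos (by positivity)
  have hδ1 : δ ≤ 1 := by rw [hδ]; exact min_le_left _ _
  have hδk : δ ^ k * M ≤ ε / 2 := by
    have h1 : δ ^ k ≤ δ := by
      calc δ ^ k ≤ δ ^ 1 := pow_le_pow_of_le_one hδ0.le hδ1 (by omega)
        _ = δ := pow_one δ
    have h2 : δ ≤ ε / (2 * M) := by rw [hδ]; exact min_le_right _ _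
    calc δ ^ k * M ≤ ε / (2 * M) * M := mul_le_mul_of_nonneg_right (h1.trans h2) hM0.le
      _ = ε / 2 := by field_simp
  obtain ⟨D, hD⟩ : ∃ D : ℝ, D = (k : ℝ) ^ 2 * ((δ⁻¹ ^ (k - 1)) ^ k * C3) := ⟨_, rfl⟩
  have hD0 : 0 < D := by rw [hD]; positivity
  obtain ⟨J₀, hJ₀⟩ : ∃ J₀ : ℕ, D * (4 ^ k * tl k J₀) ≤ ε / 8 := by
    have h1 := (tl_tendsto k).eventually (gt_mem_nhds (show (0 : ℝ) < ε / 8 / (D * 4 ^ k) by positivity))
    obtain ⟨J₀, h2⟩ := h1.exists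
    refine ⟨J₀, ?_⟩
    rw [lt_div_iff₀ (by positivity)] at h2
    nlinarith
  obtain ⟨A, hA⟩ : ∃ A : ℝ, A = max 1 (8 * (D * (4 ^ k * 2 ^ (2 * k - 1))) / ε) := ⟨_, rfl⟩
  have hA1 : 1 ≤ A := by rw [hA]; exact le_max_left _ _
  have hA0 : 0 < A := by linarith
  have hA2 : D * (4 ^ k * (2 ^ (2 * k - 1) / A)) ≤ ε / 8 := by
    have h1 : 8 * (D * (4 ^ k * 2 ^ (2 * k - 1))) / ε ≤ A := by rw [hA]; exact le_max_right _ _
    rw [div_le_iff₀ hε] at h1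
    rw [mul_div_assoc', mul_div_assoc', div_le_iff₀ hA0]
    nlinarith
  obtain ⟨m, T4, hm, hT4, low⟩ := low_m J₀
  refine ⟨J₀, A, hA0, fun J₁ S hS hS' hsym => ?_⟩
  obtain ⟨L₀, hL₀⟩ : ∃ L₀ : ℝ, L₀ = max 1 (4 * (D * (m ^ k + 2 ^ k)) / ε) := ⟨_, rfl⟩
  refine ⟨max (max (max T1 T2) (max T3 T4)) (max (max 32 ((2 ^ J₁) ^ 2)) (Real.exp L₀)), ?_,
    fun T hT U hU hUT => ?_⟩
  · exact hT1.trans ((le_max_left _ _).trans ((le_max_left _ _).trans (le_max_left _ _)))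
  have g1 : T1 ≤ T := ((le_max_left _ _).trans ((le_max_left _ _).trans (le_max_left _ _))).trans hT
  have g2 : T2 ≤ T := ((le_max_right _ _).trans ((le_max_left _ _).trans (le_max_left _ _))).trans hT
  have g3 : T3 ≤ T := ((le_max_left _ _).trans ((le_max_right _ _).trans (le_max_left _ _))).trans hT
  have g4 : T4 ≤ T := ((le_max_right _ _).trans ((le_max_right _ _).trans (le_max_left _ _))).trans hT
  have g5 : 32 ≤ T := ((le_max_left _ _).trans ((le_max_left _ _).trans (le_max_right _ _))).trans hT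
  have g6 : ((2 : ℝ) ^ J₁) ^ 2 ≤ T := ((le_max_right _ _).trans ((le_max_left _ _).trans (le_max_right _ _))).trans hT
  have g7 : Real.exp L₀ ≤ T := ((le_max_right _ _).trans (le_max_right _ _)).trans hT
  have hT0 : 0 < T := by linarith
  obtain ⟨L, hL⟩ : ∃ L : ℝ, L = Real.log T := ⟨_, rfl⟩
  have hLL : L₀ ≤ L := by rw [hL, Real.le_log_iff_exp_le hT0]; exact g7
  have hL1 : 1 ≤ L := le_trans (by rw [hL₀]; exact le_max_left _ _) hLL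
  have hL0 : 0 < L := by linarith
  have hL2 : D * ((m ^ k + 2 ^ k) / L) ≤ ε / 4 := by
    have h1 : 4 * (D * (m ^ k + 2 ^ k)) / ε ≤ L := le_trans (by rw [hL₀]; exact le_max_right _ _) hLL
    rw [div_le_iff₀ hε] at h1
    rw [mul_div_assoc', div_le_iff₀ hL0]
    nlinarith
  rw [← hL] at hU
  have hU0 : 0 < U := lt_of_lt_of_le (by positivity) hU
  have hJ₁ := J_le_JT g6
  -- the three functions
  have famQ := fam_Q J₁ S hS (JT T) T g6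
  have hfam3 := (famf (JT T) T hT0).diff famQ
  have apf := afe T g5
  have apq : ∀ u ∈ Icc (T / 2) (8 * T), ‖(qr T S u : ℂ) - gP (JT T) (aQ T S) u‖ ≤ 0 * T ^ (-(1 / 4) : ℝ) := by
    intro u _
    rw [gP_Q hS hJ₁, Qf_real hsym, sub_self, norm_zero, zero_mul]
  have apd : ∀ u ∈ Icc (T / 2) (8 * T), ‖((ff u - qr T S u : ℝ) : ℂ) -
      gP (JT T) (fun p u => cr (2 ^ JT T) p u - aQ T S p u) u‖ ≤ Ef * T ^ (-(1 / 4) : ℝ) := by
    intro u hu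
    rw [gP_diff, gP_Q hS hJ₁, Qf_real hsym]
    have e : ((ff u - qr T S u : ℝ) : ℂ) - (gP (JT T) (cr (2 ^ JT T)) u - (qr T S u : ℂ)) =
        (ff u : ℂ) - gP (JT T) (cr (2 ^ JT T)) u := by
      push_cast; ring
    rw [e]
    exact apf u hu
  have hempty : ∀ D' : ℕ × ℕ → ℝ, ∑ p ∈ (FR (2 ^ JT T)).filter (fun p => lev p < 0), D' p ≤ 0 := by
    intro D'
    rw [Finset.filter_false_of_mem (fun p _ => Nat.not_lt_zero _), Finset.sum_empty]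
  have I1 := k1 T g1 ff _ _ _ ff_cont (famf (JT T) T hT0) apf (1 / 2) 4 0 0 (by norm_num) (by norm_num)
    le_rfl (hempty _) U hU0 hUT
  have I2 := k2 T g2 (qr T S) _ _ _ (qr_cont T S) famQ apq (1 / 2) 4 0 0 (by norm_num) (by norm_num)
    le_rfl (hempty _) U hU0 hUT
  have I3 := k3 T g3 (fun u => ff u - qr T S u) _ _ _ (ff_cont.sub (qr_cont T S)) hfam3 apd (1 / 2) 4 m J₀
    (by norm_num) (by norm_num) le_rfl (low T g4 S (1 / 2) 4 hS' (by norm_num) (by norm_num) le_rfl) U hU0 hUT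
  rw [← hL] at I1 I2 I3
  have hY : 0 ≤ T ^ k * U ^ 2 := by positivity
  obtain ⟨Y, hYd⟩ : ∃ Y : ℝ, Y = T ^ k * U ^ 2 * L ^ (2 * k) := ⟨_, rfl⟩
  have hY0 : 0 ≤ Y := by rw [hYd]; positivity
  have hL2k : 0 ≤ L ^ (2 * k) := by positivity
  have b0 := err_bd hk hL1 hA0 le_rfl htl0 hU
  have b0' : (1 + L) ^ (2 * k) * (tl k 0 + (1 + L) ^ (2 * k - 1) / U) + 0 ^ k + (1 + L) ^ k ≤ L ^ (2 * k) * B := by
    refine b0.trans ?_
    apply mul_le_mul_of_nonneg_left _ hL2k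
    rw [hB, zero_pow (by omega : k ≠ 0), zero_add]
    have c1 : (2 : ℝ) ^ (2 * k - 1) / A ≤ 2 ^ (2 * k - 1) := div_le_self (by positivity) hA1
    have c2 : (2 : ℝ) ^ k / L ≤ 2 ^ k := div_le_self (by positivity) hL1
    have c3 : (4 : ℝ) ^ k * (tl k 0 + 2 ^ (2 * k - 1) / A) ≤ 4 ^ k * (tl k 0 + 2 ^ (2 * k - 1)) :=
      mul_le_mul_of_nonneg_left (by linarith) (by positivity)
    linarith
  have I1' : ∫ t in (0 : ℝ)..U, ∫ t' in (0 : ℝ)..U, |Cg T (1 / 2) 4 ff t t'| ^ k ≤ C1 * B * Y := by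
    refine I1.trans ?_
    calc _ ≤ C1 * (T ^ k * U ^ 2 * (L ^ (2 * k) * B)) := by
          apply mul_le_mul_of_nonneg_left _ hC1.le
          exact mul_le_mul_of_nonneg_left b0' hY
      _ = _ := by rw [hYd]; ring
  have I2' : ∫ t in (0 : ℝ)..U, ∫ t' in (0 : ℝ)..U, |Cg T (1 / 2) 4 (qr T S) t t'| ^ k ≤ C2 * B * Y := by
    refine I2.trans ?_
    calc _ ≤ C2 * (T ^ k * U ^ 2 * (L ^ (2 * k) * B)) := by
          apply mul_le_mul_of_nonneg_left _ hC2.le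
          exact mul_le_mul_of_nonneg_left b0' hY
      _ = _ := by rw [hYd]; ring
  have b3 := err_bd hk hL1 hA0 hm (tl_nonneg k J₀) hU
  have I3' : ∫ t in (0 : ℝ)..U, ∫ t' in (0 : ℝ)..U, |Cg T (1 / 2) 4 (fun u => ff u - qr T S u) t t'| ^ k ≤
      C3 * ((4 ^ k * (tl k J₀ + 2 ^ (2 * k - 1) / A) + (m ^ k + 2 ^ k) / L) * Y) := by
    refine I3.trans ?_
    apply mul_le_mul_of_nonneg_left _ hC3.le
    calc _ ≤ T ^ k * U ^ 2 * (L ^ (2 * k) * (4 ^ k * (tl k J₀ + 2 ^ (2 * k - 1) / A) + (m ^ k + 2 ^ k) / L)) :=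
          mul_le_mul_of_nonneg_left b3 hY
      _ = _ := by rw [hYd]; ring
  have hmain := asm0 (k := k) (T := T) (α := 1 / 2) (β := 4) (U := U) (δ := δ) (by nlinarith) hU0.le hδ0
    ff_cont (qr_cont T S)
  refine hmain.trans ?_
  rw [← hL, ← hYd]
  have hδp : 0 ≤ (δ⁻¹ ^ (k - 1)) ^ k := by positivity
  have s1 : (k : ℝ) ^ 2 * ((δ⁻¹ ^ (k - 1)) ^ k *
      ∫ t in (0 : ℝ)..U, ∫ t' in (0 : ℝ)..U, |Cg T (1 / 2) 4 (fun u => ff u - qr T S u) t t'| ^ k) ≤ ε / 2 * Y := by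
    calc _ ≤ (k : ℝ) ^ 2 * ((δ⁻¹ ^ (k - 1)) ^ k *
          (C3 * ((4 ^ k * (tl k J₀ + 2 ^ (2 * k - 1) / A) + (m ^ k + 2 ^ k) / L) * Y))) := by
          apply mul_le_mul_of_nonneg_left _ (by positivity)
          exact mul_le_mul_of_nonneg_left I3' hδp
      _ = (D * (4 ^ k * tl k J₀) + D * (4 ^ k * (2 ^ (2 * k - 1) / A)) + D * ((m ^ k + 2 ^ k) / L)) * Y := by
          rw [hD]; ring
      _ ≤ (ε / 8 + ε / 8 + ε / 4) * Y := by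
          apply mul_le_mul_of_nonneg_right _ hY0
          linarith
      _ = _ := by ring
  have s2 : (k : ℝ) ^ 2 * (δ ^ k * ((∫ t in (0 : ℝ)..U, ∫ t' in (0 : ℝ)..U, |Cg T (1 / 2) 4 (qr T S) t t'| ^ k) +
      ∫ t in (0 : ℝ)..U, ∫ t' in (0 : ℝ)..U, |Cg T (1 / 2) 4 ff t t'| ^ k)) ≤ ε / 2 * Y := by
    calc _ ≤ (k : ℝ) ^ 2 * (δ ^ k * (C2 * B * Y + C1 * B * Y)) := by
          apply mul_le_mul_of_nonneg_left _ (by positivity)
          apply mul_le_mul_of_nonneg_left _ (by positivity)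
          linarith
      _ = (δ ^ k * M) * Y := by rw [hM]; ring
      _ ≤ _ := mul_le_mul_of_nonneg_right hδk hY0
  calc _ = (k : ℝ) ^ 2 * ((δ⁻¹ ^ (k - 1)) ^ k *
      ∫ t in (0 : ℝ)..U, ∫ t' in (0 : ℝ)..U, |Cg T (1 / 2) 4 (fun u => ff u - qr T S u) t t'| ^ k) +
      (k : ℝ) ^ 2 * (δ ^ k * ((∫ t in (0 : ℝ)..U, ∫ t' in (0 : ℝ)..U, |Cg T (1 / 2) 4 (qr T S) t t'| ^ k) +
      ∫ t in (0 : ℝ)..U, ∫ t' in (0 : ℝ)..U, |Cg T (1 / 2) 4 ff t t'| ^ k)) := by ring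
    _ ≤ ε / 2 * Y + ε / 2 * Y := add_le_add s1 s2
    _ = ε * Y := by ring

end

end K1H48.SW
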