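import Pool.Agent.Y587.GP.V
import Pool.Agent.Y379.GP.Sp
import Pool.Agent.Y545.GP.CR

set_option autoImplicit false

/-! Precise bounds for the coefficients of the Dirichlet polynomial `PX` and their derivatives. -/

namespace K1H48.SW

open MeasureTheory Set Finset
open Pool.Agent.Y969.GP
open Pool.Agent.Y587.GP

noncomputable section

/-- size of the coefficients -/
def W (z : ℝ) : ℝ := if 1 ≤ z then 1 + Real.log z else z ^ 3

lemma W_ge {z : ℝ} (hz : 1 ≤ z) : W z = 1 + Real.log z := if_pos hz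
lemma W_lt {z : ℝ} (hz : z < 1) : W z = z ^ 3 := if_neg (not_le.2 hz)

lemma W_pos {z : ℝ} (hz : 0 < z) : 0 < W z := by
  unfold W
  split_ifs with h
  · have := Real.log_nonneg h; linarith
  · positivity

lemma W_nonneg {z : ℝ} (hz : 0 ≤ z) : 0 ≤ W z := by
  unfold W
  split_ifs with h
  · have := Real.log_nonneg h; linarith
  · positivity

lemma W_mono {x y : ℝ} (hx : 0 ≤ x) (h : x ≤ y) : W x ≤ W y := by
  unfold W
  split_ifs with h1 h2 h3
  · have := Real.log_le_log (by linarith) h; linarith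
  · linarith
  · have h4 : x ^ 3 ≤ 1 := pow_le_one₀ hx (by linarith)
    have := Real.log_nonneg h3; linarith
  · exact pow_le_pow_left₀ hx h 3

/-- doubling by a factor 8 -/
lemma W_scale {z : ℝ} (hz : 0 < z) : W (8 * z) ≤ 512 * W z := by
  have hl8 : Real.log 8 ≤ 3 := by
    have h2 := Real.log_two_lt_d9
    have : Real.log 8 = 3 * Real.log 2 := by
      rw [show (8 : ℝ) = 2 ^ 3 by norm_num, Real.log_pow]; norm_num
    rw [this]; linarith
  unfold W
  split_ifs with h1 h2 h3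
  · rw [Real.log_mul (by norm_num) hz.ne']
    have := Real.log_nonneg h2
    linarith
  · rw [Real.log_mul (by norm_num) hz.ne']
    push Not at h2
    have h4 : Real.log z ≤ 0 := Real.log_nonpos hz.le h2.le
    -- log 8 z ≤ log 8, and z ≥ 1/8
    have h5 : (1 / 8 : ℝ) ≤ z := by linarith
    have h6 : Real.log z ≤ z - 1 := Real.log_le_sub_one_of_pos hz
    -- 1 + 3 + z - 1 ≤ 512 z^3
    have h7 : (1 / 8 : ℝ) ^ 3 ≤ z ^ 3 := pow_le_pow_left₀ (by norm_num) h5 3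
    nlinarith [mul_nonneg (sub_nonneg.2 h5) (sub_nonneg.2 h5), mul_nonneg (mul_nonneg (sub_nonneg.2 h5) (sub_nonneg.2 h5)) hz.le, sq_nonneg z,
      Real.log_le_sub_one_of_pos (show (0:ℝ) < 8 * z by positivity), Real.log_mul (show (8:ℝ) ≠ 0 by norm_num) hz.ne']
  · linarith
  · nlinarith [pow_pos hz 3]

/-- the elementary majorant -/
def mn (z : ℝ) : ℝ := min 1 (z ^ 3)

lemma sum_cube_le (N : ℕ) (hN : 1 ≤ N) (G : ℕ) :
    ∑ g ∈ Finset.Ioc N G, ((N : ℝ) ^ 2 / (g : ℝ) ^ 3) ≤ 1 := by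
  have hN0 : (0 : ℝ) < N := by exact_mod_cast hN
  rcases le_or_gt N G with h | h
  · have h1 := sum_Ioc_inv_sq_le_sub (α := ℝ) (k := N) (n := G) (by omega) h
    have h2 : ∑ g ∈ Finset.Ioc N G, ((N : ℝ) ^ 2 / (g : ℝ) ^ 3) ≤
        ∑ g ∈ Finset.Ioc N G, (N : ℝ) * ((g : ℝ) ^ 2)⁻¹ := by
      refine Finset.sum_le_sum fun g hg => ?_
      have hg1 := (Finset.mem_Ioc.1 hg).1
      have hg0 : (0 : ℝ) < g := by exact_mod_cast (by omega : 0 < g)
      have hNg : (N : ℝ) ≤ g := by exact_mod_cast hg1.le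
      rw [← div_eq_mul_inv, div_le_div_iff₀ (by positivity) (by positivity)]
      nlinarith [mul_nonneg (mul_nonneg hN0.le (sub_nonneg.2 hNg)) (sq_nonneg (g : ℝ))]
    refine h2.trans ?_
    rw [← Finset.mul_sum]
    have h3 : (N : ℝ) * ∑ i ∈ Finset.Ioc N G, ((i : ℝ) ^ 2)⁻¹ ≤ N * ((N : ℝ)⁻¹ - (G : ℝ)⁻¹) :=
      mul_le_mul_of_nonneg_left h1 hN0.le
    refine h3.trans ?_
    have h4 : (0 : ℝ) ≤ (G : ℝ)⁻¹ := by positivity
    have h5 : (N : ℝ) * (N : ℝ)⁻¹ = 1 := mul_inv_cancel₀ hN0.ne'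
    nlinarith
  · rw [Finset.Ioc_eq_empty (by omega), Finset.sum_empty]
    norm_num

lemma harm_le (N : ℕ) : ∑ g ∈ Finset.Icc 1 N, 1 / (g : ℝ) ≤ 1 + Real.log N :=
  Pool.Agent.Y379.GP.harm N

/-- the sum over the multiples -/
lemma sum_mn {z : ℝ} (hz : 0 < z) (s : Finset ℕ) (hs : ∀ g ∈ s, 1 ≤ g) :
    ∑ g ∈ s, 1 / (g : ℝ) * mn (z / (g : ℝ) ^ 2) ≤ 4 * W z := by
  obtain ⟨G, hG⟩ : ∃ G, s ⊆ Finset.Icc 1 G := by
    refine ⟨s.sup id, fun g hg => Finset.mem_Icc.2 ⟨hs g hg, Finset.le_sup (f := id) hg⟩⟩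
  have hpos : ∀ g ∈ Finset.Icc 1 G, 0 ≤ 1 / (g : ℝ) * mn (z / (g : ℝ) ^ 2) := by
    intro g _
    unfold mn
    have : 0 ≤ min (1 : ℝ) ((z / (g : ℝ) ^ 2) ^ 3) := le_min (by norm_num) (by positivity)
    positivity
  refine (Finset.sum_le_sum_of_subset_of_nonneg hG fun g hg _ => hpos g hg).trans ?_
  rcases le_or_gt 1 z with h1 | h1
  · rw [W_ge h1]
    set N := ⌈Real.sqrt z⌉₊ with hN
    have hsz : 1 ≤ Real.sqrt z := Real.one_le_sqrt.2 h1
    have hN1 : 1 ≤ N := Nat.one_le_iff_ne_zero.2 (by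
      rw [hN]; exact (Nat.ceil_pos.2 (by linarith)).ne')
    have hNle : (N : ℝ) ≤ 2 * Real.sqrt z := by
      have := Nat.ceil_lt_add_one (show 0 ≤ Real.sqrt z by positivity)
      linarith
    have hzN : z ≤ (N : ℝ) ^ 2 := by
      have h2 := Nat.le_ceil (Real.sqrt z)
      calc z = Real.sqrt z ^ 2 := (Real.sq_sqrt hz.le).symm
        _ ≤ (N : ℝ) ^ 2 := pow_le_pow_left₀ (by positivity) h2 2
    have hpt : ∀ g ∈ Finset.Icc 1 G, 1 / (g : ℝ) * mn (z / (g : ℝ) ^ 2) ≤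
        (if g ∈ Finset.Icc 1 N then 1 / (g : ℝ) else 0) +
        (if g ∈ Finset.Ioc N G then (N : ℝ) ^ 2 / (g : ℝ) ^ 3 else 0) := by
      intro g hg
      rw [Finset.mem_Icc] at hg
      have hg0 : (0 : ℝ) < g := by exact_mod_cast (by omega : 0 < g)
      by_cases hgN : g ≤ N
      · rw [if_pos (Finset.mem_Icc.2 ⟨hg.1, hgN⟩), if_neg (by
          rw [Finset.mem_Ioc]; omega)]
        unfold mn
        have : 1 / (g : ℝ) * min 1 ((z / (g : ℝ) ^ 2) ^ 3) ≤ 1 / (g : ℝ) * 1 :=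
          mul_le_mul_of_nonneg_left (min_le_left _ _) (by positivity)
        linarith
      · push Not at hgN
        rw [if_neg (by rw [Finset.mem_Icc]; omega), if_pos (Finset.mem_Ioc.2 ⟨hgN, hg.2⟩), zero_add]
        have hNg : (N : ℝ) ≤ g := by exact_mod_cast hgN.le
        have hx1 : z / (g : ℝ) ^ 2 ≤ (N : ℝ) ^ 2 / (g : ℝ) ^ 2 := by gcongr
        have hx2 : (N : ℝ) ^ 2 / (g : ℝ) ^ 2 ≤ 1 := by
          rw [div_le_one (by positivity)]
          exact pow_le_pow_left₀ (by positivity) hNg 2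
        have hx0 : 0 ≤ z / (g : ℝ) ^ 2 := by positivity
        have h3 : (z / (g : ℝ) ^ 2) ^ 3 ≤ z / (g : ℝ) ^ 2 := by
          have := hx1.trans hx2
          calc (z / (g : ℝ) ^ 2) ^ 3 ≤ (z / (g : ℝ) ^ 2) ^ 1 :=
                pow_le_pow_of_le_one hx0 this (by norm_num)
            _ = _ := pow_one _
        unfold mn
        calc 1 / (g : ℝ) * min 1 ((z / (g : ℝ) ^ 2) ^ 3) ≤ 1 / (g : ℝ) * ((N : ℝ) ^ 2 / (g : ℝ) ^ 2) :=
              mul_le_mul_of_nonneg_left ((min_le_right _ _).trans (h3.trans hx1)) (by positivity)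
          _ = (N : ℝ) ^ 2 / (g : ℝ) ^ 3 := by field_simp
    refine (Finset.sum_le_sum hpt).trans ?_
    rw [Finset.sum_add_distrib, ← Finset.sum_filter, ← Finset.sum_filter]
    have h2 : ∑ g ∈ (Finset.Icc 1 G).filter (fun g => g ∈ Finset.Icc 1 N), 1 / (g : ℝ) ≤ 1 + Real.log N := by
      refine le_trans (Finset.sum_le_sum_of_subset_of_nonneg ?_ ?_) (harm_le N)
      · intro g hg; exact (Finset.mem_filter.1 hg).2
      · intro g _ _; positivity
    have h3 : ∑ g ∈ (Finset.Icc 1 G).filter (fun g => g ∈ Finset.Ioc N G), (N : ℝ) ^ 2 / (g : ℝ) ^ 3 ≤ 1 := by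
      refine le_trans (Finset.sum_le_sum_of_subset_of_nonneg ?_ ?_) (sum_cube_le N hN1 G)
      · intro g hg; exact (Finset.mem_filter.1 hg).2
      · intro g _ _; positivity
    have h4 : Real.log N ≤ Real.log 2 + Real.log z / 2 := by
      have h5 : Real.log N ≤ Real.log (2 * Real.sqrt z) :=
        Real.log_le_log (by exact_mod_cast hN1) hNle
      rw [Real.log_mul (by norm_num) (by positivity), Real.log_sqrt hz.le] at h5
      exact h5
    have h6 := Real.log_two_lt_d9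
    have h7 := Real.log_nonneg h1
    linarith
  · rw [W_lt h1]
    have hpt : ∀ g ∈ Finset.Icc 1 G, 1 / (g : ℝ) * mn (z / (g : ℝ) ^ 2) ≤ z ^ 3 * ((g : ℝ) ^ 2)⁻¹ := by
      intro g hg
      rw [Finset.mem_Icc] at hg
      have hg1 : (1 : ℝ) ≤ g := by exact_mod_cast hg.1
      have hg0 : (0 : ℝ) < g := by linarith
      unfold mn
      calc 1 / (g : ℝ) * min 1 ((z / (g : ℝ) ^ 2) ^ 3) ≤ 1 / (g : ℝ) * (z / (g : ℝ) ^ 2) ^ 3 :=
            mul_le_mul_of_nonneg_left (min_le_right _ _) (by positivity)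
        _ = z ^ 3 * (((g : ℝ) ^ 7)⁻¹) := by field_simp
        _ ≤ z ^ 3 * ((g : ℝ) ^ 2)⁻¹ := by
            apply mul_le_mul_of_nonneg_left _ (by positivity)
            apply inv_anti₀ (by positivity)
            exact pow_le_pow_right₀ hg1 (by norm_num)
    refine (Finset.sum_le_sum hpt).trans ?_
    rw [← Finset.mul_sum]
    have h2 : ∑ g ∈ Finset.Icc 1 G, ((g : ℝ) ^ 2)⁻¹ ≤ 2 := by
      rcases Nat.eq_zero_or_pos G with h0 | h0
      · subst h0; simp
      · have h3 : Finset.Icc 1 G = insert 1 (Finset.Ioc 1 G) := by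
          ext x; simp only [Finset.mem_Icc, Finset.mem_insert, Finset.mem_Ioc]; omega
        rw [h3, Finset.sum_insert (by simp)]
        have h4 := sum_Ioc_inv_sq_le_sub (α := ℝ) (k := 1) (n := G) (by norm_num) h0
        have h5 : (0 : ℝ) ≤ (G : ℝ)⁻¹ := by positivity
        norm_num at h4 ⊢
        linarith
    have h6 : 0 ≤ z ^ 3 := by positivity
    nlinarith

end

end K1H48.SW
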