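import Pool.Agent.K1H48.SW.Co

set_option autoImplicit false

/-! The derivatives of the coefficients `cr X p`, with precise bounds. -/

namespace K1H48.SW

open MeasureTheory Set Finset
open Pool.Agent.Y969.GP
open Pool.Agent.Y587.GP

noncomputable section

/-- the constant of `V` -/
def kap : ℝ := (2 * √Real.pi)⁻¹

lemma kap_nonneg : 0 ≤ kap := inv_nonneg.2 c0_pos.le
lemma kap_le : kap ≤ 1 := c0_inv_le

/-- derivative of `co p` -/
def co1 (p : ℕ × ℕ) (u : ℝ) : ℝ :=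
  2 * (√(ht p))⁻¹ * (kap * gs (Real.log (2 * Real.pi * ht p / u)) / u)

/-- second derivative of `co p` -/
def co2 (p : ℕ × ℕ) (u : ℝ) : ℝ :=
  2 * (√(ht p))⁻¹ * (kap * gs (Real.log (2 * Real.pi * ht p / u)) *
    (Real.log (2 * Real.pi * ht p / u) / 2 - 1) / u ^ 2)

lemma co_deriv {p : ℕ × ℕ} (hp : 0 < ht p) {u : ℝ} (hu : 0 < u) : HasDerivAt (co p) (co1 p u) u := by
  have hpi := Real.pi_pos
  have hx : 0 < 2 * Real.pi * ht p / u := by positivity
  have h1 : HasDerivAt (fun u : ℝ => 2 * Real.pi * ht p / u) (-(2 * Real.pi * ht p) / u ^ 2) u := by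
    have := (hasDerivAt_inv hu.ne').const_mul (2 * Real.pi * ht p)
    simp only [div_eq_mul_inv]
    refine this.congr_deriv ?_
    ring
  have h2 := (V_deriv _ hx).comp u h1
  have h3 := h2.const_mul (2 * (√(ht p))⁻¹)
  refine h3.congr_deriv ?_
  unfold co1 V1 gs kap
  have hh : ht p ≠ 0 := hp.ne'
  field_simp

lemma co1_deriv {p : ℕ × ℕ} (hp : 0 < ht p) {u : ℝ} (hu : 0 < u) : HasDerivAt (co1 p) (co2 p u) u := by
  have hpi := Real.pi_pos
  have hx : 0 < 2 * Real.pi * ht p / u := by positivity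
  have h1 : HasDerivAt (fun u : ℝ => 2 * Real.pi * ht p / u) (-(2 * Real.pi * ht p) / u ^ 2) u := by
    have := (hasDerivAt_inv hu.ne').const_mul (2 * Real.pi * ht p)
    simp only [div_eq_mul_inv]
    refine this.congr_deriv ?_
    ring
  have h2 := (h1.log hx.ne')
  have h3 := (gs_deriv (Real.log (2 * Real.pi * ht p / u))).comp u h2
  have h4 := (h3.const_mul kap).div (hasDerivAt_id u) hu.ne'
  have h5 := h4.const_mul (2 * (√(ht p))⁻¹)
  refine h5.congr_deriv ?_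
  simp only [Function.comp, id]
  unfold co2
  have hh : ht p ≠ 0 := hp.ne'
  field_simp

lemma gs_b1 (l : ℝ) : gs l * (1 + |l|) ≤ 4 := by
  have h1 := exp_bd l
  have h2 := gs_pos l
  have h3 : gs l * (1 + |l|) ≤ 2 * (gs l * (1 + |l| / 2)) := by
    nlinarith [abs_nonneg l, mul_nonneg h2.le (abs_nonneg l)]
  linarith

lemma gs_b2 (l : ℝ) : gs l * (1 + |l|) ≤ 3 * Real.exp 18 * Real.exp (-(3 * l)) := by
  have h1 : 1 + |l| ≤ 3 * Real.exp (l ^ 2 / 8) := by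
    have h2 := Real.add_one_le_exp (l ^ 2 / 8)
    have h3 : |l| ≤ 2 + l ^ 2 / 8 := by nlinarith [sq_nonneg (|l| - 4), sq_abs l]
    nlinarith [sq_nonneg l]
  have h2 : gs l * Real.exp (l ^ 2 / 8) ≤ Real.exp 18 * Real.exp (-(3 * l)) := by
    unfold gs
    rw [← Real.exp_add, ← Real.exp_add]
    apply Real.exp_le_exp.2
    nlinarith [sq_nonneg (l - 12)]
  calc gs l * (1 + |l|) ≤ gs l * (3 * Real.exp (l ^ 2 / 8)) :=
        mul_le_mul_of_nonneg_left h1 (gs_pos l).le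
    _ = 3 * (gs l * Real.exp (l ^ 2 / 8)) := by ring
    _ ≤ 3 * (Real.exp 18 * Real.exp (-(3 * l))) := by linarith
    _ = _ := by ring

lemma ht_pos {p : ℕ × ℕ} (h1 : 1 ≤ p.1) (h2 : 1 ≤ p.2) : 0 < ht p := by
  unfold ht
  have a1 : (0 : ℝ) < p.1 := by exact_mod_cast h1
  have a2 : (0 : ℝ) < p.2 := by exact_mod_cast h2
  positivity

lemma ht_one_le {p : ℕ × ℕ} (h1 : 1 ≤ p.1) (h2 : 1 ≤ p.2) : 1 ≤ ht p := by
  unfold ht
  have a1 : (1 : ℝ) ≤ p.1 := by exact_mod_cast h1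
  have a2 : (1 : ℝ) ≤ p.2 := by exact_mod_cast h2
  nlinarith

lemma exp_x {h u : ℝ} (hh : 0 < h) (hu : 0 < u) :
    Real.exp (-(3 * Real.log (2 * Real.pi * h / u))) ≤ (u / h) ^ 3 := by
  have hpi := Real.pi_gt_three
  have hx : 0 < 2 * Real.pi * h / u := by positivity
  have e : Real.exp (-(3 * Real.log (2 * Real.pi * h / u))) = ((2 * Real.pi * h / u) ^ 3)⁻¹ := by
    rw [Real.exp_neg, show (3 : ℝ) * Real.log (2 * Real.pi * h / u) = ((3 : ℕ) : ℝ) * Real.log (2 * Real.pi * h / u) by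
      norm_num, ← Real.log_pow, Real.exp_log (by positivity)]
  rw [e, ← inv_pow]
  apply pow_le_pow_left₀ (by positivity)
  rw [inv_div]
  apply div_le_div_of_nonneg_left hu.le hh
  nlinarith

/-- the bounds for one term -/
theorem co_bds : ∃ C : ℝ, 0 < C ∧ ∀ (p : ℕ × ℕ) (u : ℝ), 1 ≤ p.1 → 1 ≤ p.2 → 0 < u →
    |co p u| ≤ C * ((√(ht p))⁻¹ * mn (u / ht p)) ∧
    |co1 p u| ≤ C * ((√(ht p))⁻¹ * mn (u / ht p)) / u ∧
    |co2 p u| ≤ C * ((√(ht p))⁻¹ * mn (u / ht p)) / u ^ 2 := by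
  obtain ⟨C3, hC3, h3⟩ := part6 3 (by norm_num)
  have hE : 0 < Real.exp 18 := Real.exp_pos _
  set D : ℝ := 4 + 3 * Real.exp 18 + C3 with hD
  have hD0 : 0 < D := by positivity
  refine ⟨2 * D, by positivity, fun p u h1 h2 hu => ?_⟩
  have hh := ht_pos h1 h2
  have hpi := Real.pi_gt_three
  have hx : 0 < 2 * Real.pi * ht p / u := by positivity
  have hs : 0 ≤ (√(ht p))⁻¹ := by positivity
  have hz : 0 ≤ (u / ht p) ^ 3 := by positivity
  have hxe := exp_x hh hu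
  -- V
  have hV : V (2 * Real.pi * ht p / u) ≤ D * mn (u / ht p) := by
    unfold mn
    rw [mul_min_of_nonneg _ _ hD0.le]
    apply le_min
    · have := V_le_one (2 * Real.pi * ht p / u)
      linarith
    · refine (h3 _ hx).trans ?_
      have e : (2 * Real.pi * ht p / u) ^ (-3 : ℝ) = Real.exp (-(3 * Real.log (2 * Real.pi * ht p / u))) := by
        rw [Real.rpow_def_of_pos hx]
        congr 1; ring
      rw [e]
      calc C3 * Real.exp (-(3 * Real.log (2 * Real.pi * ht p / u))) ≤ C3 * (u / ht p) ^ 3 := by gcongr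
        _ ≤ D * (u / ht p) ^ 3 := by
            apply mul_le_mul_of_nonneg_right _ hz
            linarith
  have hG : gs (Real.log (2 * Real.pi * ht p / u)) * (1 + |Real.log (2 * Real.pi * ht p / u)|) ≤
      D * mn (u / ht p) := by
    unfold mn
    rw [mul_min_of_nonneg _ _ hD0.le]
    apply le_min
    · have := gs_b1 (Real.log (2 * Real.pi * ht p / u))
      linarith
    · refine (gs_b2 _).trans ?_
      calc 3 * Real.exp 18 * Real.exp (-(3 * Real.log (2 * Real.pi * ht p / u))) ≤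
            3 * Real.exp 18 * (u / ht p) ^ 3 := by gcongr
        _ ≤ D * (u / ht p) ^ 3 := by
            apply mul_le_mul_of_nonneg_right _ hz
            linarith
  have hV0 := V_nonneg (2 * Real.pi * ht p / u)
  set ℓ := Real.log (2 * Real.pi * ht p / u) with hℓ
  have hgp := gs_pos ℓ
  have hk0 := kap_nonneg
  have hk1 := kap_le
  have hA : kap * gs ℓ ≤ D * mn (u / ht p) := by
    have : gs ℓ ≤ gs ℓ * (1 + |ℓ|) := by nlinarith [mul_nonneg hgp.le (abs_nonneg ℓ)]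
    nlinarith
  have hB : kap * gs ℓ * |ℓ / 2 - 1| ≤ D * mn (u / ht p) := by
    have h4 : |ℓ / 2 - 1| ≤ 1 + |ℓ| := by
      calc |ℓ / 2 - 1| ≤ |ℓ / 2| + |(1 : ℝ)| := abs_sub _ _
        _ ≤ 1 + |ℓ| := by
            rw [abs_div, abs_one, abs_of_pos (by norm_num : (0 : ℝ) < 2)]
            linarith [abs_nonneg ℓ]
    have h5 : gs ℓ * |ℓ / 2 - 1| ≤ gs ℓ * (1 + |ℓ|) := mul_le_mul_of_nonneg_left h4 hgp.le
    have h6 : 0 ≤ gs ℓ * |ℓ / 2 - 1| := by positivity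
    nlinarith
  refine ⟨?_, ?_, ?_⟩
  · unfold co
    rw [abs_of_nonneg (by positivity)]
    nlinarith [mul_le_mul_of_nonneg_left hV hs]
  · unfold co1
    rw [abs_of_nonneg (by positivity), ← mul_div_assoc, ← hℓ]
    apply div_le_div_of_nonneg_right _ hu.le
    nlinarith [mul_le_mul_of_nonneg_left hA hs]
  · unfold co2
    rw [← hℓ, abs_mul, abs_of_nonneg (by positivity : 0 ≤ 2 * (√(ht p))⁻¹), abs_div, abs_mul,
      abs_of_nonneg (by positivity : 0 ≤ kap * gs ℓ), abs_of_pos (by positivity : 0 < u ^ 2), ← mul_div_assoc]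
    apply div_le_div_of_nonneg_right _ (by positivity)
    nlinarith [mul_le_mul_of_nonneg_left hB hs]

/-- derivative of `cr X p` -/
def cr1 (X : ℕ) (p : ℕ × ℕ) (u : ℝ) : ℝ :=
  ∑ g ∈ (Finset.Icc 1 X).filter (fun g => g * g * (p.1 * p.2) ≤ X), co1 (g * p.1, g * p.2) u

/-- second derivative of `cr X p` -/
def cr2 (X : ℕ) (p : ℕ × ℕ) (u : ℝ) : ℝ :=
  ∑ g ∈ (Finset.Icc 1 X).filter (fun g => g * g * (p.1 * p.2) ≤ X), co2 (g * p.1, g * p.2) u

lemma ht_mul (g : ℕ) (p : ℕ × ℕ) : ht (g * p.1, g * p.2) = (g : ℝ) ^ 2 * ht p := by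
  unfold ht
  push_cast
  ring

lemma cr_deriv (X : ℕ) {p : ℕ × ℕ} (h1 : 1 ≤ p.1) (h2 : 1 ≤ p.2) {u : ℝ} (hu : 0 < u) :
    HasDerivAt (cr X p) (cr1 X p u) u := by
  have h := HasDerivAt.fun_sum (u := (Finset.Icc 1 X).filter (fun g => g * g * (p.1 * p.2) ≤ X))
    (A := fun g => co (g * p.1, g * p.2)) (A' := fun g => co1 (g * p.1, g * p.2) u) (x := u) (by
      intro g hg
      have hg1 := (Finset.mem_Icc.1 (Finset.mem_filter.1 hg).1).1
      exact co_deriv (ht_pos (p := (g * p.1, g * p.2)) (Nat.mul_pos hg1 h1) (Nat.mul_pos hg1 h2)) hu)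
  exact h

lemma cr1_deriv (X : ℕ) {p : ℕ × ℕ} (h1 : 1 ≤ p.1) (h2 : 1 ≤ p.2) {u : ℝ} (hu : 0 < u) :
    HasDerivAt (cr1 X p) (cr2 X p u) u := by
  have h := HasDerivAt.fun_sum (u := (Finset.Icc 1 X).filter (fun g => g * g * (p.1 * p.2) ≤ X))
    (A := fun g => co1 (g * p.1, g * p.2)) (A' := fun g => co2 (g * p.1, g * p.2) u) (x := u) (by
      intro g hg
      have hg1 := (Finset.mem_Icc.1 (Finset.mem_filter.1 hg).1).1
      exact co1_deriv (ht_pos (p := (g * p.1, g * p.2)) (Nat.mul_pos hg1 h1) (Nat.mul_pos hg1 h2)) hu)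
  exact h

lemma sum_bd {C : ℝ} (hC : 0 < C) (X : ℕ) {p : ℕ × ℕ} (h1 : 1 ≤ p.1) (h2 : 1 ≤ p.2) {u : ℝ} (hu : 0 < u)
    (F : ℕ × ℕ → ℝ) (hF : ∀ q : ℕ × ℕ, 1 ≤ q.1 → 1 ≤ q.2 → |F q| ≤ C * ((√(ht q))⁻¹ * mn (u / ht q))) :
    |∑ g ∈ (Finset.Icc 1 X).filter (fun g => g * g * (p.1 * p.2) ≤ X), F (g * p.1, g * p.2)| ≤
      4 * C * ((√(ht p))⁻¹ * W (u / ht p)) := by
  have hh := ht_pos h1 h2
  refine (Finset.abs_sum_le_sum_abs _ _).trans ?_
  have h3 : ∀ g ∈ (Finset.Icc 1 X).filter (fun g => g * g * (p.1 * p.2) ≤ X), |F (g * p.1, g * p.2)| ≤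
      C * (√(ht p))⁻¹ * (1 / (g : ℝ) * mn (u / ht p / (g : ℝ) ^ 2)) := by
    intro g hg
    have hg1 := (Finset.mem_Icc.1 (Finset.mem_filter.1 hg).1).1
    have hg0 : (0 : ℝ) < g := by exact_mod_cast hg1
    refine (hF (g * p.1, g * p.2) (Nat.mul_pos hg1 h1) (Nat.mul_pos hg1 h2)).trans (le_of_eq ?_)
    rw [ht_mul, Real.sqrt_mul (by positivity), Real.sqrt_sq hg0.le]
    have e : u / ((g : ℝ) ^ 2 * ht p) = u / ht p / (g : ℝ) ^ 2 := by field_simp
    rw [e, mul_inv]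
    ring
  refine (Finset.sum_le_sum h3).trans ?_
  rw [← Finset.mul_sum]
  have h4 := sum_mn (z := u / ht p) (by positivity) ((Finset.Icc 1 X).filter (fun g => g * g * (p.1 * p.2) ≤ X))
    (fun g hg => (Finset.mem_Icc.1 (Finset.mem_filter.1 hg).1).1)
  calc C * (√(ht p))⁻¹ * ∑ g ∈ (Finset.Icc 1 X).filter (fun g => g * g * (p.1 * p.2) ≤ X),
        1 / (g : ℝ) * mn (u / ht p / (g : ℝ) ^ 2) ≤ C * (√(ht p))⁻¹ * (4 * W (u / ht p)) :=
        mul_le_mul_of_nonneg_left h4 (by positivity)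
    _ = _ := by ring

/-- the bounds for the coefficients -/
theorem cr_bds : ∃ C : ℝ, 0 < C ∧ ∀ (X : ℕ) (p : ℕ × ℕ) (u : ℝ), 1 ≤ p.1 → 1 ≤ p.2 → 0 < u →
    |cr X p u| ≤ C * ((√(ht p))⁻¹ * W (u / ht p)) ∧
    |cr1 X p u| ≤ C * ((√(ht p))⁻¹ * W (u / ht p)) / u ∧
    |cr2 X p u| ≤ C * ((√(ht p))⁻¹ * W (u / ht p)) / u ^ 2 := by
  obtain ⟨C, hC, h⟩ := co_bds
  refine ⟨4 * C, by positivity, fun X p u h1 h2 hu => ⟨?_, ?_, ?_⟩⟩
  · exact sum_bd hC X h1 h2 hu (fun q => co q u) fun q a1 a2 => (h q u a1 a2 hu).1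
  · have h3 := sum_bd hC X h1 h2 hu (fun q => u * co1 q u) (fun q a1 a2 => by
      rw [abs_mul, abs_of_pos hu]
      have := (h q u a1 a2 hu).2.1
      rw [le_div_iff₀ hu] at this
      linarith)
    rw [← Finset.mul_sum, abs_mul, abs_of_pos hu] at h3
    rw [le_div_iff₀ hu, mul_comm]
    exact h3
  · have h3 := sum_bd hC X h1 h2 hu (fun q => u ^ 2 * co2 q u) (fun q a1 a2 => by
      rw [abs_mul, abs_of_pos (by positivity : 0 < u ^ 2)]
      have := (h q u a1 a2 hu).2.2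
      rw [le_div_iff₀ (by positivity)] at this
      linarith)
    rw [← Finset.mul_sum, abs_mul, abs_of_pos (by positivity : 0 < u ^ 2)] at h3
    rw [le_div_iff₀ (by positivity), mul_comm]
    exact h3

end

end K1H48.SW
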