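import Pool.Agent.K1H48.SW.Co

set_option autoImplicit false

/-! Integration by parts, twice. -/

namespace K1H48.SW

open MeasureTheory Set Finset
open Pool.Agent.Y969.GP

noncomputable section

/-- the oscillating factor -/
def ex (x Δ : ℝ) : ℂ := Complex.exp (Complex.I * ((x * Δ : ℝ) : ℂ))

lemma norm_ex (x Δ : ℝ) : ‖ex x Δ‖ = 1 := by
  unfold ex
  rw [mul_comm, Complex.norm_exp_ofReal_mul_I]

lemma ex_add (x y Δ : ℝ) : ex (x + y) Δ = ex x Δ * ex y Δ := by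
  unfold ex
  rw [← Complex.exp_add]
  congr 1
  push_cast
  ring

lemma ex_add' (x Δ Δ' : ℝ) : ex x (Δ + Δ') = ex x Δ * ex x Δ' := by
  unfold ex
  rw [← Complex.exp_add]
  congr 1
  push_cast
  ring

lemma ex_zero (x : ℝ) : ex x 0 = 1 := by
  unfold ex; simp

lemma ex_zero' (x : ℝ) : ex 0 x = 1 := by
  unfold ex; simp

lemma ex_conj (x Δ : ℝ) : (starRingEnd ℂ) (ex x Δ) = ex x (-Δ) := by
  unfold ex
  rw [← Complex.exp_conj]
  congr 1
  rw [map_mul, Complex.conj_I, Complex.conj_ofReal]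
  push_cast
  ring

lemma ex_neg (x Δ : ℝ) : ex (-x) Δ = ex x (-Δ) := by
  unfold ex
  congr 2
  push_cast
  ring

lemma ex_cont (Δ : ℝ) : Continuous (fun x => ex x Δ) := by
  unfold ex
  fun_prop

lemma ex_deriv (x Δ : ℝ) : HasDerivAt (fun x => ex x Δ) (ex x Δ * (Complex.I * Δ)) x := by
  unfold ex
  have h1 : HasDerivAt (fun x : ℝ => Complex.I * ((x * Δ : ℝ) : ℂ)) (Complex.I * Δ) x := by
    have h2 : HasDerivAt (fun x : ℝ => ((x * Δ : ℝ) : ℂ)) ((Δ : ℝ) : ℂ) x := by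
      have := ((hasDerivAt_id x).mul_const Δ).ofReal_comp
      simpa using this
    exact h2.const_mul _
  exact h1.cexp

lemma ibp1 {a b Δ : ℝ} (hab : a ≤ b) (hΔ : Δ ≠ 0) (H H1 : ℝ → ℝ)
    (hd : ∀ x ∈ Icc a b, HasDerivAt H (H1 x) x) (hc : ContinuousOn H1 (Icc a b))
    (ha : H a = 0) (hb : H b = 0) :
    ∫ x in a..b, (H x : ℂ) * ex x Δ = -(Complex.I * Δ)⁻¹ * ∫ x in a..b, (H1 x : ℂ) * ex x Δ := by
  have hI : (Complex.I * (Δ : ℂ)) ≠ 0 := mul_ne_zero Complex.I_ne_zero (by exact_mod_cast hΔ)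
  have hu : Set.uIcc a b = Icc a b := Set.uIcc_of_le hab
  have h1 := intervalIntegral.integral_mul_deriv_eq_deriv_mul (a := a) (b := b)
    (u := fun x => (H x : ℂ)) (v := fun x => ex x Δ * (Complex.I * Δ)⁻¹)
    (u' := fun x => (H1 x : ℂ)) (v' := fun x => ex x Δ)
    (fun x hx => (hd x (hu ▸ hx)).ofReal_comp)
    (fun x _ => by
      have := (ex_deriv x Δ).mul_const (Complex.I * (Δ : ℂ))⁻¹
      refine this.congr_deriv ?_
      rw [mul_assoc, mul_inv_cancel₀ hI, mul_one])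
    (by
      apply ContinuousOn.intervalIntegrable
      rw [hu]
      exact Complex.continuous_ofReal.comp_continuousOn hc)
    ((ex_cont Δ).intervalIntegrable _ _)
  rw [h1, ha, hb]
  simp only [Complex.ofReal_zero, zero_mul, sub_zero, zero_sub]
  rw [← intervalIntegral.integral_const_mul, ← intervalIntegral.integral_neg]
  congr 1
  funext x
  ring

lemma ibp2 {a b Δ M : ℝ} (hab : a ≤ b) (H H1 H2 : ℝ → ℝ)
    (hd : ∀ x ∈ Icc a b, HasDerivAt H (H1 x) x) (hd2 : ∀ x ∈ Icc a b, HasDerivAt H1 (H2 x) x)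
    (hc : ContinuousOn H2 (Icc a b)) (ha : H a = 0) (hb : H b = 0) (ha1 : H1 a = 0) (hb1 : H1 b = 0)
    (hM : ∀ x ∈ Icc a b, |H2 x| ≤ M) (hΔ : Δ ≠ 0) :
    ‖∫ x in a..b, (H x : ℂ) * ex x Δ‖ ≤ M * (b - a) / Δ ^ 2 := by
  rw [ibp1 hab hΔ H H1 hd (fun x hx => (hd2 x hx).continuousAt.continuousWithinAt) ha hb,
    ibp1 hab hΔ H1 H2 hd2 hc ha1 hb1]
  rw [norm_mul, norm_mul, norm_neg, norm_inv, norm_mul, Complex.norm_I, one_mul, Complex.norm_real,
    Real.norm_eq_abs]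
  have h1 : ‖∫ x in a..b, (H2 x : ℂ) * ex x Δ‖ ≤ M * |b - a| := by
    apply intervalIntegral.norm_integral_le_of_norm_le_const
    intro x hx
    rw [Set.uIoc_of_le hab] at hx
    rw [norm_mul, norm_ex, mul_one, Complex.norm_real, Real.norm_eq_abs]
    exact hM x ⟨hx.1.le, hx.2⟩
  rw [abs_of_nonneg (by linarith)] at h1
  have hΔ0 : 0 < |Δ| := abs_pos.2 hΔ
  calc |Δ|⁻¹ * (|Δ|⁻¹ * ‖∫ x in a..b, (H2 x : ℂ) * ex x Δ‖) ≤ |Δ|⁻¹ * (|Δ|⁻¹ * (M * (b - a))) := by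
        gcongr
    _ = M * (b - a) / Δ ^ 2 := by
        rw [← sq_abs Δ]
        field_simp

/-- a smooth amplitude on `[A, B]`, at the scale `T` -/
structure AmpOn (A B T K : ℝ) (F F1 F2 : ℝ → ℝ) : Prop where
  d1 : ∀ u ∈ Icc A B, HasDerivAt F (F1 u) u
  d2 : ∀ u ∈ Icc A B, HasDerivAt F1 (F2 u) u
  c2 : ContinuousOn F2 (Icc A B)
  b0 : ∀ u ∈ Icc A B, |F u| ≤ K
  b1 : ∀ u ∈ Icc A B, |F1 u| ≤ K / T
  b2 : ∀ u ∈ Icc A B, |F2 u| ≤ K / T ^ 2

lemma AmpOn.c0 {A B T K : ℝ} {F F1 F2 : ℝ → ℝ} (h : AmpOn A B T K F F1 F2) : ContinuousOn F (Icc A B) :=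
  fun u hu => (h.d1 u hu).continuousAt.continuousWithinAt

lemma AmpOn.c1 {A B T K : ℝ} {F F1 F2 : ℝ → ℝ} (h : AmpOn A B T K F F1 F2) : ContinuousOn F1 (Icc A B) :=
  fun u hu => (h.d2 u hu).continuousAt.continuousWithinAt

lemma AmpOn.mono {A B T K K' : ℝ} {F F1 F2 : ℝ → ℝ} (h : AmpOn A B T K F F1 F2) (hK : K ≤ K') (hT : 0 < T) :
    AmpOn A B T K' F F1 F2 where
  d1 := h.d1
  d2 := h.d2
  c2 := h.c2
  b0 u hu := (h.b0 u hu).trans hK
  b1 u hu := (h.b1 u hu).trans (div_le_div_of_nonneg_right hK hT.le)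
  b2 u hu := (h.b2 u hu).trans (div_le_div_of_nonneg_right hK (by positivity))

lemma AmpOn.sub {A B T K A' B' : ℝ} {F F1 F2 : ℝ → ℝ} (h : AmpOn A B T K F F1 F2) (h1 : A ≤ A') (h2 : B' ≤ B) :
    AmpOn A' B' T K F F1 F2 where
  d1 u hu := h.d1 u ⟨h1.trans hu.1, hu.2.trans h2⟩
  d2 u hu := h.d2 u ⟨h1.trans hu.1, hu.2.trans h2⟩
  c2 := h.c2.mono (Icc_subset_Icc h1 h2)
  b0 u hu := h.b0 u ⟨h1.trans hu.1, hu.2.trans h2⟩
  b1 u hu := h.b1 u ⟨h1.trans hu.1, hu.2.trans h2⟩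
  b2 u hu := h.b2 u ⟨h1.trans hu.1, hu.2.trans h2⟩

lemma AmpOn.mul {A B T K K' : ℝ} {F F1 F2 G G1 G2 : ℝ → ℝ} (hT : 0 < T) (hK : 0 ≤ K) (hK' : 0 ≤ K')
    (h : AmpOn A B T K F F1 F2) (h' : AmpOn A B T K' G G1 G2) :
    AmpOn A B T (4 * (K * K')) (fun u => F u * G u) (fun u => F1 u * G u + F u * G1 u)
      (fun u => F2 u * G u + 2 * (F1 u * G1 u) + F u * G2 u) where
  d1 u hu := (h.d1 u hu).mul (h'.d1 u hu)
  d2 u hu := by
    have h1 := ((h.d2 u hu).mul (h'.d1 u hu)).add ((h.d1 u hu).mul (h'.d2 u hu))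
    refine h1.congr_deriv ?_
    ring
  c2 := ((h.c2.mul h'.c0).add ((h.c1.mul h'.c1).const_mul 2)).add (h.c0.mul h'.c2) |>.congr fun u _ => by
    simp
  b0 u hu := by
    rw [abs_mul]
    have := mul_le_mul (h.b0 u hu) (h'.b0 u hu) (abs_nonneg _) hK
    nlinarith [mul_nonneg hK hK']
  b1 u hu := by
    refine (abs_add_le _ _).trans ?_
    rw [abs_mul, abs_mul]
    have a1 := mul_le_mul (h.b1 u hu) (h'.b0 u hu) (abs_nonneg _) (by positivity)
    have a2 := mul_le_mul (h.b0 u hu) (h'.b1 u hu) (abs_nonneg _) hK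
    have e1 : K / T * K' = K * K' / T := by ring
    have e2 : K * (K' / T) = K * K' / T := by ring
    rw [e1] at a1
    rw [e2] at a2
    have e3 : 4 * (K * K') / T = 4 * (K * K' / T) := by ring
    rw [e3]
    have : 0 ≤ K * K' / T := by positivity
    linarith
  b2 u hu := by
    refine (abs_add_le _ _).trans ?_
    have a0 := abs_add_le (F2 u * G u) (2 * (F1 u * G1 u))
    rw [abs_mul, abs_mul, abs_mul, abs_of_pos (by norm_num : (0 : ℝ) < 2)] at a0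
    rw [abs_mul (F u)]
    have a1 := mul_le_mul (h.b2 u hu) (h'.b0 u hu) (abs_nonneg _) (by positivity)
    have a2 := mul_le_mul (h.b1 u hu) (h'.b1 u hu) (abs_nonneg _) (by positivity)
    have a3 := mul_le_mul (h.b0 u hu) (h'.b2 u hu) (abs_nonneg _) hK
    have e1 : K / T ^ 2 * K' = K * K' / T ^ 2 := by ring
    have e2 : K / T * (K' / T) = K * K' / T ^ 2 := by field_simp
    have e3 : K * (K' / T ^ 2) = K * K' / T ^ 2 := by ring
    rw [e1] at a1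
    rw [e2] at a2
    rw [e3] at a3
    have e4 : 4 * (K * K') / T ^ 2 = 4 * (K * K' / T ^ 2) := by ring
    rw [e4]
    linarith

lemma AmpOn.shift {A B T K t B' : ℝ} {F F1 F2 : ℝ → ℝ} (h : AmpOn A B T K F F1 F2) (ht : 0 ≤ t)
    (hB : B' + t ≤ B) :
    AmpOn A B' T K (fun u => F (u + t)) (fun u => F1 (u + t)) (fun u => F2 (u + t)) where
  d1 u hu := (h.d1 (u + t) ⟨by linarith [hu.1], by linarith [hu.2]⟩).comp_add_const u t
  d2 u hu := (h.d2 (u + t) ⟨by linarith [hu.1], by linarith [hu.2]⟩).comp_add_const u t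
  c2 := h.c2.comp (by fun_prop) fun u hu => ⟨by linarith [hu.1], by linarith [hu.2]⟩
  b0 u hu := h.b0 (u + t) ⟨by linarith [hu.1], by linarith [hu.2]⟩
  b1 u hu := h.b1 (u + t) ⟨by linarith [hu.1], by linarith [hu.2]⟩
  b2 u hu := h.b2 (u + t) ⟨by linarith [hu.1], by linarith [hu.2]⟩

/-- the weight -/
def wt (T α β c : ℝ) : ℝ := ((c / T - α) * (β - c / T)) ^ 2

def wt1 (T α β c : ℝ) : ℝ := 2 * ((c / T - α) * (β - c / T)) * (α + β - 2 * (c / T)) / T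

def wt2 (T α β c : ℝ) : ℝ :=
  (2 * (α + β - 2 * (c / T)) ^ 2 - 4 * ((c / T - α) * (β - c / T))) / T ^ 2

lemma wt_cont (T α β : ℝ) : Continuous (wt T α β) := by
  unfold wt; fun_prop

lemma wt_nonneg (T α β c : ℝ) : 0 ≤ wt T α β c := sq_nonneg _

lemma wt_d1 (T α β c : ℝ) : HasDerivAt (wt T α β) (wt1 T α β c) c := by
  unfold wt wt1
  have h1 : HasDerivAt (fun c : ℝ => c / T) (1 / T) c := (hasDerivAt_id c).div_const T
  have h2 := (((h1.sub_const α).mul (h1.const_sub β)).pow 2)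
  refine h2.congr_deriv ?_
  simp only [Pi.mul_apply]
  push_cast
  ring

lemma wt_d2 (T α β c : ℝ) : HasDerivAt (wt1 T α β) (wt2 T α β c) c := by
  unfold wt1 wt2
  have h1 : HasDerivAt (fun c : ℝ => c / T) (1 / T) c := (hasDerivAt_id c).div_const T
  have h2 := ((((h1.sub_const α).mul (h1.const_sub β)).const_mul 2).mul
    ((h1.const_mul 2).const_sub (α + β))).div_const T
  refine h2.congr_deriv ?_
  simp only [Pi.mul_apply]
  ring

lemma wt_amp {T α β : ℝ} (hT : 0 < T) (hα : 1 / 2 ≤ α) (hα' : α ≤ 4) (hβ : β ≤ 4) (hβ' : 1 / 2 ≤ β) :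
    AmpOn (T / 2) (4 * T) T 172 (wt T α β) (wt1 T α β) (wt2 T α β) := by
  have key : ∀ u ∈ Icc (T / 2) (4 * T), 1 / 2 ≤ u / T ∧ u / T ≤ 4 := by
    intro u hu
    constructor
    · rw [le_div_iff₀ hT]; linarith [hu.1]
    · rw [div_le_iff₀ hT]; exact hu.2
  have b1 : ∀ u ∈ Icc (T / 2) (4 * T), |(u / T - α) * (β - u / T)| ≤ 12.25 := by
    intro u hu
    obtain ⟨h1, h2⟩ := key u hu
    rw [abs_mul]
    have h3 : |u / T - α| ≤ 3.5 := abs_le.2 ⟨by linarith, by linarith⟩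
    have h4 : |β - u / T| ≤ 3.5 := abs_le.2 ⟨by linarith, by linarith⟩
    calc _ ≤ (3.5 : ℝ) * 3.5 := mul_le_mul h3 h4 (abs_nonneg _) (by norm_num)
      _ = 12.25 := by norm_num
  have b2 : ∀ u ∈ Icc (T / 2) (4 * T), |α + β - 2 * (u / T)| ≤ 7 := by
    intro u hu
    obtain ⟨h1, h2⟩ := key u hu
    exact abs_le.2 ⟨by linarith, by linarith⟩
  refine ⟨fun u _ => wt_d1 T α β u, fun u _ => wt_d2 T α β u, ?_, fun u hu => ?_, fun u hu => ?_,
    fun u hu => ?_⟩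
  · unfold wt2
    fun_prop
  · unfold wt
    rw [abs_pow]
    have := pow_le_pow_left₀ (abs_nonneg _) (b1 u hu) 2
    norm_num at this ⊢
    linarith
  · unfold wt1
    rw [abs_div, abs_of_pos hT]
    apply div_le_div_of_nonneg_right _ hT.le
    rw [abs_mul, abs_mul, abs_of_pos (by norm_num : (0 : ℝ) < 2)]
    calc 2 * |(u / T - α) * (β - u / T)| * |α + β - 2 * (u / T)| ≤ 2 * 12.25 * 7 := by
          apply mul_le_mul _ (b2 u hu) (abs_nonneg _) (by norm_num)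
          linarith [b1 u hu]
      _ ≤ 172 := by norm_num
  · unfold wt2
    rw [abs_div, abs_of_pos (by positivity : 0 < T ^ 2)]
    apply div_le_div_of_nonneg_right _ (by positivity)
    refine (abs_sub _ _).trans ?_
    rw [abs_mul, abs_mul, abs_of_pos (by norm_num : (0 : ℝ) < 2), abs_of_pos (by norm_num : (0 : ℝ) < 4),
      abs_pow]
    have h1 := b1 u hu
    have h2 := pow_le_pow_left₀ (abs_nonneg _) (b2 u hu) 2
    norm_num at h1 h2 ⊢
    linarith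

/-- the off-diagonal integral -/
lemma ibp_w {T α β Δ K K' : ℝ} {F F1 F2 G G1 G2 : ℝ → ℝ} (hT : 0 < T) (hα : 1 / 2 ≤ α) (hαβ : α ≤ β)
    (hβ : β ≤ 4) (hK : 0 ≤ K) (hK' : 0 ≤ K') (hF : AmpOn (T / 2) (4 * T) T K F F1 F2)
    (hG : AmpOn (T / 2) (4 * T) T K' G G1 G2) (hΔ : Δ ≠ 0) :
    ‖∫ x in α * T..β * T, ((wt T α β x * (F x * G x) : ℝ) : ℂ) * ex x Δ‖ ≤
      9632 * (K * K') / (T * Δ ^ 2) := by
  have hw := wt_amp hT hα (hαβ.trans hβ) hβ (hα.trans hαβ)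
  have h1 := hw.mul hT (by norm_num) (by positivity) (hF.mul hT hK hK' hG)
  have hsub : Icc (α * T) (β * T) ⊆ Icc (T / 2) (4 * T) := Icc_subset_Icc (by nlinarith) (by nlinarith)
  have hwa : wt T α β (α * T) = 0 := by unfold wt; field_simp; ring
  have hwb : wt T α β (β * T) = 0 := by unfold wt; field_simp; ring
  have hwa1 : wt1 T α β (α * T) = 0 := by unfold wt1; field_simp; ring
  have hwb1 : wt1 T α β (β * T) = 0 := by unfold wt1; field_simp; ring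
  have h2 := ibp2 (a := α * T) (b := β * T) (Δ := Δ) (M := 4 * (172 * (4 * (K * K'))) / T ^ 2)
    (by nlinarith) _ _ _ (fun x hx => h1.d1 x (hsub hx)) (fun x hx => h1.d2 x (hsub hx))
    (h1.c2.mono hsub) (by rw [hwa]; ring) (by rw [hwb]; ring) (by rw [hwa, hwa1]; ring)
    (by rw [hwb, hwb1]; ring) (fun x hx => h1.b2 x (hsub hx)) hΔ
  refine h2.trans ?_
  have hΔ2 : 0 < Δ ^ 2 := by positivity
  have h3 : β * T - α * T ≤ 3.5 * T := by nlinarith
  calc 4 * (172 * (4 * (K * K'))) / T ^ 2 * (β * T - α * T) / Δ ^ 2 ≤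
        4 * (172 * (4 * (K * K'))) / T ^ 2 * (3.5 * T) / Δ ^ 2 := by
        apply div_le_div_of_nonneg_right _ hΔ2.le
        exact mul_le_mul_of_nonneg_left h3 (by positivity)
    _ = 9632 * (K * K') / (T * Δ ^ 2) := by
        field_simp
        ring

end

end K1H48.SW
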