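import Pool.Agent.K1H48.SW.Wt
import Pool.Agent.K1H48.SW.Ibp

set_option autoImplicit false

/-! The pair correlation of a Dirichlet polynomial with smooth amplitudes. -/

namespace K1H48.SW

open MeasureTheory Set Finset
open Pool.Agent.Y969.GP

noncomputable section

/-- a family of amplitudes -/
def Fam (J : ℕ) (T K : ℝ) (a a1 a2 : ℕ × ℕ → ℝ → ℝ) : Prop :=
  ∀ p ∈ FR (2 ^ J), AmpOn (T / 2) (8 * T) T (K * bet T p) (a p) (a1 p) (a2 p)

/-- the Dirichlet polynomial -/
def gP (J : ℕ) (a : ℕ × ℕ → ℝ → ℝ) (u : ℝ) : ℂ := ∑ p ∈ FR (2 ^ J), (a p u : ℂ) * ex u (lam p)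

/-- the diagonal terms -/
def Dp (T α β : ℝ) (a : ℝ → ℝ) : ℝ := (∫ c in α * T..β * T, wt T α β c * (a c) ^ 2) / T

/-- the main part of the correlation -/
def Cm (J : ℕ) (D : ℕ × ℕ → ℝ) (v : ℝ) : ℂ := ∑ p ∈ FR (2 ^ J), (D p : ℂ) * ex v (lam p)

lemma AmpOn.lip {A B T K : ℝ} {F F1 F2 : ℝ → ℝ} (h : AmpOn A B T K F F1 F2) {x y : ℝ} (hx : x ∈ Icc A B)
    (hy : y ∈ Icc A B) : |F y - F x| ≤ K / T * |y - x| := by
  have := Convex.norm_image_sub_le_of_norm_hasDerivWithin_le (f := F) (f' := F1) (s := Icc A B)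
    (C := K / T) (fun x hx => (h.d1 x hx).hasDerivWithinAt) (fun x hx => by
      rw [Real.norm_eq_abs]; exact h.b1 x hx) (convex_Icc A B) hx hy
  simpa [Real.norm_eq_abs] using this

lemma diag_err {T K U t t' α β : ℝ} {F F1 F2 : ℝ → ℝ} (hT : 0 < T) (hK : 0 ≤ K)
    (hα : 1 / 2 ≤ α) (hαβ : α ≤ β) (hβ : β ≤ 4) (hU : U ≤ T) (ht0 : 0 ≤ t) (ht : t ≤ U) (ht0' : 0 ≤ t')
    (ht' : t' ≤ U) (h : AmpOn (T / 2) (8 * T) T K F F1 F2) :
    |(∫ c in α * T..β * T, wt T α β c * (F (c + t) * F (c + t'))) -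
      ∫ c in α * T..β * T, wt T α β c * (F c) ^ 2| ≤ 1204 * (U * K ^ 2) := by
  have hU0 : 0 ≤ U := ht0.trans ht
  have hle : α * T ≤ β * T := by nlinarith
  have hc : ContinuousOn F (Icc (T / 2) (8 * T)) := h.c0
  have hsh : ∀ s : ℝ, 0 ≤ s → s ≤ U → ContinuousOn (fun c => F (c + s)) (Icc (α * T) (β * T)) := by
    intro s hs0 hs
    refine hc.comp (by fun_prop) fun c hc' => ⟨?_, ?_⟩
    · nlinarith [hc'.1]
    · nlinarith [hc'.2]
  have hF0 : ContinuousOn F (Icc (α * T) (β * T)) := by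
    have := hsh 0 le_rfl hU0
    simpa using this
  have hw : ContinuousOn (wt T α β) (Icc (α * T) (β * T)) := (wt_cont T α β).continuousOn
  have hwa := wt_amp hT hα (hαβ.trans hβ) hβ (hα.trans hαβ)
  rw [← intervalIntegral.integral_sub]
  · have h1 : ∀ c ∈ Set.uIoc (α * T) (β * T),
        ‖wt T α β c * (F (c + t) * F (c + t')) - wt T α β c * (F c) ^ 2‖ ≤ 172 * (2 * (K * (K / T * U))) := by
      intro c hc'
      rw [Set.uIoc_of_le hle] at hc'
      have c1 : T / 2 ≤ c := by nlinarith [hc'.1]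
      have c2 : c ≤ 4 * T := by nlinarith [hc'.2]
      have m0 : c ∈ Icc (T / 2) (8 * T) := ⟨c1, by linarith⟩
      have m1 : c + t ∈ Icc (T / 2) (8 * T) := ⟨by linarith, by linarith⟩
      have m2 : c + t' ∈ Icc (T / 2) (8 * T) := ⟨by linarith, by linarith⟩
      have hKT : 0 ≤ K / T := by positivity
      have l1 : |F (c + t) - F c| ≤ K / T * U := by
        refine (h.lip m0 m1).trans ?_
        rw [show c + t - c = t by ring, abs_of_nonneg ht0]
        exact mul_le_mul_of_nonneg_left ht hKT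
      have l2 : |F (c + t') - F c| ≤ K / T * U := by
        refine (h.lip m0 m2).trans ?_
        rw [show c + t' - c = t' by ring, abs_of_nonneg ht0']
        exact mul_le_mul_of_nonneg_left ht' hKT
      have b2 := h.b0 _ m2
      have b0 := h.b0 _ m0
      have wb := hwa.b0 c ⟨c1, c2⟩
      rw [← mul_sub, norm_mul, Real.norm_eq_abs, Real.norm_eq_abs]
      apply mul_le_mul wb _ (abs_nonneg _) (by norm_num)
      have e : F (c + t) * F (c + t') - F c ^ 2 =
          (F (c + t) - F c) * F (c + t') + F c * (F (c + t') - F c) := by ring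
      rw [e]
      refine (abs_add_le _ _).trans ?_
      rw [abs_mul, abs_mul]
      have hKTU : 0 ≤ K / T * U := by positivity
      have a1 := mul_le_mul l1 b2 (abs_nonneg _) hKTU
      have a2 := mul_le_mul b0 l2 (abs_nonneg _) hK
      linarith
    have h2 := intervalIntegral.norm_integral_le_of_norm_le_const h1
    rw [Real.norm_eq_abs, abs_of_nonneg (by linarith : 0 ≤ β * T - α * T)] at h2
    refine h2.trans ?_
    have h3 : β * T - α * T ≤ 3.5 * T := by nlinarith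
    calc 172 * (2 * (K * (K / T * U))) * (β * T - α * T) ≤ 172 * (2 * (K * (K / T * U))) * (3.5 * T) :=
          mul_le_mul_of_nonneg_left h3 (by positivity)
      _ = _ := by field_simp; ring
  · apply ContinuousOn.intervalIntegrable
    rw [Set.uIcc_of_le hle]
    exact hw.mul ((hsh t ht0 ht).mul (hsh t' ht0' ht'))
  · apply ContinuousOn.intervalIntegrable
    rw [Set.uIcc_of_le hle]
    exact hw.mul (hF0.pow 2)

/-- the correlation -/
theorem corr {J : ℕ} {T K U t t' α β : ℝ} {a a1 a2 : ℕ × ℕ → ℝ → ℝ} (hT : 1 ≤ T) (hK : 0 ≤ K)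
    (hα : 1 / 2 ≤ α) (hαβ : α ≤ β) (hβ : β ≤ 4) (hU : U ≤ T) (ht0 : 0 ≤ t) (ht : t ≤ U) (ht0' : 0 ≤ t')
    (ht' : t' ≤ U) (h : Fam J T K a a1 a2) :
    ‖(∫ c in α * T..β * T, (wt T α β c : ℂ) * (gP J a (c + t) * (starRingEnd ℂ) (gP J a (c + t')))) -
      T * Cm J (fun p => Dp T α β (a p)) (t - t')‖ ≤
      10 ^ 15 * K ^ 2 * ((J + 1) * T + U * ((J + 1) ^ 2 * (1 + Real.log T) ^ 2)) := by
  classical
  have hT0 : 0 < T := by linarith
  have hU0 : 0 ≤ U := ht0.trans ht
  have hle : α * T ≤ β * T := by nlinarith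
  have hsh : ∀ p ∈ FR (2 ^ J), ∀ s : ℝ, 0 ≤ s → s ≤ U →
      ContinuousOn (fun c => a p (c + s)) (Icc (α * T) (β * T)) := by
    intro p hp s hs0 hs
    refine (h p hp).c0.comp (by fun_prop) fun c hc' => ⟨?_, ?_⟩
    · nlinarith [hc'.1]
    · nlinarith [hc'.2]
  -- expansion
  have e1 : ∀ c : ℝ, (wt T α β c : ℂ) * (gP J a (c + t) * (starRingEnd ℂ) (gP J a (c + t'))) =
      ∑ p ∈ FR (2 ^ J), ∑ q ∈ FR (2 ^ J), (ex t (lam p) * ex t' (-lam q)) *
        (((wt T α β c * (a p (c + t) * a q (c + t')) : ℝ) : ℂ) * ex c (lam p - lam q)) := by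
    intro c
    unfold gP
    rw [map_sum, Finset.sum_mul_sum, Finset.mul_sum]
    refine Finset.sum_congr rfl fun p _ => ?_
    rw [Finset.mul_sum]
    refine Finset.sum_congr rfl fun q _ => ?_
    rw [map_mul, ex_conj, Complex.conj_ofReal, ex_add, ex_add, sub_eq_add_neg, ex_add' c]
    push_cast
    ring
  have e2 : ∫ c in α * T..β * T, (wt T α β c : ℂ) * (gP J a (c + t) * (starRingEnd ℂ) (gP J a (c + t'))) =
      ∑ p ∈ FR (2 ^ J), ∑ q ∈ FR (2 ^ J), (ex t (lam p) * ex t' (-lam q)) *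
        ∫ c in α * T..β * T, ((wt T α β c * (a p (c + t) * a q (c + t')) : ℝ) : ℂ) * ex c (lam p - lam q) := by
    simp_rw [e1]
    have hint : ∀ p ∈ FR (2 ^ J), ∀ q ∈ FR (2 ^ J), ContinuousOn (fun c : ℝ =>
        (ex t (lam p) * ex t' (-lam q)) *
        (((wt T α β c * (a p (c + t) * a q (c + t')) : ℝ) : ℂ) * ex c (lam p - lam q)))
        (Set.uIcc (α * T) (β * T)) := by
      intro p hp q hq
      rw [Set.uIcc_of_le hle]
      have h1 : ContinuousOn (fun c : ℝ => wt T α β c * (a p (c + t) * a q (c + t'))) (Icc (α * T) (β * T)) :=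
        (wt_cont T α β).continuousOn.mul ((hsh p hp t ht0 ht).mul (hsh q hq t' ht0' ht'))
      exact continuousOn_const.mul ((Complex.continuous_ofReal.comp_continuousOn h1).mul
        (ex_cont _).continuousOn)
    rw [intervalIntegral.integral_finsetSum (fun p hp =>
      (continuousOn_finsetSum _ fun q hq => hint p hp q hq).intervalIntegrable)]
    refine Finset.sum_congr rfl fun p hp => ?_
    rw [intervalIntegral.integral_finsetSum (fun q hq => (hint p hp q hq).intervalIntegrable)]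
    refine Finset.sum_congr rfl fun q _ => ?_
    rw [intervalIntegral.integral_const_mul]
  have e3 : (T : ℂ) * Cm J (fun p => Dp T α β (a p)) (t - t') = ∑ p ∈ FR (2 ^ J), ∑ q ∈ FR (2 ^ J),
      (if q = p then ((T * Dp T α β (a p) : ℝ) : ℂ) * ex (t - t') (lam p) else 0) := by
    unfold Cm
    rw [Finset.mul_sum]
    refine Finset.sum_congr rfl fun p hp => ?_
    rw [Finset.sum_ite_eq' _ p, if_pos hp]
    push_cast
    ring
  rw [e2, e3, ← Finset.sum_sub_distrib]
  simp_rw [← Finset.sum_sub_distrib]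
  have hterm : ∀ p ∈ FR (2 ^ J), ∀ q ∈ FR (2 ^ J),
      ‖(ex t (lam p) * ex t' (-lam q)) *
        (∫ c in α * T..β * T, ((wt T α β c * (a p (c + t) * a q (c + t')) : ℝ) : ℂ) * ex c (lam p - lam q)) -
      (if q = p then ((T * Dp T α β (a p) : ℝ) : ℂ) * ex (t - t') (lam p) else 0)‖ ≤
      9632 * K ^ 2 / T * (bet T p * bet T q / (lam p - lam q) ^ 2) +
        (if q = p then 1204 * U * K ^ 2 * bet T p ^ 2 else 0) := by
    intro p hp q hq
    by_cases hqp : q = p
    · subst hqp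
      rw [if_pos rfl, if_pos rfl, sub_self]
      simp only [ex_zero, mul_one]
      rw [intervalIntegral.integral_ofReal]
      have e4 : ex t (lam q) * ex t' (-lam q) = ex (t - t') (lam q) := by
        rw [sub_eq_add_neg, ex_add, ex_neg]
      rw [e4, mul_comm (((T * Dp T α β (a q) : ℝ) : ℂ)), ← mul_sub, norm_mul, norm_ex, one_mul]
      have e5 : T * Dp T α β (a q) = ∫ c in α * T..β * T, wt T α β c * (a q c) ^ 2 := by
        unfold Dp
        field_simp
      rw [e5, ← Complex.ofReal_sub, Complex.norm_real, Real.norm_eq_abs]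
      have h1 := diag_err hT0 (mul_nonneg hK (bet_nonneg hT0 q)) hα hαβ hβ hU ht0 ht ht0' ht' (h q hq)
      have h2 : bet T q * bet T q / (0 : ℝ) ^ 2 = 0 := by simp
      rw [h2, mul_zero, zero_add]
      calc _ ≤ _ := h1
        _ = _ := by ring
    · rw [if_neg hqp, if_neg hqp, sub_zero, add_zero, norm_mul, norm_mul, norm_ex, norm_ex, one_mul,
        one_mul]
      have hΔ : lam p - lam q ≠ 0 := by
        have := sp_in hp hq (Ne.symm hqp)
        intro h0
        rw [h0, abs_zero] at this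
        have : (0 : ℝ) < 1 / (2 * 2 ^ J) := by positivity
        linarith
      have h1 := ibp_w (α := α) (β := β) hT0 hα hαβ hβ (mul_nonneg hK (bet_nonneg hT0 p))
        (mul_nonneg hK (bet_nonneg hT0 q)) ((h p hp).shift ht0 (B' := 4 * T) (by linarith))
        ((h q hq).shift ht0' (B' := 4 * T) (by linarith)) hΔ
      refine h1.trans (le_of_eq ?_)
      field_simp
  refine (norm_sum_le _ _).trans ((Finset.sum_le_sum fun p hp => (norm_sum_le _ _).trans
    (Finset.sum_le_sum fun q hq => hterm p hp q hq)).trans ?_)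
  simp_rw [Finset.sum_add_distrib]
  have s1 : ∑ p ∈ FR (2 ^ J), ∑ q ∈ FR (2 ^ J), 9632 * K ^ 2 / T * (bet T p * bet T q / (lam p - lam q) ^ 2) ≤
      10 ^ 15 * K ^ 2 * ((J + 1) * T) := by
    simp_rw [← Finset.mul_sum]
    refine (mul_le_mul_of_nonneg_left (offd hT0 J) (by positivity)).trans ?_
    have e : 9632 * K ^ 2 / T * (19327352832 * ((J : ℝ) + 1) * T ^ 2) =
        (9632 * 19327352832) * (K ^ 2 * ((J + 1) * T)) := by
      field_simp
    rw [e]
    have : 0 ≤ K ^ 2 * (((J : ℝ) + 1) * T) := by positivity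
    nlinarith
  have s2 : ∑ p ∈ FR (2 ^ J), ∑ q ∈ FR (2 ^ J), (if q = p then 1204 * U * K ^ 2 * bet T p ^ 2 else 0) ≤
      10 ^ 15 * K ^ 2 * (U * ((J + 1) ^ 2 * (1 + Real.log T) ^ 2)) := by
    have e : ∀ p ∈ FR (2 ^ J), ∑ q ∈ FR (2 ^ J), (if q = p then 1204 * U * K ^ 2 * bet T p ^ 2 else 0) =
        1204 * U * K ^ 2 * bet T p ^ 2 := by
      intro p hp
      rw [Finset.sum_ite_eq' _ p, if_pos hp]
    rw [Finset.sum_congr rfl e, ← Finset.mul_sum]
    refine (mul_le_mul_of_nonneg_left (bet_sq hT J) (by positivity)).trans ?_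
    have : 0 ≤ K ^ 2 * (U * (((J : ℝ) + 1) ^ 2 * (1 + Real.log T) ^ 2)) := by positivity
    nlinarith
  calc _ ≤ 10 ^ 15 * K ^ 2 * (((J : ℝ) + 1) * T) +
        10 ^ 15 * K ^ 2 * (U * ((J + 1) ^ 2 * (1 + Real.log T) ^ 2)) := add_le_add s1 s2
    _ = _ := by ring

end

end K1H48.SW
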