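import Pool.Agent.K1H48.SW.Fub

set_option autoImplicit false

/-! Integrals over the square, and elementary inequalities. -/

namespace K1H48.SW

open MeasureTheory Set Finset Filter
open Pool.Agent.Y969.GP

noncomputable section

/-- the integral over the square -/
def I2 (U : ℝ) (f : ℝ × ℝ → ℝ) : ℝ := ∫ z, f z ∂((volume.restrict (Ioc 0 U)).prod (volume.restrict (Ioc 0 U)))

lemma I2_eq {U : ℝ} (hU : 0 ≤ U) {f : ℝ → ℝ → ℝ} (hf : Continuous (Function.uncurry f)) :
    ∫ t in (0 : ℝ)..U, ∫ t' in (0 : ℝ)..U, f t t' = I2 U (Function.uncurry f) := by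
  unfold I2
  rw [integral_prod _ (int_sq hf), intervalIntegral.integral_of_le hU]
  congr 1
  funext t
  rw [intervalIntegral.integral_of_le hU]
  rfl

lemma I2_mono {U : ℝ} {f g : ℝ × ℝ → ℝ} (hf : Continuous f) (hg : Continuous g)
    (h : ∀ t ∈ Icc 0 U, ∀ t' ∈ Icc 0 U, f (t, t') ≤ g (t, t')) : I2 U f ≤ I2 U g := by
  unfold I2
  apply integral_mono_ae (int_sq hf) (int_sq hg)
  rw [Measure.prod_restrict]
  filter_upwards [ae_restrict_mem (measurableSet_Ioc.prod measurableSet_Ioc)] with z hz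
  exact h z.1 (Ioc_subset_Icc_self hz.1) z.2 (Ioc_subset_Icc_self hz.2)

lemma I2_add {U : ℝ} {f g : ℝ × ℝ → ℝ} (hf : Continuous f) (hg : Continuous g) :
    I2 U (fun z => f z + g z) = I2 U f + I2 U g := integral_add (int_sq hf) (int_sq hg)

lemma I2_sub {U : ℝ} {f g : ℝ × ℝ → ℝ} (hf : Continuous f) (hg : Continuous g) :
    I2 U (fun z => f z - g z) = I2 U f - I2 U g := integral_sub (int_sq hf) (int_sq hg)

lemma I2_mul (U c : ℝ) (f : ℝ × ℝ → ℝ) : I2 U (fun z => c * f z) = c * I2 U f := integral_const_mul _ _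

lemma I2_const {U : ℝ} (hU : 0 ≤ U) (c : ℝ) : I2 U (fun _ => c) = c * U ^ 2 := by
  have h := I2_eq hU (f := fun _ _ => c) (by unfold Function.uncurry; exact continuous_const)
  have e : Function.uncurry (fun _ _ : ℝ => c) = fun _ => c := by funext z; rfl
  rw [e] at h
  rw [← h]
  simp only [intervalIntegral.integral_const, smul_eq_mul]
  ring

lemma I2_abs (U : ℝ) (f : ℝ × ℝ → ℝ) : |I2 U f| ≤ I2 U (fun z => |f z|) := by
  have := norm_integral_le_integral_norm (μ := (volume.restrict (Ioc 0 U)).prod (volume.restrict (Ioc 0 U))) f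
  unfold I2
  simpa only [Real.norm_eq_abs] using this

lemma I2_swap (U : ℝ) (f : ℝ × ℝ → ℝ) : I2 U (fun z => f z.swap) = I2 U f := by
  unfold I2
  exact integral_prod_swap f

/-! ### kernels -/

lemma near_int {ρ U : ℝ} (hρ : 0 < ρ) (hU : 0 ≤ U) :
    I2 U (fun z => 2 / (1 + ((z.1 - z.2) / ρ) ^ 2)) ≤ 7 * ρ * U := by
  have hc : Continuous (Function.uncurry fun t t' : ℝ => 2 / (1 + ((t - t') / ρ) ^ 2)) := by
    unfold Function.uncurry
    apply Continuous.div continuous_const (by fun_prop)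
    intro z
    positivity
  have h := I2_eq hU hc
  have e : (fun z : ℝ × ℝ => 2 / (1 + ((z.1 - z.2) / ρ) ^ 2)) = Function.uncurry fun t t' : ℝ => 2 / (1 + ((t - t') / ρ) ^ 2) := by
    funext z; rfl
  rw [e, ← h]
  have hin : ∀ t : ℝ, ∫ t' in (0 : ℝ)..U, 2 / (1 + ((t - t') / ρ) ^ 2) ≤ 7 * ρ := by
    intro t
    have hd : ∀ t' ∈ Set.uIcc 0 U, HasDerivAt (fun t' => -(2 * ρ) * Real.arctan ((t - t') / ρ))
        (2 / (1 + ((t - t') / ρ) ^ 2)) t' := by
      intro t' _
      have d1 : HasDerivAt (fun t' : ℝ => (t - t') / ρ) (-1 / ρ) t' := by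
        simpa using ((hasDerivAt_id t').const_sub t).div_const ρ
      have d2 := (d1.arctan).const_mul (-(2 * ρ))
      refine d2.congr_deriv ?_
      field_simp
    have hci : Continuous fun t' : ℝ => 2 / (1 + ((t - t') / ρ) ^ 2) := by
      apply Continuous.div continuous_const (by fun_prop)
      intro z
      positivity
    rw [intervalIntegral.integral_eq_sub_of_hasDerivAt hd (hci.intervalIntegrable _ _)]
    have a1 := Real.arctan_lt_pi_div_two ((t - 0) / ρ)
    have a2 := Real.neg_pi_div_two_lt_arctan ((t - U) / ρ)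
    have hpi := Real.pi_lt_d2
    nlinarith
  have hco : Continuous fun t : ℝ => ∫ t' in (0 : ℝ)..U, 2 / (1 + ((t - t') / ρ) ^ 2) :=
    intervalIntegral.continuous_parametric_intervalIntegral_of_continuous' hc 0 U
  refine (intervalIntegral.integral_mono hU (hco.intervalIntegrable _ _) (continuous_const.intervalIntegrable _ _)
    (fun t => hin t)).trans (le_of_eq ?_)
  rw [intervalIntegral.integral_const, smul_eq_mul]
  ring

lemma kr_cont {ρ a : ℝ} (hρ : 0 < ρ) : Continuous (fun z : ℝ × ℝ => (ρ + |z.1 - z.2|) ^ (-a)) := by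
  apply Continuous.rpow_const (by fun_prop)
  intro z
  left
  positivity

lemma far_one {ρ a : ℝ} (hρ : 0 < ρ) (ha : 1 < a) {X : ℝ} (hX : 0 ≤ X) :
    ∫ s in (0 : ℝ)..X, (ρ + s) ^ (-a) ≤ ρ ^ (1 - a) / (a - 1) := by
  have hd : ∀ s ∈ Set.uIcc 0 X, HasDerivAt (fun s => -((ρ + s) ^ (1 - a)) / (a - 1)) ((ρ + s) ^ (-a)) s := by
    intro s hs
    rw [Set.uIcc_of_le hX] at hs
    have hp : 0 < ρ + s := by linarith [hs.1]
    have d1 : HasDerivAt (fun s : ℝ => ρ + s) 1 s := (hasDerivAt_id s).const_add ρ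
    have d2 := ((d1.rpow_const (p := 1 - a) (Or.inl hp.ne')).neg).div_const (a - 1)
    refine d2.congr_deriv ?_
    have : a - 1 ≠ 0 := by linarith
    rw [show (1 - a - 1 : ℝ) = -a by ring]
    field_simp
    ring
  have hci : IntervalIntegrable (fun s : ℝ => (ρ + s) ^ (-a)) volume 0 X := by
    apply ContinuousOn.intervalIntegrable
    rw [Set.uIcc_of_le hX]
    apply ContinuousOn.rpow_const (by fun_prop)
    intro s hs
    left
    linarith [hs.1]
  rw [intervalIntegral.integral_eq_sub_of_hasDerivAt hd hci, add_zero]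
  have h1 : 0 ≤ (ρ + X) ^ (1 - a) / (a - 1) := div_nonneg (by positivity) (by linarith)
  have e : -(ρ + X) ^ (1 - a) / (a - 1) - -ρ ^ (1 - a) / (a - 1) = ρ ^ (1 - a) / (a - 1) - (ρ + X) ^ (1 - a) / (a - 1) := by ring
  rw [e]
  linarith

lemma far_int {ρ a U : ℝ} (hρ : 0 < ρ) (ha : 1 < a) (hU : 0 ≤ U) :
    I2 U (fun z => (ρ + |z.1 - z.2|) ^ (-a)) ≤ U * (2 * (ρ ^ (1 - a) / (a - 1))) := by
  have hc : Continuous (Function.uncurry fun t t' : ℝ => (ρ + |t - t'|) ^ (-a)) := kr_cont hρ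
  have h := I2_eq hU hc
  have e : (fun z : ℝ × ℝ => (ρ + |z.1 - z.2|) ^ (-a)) = Function.uncurry fun t t' : ℝ => (ρ + |t - t'|) ^ (-a) := by
    funext z; rfl
  rw [e, ← h]
  have hin : ∀ t ∈ Icc 0 U, ∫ t' in (0 : ℝ)..U, (ρ + |t - t'|) ^ (-a) ≤ 2 * (ρ ^ (1 - a) / (a - 1)) := by
    intro t ht
    have hct : Continuous (fun t' : ℝ => (ρ + |t - t'|) ^ (-a)) := hc.comp (by fun_prop : Continuous fun t' : ℝ => (t, t'))
    rw [← intervalIntegral.integral_add_adjacent_intervals (b := t) (hct.intervalIntegrable _ _)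
      (hct.intervalIntegrable _ _)]
    have e1 : ∫ t' in (0 : ℝ)..t, (ρ + |t - t'|) ^ (-a) = ∫ s in (0 : ℝ)..t, (ρ + s) ^ (-a) := by
      have := intervalIntegral.integral_comp_sub_left (a := 0) (b := t) (fun s : ℝ => (ρ + |s|) ^ (-a)) t
      rw [this, sub_self, sub_zero]
      apply intervalIntegral.integral_congr
      intro s hs
      rw [Set.uIcc_of_le ht.1] at hs
      simp only
      rw [abs_of_nonneg hs.1]
    have e2 : ∫ t' in t..U, (ρ + |t - t'|) ^ (-a) = ∫ s in (0 : ℝ)..(U - t), (ρ + s) ^ (-a) := by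
      have := intervalIntegral.integral_comp_sub_right (a := t) (b := U) (fun s : ℝ => (ρ + |s|) ^ (-a)) t
      rw [sub_self] at this
      rw [← intervalIntegral.integral_congr (f := fun s : ℝ => (ρ + |s|) ^ (-a)) (g := fun s : ℝ => (ρ + s) ^ (-a)), ← this]
      · apply intervalIntegral.integral_congr
        intro s _
        simp only
        rw [abs_sub_comm]
      · intro s hs
        rw [Set.uIcc_of_le (by linarith [ht.2])] at hs
        simp only
        rw [abs_of_nonneg hs.1]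
    rw [e1, e2]
    have a1 := far_one hρ ha ht.1
    have a2 := far_one hρ ha (X := U - t) (by linarith [ht.2])
    linarith
  have hco : Continuous fun t : ℝ => ∫ t' in (0 : ℝ)..U, (ρ + |t - t'|) ^ (-a) :=
    intervalIntegral.continuous_parametric_intervalIntegral_of_continuous' hc 0 U
  refine (intervalIntegral.integral_mono_on hU (hco.intervalIntegrable _ _) (continuous_const.intervalIntegrable _ _)
    (fun t ht => hin t ht)).trans (le_of_eq ?_)
  rw [intervalIntegral.integral_const, smul_eq_mul, sub_zero]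

/-! ### powers -/

lemma pow_young {k : ℕ} (hk : 1 ≤ k) {δ : ℝ} (hδ : 0 < δ) (x y : ℝ) :
    |x ^ k - y ^ k| ≤ δ * (|x| ^ k + |y| ^ k) + k * (k / δ) ^ (k - 1) * |x - y| ^ k := by
  have h := abs_pow_sub_pow_le (a := x) (b := y) (n := k)
  obtain ⟨m, hm⟩ : ∃ m, m = max |x| |y| := ⟨_, rfl⟩
  rw [← hm] at h
  have hm0 : 0 ≤ m := by rw [hm]; exact le_trans (abs_nonneg _) (le_max_left _ _)
  have hk0 : (0 : ℝ) < k := by exact_mod_cast hk
  have hmk : m ^ k ≤ |x| ^ k + |y| ^ k := by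
    have a1 : 0 ≤ |x| ^ k := by positivity
    have a2 : 0 ≤ |y| ^ k := by positivity
    rcases max_choice |x| |y| with h1 | h1
    · rw [hm, h1]; linarith
    · rw [hm, h1]; linarith
  have hpk : ∀ z : ℝ, z * z ^ (k - 1) = z ^ k := by
    intro z
    rw [← pow_succ']
    congr 1
    omega
  by_cases hc : |x - y| ≤ δ / k * m
  · have h1 : |x - y| * k * m ^ (k - 1) ≤ δ * m ^ k := by
      calc _ ≤ (δ / k * m) * k * m ^ (k - 1) := by gcongr
        _ = δ * (m * m ^ (k - 1)) := by field_simp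
        _ = _ := by rw [hpk]
    have h2 : 0 ≤ (k : ℝ) * (k / δ) ^ (k - 1) * |x - y| ^ k := by positivity
    have h3 : δ * m ^ k ≤ δ * (|x| ^ k + |y| ^ k) := mul_le_mul_of_nonneg_left hmk hδ.le
    linarith
  · push Not at hc
    have h0 : m ≤ k / δ * |x - y| := by
      rw [div_mul_eq_mul_div, div_lt_iff₀ hk0] at hc
      rw [div_mul_eq_mul_div, le_div_iff₀ hδ]
      linarith
    have h1 : |x - y| * k * m ^ (k - 1) ≤ k * (k / δ) ^ (k - 1) * |x - y| ^ k := by
      calc _ ≤ |x - y| * k * (k / δ * |x - y|) ^ (k - 1) := by gcongr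
        _ = k * (k / δ) ^ (k - 1) * (|x - y| * |x - y| ^ (k - 1)) := by rw [mul_pow]; ring
        _ = _ := by rw [hpk]
    have h2 : 0 ≤ δ * (|x| ^ k + |y| ^ k) := by positivity
    linarith

lemma add_pow5 {k : ℕ} {a b c d e : ℝ} (ha : 0 ≤ a) (hb : 0 ≤ b) (hc : 0 ≤ c) (hd : 0 ≤ d) (he : 0 ≤ e) :
    (a + b + c + d + e) ^ k ≤ 16 ^ k * (a ^ k + b ^ k + c ^ k + d ^ k + e ^ k) := by
  have h1 := add_pow_le (add_nonneg (add_nonneg (add_nonneg ha hb) hc) hd) he k
  have h2 := add_pow_le (add_nonneg (add_nonneg ha hb) hc) hd k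
  have h3 := add_pow_le (add_nonneg ha hb) hc k
  have h4 := add_pow_le ha hb k
  have hp : (2 : ℝ) ^ (k - 1) ≤ 2 ^ k := pow_le_pow_right₀ (by norm_num) (by omega)
  have hp1 : (1 : ℝ) ≤ 2 ^ k := one_le_pow₀ (by norm_num)
  have e16 : (16 : ℝ) ^ k = 2 ^ k * (2 ^ k * (2 ^ k * 2 ^ k)) := by
    rw [← mul_pow, ← mul_pow, ← mul_pow]; norm_num
  have A := pow_nonneg ha k
  have B := pow_nonneg hb k
  have C := pow_nonneg hc k
  have D := pow_nonneg hd k
  have E := pow_nonneg he k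
  obtain ⟨w, hw⟩ : ∃ w : ℝ, w = 2 ^ k := ⟨_, rfl⟩
  rw [e16, ← hw]
  rw [← hw] at hp hp1
  have step : ∀ {X Y : ℝ}, 0 ≤ Y → X ≤ 2 ^ (k - 1) * Y → X ≤ w * Y := fun hY h =>
    h.trans (mul_le_mul_of_nonneg_right hp hY)
  have g4 := step (by positivity) h4
  have g3 := step (by positivity) h3
  have g2 := step (by positivity) h2
  have g1 := step (by positivity) h1
  have w0 : 0 ≤ w := by linarith
  have f3 : (a + b + c) ^ k ≤ w * (w * (a ^ k + b ^ k) + c ^ k) :=
    g3.trans (mul_le_mul_of_nonneg_left (by linarith) w0)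
  have f2 : (a + b + c + d) ^ k ≤ w * (w * (w * (a ^ k + b ^ k) + c ^ k) + d ^ k) :=
    g2.trans (mul_le_mul_of_nonneg_left (by linarith) w0)
  have f1 : (a + b + c + d + e) ^ k ≤ w * (w * (w * (w * (a ^ k + b ^ k) + c ^ k) + d ^ k) + e ^ k) :=
    g1.trans (mul_le_mul_of_nonneg_left (by linarith) w0)
  refine f1.trans ?_
  have w2 : w ≤ w * w := by nlinarith
  have w3 : w * w ≤ w * (w * w) := mul_le_mul_of_nonneg_left w2 w0
  have w4 : w * (w * w) ≤ w * (w * (w * w)) := mul_le_mul_of_nonneg_left w3 w0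
  have k1 : w * (w * w) * c ^ k ≤ w * (w * (w * w)) * c ^ k := mul_le_mul_of_nonneg_right w4 C
  have k2 : w * w * d ^ k ≤ w * (w * (w * w)) * d ^ k := mul_le_mul_of_nonneg_right (w3.trans w4) D
  have k3 : w * e ^ k ≤ w * (w * (w * w)) * e ^ k := mul_le_mul_of_nonneg_right (w2.trans (w3.trans w4)) E
  nlinarith

end

end K1H48.SW
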