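import Pool.Agent.K1H48.SW.Asm

set_option autoImplicit false

/-! The Poisson kernel, the model as a product over primes. -/

namespace K1H48.SW

open MeasureTheory Set Finset Filter
open Pool.Agent.Y969.GP

noncomputable section

/-- the Poisson kernel -/
def Pk (r φ : ℝ) : ℝ := (1 - r ^ 2) / ‖1 - (r : ℂ) * Complex.exp (Complex.I * φ)‖ ^ 2

/-- its partial sums -/
def PkN (N : ℕ) (r φ : ℝ) : ℂ := ∑ m ∈ Finset.Icc (-(N : ℤ)) N, ((r ^ m.natAbs : ℝ) : ℂ) * ex φ m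

lemma PkN_formula (N : ℕ) {r φ : ℝ} (hr0 : 0 ≤ r) (hr : r < 1) :
    PkN N r φ = 1 + ((r : ℂ) * ex φ 1 - ((r : ℂ) * ex φ 1) ^ (N + 1)) / (1 - (r : ℂ) * ex φ 1) +
      ((r : ℂ) * ex φ (-1) - ((r : ℂ) * ex φ (-1)) ^ (N + 1)) / (1 - (r : ℂ) * ex φ (-1)) := by
  have hn : ∀ s : ℝ, (1 - (r : ℂ) * ex φ s) ≠ 0 := by
    intro s h
    have h1 : (r : ℂ) * ex φ s = 1 := by linear_combination -h
    have h2 := congrArg (fun z : ℂ => ‖z‖) h1
    simp only [norm_mul, norm_ex, mul_one, norm_one, Complex.norm_real, Real.norm_eq_abs, abs_of_nonneg hr0] at h2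
    linarith
  induction N with
  | zero =>
    unfold PkN
    simp [ex_zero]
  | succ N ih =>
    have h1 : Finset.Icc (-((N + 1 : ℕ) : ℤ)) ((N + 1 : ℕ) : ℤ) =
        insert (-((N : ℤ) + 1)) (insert ((N : ℤ) + 1) (Finset.Icc (-(N : ℤ)) N)) := by
      ext x
      simp only [Finset.mem_Icc, Finset.mem_insert]
      push_cast
      omega
    have h2 : ∀ s : ℝ, ∀ n : ℕ, (ex φ s) ^ n = ex φ (s * n) := by
      intro s n
      unfold ex
      rw [← Complex.exp_nat_mul]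
      congr 1
      push_cast
      ring
    unfold PkN at ih ⊢
    rw [h1, Finset.sum_insert, Finset.sum_insert, ih]
    · have e1 : (((r ^ (-((N : ℤ) + 1)).natAbs : ℝ)) : ℂ) * ex φ ((-((N : ℤ) + 1) : ℤ) : ℝ) =
          ((r : ℂ) * ex φ (-1)) ^ (N + 1) := by
        rw [mul_pow, h2]
        have : (-((N : ℤ) + 1)).natAbs = N + 1 := by omega
        rw [this]
        push_cast
        congr 2
        ring
      have e2 : (((r ^ ((N : ℤ) + 1).natAbs : ℝ)) : ℂ) * ex φ ((((N : ℤ) + 1) : ℤ) : ℝ) =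
          ((r : ℂ) * ex φ 1) ^ (N + 1) := by
        rw [mul_pow, h2]
        have : ((N : ℤ) + 1).natAbs = N + 1 := by omega
        rw [this]
        push_cast
        congr 2
        ring
      rw [e1, e2]
      have a1 := hn 1
      have a2 := hn (-1)
      generalize (r : ℂ) * ex φ 1 = z at *
      generalize (r : ℂ) * ex φ (-1) = w at *
      field_simp
      ring
    · rw [Finset.mem_Icc]; omega
    · rw [Finset.mem_insert, Finset.mem_Icc]; omega

lemma PkN_close (N : ℕ) {r φ : ℝ} (hr0 : 0 ≤ r) (hr : r < 1) :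
    ‖PkN N r φ - (Pk r φ : ℂ)‖ ≤ 2 * r ^ (N + 1) / (1 - r) := by
  have hnz : ∀ s : ℝ, 1 - r ≤ ‖1 - (r : ℂ) * ex φ s‖ := by
    intro s
    have h := norm_sub_norm_le (1 : ℂ) ((r : ℂ) * ex φ s)
    rw [norm_mul, norm_ex, norm_one, Complex.norm_real, Real.norm_eq_abs, abs_of_nonneg hr0, mul_one] at h
    exact h
  have hn : ∀ s : ℝ, (1 - (r : ℂ) * ex φ s) ≠ 0 := fun s h => by
    have := hnz s
    rw [h, norm_zero] at this
    linarith
  have hconj : (starRingEnd ℂ) (1 - (r : ℂ) * ex φ 1) = 1 - (r : ℂ) * ex φ (-1) := by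
    rw [map_sub, map_mul, map_one, Complex.conj_ofReal, ex_conj]
  have hzw : ((r : ℂ) * ex φ 1) * ((r : ℂ) * ex φ (-1)) = (r : ℂ) ^ 2 := by
    have : ex φ 1 * ex φ (-1) = 1 := by rw [← ex_add', add_neg_cancel, ex_zero]
    linear_combination (r : ℂ) ^ 2 * this
  have hP : (Pk r φ : ℂ) = 1 + ((r : ℂ) * ex φ 1) / (1 - (r : ℂ) * ex φ 1) +
      ((r : ℂ) * ex φ (-1)) / (1 - (r : ℂ) * ex φ (-1)) := by
    have e0 : (r : ℂ) * Complex.exp (Complex.I * φ) = (r : ℂ) * ex φ 1 := by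
      unfold ex; push_cast; ring_nf
    unfold Pk
    rw [e0]
    have e1 : ((‖1 - (r : ℂ) * ex φ 1‖ ^ 2 : ℝ) : ℂ) = (1 - (r : ℂ) * ex φ 1) * (1 - (r : ℂ) * ex φ (-1)) := by
      rw [← Complex.normSq_eq_norm_sq, ← Complex.mul_conj, hconj]
    rw [Complex.ofReal_div, e1]
    have a1 := hn 1
    have a2 := hn (-1)
    push_cast
    rw [← hzw]
    generalize (r : ℂ) * ex φ 1 = z at *
    generalize (r : ℂ) * ex φ (-1) = w at *
    field_simp
    ring
  rw [PkN_formula N hr0 hr, hP]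
  have e : 1 + ((r : ℂ) * ex φ 1 - ((r : ℂ) * ex φ 1) ^ (N + 1)) / (1 - (r : ℂ) * ex φ 1) +
      ((r : ℂ) * ex φ (-1) - ((r : ℂ) * ex φ (-1)) ^ (N + 1)) / (1 - (r : ℂ) * ex φ (-1)) -
      (1 + ((r : ℂ) * ex φ 1) / (1 - (r : ℂ) * ex φ 1) + ((r : ℂ) * ex φ (-1)) / (1 - (r : ℂ) * ex φ (-1))) =
      -(((r : ℂ) * ex φ 1) ^ (N + 1) / (1 - (r : ℂ) * ex φ 1)) -
      (((r : ℂ) * ex φ (-1)) ^ (N + 1) / (1 - (r : ℂ) * ex φ (-1))) := by ring
  rw [e]
  have hb : ∀ s : ℝ, ‖((r : ℂ) * ex φ s) ^ (N + 1) / (1 - (r : ℂ) * ex φ s)‖ ≤ r ^ (N + 1) / (1 - r) := by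
    intro s
    rw [norm_div, norm_pow, norm_mul, norm_ex, mul_one, Complex.norm_real, Real.norm_eq_abs, abs_of_nonneg hr0]
    exact div_le_div_of_nonneg_left (by positivity) (by linarith) (hnz s)
  refine (norm_sub_le _ _).trans ?_
  rw [norm_neg]
  have := add_le_add (hb 1) (hb (-1))
  refine this.trans (le_of_eq ?_)
  ring

lemma Pk_bd {r φ : ℝ} (hr0 : 0 ≤ r) (hr : r < 1) : 0 ≤ Pk r φ ∧ Pk r φ ≤ 2 / (1 - r) := by
  have h := norm_sub_norm_le (1 : ℂ) ((r : ℂ) * Complex.exp (Complex.I * φ))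
  have e : ‖(r : ℂ) * Complex.exp (Complex.I * φ)‖ = r := by
    rw [norm_mul, mul_comm Complex.I, Complex.norm_exp_ofReal_mul_I, mul_one, Complex.norm_real,
      Real.norm_eq_abs, abs_of_nonneg hr0]
  rw [norm_one, e] at h
  unfold Pk
  have h1 : 0 < 1 - r := by linarith
  have h2 : (1 - r) ^ 2 ≤ ‖1 - (r : ℂ) * Complex.exp (Complex.I * φ)‖ ^ 2 := pow_le_pow_left₀ h1.le h 2
  have h3 : 0 ≤ 1 - r ^ 2 := by nlinarith
  constructor
  · positivity
  · rw [div_le_div_iff₀ (by nlinarith [pow_pos h1 2]) h1]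
    have h4 : (1 - r ^ 2) * (1 - r) ≤ 2 * (1 - r) ^ 2 := by nlinarith
    linarith

/-! ### The model -/

/-- the primes up to `y` -/
def Pr (y : ℕ) : Finset ℕ := (Finset.range (y + 1)).filter Nat.Prime

/-- the exponent vectors -/
def Ex (y N : ℕ) : Finset (↥(Pr y) → ℤ) := Fintype.piFinset fun _ => Finset.Icc (-(N : ℤ)) N

/-- the pair of an exponent vector -/
def pr {y : ℕ} (m : ↥(Pr y) → ℤ) : ℕ × ℕ :=
  (∏ p : ↥(Pr y), (p : ℕ) ^ (-(m p)).toNat, ∏ p : ↥(Pr y), (p : ℕ) ^ (m p).toNat)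

/-- the set of pairs -/
def Sy (y N : ℕ) : Finset (ℕ × ℕ) := (Ex y N).image pr

lemma Pr_prime {y : ℕ} (p : ↥(Pr y)) : (p : ℕ).Prime := (Finset.mem_filter.1 p.2).2

lemma pr_coprime {y : ℕ} (m : ↥(Pr y) → ℤ) : Nat.Coprime (pr m).1 (pr m).2 := by
  show Nat.Coprime (∏ p : ↥(Pr y), (p : ℕ) ^ (-(m p)).toNat) (∏ p : ↥(Pr y), (p : ℕ) ^ (m p).toNat)
  apply Nat.Coprime.prod_left
  intro p _
  apply Nat.Coprime.prod_right
  intro q _
  by_cases h : p = q
  · subst h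
    rcases le_total 0 (m p) with h' | h'
    · have : (-(m p)).toNat = 0 := by omega
      rw [this]; simp
    · have : (m p).toNat = 0 := by omega
      rw [this]; simp
  · apply Nat.Coprime.pow
    rw [Nat.coprime_primes (Pr_prime p) (Pr_prime q)]
    intro h'
    exact h (Subtype.ext h')

lemma prod_fact {y : ℕ} (e : ↥(Pr y) → ℕ) (q : ↥(Pr y)) :
    (∏ p : ↥(Pr y), (p : ℕ) ^ e p).factorization q = e q := by
  rw [Nat.factorization_prod (fun p _ => pow_ne_zero _ (Pr_prime p).ne_zero), Finsupp.finsetSum_apply]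
  rw [Finset.sum_eq_single q]
  · rw [Nat.factorization_pow, Finsupp.smul_apply, (Pr_prime q).factorization_self]
    simp
  · intro p _ hpq
    rw [Nat.factorization_pow, Finsupp.smul_apply, Nat.factorization_eq_zero_of_not_dvd, smul_zero]
    rw [Nat.prime_dvd_prime_iff_eq (Pr_prime q) (Pr_prime p)]
    intro h
    exact hpq (Subtype.ext h.symm)
  · intro h; exact absurd (Finset.mem_univ _) h

lemma pr_inj {y : ℕ} : Function.Injective (pr (y := y)) := by
  intro m m' h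
  have h1 : (pr m).1 = (pr m').1 := congrArg Prod.fst h
  have h2 : (pr m).2 = (pr m').2 := congrArg Prod.snd h
  funext q
  have a1 : (-(m q)).toNat = (-(m' q)).toNat := by
    have := congrArg (fun n : ℕ => n.factorization q) h1
    simp only [pr] at this
    rwa [prod_fact (fun p => (-(m p)).toNat), prod_fact (fun p => (-(m' p)).toNat)] at this
  have a2 : (m q).toNat = (m' q).toNat := by
    have := congrArg (fun n : ℕ => n.factorization q) h2
    simp only [pr] at this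
    rwa [prod_fact (fun p => (m p).toNat), prod_fact (fun p => (m' p).toNat)] at this
  omega

lemma pr_pos {y : ℕ} (m : ↥(Pr y) → ℤ) : 1 ≤ (pr m).1 ∧ 1 ≤ (pr m).2 := by
  constructor
  · show 1 ≤ ∏ p : ↥(Pr y), (p : ℕ) ^ (-(m p)).toNat
    exact Nat.one_le_iff_ne_zero.2 (Finset.prod_ne_zero_iff.2 fun p _ => pow_ne_zero _ (Pr_prime p).ne_zero)
  · show 1 ≤ ∏ p : ↥(Pr y), (p : ℕ) ^ (m p).toNat
    exact Nat.one_le_iff_ne_zero.2 (Finset.prod_ne_zero_iff.2 fun p _ => pow_ne_zero _ (Pr_prime p).ne_zero)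

lemma pr_ht {y : ℕ} (m : ↥(Pr y) → ℤ) : (√(ht (pr m)))⁻¹ = ∏ p : ↥(Pr y), ((√((p : ℕ) : ℝ))⁻¹) ^ (m p).natAbs := by
  have h1 : ht (pr m) = (∏ p : ↥(Pr y), (√((p : ℕ) : ℝ)) ^ (m p).natAbs) ^ 2 := by
    unfold ht pr
    push_cast
    rw [← Finset.prod_mul_distrib, ← Finset.prod_pow]
    refine Finset.prod_congr rfl fun p _ => ?_
    rw [← pow_add, ← pow_mul, mul_comm _ 2, pow_mul, Real.sq_sqrt (by positivity)]
    congr 1
    omega
  rw [h1, Real.sqrt_sq (Finset.prod_nonneg fun p _ => by positivity)]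
  rw [← Finset.prod_inv_distrib]
  refine Finset.prod_congr rfl fun p _ => ?_
  rw [inv_pow]

lemma pr_lam {y : ℕ} (m : ↥(Pr y) → ℤ) : lam (pr m) = ∑ p : ↥(Pr y), (m p : ℝ) * Real.log ((p : ℕ) : ℝ) := by
  unfold lam pr
  push_cast
  rw [Real.log_prod (fun p _ => pow_ne_zero _ (by exact_mod_cast (Pr_prime p).ne_zero)),
    Real.log_prod (fun p _ => pow_ne_zero _ (by exact_mod_cast (Pr_prime p).ne_zero)),
    ← Finset.sum_sub_distrib]
  refine Finset.sum_congr rfl fun p _ => ?_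
  rw [Real.log_pow, Real.log_pow, ← sub_mul]
  congr 1
  have : ((m p).toNat : ℤ) - ((-(m p)).toNat : ℤ) = m p := by omega
  exact_mod_cast this

lemma ex_sum {ι : Type*} (s : Finset ι) (u : ℝ) (f : ι → ℝ) : ex u (∑ i ∈ s, f i) = ∏ i ∈ s, ex u (f i) := by
  unfold ex
  rw [← Complex.exp_sum]
  congr 1
  push_cast
  rw [Finset.mul_sum, Finset.mul_sum]

/-- the model as a product over the primes -/
lemma model_prod (y N : ℕ) (u : ℝ) :
    ∑ p ∈ Sy y N, ((√(ht p))⁻¹ : ℂ) * ex u (lam p) =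
      ∏ p : ↥(Pr y), PkN N ((√((p : ℕ) : ℝ))⁻¹) (u * Real.log ((p : ℕ) : ℝ)) := by
  unfold Sy PkN
  rw [Finset.sum_image (fun a _ b _ h => pr_inj h), Finset.prod_univ_sum]
  refine Finset.sum_congr rfl fun m _ => ?_
  rw [pr_lam, ex_sum, ← Complex.ofReal_inv, pr_ht]
  push_cast
  rw [← Finset.prod_mul_distrib]
  refine Finset.prod_congr rfl fun p _ => ?_
  congr 1
  unfold ex
  congr 2
  push_cast
  ring

lemma Sy_sym (y N : ℕ) : Sym (Sy y N) := by
  intro p hp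
  unfold Sy at hp ⊢
  rw [Finset.mem_image] at hp ⊢
  obtain ⟨m, hm, rfl⟩ := hp
  refine ⟨fun p => -(m p), ?_, ?_⟩
  · unfold Ex at hm ⊢
    rw [Fintype.mem_piFinset] at hm ⊢
    intro p
    have := hm p
    rw [Finset.mem_Icc] at this ⊢
    omega
  · unfold pr
    simp

lemma Sy_sub (y N : ℕ) : ∃ J₁ : ℕ, Sy y N ⊆ FR (2 ^ J₁) := by
  refine ⟨(Sy y N).sup lev, fun p hp => ?_⟩
  have h1 : lev p ≤ (Sy y N).sup lev := Finset.le_sup hp
  obtain ⟨m, _, rfl⟩ := Finset.mem_image.1 hp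
  have := mem_FR_lev (pr_pos m).1 (pr_pos m).2 (pr_coprime m)
  exact FR_mono (Nat.pow_le_pow_right (by norm_num) h1) this

lemma Sy_sup {y N J₀ : ℕ} (hy : 2 ^ J₀ ≤ y) (hN : J₀ ≤ N) : FR (2 ^ J₀) ⊆ Sy y N := by
  intro p hp
  rw [FR_iff] at hp
  obtain ⟨h1, h2, h3, h4⟩ := hp
  have hb1 : p.1 ≤ 2 ^ J₀ := (Nat.le_mul_of_pos_right _ h2).trans h3
  have hb2 : p.2 ≤ 2 ^ J₀ := (Nat.le_mul_of_pos_left _ h1).trans h3
  have hval : ∀ n : ℕ, 1 ≤ n → n ≤ 2 ^ J₀ → ∀ q : ℕ, q.Prime → n.factorization q ≤ J₀ := by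
    intro n hn hn2 q hq
    have a1 : q ^ n.factorization q ≤ n := Nat.ordProj_le q (by omega)
    have a2 : 2 ^ n.factorization q ≤ q ^ n.factorization q := Nat.pow_le_pow_left hq.two_le _
    exact (Nat.pow_le_pow_iff_right (by norm_num : 1 < 2)).1 (a2.trans (a1.trans hn2))
  have hrec : ∀ n : ℕ, 1 ≤ n → n ≤ 2 ^ J₀ → ∏ q : ↥(Pr y), (q : ℕ) ^ n.factorization q = n := by
    intro n hn hn2
    have e1 : ∏ q : ↥(Pr y), (q : ℕ) ^ n.factorization q = ∏ q ∈ Pr y, q ^ n.factorization q :=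
      Finset.prod_coe_sort (Pr y) (fun q => q ^ n.factorization q)
    rw [e1]
    conv_rhs => rw [← Nat.prod_factorization_pow_eq_self (show n ≠ 0 by omega)]
    rw [Finsupp.prod]
    symm
    apply Finset.prod_subset
    · intro q hq
      have hq' := Nat.support_factorization n ▸ hq
      rw [Nat.mem_primeFactors] at hq'
      unfold Pr
      rw [Finset.mem_filter, Finset.mem_range]
      refine ⟨?_, hq'.1⟩
      have := Nat.le_of_dvd (by omega) hq'.2.1
      omega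
    · intro q _ hq
      rw [Finsupp.notMem_support_iff] at hq
      rw [hq, pow_zero]
  unfold Sy
  rw [Finset.mem_image]
  refine ⟨fun q => (p.2.factorization q : ℤ) - p.1.factorization q, ?_, ?_⟩
  · unfold Ex
    rw [Fintype.mem_piFinset]
    intro q
    rw [Finset.mem_Icc]
    have a1 := hval p.1 h1 hb1 q (Pr_prime q)
    have a2 := hval p.2 h2 hb2 q (Pr_prime q)
    omega
  · have hz : ∀ q : ↥(Pr y), p.1.factorization q = 0 ∨ p.2.factorization q = 0 := by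
      intro q
      by_contra hcon
      push Not at hcon
      have d1 : (q : ℕ) ∣ p.1 := Nat.dvd_of_factorization_pos hcon.1
      have d2 : (q : ℕ) ∣ p.2 := Nat.dvd_of_factorization_pos hcon.2
      exact Nat.not_coprime_of_dvd_of_dvd (Pr_prime q).one_lt d1 d2 h4
    unfold pr
    apply Prod.ext
    · simp only
      conv_rhs => rw [← hrec p.1 h1 hb1]
      refine Finset.prod_congr rfl fun q _ => ?_
      congr 1
      rcases hz q with h | h <;> omega
    · simp only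
      conv_rhs => rw [← hrec p.2 h2 hb2]
      refine Finset.prod_congr rfl fun q _ => ?_
      congr 1
      rcases hz q with h | h <;> omega

end

end K1H48.SW
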