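import Pool.Agent.K1H48.SW.Mob

set_option autoImplicit false

/-! Exponential sums over the reduced fractions. -/

namespace K1H48.SW

open MeasureTheory Set Finset Filter
open Pool.Agent.Y969.GP

noncomputable section

/-- the decay in `v` -/
def lv (v : ℝ) : ℝ := |v|⁻¹ + |v| ^ (-(3 / 4) : ℝ)

lemma lv_nonneg (v : ℝ) : 0 ≤ lv v := by unfold lv; positivity

lemma lv_neg (v : ℝ) : lv (-v) = lv v := by unfold lv; rw [abs_neg]

lemma lv_bound {v : ℝ} (hv : v ≠ 0) : (√(1 + v ^ 2))⁻¹ * (1 / |v| + 3 + Real.log (2 + 2 * |v|)) ≤ 10 * lv v := by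
  have hv0 : 0 < |v| := abs_pos.2 hv
  have hs1 : 1 ≤ √(1 + v ^ 2) := Real.one_le_sqrt.2 (by nlinarith [sq_nonneg v])
  have hs2 : |v| ≤ √(1 + v ^ 2) := Real.abs_le_sqrt (by linarith)
  have hl2 := Real.log_two_lt_d9
  have hlog0 : 0 ≤ Real.log (2 + 2 * |v|) := Real.log_nonneg (by linarith)
  have hX0 : 0 ≤ 1 / |v| + 3 + Real.log (2 + 2 * |v|) := by positivity
  rcases le_or_gt |v| 1 with h | h
  · have h1 : Real.log (2 + 2 * |v|) ≤ 1.4 := by
      have : Real.log (2 + 2 * |v|) ≤ Real.log 4 := Real.log_le_log (by positivity) (by linarith)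
      have h4 : Real.log 4 = 2 * Real.log 2 := by
        rw [show (4 : ℝ) = 2 ^ 2 by norm_num, Real.log_pow]; norm_num
      linarith
    have h2 : 1 ≤ 1 / |v| := by rw [le_div_iff₀ hv0]; linarith
    have h3 : (√(1 + v ^ 2))⁻¹ ≤ 1 := inv_le_one_of_one_le₀ hs1
    have h4 : |v|⁻¹ ≤ lv v := by unfold lv; have : 0 ≤ |v| ^ (-(3 / 4) : ℝ) := by positivity
                                 linarith
    rw [← one_div] at h4
    calc _ ≤ 1 * (1 / |v| + 3 + Real.log (2 + 2 * |v|)) := mul_le_mul_of_nonneg_right h3 hX0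
      _ ≤ 10 * lv v := by linarith
  · have h1 : Real.log (2 + 2 * |v|) ≤ 1.4 + 4 * |v| ^ (1 / 4 : ℝ) := by
      have a1 : Real.log (2 + 2 * |v|) ≤ Real.log (4 * |v|) := Real.log_le_log (by positivity) (by linarith)
      rw [Real.log_mul (by norm_num) hv0.ne'] at a1
      have h4 : Real.log 4 = 2 * Real.log 2 := by
        rw [show (4 : ℝ) = 2 ^ 2 by norm_num, Real.log_pow]; norm_num
      have a2 := Real.log_le_rpow_div hv0.le (show (0 : ℝ) < 1 / 4 by norm_num)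
      have a3 : |v| ^ (1 / 4 : ℝ) / (1 / 4) = 4 * |v| ^ (1 / 4 : ℝ) := by ring
      rw [a3] at a2
      linarith
    have hq1 : 1 ≤ |v| ^ (1 / 4 : ℝ) := Real.one_le_rpow h.le (by norm_num)
    have h2 : 1 / |v| ≤ 1 := by rw [div_le_one hv0]; exact h.le
    have h3 : (√(1 + v ^ 2))⁻¹ ≤ |v|⁻¹ := inv_anti₀ hv0 hs2
    have h4 : |v|⁻¹ * |v| ^ (1 / 4 : ℝ) = |v| ^ (-(3 / 4) : ℝ) := by
      rw [← Real.rpow_neg_one, ← Real.rpow_add hv0]; norm_num
    have h5 : |v| ^ (-(3 / 4) : ℝ) ≤ lv v := by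
      unfold lv; have : 0 ≤ |v|⁻¹ := by positivity
      linarith
    calc _ ≤ |v|⁻¹ * (1 / |v| + 3 + Real.log (2 + 2 * |v|)) := mul_le_mul_of_nonneg_right h3 hX0
      _ ≤ |v|⁻¹ * (10 * |v| ^ (1 / 4 : ℝ)) := by
          apply mul_le_mul_of_nonneg_left _ (by positivity)
          linarith
      _ = 10 * (|v|⁻¹ * |v| ^ (1 / 4 : ℝ)) := by ring
      _ ≤ 10 * lv v := by rw [h4]; linarith

/-- the sum over the lattice points under the hyperbola -/
def HZ (Z : ℕ) (v : ℝ) : ℂ := ∑ p ∈ PS Z, ex v (lam p)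

/-- one side of the hyperbola -/
def S1 (Z : ℕ) (v : ℝ) : ℂ :=
  ∑ a ∈ Finset.Icc 1 (Nat.sqrt Z), ex v (-Real.log (a : ℕ)) * ∑ b ∈ Finset.Icc 1 (Z / a), ex v (Real.log (b : ℕ))

lemma ex_neg2 (x y : ℝ) : ex (-x) (-y) = ex x y := by
  unfold ex; congr 2; push_cast; ring

lemma side_eq (Z : ℕ) (v : ℝ) : ∑ p ∈ (PS Z).filter (fun p => p.1 ≤ Nat.sqrt Z), ex v (lam p) = S1 Z v := by
  unfold S1
  simp_rw [Finset.mul_sum]
  rw [Finset.sum_sigma']
  apply Finset.sum_bij (fun p _ => (⟨p.1, p.2⟩ : (_ : ℕ) × ℕ))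
  · intro p hp
    rw [Finset.mem_filter, PS_iff] at hp
    rw [Finset.mem_sigma, Finset.mem_Icc, Finset.mem_Icc]
    refine ⟨⟨hp.1.1, hp.2⟩, hp.1.2.1, ?_⟩
    simp only
    rw [Nat.le_div_iff_mul_le hp.1.1, mul_comm]
    exact hp.1.2.2
  · intro p _ q _ h
    simp only [Sigma.mk.injEq, heq_eq_eq] at h
    exact Prod.ext h.1 h.2
  · rintro ⟨a, b⟩ h
    rw [Finset.mem_sigma, Finset.mem_Icc, Finset.mem_Icc] at h
    simp only at h
    refine ⟨(a, b), ?_, rfl⟩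
    rw [Finset.mem_filter, PS_iff]
    refine ⟨⟨h.1.1, h.2.1, ?_⟩, h.1.2⟩
    have := h.2.2
    rw [Nat.le_div_iff_mul_le h.1.1, mul_comm] at this
    exact this
  · intro p hp
    simp only
    rw [← ex_add']
    congr 1
    unfold lam
    ring

lemma HZ_split (Z : ℕ) (v : ℝ) : HZ Z v = S1 Z v + S1 Z (-v) -
    (∑ a ∈ Finset.Icc 1 (Nat.sqrt Z), ex v (-Real.log (a : ℕ))) * ∑ b ∈ Finset.Icc 1 (Nat.sqrt Z), ex v (Real.log (b : ℕ)) := by
  classical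
  have f2 : ∑ p ∈ (PS Z).filter (fun p => p.2 ≤ Nat.sqrt Z), ex v (lam p) = S1 Z (-v) := by
    rw [← side_eq Z (-v)]
    apply Finset.sum_bij (fun p _ => p.swap)
    · intro p hp
      rw [Finset.mem_filter, PS_iff] at hp ⊢
      exact ⟨⟨hp.1.2.1, hp.1.1, by rw [Prod.fst_swap, Prod.snd_swap, mul_comm]; exact hp.1.2.2⟩, hp.2⟩
    · intro p _ q _ h
      exact Prod.swap_injective h
    · intro q hq
      rw [Finset.mem_filter, PS_iff] at hq
      refine ⟨q.swap, ?_, Prod.swap_swap q⟩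
      rw [Finset.mem_filter, PS_iff]
      exact ⟨⟨hq.1.2.1, hq.1.1, by rw [Prod.fst_swap, Prod.snd_swap, mul_comm]; exact hq.1.2.2⟩, hq.2⟩
    · intro p _
      have : lam p.swap = - lam p := by unfold lam; simp
      rw [this, ex_neg2]
  have hRZ : Nat.sqrt Z * Nat.sqrt Z ≤ Z := Nat.sqrt_le Z
  have hRZ' : Z < (Nat.sqrt Z + 1) * (Nat.sqrt Z + 1) := Nat.lt_succ_sqrt Z
  have f3 : ∑ p ∈ (PS Z).filter (fun p => p.1 ≤ Nat.sqrt Z) ∩ (PS Z).filter (fun p => p.2 ≤ Nat.sqrt Z), ex v (lam p) =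
      (∑ a ∈ Finset.Icc 1 (Nat.sqrt Z), ex v (-Real.log (a : ℕ))) * ∑ b ∈ Finset.Icc 1 (Nat.sqrt Z), ex v (Real.log (b : ℕ)) := by
    rw [Finset.sum_mul_sum, ← Finset.sum_product']
    have e : (PS Z).filter (fun p => p.1 ≤ Nat.sqrt Z) ∩ (PS Z).filter (fun p => p.2 ≤ Nat.sqrt Z) =
        Finset.Icc 1 (Nat.sqrt Z) ×ˢ Finset.Icc 1 (Nat.sqrt Z) := by
      ext p
      rw [Finset.mem_inter, Finset.mem_filter, Finset.mem_filter, PS_iff, Finset.mem_product, Finset.mem_Icc,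
        Finset.mem_Icc]
      constructor
      · rintro ⟨⟨⟨a1, a2, a3⟩, a4⟩, _, a5⟩
        exact ⟨⟨a1, a4⟩, a2, a5⟩
      · rintro ⟨⟨a1, a4⟩, a2, a5⟩
        have a3 : p.1 * p.2 ≤ Z := (Nat.mul_le_mul a4 a5).trans hRZ
        exact ⟨⟨⟨a1, a2, a3⟩, a4⟩, ⟨a1, a2, a3⟩, a5⟩
    rw [e]
    refine Finset.sum_congr rfl fun p _ => ?_
    rw [← ex_add']
    congr 1
    unfold lam
    ring
  have f4 : (PS Z).filter (fun p => p.1 ≤ Nat.sqrt Z) ∪ (PS Z).filter (fun p => p.2 ≤ Nat.sqrt Z) = PS Z := by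
    rw [← Finset.filter_or]
    apply Finset.filter_true_of_mem
    intro p hp
    rw [PS_iff] at hp
    by_contra hcon
    push Not at hcon
    have := Nat.mul_le_mul (Nat.succ_le_of_lt hcon.1) (Nat.succ_le_of_lt hcon.2)
    have h2 := hp.2.2
    simp only [Nat.succ_eq_add_one] at this
    omega
  have h := Finset.sum_union_inter (s₁ := (PS Z).filter (fun p => p.1 ≤ Nat.sqrt Z))
    (s₂ := (PS Z).filter (fun p => p.2 ≤ Nat.sqrt Z)) (f := fun p => ex v (lam p))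
  rw [f4, f3, f2, side_eq] at h
  unfold HZ
  rw [← h]
  ring

lemma S1_le {Z : ℕ} (hZ : 1 ≤ Z) {v : ℝ} (hv : v ≠ 0) :
    ‖S1 Z v‖ ≤ 10 * Z * lv v + √Z * ((2 + |v|) * (1 + Real.log Z)) := by
  have hZ0 : (0 : ℝ) < Z := by exact_mod_cast hZ
  have hZ1 : (1 : ℝ) ≤ Z := by exact_mod_cast hZ
  have hlZ := Real.log_nonneg hZ1
  have hR : ((Nat.sqrt Z : ℕ) : ℝ) ≤ √Z := Real.nat_sqrt_le_real_sqrt
  -- main terms
  have hmain : ∑ a ∈ Finset.Icc 1 (Nat.sqrt Z), ex v (-Real.log (a : ℕ)) * Ph v ((Z : ℝ) / a) =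
      (Z : ℂ) * ex v (Real.log Z) / (1 + Complex.I * v) *
        ∑ a ∈ Finset.Icc 1 (Nat.sqrt Z), ((a : ℂ))⁻¹ * ex (-2 * v) (Real.log (a : ℕ)) := by
    rw [Finset.mul_sum]
    refine Finset.sum_congr rfl fun a ha => ?_
    rw [Finset.mem_Icc] at ha
    have ha0 : (0 : ℝ) < a := by exact_mod_cast ha.1
    unfold Ph
    rw [Real.log_div hZ0.ne' ha0.ne', sub_eq_add_neg, ex_add']
    have e : ex (-2 * v) (Real.log (a : ℕ)) = ex v (-Real.log (a : ℕ)) * ex v (-Real.log (a : ℕ)) := by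
      rw [← ex_add']
      unfold ex
      congr 2
      push_cast
      ring
    rw [e]
    have ha' : (a : ℂ) ≠ 0 := by exact_mod_cast ha0.ne'
    push_cast
    field_simp
  have herr : ‖S1 Z v - ∑ a ∈ Finset.Icc 1 (Nat.sqrt Z), ex v (-Real.log (a : ℕ)) * Ph v ((Z : ℝ) / a)‖ ≤
      √Z * ((2 + |v|) * (1 + Real.log Z)) := by
    unfold S1
    rw [← Finset.sum_sub_distrib]
    refine (norm_sum_le _ _).trans ?_
    have h1 : ∀ a ∈ Finset.Icc 1 (Nat.sqrt Z), ‖ex v (-Real.log (a : ℕ)) * ∑ b ∈ Finset.Icc 1 (Z / a), ex v (Real.log (b : ℕ)) -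
        ex v (-Real.log (a : ℕ)) * Ph v ((Z : ℝ) / a)‖ ≤ (2 + |v|) * (1 + Real.log Z) := by
      intro a ha
      rw [Finset.mem_Icc] at ha
      have ha0 : (0 : ℝ) < a := by exact_mod_cast ha.1
      have ha1 : (1 : ℝ) ≤ a := by exact_mod_cast ha.1
      have haZ : a ≤ Z := ha.2.trans (Nat.sqrt_le_self Z)
      have haZ' : (a : ℝ) ≤ Z := by exact_mod_cast haZ
      rw [← mul_sub, norm_mul, norm_ex, one_mul]
      have hx : 1 ≤ (Z : ℝ) / a := by rw [le_div_iff₀ ha0]; linarith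
      have h2 := B2 v hx
      rw [Nat.floor_div_natCast, Nat.floor_natCast] at h2
      refine h2.trans ?_
      apply mul_le_mul_of_nonneg_left _ (by positivity)
      have h3 : Real.log ((Z : ℝ) / a) ≤ Real.log Z :=
        Real.log_le_log (by positivity) (div_le_self hZ0.le ha1)
      linarith
    refine (Finset.sum_le_sum h1).trans ?_
    rw [Finset.sum_const, Nat.card_Icc, nsmul_eq_mul, Nat.add_sub_cancel]
    exact mul_le_mul_of_nonneg_right hR (by positivity)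
  have hmb : ‖∑ a ∈ Finset.Icc 1 (Nat.sqrt Z), ex v (-Real.log (a : ℕ)) * Ph v ((Z : ℝ) / a)‖ ≤ 10 * Z * lv v := by
    rw [hmain, norm_mul, norm_div, norm_mul, norm_ex, mul_one, norm_one_add, Complex.norm_natCast]
    have h2v : -2 * v ≠ 0 := by simpa using hv
    have h3 := Z1 h2v (Nat.sqrt Z)
    have e1 : |-2 * v| = 2 * |v| := by rw [abs_mul]; norm_num
    rw [e1] at h3
    have e2 : 2 / (2 * |v|) = 1 / |v| := by
      have hv0 : 0 < |v| := abs_pos.2 hv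
      rw [div_eq_div_iff (by positivity) (by positivity)]
      ring
    rw [e2] at h3
    have h4 := lv_bound hv
    calc (Z : ℝ) / √(1 + v ^ 2) * _ ≤ (Z : ℝ) / √(1 + v ^ 2) * (1 / |v| + 3 + Real.log (2 + 2 * |v|)) :=
          mul_le_mul_of_nonneg_left h3 (by positivity)
      _ = Z * ((√(1 + v ^ 2))⁻¹ * (1 / |v| + 3 + Real.log (2 + 2 * |v|))) := by rw [div_eq_mul_inv]; ring
      _ ≤ Z * (10 * lv v) := mul_le_mul_of_nonneg_left h4 hZ0.le
      _ = _ := by ring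
  calc ‖S1 Z v‖ = ‖(∑ a ∈ Finset.Icc 1 (Nat.sqrt Z), ex v (-Real.log (a : ℕ)) * Ph v ((Z : ℝ) / a)) +
        (S1 Z v - ∑ a ∈ Finset.Icc 1 (Nat.sqrt Z), ex v (-Real.log (a : ℕ)) * Ph v ((Z : ℝ) / a))‖ := by
        rw [add_sub_cancel]
    _ ≤ _ := (norm_add_le _ _).trans (add_le_add hmb herr)

lemma HZ_le {Z : ℕ} (hZ : 1 ≤ Z) {v : ℝ} (hv : v ≠ 0) :
    ‖HZ Z v‖ ≤ 22 * Z * lv v + 4 * √Z * ((2 + |v|) * (1 + Real.log Z)) ^ 2 := by
  have hZ0 : (0 : ℝ) < Z := by exact_mod_cast hZ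
  have hZ1 : (1 : ℝ) ≤ Z := by exact_mod_cast hZ
  have hlZ := Real.log_nonneg hZ1
  have hR : ((Nat.sqrt Z : ℕ) : ℝ) ≤ √Z := Real.nat_sqrt_le_real_sqrt
  have hR1 : 1 ≤ Nat.sqrt Z := Nat.sqrt_pos.2 hZ
  have hR0 : (0 : ℝ) < Nat.sqrt Z := by exact_mod_cast hR1
  have hsZ1 : 1 ≤ √(Z : ℝ) := Real.one_le_sqrt.2 hZ1
  have hv0 : 0 < |v| := abs_pos.2 hv
  obtain ⟨Q, hQ⟩ : ∃ Q, Q = (2 + |v|) * (1 + Real.log Z) := ⟨_, rfl⟩
  have hQ1 : 1 ≤ Q := by rw [hQ]; nlinarith [mul_nonneg hv0.le hlZ]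
  have h1 := S1_le hZ hv
  have h2 := S1_le hZ (neg_ne_zero.2 hv)
  rw [lv_neg, abs_neg] at h2
  rw [← hQ] at h1 h2
  -- the square
  have hB : ∀ w : ℝ, |w| = |v| → ‖∑ b ∈ Finset.Icc 1 (Nat.sqrt Z), ex w (Real.log (b : ℕ))‖ ≤ √Z / √(1 + v ^ 2) + Q := by
    intro w hw
    have h3 := B1 w hR1
    have h4 : ‖Ph w (Nat.sqrt Z)‖ ≤ √Z / √(1 + v ^ 2) := by
      unfold Ph
      rw [norm_div, norm_mul, norm_ex, mul_one, norm_one_add, Complex.norm_real, Real.norm_eq_abs,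
        abs_of_pos hR0]
      have : w ^ 2 = v ^ 2 := by rw [← sq_abs w, hw, sq_abs]
      rw [this]
      exact div_le_div_of_nonneg_right hR (by positivity)
    have h5 : 1 + |w| * (1 + Real.log (Nat.sqrt Z)) ≤ Q := by
      rw [hw, hQ]
      have h6 : Real.log (Nat.sqrt Z) ≤ Real.log Z :=
        Real.log_le_log hR0 (by exact_mod_cast Nat.sqrt_le_self Z)
      have h7 : |v| * (1 + Real.log (Nat.sqrt Z)) ≤ |v| * (1 + Real.log Z) :=
        mul_le_mul_of_nonneg_left (by linarith) hv0.le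
      nlinarith
    calc _ = ‖(∑ b ∈ Finset.Icc 1 (Nat.sqrt Z), ex w (Real.log (b : ℕ)) - Ph w (Nat.sqrt Z)) + Ph w (Nat.sqrt Z)‖ := by
          rw [sub_add_cancel]
      _ ≤ _ := (norm_add_le _ _).trans (by linarith)
  have h3 : ‖∑ a ∈ Finset.Icc 1 (Nat.sqrt Z), ex v (-Real.log (a : ℕ))‖ ≤ √Z / √(1 + v ^ 2) + Q := by
    have h4 := hB (-v) (abs_neg v)
    have e : ∑ a ∈ Finset.Icc 1 (Nat.sqrt Z), ex v (-Real.log (a : ℕ)) =
        ∑ b ∈ Finset.Icc 1 (Nat.sqrt Z), ex (-v) (Real.log (b : ℕ)) := by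
      refine Finset.sum_congr rfl fun a _ => ?_
      rw [← ex_neg2, neg_neg]
    rw [e]
    exact h4
  have h4 := hB v rfl
  have h5 : (√Z / √(1 + v ^ 2) + Q) * (√Z / √(1 + v ^ 2) + Q) ≤ 2 * Z * lv v + 2 * Q ^ 2 := by
    have h6 : (√Z / √(1 + v ^ 2)) ^ 2 ≤ Z * lv v := by
      rw [div_pow, Real.sq_sqrt hZ0.le, Real.sq_sqrt (by positivity), div_eq_mul_inv]
      apply mul_le_mul_of_nonneg_left _ hZ0.le
      have h7 : (1 + v ^ 2)⁻¹ ≤ |v|⁻¹ := by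
        apply inv_anti₀ hv0
        nlinarith [sq_nonneg (|v| - 1), sq_abs v]
      have h8 : 0 ≤ |v| ^ (-(3 / 4) : ℝ) := by positivity
      unfold lv
      linarith
    nlinarith [sq_nonneg (√Z / √(1 + v ^ 2) - Q)]
  have h6 : ‖(∑ a ∈ Finset.Icc 1 (Nat.sqrt Z), ex v (-Real.log (a : ℕ))) *
      ∑ b ∈ Finset.Icc 1 (Nat.sqrt Z), ex v (Real.log (b : ℕ))‖ ≤ 2 * Z * lv v + 2 * Q ^ 2 := by
    rw [norm_mul]
    refine le_trans ?_ h5
    exact mul_le_mul h3 h4 (norm_nonneg _) (by positivity)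
  rw [HZ_split, ← hQ]
  refine (norm_sub_le _ _).trans ?_
  have h7 := norm_add_le (S1 Z v) (S1 Z (-v))
  have h8 : √Z * Q ≤ √Z * Q ^ 2 := by
    apply mul_le_mul_of_nonneg_left _ (by positivity)
    nlinarith
  have h9 : Q ^ 2 ≤ √Z * Q ^ 2 := le_mul_of_one_le_left (by positivity) hsZ1
  linarith

/-- the sum over the reduced fractions -/
def EX (X : ℕ) (v : ℝ) : ℂ := ∑ p ∈ FR X, ex v (lam p)

lemma EX_le {X : ℕ} (hX : 1 ≤ X) {v : ℝ} (hv : v ≠ 0) :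
    ‖EX X v‖ ≤ 44 * X * lv v + 4 * √X * ((2 + |v|) ^ 2 * (1 + Real.log X) ^ 3) := by
  have hX0 : (0 : ℝ) < X := by exact_mod_cast hX
  have hX1 : (1 : ℝ) ≤ X := by exact_mod_cast hX
  have hlX := Real.log_nonneg hX1
  unfold EX
  rw [mob]
  refine (norm_sum_le _ _).trans ?_
  have h1 : ∀ d ∈ Finset.Icc 1 X, ‖((ArithmeticFunction.moebius d : ℤ) : ℂ) *
      ∑ p ∈ PS (X / (d * d)), ex v (lam (d * p.1, d * p.2))‖ ≤
      22 * X * lv v * ((d : ℝ) ^ 2)⁻¹ + 4 * √X * ((2 + |v|) * (1 + Real.log X)) ^ 2 * (1 / (d : ℝ)) := by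
    intro d hd
    rw [Finset.mem_Icc] at hd
    have hd0 : (0 : ℝ) < d := by exact_mod_cast hd.1
    have hmu : ‖((ArithmeticFunction.moebius d : ℤ) : ℂ)‖ ≤ 1 := by
      rw [Complex.norm_intCast]
      exact_mod_cast ArithmeticFunction.abs_moebius_le_one (n := d)
    rw [norm_mul]
    have h2 : ∑ p ∈ PS (X / (d * d)), ex v (lam (d * p.1, d * p.2)) = HZ (X / (d * d)) v := by
      unfold HZ
      refine Finset.sum_congr rfl fun p hp => ?_
      rw [PS_iff] at hp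
      congr 1
      have a1 : (p.1 : ℝ) ≠ 0 := by have := hp.1; positivity
      have a2 : (p.2 : ℝ) ≠ 0 := by have := hp.2.1; positivity
      unfold lam
      push_cast
      rw [Real.log_mul hd0.ne' a1, Real.log_mul hd0.ne' a2]
      ring
    rw [h2]
    have h3 : ‖HZ (X / (d * d)) v‖ ≤ 22 * X * lv v * ((d : ℝ) ^ 2)⁻¹ +
        4 * √X * ((2 + |v|) * (1 + Real.log X)) ^ 2 * (1 / (d : ℝ)) := by
      rcases Nat.eq_zero_or_pos (X / (d * d)) with h0 | h0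
      · have e : PS 0 = ∅ := by
          ext p
          rw [PS_iff]
          constructor
          · rintro ⟨a1, a2, a3⟩
            have := Nat.mul_pos a1 a2
            omega
          · intro h; exact absurd h (Finset.notMem_empty _)
        rw [h0]
        unfold HZ
        rw [e, Finset.sum_empty, norm_zero]
        have := lv_nonneg v
        positivity
      · have h4 := HZ_le h0 hv
        have h5 : ((X / (d * d) : ℕ) : ℝ) ≤ X * ((d : ℝ) ^ 2)⁻¹ := by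
          have := Nat.cast_div_le (α := ℝ) (m := X) (n := d * d)
          push_cast at this
          rw [← div_eq_mul_inv, sq]
          exact this
        have h6 : √((X / (d * d) : ℕ) : ℝ) ≤ √X * (1 / d) := by
          refine (Real.sqrt_le_sqrt h5).trans (le_of_eq ?_)
          rw [Real.sqrt_mul hX0.le, ← inv_pow, Real.sqrt_sq (by positivity), one_div]
        have h7 : Real.log ((X / (d * d) : ℕ) : ℝ) ≤ Real.log X := by
          apply Real.log_le_log (by exact_mod_cast h0)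
          exact_mod_cast Nat.div_le_self X (d * d)
        have h7' : 0 ≤ Real.log ((X / (d * d) : ℕ) : ℝ) := Real.log_nonneg (by exact_mod_cast h0)
        have h8 : ((2 + |v|) * (1 + Real.log ((X / (d * d) : ℕ) : ℝ))) ^ 2 ≤ ((2 + |v|) * (1 + Real.log X)) ^ 2 := by
          apply pow_le_pow_left₀ (by positivity)
          apply mul_le_mul_of_nonneg_left _ (by positivity)
          linarith
        have hlv := lv_nonneg v
        calc ‖HZ (X / (d * d)) v‖ ≤ 22 * ((X / (d * d) : ℕ) : ℝ) * lv v +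
              4 * √((X / (d * d) : ℕ) : ℝ) * ((2 + |v|) * (1 + Real.log ((X / (d * d) : ℕ) : ℝ))) ^ 2 := h4
          _ ≤ 22 * (X * ((d : ℝ) ^ 2)⁻¹) * lv v + 4 * (√X * (1 / d)) * ((2 + |v|) * (1 + Real.log X)) ^ 2 := by
              apply add_le_add
              · apply mul_le_mul_of_nonneg_right _ hlv
                linarith
              · apply mul_le_mul _ h8 (by positivity) (by positivity)
                linarith
          _ = _ := by ring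
    calc _ ≤ 1 * ‖HZ (X / (d * d)) v‖ := mul_le_mul_of_nonneg_right hmu (norm_nonneg _)
      _ ≤ _ := by rw [one_mul]; exact h3
  refine (Finset.sum_le_sum h1).trans ?_
  rw [Finset.sum_add_distrib, ← Finset.mul_sum, ← Finset.mul_sum]
  have h2 : ∑ d ∈ Finset.Icc 1 X, ((d : ℝ) ^ 2)⁻¹ ≤ 2 := by
    have h3 : Finset.Icc 1 X = insert 1 (Finset.Ioc 1 X) := by
      ext x; simp only [Finset.mem_Icc, Finset.mem_insert, Finset.mem_Ioc]; omega
    rw [h3, Finset.sum_insert (by simp)]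
    have h4 := sum_Ioc_inv_sq_le_sub (α := ℝ) (k := 1) (n := X) (by norm_num) hX
    have h5 : (0 : ℝ) ≤ (X : ℝ)⁻¹ := by positivity
    norm_num at h4 ⊢
    linarith
  have h3 := harm_le X
  have hlv := lv_nonneg v
  calc _ ≤ 22 * X * lv v * 2 + 4 * √X * ((2 + |v|) * (1 + Real.log X)) ^ 2 * (1 + Real.log X) :=
        add_le_add (mul_le_mul_of_nonneg_left h2 (by positivity)) (mul_le_mul_of_nonneg_left h3 (by positivity))
    _ = _ := by ring

/-- a form without logarithms -/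
lemma EX_le2 {X : ℕ} (hX : 1 ≤ X) {v : ℝ} (hv : v ≠ 0) :
    ‖EX X v‖ ≤ 44 * X * lv v + 8788 * (X : ℝ) ^ (3 / 4 : ℝ) * (2 + |v|) ^ 2 := by
  have hX0 : (0 : ℝ) < X := by exact_mod_cast hX
  have hX1 : (1 : ℝ) ≤ X := by exact_mod_cast hX
  have hlX := Real.log_nonneg hX1
  refine (EX_le hX hv).trans ?_
  have h1 : Real.log X ≤ 12 * (X : ℝ) ^ (1 / 12 : ℝ) := by
    have := Real.log_le_rpow_div hX0.le (show (0 : ℝ) < 1 / 12 by norm_num)
    refine this.trans (le_of_eq ?_)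
    ring
  have h2 : 1 ≤ (X : ℝ) ^ (1 / 12 : ℝ) := Real.one_le_rpow hX1 (by norm_num)
  have h3 : (1 + Real.log X) ^ 3 ≤ 2197 * (X : ℝ) ^ (1 / 4 : ℝ) := by
    calc (1 + Real.log X) ^ 3 ≤ (13 * (X : ℝ) ^ (1 / 12 : ℝ)) ^ 3 := pow_le_pow_left₀ (by positivity) (by linarith) 3
      _ = 2197 * ((X : ℝ) ^ (1 / 12 : ℝ)) ^ 3 := by ring
      _ = 2197 * (X : ℝ) ^ (1 / 4 : ℝ) := by
          rw [← Real.rpow_natCast, ← Real.rpow_mul hX0.le]; norm_num
  have h4 : √(X : ℝ) * (X : ℝ) ^ (1 / 4 : ℝ) = (X : ℝ) ^ (3 / 4 : ℝ) := by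
    rw [Real.sqrt_eq_rpow, ← Real.rpow_add hX0]; norm_num
  have h5 : 4 * √(X : ℝ) * ((2 + |v|) ^ 2 * (1 + Real.log X) ^ 3) ≤ 8788 * (X : ℝ) ^ (3 / 4 : ℝ) * (2 + |v|) ^ 2 := by
    calc 4 * √(X : ℝ) * ((2 + |v|) ^ 2 * (1 + Real.log X) ^ 3) ≤
          4 * √(X : ℝ) * ((2 + |v|) ^ 2 * (2197 * (X : ℝ) ^ (1 / 4 : ℝ))) := by gcongr
      _ = 8788 * (√(X : ℝ) * (X : ℝ) ^ (1 / 4 : ℝ)) * (2 + |v|) ^ 2 := by ring
      _ = _ := by rw [h4]
  linarith

end

end K1H48.SW
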