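import Pool.Agent.K1H48.SW.Corr

set_option autoImplicit false

/-! General smooth weights, and the correlation of two Dirichlet polynomials. -/

namespace K1H48.SW

open MeasureTheory Set Finset Filter
open Pool.Agent.Y969.GP

noncomputable section

/-- a smooth weight supported in `[1/2, 4]` -/
structure Wgt (KW : ℝ) (W W1 W2 : ℝ → ℝ) : Prop where
  d1 : ∀ s, HasDerivAt W (W1 s) s
  d2 : ∀ s, HasDerivAt W1 (W2 s) s
  c2 : Continuous W2
  nn : ∀ s, 0 ≤ W s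
  za : W (1 / 2) = 0
  zb : W 4 = 0
  za1 : W1 (1 / 2) = 0
  zb1 : W1 4 = 0
  one : 1 ≤ KW
  b : ∀ s ∈ Icc (1 / 2 : ℝ) 4, |W s| ≤ KW ∧ |W1 s| ≤ KW ∧ |W2 s| ≤ KW

lemma Wgt.c0 {KW : ℝ} {W W1 W2 : ℝ → ℝ} (h : Wgt KW W W1 W2) : Continuous W :=
  continuous_iff_continuousAt.2 fun s => (h.d1 s).continuousAt

lemma Wgt.amp {KW : ℝ} {W W1 W2 : ℝ → ℝ} (h : Wgt KW W W1 W2) {T : ℝ} (hT : 0 < T) :
    AmpOn (T / 2) (4 * T) T KW (fun c => W (c / T)) (fun c => W1 (c / T) / T) (fun c => W2 (c / T) / T ^ 2) := by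
  have hd : ∀ c : ℝ, HasDerivAt (fun c : ℝ => c / T) (1 / T) c := fun c => (hasDerivAt_id c).div_const T
  have key : ∀ u ∈ Icc (T / 2) (4 * T), u / T ∈ Icc (1 / 2 : ℝ) 4 := by
    intro u hu
    constructor
    · rw [le_div_iff₀ hT]; linarith [hu.1]
    · rw [div_le_iff₀ hT]; exact hu.2
  refine ⟨fun u _ => ?_, fun u _ => ?_, ?_, fun u hu => (h.b _ (key u hu)).1, fun u hu => ?_, fun u hu => ?_⟩
  · have := (h.d1 (u / T)).comp u (hd u)
    refine this.congr_deriv ?_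
    rw [mul_one_div]
  · have := ((h.d2 (u / T)).comp u (hd u)).div_const T
    refine this.congr_deriv ?_
    field_simp
  · have := h.c2
    fun_prop
  · rw [abs_div, abs_of_pos hT]
    exact div_le_div_of_nonneg_right (h.b _ (key u hu)).2.1 hT.le
  · rw [abs_div, abs_of_pos (by positivity : 0 < T ^ 2)]
    exact div_le_div_of_nonneg_right (h.b _ (key u hu)).2.2 (by positivity)

lemma ibp_W {KW T Δ K K' : ℝ} {W W1 W2 F F1 F2 G G1 G2 : ℝ → ℝ} (hW : Wgt KW W W1 W2) (hT : 0 < T)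
    (hK : 0 ≤ K) (hK' : 0 ≤ K') (hF : AmpOn (T / 2) (4 * T) T K F F1 F2)
    (hG : AmpOn (T / 2) (4 * T) T K' G G1 G2) (hΔ : Δ ≠ 0) :
    ‖∫ x in T / 2..4 * T, ((W (x / T) * (F x * G x) : ℝ) : ℂ) * ex x Δ‖ ≤
      56 * KW * (K * K') / (T * Δ ^ 2) := by
  have hw := hW.amp hT
  have hKW : 0 ≤ KW := by linarith [hW.one]
  have h1 := hw.mul hT hKW (by positivity) (hF.mul hT hK hK' hG)
  have e1 : T / 2 / T = 1 / 2 := by field_simp
  have e2 : 4 * T / T = 4 := by field_simp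
  have h2 := ibp2 (a := T / 2) (b := 4 * T) (Δ := Δ) (M := 4 * (KW * (4 * (K * K'))) / T ^ 2)
    (by linarith) _ _ _ h1.d1 h1.d2 h1.c2 (by rw [e1, hW.za]; ring) (by rw [e2, hW.zb]; ring)
    (by rw [e1, hW.za, hW.za1]; ring) (by rw [e2, hW.zb, hW.zb1]; ring) h1.b2 hΔ
  refine h2.trans (le_of_eq ?_)
  field_simp
  ring

lemma diag_err2 {KW T K K' U t t' : ℝ} {W W1 W2 F F1 F2 G G1 G2 : ℝ → ℝ} (hW : Wgt KW W W1 W2)
    (hT : 0 < T) (hK : 0 ≤ K) (hK' : 0 ≤ K')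
    (hU : U ≤ T) (ht0 : 0 ≤ t) (ht : t ≤ U) (ht0' : 0 ≤ t')
    (ht' : t' ≤ U) (h : AmpOn (T / 2) (8 * T) T K F F1 F2) (h' : AmpOn (T / 2) (8 * T) T K' G G1 G2) :
    |(∫ c in T / 2..4 * T, W (c / T) * (F (c + t) * G (c + t'))) -
      ∫ c in T / 2..4 * T, W (c / T) * (F c * G c)| ≤ 7 * KW * (U * (K * K')) := by
  have hU0 : 0 ≤ U := ht0.trans ht
  have hle : T / 2 ≤ 4 * T := by linarith
  have hKW : 0 ≤ KW := by linarith [hW.one]
  have hsh : ∀ (F F1 F2 : ℝ → ℝ) (K : ℝ), AmpOn (T / 2) (8 * T) T K F F1 F2 → ∀ s : ℝ, 0 ≤ s → s ≤ U →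
      ContinuousOn (fun c => F (c + s)) (Icc (T / 2) (4 * T)) := by
    intro F F1 F2 K h s hs0 hs
    refine h.c0.comp (by fun_prop) fun c hc' => ⟨?_, ?_⟩
    · linarith [hc'.1]
    · linarith [hc'.2]
  have hF0 : ContinuousOn F (Icc (T / 2) (4 * T)) := by
    have := hsh F F1 F2 K h 0 le_rfl hU0
    simpa using this
  have hG0 : ContinuousOn G (Icc (T / 2) (4 * T)) := by
    have := hsh G G1 G2 K' h' 0 le_rfl hU0
    simpa using this
  have hw : ContinuousOn (fun c => W (c / T)) (Icc (T / 2) (4 * T)) := by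
    have := hW.c0
    fun_prop
  have hwa := hW.amp hT
  rw [← intervalIntegral.integral_sub]
  · have h1 : ∀ c ∈ Set.uIoc (T / 2) (4 * T),
        ‖W (c / T) * (F (c + t) * G (c + t')) - W (c / T) * (F c * G c)‖ ≤ KW * (2 * (K * K' / T * U)) := by
      intro c hc'
      rw [Set.uIoc_of_le hle] at hc'
      have c1 : T / 2 ≤ c := hc'.1.le
      have c2 : c ≤ 4 * T := hc'.2
      have m0 : c ∈ Icc (T / 2) (8 * T) := ⟨c1, by linarith⟩
      have m1 : c + t ∈ Icc (T / 2) (8 * T) := ⟨by linarith, by linarith⟩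
      have m2 : c + t' ∈ Icc (T / 2) (8 * T) := ⟨by linarith, by linarith⟩
      have hKT : 0 ≤ K / T := by positivity
      have hKT' : 0 ≤ K' / T := by positivity
      have l1 : |F (c + t) - F c| ≤ K / T * U := by
        refine (h.lip m0 m1).trans ?_
        rw [show c + t - c = t by ring, abs_of_nonneg ht0]
        exact mul_le_mul_of_nonneg_left ht hKT
      have l2 : |G (c + t') - G c| ≤ K' / T * U := by
        refine (h'.lip m0 m2).trans ?_
        rw [show c + t' - c = t' by ring, abs_of_nonneg ht0']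
        exact mul_le_mul_of_nonneg_left ht' hKT'
      have b2 := h'.b0 _ m2
      have b0 := h.b0 _ m0
      have wb := hwa.b0 c ⟨c1, c2⟩
      rw [← mul_sub, norm_mul, Real.norm_eq_abs, Real.norm_eq_abs]
      apply mul_le_mul wb _ (abs_nonneg _) hKW
      have e : F (c + t) * G (c + t') - F c * G c =
          (F (c + t) - F c) * G (c + t') + F c * (G (c + t') - G c) := by ring
      rw [e]
      refine (abs_add_le _ _).trans ?_
      rw [abs_mul, abs_mul]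
      have hKTU : 0 ≤ K / T * U := by positivity
      have a1 := mul_le_mul l1 b2 (abs_nonneg _) hKTU
      have a2 := mul_le_mul b0 l2 (abs_nonneg _) hK
      have e3 : K / T * U * K' = K * K' / T * U := by ring
      have e4 : K * (K' / T * U) = K * K' / T * U := by ring
      linarith
    have h2 := intervalIntegral.norm_integral_le_of_norm_le_const h1
    rw [Real.norm_eq_abs, abs_of_nonneg (by linarith : 0 ≤ 4 * T - T / 2)] at h2
    refine h2.trans (le_of_eq ?_)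
    field_simp
    ring
  · apply ContinuousOn.intervalIntegrable
    rw [Set.uIcc_of_le hle]
    exact hw.mul ((hsh F F1 F2 K h t ht0 ht).mul (hsh G G1 G2 K' h' t' ht0' ht'))
  · apply ContinuousOn.intervalIntegrable
    rw [Set.uIcc_of_le hle]
    exact hw.mul (hF0.mul hG0)

/-- the mixed diagonal terms -/
def DW (W : ℝ → ℝ) (T : ℝ) (a b : ℝ → ℝ) : ℝ := (∫ c in T / 2..4 * T, W (c / T) * (a c * b c)) / T

/-- the correlation of two Dirichlet polynomials -/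
theorem corr2 {KW : ℝ} {W W1 W2 : ℝ → ℝ} (hW : Wgt KW W W1 W2) {J : ℕ} {T K K' U t t' : ℝ}
    {a a1 a2 b b1 b2 : ℕ × ℕ → ℝ → ℝ} (hT : 1 ≤ T) (hK : 0 ≤ K) (hK' : 0 ≤ K')
    (hU : U ≤ T) (ht0 : 0 ≤ t) (ht : t ≤ U) (ht0' : 0 ≤ t')
    (ht' : t' ≤ U) (h : Fam J T K a a1 a2) (h' : Fam J T K' b b1 b2) :
    ‖(∫ c in T / 2..4 * T, (W (c / T) : ℂ) * (gP J a (c + t) * (starRingEnd ℂ) (gP J b (c + t')))) -
      T * Cm J (fun p => DW W T (a p) (b p)) (t - t')‖ ≤
      10 ^ 15 * KW * (K * K') * ((J + 1) * T + U * ((J + 1) ^ 2 * (1 + Real.log T) ^ 2)) := by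
  classical
  have hT0 : 0 < T := by linarith
  have hU0 : 0 ≤ U := ht0.trans ht
  have hle : T / 2 ≤ 4 * T := by linarith
  have hKW : 0 ≤ KW := by linarith [hW.one]
  have hsh : ∀ (a a1 a2 : ℕ × ℕ → ℝ → ℝ) (K : ℝ), Fam J T K a a1 a2 → ∀ p ∈ FR (2 ^ J), ∀ s : ℝ, 0 ≤ s → s ≤ U →
      ContinuousOn (fun c => a p (c + s)) (Icc (T / 2) (4 * T)) := by
    intro a a1 a2 K h p hp s hs0 hs
    refine (h p hp).c0.comp (by fun_prop) fun c hc' => ⟨?_, ?_⟩
    · linarith [hc'.1]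
    · linarith [hc'.2]
  have hwc : Continuous (fun c => W (c / T)) := by
    have := hW.c0
    fun_prop
  -- expansion
  have e1 : ∀ c : ℝ, (W (c / T) : ℂ) * (gP J a (c + t) * (starRingEnd ℂ) (gP J b (c + t'))) =
      ∑ p ∈ FR (2 ^ J), ∑ q ∈ FR (2 ^ J), (ex t (lam p) * ex t' (-lam q)) *
        (((W (c / T) * (a p (c + t) * b q (c + t')) : ℝ) : ℂ) * ex c (lam p - lam q)) := by
    intro c
    unfold gP
    rw [map_sum, Finset.sum_mul_sum, Finset.mul_sum]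
    refine Finset.sum_congr rfl fun p _ => ?_
    rw [Finset.mul_sum]
    refine Finset.sum_congr rfl fun q _ => ?_
    rw [map_mul, ex_conj, Complex.conj_ofReal, ex_add, ex_add, sub_eq_add_neg, ex_add' c]
    push_cast
    ring
  have e2 : ∫ c in T / 2..4 * T, (W (c / T) : ℂ) * (gP J a (c + t) * (starRingEnd ℂ) (gP J b (c + t'))) =
      ∑ p ∈ FR (2 ^ J), ∑ q ∈ FR (2 ^ J), (ex t (lam p) * ex t' (-lam q)) *
        ∫ c in T / 2..4 * T, ((W (c / T) * (a p (c + t) * b q (c + t')) : ℝ) : ℂ) * ex c (lam p - lam q) := by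
    simp_rw [e1]
    have hint : ∀ p ∈ FR (2 ^ J), ∀ q ∈ FR (2 ^ J), ContinuousOn (fun c : ℝ =>
        (ex t (lam p) * ex t' (-lam q)) *
        (((W (c / T) * (a p (c + t) * b q (c + t')) : ℝ) : ℂ) * ex c (lam p - lam q)))
        (Set.uIcc (T / 2) (4 * T)) := by
      intro p hp q hq
      rw [Set.uIcc_of_le hle]
      have h1 : ContinuousOn (fun c : ℝ => W (c / T) * (a p (c + t) * b q (c + t'))) (Icc (T / 2) (4 * T)) :=
        hwc.continuousOn.mul ((hsh a a1 a2 K h p hp t ht0 ht).mul (hsh b b1 b2 K' h' q hq t' ht0' ht'))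
      exact continuousOn_const.mul ((Complex.continuous_ofReal.comp_continuousOn h1).mul
        (ex_cont _).continuousOn)
    rw [intervalIntegral.integral_finsetSum (fun p hp =>
      (continuousOn_finsetSum _ fun q hq => hint p hp q hq).intervalIntegrable)]
    refine Finset.sum_congr rfl fun p hp => ?_
    rw [intervalIntegral.integral_finsetSum (fun q hq => (hint p hp q hq).intervalIntegrable)]
    refine Finset.sum_congr rfl fun q _ => ?_
    rw [intervalIntegral.integral_const_mul]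
  have e3 : (T : ℂ) * Cm J (fun p => DW W T (a p) (b p)) (t - t') = ∑ p ∈ FR (2 ^ J), ∑ q ∈ FR (2 ^ J),
      (if q = p then ((T * DW W T (a p) (b p) : ℝ) : ℂ) * ex (t - t') (lam p) else 0) := by
    unfold Cm
    rw [Finset.mul_sum]
    refine Finset.sum_congr rfl fun p hp => ?_
    rw [Finset.sum_ite_eq' _ p, if_pos hp]
    push_cast
    ring
  rw [e2, e3, ← Finset.sum_sub_distrib]
  simp_rw [← Finset.sum_sub_distrib]
  have hterm : ∀ p ∈ FR (2 ^ J), ∀ q ∈ FR (2 ^ J),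
      ‖(ex t (lam p) * ex t' (-lam q)) *
        (∫ c in T / 2..4 * T, ((W (c / T) * (a p (c + t) * b q (c + t')) : ℝ) : ℂ) * ex c (lam p - lam q)) -
      (if q = p then ((T * DW W T (a p) (b p) : ℝ) : ℂ) * ex (t - t') (lam p) else 0)‖ ≤
      56 * KW * (K * K') / T * (bet T p * bet T q / (lam p - lam q) ^ 2) +
        (if q = p then 7 * KW * U * (K * K') * bet T p ^ 2 else 0) := by
    intro p hp q hq
    by_cases hqp : q = p
    · subst hqp
      rw [if_pos rfl, if_pos rfl, sub_self]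
      simp only [ex_zero, mul_one]
      rw [intervalIntegral.integral_ofReal]
      have e4 : ex t (lam q) * ex t' (-lam q) = ex (t - t') (lam q) := by
        rw [sub_eq_add_neg, ex_add, ex_neg]
      rw [e4, mul_comm (((T * DW W T (a q) (b q) : ℝ) : ℂ)), ← mul_sub, norm_mul, norm_ex, one_mul]
      have e5 : T * DW W T (a q) (b q) = ∫ c in T / 2..4 * T, W (c / T) * (a q c * b q c) := by
        unfold DW
        field_simp
      rw [e5, ← Complex.ofReal_sub, Complex.norm_real, Real.norm_eq_abs]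
      have h1 := diag_err2 hW hT0 (mul_nonneg hK (bet_nonneg hT0 q)) (mul_nonneg hK' (bet_nonneg hT0 q))
        hU ht0 ht ht0' ht' (h q hq) (h' q hq)
      have h2 : bet T q * bet T q / (0 : ℝ) ^ 2 = 0 := by simp
      rw [h2, mul_zero, zero_add]
      calc _ ≤ _ := h1
        _ = _ := by ring
    · rw [if_neg hqp, if_neg hqp, sub_zero, add_zero, norm_mul, norm_mul, norm_ex, norm_ex, one_mul,
        one_mul]
      have hΔ : lam p - lam q ≠ 0 := by
        have := sp_in hp hq (Ne.symm hqp)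
        intro h0
        rw [h0, abs_zero] at this
        have : (0 : ℝ) < 1 / (2 * 2 ^ J) := by positivity
        linarith
      have h1 := ibp_W hW hT0 (mul_nonneg hK (bet_nonneg hT0 p))
        (mul_nonneg hK' (bet_nonneg hT0 q)) ((h p hp).shift ht0 (B' := 4 * T) (by linarith))
        ((h' q hq).shift ht0' (B' := 4 * T) (by linarith)) hΔ
      refine h1.trans (le_of_eq ?_)
      field_simp
  refine (norm_sum_le _ _).trans ((Finset.sum_le_sum fun p hp => (norm_sum_le _ _).trans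
    (Finset.sum_le_sum fun q hq => hterm p hp q hq)).trans ?_)
  simp_rw [Finset.sum_add_distrib]
  have s1 : ∑ p ∈ FR (2 ^ J), ∑ q ∈ FR (2 ^ J), 56 * KW * (K * K') / T * (bet T p * bet T q / (lam p - lam q) ^ 2) ≤
      10 ^ 15 * KW * (K * K') * ((J + 1) * T) := by
    simp_rw [← Finset.mul_sum]
    refine (mul_le_mul_of_nonneg_left (offd hT0 J) (by positivity)).trans ?_
    have e : 56 * KW * (K * K') / T * (19327352832 * ((J : ℝ) + 1) * T ^ 2) =
        (56 * 19327352832) * (KW * (K * K') * ((J + 1) * T)) := by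
      field_simp
    rw [e]
    have : 0 ≤ KW * (K * K') * (((J : ℝ) + 1) * T) := by positivity
    nlinarith
  have s2 : ∑ p ∈ FR (2 ^ J), ∑ q ∈ FR (2 ^ J), (if q = p then 7 * KW * U * (K * K') * bet T p ^ 2 else 0) ≤
      10 ^ 15 * KW * (K * K') * (U * ((J + 1) ^ 2 * (1 + Real.log T) ^ 2)) := by
    have e : ∀ p ∈ FR (2 ^ J), ∑ q ∈ FR (2 ^ J), (if q = p then 7 * KW * U * (K * K') * bet T p ^ 2 else 0) =
        7 * KW * U * (K * K') * bet T p ^ 2 := by
      intro p hp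
      rw [Finset.sum_ite_eq' _ p, if_pos hp]
    rw [Finset.sum_congr rfl e, ← Finset.mul_sum]
    refine (mul_le_mul_of_nonneg_left (bet_sq hT J) (by positivity)).trans ?_
    have : 0 ≤ KW * (K * K') * (U * (((J : ℝ) + 1) ^ 2 * (1 + Real.log T) ^ 2)) := by positivity
    nlinarith
  calc _ ≤ 10 ^ 15 * KW * (K * K') * (((J : ℝ) + 1) * T) +
        10 ^ 15 * KW * (K * K') * (U * ((J + 1) ^ 2 * (1 + Real.log T) ^ 2)) := add_le_add s1 s2
    _ = _ := by ring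

/-! ### The diagonal terms -/

lemma DW_le {KW T K K' : ℝ} {W W1 W2 : ℝ → ℝ} (hW : Wgt KW W W1 W2) (hT : 0 < T) {F G : ℝ → ℝ}
    (hF : ∀ c ∈ Icc (T / 2) (8 * T), |F c| ≤ K) (hG : ∀ c ∈ Icc (T / 2) (8 * T), |G c| ≤ K') (hK : 0 ≤ K) :
    |DW W T F G| ≤ 4 * KW * (K * K') := by
  unfold DW
  rw [abs_div, abs_of_pos hT, div_le_iff₀ hT]
  have hle : T / 2 ≤ 4 * T := by linarith
  have hKW : 0 ≤ KW := by linarith [hW.one]
  have hw := hW.amp hT
  have hK' : 0 ≤ K' := (abs_nonneg _).trans (hG T ⟨by linarith, by linarith⟩)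
  have h1 := intervalIntegral.norm_integral_le_of_norm_le_const (a := T / 2) (b := 4 * T) (C := KW * (K * K'))
    (f := fun c => W (c / T) * (F c * G c)) (fun c hc => by
      rw [Set.uIoc_of_le hle] at hc
      rw [norm_mul, Real.norm_eq_abs, Real.norm_eq_abs, abs_mul]
      apply mul_le_mul (hw.b0 c ⟨hc.1.le, hc.2⟩) _ (by positivity) hKW
      exact mul_le_mul (hF c ⟨hc.1.le, by linarith [hc.2]⟩) (hG c ⟨hc.1.le, by linarith [hc.2]⟩) (abs_nonneg _) hK)
  rw [Real.norm_eq_abs, abs_of_nonneg (by linarith : 0 ≤ 4 * T - T / 2)] at h1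
  refine h1.trans ?_
  have : 0 ≤ KW * (K * K') * T := by positivity
  nlinarith

lemma DW_nonneg {KW T : ℝ} {W W1 W2 : ℝ → ℝ} (hW : Wgt KW W W1 W2) (hT : 0 < T) {F G : ℝ → ℝ}
    (hF : ∀ c ∈ Icc (T / 2) (4 * T), 0 ≤ F c) (hG : ∀ c ∈ Icc (T / 2) (4 * T), 0 ≤ G c) : 0 ≤ DW W T F G := by
  unfold DW
  apply div_nonneg _ hT.le
  apply intervalIntegral.integral_nonneg (by linarith)
  intro c hc
  exact mul_nonneg (hW.nn _) (mul_nonneg (hF c hc) (hG c hc))

lemma DW_fam {KW : ℝ} {W W1 W2 : ℝ → ℝ} (hW : Wgt KW W W1 W2) {J : ℕ} {T K K' : ℝ}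
    {a a1 a2 b b1 b2 : ℕ × ℕ → ℝ → ℝ} (hT : 0 < T) (hK : 0 ≤ K)
    (h : Fam J T K a a1 a2) (h' : Fam J T K' b b1 b2) {p : ℕ × ℕ} (hp : p ∈ FR (2 ^ J)) :
    |DW W T (a p) (b p)| ≤ 4 * KW * (K * K') * bet T p ^ 2 := by
  have := DW_le hW hT (h p hp).b0 (h' p hp).b0 (mul_nonneg hK (bet_nonneg hT p))
  refine this.trans (le_of_eq ?_)
  ring

lemma bet_sq_le {T : ℝ} (hT : 1 ≤ T) {p : ℕ × ℕ} (h1 : 1 ≤ p.1) (h2 : 1 ≤ p.2) :
    bet T p ^ 2 ≤ (1 + Real.log T) ^ 2 / ht p := by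
  have hT0 : 0 < T := by linarith
  have hh := ht_pos h1 h2
  have hh1 := ht_one_le h1 h2
  unfold bet
  rw [mul_pow, inv_pow, Real.sq_sqrt hh.le, inv_mul_eq_div]
  apply div_le_div_of_nonneg_right _ hh.le
  apply pow_le_pow_left₀ (W_nonneg (by positivity))
  refine (W_mono (by positivity) (div_le_self hT0.le hh1)).trans ?_
  rw [W_ge hT]

lemma DW_fam' {KW : ℝ} {W W1 W2 : ℝ → ℝ} (hW : Wgt KW W W1 W2) {J : ℕ} {T K K' : ℝ}
    {a a1 a2 b b1 b2 : ℕ × ℕ → ℝ → ℝ} (hT : 1 ≤ T) (hK : 0 ≤ K) (hK' : 0 ≤ K')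
    (h : Fam J T K a a1 a2) (h' : Fam J T K' b b1 b2) {p : ℕ × ℕ} (hp : p ∈ FR (2 ^ J)) :
    |DW W T (a p) (b p)| ≤ 4 * KW * (K * K') * (1 + Real.log T) ^ 2 / ht p := by
  refine (DW_fam hW (by linarith) hK h h' hp).trans ?_
  rw [FR_iff] at hp
  have hKW : 0 ≤ KW := by linarith [hW.one]
  rw [mul_div_assoc]
  exact mul_le_mul_of_nonneg_left (bet_sq_le hT hp.1 hp.2.1) (by positivity)

lemma CmW_le {KW : ℝ} {W W1 W2 : ℝ → ℝ} (hW : Wgt KW W W1 W2) {J : ℕ} {T K K' : ℝ}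
    {a a1 a2 b b1 b2 : ℕ × ℕ → ℝ → ℝ} (hT : 1 ≤ T) (hK : 0 ≤ K) (hK' : 0 ≤ K')
    (h : Fam J T K a a1 a2) (h' : Fam J T K' b b1 b2) (v : ℝ) :
    ‖Cm J (fun p => DW W T (a p) (b p)) v‖ ≤ 8 * KW * (K * K') * ((J + 1) ^ 2 * (1 + Real.log T) ^ 2) := by
  have hT0 : 0 < T := by linarith
  have hKW : 0 ≤ KW := by linarith [hW.one]
  unfold Cm
  refine (norm_sum_le _ _).trans ?_
  have h1 : ∀ p ∈ FR (2 ^ J), ‖((DW W T (a p) (b p) : ℝ) : ℂ) * ex v (lam p)‖ ≤ 4 * KW * (K * K') * bet T p ^ 2 := by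
    intro p hp
    rw [norm_mul, norm_ex, mul_one, Complex.norm_real, Real.norm_eq_abs]
    exact DW_fam hW hT0 hK h h' hp
  refine (Finset.sum_le_sum h1).trans ?_
  rw [← Finset.mul_sum]
  have := bet_sq hT J
  calc 4 * KW * (K * K') * ∑ p ∈ FR (2 ^ J), bet T p ^ 2 ≤
        4 * KW * (K * K') * (2 * ((J : ℝ) + 1) ^ 2 * (1 + Real.log T) ^ 2) :=
        mul_le_mul_of_nonneg_left this (by positivity)
    _ = _ := by ring

end

end K1H48.SW
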