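import Pool.Agent.K1H48.SW.Blk
import Pool.Agent.K1H48.SW.Wg
import Pool.Agent.K1H48.SW.Exs
import Pool.Agent.K1H48.SW.Dbl

set_option autoImplicit false

/-! The decomposition of the correlation into low, middle and high parts. -/

namespace K1H48.SW

open MeasureTheory Set Finset Filter
open Pool.Agent.Y969.GP

noncomputable section

/-- the middle part of a diagonal function -/
def Dmid (J₀ J₂ : ℕ) (D : ℕ × ℕ → ℝ) (p : ℕ × ℕ) : ℝ := if J₀ ≤ lev p ∧ lev p < J₂ then D p else 0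

/-- the low part of a correlation -/
def low (J J₀ : ℕ) (D : ℕ × ℕ → ℝ) (v : ℝ) : ℂ :=
  ∑ p ∈ (FR (2 ^ J)).filter (fun p => lev p < J₀), (D p : ℂ) * ex v (lam p)

/-- the high part of a correlation -/
def high (J J₂ : ℕ) (D : ℕ × ℕ → ℝ) (v : ℝ) : ℂ := ∑ j ∈ Finset.Ico J₂ (J + 1), Bj J D j v

lemma split3 {J J₀ J₂ : ℕ} (h02 : J₀ ≤ J₂) (h2 : J₂ ≤ J) (D : ℕ × ℕ → ℝ) (v : ℝ) :
    Cm J D v = low J J₀ D v + Cm J₂ (Dmid J₀ J₂ D) v + high J J₂ D v := by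
  classical
  rw [Cm_split J J₂ D v]
  unfold high
  congr 1
  unfold low
  have h1 : ((FR (2 ^ J)).filter (fun p => lev p < J₂)) = ((FR (2 ^ J)).filter (fun p => lev p < J₀)) ∪
      ((FR (2 ^ J₂)).filter (fun p => J₀ ≤ lev p ∧ lev p < J₂)) := by
    ext p
    simp only [Finset.mem_union, Finset.mem_filter]
    constructor
    · rintro ⟨a1, a2⟩
      by_cases h : lev p < J₀
      · left; exact ⟨a1, h⟩
      · right
        rw [FR_iff] at a1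
        refine ⟨FR_mono (Nat.pow_le_pow_right (by norm_num) a2.le) (mem_FR_lev a1.1 a1.2.1 a1.2.2.2), by omega, a2⟩
    · rintro (⟨a1, a2⟩ | ⟨a1, a2, a3⟩)
      · exact ⟨a1, by omega⟩
      · exact ⟨FR_mono (Nat.pow_le_pow_right (by norm_num) h2) a1, a3⟩
  rw [h1, Finset.sum_union (by
    rw [Finset.disjoint_left]
    intro p hp hp'
    rw [Finset.mem_filter] at hp hp'
    omega)]
  congr 1
  unfold Cm Dmid
  rw [Finset.sum_filter]
  refine Finset.sum_congr rfl fun p _ => ?_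
  split_ifs
  · rfl
  · simp

lemma high_zero {J J₂ : ℕ} {D : ℕ × ℕ → ℝ} (h : ∀ p, J₂ ≤ lev p → D p = 0) (v : ℝ) : high J J₂ D v = 0 := by
  unfold high
  apply Finset.sum_eq_zero
  intro j hj
  rw [Finset.mem_Ico] at hj
  unfold Bj
  apply Finset.sum_eq_zero
  intro p hp
  unfold blk at hp
  rw [Finset.mem_filter] at hp
  rw [h p (by omega)]
  simp

lemma low_sub (J J₀ : ℕ) (D D' : ℕ × ℕ → ℝ) (v : ℝ) :
    low J J₀ D v - low J J₀ D' v = low J J₀ (fun p => D p - D' p) v := by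
  unfold low
  rw [← Finset.sum_sub_distrib]
  refine Finset.sum_congr rfl fun p _ => ?_
  push_cast
  ring

lemma low_le {J J₀ : ℕ} {D : ℕ × ℕ → ℝ} {c : ℝ} (hc : 0 ≤ c)
    (h : ∀ p ∈ FR (2 ^ J), lev p < J₀ → |D p| ≤ c) (v : ℝ) :
    ‖low J J₀ D v‖ ≤ ((FR (2 ^ J₀)).card : ℝ) * c := by
  unfold low
  refine (norm_sum_le _ _).trans ?_
  have h1 : ∀ p ∈ (FR (2 ^ J)).filter (fun p => lev p < J₀), ‖(D p : ℂ) * ex v (lam p)‖ ≤ c := by
    intro p hp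
    rw [Finset.mem_filter] at hp
    rw [norm_mul, norm_ex, mul_one, Complex.norm_real, Real.norm_eq_abs]
    exact h p hp.1 hp.2
  refine (Finset.sum_le_sum h1).trans ?_
  rw [Finset.sum_const, nsmul_eq_mul]
  apply mul_le_mul_of_nonneg_right _ hc
  have h8 : (FR (2 ^ J)).filter (fun p => lev p < J₀) ⊆ FR (2 ^ J₀) := by
    intro p hp
    rw [Finset.mem_filter, FR_iff] at hp
    exact FR_mono (Nat.pow_le_pow_right (by norm_num) hp.2.le) (mem_FR_lev hp.1.1 hp.1.2.1 hp.1.2.2.2)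
  exact_mod_cast Finset.card_le_card h8

/-- the moments of the middle part -/
theorem mid_mom {k : ℕ} (hk : 2 ≤ k) : ∃ C : ℝ, 0 < C ∧ ∀ (J₀ J₂ : ℕ) (D : ℕ × ℕ → ℝ) (M U : ℝ),
    0 ≤ M → 0 < U → (∀ p ∈ FR (2 ^ J₂), J₀ ≤ lev p → 0 ≤ D p ∧ D p ≤ M / ht p) →
    I2 U (fun z => ‖Cm J₂ (Dmid J₀ J₂ D) (z.1 - z.2)‖ ^ k) ≤
      C * (U ^ 2 * (M ^ k * (tl k J₀ + ((J₂ : ℝ) + 1) ^ (2 * k - 1) / U))) := by
  obtain ⟨C, hC, h⟩ := blk_main hk
  refine ⟨C, hC, fun J₀ J₂ D M U hM hU hD => ?_⟩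
  have h1 := h J₂ J₀ (Dmid J₀ J₂ D) M 0 U hM hU (fun p hp => by
    have hp' := hp
    rw [FR_iff] at hp'
    have hh := ht_pos hp'.1 hp'.2.1
    unfold Dmid
    split_ifs with h2
    · exact hD p hp h2.1
    · exact ⟨le_rfl, by positivity⟩) (by
    apply le_of_eq
    apply Finset.sum_eq_zero
    intro p hp
    rw [Finset.mem_filter] at hp
    unfold Dmid
    rw [if_neg (by omega)])
  have h2 := I2_eq hU.le (uncC (k := k) (Cm_cont J₂ (Dmid J₀ J₂ D)))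
  have e : (fun z : ℝ × ℝ => ‖Cm J₂ (Dmid J₀ J₂ D) (z.1 - z.2)‖ ^ k) =
      Function.uncurry fun t t' : ℝ => ‖Cm J₂ (Dmid J₀ J₂ D) (t - t')‖ ^ k := by funext z; rfl
  rw [e, ← h2]
  refine h1.trans (le_of_eq ?_)
  rw [zero_pow (by omega), add_zero]

lemma DW_sub {T : ℝ} {KW : ℝ} {W W1 W2 : ℝ → ℝ} (hW : Wgt KW W W1 W2) (hT : 0 < T) {a b c : ℝ → ℝ}
    (ha : ContinuousOn a (Icc (T / 2) (4 * T))) (hb : ContinuousOn b (Icc (T / 2) (4 * T)))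
    (hc : ContinuousOn c (Icc (T / 2) (4 * T))) :
    DW W T a b - DW W T a c = DW W T a (fun u => b u - c u) := by
  have hle : T / 2 ≤ 4 * T := by linarith
  have hwc : Continuous (fun c => W (c / T)) := by
    have := hW.c0
    fun_prop
  have hi : ∀ {x y : ℝ → ℝ}, ContinuousOn x (Icc (T / 2) (4 * T)) → ContinuousOn y (Icc (T / 2) (4 * T)) →
      IntervalIntegrable (fun u => W (u / T) * (x u * y u)) volume (T / 2) (4 * T) := by
    intro x y hx hy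
    apply ContinuousOn.intervalIntegrable
    rw [Set.uIcc_of_le hle]
    exact hwc.continuousOn.mul (hx.mul hy)
  unfold DW
  rw [← sub_div, ← intervalIntegral.integral_sub (hi ha hb) (hi ha hc)]
  congr 1
  apply intervalIntegral.integral_congr
  intro u _
  simp only
  ring

lemma DW_comm (W : ℝ → ℝ) (T : ℝ) (a b : ℝ → ℝ) : DW W T a b = DW W T b a := by
  unfold DW
  congr 1
  apply intervalIntegral.integral_congr
  intro u _
  simp only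
  ring

lemma lvm {v ρ : ℝ} (hρ : 0 < ρ) (hv : ρ ≤ |v|) :
    lv v ≤ 2 * (ρ + |v|) ^ (-1 : ℝ) + 2 * (ρ + |v|) ^ (-(3 / 4) : ℝ) := by
  unfold lv
  have hv0 : 0 < |v| := by linarith
  have h1 : (ρ + |v|) / 2 ≤ |v| := by linarith
  have h2 : 0 < (ρ + |v|) / 2 := by positivity
  apply add_le_add
  · rw [Real.rpow_neg (by positivity), Real.rpow_one, ← div_eq_mul_inv]
    rw [inv_eq_one_div, div_le_div_iff₀ hv0 (by positivity)]
    linarith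
  · have h3 : |v| ^ (-(3 / 4) : ℝ) ≤ ((ρ + |v|) / 2) ^ (-(3 / 4) : ℝ) :=
      Real.rpow_le_rpow_of_nonpos h2 h1 (by norm_num)
    refine h3.trans ?_
    rw [Real.div_rpow (by positivity) (by norm_num), div_eq_mul_inv, mul_comm]
    apply mul_le_mul_of_nonneg_right _ (by positivity)
    rw [← Real.rpow_neg (by norm_num), neg_neg]
    calc (2 : ℝ) ^ (3 / 4 : ℝ) ≤ 2 ^ (1 : ℝ) := Real.rpow_le_rpow_of_exponent_le (by norm_num) (by norm_num)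
      _ = 2 := by norm_num

/-- the majorant of the far kernel -/
def fk (ρ v : ℝ) : ℝ := 2 * (ρ + |v|) ^ (-1 : ℝ) + 2 * (ρ + |v|) ^ (-(3 / 4) : ℝ)

lemma fk_nonneg {ρ : ℝ} (hρ : 0 < ρ) (v : ℝ) : 0 ≤ fk ρ v := by
  unfold fk
  positivity

lemma fk_cont {ρ : ℝ} (hρ : 0 < ρ) : Continuous (fun z : ℝ × ℝ => fk ρ (z.1 - z.2)) := by
  unfold fk
  exact ((kr_cont hρ).const_mul 2).add ((kr_cont hρ).const_mul 2)

lemma fk_int {k : ℕ} (hk : 2 ≤ k) {R ℓ U : ℝ} (hR : 1 ≤ R) (hℓ : 1 ≤ ℓ) (hU : 0 ≤ U) :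
    I2 U (fun z => fk (R / ℓ) (z.1 - z.2) ^ k) ≤ 16 ^ k * (U * (ℓ ^ (k - 1) * R ^ (-(1 / 2) : ℝ))) := by
  have hR0 : 0 < R := by linarith
  have hℓ0 : 0 < ℓ := by linarith
  have hρ : 0 < R / ℓ := by positivity
  have hk2 : (2 : ℝ) ≤ k := by exact_mod_cast hk
  have hpt : ∀ z : ℝ × ℝ, fk (R / ℓ) (z.1 - z.2) ^ k ≤ 4 ^ k * ((R / ℓ + |z.1 - z.2|) ^ (-(k : ℝ)) +
      (R / ℓ + |z.1 - z.2|) ^ (-(3 / 4 * k : ℝ))) := by
    intro z
    obtain ⟨s, hs⟩ : ∃ s, s = R / ℓ + |z.1 - z.2| := ⟨_, rfl⟩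
    have hs0 : 0 < s := by rw [hs]; positivity
    unfold fk
    rw [← hs]
    refine (add_pow_le (by positivity) (by positivity) k).trans ?_
    rw [mul_pow, mul_pow, ← Real.rpow_mul_natCast hs0.le, ← Real.rpow_mul_natCast hs0.le]
    have e1 : (-1 : ℝ) * k = -(k : ℝ) := by ring
    have e2 : (-(3 / 4) : ℝ) * k = -(3 / 4 * k : ℝ) := by ring
    rw [e1, e2, ← mul_add, ← mul_assoc]
    apply mul_le_mul_of_nonneg_right _ (by positivity)
    rw [show (4 : ℝ) = 2 * 2 by norm_num, mul_pow]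
    apply mul_le_mul_of_nonneg_right _ (by positivity)
    exact pow_le_pow_right₀ (by norm_num) (by omega)
  have c1 := kr_cont (a := (k : ℝ)) hρ
  have c2 := kr_cont (a := (3 / 4 * k : ℝ)) hρ
  refine (I2_mono (f := fun z => fk (R / ℓ) (z.1 - z.2) ^ k)
    (g := fun z => 4 ^ k * ((R / ℓ + |z.1 - z.2|) ^ (-(k : ℝ)) + (R / ℓ + |z.1 - z.2|) ^ (-(3 / 4 * k : ℝ))))
    ((fk_cont hρ).pow k) (continuous_const.mul (c1.add c2)) (fun t _ t' _ => hpt (t, t'))).trans ?_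
  rw [I2_mul, I2_add c1 c2]
  have i1 := far_int (U := U) hρ (by linarith : (1 : ℝ) < k) hU
  have i2 := far_int (U := U) hρ (by linarith : (1 : ℝ) < 3 / 4 * k) hU
  have b1 : (R / ℓ) ^ (1 - (k : ℝ)) / (k - 1) ≤ ℓ ^ (k - 1) * R ^ (-(1 / 2) : ℝ) := by
    have h1 : (R / ℓ) ^ (1 - (k : ℝ)) = R ^ (1 - (k : ℝ)) * ℓ ^ ((k : ℝ) - 1) := by
      rw [Real.div_rpow hR0.le hℓ0.le, div_eq_mul_inv, ← Real.rpow_neg hℓ0.le]
      congr 2
      ring
    have h2 : R ^ (1 - (k : ℝ)) ≤ R ^ (-(1 / 2) : ℝ) := Real.rpow_le_rpow_of_exponent_le hR (by linarith)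
    have h3 : ℓ ^ ((k : ℝ) - 1) = ℓ ^ (k - 1) := by
      rw [← Real.rpow_natCast, Nat.cast_sub (by omega)]
      norm_num
    have h4 : 0 < ℓ ^ (k - 1) := by positivity
    refine (div_le_self (by positivity) (by linarith)).trans ?_
    rw [h1, h3, mul_comm]
    exact mul_le_mul_of_nonneg_left h2 h4.le
  have b2 : (R / ℓ) ^ (1 - (3 / 4 * k : ℝ)) / (3 / 4 * k - 1) ≤ 2 * (ℓ ^ (k - 1) * R ^ (-(1 / 2) : ℝ)) := by
    have h1 : (R / ℓ) ^ (1 - (3 / 4 * k : ℝ)) = R ^ (1 - (3 / 4 * k : ℝ)) * ℓ ^ ((3 / 4 * k : ℝ) - 1) := by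
      rw [Real.div_rpow hR0.le hℓ0.le, div_eq_mul_inv, ← Real.rpow_neg hℓ0.le]
      congr 2
      ring
    have h2 : R ^ (1 - (3 / 4 * k : ℝ)) ≤ R ^ (-(1 / 2) : ℝ) := Real.rpow_le_rpow_of_exponent_le hR (by linarith)
    have h3 : ℓ ^ ((3 / 4 * k : ℝ) - 1) ≤ ℓ ^ (k - 1) := by
      rw [← Real.rpow_natCast ℓ (k - 1), Nat.cast_sub (by omega)]
      apply Real.rpow_le_rpow_of_exponent_le hℓ
      push_cast
      linarith
    have h4 : 0 < ℓ ^ (k - 1) := by positivity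
    have h5 : (R / ℓ) ^ (1 - (3 / 4 * k : ℝ)) ≤ ℓ ^ (k - 1) * R ^ (-(1 / 2) : ℝ) := by
      rw [h1, mul_comm]
      exact mul_le_mul h3 h2 (by positivity) h4.le
    rw [div_le_iff₀ (by linarith)]
    have h6 : 0 ≤ ℓ ^ (k - 1) * R ^ (-(1 / 2) : ℝ) := by positivity
    nlinarith
  have h16 : (16 : ℝ) ^ k = 4 ^ k * 4 ^ k := by rw [← mul_pow]; norm_num
  have h4k : (6 : ℝ) ≤ 4 ^ k := by
    have : (4 : ℝ) ^ 2 ≤ 4 ^ k := pow_le_pow_right₀ (by norm_num) hk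
    linarith
  obtain ⟨Q, hQ⟩ : ∃ Q, Q = ℓ ^ (k - 1) * R ^ (-(1 / 2) : ℝ) := ⟨_, rfl⟩
  have hQ0 : 0 ≤ Q := by rw [hQ]; positivity
  rw [← hQ] at b1 b2 ⊢
  rw [h16, mul_assoc]
  apply mul_le_mul_of_nonneg_left _ (by positivity)
  have j1 : U * (2 * ((R / ℓ) ^ (1 - (k : ℝ)) / (k - 1))) ≤ U * (2 * Q) := by gcongr
  have j2 : U * (2 * ((R / ℓ) ^ (1 - (3 / 4 * k : ℝ)) / (3 / 4 * k - 1))) ≤ U * (2 * (2 * Q)) := by gcongr
  have j3 : 0 ≤ U * Q := by positivity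
  have j4 : 6 * (U * Q) ≤ 4 ^ k * (U * Q) := mul_le_mul_of_nonneg_right h4k j3
  linarith

end

end K1H48.SW
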