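import Pool.Agent.K1H48.SW.Co
import Pool.Agent.K1H48.SW.Ibp

set_option autoImplicit false

/-! Möbius inversion over the pairs; exponential sums over reduced fractions. -/

namespace K1H48.SW

open MeasureTheory Set Finset Filter
open Pool.Agent.Y969.GP

noncomputable section

lemma PS_iff {X : ℕ} {p : ℕ × ℕ} : p ∈ PS X ↔ 1 ≤ p.1 ∧ 1 ≤ p.2 ∧ p.1 * p.2 ≤ X :=
  Pool.Agent.Y545.GP.mem_PS

lemma mu_sum (n : ℕ) {R : Type*} [CommRing R] :
    ∑ d ∈ n.divisors, ((ArithmeticFunction.moebius d : ℤ) : R) = if n = 1 then 1 else 0 := by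
  have h := congrArg (fun f : ArithmeticFunction ℤ => f n) ArithmeticFunction.moebius_mul_coe_zeta
  simp only [ArithmeticFunction.coe_mul_zeta_apply, ArithmeticFunction.one_apply] at h
  have h2 := congrArg (fun z : ℤ => (z : R)) h
  simp only [Int.cast_sum] at h2
  rw [h2]
  split_ifs <;> simp

lemma mob {R : Type*} [CommRing R] (X : ℕ) (F : ℕ × ℕ → R) :
    ∑ p ∈ FR X, F p = ∑ d ∈ Finset.Icc 1 X, ((ArithmeticFunction.moebius d : ℤ) : R) *
      ∑ p ∈ PS (X / (d * d)), F (d * p.1, d * p.2) := by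
  classical
  have h1 : ∀ d ∈ Finset.Icc 1 X, ∑ p ∈ PS (X / (d * d)), F (d * p.1, d * p.2) =
      ∑ q ∈ PS X, if d ∣ q.1 ∧ d ∣ q.2 then F q else 0 := by
    intro d hd
    rw [Finset.mem_Icc] at hd
    have hd0 : 0 < d * d := Nat.mul_pos hd.1 hd.1
    rw [← Finset.sum_filter]
    apply Finset.sum_bij (fun p _ => (d * p.1, d * p.2))
    · intro p hp
      rw [PS_iff, Nat.le_div_iff_mul_le hd0] at hp
      rw [Finset.mem_filter, PS_iff]
      refine ⟨⟨Nat.mul_pos hd.1 hp.1, Nat.mul_pos hd.1 hp.2.1, ?_⟩, dvd_mul_right _ _, dvd_mul_right _ _⟩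
      calc d * p.1 * (d * p.2) = p.1 * p.2 * (d * d) := by ring
        _ ≤ X := hp.2.2
    · intro p _ q _ h
      rw [Prod.mk.injEq] at h
      exact Prod.ext (Nat.eq_of_mul_eq_mul_left hd.1 h.1) (Nat.eq_of_mul_eq_mul_left hd.1 h.2)
    · intro q hq
      rw [Finset.mem_filter, PS_iff] at hq
      obtain ⟨⟨a1, a2, a3⟩, ⟨x, hx⟩, ⟨y, hy⟩⟩ := hq
      refine ⟨(x, y), ?_, ?_⟩
      · rw [PS_iff, Nat.le_div_iff_mul_le hd0]
        refine ⟨?_, ?_, ?_⟩
        · rcases Nat.eq_zero_or_pos x with h | h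
          · rw [h, mul_zero] at hx; omega
          · exact h
        · rcases Nat.eq_zero_or_pos y with h | h
          · rw [h, mul_zero] at hy; omega
          · exact h
        · calc x * y * (d * d) = d * x * (d * y) := by ring
            _ = q.1 * q.2 := by rw [← hx, ← hy]
            _ ≤ X := a3
      · exact Prod.ext hx.symm hy.symm
    · intro p _; rfl
  have h1' : ∑ d ∈ Finset.Icc 1 X, ((ArithmeticFunction.moebius d : ℤ) : R) *
      ∑ p ∈ PS (X / (d * d)), F (d * p.1, d * p.2) = ∑ d ∈ Finset.Icc 1 X, ∑ q ∈ PS X,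
      ((ArithmeticFunction.moebius d : ℤ) : R) * (if d ∣ q.1 ∧ d ∣ q.2 then F q else 0) := by
    refine Finset.sum_congr rfl fun d hd => ?_
    rw [h1 d hd, Finset.mul_sum]
  rw [h1', Finset.sum_comm]
  unfold FR
  rw [Finset.sum_filter]
  refine Finset.sum_congr rfl fun q hq => ?_
  rw [PS_iff] at hq
  have hg : 1 ≤ Nat.gcd q.1 q.2 := Nat.gcd_pos_of_pos_left _ hq.1
  have h2 : ∑ d ∈ Finset.Icc 1 X, ((ArithmeticFunction.moebius d : ℤ) : R) * (if d ∣ q.1 ∧ d ∣ q.2 then F q else 0) =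
      ∑ d ∈ (Nat.gcd q.1 q.2).divisors, ((ArithmeticFunction.moebius d : ℤ) : R) * F q := by
    simp_rw [mul_ite, mul_zero]
    rw [← Finset.sum_filter]
    apply Finset.sum_congr _ fun _ _ => rfl
    ext d
    rw [Finset.mem_filter, Finset.mem_Icc, Nat.mem_divisors, Nat.dvd_gcd_iff]
    constructor
    · rintro ⟨_, h⟩; exact ⟨h, by omega⟩
    · rintro ⟨h, _⟩
      have hd1 : d ≤ q.1 := Nat.le_of_dvd hq.1 h.1
      have hd0 : 0 < d := Nat.pos_of_dvd_of_pos h.1 hq.1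
      refine ⟨⟨hd0, hd1.trans ?_⟩, h⟩
      exact (Nat.le_mul_of_pos_right _ hq.2.1).trans hq.2.2
  rw [h2, ← Finset.sum_mul, mu_sum]
  by_cases h : Nat.Coprime q.1 q.2
  · rw [if_pos h, if_pos h, one_mul]
  · rw [if_neg h, if_neg h, zero_mul]

/-! ### Exponential sums -/

/-- primitive of `x ^ (iv)` -/
def Ph (v x : ℝ) : ℂ := (x : ℂ) * ex v (Real.log x) / (1 + Complex.I * v)

lemma one_add_ne (v : ℝ) : (1 + Complex.I * (v : ℂ)) ≠ 0 := by
  intro h
  have := congrArg Complex.re h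
  simp at this

lemma norm_one_add (v : ℝ) : ‖(1 + Complex.I * (v : ℂ))‖ = √(1 + v ^ 2) := by
  rw [Complex.norm_eq_sqrt_sq_add_sq]
  simp

lemma exlog_deriv (v : ℝ) {x : ℝ} (hx : 0 < x) :
    HasDerivAt (fun x => ex v (Real.log x)) (ex v (Real.log x) * (Complex.I * v / x)) x := by
  have h1 : HasDerivAt (fun x : ℝ => Complex.I * ((v * Real.log x : ℝ) : ℂ)) (Complex.I * v / x) x := by
    have h2 : HasDerivAt (fun x : ℝ => ((v * Real.log x : ℝ) : ℂ)) ((v * x⁻¹ : ℝ) : ℂ) x :=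
      ((Real.hasDerivAt_log hx.ne').const_mul v).ofReal_comp
    refine (h2.const_mul Complex.I).congr_deriv ?_
    push_cast
    rw [div_eq_mul_inv]
    ring
  have := h1.cexp
  unfold ex
  exact this

lemma Ph_deriv (v : ℝ) {x : ℝ} (hx : 0 < x) : HasDerivAt (Ph v) (ex v (Real.log x)) x := by
  unfold Ph
  have h1 : HasDerivAt (fun x : ℝ => (x : ℂ)) 1 x := by
    simpa using (hasDerivAt_id x).ofReal_comp
  have h2 := (h1.mul (exlog_deriv v hx)).div_const (1 + Complex.I * (v : ℂ))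
  refine h2.congr_deriv ?_
  have h3 := one_add_ne v
  have h4 : (x : ℂ) ≠ 0 := by exact_mod_cast hx.ne'
  field_simp

lemma ex_lip (v a b : ℝ) : ‖ex v a - ex v b‖ ≤ |v| * |a - b| := by
  have h1 : ∀ x ∈ Set.univ, HasDerivWithinAt (fun x : ℝ => ex v x) (ex v x * (Complex.I * v)) Set.univ x := by
    intro x _
    have h2 := ex_deriv x v
    have e : (fun x : ℝ => ex v x) = fun x => ex x v := by
      funext x; unfold ex; congr 2; push_cast; ring
    rw [e]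
    have e2 : ex v x = ex x v := by unfold ex; congr 2; push_cast; ring
    rw [e2]
    exact h2.hasDerivWithinAt
  have h2 := Convex.norm_image_sub_le_of_norm_hasDerivWithin_le (C := |v|) h1 (fun x _ => by
    rw [norm_mul, norm_ex, one_mul, norm_mul, Complex.norm_I, one_mul, Complex.norm_real, Real.norm_eq_abs])
    convex_univ (Set.mem_univ b) (Set.mem_univ a)
  simpa [Real.norm_eq_abs] using h2

lemma Ph_step (v : ℝ) {n : ℕ} (hn : 1 ≤ n) :
    ‖ex v (Real.log (n + 1 : ℕ)) - (Ph v (n + 1 : ℕ) - Ph v n)‖ ≤ |v| / n := by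
  have hn0 : (0 : ℝ) < n := by exact_mod_cast hn
  have h1 := Convex.norm_image_sub_le_of_norm_hasDerivWithin_le (𝕜 := ℝ) (s := Icc (n : ℝ) ((n + 1 : ℕ) : ℝ))
    (f := fun x : ℝ => Ph v x - (x : ℂ) * ex v (Real.log (n + 1 : ℕ)))
    (f' := fun x : ℝ => ex v (Real.log x) - ex v (Real.log (n + 1 : ℕ))) (C := |v| / n)
    (fun x hx => by
      have hx0 : 0 < x := lt_of_lt_of_le hn0 hx.1
      have h2 : HasDerivAt (fun x : ℝ => (x : ℂ)) 1 x := by
        simpa using (hasDerivAt_id x).ofReal_comp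
      have h3 := (Ph_deriv v hx0).sub (h2.mul_const (ex v (Real.log (n + 1 : ℕ))))
      rw [one_mul] at h3
      exact h3.hasDerivWithinAt)
    (fun x hx => by
      have hx0 : 0 < x := lt_of_lt_of_le hn0 hx.1
      refine (ex_lip v _ _).trans ?_
      rw [div_eq_mul_one_div]
      apply mul_le_mul_of_nonneg_left _ (abs_nonneg v)
      rw [abs_sub_comm, abs_of_nonneg (by
        have := Real.log_le_log hx0 hx.2
        linarith), ← Real.log_div (by positivity) hx0.ne']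
      have h4 : ((n + 1 : ℕ) : ℝ) / x ≤ 1 + 1 / n := by
        rw [div_le_iff₀ hx0]
        push_cast
        have h5 : 1 ≤ x * (1 / n) := by rw [mul_one_div, le_div_iff₀ hn0]; linarith [hx.1]
        nlinarith [hx.1]
      have h5 := Real.log_le_sub_one_of_pos (show 0 < ((n + 1 : ℕ) : ℝ) / x by positivity)
      linarith)
    (convex_Icc _ _) (x := (n : ℝ)) (y := ((n + 1 : ℕ) : ℝ)) ⟨le_rfl, by push_cast; linarith⟩ ⟨by push_cast; linarith, le_rfl⟩
  have e1 : ‖((n + 1 : ℕ) : ℝ) - (n : ℝ)‖ = 1 := by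
    push_cast
    rw [add_sub_cancel_left]
    simp
  rw [e1, mul_one] at h1
  rw [norm_sub_rev]
  refine le_trans (le_of_eq ?_) h1
  congr 1
  push_cast
  ring

lemma B1 (v : ℝ) {N : ℕ} (hN : 1 ≤ N) :
    ‖∑ b ∈ Finset.Icc 1 N, ex v (Real.log (b : ℕ)) - Ph v N‖ ≤ 1 + |v| * (1 + Real.log N) := by
  have h1 : ∀ N : ℕ, ‖∑ b ∈ Finset.Icc 1 (N + 1), ex v (Real.log (b : ℕ)) - Ph v (N + 1 : ℕ)‖ ≤
      1 + |v| * ∑ b ∈ Finset.Icc 1 N, 1 / (b : ℝ) := by
    intro N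
    induction N with
    | zero =>
      simp only [zero_add, Finset.Icc_self, Finset.sum_singleton, Nat.cast_one, Real.log_one]
      have e : ex v 0 - Ph v 1 = Complex.I * v / (1 + Complex.I * v) := by
        unfold Ph
        rw [Real.log_one, ex_zero]
        have := one_add_ne v
        push_cast
        field_simp
        ring
      rw [e, norm_div, norm_mul, Complex.norm_I, one_mul, Complex.norm_real, Real.norm_eq_abs, norm_one_add]
      have h2 : |v| / √(1 + v ^ 2) ≤ 1 := by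
        rw [div_le_one (by positivity)]
        apply Real.abs_le_sqrt
        linarith
      refine h2.trans ?_
      simp
    | succ N ih =>
      rw [Finset.sum_Icc_succ_top (by omega)]
      have h2 := Ph_step v (n := N + 1) (by omega)
      have e : ∑ b ∈ Finset.Icc 1 (N + 1), ex v (Real.log (b : ℕ)) + ex v (Real.log ((N + 1 + 1 : ℕ) : ℝ)) -
          Ph v (N + 1 + 1 : ℕ) = (∑ b ∈ Finset.Icc 1 (N + 1), ex v (Real.log (b : ℕ)) - Ph v (N + 1 : ℕ)) +
          (ex v (Real.log (N + 1 + 1 : ℕ)) - (Ph v (N + 1 + 1 : ℕ) - Ph v (N + 1 : ℕ))) := by ring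
      rw [e]
      refine (norm_add_le _ _).trans ?_
      have hs : ∑ b ∈ Finset.Icc 1 (N + 1), 1 / (b : ℝ) = ∑ b ∈ Finset.Icc 1 N, 1 / (b : ℝ) + 1 / ((N + 1 : ℕ) : ℝ) :=
        Finset.sum_Icc_succ_top (by omega) _
      rw [hs, mul_add, mul_one_div]
      linarith
  obtain ⟨n, rfl⟩ : ∃ n, N = n + 1 := ⟨N - 1, by omega⟩
  refine (h1 n).trans ?_
  have h2 := harm_le n
  have h3 : Real.log n ≤ Real.log ((n + 1 : ℕ) : ℝ) := by
    rcases Nat.eq_zero_or_pos n with rfl | h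
    · simp
    · exact Real.log_le_log (by exact_mod_cast h) (by push_cast; linarith)
  have h4 : |v| * ∑ b ∈ Finset.Icc 1 n, 1 / (b : ℝ) ≤ |v| * (1 + Real.log ((n + 1 : ℕ) : ℝ)) :=
    mul_le_mul_of_nonneg_left (by linarith) (abs_nonneg v)
  linarith

lemma Ph_lip (v : ℝ) {x y : ℝ} (hx : 0 < x) (hxy : x ≤ y) : ‖Ph v y - Ph v x‖ ≤ y - x := by
  have h := Convex.norm_image_sub_le_of_norm_hasDerivWithin_le (𝕜 := ℝ) (s := Icc x y)
    (f := Ph v) (f' := fun x : ℝ => ex v (Real.log x)) (C := 1)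
    (fun z hz => (Ph_deriv v (lt_of_lt_of_le hx hz.1)).hasDerivWithinAt)
    (fun z _ => (norm_ex _ _).le) (convex_Icc _ _) (x := x) (y := y) ⟨le_rfl, hxy⟩ ⟨hxy, le_rfl⟩
  rwa [one_mul, Real.norm_eq_abs, abs_of_nonneg (by linarith)] at h

lemma B2 (v : ℝ) {x : ℝ} (hx : 1 ≤ x) :
    ‖∑ b ∈ Finset.Icc 1 ⌊x⌋₊, ex v (Real.log (b : ℕ)) - Ph v x‖ ≤ (2 + |v|) * (1 + Real.log x) := by
  have hN : 1 ≤ ⌊x⌋₊ := Nat.le_floor (by simpa using hx)
  have hN0 : (0 : ℝ) < ⌊x⌋₊ := by exact_mod_cast hN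
  have h1 := B1 v hN
  have hfl : ((⌊x⌋₊ : ℕ) : ℝ) ≤ x := Nat.floor_le (by linarith)
  have h2 := Ph_lip v hN0 hfl
  have h3 := Nat.lt_floor_add_one x
  have h4 : Real.log ⌊x⌋₊ ≤ Real.log x := Real.log_le_log hN0 hfl
  have hl := Real.log_nonneg hx
  have e : ∑ b ∈ Finset.Icc 1 ⌊x⌋₊, ex v (Real.log (b : ℕ)) - Ph v x =
      (∑ b ∈ Finset.Icc 1 ⌊x⌋₊, ex v (Real.log (b : ℕ)) - Ph v ⌊x⌋₊) - (Ph v x - Ph v ⌊x⌋₊) := by ring
  rw [e]
  refine (norm_sub_le _ _).trans ?_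
  have h5 : |v| * (1 + Real.log ⌊x⌋₊) ≤ |v| * (1 + Real.log x) :=
    mul_le_mul_of_nonneg_left (by linarith) (abs_nonneg v)
  nlinarith

/-- the sum `∑ a^(-1+is)` -/
lemma Z1 {s : ℝ} (hs : s ≠ 0) (N : ℕ) :
    ‖∑ a ∈ Finset.Icc 1 N, ((a : ℂ))⁻¹ * ex s (Real.log (a : ℕ))‖ ≤ 2 / |s| + 3 + Real.log (2 + |s|) := by
  have hs0 : 0 < |s| := abs_pos.2 hs
  have hIs : (Complex.I * (s : ℂ)) ≠ 0 := mul_ne_zero Complex.I_ne_zero (by exact_mod_cast hs)
  -- one step
  have step : ∀ n : ℕ, 1 ≤ n → ‖((n : ℂ))⁻¹ * ex s (Real.log (n : ℕ)) -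
      (ex s (Real.log (n + 1 : ℕ)) / (Complex.I * s) - ex s (Real.log (n : ℕ)) / (Complex.I * s))‖ ≤
      (1 + |s|) * ((n : ℝ) ^ 2)⁻¹ := by
    intro n hn
    have hn0 : (0 : ℝ) < n := by exact_mod_cast hn
    have hd : ∀ x : ℝ, 0 < x → HasDerivAt (fun x : ℝ => ((x : ℂ))⁻¹ * ex s (Real.log x))
        (-((x : ℂ) ^ 2)⁻¹ * ex s (Real.log x) + ((x : ℂ))⁻¹ * (ex s (Real.log x) * (Complex.I * s / x))) x := by
      intro x hx
      have hx' : (x : ℂ) ≠ 0 := by exact_mod_cast hx.ne'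
      have h1 : HasDerivAt (fun x : ℝ => ((x : ℂ))⁻¹) (-((x : ℂ) ^ 2)⁻¹) x := by
        have := (hasDerivAt_inv hx').comp_ofReal
        exact this
      exact h1.mul (exlog_deriv s hx)
    have hlip : ∀ x ∈ Icc (n : ℝ) ((n + 1 : ℕ) : ℝ), ‖((x : ℂ))⁻¹ * ex s (Real.log x) -
        ((n : ℂ))⁻¹ * ex s (Real.log (n : ℕ))‖ ≤ (1 + |s|) * ((n : ℝ) ^ 2)⁻¹ := by
      intro x hx
      have h2 := Convex.norm_image_sub_le_of_norm_hasDerivWithin_le (𝕜 := ℝ) (s := Icc (n : ℝ) ((n + 1 : ℕ) : ℝ))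
        (f := fun x : ℝ => ((x : ℂ))⁻¹ * ex s (Real.log x)) (C := (1 + |s|) * ((n : ℝ) ^ 2)⁻¹)
        (fun z hz => (hd z (lt_of_lt_of_le hn0 hz.1)).hasDerivWithinAt)
        (fun z hz => by
          have hz0 : 0 < z := lt_of_lt_of_le hn0 hz.1
          have e : -((z : ℂ) ^ 2)⁻¹ * ex s (Real.log z) + ((z : ℂ))⁻¹ * (ex s (Real.log z) * (Complex.I * s / z)) =
              ((z : ℂ) ^ 2)⁻¹ * (ex s (Real.log z) * (-1 + Complex.I * s)) := by
            have hz' : (z : ℂ) ≠ 0 := by exact_mod_cast hz0.ne'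
            field_simp
          rw [e, norm_mul, norm_mul, norm_ex, one_mul, norm_inv, norm_pow, Complex.norm_real, Real.norm_eq_abs,
            abs_of_pos hz0, mul_comm]
          apply mul_le_mul _ _ (by positivity) (by positivity)
          · refine (norm_add_le _ _).trans ?_
            rw [norm_neg, norm_one, norm_mul, Complex.norm_I, one_mul, Complex.norm_real, Real.norm_eq_abs]
          · apply inv_anti₀ (by positivity)
            exact pow_le_pow_left₀ hn0.le hz.1 2)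
        (convex_Icc _ _) (x := (n : ℝ)) (y := x) ⟨le_rfl, by push_cast; linarith⟩ hx
      have h3 : ‖x - (n : ℝ)‖ ≤ 1 := by
        rw [Real.norm_eq_abs, abs_of_nonneg (by linarith [hx.1])]
        have := hx.2
        push_cast at this
        linarith
      have h4 : 0 ≤ (1 + |s|) * ((n : ℝ) ^ 2)⁻¹ := by positivity
      calc _ ≤ (1 + |s|) * ((n : ℝ) ^ 2)⁻¹ * ‖x - (n : ℝ)‖ := h2
        _ ≤ (1 + |s|) * ((n : ℝ) ^ 2)⁻¹ * 1 := mul_le_mul_of_nonneg_left h3 h4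
        _ = _ := mul_one _
    have h1 := Convex.norm_image_sub_le_of_norm_hasDerivWithin_le (𝕜 := ℝ) (s := Icc (n : ℝ) ((n + 1 : ℕ) : ℝ))
      (f := fun x : ℝ => ex s (Real.log x) / (Complex.I * s) - (x : ℂ) * (((n : ℂ))⁻¹ * ex s (Real.log (n : ℕ))))
      (f' := fun x : ℝ => ((x : ℂ))⁻¹ * ex s (Real.log x) - ((n : ℂ))⁻¹ * ex s (Real.log (n : ℕ)))
      (C := (1 + |s|) * ((n : ℝ) ^ 2)⁻¹)
      (fun x hx => by
        have hx0 : 0 < x := lt_of_lt_of_le hn0 hx.1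
        have hx' : (x : ℂ) ≠ 0 := by exact_mod_cast hx0.ne'
        have h2 : HasDerivAt (fun x : ℝ => (x : ℂ)) 1 x := by
          simpa using (hasDerivAt_id x).ofReal_comp
        have h3 := ((exlog_deriv s hx0).div_const (Complex.I * (s : ℂ))).sub
          (h2.mul_const (((n : ℂ))⁻¹ * ex s (Real.log (n : ℕ))))
        refine (h3.congr_deriv ?_).hasDerivWithinAt
        rw [one_mul]
        have hs' : (s : ℂ) ≠ 0 := by exact_mod_cast hs
        have hI := Complex.I_ne_zero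
        congr 1
        field_simp)
      hlip (convex_Icc _ _) (x := (n : ℝ)) (y := ((n + 1 : ℕ) : ℝ)) ⟨le_rfl, by push_cast; linarith⟩
      ⟨by push_cast; linarith, le_rfl⟩
    have e1 : ‖((n + 1 : ℕ) : ℝ) - (n : ℝ)‖ = 1 := by
      push_cast
      rw [add_sub_cancel_left]
      simp
    rw [e1, mul_one] at h1
    rw [norm_sub_rev]
    refine le_trans (le_of_eq ?_) h1
    congr 1
    push_cast
    ring
  -- the cut
  set M := ⌈1 + |s|⌉₊ with hM
  have hM1 : 1 ≤ M := Nat.ceil_pos.2 (by positivity)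
  have hM0 : (0 : ℝ) < M := by exact_mod_cast hM1
  have hMge : 1 + |s| ≤ M := Nat.le_ceil _
  have hMle : (M : ℝ) ≤ 2 + |s| := by
    have := Nat.ceil_lt_add_one (show 0 ≤ 1 + |s| by positivity)
    linarith
  have htriv : ∀ n : ℕ, n ≤ M → ‖∑ a ∈ Finset.Icc 1 n, ((a : ℂ))⁻¹ * ex s (Real.log (a : ℕ))‖ ≤ 1 + Real.log (2 + |s|) := by
    intro n hn
    refine (norm_sum_le _ _).trans ?_
    have h1 : ∀ a ∈ Finset.Icc 1 n, ‖((a : ℂ))⁻¹ * ex s (Real.log (a : ℕ))‖ ≤ 1 / (a : ℝ) := by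
      intro a _
      rw [norm_mul, norm_ex, mul_one, norm_inv, one_div, Complex.norm_natCast]
    refine (Finset.sum_le_sum h1).trans ((harm_le n).trans ?_)
    rcases Nat.eq_zero_or_pos n with h0 | h0
    · rw [h0]
      simp only [Nat.cast_zero, Real.log_zero, add_zero]
      have : 0 ≤ Real.log (2 + |s|) := Real.log_nonneg (by linarith)
      linarith
    · have : Real.log n ≤ Real.log (2 + |s|) := by
        apply Real.log_le_log (by exact_mod_cast h0)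
        have : (n : ℝ) ≤ M := by exact_mod_cast hn
        linarith
      linarith
  rcases le_or_gt N M with h | h
  · refine (htriv N h).trans ?_
    have : 0 < 2 / |s| := by positivity
    linarith
  · have key : ∀ n : ℕ, M ≤ n → ‖∑ a ∈ Finset.Icc 1 n, ((a : ℂ))⁻¹ * ex s (Real.log (a : ℕ)) -
        ∑ a ∈ Finset.Icc 1 M, ((a : ℂ))⁻¹ * ex s (Real.log (a : ℕ)) -
        (ex s (Real.log (n + 1 : ℕ)) / (Complex.I * s) - ex s (Real.log (M + 1 : ℕ)) / (Complex.I * s))‖ ≤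
        (1 + |s|) * ∑ a ∈ Finset.Ioc M n, ((a : ℝ) ^ 2)⁻¹ := by
      intro n hn
      induction n, hn using Nat.le_induction with
      | base => simp
      | succ n hn ih =>
        rw [Finset.sum_Icc_succ_top (by omega), Finset.sum_Ioc_succ_top (by omega), mul_add]
        have h2 := step (n + 1) (by omega)
        have e : ∑ a ∈ Finset.Icc 1 n, ((a : ℂ))⁻¹ * ex s (Real.log (a : ℕ)) +
            (((n + 1 : ℕ) : ℂ))⁻¹ * ex s (Real.log ((n + 1 : ℕ) : ℝ)) -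
            ∑ a ∈ Finset.Icc 1 M, ((a : ℂ))⁻¹ * ex s (Real.log (a : ℕ)) -
            (ex s (Real.log (n + 1 + 1 : ℕ)) / (Complex.I * s) - ex s (Real.log (M + 1 : ℕ)) / (Complex.I * s)) =
            (∑ a ∈ Finset.Icc 1 n, ((a : ℂ))⁻¹ * ex s (Real.log (a : ℕ)) -
            ∑ a ∈ Finset.Icc 1 M, ((a : ℂ))⁻¹ * ex s (Real.log (a : ℕ)) -
            (ex s (Real.log (n + 1 : ℕ)) / (Complex.I * s) - ex s (Real.log (M + 1 : ℕ)) / (Complex.I * s))) +
            ((((n + 1 : ℕ) : ℂ))⁻¹ * ex s (Real.log ((n + 1 : ℕ) : ℝ)) -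
            (ex s (Real.log (n + 1 + 1 : ℕ)) / (Complex.I * s) - ex s (Real.log (n + 1 : ℕ)) / (Complex.I * s))) := by
          ring
        rw [e]
        exact (norm_add_le _ _).trans (add_le_add ih h2)
    have h1 := key N h.le
    have h2 : (1 + |s|) * ∑ a ∈ Finset.Ioc M N, ((a : ℝ) ^ 2)⁻¹ ≤ 1 := by
      have h3 := sum_Ioc_inv_sq_le_sub (α := ℝ) (k := M) (n := N) (by omega) h.le
      have h4 : (0 : ℝ) ≤ ((N : ℕ) : ℝ)⁻¹ := by positivity
      calc (1 + |s|) * ∑ a ∈ Finset.Ioc M N, ((a : ℝ) ^ 2)⁻¹ ≤ M * (M : ℝ)⁻¹ :=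
            mul_le_mul hMge (by linarith) (Finset.sum_nonneg fun _ _ => by positivity) (by positivity)
        _ = 1 := mul_inv_cancel₀ hM0.ne'
    have hex : ∀ x : ℝ, ‖ex s x / (Complex.I * s)‖ = 1 / |s| := by
      intro x
      rw [norm_div, norm_ex, norm_mul, Complex.norm_I, one_mul, Complex.norm_real, Real.norm_eq_abs]
    have h3 := htriv M le_rfl
    have e : ∑ a ∈ Finset.Icc 1 N, ((a : ℂ))⁻¹ * ex s (Real.log (a : ℕ)) =
        (∑ a ∈ Finset.Icc 1 N, ((a : ℂ))⁻¹ * ex s (Real.log (a : ℕ)) -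
        ∑ a ∈ Finset.Icc 1 M, ((a : ℂ))⁻¹ * ex s (Real.log (a : ℕ)) -
        (ex s (Real.log (N + 1 : ℕ)) / (Complex.I * s) - ex s (Real.log (M + 1 : ℕ)) / (Complex.I * s))) +
        ∑ a ∈ Finset.Icc 1 M, ((a : ℂ))⁻¹ * ex s (Real.log (a : ℕ)) +
        (ex s (Real.log (N + 1 : ℕ)) / (Complex.I * s) - ex s (Real.log (M + 1 : ℕ)) / (Complex.I * s)) := by ring
    rw [e]
    refine (norm_add_le _ _).trans ?_
    have h4 := norm_add_le (∑ a ∈ Finset.Icc 1 N, ((a : ℂ))⁻¹ * ex s (Real.log (a : ℕ)) -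
        ∑ a ∈ Finset.Icc 1 M, ((a : ℂ))⁻¹ * ex s (Real.log (a : ℕ)) -
        (ex s (Real.log (N + 1 : ℕ)) / (Complex.I * s) - ex s (Real.log (M + 1 : ℕ)) / (Complex.I * s)))
        (∑ a ∈ Finset.Icc 1 M, ((a : ℂ))⁻¹ * ex s (Real.log (a : ℕ)))
    have h5 := norm_sub_le (ex s (Real.log (N + 1 : ℕ)) / (Complex.I * s)) (ex s (Real.log (M + 1 : ℕ)) / (Complex.I * s))
    rw [hex, hex] at h5
    have h6 : 2 / |s| = 1 / |s| + 1 / |s| := by ring
    linarith

end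

end K1H48.SW
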