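import Pool.Agent.K1H48.SW.Co

set_option autoImplicit false

/-! Riemann sums over logarithms. -/

namespace K1H48.SW

open MeasureTheory Set Finset Filter
open Pool.Agent.Y969.GP

noncomputable section

lemma log_step {n : ℕ} (hn : 1 ≤ n) : 1 / ((n : ℝ) + 1) ≤ Real.log (n + 1) - Real.log n ∧
    Real.log (n + 1) - Real.log n ≤ 1 / (n : ℝ) := by
  have hn0 : (0 : ℝ) < n := by exact_mod_cast hn
  constructor
  · have h1 := Real.add_one_le_exp (-(1 / ((n : ℝ) + 1)))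
    have h2 : Real.log (n / (n + 1)) ≤ -(1 / ((n : ℝ) + 1)) := by
      have h3 := Real.log_le_sub_one_of_pos (show (0 : ℝ) < n / (n + 1) by positivity)
      refine h3.trans (le_of_eq ?_)
      field_simp
      ring
    rw [Real.log_div hn0.ne' (by positivity)] at h2
    linarith
  · have h3 := Real.log_le_sub_one_of_pos (show (0 : ℝ) < (n + 1) / n by positivity)
    rw [Real.log_div (by positivity) hn0.ne'] at h3
    refine h3.trans (le_of_eq ?_)
    field_simp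
    ring

lemma riem {φ : ℝ → ℝ} {B Λ : ℝ} (hc : Continuous φ) (hB : ∀ s, 0 ≤ s → |φ s| ≤ B)
    (hΛ : ∀ s t, 0 ≤ s → 0 ≤ t → |φ s - φ t| ≤ Λ * |s - t|) (hΛ0 : 0 ≤ Λ) {N : ℕ} (hN : 1 ≤ N) :
    |∑ a ∈ Finset.Icc 1 N, φ (Real.log a) / a - ∫ s in (0 : ℝ)..Real.log N, φ s| ≤ 2 * B + 2 * Λ := by
  have hB0 : 0 ≤ B := (abs_nonneg _).trans (hB 0 le_rfl)
  have key : ∀ N : ℕ, 1 ≤ N → |∑ a ∈ Finset.Icc 1 N, φ (Real.log a) / a - φ (Real.log N) / N -
      ∫ s in (0 : ℝ)..Real.log N, φ s| ≤ (B + 2 * Λ) * (1 - 1 / N) := by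
    intro N hN
    induction N, hN using Nat.le_induction with
    | base => simp
    | succ n hn ih =>
      have hn0 : (0 : ℝ) < n := by exact_mod_cast hn
      have hn1 : (1 : ℝ) ≤ n := by exact_mod_cast hn
      obtain ⟨l1, l2⟩ := log_step hn
      have hl0 : 0 ≤ Real.log n := Real.log_nonneg hn1
      have hle : Real.log n ≤ Real.log (n + 1) := Real.log_le_log hn0 (by linarith)
      rw [Finset.sum_Icc_succ_top (by omega)]
      have e1 : ∫ s in (0 : ℝ)..Real.log ((n + 1 : ℕ) : ℝ), φ s = (∫ s in (0 : ℝ)..Real.log n, φ s) +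
          ∫ s in Real.log n..Real.log (n + 1), φ s := by
        rw [intervalIntegral.integral_add_adjacent_intervals (hc.intervalIntegrable _ _)
          (hc.intervalIntegrable _ _)]
        push_cast
        rfl
      have e2 : φ (Real.log n) * (Real.log (n + 1) - Real.log n) = ∫ s in Real.log n..Real.log (n + 1), φ (Real.log n) := by
        rw [intervalIntegral.integral_const, smul_eq_mul, mul_comm]
      have h1 : |(∫ s in Real.log n..Real.log (n + 1), φ s) - φ (Real.log n) * (Real.log (n + 1) - Real.log n)| ≤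
          Λ * (Real.log (n + 1) - Real.log n) * (Real.log (n + 1) - Real.log n) := by
        rw [e2, ← intervalIntegral.integral_sub (hc.intervalIntegrable _ _) (continuous_const.intervalIntegrable _ _)]
        have h2 := intervalIntegral.norm_integral_le_of_norm_le_const (a := Real.log n) (b := Real.log (n + 1))
          (C := Λ * (Real.log (n + 1) - Real.log n)) (f := fun s => φ s - φ (Real.log n)) (fun s hs => by
            rw [Set.uIoc_of_le hle] at hs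
            have h3 := hΛ s (Real.log n) (by linarith [hs.1]) hl0
            rw [Real.norm_eq_abs]
            refine h3.trans (mul_le_mul_of_nonneg_left ?_ hΛ0)
            rw [abs_of_nonneg (by linarith [hs.1])]
            linarith [hs.2])
        rw [Real.norm_eq_abs, abs_of_nonneg (by linarith : 0 ≤ Real.log (n + 1) - Real.log n)] at h2
        exact h2
      have h3 : |φ (Real.log n) * (Real.log (n + 1) - Real.log n) - φ (Real.log n) / n| ≤
          B * (1 / n - 1 / (n + 1)) := by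
        have : φ (Real.log n) * (Real.log (n + 1) - Real.log n) - φ (Real.log n) / n =
            φ (Real.log n) * ((Real.log (n + 1) - Real.log n) - 1 / n) := by ring
        rw [this, abs_mul, abs_of_nonpos (by linarith : (Real.log (n + 1) - Real.log n) - 1 / (n : ℝ) ≤ 0)]
        apply mul_le_mul (hB _ hl0) _ (by linarith) hB0
        linarith
      have h4 : Λ * (Real.log (n + 1) - Real.log n) * (Real.log (n + 1) - Real.log n) ≤
          2 * Λ * (1 / n - 1 / (n + 1)) := by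
        have h5 : (Real.log (n + 1) - Real.log n) * (Real.log (n + 1) - Real.log n) ≤ 1 / n * (1 / n) :=
          mul_le_mul l2 l2 (by linarith) (by positivity)
        have h6 : (1 : ℝ) / n * (1 / n) ≤ 2 * (1 / n - 1 / (n + 1)) := by
          rw [div_mul_div_comm, div_sub_div _ _ hn0.ne' (by positivity), mul_div_assoc',
            div_le_div_iff₀ (by positivity) (by positivity)]
          nlinarith
        calc _ = Λ * ((Real.log (n + 1) - Real.log n) * (Real.log (n + 1) - Real.log n)) := by ring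
          _ ≤ Λ * (2 * (1 / n - 1 / (n + 1))) := mul_le_mul_of_nonneg_left (h5.trans h6) hΛ0
          _ = _ := by ring
      rw [e1]
      push_cast
      have e5 : ∑ a ∈ Finset.Icc 1 n, φ (Real.log a) / a + φ (Real.log (n + 1)) / (n + 1) - φ (Real.log (n + 1)) / (n + 1) -
          ((∫ s in (0 : ℝ)..Real.log n, φ s) + ∫ s in Real.log n..Real.log (n + 1), φ s) =
          (∑ a ∈ Finset.Icc 1 n, φ (Real.log a) / a - φ (Real.log n) / n - ∫ s in (0 : ℝ)..Real.log n, φ s) -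
          ((∫ s in Real.log n..Real.log (n + 1), φ s) - φ (Real.log n) * (Real.log (n + 1) - Real.log n)) -
          (φ (Real.log n) * (Real.log (n + 1) - Real.log n) - φ (Real.log n) / n) := by ring
      rw [e5]
      have e6 : (B + 2 * Λ) * (1 - 1 / ((n : ℝ) + 1)) = (B + 2 * Λ) * (1 - 1 / n) +
          (2 * Λ * (1 / n - 1 / (n + 1)) + B * (1 / n - 1 / (n + 1))) := by ring
      rw [e6]
      refine (abs_sub _ _).trans ?_
      refine (add_le_add (abs_sub _ _) le_rfl).trans ?_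
      linarith
  have h1 := key N hN
  have hN0 : (0 : ℝ) < N := by exact_mod_cast hN
  have hN1 : (1 : ℝ) ≤ N := by exact_mod_cast hN
  have h2 : |φ (Real.log N) / N| ≤ B := by
    rw [abs_div, abs_of_pos hN0, div_le_iff₀ hN0]
    have := hB _ (Real.log_nonneg hN1)
    nlinarith
  have h3 : (B + 2 * Λ) * (1 - 1 / N) ≤ B + 2 * Λ := by
    have : 0 ≤ (1 : ℝ) / N := by positivity
    nlinarith
  have e : ∑ a ∈ Finset.Icc 1 N, φ (Real.log a) / a - ∫ s in (0 : ℝ)..Real.log N, φ s =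
      (∑ a ∈ Finset.Icc 1 N, φ (Real.log a) / a - φ (Real.log N) / N - ∫ s in (0 : ℝ)..Real.log N, φ s) +
      φ (Real.log N) / N := by ring
  rw [e]
  refine (abs_add_le _ _).trans ?_
  linarith

/-- the same with a real endpoint -/
lemma riem' {φ : ℝ → ℝ} {B Λ : ℝ} (hc : Continuous φ) (hB : ∀ s, 0 ≤ s → |φ s| ≤ B)
    (hΛ : ∀ s t, 0 ≤ s → 0 ≤ t → |φ s - φ t| ≤ Λ * |s - t|) (hΛ0 : 0 ≤ Λ) {Y : ℝ} (hY : 1 ≤ Y) :
    |∑ a ∈ Finset.Icc 1 ⌊Y⌋₊, φ (Real.log a) / a - ∫ s in (0 : ℝ)..Real.log Y, φ s| ≤ 3 * B + 2 * Λ := by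
  have hN : 1 ≤ ⌊Y⌋₊ := Nat.le_floor (by simpa using hY)
  have h1 := riem hc hB hΛ hΛ0 hN
  have hN0 : (0 : ℝ) < ⌊Y⌋₊ := by exact_mod_cast hN
  have hN1 : (1 : ℝ) ≤ ⌊Y⌋₊ := by exact_mod_cast hN
  have hNY : (⌊Y⌋₊ : ℝ) ≤ Y := Nat.floor_le (by linarith)
  have hYN : Y < ⌊Y⌋₊ + 1 := Nat.lt_floor_add_one Y
  have hB0 : 0 ≤ B := (abs_nonneg _).trans (hB 0 le_rfl)
  have hle : Real.log ⌊Y⌋₊ ≤ Real.log Y := Real.log_le_log hN0 hNY
  have hl0 : 0 ≤ Real.log ⌊Y⌋₊ := Real.log_nonneg hN1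
  have hd : Real.log Y - Real.log ⌊Y⌋₊ ≤ 1 := by
    rw [← Real.log_div (by linarith) hN0.ne']
    have h2 := Real.log_le_sub_one_of_pos (show (0 : ℝ) < Y / ⌊Y⌋₊ by positivity)
    have h3 : Y / ⌊Y⌋₊ ≤ 2 := by
      rw [div_le_iff₀ hN0]; linarith
    linarith
  have e1 : ∫ s in (0 : ℝ)..Real.log Y, φ s = (∫ s in (0 : ℝ)..Real.log ⌊Y⌋₊, φ s) + ∫ s in Real.log ⌊Y⌋₊..Real.log Y, φ s := by
    rw [intervalIntegral.integral_add_adjacent_intervals (hc.intervalIntegrable _ _)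
      (hc.intervalIntegrable _ _)]
  have h2 := intervalIntegral.norm_integral_le_of_norm_le_const (a := Real.log ⌊Y⌋₊) (b := Real.log Y) (C := B)
    (f := φ) (fun s hs => by
      rw [Set.uIoc_of_le hle] at hs
      exact hB s (by linarith [hs.1]))
  rw [Real.norm_eq_abs, abs_of_nonneg (by linarith : 0 ≤ Real.log Y - Real.log ⌊Y⌋₊)] at h2
  have h3 : B * (Real.log Y - Real.log ⌊Y⌋₊) ≤ B := by nlinarith
  rw [e1, ← sub_sub]
  refine (abs_sub _ _).trans ?_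
  linarith

/-! ### the kernel -/

/-- the weight `((ℓ - s - t)⁺)² cos (v (t - s))` -/
def ps (ℓ v s t : ℝ) : ℝ := (max (ℓ - s - t) 0) ^ 2 * Real.cos (v * (t - s))

def Hh (ℓ v : ℝ) : ℝ := ∫ s in (0 : ℝ)..ℓ, ∫ t in (0 : ℝ)..ℓ, ps ℓ v s t

lemma ps_symm (ℓ v s t : ℝ) : ps ℓ v s t = ps ℓ v t s := by
  unfold ps
  rw [← Real.cos_neg (v * (t - s))]
  congr 2
  · congr 1; ring
  · ring

lemma ps_cont : Continuous (fun z : ℝ × ℝ × ℝ × ℝ => ps z.1 z.2.1 z.2.2.1 z.2.2.2) := by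
  unfold ps
  fun_prop

lemma ps_cont2 (ℓ v : ℝ) : Continuous (Function.uncurry (ps ℓ v)) := by
  unfold ps Function.uncurry
  fun_prop

lemma ps_bd {ℓ v s t : ℝ} (hℓ : 0 ≤ ℓ) (hs : 0 ≤ s) (ht : 0 ≤ t) : |ps ℓ v s t| ≤ ℓ ^ 2 := by
  unfold ps
  rw [abs_mul, abs_of_nonneg (by positivity)]
  have h1 : max (ℓ - s - t) 0 ≤ ℓ := max_le (by linarith) hℓ
  have h2 : 0 ≤ max (ℓ - s - t) 0 := le_max_right _ _
  calc _ ≤ (max (ℓ - s - t) 0) ^ 2 * 1 := mul_le_mul_of_nonneg_left (Real.abs_cos_le_one _) (by positivity)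
    _ ≤ ℓ ^ 2 := by rw [mul_one]; exact pow_le_pow_left₀ h2 h1 2

lemma cos_lip (x y : ℝ) : |Real.cos x - Real.cos y| ≤ |x - y| := Real.abs_cos_sub_cos_le x y

lemma ps_lip {ℓ v s s' t : ℝ} (hℓ : 0 ≤ ℓ) (hv : |v| ≤ 1) (hs : 0 ≤ s) (hs' : 0 ≤ s') (ht : 0 ≤ t) :
    |ps ℓ v s t - ps ℓ v s' t| ≤ (2 * ℓ + ℓ ^ 2) * |s - s'| := by
  unfold ps
  obtain ⟨x, hx⟩ : ∃ x, x = max (ℓ - s - t) 0 := ⟨_, rfl⟩
  obtain ⟨y, hy⟩ : ∃ y, y = max (ℓ - s' - t) 0 := ⟨_, rfl⟩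
  rw [← hx, ← hy]
  have hx1 : x ≤ ℓ := by rw [hx]; exact max_le (by linarith) hℓ
  have hx0 : 0 ≤ x := by rw [hx]; exact le_max_right _ _
  have hy1 : y ≤ ℓ := by rw [hy]; exact max_le (by linarith) hℓ
  have hy0 : 0 ≤ y := by rw [hy]; exact le_max_right _ _
  have hxy : |x - y| ≤ |s - s'| := by
    rw [hx, hy]
    refine (abs_max_sub_max_le_abs _ _ _).trans (le_of_eq ?_)
    rw [show ℓ - s - t - (ℓ - s' - t) = -(s - s') by ring, abs_neg]
  have e : x ^ 2 * Real.cos (v * (t - s)) - y ^ 2 * Real.cos (v * (t - s')) =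
      (x - y) * (x + y) * Real.cos (v * (t - s)) + y ^ 2 * (Real.cos (v * (t - s)) - Real.cos (v * (t - s'))) := by
    ring
  rw [e]
  refine (abs_add_le _ _).trans ?_
  rw [abs_mul, abs_mul, abs_mul, abs_of_nonneg (by positivity : 0 ≤ y ^ 2), abs_of_nonneg (by positivity : 0 ≤ x + y)]
  have h1 : |x - y| * (x + y) * |Real.cos (v * (t - s))| ≤ |s - s'| * (2 * ℓ) * 1 := by
    apply mul_le_mul _ (Real.abs_cos_le_one _) (abs_nonneg _) (by positivity)
    exact mul_le_mul hxy (by linarith) (by positivity) (abs_nonneg _)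
  have h2 : |Real.cos (v * (t - s)) - Real.cos (v * (t - s'))| ≤ |s - s'| := by
    refine (cos_lip _ _).trans ?_
    rw [show v * (t - s) - v * (t - s') = v * (-(s - s')) by ring, abs_mul, abs_neg]
    have := abs_nonneg (s - s')
    nlinarith
  have h3 : y ^ 2 * |Real.cos (v * (t - s)) - Real.cos (v * (t - s'))| ≤ ℓ ^ 2 * |s - s'| :=
    mul_le_mul (pow_le_pow_left₀ hy0 hy1 2) h2 (abs_nonneg _) (by positivity)
  calc _ ≤ _ := add_le_add h1 h3
    _ = _ := by ring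

lemma inner_cont (ℓ v : ℝ) : Continuous (fun s => ∫ t in (0 : ℝ)..ℓ, ps ℓ v s t) :=
  intervalIntegral.continuous_parametric_intervalIntegral_of_continuous' (ps_cont2 ℓ v) 0 ℓ

lemma inner_bd {ℓ v s : ℝ} (hℓ : 0 ≤ ℓ) (hs : 0 ≤ s) : |∫ t in (0 : ℝ)..ℓ, ps ℓ v s t| ≤ ℓ ^ 3 := by
  have h2 := intervalIntegral.norm_integral_le_of_norm_le_const (a := 0) (b := ℓ) (C := ℓ ^ 2)
    (f := ps ℓ v s) (fun t ht => by
      rw [Set.uIoc_of_le hℓ] at ht
      exact ps_bd hℓ hs ht.1.le)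
  rw [Real.norm_eq_abs, abs_of_nonneg (by linarith : 0 ≤ ℓ - 0)] at h2
  refine h2.trans (le_of_eq (by ring))

lemma inner_lip {ℓ v s s' : ℝ} (hℓ : 0 ≤ ℓ) (hv : |v| ≤ 1) (hs : 0 ≤ s) (hs' : 0 ≤ s') :
    |(∫ t in (0 : ℝ)..ℓ, ps ℓ v s t) - ∫ t in (0 : ℝ)..ℓ, ps ℓ v s' t| ≤ (2 * ℓ ^ 2 + ℓ ^ 3) * |s - s'| := by
  have hc : ∀ s, Continuous (ps ℓ v s) := fun s => (ps_cont2 ℓ v).comp (by fun_prop : Continuous fun t : ℝ => (s, t))
  rw [← intervalIntegral.integral_sub ((hc s).intervalIntegrable _ _) ((hc s').intervalIntegrable _ _)]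
  have h2 := intervalIntegral.norm_integral_le_of_norm_le_const (a := 0) (b := ℓ) (C := (2 * ℓ + ℓ ^ 2) * |s - s'|)
    (f := fun t => ps ℓ v s t - ps ℓ v s' t) (fun t ht => by
      rw [Set.uIoc_of_le hℓ] at ht
      exact ps_lip hℓ hv hs hs' ht.1.le)
  rw [Real.norm_eq_abs, abs_of_nonneg (by linarith : 0 ≤ ℓ - 0)] at h2
  refine h2.trans (le_of_eq (by ring))

/-- the double sum over the lattice -/
theorem dbl {Y v : ℝ} (hY : 1 ≤ Y) (hv : |v| ≤ 1) :
    |∑ a ∈ Finset.Icc 1 ⌊Y⌋₊, ∑ b ∈ Finset.Icc 1 ⌊Y⌋₊, ps (Real.log Y) v (Real.log a) (Real.log b) / (a * b) -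
      Hh (Real.log Y) v| ≤ 20 * (1 + Real.log Y) ^ 3 := by
  obtain ⟨ℓ, hℓ⟩ : ∃ ℓ, ℓ = Real.log Y := ⟨_, rfl⟩
  rw [← hℓ]
  have hℓ0 : 0 ≤ ℓ := by rw [hℓ]; exact Real.log_nonneg hY
  have h1 : ∀ a ∈ Finset.Icc 1 ⌊Y⌋₊, |∑ b ∈ Finset.Icc 1 ⌊Y⌋₊, ps ℓ v (Real.log a) (Real.log b) / (a * b) -
      (∫ t in (0 : ℝ)..ℓ, ps ℓ v (Real.log a) t) / a| ≤ (5 * ℓ ^ 2 + 4 * ℓ) * (1 / a) := by
    intro a ha
    rw [Finset.mem_Icc] at ha
    have ha1 : (1 : ℝ) ≤ a := by exact_mod_cast ha.1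
    have ha0 : (0 : ℝ) < a := by linarith
    have hla := Real.log_nonneg ha1
    have h2 := riem' (φ := ps ℓ v (Real.log a)) (B := ℓ ^ 2) (Λ := 2 * ℓ + ℓ ^ 2) (Y := Y)
      ((ps_cont2 ℓ v).comp (by fun_prop : Continuous fun t : ℝ => (Real.log a, t)))
      (fun s hs => ps_bd hℓ0 hla hs) (fun s t hs ht => by
        rw [ps_symm ℓ v _ s, ps_symm ℓ v _ t]
        exact ps_lip hℓ0 hv hs ht hla) (by positivity) hY
    rw [← hℓ] at h2
    have e1 : ∑ b ∈ Finset.Icc 1 ⌊Y⌋₊, ps ℓ v (Real.log a) (Real.log b) / (a * b) -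
      (∫ t in (0 : ℝ)..ℓ, ps ℓ v (Real.log a) t) / a =
        (∑ b ∈ Finset.Icc 1 ⌊Y⌋₊, ps ℓ v (Real.log a) (Real.log b) / b - ∫ t in (0 : ℝ)..ℓ, ps ℓ v (Real.log a) t) * (1 / a) := by
      rw [sub_mul, Finset.sum_mul]
      congr 1
      · refine Finset.sum_congr rfl fun b _ => ?_
        rw [div_mul_div_comm, mul_one, mul_comm (a : ℝ) b]
      · ring
    rw [e1, abs_mul, abs_of_pos (by positivity : (0 : ℝ) < 1 / a)]
    apply mul_le_mul_of_nonneg_right _ (by positivity)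
    refine h2.trans (le_of_eq (by ring))
  have h3 := riem' (φ := fun s => ∫ t in (0 : ℝ)..ℓ, ps ℓ v s t) (B := ℓ ^ 3) (Λ := 2 * ℓ ^ 2 + ℓ ^ 3) (Y := Y)
    (inner_cont ℓ v) (fun s hs => inner_bd hℓ0 hs) (fun s t hs ht => inner_lip hℓ0 hv hs ht) (by positivity) hY
  rw [← hℓ] at h3
  have h4 : |∑ a ∈ Finset.Icc 1 ⌊Y⌋₊, ∑ b ∈ Finset.Icc 1 ⌊Y⌋₊, ps ℓ v (Real.log a) (Real.log b) / (a * b) -
      ∑ a ∈ Finset.Icc 1 ⌊Y⌋₊, (∫ t in (0 : ℝ)..ℓ, ps ℓ v (Real.log a) t) / a| ≤ (5 * ℓ ^ 2 + 4 * ℓ) * (1 + ℓ) := by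
    rw [← Finset.sum_sub_distrib]
    refine (Finset.abs_sum_le_sum_abs _ _).trans ((Finset.sum_le_sum h1).trans ?_)
    rw [← Finset.mul_sum]
    apply mul_le_mul_of_nonneg_left _ (by positivity)
    refine (harm_le _).trans ?_
    have hN : 1 ≤ ⌊Y⌋₊ := Nat.le_floor (by simpa using hY)
    have hN0 : (0 : ℝ) < ⌊Y⌋₊ := by exact_mod_cast hN
    have := Real.log_le_log hN0 (Nat.floor_le (by linarith))
    linarith
  unfold Hh
  have e : ∑ a ∈ Finset.Icc 1 ⌊Y⌋₊, ∑ b ∈ Finset.Icc 1 ⌊Y⌋₊, ps ℓ v (Real.log a) (Real.log b) / (a * b) -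
      ∫ s in (0 : ℝ)..ℓ, ∫ t in (0 : ℝ)..ℓ, ps ℓ v s t =
      (∑ a ∈ Finset.Icc 1 ⌊Y⌋₊, ∑ b ∈ Finset.Icc 1 ⌊Y⌋₊, ps ℓ v (Real.log a) (Real.log b) / (a * b) -
      ∑ a ∈ Finset.Icc 1 ⌊Y⌋₊, (∫ t in (0 : ℝ)..ℓ, ps ℓ v (Real.log a) t) / a) +
      (∑ a ∈ Finset.Icc 1 ⌊Y⌋₊, (∫ t in (0 : ℝ)..ℓ, ps ℓ v (Real.log a) t) / a -
      ∫ s in (0 : ℝ)..ℓ, ∫ t in (0 : ℝ)..ℓ, ps ℓ v s t) := by ring
  rw [e]
  refine (abs_add_le _ _).trans ((add_le_add h4 h3).trans ?_)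
  nlinarith [pow_nonneg hℓ0 3, pow_nonneg hℓ0 2]

/-- the closed form of the kernel -/
lemma Hh_closed {ℓ v : ℝ} (hℓ : 0 ≤ ℓ) (hv : v ≠ 0) :
    Hh ℓ v = (v ^ 2 * ℓ ^ 2 - 2 + 2 * Real.cos (v * ℓ)) / v ^ 4 := by
  unfold Hh
  have h1 : ∀ s ∈ Set.uIcc 0 ℓ, ∫ t in (0 : ℝ)..ℓ, ps ℓ v s t =
      (ℓ - s) ^ 2 * Real.sin (v * s) / v + 2 * (ℓ - s) * Real.cos (v * s) / v ^ 2 -
        2 * Real.sin (v * s) / v ^ 3 - 2 * Real.sin (v * (ℓ - 2 * s)) / v ^ 3 := by
    intro s hs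
    rw [Set.uIcc_of_le hℓ] at hs
    have hc : Continuous (ps ℓ v s) := (ps_cont2 ℓ v).comp (by fun_prop : Continuous fun t : ℝ => (s, t))
    rw [← intervalIntegral.integral_add_adjacent_intervals (b := ℓ - s) (hc.intervalIntegrable _ _)
      (hc.intervalIntegrable _ _)]
    have e1 : ∫ t in (ℓ - s)..ℓ, ps ℓ v s t = 0 := by
      apply intervalIntegral.integral_zero_ae
      refine Filter.Eventually.of_forall fun t ht => ?_
      rw [Set.uIoc_of_le (by linarith [hs.1])] at ht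
      unfold ps
      rw [max_eq_right (by linarith [ht.1])]
      ring
    have e2 : ∫ t in (0 : ℝ)..(ℓ - s), ps ℓ v s t = ∫ t in (0 : ℝ)..(ℓ - s), (ℓ - s - t) ^ 2 * Real.cos (v * (t - s)) := by
      apply intervalIntegral.integral_congr
      intro t ht
      rw [Set.uIcc_of_le (by linarith [hs.2])] at ht
      simp only
      unfold ps
      rw [max_eq_left (by linarith [ht.2])]
    rw [e1, e2, add_zero]
    have hd : ∀ t ∈ Set.uIcc 0 (ℓ - s), HasDerivAt (fun t => (ℓ - s - t) ^ 2 * Real.sin (v * (t - s)) / v -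
        2 * (ℓ - s - t) * Real.cos (v * (t - s)) / v ^ 2 - 2 * Real.sin (v * (t - s)) / v ^ 3)
        ((ℓ - s - t) ^ 2 * Real.cos (v * (t - s))) t := by
      intro t _
      have d1 : HasDerivAt (fun t : ℝ => ℓ - s - t) (-1) t := by
        simpa using (hasDerivAt_id t).const_sub (ℓ - s)
      have d2 : HasDerivAt (fun t : ℝ => v * (t - s)) v t := by
        simpa using ((hasDerivAt_id t).sub_const s).const_mul v
      have d3 := (Real.hasDerivAt_sin (v * (t - s))).comp t d2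
      have d4 := (Real.hasDerivAt_cos (v * (t - s))).comp t d2
      have d5 := (((d1.pow 2).mul d3).div_const v).sub ((((d1.const_mul 2).mul d4).div_const (v ^ 2))) |>.sub
        ((d3.const_mul 2).div_const (v ^ 3))
      refine d5.congr_deriv ?_
      simp only [Function.comp, Pi.pow_apply]
      field_simp
      ring
    rw [intervalIntegral.integral_eq_sub_of_hasDerivAt hd ((by fun_prop : Continuous fun t : ℝ =>
      (ℓ - s - t) ^ 2 * Real.cos (v * (t - s))).intervalIntegrable _ _)]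
    have e3 : v * (ℓ - s - s) = v * (ℓ - 2 * s) := by ring
    have e4 : v * (0 - s) = -(v * s) := by ring
    rw [e3, e4, Real.sin_neg, Real.cos_neg]
    ring
  rw [intervalIntegral.integral_congr h1]
  have hd : ∀ s ∈ Set.uIcc 0 ℓ, HasDerivAt (fun s => -Real.cos (v * (ℓ - 2 * s)) / v ^ 4 -
      (ℓ - s) ^ 2 * Real.cos (v * s) / v ^ 2 + 2 * Real.cos (v * s) / v ^ 4)
      ((ℓ - s) ^ 2 * Real.sin (v * s) / v + 2 * (ℓ - s) * Real.cos (v * s) / v ^ 2 -
        2 * Real.sin (v * s) / v ^ 3 - 2 * Real.sin (v * (ℓ - 2 * s)) / v ^ 3) s := by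
    intro s _
    have d1 : HasDerivAt (fun s : ℝ => ℓ - s) (-1) s := by
      simpa using (hasDerivAt_id s).const_sub ℓ
    have d2 : HasDerivAt (fun s : ℝ => v * s) v s := by
      simpa using (hasDerivAt_id s).const_mul v
    have d3 : HasDerivAt (fun s : ℝ => v * (ℓ - 2 * s)) (v * (-2)) s := by
      have := ((((hasDerivAt_id s).const_mul 2)).const_sub ℓ).const_mul v
      simpa using this
    have d4 := (Real.hasDerivAt_cos (v * s)).comp s d2
    have d5 := (Real.hasDerivAt_cos (v * (ℓ - 2 * s))).comp s d3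
    have d6 := ((d5.neg.div_const (v ^ 4)).sub (((d1.pow 2).mul d4).div_const (v ^ 2))).add
      ((d4.const_mul 2).div_const (v ^ 4))
    refine d6.congr_deriv ?_
    simp only [Function.comp, Pi.pow_apply]
    field_simp
    ring
  rw [intervalIntegral.integral_eq_sub_of_hasDerivAt hd ((by fun_prop : Continuous fun s : ℝ =>
    (ℓ - s) ^ 2 * Real.sin (v * s) / v + 2 * (ℓ - s) * Real.cos (v * s) / v ^ 2 -
        2 * Real.sin (v * s) / v ^ 3 - 2 * Real.sin (v * (ℓ - 2 * s)) / v ^ 3).intervalIntegrable _ _)]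
  have e3 : v * (ℓ - 2 * ℓ) = -(v * ℓ) := by ring
  rw [e3, Real.cos_neg]
  simp only [mul_zero, Real.cos_zero, sub_zero, sub_self]
  field_simp
  ring

end

end K1H48.SW
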