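import Pool.Agent.K1H48.SW.Co2
import Pool.Agent.K1H48.SW.Mob
import Pool.Agent.K1H48.SW.Nd1
import Mathlib.NumberTheory.LSeries.Dirichlet
import Mathlib.NumberTheory.LSeries.HurwitzZetaValues

set_option autoImplicit false

/-! The diagonal sum over reduced fractions, near the diagonal. -/

namespace K1H48.SW

open MeasureTheory Set Finset Filter
open Pool.Agent.Y969.GP

noncomputable section

/-! ### `∑ μ(d)/d² = 6/π²` -/

lemma mu_hasSum : HasSum (fun d : ℕ => ((ArithmeticFunction.moebius d : ℤ) : ℝ) / (d : ℝ) ^ 2) (6 / Real.pi ^ 2) := by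
  have h2 : 1 < (2 : ℂ).re := by norm_num
  have h1 := (ArithmeticFunction.LSeriesSummable_moebius_iff (s := 2)).2 h2
  have h3 := ArithmeticFunction.LSeries_zeta_mul_Lseries_moebius h2
  rw [ArithmeticFunction.LSeries_zeta_eq_riemannZeta h2, riemannZeta_two] at h3
  have h4 := h1.LSeriesHasSum
  unfold LSeriesHasSum at h4
  have hpi : (Real.pi : ℂ) ≠ 0 := by exact_mod_cast Real.pi_ne_zero
  have h5 : LSeries (fun n => ((ArithmeticFunction.moebius n : ℤ) : ℂ)) 2 = ((6 / Real.pi ^ 2 : ℝ) : ℂ) := by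
    push_cast
    field_simp at h3 ⊢
    linear_combination h3
  rw [h5] at h4
  have h6 : (fun n => LSeries.term (fun n => ((ArithmeticFunction.moebius n : ℤ) : ℂ)) 2 n) =
      fun d : ℕ => ((((ArithmeticFunction.moebius d : ℤ) : ℝ) / (d : ℝ) ^ 2 : ℝ) : ℂ) := by
    funext d
    rcases Nat.eq_zero_or_pos d with h | h
    · subst h; simp
    · rw [LSeries.term_of_ne_zero h.ne']
      push_cast
      congr 1
      norm_cast
  have h7 : HasSum (fun d : ℕ => ((((ArithmeticFunction.moebius d : ℤ) : ℝ) / (d : ℝ) ^ 2 : ℝ) : ℂ))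
      ((6 / Real.pi ^ 2 : ℝ) : ℂ) := by
    rw [← h6]; exact h4
  exact_mod_cast h7

lemma mu_lim {ε : ℝ} (hε : 0 < ε) : ∃ X₀ : ℕ, ∀ X : ℕ, X₀ ≤ X →
    |∑ d ∈ Finset.Icc 1 X, ((ArithmeticFunction.moebius d : ℤ) : ℝ) / (d : ℝ) ^ 2 - 6 / Real.pi ^ 2| ≤ ε := by
  have h1 := mu_hasSum.tendsto_sum_nat
  rw [Metric.tendsto_atTop] at h1
  obtain ⟨N, hN⟩ := h1 ε hε
  refine ⟨N, fun X hX => ?_⟩
  have h2 := hN (X + 1) (by omega)
  rw [Real.dist_eq] at h2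
  have e : ∑ d ∈ Finset.range (X + 1), ((ArithmeticFunction.moebius d : ℤ) : ℝ) / (d : ℝ) ^ 2 =
      ∑ d ∈ Finset.Icc 1 X, ((ArithmeticFunction.moebius d : ℤ) : ℝ) / (d : ℝ) ^ 2 := by
    rw [Finset.sum_range_succ']
    simp only [ArithmeticFunction.map_zero, Int.cast_zero, zero_div, add_zero]
    rw [Finset.sum_bij (fun i _ => i + 1)]
    · intro i hi
      rw [Finset.mem_range] at hi
      rw [Finset.mem_Icc]; omega
    · intro i _ j _ h; omega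
    · intro j hj
      rw [Finset.mem_Icc] at hj
      exact ⟨j - 1, by rw [Finset.mem_range]; omega, by omega⟩
    · intro i _; rfl
  rw [e] at h2
  exact h2.le

lemma log_sum : ∃ C : ℝ, 0 < C ∧ ∀ X : ℕ, ∑ d ∈ Finset.Icc 1 X, (1 + Real.log d) / (d : ℝ) ^ 2 ≤ C := by
  have h1 : Summable (fun d : ℕ => 1 / (d : ℝ) ^ (3 / 2 : ℝ)) := Real.summable_one_div_nat_rpow.2 (by norm_num)
  refine ⟨2 * ∑' d : ℕ, 1 / (d : ℝ) ^ (3 / 2 : ℝ) + 1, ?_, fun X => ?_⟩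
  · have : 0 ≤ ∑' d : ℕ, 1 / (d : ℝ) ^ (3 / 2 : ℝ) := tsum_nonneg fun _ => by positivity
    linarith
  · have h2 : ∀ d ∈ Finset.Icc 1 X, (1 + Real.log d) / (d : ℝ) ^ 2 ≤ 2 * (1 / (d : ℝ) ^ (3 / 2 : ℝ)) := by
      intro d hd
      rw [Finset.mem_Icc] at hd
      have hd1 : (1 : ℝ) ≤ d := by exact_mod_cast hd.1
      have hd0 : (0 : ℝ) < d := by linarith
      have h3 : 1 + Real.log d ≤ 2 * √d := by
        have h4 := Real.log_le_sub_one_of_pos (Real.sqrt_pos.2 hd0)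
        rw [Real.log_sqrt hd0.le] at h4
        linarith
      rw [mul_one_div, div_le_div_iff₀ (by positivity) (by positivity)]
      have h5 : (d : ℝ) ^ 2 = √d * (d : ℝ) ^ (3 / 2 : ℝ) := by
        rw [Real.sqrt_eq_rpow, ← Real.rpow_add hd0, ← Real.rpow_natCast]
        norm_num
      rw [h5]
      have h6 : 0 < (d : ℝ) ^ (3 / 2 : ℝ) := by positivity
      nlinarith
    refine (Finset.sum_le_sum h2).trans ?_
    rw [← Finset.mul_sum]
    have h3 := h1.sum_le_tsum (Finset.Icc 1 X) (fun _ _ => by positivity)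
    linarith

/-! ### the kernel as a function of its length -/

lemma Hh_zero (v : ℝ) : Hh 0 v = 0 := by unfold Hh; simp

lemma Hh_bd {ℓ v : ℝ} (hℓ : 0 ≤ ℓ) : |Hh ℓ v| ≤ ℓ ^ 4 := by
  unfold Hh
  have h2 := intervalIntegral.norm_integral_le_of_norm_le_const (a := 0) (b := ℓ) (C := ℓ ^ 3)
    (f := fun s => ∫ t in (0 : ℝ)..ℓ, ps ℓ v s t) (fun s hs => by
      rw [Set.uIoc_of_le hℓ] at hs
      exact inner_bd hℓ hs.1.le)
  rw [Real.norm_eq_abs, abs_of_nonneg (by linarith : 0 ≤ ℓ - 0)] at h2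
  refine h2.trans (le_of_eq (by ring))

lemma Hh_ext {ℓ ℓ' : ℝ} (v : ℝ) (h0 : 0 ≤ ℓ') (h : ℓ' ≤ ℓ) :
    Hh ℓ' v = ∫ s in (0 : ℝ)..ℓ, ∫ t in (0 : ℝ)..ℓ, ps ℓ' v s t := by
  have hc : ∀ s, Continuous (ps ℓ' v s) := fun s => (ps_cont2 ℓ' v).comp (by fun_prop : Continuous fun t : ℝ => (s, t))
  have e1 : ∀ s, 0 ≤ s → ∫ t in (0 : ℝ)..ℓ, ps ℓ' v s t = ∫ t in (0 : ℝ)..ℓ', ps ℓ' v s t := by
    intro s hs
    rw [← intervalIntegral.integral_add_adjacent_intervals (b := ℓ') ((hc s).intervalIntegrable _ _)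
      ((hc s).intervalIntegrable _ _)]
    have : ∫ t in ℓ'..ℓ, ps ℓ' v s t = 0 := by
      apply intervalIntegral.integral_zero_ae
      refine Filter.Eventually.of_forall fun t ht => ?_
      rw [Set.uIoc_of_le h] at ht
      unfold ps
      rw [max_eq_right (by linarith [ht.1])]
      ring
    rw [this, add_zero]
  have hc2 : Continuous (fun s => ∫ t in (0 : ℝ)..ℓ, ps ℓ' v s t) :=
    intervalIntegral.continuous_parametric_intervalIntegral_of_continuous' (ps_cont2 ℓ' v) 0 ℓ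
  rw [← intervalIntegral.integral_add_adjacent_intervals (b := ℓ') (hc2.intervalIntegrable _ _)
      (hc2.intervalIntegrable _ _)]
  have e2 : ∫ s in ℓ'..ℓ, ∫ t in (0 : ℝ)..ℓ, ps ℓ' v s t = 0 := by
    apply intervalIntegral.integral_zero_ae
    refine Filter.Eventually.of_forall fun s hs => ?_
    rw [Set.uIoc_of_le h] at hs
    apply intervalIntegral.integral_zero_ae
    refine Filter.Eventually.of_forall fun t ht => ?_
    rw [Set.uIoc_of_le (by linarith)] at ht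
    unfold ps
    rw [max_eq_right (by linarith [ht.1, hs.1])]
    ring
  rw [e2, add_zero]
  unfold Hh
  apply intervalIntegral.integral_congr
  intro s hs
  rw [Set.uIcc_of_le h0] at hs
  exact (e1 s hs.1).symm

lemma ps_len {ℓ ℓ' v s t : ℝ} (h0 : 0 ≤ ℓ') (h : ℓ' ≤ ℓ) (hs : 0 ≤ s) (ht : 0 ≤ t) :
    |ps ℓ v s t - ps ℓ' v s t| ≤ 2 * ℓ * (ℓ - ℓ') := by
  unfold ps
  obtain ⟨x, hx⟩ : ∃ x, x = max (ℓ - s - t) 0 := ⟨_, rfl⟩
  obtain ⟨y, hy⟩ : ∃ y, y = max (ℓ' - s - t) 0 := ⟨_, rfl⟩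
  rw [← hx, ← hy]
  have hx1 : x ≤ ℓ := by rw [hx]; exact max_le (by linarith) (by linarith)
  have hx0 : 0 ≤ x := by rw [hx]; exact le_max_right _ _
  have hy1 : y ≤ ℓ := by rw [hy]; exact max_le (by linarith) (by linarith)
  have hy0 : 0 ≤ y := by rw [hy]; exact le_max_right _ _
  have hxy : |x - y| ≤ ℓ - ℓ' := by
    rw [hx, hy]
    refine (abs_max_sub_max_le_abs _ _ _).trans (le_of_eq ?_)
    rw [show ℓ - s - t - (ℓ' - s - t) = ℓ - ℓ' by ring, abs_of_nonneg (by linarith)]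
  rw [← sub_mul, abs_mul]
  have e : x ^ 2 - y ^ 2 = (x - y) * (x + y) := by ring
  rw [e, abs_mul, abs_of_nonneg (by positivity : 0 ≤ x + y)]
  have h1 : |x - y| * (x + y) ≤ (ℓ - ℓ') * (2 * ℓ) := mul_le_mul hxy (by linarith) (by positivity) (by linarith)
  calc _ ≤ (ℓ - ℓ') * (2 * ℓ) * 1 := mul_le_mul h1 (Real.abs_cos_le_one _) (abs_nonneg _)
        (mul_nonneg (by linarith) (by linarith))
    _ = _ := by ring

lemma Hh_len {ℓ ℓ' v : ℝ} (h0 : 0 ≤ ℓ') (h : ℓ' ≤ ℓ) : |Hh ℓ v - Hh ℓ' v| ≤ 2 * ℓ ^ 3 * (ℓ - ℓ') := by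
  have hℓ : 0 ≤ ℓ := h0.trans h
  rw [Hh_ext v h0 h]
  unfold Hh
  have hc : ∀ ℓ s, Continuous (ps ℓ v s) := fun ℓ s => (ps_cont2 ℓ v).comp (by fun_prop : Continuous fun t : ℝ => (s, t))
  have hc2 : ∀ ℓ', Continuous (fun s => ∫ t in (0 : ℝ)..ℓ, ps ℓ' v s t) := fun ℓ' =>
    intervalIntegral.continuous_parametric_intervalIntegral_of_continuous' (ps_cont2 ℓ' v) 0 ℓ
  rw [← intervalIntegral.integral_sub ((hc2 ℓ).intervalIntegrable _ _) ((hc2 ℓ').intervalIntegrable _ _)]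
  have h2 := intervalIntegral.norm_integral_le_of_norm_le_const (a := 0) (b := ℓ) (C := 2 * ℓ ^ 2 * (ℓ - ℓ'))
    (f := fun s => (∫ t in (0 : ℝ)..ℓ, ps ℓ v s t) - ∫ t in (0 : ℝ)..ℓ, ps ℓ' v s t) (fun s hs => by
      rw [Set.uIoc_of_le hℓ] at hs
      rw [← intervalIntegral.integral_sub ((hc ℓ s).intervalIntegrable _ _) ((hc ℓ' s).intervalIntegrable _ _)]
      have h3 := intervalIntegral.norm_integral_le_of_norm_le_const (a := 0) (b := ℓ) (C := 2 * ℓ * (ℓ - ℓ'))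
        (f := fun t => ps ℓ v s t - ps ℓ' v s t) (fun t ht => by
          rw [Set.uIoc_of_le hℓ] at ht
          exact ps_len h0 h hs.1.le ht.1.le)
      rw [abs_of_nonneg (by linarith : 0 ≤ ℓ - 0)] at h3
      refine h3.trans (le_of_eq (by ring)))
  rw [Real.norm_eq_abs, abs_of_nonneg (by linarith : 0 ≤ ℓ - 0)] at h2
  refine h2.trans (le_of_eq (by ring))

/-! ### the sum over reduced fractions -/

/-- the model diagonal term -/
def Fd (L v : ℝ) (p : ℕ × ℕ) : ℝ := (max (L - Real.log (ht p)) 0) ^ 2 / ht p * Real.cos (v * lam p)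

lemma log_ht {p : ℕ × ℕ} (h1 : 1 ≤ p.1) (h2 : 1 ≤ p.2) : Real.log (ht p) = Real.log p.1 + Real.log p.2 := by
  unfold ht
  rw [Real.log_mul]
  · exact_mod_cast (by omega : p.1 ≠ 0)
  · exact_mod_cast (by omega : p.2 ≠ 0)

lemma Fd_mul {L v : ℝ} {d : ℕ} (hd : 1 ≤ d) {p : ℕ × ℕ} (h1 : 1 ≤ p.1) (h2 : 1 ≤ p.2) :
    Fd L v (d * p.1, d * p.2) = 1 / (d : ℝ) ^ 2 * Fd (L - 2 * Real.log d) v p := by
  have hd0 : (0 : ℝ) < d := by exact_mod_cast hd
  have hh := ht_pos h1 h2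
  have ha0 : (0 : ℝ) < p.1 := by exact_mod_cast h1
  have hb0 : (0 : ℝ) < p.2 := by exact_mod_cast h2
  unfold Fd
  rw [ht_mul, Real.log_mul (by positivity) hh.ne', Real.log_pow]
  have e1 : lam (d * p.1, d * p.2) = lam p := by
    unfold lam
    push_cast
    rw [Real.log_mul hd0.ne' hb0.ne', Real.log_mul hd0.ne' ha0.ne']
    ring
  rw [e1]
  have e2 : L - ((2 : ℕ) * Real.log d + Real.log (ht p)) = L - 2 * Real.log d - Real.log (ht p) := by push_cast; ring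
  rw [e2]
  field_simp

lemma Fd_zero {L v : ℝ} {p : ℕ × ℕ} (h : L ≤ Real.log (ht p)) : Fd L v p = 0 := by
  unfold Fd
  rw [max_eq_right (by linarith)]
  ring

lemma Fd_ps {L v : ℝ} {p : ℕ × ℕ} (h1 : 1 ≤ p.1) (h2 : 1 ≤ p.2) :
    Fd L v p = ps L v (Real.log p.1) (Real.log p.2) / (p.1 * p.2) := by
  unfold Fd ps
  rw [log_ht h1 h2]
  unfold ht lam
  rw [sub_sub]
  ring

lemma PS_sum {Y : ℝ} (hY : 1 ≤ Y) {M : ℕ} (hM : ⌊Y⌋₊ ≤ M) (v : ℝ) :
    ∑ p ∈ PS M, Fd (Real.log Y) v p =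
      ∑ a ∈ Finset.Icc 1 ⌊Y⌋₊, ∑ b ∈ Finset.Icc 1 ⌊Y⌋₊, ps (Real.log Y) v (Real.log a) (Real.log b) / (a * b) := by
  classical
  have hY0 : 0 < Y := by linarith
  rw [← Finset.sum_product']
  have e1 : ∑ p ∈ Finset.Icc 1 ⌊Y⌋₊ ×ˢ Finset.Icc 1 ⌊Y⌋₊, ps (Real.log Y) v (Real.log p.1) (Real.log p.2) / (p.1 * p.2) =
      ∑ p ∈ Finset.Icc 1 ⌊Y⌋₊ ×ˢ Finset.Icc 1 ⌊Y⌋₊, Fd (Real.log Y) v p := by
    refine Finset.sum_congr rfl fun p hp => ?_
    rw [Finset.mem_product, Finset.mem_Icc, Finset.mem_Icc] at hp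
    rw [Fd_ps hp.1.1 hp.2.1]
  rw [e1]
  have hz : ∀ p : ℕ × ℕ, 1 ≤ p.1 → 1 ≤ p.2 → ¬ (p.1 * p.2 ≤ ⌊Y⌋₊) → Fd (Real.log Y) v p = 0 := by
    intro p h1 h2 h3
    apply Fd_zero
    apply Real.log_le_log hY0
    have h4 : ⌊Y⌋₊ < p.1 * p.2 := by omega
    have h5 := Nat.lt_of_floor_lt h4
    unfold ht
    push_cast at h5
    exact h5.le
  have h1 : ∑ p ∈ PS M, Fd (Real.log Y) v p = ∑ p ∈ (PS M).filter (fun p => p.1 * p.2 ≤ ⌊Y⌋₊), Fd (Real.log Y) v p := by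
    symm
    apply Finset.sum_subset (Finset.filter_subset _ _)
    intro p hp hp2
    rw [Finset.mem_filter, not_and] at hp2
    have h3 := hp2 hp
    rw [PS_iff] at hp
    exact hz p hp.1 hp.2.1 h3
  have h2 : ∑ p ∈ Finset.Icc 1 ⌊Y⌋₊ ×ˢ Finset.Icc 1 ⌊Y⌋₊, Fd (Real.log Y) v p =
      ∑ p ∈ (Finset.Icc 1 ⌊Y⌋₊ ×ˢ Finset.Icc 1 ⌊Y⌋₊).filter (fun p => p.1 * p.2 ≤ ⌊Y⌋₊), Fd (Real.log Y) v p := by
    symm
    apply Finset.sum_subset (Finset.filter_subset _ _)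
    intro p hp hp2
    rw [Finset.mem_filter, not_and] at hp2
    have h3 := hp2 hp
    rw [Finset.mem_product, Finset.mem_Icc, Finset.mem_Icc] at hp
    exact hz p hp.1.1 hp.2.1 h3
  rw [h1, h2]
  congr 1
  ext p
  rw [Finset.mem_filter, Finset.mem_filter, PS_iff, Finset.mem_product, Finset.mem_Icc, Finset.mem_Icc]
  constructor
  · rintro ⟨⟨a1, a2, a3⟩, a4⟩
    refine ⟨⟨⟨a1, ?_⟩, ⟨a2, ?_⟩⟩, a4⟩
    · exact (Nat.le_mul_of_pos_right _ a2).trans a4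
    · exact (Nat.le_mul_of_pos_left _ a1).trans a4
  · rintro ⟨⟨⟨a1, _⟩, ⟨a2, _⟩⟩, a4⟩
    exact ⟨⟨a1, a2, a4.trans hM⟩, a4⟩

/-- the term of one `d` -/
lemma one_d {T v : ℝ} (hT : 1 ≤ T) (hv : |v| ≤ 1) {X d : ℕ} (hX : T ≤ X) (hd : 1 ≤ d) :
    |∑ p ∈ PS (X / (d * d)), Fd (Real.log T) v (d * p.1, d * p.2) - 1 / (d : ℝ) ^ 2 * Hh (Real.log T) v| ≤
      24 * (1 + Real.log T) ^ 3 * ((1 + Real.log d) / (d : ℝ) ^ 2) := by
  have hT0 : 0 < T := by linarith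
  have hd1 : (1 : ℝ) ≤ d := by exact_mod_cast hd
  have hd0 : (0 : ℝ) < d := by linarith
  have hld := Real.log_nonneg hd1
  have hL := Real.log_nonneg hT
  have e1 : ∑ p ∈ PS (X / (d * d)), Fd (Real.log T) v (d * p.1, d * p.2) =
      1 / (d : ℝ) ^ 2 * ∑ p ∈ PS (X / (d * d)), Fd (Real.log T - 2 * Real.log d) v p := by
    rw [Finset.mul_sum]
    refine Finset.sum_congr rfl fun p hp => ?_
    rw [PS_iff] at hp
    exact Fd_mul hd hp.1 hp.2.1
  have e2 : Real.log T - 2 * Real.log d = Real.log (T / (d : ℝ) ^ 2) := by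
    rw [Real.log_div hT0.ne' (by positivity), Real.log_pow]
    push_cast
    ring
  have key : |∑ p ∈ PS (X / (d * d)), Fd (Real.log T - 2 * Real.log d) v p - Hh (Real.log T) v| ≤
      24 * (1 + Real.log T) ^ 3 * (1 + Real.log d) := by
    by_cases hY : 1 ≤ T / (d : ℝ) ^ 2
    · have hfl : ⌊T / (d : ℝ) ^ 2⌋₊ ≤ X / (d * d) := by
        rw [Nat.le_div_iff_mul_le (Nat.mul_pos hd hd)]
        have h1 : (⌊T / (d : ℝ) ^ 2⌋₊ : ℝ) ≤ T / (d : ℝ) ^ 2 := Nat.floor_le (by positivity)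
        rw [le_div_iff₀ (by positivity)] at h1
        have h2 : ((⌊T / (d : ℝ) ^ 2⌋₊ * (d * d) : ℕ) : ℝ) ≤ X := by
          push_cast
          nlinarith
        exact_mod_cast h2
      have h3 := dbl (v := v) hY hv
      rw [e2, PS_sum hY hfl]
      have h0 : 0 ≤ Real.log (T / (d : ℝ) ^ 2) := Real.log_nonneg hY
      have h4 : Real.log (T / (d : ℝ) ^ 2) ≤ Real.log T := by rw [← e2]; linarith
      have h5 := Hh_len (v := v) h0 h4
      have h6 : (1 + Real.log (T / (d : ℝ) ^ 2)) ^ 3 ≤ (1 + Real.log T) ^ 3 :=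
        pow_le_pow_left₀ (by linarith) (by linarith) 3
      have h7 : 2 * Real.log T ^ 3 * (Real.log T - Real.log (T / (d : ℝ) ^ 2)) ≤ 4 * (1 + Real.log T) ^ 3 * Real.log d := by
        rw [← e2]
        have h8 : Real.log T ^ 3 ≤ (1 + Real.log T) ^ 3 := pow_le_pow_left₀ hL (by linarith) 3
        have : Real.log T ^ 3 * Real.log d ≤ (1 + Real.log T) ^ 3 * Real.log d := mul_le_mul_of_nonneg_right h8 hld
        linarith
      have h9 : 0 ≤ (1 + Real.log T) ^ 3 * Real.log d := by positivity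
      have h10 := abs_sub_le (∑ a ∈ Finset.Icc 1 ⌊T / (d : ℝ) ^ 2⌋₊, ∑ b ∈ Finset.Icc 1 ⌊T / (d : ℝ) ^ 2⌋₊,
        ps (Real.log (T / (d : ℝ) ^ 2)) v (Real.log a) (Real.log b) / (a * b)) (Hh (Real.log (T / (d : ℝ) ^ 2)) v)
        (Hh (Real.log T) v)
      rw [abs_sub_comm (Hh (Real.log (T / (d : ℝ) ^ 2)) v)] at h10
      have h11 : 0 ≤ (1 + Real.log T) ^ 3 := by positivity
      linarith
    · push Not at hY
      have h1 : ∑ p ∈ PS (X / (d * d)), Fd (Real.log T - 2 * Real.log d) v p = 0 := by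
        apply Finset.sum_eq_zero
        intro p hp
        rw [PS_iff] at hp
        apply Fd_zero
        rw [e2]
        exact (Real.log_nonpos (by positivity) hY.le).trans (Real.log_nonneg (ht_one_le hp.1 hp.2.1))
      rw [h1, zero_sub, abs_neg]
      have h2 := Hh_len (v := v) le_rfl hL
      rw [Hh_zero, sub_zero, sub_zero] at h2
      have h3 : Real.log T ≤ 2 * Real.log d := by
        have h4 := Real.log_nonpos (by positivity) hY.le
        rw [← e2] at h4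
        linarith
      have h8 : Real.log T ^ 3 ≤ (1 + Real.log T) ^ 3 := pow_le_pow_left₀ hL (by linarith) 3
      have h9 : Real.log T ^ 3 * Real.log T ≤ (1 + Real.log T) ^ 3 * (2 * Real.log d) :=
        mul_le_mul h8 h3 hL (by positivity)
      have h10 : 0 ≤ (1 + Real.log T) ^ 3 * Real.log d := by positivity
      have h11 : 0 ≤ (1 + Real.log T) ^ 3 := by positivity
      nlinarith
  rw [e1, ← mul_sub, abs_mul, abs_of_pos (by positivity : (0 : ℝ) < 1 / (d : ℝ) ^ 2)]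
  refine (mul_le_mul_of_nonneg_left key (by positivity)).trans (le_of_eq ?_)
  ring

theorem nd2 {ε : ℝ} (hε : 0 < ε) : ∃ T₀ : ℝ, 1 ≤ T₀ ∧ ∀ T : ℝ, T₀ ≤ T → ∀ X : ℕ, T ≤ X → ∀ v : ℝ, |v| ≤ 1 →
    |∑ p ∈ FR X, Fd (Real.log T) v p - 6 / Real.pi ^ 2 * Hh (Real.log T) v| ≤ ε * (1 + Real.log T) ^ 4 := by
  obtain ⟨C, hC, hCs⟩ := log_sum
  obtain ⟨X₀, hX₀⟩ := mu_lim (half_pos hε)
  refine ⟨max 1 (max X₀ (Real.exp (48 * C / ε))), le_max_left _ _, fun T hT X hX v hv => ?_⟩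
  have hT1 : 1 ≤ T := (le_max_left _ _).trans hT
  have hT2 : (X₀ : ℝ) ≤ T := ((le_max_left _ _).trans (le_max_right _ _)).trans hT
  have hT3 : Real.exp (48 * C / ε) ≤ T := ((le_max_right _ _).trans (le_max_right _ _)).trans hT
  have hT0 : 0 < T := by linarith
  have hL := Real.log_nonneg hT1
  have hLC : 48 * C / ε ≤ Real.log T := by
    rw [← Real.log_exp (48 * C / ε)]
    exact Real.log_le_log (Real.exp_pos _) hT3
  have hXX : X₀ ≤ X := by
    have : (X₀ : ℝ) ≤ X := hT2.trans hX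
    exact_mod_cast this
  have h1 := hX₀ X hXX
  rw [mob X (Fd (Real.log T) v)]
  have h2 : |∑ d ∈ Finset.Icc 1 X, ((ArithmeticFunction.moebius d : ℤ) : ℝ) *
      ∑ p ∈ PS (X / (d * d)), Fd (Real.log T) v (d * p.1, d * p.2) -
      (∑ d ∈ Finset.Icc 1 X, ((ArithmeticFunction.moebius d : ℤ) : ℝ) / (d : ℝ) ^ 2) * Hh (Real.log T) v| ≤
      24 * (1 + Real.log T) ^ 3 * C := by
    rw [Finset.sum_mul, ← Finset.sum_sub_distrib]
    refine (Finset.abs_sum_le_sum_abs _ _).trans ?_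
    have h3 : ∀ d ∈ Finset.Icc 1 X, |((ArithmeticFunction.moebius d : ℤ) : ℝ) *
        ∑ p ∈ PS (X / (d * d)), Fd (Real.log T) v (d * p.1, d * p.2) -
        ((ArithmeticFunction.moebius d : ℤ) : ℝ) / (d : ℝ) ^ 2 * Hh (Real.log T) v| ≤
        24 * (1 + Real.log T) ^ 3 * ((1 + Real.log d) / (d : ℝ) ^ 2) := by
      intro d hd
      rw [Finset.mem_Icc] at hd
      have h4 := one_d hT1 hv hX hd.1
      have e : ((ArithmeticFunction.moebius d : ℤ) : ℝ) *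
        ∑ p ∈ PS (X / (d * d)), Fd (Real.log T) v (d * p.1, d * p.2) -
        ((ArithmeticFunction.moebius d : ℤ) : ℝ) / (d : ℝ) ^ 2 * Hh (Real.log T) v =
        ((ArithmeticFunction.moebius d : ℤ) : ℝ) * (∑ p ∈ PS (X / (d * d)), Fd (Real.log T) v (d * p.1, d * p.2) -
        1 / (d : ℝ) ^ 2 * Hh (Real.log T) v) := by ring
      rw [e, abs_mul]
      have h5 : |((ArithmeticFunction.moebius d : ℤ) : ℝ)| ≤ 1 := by
        exact_mod_cast ArithmeticFunction.abs_moebius_le_one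
      calc _ ≤ 1 * |∑ p ∈ PS (X / (d * d)), Fd (Real.log T) v (d * p.1, d * p.2) -
          1 / (d : ℝ) ^ 2 * Hh (Real.log T) v| := mul_le_mul_of_nonneg_right h5 (abs_nonneg _)
        _ ≤ _ := by rw [one_mul]; exact h4
    refine (Finset.sum_le_sum h3).trans ?_
    rw [← Finset.mul_sum]
    exact mul_le_mul_of_nonneg_left (hCs X) (by positivity)
  have h3 : |(∑ d ∈ Finset.Icc 1 X, ((ArithmeticFunction.moebius d : ℤ) : ℝ) / (d : ℝ) ^ 2) * Hh (Real.log T) v -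
      6 / Real.pi ^ 2 * Hh (Real.log T) v| ≤ ε / 2 * (1 + Real.log T) ^ 4 := by
    rw [← sub_mul, abs_mul]
    apply mul_le_mul h1 _ (abs_nonneg _) (by positivity)
    exact (Hh_bd hL).trans (pow_le_pow_left₀ hL (by linarith) 4)
  have h4 : 24 * (1 + Real.log T) ^ 3 * C ≤ ε / 2 * (1 + Real.log T) ^ 4 := by
    rw [div_le_iff₀ hε] at hLC
    have : 0 ≤ (1 + Real.log T) ^ 3 := by positivity
    have h5 : 24 * C ≤ ε / 2 * (1 + Real.log T) := by nlinarith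
    calc _ = (1 + Real.log T) ^ 3 * (24 * C) := by ring
      _ ≤ (1 + Real.log T) ^ 3 * (ε / 2 * (1 + Real.log T)) := mul_le_mul_of_nonneg_left h5 this
      _ = _ := by ring
  refine (abs_sub_le _ ((∑ d ∈ Finset.Icc 1 X, ((ArithmeticFunction.moebius d : ℤ) : ℝ) / (d : ℝ) ^ 2) *
    Hh (Real.log T) v) _).trans ?_
  linarith

end

end K1H48.SW
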