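import Pool.Agent.K1H48.SW.Asm
import Pool.Agent.K1H48.SW.Wg
import Pool.Agent.K1H48.SW.Nd2

set_option autoImplicit false

/-! The correlation of `|ζ|²` with itself near the diagonal. -/

namespace K1H48.SW

open MeasureTheory Set Finset Filter
open Pool.Agent.Y969.GP

noncomputable section

/-- the mass of a weight -/
def wh (W : ℝ → ℝ) : ℝ := ∫ s in (1 / 2 : ℝ)..4, W s

lemma wh_eq (W : ℝ → ℝ) {T : ℝ} (hT : 0 < T) : (∫ c in T / 2..4 * T, W (c / T)) / T = wh W := by
  rw [intervalIntegral.integral_comp_div W hT.ne']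
  unfold wh
  have e1 : T / 2 / T = 1 / 2 := by field_simp
  have e2 : 4 * T / T = 4 := by field_simp
  rw [e1, e2, smul_eq_mul]
  field_simp

lemma wh_nonneg {KW : ℝ} {W W1 W2 : ℝ → ℝ} (hW : Wgt KW W W1 W2) : 0 ≤ wh W := by
  unfold wh
  exact intervalIntegral.integral_nonneg (by norm_num) fun s _ => hW.nn s

lemma wh_le {KW : ℝ} {W W1 W2 : ℝ → ℝ} (hW : Wgt KW W W1 W2) : wh W ≤ 4 * KW := by
  unfold wh
  have h2 := intervalIntegral.norm_integral_le_of_norm_le_const (a := (1 / 2 : ℝ)) (b := 4) (C := KW)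
    (f := W) (fun s hs => by
      rw [Set.uIoc_of_le (by norm_num)] at hs
      exact (hW.b s ⟨hs.1.le, hs.2⟩).1)
  rw [Real.norm_eq_abs, abs_of_nonneg (by norm_num : (0 : ℝ) ≤ 4 - 1 / 2)] at h2
  have h3 := le_abs_self (∫ s in (1 / 2 : ℝ)..4, W s)
  have := hW.one
  linarith

/-- comparison of a diagonal term with a constant multiple of the mass -/
lemma DW_const {KW : ℝ} {W W1 W2 : ℝ → ℝ} (hW : Wgt KW W W1 W2) {T h A E : ℝ} (hT : 0 < T) (_hh : 0 < h) {F G : ℝ → ℝ}
    (hF : ContinuousOn F (Icc (T / 2) (4 * T))) (hG : ContinuousOn G (Icc (T / 2) (4 * T)))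
    (hE : ∀ c ∈ Icc (T / 2) (4 * T), |h * (F c * G c) - A| ≤ E) :
    |h * DW W T F G - wh W * A| ≤ 4 * KW * E := by
  have hKW : 0 ≤ KW := by linarith [hW.one]
  have hle : T / 2 ≤ 4 * T := by linarith
  have hE0 : 0 ≤ E := (abs_nonneg _).trans (hE T ⟨by linarith, by linarith⟩)
  have hw := hW.amp hT
  have hwc : Continuous (fun c => W (c / T)) := by
    have := hW.c0
    fun_prop
  have i1 : IntervalIntegrable (fun c => W (c / T) * (F c * G c)) volume (T / 2) (4 * T) := by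
    apply ContinuousOn.intervalIntegrable
    rw [Set.uIcc_of_le hle]
    exact hwc.continuousOn.mul (hF.mul hG)
  have i2 : IntervalIntegrable (fun c => W (c / T)) volume (T / 2) (4 * T) := hwc.intervalIntegrable _ _
  have e1 : h * DW W T F G - wh W * A = (∫ c in T / 2..4 * T, W (c / T) * (h * (F c * G c) - A)) / T := by
    rw [← wh_eq W hT]
    unfold DW
    rw [mul_div_assoc', div_mul_eq_mul_div, ← sub_div]
    congr 1
    rw [← intervalIntegral.integral_const_mul, ← intervalIntegral.integral_mul_const,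
      ← intervalIntegral.integral_sub (i1.const_mul h) (i2.mul_const A)]
    apply intervalIntegral.integral_congr
    intro c _
    simp only
    ring
  rw [e1, abs_div, abs_of_pos hT, div_le_iff₀ hT]
  have h2 := intervalIntegral.norm_integral_le_of_norm_le_const (a := T / 2) (b := 4 * T) (C := KW * E)
    (f := fun c => W (c / T) * (h * (F c * G c) - A)) (fun c hc => by
      rw [Set.uIoc_of_le hle] at hc
      rw [norm_mul, Real.norm_eq_abs, Real.norm_eq_abs]
      exact mul_le_mul (hw.b0 c ⟨hc.1.le, hc.2⟩) (hE c ⟨hc.1.le, hc.2⟩) (abs_nonneg _) hKW)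
  rw [Real.norm_eq_abs, abs_of_nonneg (by linarith : 0 ≤ 4 * T - T / 2)] at h2
  refine h2.trans ?_
  have : 0 ≤ KW * E * T := by positivity
  nlinarith

theorem nd1 {KW : ℝ} {W W1 W2 : ℝ → ℝ} (hW : Wgt KW W W1 W2) : ∃ C T₀ : ℝ, 0 < C ∧ 1 ≤ T₀ ∧ ∀ T : ℝ, T₀ ≤ T →
    ∀ p ∈ FR (2 ^ JT T), |DW W T (cr (2 ^ JT T) p) (cr (2 ^ JT T) p) -
      wh W * ((max (Real.log T - Real.log (ht p)) 0) ^ 2 / ht p)| ≤ C * (1 + Real.log T) / ht p := by
  obtain ⟨C, hC, h⟩ := cr_low
  obtain ⟨K, hK, hfam⟩ := fam_f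
  have hKW : 0 < KW := by linarith [hW.one]
  have hpi := Real.pi_gt_three
  have hpi4 := Real.pi_lt_four
  have hpi0 := Real.pi_pos
  have hl2 := Real.log_two_lt_d9
  have hl2' := Real.log_two_gt_d9
  refine ⟨4 * KW * (2 * (C + 5) + (C + 5) ^ 2) + (64 * KW * (K * K) + 64 * KW), 4, by positivity, by norm_num,
    fun T hT p hp => ?_⟩
  have hT0 : 0 < T := by linarith
  have hL : 0 ≤ Real.log T := Real.log_nonneg (by linarith)
  have hp' := hp
  rw [FR_iff] at hp
  obtain ⟨h1, h2, h3, h4⟩ := hp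
  have hh := ht_pos h1 h2
  have hh1 := ht_one_le h1 h2
  have hlh : 0 ≤ Real.log (ht p) := Real.log_nonneg hh1
  rw [le_div_iff₀ hh]
  have e0 : |DW W T (cr (2 ^ JT T) p) (cr (2 ^ JT T) p) -
      wh W * ((max (Real.log T - Real.log (ht p)) 0) ^ 2 / ht p)| * ht p =
      |ht p * DW W T (cr (2 ^ JT T) p) (cr (2 ^ JT T) p) - wh W * (max (Real.log T - Real.log (ht p)) 0) ^ 2| := by
    rw [← abs_of_pos hh, ← abs_mul, abs_of_pos hh]
    congr 1
    field_simp
  rw [e0]
  have hlog4pi : Real.log (4 * Real.pi) ≤ 3 := by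
    have : Real.log (4 * Real.pi) ≤ Real.log (2 ^ 4) := Real.log_le_log (by positivity) (by linarith)
    rw [Real.log_pow] at this
    push_cast at this
    linarith
  by_cases hbig : 4 * Real.pi * ht p ≤ T
  · have hΛ : Real.log (4 * Real.pi) ≤ Real.log T - Real.log (ht p) := by
      rw [← Real.log_div hT0.ne' hh.ne']
      apply Real.log_le_log (by positivity)
      rw [le_div_iff₀ hh]; exact hbig
    have h4p : 0 ≤ Real.log (4 * Real.pi) := Real.log_nonneg (by linarith)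
    have hΛ0 : 0 ≤ Real.log T - Real.log (ht p) := by linarith
    rw [max_eq_left hΛ0]
    have hcr : ContinuousOn (cr (2 ^ JT T) p) (Icc (T / 2) (4 * T)) := by
      intro u hu
      exact (cr_deriv _ h1 h2 (lt_of_lt_of_le (by linarith) hu.1)).continuousAt.continuousWithinAt
    have key := DW_const hW hT0 hh hcr hcr (A := (Real.log T - Real.log (ht p)) ^ 2)
      (E := (2 * (C + 5) + (C + 5) ^ 2) * (1 + Real.log T)) (fun c hc => by
        have hc0 : 0 < c := by linarith [hc.1]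
        have hcast : ((2 ^ JT T : ℕ) : ℝ) = 2 ^ JT T := by push_cast; rfl
        have a1 : c ≤ ((2 ^ JT T : ℕ) : ℝ) := by
          rw [hcast]
          have := JT_pow (T := T) (by linarith)
          nlinarith [hc.2]
        have a2 : 2 * Real.pi * ht p ≤ c := by linarith [hc.1]
        have h6 := h (2 ^ JT T) p c h1 h2 a2 a1
        obtain ⟨x, hx⟩ : ∃ x, x = √(ht p) * cr (2 ^ JT T) p c := ⟨_, rfl⟩
        rw [← hx] at h6
        have hxx : ht p * (cr (2 ^ JT T) p c * cr (2 ^ JT T) p c) = x ^ 2 := by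
          rw [hx, mul_pow, Real.sq_sqrt hh.le]
          ring
        rw [hxx]
        have a3 : |Real.log c - Real.log (2 * Real.pi * ht p) - (Real.log T - Real.log (ht p))| ≤ 5 := by
          rw [Real.log_mul (by positivity) hh.ne']
          have b1 : Real.log (T / 2) ≤ Real.log c := Real.log_le_log (by linarith) hc.1
          rw [Real.log_div hT0.ne' (by norm_num)] at b1
          have b2 : Real.log c ≤ Real.log (4 * T) := Real.log_le_log hc0 hc.2
          rw [Real.log_mul (by norm_num) hT0.ne', show (4 : ℝ) = 2 ^ 2 by norm_num, Real.log_pow] at b2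
          push_cast at b2
          have b3 : 0 ≤ Real.log (2 * Real.pi) := Real.log_nonneg (by linarith)
          have b4 : Real.log (2 * Real.pi) ≤ Real.log (4 * Real.pi) := Real.log_le_log (by positivity) (by linarith)
          rw [abs_le]
          constructor <;> linarith
        have a4 : |x - (Real.log T - Real.log (ht p))| ≤ C + 5 := by
          have e : x - (Real.log T - Real.log (ht p)) = (x - (Real.log c - Real.log (2 * Real.pi * ht p))) +
            (Real.log c - Real.log (2 * Real.pi * ht p) - (Real.log T - Real.log (ht p))) := by ring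
          rw [e]
          exact (abs_add_le _ _).trans (add_le_add h6 a3)
        obtain ⟨Λ, hΛe⟩ : ∃ Λ, Λ = Real.log T - Real.log (ht p) := ⟨_, rfl⟩
        rw [← hΛe] at a4 hΛ0 ⊢
        have hΛL : Λ ≤ Real.log T := by rw [hΛe]; linarith
        have e : x ^ 2 - Λ ^ 2 = (x - Λ) * (x - Λ) + (x - Λ) * (2 * Λ) := by ring
        rw [e]
        refine (abs_add_le _ _).trans ?_
        rw [abs_mul, abs_mul, abs_of_nonneg (by linarith : 0 ≤ 2 * Λ)]
        have b1 : |x - Λ| * |x - Λ| ≤ (C + 5) * (C + 5) := mul_le_mul a4 a4 (abs_nonneg _) (by positivity)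
        have b2 : |x - Λ| * (2 * Λ) ≤ (C + 5) * (2 * Real.log T) := mul_le_mul a4 (by linarith) (by linarith) (by positivity)
        have b3 : 0 ≤ (C + 5) ^ 2 * Real.log T := by positivity
        have b4 : 0 ≤ (C + 5) := by positivity
        nlinarith)
    refine key.trans ?_
    have : 0 ≤ (64 * KW * (K * K) + 64 * KW) * (1 + Real.log T) := by positivity
    nlinarith
  · push Not at hbig
    have hbet : ht p * bet T p ^ 2 ≤ 16 := by
      unfold bet
      rw [mul_pow, inv_pow, Real.sq_sqrt hh.le, ← mul_assoc, mul_inv_cancel₀ hh.ne', one_mul]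
      have c1 : SW.W (T / ht p) ≤ SW.W (4 * Real.pi) := by
        apply W_mono (by positivity)
        rw [div_le_iff₀ hh]; exact hbig.le
      rw [W_ge (z := 4 * Real.pi) (by linarith)] at c1
      have c2 : 0 ≤ SW.W (T / ht p) := W_nonneg (by positivity)
      nlinarith
    have h5 := DW_fam hW hT0 hK.le (hfam (JT T) T hT0) (hfam (JT T) T hT0) hp'
    have h6 : |ht p * DW W T (cr (2 ^ JT T) p) (cr (2 ^ JT T) p)| ≤ 64 * KW * (K * K) := by
      rw [abs_mul, abs_of_pos hh]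
      calc _ ≤ ht p * (4 * KW * (K * K) * bet T p ^ 2) := mul_le_mul_of_nonneg_left h5 hh.le
        _ = 4 * KW * (K * K) * (ht p * bet T p ^ 2) := by ring
        _ ≤ 4 * KW * (K * K) * 16 := mul_le_mul_of_nonneg_left hbet (by positivity)
        _ = _ := by ring
    have h7 : |wh W * (max (Real.log T - Real.log (ht p)) 0) ^ 2| ≤ 64 * KW := by
      have c1 : max (Real.log T - Real.log (ht p)) 0 ≤ 3 := by
        apply max_le _ (by norm_num)
        rw [← Real.log_div hT0.ne' hh.ne']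
        refine le_trans (Real.log_le_log (by positivity) ?_) hlog4pi
        rw [div_le_iff₀ hh]; exact hbig.le
      have c2 : 0 ≤ max (Real.log T - Real.log (ht p)) 0 := le_max_right _ _
      have c3 := wh_nonneg hW
      have c4 := wh_le hW
      rw [abs_of_nonneg (by positivity)]
      calc _ ≤ 4 * KW * 3 ^ 2 := mul_le_mul c4 (pow_le_pow_left₀ c2 c1 2) (by positivity) (by positivity)
        _ ≤ _ := by linarith
    refine (abs_sub _ _).trans ?_
    have h8 : 64 * KW * (K * K) + 64 * KW ≤ (64 * KW * (K * K) + 64 * KW) * (1 + Real.log T) := by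
      have : 0 ≤ (64 * KW * (K * K) + 64 * KW) * Real.log T := by positivity
      linarith
    have h9 : 0 ≤ 4 * KW * (2 * (C + 5) + (C + 5) ^ 2) * (1 + Real.log T) := by positivity
    linarith

lemma ht_sum (J : ℕ) : ∑ p ∈ FR (2 ^ J), 1 / ht p ≤ ((J : ℝ) + 1) ^ 2 := by
  have h1 : FR (2 ^ J) ⊆ Finset.Icc 1 (2 ^ J) ×ˢ Finset.Icc 1 (2 ^ J) := by
    intro p hp
    unfold FR PS at hp
    exact (Finset.mem_filter.1 (Finset.mem_filter.1 hp).1).1
  refine (Finset.sum_le_sum_of_subset_of_nonneg h1 (fun p _ _ => by unfold ht; positivity)).trans ?_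
  rw [Finset.sum_product]
  have h2 : ∀ a ∈ Finset.Icc 1 (2 ^ J), ∑ b ∈ Finset.Icc 1 (2 ^ J), 1 / ht (a, b) =
      1 / (a : ℝ) * ∑ b ∈ Finset.Icc (1 : ℕ) (2 ^ J), 1 / (b : ℝ) := by
    intro a _
    rw [Finset.mul_sum]
    refine Finset.sum_congr rfl fun b _ => ?_
    unfold ht
    rw [div_mul_div_comm, one_mul]
  rw [Finset.sum_congr rfl h2, ← Finset.sum_mul]
  have h3 := harm_le (2 ^ J)
  have h4 : 1 + Real.log ((2 ^ J : ℕ) : ℝ) ≤ (J : ℝ) + 1 := by
    push_cast
    rw [Real.log_pow]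
    have hl2 := Real.log_two_lt_d9
    have : (0 : ℝ) ≤ J := Nat.cast_nonneg _
    nlinarith
  have h5 : 0 ≤ ∑ b ∈ Finset.Icc (1 : ℕ) (2 ^ J), 1 / (b : ℝ) := Finset.sum_nonneg fun _ _ => by positivity
  rw [sq]
  exact mul_le_mul (h3.trans h4) (h3.trans h4) h5 (by positivity)

lemma Cm_re (J : ℕ) (D : ℕ × ℕ → ℝ) (v : ℝ) : (Cm J D v).re = ∑ p ∈ FR (2 ^ J), D p * Real.cos (v * lam p) := by
  unfold Cm
  rw [Complex.re_sum]
  refine Finset.sum_congr rfl fun p _ => ?_
  rw [Complex.re_ofReal_mul, ex_re, Complex.add_re, Complex.ofReal_re, Complex.re_ofReal_mul, Complex.I_re,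
    mul_zero, add_zero]

/-- the correlation near the diagonal -/
theorem near_ff {KW : ℝ} {W W1 W2 : ℝ → ℝ} (hW : Wgt KW W W1 W2) {ε : ℝ} (hε : 0 < ε) : ∃ T₀ : ℝ, 1 ≤ T₀ ∧
    ∀ T : ℝ, T₀ ≤ T → ∀ v : ℝ, |v| ≤ 1 →
    |(Cm (JT T) (fun p => DW W T (cr (2 ^ JT T) p) (cr (2 ^ JT T) p)) v).re -
      wh W * (6 / Real.pi ^ 2 * Hh (Real.log T) v)| ≤ ε * (1 + Real.log T) ^ 4 := by
  obtain ⟨C, T₁, hC, hT₁, h1⟩ := nd1 hW
  have hKW1 := hW.one
  have hKW : 0 < KW := by linarith
  obtain ⟨T₂, hT₂, h2⟩ := nd2 (ε := ε / (8 * KW)) (by positivity)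
  refine ⟨max T₁ (max T₂ (Real.exp (18 * C / ε))), hT₁.trans (le_max_left _ _), fun T hT v hv => ?_⟩
  have hTa : T₁ ≤ T := (le_max_left _ _).trans hT
  have hTb : T₂ ≤ T := ((le_max_left _ _).trans (le_max_right _ _)).trans hT
  have hTc : Real.exp (18 * C / ε) ≤ T := ((le_max_right _ _).trans (le_max_right _ _)).trans hT
  have hT1 : 1 ≤ T := hT₁.trans hTa
  have hT0 : 0 < T := by linarith
  have hL := Real.log_nonneg hT1
  have hLC : 18 * C / ε ≤ Real.log T := by
    rw [← Real.log_exp (18 * C / ε)]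
    exact Real.log_le_log (Real.exp_pos _) hTc
  have hX : T ≤ ((2 ^ JT T : ℕ) : ℝ) := by
    push_cast
    have := JT_pow hT1
    nlinarith
  have h3 := h2 T hTb (2 ^ JT T) hX v hv
  have h4 := h1 T hTa
  rw [Cm_re]
  have h5 : |∑ p ∈ FR (2 ^ JT T), DW W T (cr (2 ^ JT T) p) (cr (2 ^ JT T) p) * Real.cos (v * lam p) -
      wh W * ∑ p ∈ FR (2 ^ JT T), Fd (Real.log T) v p| ≤ C * (1 + Real.log T) * (3 * (1 + Real.log T)) ^ 2 := by
    rw [Finset.mul_sum, ← Finset.sum_sub_distrib]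
    refine (Finset.abs_sum_le_sum_abs _ _).trans ?_
    have h6 : ∀ p ∈ FR (2 ^ JT T), |DW W T (cr (2 ^ JT T) p) (cr (2 ^ JT T) p) * Real.cos (v * lam p) -
        wh W * Fd (Real.log T) v p| ≤ C * (1 + Real.log T) * (1 / ht p) := by
      intro p hp
      have e : DW W T (cr (2 ^ JT T) p) (cr (2 ^ JT T) p) * Real.cos (v * lam p) - wh W * Fd (Real.log T) v p =
          (DW W T (cr (2 ^ JT T) p) (cr (2 ^ JT T) p) -
          wh W * ((max (Real.log T - Real.log (ht p)) 0) ^ 2 / ht p)) * Real.cos (v * lam p) := by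
        unfold Fd; ring
      rw [e, abs_mul]
      have h7 := h4 p hp
      calc _ ≤ (C * (1 + Real.log T) / ht p) * 1 :=
            mul_le_mul h7 (Real.abs_cos_le_one _) (abs_nonneg _) ((abs_nonneg _).trans h7)
        _ = _ := by ring
    refine (Finset.sum_le_sum h6).trans ?_
    rw [← Finset.mul_sum]
    apply mul_le_mul_of_nonneg_left _ (by positivity)
    refine (ht_sum (JT T)).trans ?_
    exact pow_le_pow_left₀ (by positivity) (JT_le hT1) 2
  have h6 : |wh W * ∑ p ∈ FR (2 ^ JT T), Fd (Real.log T) v p - wh W * (6 / Real.pi ^ 2 * Hh (Real.log T) v)| ≤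
      ε / 2 * (1 + Real.log T) ^ 4 := by
    rw [← mul_sub, abs_mul, abs_of_nonneg (wh_nonneg hW)]
    calc _ ≤ 4 * KW * (ε / (8 * KW) * (1 + Real.log T) ^ 4) :=
          mul_le_mul (wh_le hW) h3 (abs_nonneg _) (by positivity)
      _ = _ := by field_simp; ring
  have h7 : C * (1 + Real.log T) * (3 * (1 + Real.log T)) ^ 2 ≤ ε / 2 * (1 + Real.log T) ^ 4 := by
    rw [div_le_iff₀ hε] at hLC
    have h8 : 9 * C ≤ ε / 2 * (1 + Real.log T) := by nlinarith
    have h9 : 0 ≤ (1 + Real.log T) ^ 3 := by positivity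
    calc _ = (1 + Real.log T) ^ 3 * (9 * C) := by ring
      _ ≤ (1 + Real.log T) ^ 3 * (ε / 2 * (1 + Real.log T)) := mul_le_mul_of_nonneg_left h8 h9
      _ = _ := by ring
  refine (abs_sub_le _ (wh W * ∑ p ∈ FR (2 ^ JT T), Fd (Real.log T) v p) _).trans ?_
  linarith

/-! ### the low amplitudes -/

theorem amp_low (J₀ : ℕ) : ∃ c₀ T₀ : ℝ, 0 < c₀ ∧ 1 ≤ T₀ ∧ ∀ T : ℝ, T₀ ≤ T → ∀ (S : Finset (ℕ × ℕ)),
    FR (2 ^ J₀) ⊆ S → ∀ p ∈ FR (2 ^ JT T), lev p < J₀ → ∀ u ∈ Icc (T / 2) (8 * T),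
      |cr (2 ^ JT T) p u - aQ T S p u| ≤ c₀ := by
  obtain ⟨C, hC, h⟩ := cr_low
  have hpi := Real.pi_gt_three
  have hpi0 := Real.pi_pos
  have hP : (1 : ℝ) ≤ 2 ^ J₀ := one_le_pow₀ (by norm_num)
  obtain ⟨H, hH⟩ : ∃ H : ℝ, H = Real.log (2 * Real.pi * 2 ^ J₀) := ⟨_, rfl⟩
  have hH0 : 0 ≤ H := by rw [hH]; apply Real.log_nonneg; nlinarith
  refine ⟨C + H + 3, max 8 (4 * Real.pi * 2 ^ J₀), by positivity,
    (by norm_num : (1 : ℝ) ≤ 8).trans (le_max_left _ _), fun T hT S hS p hp h5 u hu => ?_⟩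
  have hT8 : 8 ≤ T := (le_max_left _ _).trans hT
  have hTJ : 4 * Real.pi * 2 ^ J₀ ≤ T := (le_max_right _ _).trans hT
  have hT0 : 0 < T := by linarith
  rw [FR_iff] at hp
  obtain ⟨h1, h2, h3, h4⟩ := hp
  have hpS : p ∈ S := hS (FR_mono (Nat.pow_le_pow_right (by norm_num) h5.le) (mem_FR_lev h1 h2 h4))
  have hh := ht_pos h1 h2
  have hh1 := ht_one_le h1 h2
  have hhJ : ht p ≤ 2 ^ J₀ := ht_le_lev.trans (pow_le_pow_right₀ (by norm_num) h5.le)
  have hu0 : 0 < u := by linarith [hu.1]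
  have hcast : ((2 ^ JT T : ℕ) : ℝ) = 2 ^ JT T := by push_cast; rfl
  have a1 : u ≤ ((2 ^ JT T : ℕ) : ℝ) := by
    rw [hcast]
    have := JT_pow (T := T) (by linarith)
    nlinarith [hu.2]
  have a2 : 2 * Real.pi * ht p ≤ u := by
    have : 2 * Real.pi * ht p ≤ 2 * Real.pi * 2 ^ J₀ := mul_le_mul_of_nonneg_left hhJ (by positivity)
    linarith [hu.1]
  have h6 := h (2 ^ JT T) p u h1 h2 a2 a1
  have hs0 : 0 < √(ht p) := Real.sqrt_pos.2 hh
  have hs1 : 1 ≤ √(ht p) := Real.one_le_sqrt.2 hh1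
  have a3 : |Real.log u - Real.log T| ≤ 3 := by
    have hl2 := Real.log_two_lt_d9
    rw [abs_le]
    constructor
    · have : Real.log (T / 2) ≤ Real.log u := Real.log_le_log (by linarith) hu.1
      rw [Real.log_div hT0.ne' (by norm_num)] at this
      linarith
    · have : Real.log u ≤ Real.log (8 * T) := Real.log_le_log hu0 hu.2
      rw [Real.log_mul (by norm_num) hT0.ne', show (8 : ℝ) = 2 ^ 3 by norm_num, Real.log_pow] at this
      push_cast at this
      linarith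
  have a4 : |Real.log (2 * Real.pi * ht p)| ≤ H := by
    rw [abs_of_nonneg (Real.log_nonneg (by nlinarith)), hH]
    apply Real.log_le_log (by positivity)
    exact mul_le_mul_of_nonneg_left hhJ (by positivity)
  have a5 : |√(ht p) * cr (2 ^ JT T) p u - Real.log T| ≤ C + H + 3 := by
    have e : √(ht p) * cr (2 ^ JT T) p u - Real.log T =
        (√(ht p) * cr (2 ^ JT T) p u - (Real.log u - Real.log (2 * Real.pi * ht p))) +
        ((Real.log u - Real.log T) - Real.log (2 * Real.pi * ht p)) := by ring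
    rw [e]
    refine (abs_add_le _ _).trans ?_
    have := abs_sub (Real.log u - Real.log T) (Real.log (2 * Real.pi * ht p))
    linarith
  unfold aQ
  rw [if_pos hpS]
  have e : cr (2 ^ JT T) p u - Real.log T * (√(ht p))⁻¹ =
      (√(ht p))⁻¹ * (√(ht p) * cr (2 ^ JT T) p u - Real.log T) := by
    field_simp
  rw [e, abs_mul, abs_of_pos (inv_pos.2 hs0)]
  have h7 : (√(ht p))⁻¹ ≤ 1 := inv_le_one_of_one_le₀ hs1
  calc _ ≤ 1 * (C + H + 3) := mul_le_mul h7 a5 (abs_nonneg _) (by norm_num)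
    _ = _ := one_mul _

end

end K1H48.SW
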