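import Pool.Agent.K1H48.SW.Hi
import Pool.Agent.K1H48.SW.Nd3
import Pool.Agent.K1H48.SW.Far

set_option autoImplicit false

/-! The pointwise bounds for the correlations away from the diagonal. -/

namespace K1H48.SW

open MeasureTheory Set Finset Filter
open Pool.Agent.Y969.GP

noncomputable section

def Dff (W : ℝ → ℝ) (T : ℝ) (p : ℕ × ℕ) : ℝ := DW W T (cr (2 ^ JT T) p) (cr (2 ^ JT T) p)
def Dfq (W : ℝ → ℝ) (T : ℝ) (S : Finset (ℕ × ℕ)) (p : ℕ × ℕ) : ℝ := DW W T (cr (2 ^ JT T) p) (aQ T S p)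
def Dqq (W : ℝ → ℝ) (T : ℝ) (S : Finset (ℕ × ℕ)) (p : ℕ × ℕ) : ℝ := DW W T (aQ T S p) (aQ T S p)

lemma bet_le {T : ℝ} (hT : 1 ≤ T) {p : ℕ × ℕ} (h1 : 1 ≤ p.1) (h2 : 1 ≤ p.2) : bet T p ≤ 1 + Real.log T := by
  have hT0 : 0 < T := by linarith
  have hh := ht_pos h1 h2
  have hh1 := ht_one_le h1 h2
  have h3 : (√(ht p))⁻¹ ≤ 1 := inv_le_one_of_one_le₀ (Real.one_le_sqrt.2 hh1)
  have h4 : SW.W (T / ht p) ≤ 1 + Real.log T := by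
    rw [← W_ge hT]
    exact W_mono (by positivity) (div_le_self hT0.le hh1)
  have h5 : 0 ≤ SW.W (T / ht p) := W_nonneg (by positivity)
  unfold bet
  calc _ ≤ 1 * (1 + Real.log T) := mul_le_mul h3 h4 h5 (by norm_num)
    _ = _ := one_mul _

lemma aQ_nonneg {T : ℝ} (hT : 1 ≤ T) (S : Finset (ℕ × ℕ)) (p : ℕ × ℕ) (u : ℝ) : 0 ≤ aQ T S p u := by
  unfold aQ
  have := Real.log_nonneg hT
  split_ifs
  · positivity
  · exact le_rfl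

lemma aQ_out {T : ℝ} {S : Finset (ℕ × ℕ)} {p : ℕ × ℕ} (hp : p ∉ S) : aQ T S p = fun _ => 0 := by
  funext u
  unfold aQ
  rw [if_neg hp]

lemma aQ_cont (T : ℝ) (S : Finset (ℕ × ℕ)) (p : ℕ × ℕ) (s : Set ℝ) : ContinuousOn (aQ T S p) s := by
  unfold aQ
  exact continuousOn_const

lemma DW_zero (W : ℝ → ℝ) (T : ℝ) (a : ℝ → ℝ) : DW W T a (fun _ => 0) = 0 := by
  unfold DW
  simp

lemma lev_out {J₁ : ℕ} {S : Finset (ℕ × ℕ)} (hS : S ⊆ FR (2 ^ J₁)) {p : ℕ × ℕ} (h : J₁ + 1 ≤ lev p) : p ∉ S := by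
  intro hp
  have := lev_le (hS hp)
  omega

lemma Dfq_out (W : ℝ → ℝ) (T : ℝ) {J₁ : ℕ} {S : Finset (ℕ × ℕ)} (hS : S ⊆ FR (2 ^ J₁)) (p : ℕ × ℕ)
    (h : J₁ + 1 ≤ lev p) : Dfq W T S p = 0 := by
  unfold Dfq
  rw [aQ_out (lev_out hS h), DW_zero]

lemma Dqq_out (W : ℝ → ℝ) (T : ℝ) {J₁ : ℕ} {S : Finset (ℕ × ℕ)} (hS : S ⊆ FR (2 ^ J₁)) (p : ℕ × ℕ)
    (h : J₁ + 1 ≤ lev p) : Dqq W T S p = 0 := by
  unfold Dqq
  rw [aQ_out (lev_out hS h), DW_zero]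

lemma high_ff {KW : ℝ} {W W1 W2 : ℝ → ℝ} (hW : Wgt KW W W1 W2) {K T : ℝ} (hK : 0 ≤ K) (hT : 1 ≤ T)
    (hF : Fam (JT T) T K (cr (2 ^ JT T)) (cr1 (2 ^ JT T)) (cr2 (2 ^ JT T))) {J₂ : ℕ} (hJ₂ : 1 ≤ J₂) {v : ℝ} (hv : v ≠ 0) :
    ‖high (JT T) J₂ (Dff W T) v‖ ≤ 4 * KW * (K * K) * (1 + Real.log T) ^ 2 *
      (528 * (1 + Real.log T) * lv v + 246064 * r4 ^ J₂ * (2 + |v|) ^ 2) := by
  have hT0 : 0 < T := by linarith
  have hKW : 0 ≤ KW := by linarith [hW.one]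
  have hL := Real.log_nonneg hT
  have hlv := lv_nonneg v
  have hM : 0 ≤ 4 * KW * (K * K) * (1 + Real.log T) ^ 2 := by positivity
  have h := hi_sum (J := JT T) hJ₂ (D := Dn W T (JT T)) hM hv (fun n => Dn_nonneg hW hT0 _ n)
    (fun n hn => Dn_anti hW hT0 _ hn) (fun n hn hn2 => Dn_le hW hK hT hF hn hn2)
  have e : high (JT T) J₂ (Dff W T) v =
      ∑ j ∈ Finset.Ico J₂ (JT T + 1), ∑ p ∈ blk (JT T) j, (Dn W T (JT T) (p.1 * p.2) : ℂ) * ex v (lam p) := by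
    unfold high Bj Dff
    refine Finset.sum_congr rfl fun j _ => Finset.sum_congr rfl fun p _ => ?_
    rw [Dn_eq]
  rw [e]
  refine h.trans (mul_le_mul_of_nonneg_left ?_ hM)
  have hJ := JT_le hT
  have : 176 * lv v * ((JT T : ℝ) + 1) ≤ 176 * lv v * (3 * (1 + Real.log T)) :=
    mul_le_mul_of_nonneg_left hJ (by positivity)
  linarith

/-- the low amplitudes, with the model -/
theorem low_diff (J₀ : ℕ) {KW : ℝ} {W W1 W2 : ℝ → ℝ} (hW : Wgt KW W W1 W2) {K : ℝ} (hK : 2 ≤ K) :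
    ∃ m T₀ : ℝ, 0 < m ∧ 1 ≤ T₀ ∧ ∀ T : ℝ, T₀ ≤ T →
    Fam (JT T) T K (cr (2 ^ JT T)) (cr1 (2 ^ JT T)) (cr2 (2 ^ JT T)) → ∀ (J₁ : ℕ) (S : Finset (ℕ × ℕ)),
    FR (2 ^ J₀) ⊆ S → S ⊆ FR (2 ^ J₁) → (2 ^ J₁) ^ 2 ≤ T → ∀ v : ℝ,
      ‖low (JT T) J₀ (Dff W T) v - low (JT T) J₀ (Dfq W T S) v‖ ≤ m * (1 + Real.log T) ∧
      ‖low (JT T) J₀ (Dfq W T S) v - low (JT T) J₀ (Dqq W T S) v‖ ≤ m * (1 + Real.log T) := by
  obtain ⟨c₀, T₀, hc₀, hT₀, h0⟩ := amp_low J₀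
  have hKW : 0 < KW := by linarith [hW.one]
  refine ⟨((FR (2 ^ J₀)).card : ℝ) * (4 * KW * (K * c₀)) + 1, T₀, by positivity, hT₀,
    fun T hT hF J₁ S hS hS1 hJT v => ?_⟩
  have hT1 : 1 ≤ T := hT₀.trans hT
  have hT0 : 0 < T := by linarith
  have hL := Real.log_nonneg hT1
  have hK0 : 0 < K := by linarith
  have hsub : Icc (T / 2) (4 * T) ⊆ Icc (T / 2) (8 * T) := Icc_subset_Icc_right (by linarith)
  have hFQ := fam_Q J₁ S hS1 (JT T) T hJT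
  have key : ∀ p ∈ FR (2 ^ JT T), lev p < J₀ → |Dff W T p - Dfq W T S p| ≤ 4 * KW * (K * c₀) * (1 + Real.log T) ∧
      |Dfq W T S p - Dqq W T S p| ≤ 4 * KW * (K * c₀) * (1 + Real.log T) := by
    intro p hp hlev
    have h1 := h0 T hT S hS p hp hlev
    have hp' := hp
    rw [FR_iff] at hp'
    have hb := bet_le hT1 hp'.1 hp'.2.1
    have hb0 := bet_nonneg hT0 p
    have hcc : ContinuousOn (cr (2 ^ JT T) p) (Icc (T / 2) (4 * T)) := (hF p hp).c0.mono hsub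
    have hqc : ContinuousOn (aQ T S p) (Icc (T / 2) (4 * T)) := aQ_cont _ _ _ _
    constructor
    · unfold Dff Dfq
      rw [DW_sub hW hT0 hcc hcc hqc]
      have h2 := DW_le hW hT0 (F := cr (2 ^ JT T) p) (G := fun u => cr (2 ^ JT T) p u - aQ T S p u)
        (K := K * (1 + Real.log T)) (K' := c₀) (fun c hc => ((hF p hp).b0 c hc).trans
          (mul_le_mul_of_nonneg_left hb hK0.le)) h1 (by positivity)
      refine h2.trans (le_of_eq (by ring))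
    · unfold Dqq Dfq
      rw [DW_comm W T (cr (2 ^ JT T) p) (aQ T S p), DW_sub hW hT0 hqc hcc hqc]
      have h2 := DW_le hW hT0 (F := aQ T S p) (G := fun u => cr (2 ^ JT T) p u - aQ T S p u)
        (K := K * (1 + Real.log T)) (K' := c₀) (fun c hc => ((hFQ p hp).b0 c hc).trans
          (mul_le_mul hK hb hb0 (by positivity))) h1 (by positivity)
      refine h2.trans (le_of_eq (by ring))
  have hfin : ((FR (2 ^ J₀)).card : ℝ) * (4 * KW * (K * c₀) * (1 + Real.log T)) ≤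
      (((FR (2 ^ J₀)).card : ℝ) * (4 * KW * (K * c₀)) + 1) * (1 + Real.log T) := by
    nlinarith
  constructor
  · rw [low_sub]
    exact (low_le (by positivity) (fun p hp hl => (key p hp hl).1) v).trans hfin
  · rw [low_sub]
    exact (low_le (by positivity) (fun p hp hl => (key p hp hl).2) v).trans hfin

/-- the bounds for the differences of the correlations -/
theorem diff_pt (J₀ : ℕ) {KW : ℝ} {W W1 W2 : ℝ → ℝ} (hW : Wgt KW W W1 W2) {K : ℝ} (hK : 2 ≤ K) :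
    ∃ m T₀ : ℝ, 0 < m ∧ 1 ≤ T₀ ∧ ∀ T : ℝ, T₀ ≤ T →
    Fam (JT T) T K (cr (2 ^ JT T)) (cr1 (2 ^ JT T)) (cr2 (2 ^ JT T)) → ∀ (J₁ J₂ : ℕ) (S : Finset (ℕ × ℕ)),
    FR (2 ^ J₀) ⊆ S → S ⊆ FR (2 ^ J₁) → (2 ^ J₁) ^ 2 ≤ T → J₀ ≤ J₁ → J₁ + 1 ≤ J₂ → J₂ ≤ JT T →
    ∀ v : ℝ, v ≠ 0 →
      ‖Cm (JT T) (Dff W T) v - Cm (JT T) (Dfq W T S) v‖ ≤ m * (1 + Real.log T) +
        ‖Cm J₂ (Dmid J₀ J₂ (Dff W T)) v‖ + ‖Cm (J₁ + 1) (Dmid J₀ (J₁ + 1) (Dfq W T S)) v‖ +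
        4 * KW * (K * K) * (1 + Real.log T) ^ 2 * (528 * (1 + Real.log T) * lv v) +
        4 * KW * (K * K) * (1 + Real.log T) ^ 2 * (246064 * r4 ^ J₂ * (2 + |v|) ^ 2) ∧
      ‖Cm (JT T) (Dfq W T S) v - Cm (JT T) (Dqq W T S) v‖ ≤ m * (1 + Real.log T) +
        ‖Cm (J₁ + 1) (Dmid J₀ (J₁ + 1) (Dfq W T S)) v‖ + ‖Cm (J₁ + 1) (Dmid J₀ (J₁ + 1) (Dqq W T S)) v‖ := by
  obtain ⟨m, T₀, hm, hT₀, h0⟩ := low_diff J₀ hW hK
  refine ⟨m, T₀, hm, hT₀, fun T hT hF J₁ J₂ S hS hS1 hJT h01 h12 h2J v hv => ?_⟩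
  obtain ⟨h1, h2⟩ := h0 T hT hF J₁ S hS hS1 hJT v
  have hT1 : 1 ≤ T := hT₀.trans hT
  have hh := high_ff hW (by linarith : 0 ≤ K) hT1 hF (by omega : 1 ≤ J₂) hv
  rw [split3 (J₀ := J₀) (J₂ := J₂) (by omega) h2J (Dff W T) v,
    split3 (J₀ := J₀) (J₂ := J₁ + 1) (by omega) (by omega) (Dfq W T S) v,
    split3 (J₀ := J₀) (J₂ := J₁ + 1) (by omega) (by omega) (Dqq W T S) v,
    high_zero (Dfq_out W T hS1) v, high_zero (Dqq_out W T hS1) v]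
  constructor
  · obtain ⟨a, ha⟩ : ∃ a, a = low (JT T) J₀ (Dff W T) v := ⟨_, rfl⟩
    obtain ⟨b, hb⟩ : ∃ b, b = low (JT T) J₀ (Dfq W T S) v := ⟨_, rfl⟩
    obtain ⟨c, hc⟩ : ∃ c, c = Cm J₂ (Dmid J₀ J₂ (Dff W T)) v := ⟨_, rfl⟩
    obtain ⟨d, hd⟩ : ∃ d, d = Cm (J₁ + 1) (Dmid J₀ (J₁ + 1) (Dfq W T S)) v := ⟨_, rfl⟩
    obtain ⟨e, he⟩ : ∃ e, e = high (JT T) J₂ (Dff W T) v := ⟨_, rfl⟩
    rw [← ha, ← hb] at h1
    rw [← he] at hh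
    rw [← ha, ← hb, ← hc, ← hd, ← he]
    have e1 : a + c + e - (b + d + 0) = (a - b) + c - d + e := by ring
    rw [e1]
    refine (norm_add_le _ _).trans ?_
    refine (add_le_add ((norm_sub_le _ _).trans (add_le_add (norm_add_le _ _) le_rfl)) le_rfl).trans ?_
    linarith
  · obtain ⟨a, ha⟩ : ∃ a, a = low (JT T) J₀ (Dfq W T S) v := ⟨_, rfl⟩
    obtain ⟨b, hb⟩ : ∃ b, b = low (JT T) J₀ (Dqq W T S) v := ⟨_, rfl⟩
    rw [← ha, ← hb] at h2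
    rw [← ha, ← hb]
    have e1 : ∀ c d : ℂ, a + c + 0 - (b + d + 0) = (a - b) + c - d := by intro c d; ring
    rw [e1]
    refine (norm_sub_le _ _).trans (add_le_add ?_ le_rfl)
    exact (norm_add_le _ _).trans (add_le_add h2 le_rfl)

/-- crude bounds for the correlations with the model -/
lemma q_crude {KW : ℝ} {W W1 W2 : ℝ → ℝ} (hW : Wgt KW W W1 W2) {K T : ℝ} (hK : 2 ≤ K) (hT : 1 ≤ T)
    (hF : Fam (JT T) T K (cr (2 ^ JT T)) (cr1 (2 ^ JT T)) (cr2 (2 ^ JT T))) {J₁ : ℕ} {S : Finset (ℕ × ℕ)}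
    (hS1 : S ⊆ FR (2 ^ J₁)) (hJT : (2 ^ J₁) ^ 2 ≤ T) (h1 : J₁ ≤ JT T) (v : ℝ) :
    ‖Cm (JT T) (Dfq W T S) v‖ ≤ 4 * KW * (K * K) * (1 + Real.log T) ^ 2 * ((J₁ : ℝ) + 1) ^ 2 ∧
    ‖Cm (JT T) (Dqq W T S) v‖ ≤ 4 * KW * (K * K) * (1 + Real.log T) ^ 2 * ((J₁ : ℝ) + 1) ^ 2 := by
  have hT0 : 0 < T := by linarith
  have hKW : 0 ≤ KW := by linarith [hW.one]
  have hL := Real.log_nonneg hT
  have hK0 : 0 ≤ K := by linarith
  have hFQ2 := fam_Q J₁ S hS1 (JT T) T hJT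
  have hFQ : Fam (JT T) T K (aQ T S) (fun _ _ => 0) (fun _ _ => 0) := fun p hp =>
    (hFQ2 p hp).mono (mul_le_mul_of_nonneg_right hK (bet_nonneg hT0 p)) hT0
  have hsub : S ⊆ FR (2 ^ JT T) := hS1.trans (FR_mono (Nat.pow_le_pow_right (by norm_num) h1))
  have gen : ∀ D : ℕ × ℕ → ℝ, (∀ p ∈ FR (2 ^ JT T), |D p| ≤ 4 * KW * (K * K) * (1 + Real.log T) ^ 2 / ht p) →
      (∀ p, p ∉ S → D p = 0) →
      ‖Cm (JT T) D v‖ ≤ 4 * KW * (K * K) * (1 + Real.log T) ^ 2 * ((J₁ : ℝ) + 1) ^ 2 := by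
    intro D hD hD0
    unfold Cm
    rw [← Finset.sum_subset hsub (fun p _ hp => by rw [hD0 p hp]; simp)]
    refine (norm_sum_le _ _).trans ?_
    have h3 : ∀ p ∈ S, ‖(D p : ℂ) * ex v (lam p)‖ ≤ 4 * KW * (K * K) * (1 + Real.log T) ^ 2 * (1 / ht p) := by
      intro p hp
      rw [norm_mul, norm_ex, mul_one, Complex.norm_real, Real.norm_eq_abs]
      refine (hD p (hsub hp)).trans (le_of_eq (by ring))
    refine (Finset.sum_le_sum h3).trans ?_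
    rw [← Finset.mul_sum]
    apply mul_le_mul_of_nonneg_left _ (by positivity)
    refine le_trans ?_ (ht_sum J₁)
    apply Finset.sum_le_sum_of_subset_of_nonneg hS1
    intro p _ _
    unfold ht
    positivity
  constructor
  · exact gen _ (fun p hp => DW_fam' hW hT hK0 hK0 hF hFQ hp) (fun p hp => by
      unfold Dfq; rw [aQ_out hp, DW_zero])
  · exact gen _ (fun p hp => DW_fam' hW hT hK0 hK0 hFQ hFQ hp) (fun p hp => by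
      unfold Dqq; rw [aQ_out hp, DW_zero])

/-- bounds for the kernel -/
lemma Hh_far {ℓ v : ℝ} (hℓ : 0 ≤ ℓ) (hv : v ≠ 0) : 0 ≤ Hh ℓ v ∧ Hh ℓ v ≤ ℓ ^ 2 / v ^ 2 := by
  rw [Hh_closed hℓ hv]
  have h1 := Real.one_sub_sq_div_two_le_cos (x := v * ℓ)
  have h2 := Real.cos_le_one (v * ℓ)
  have hv4 : 0 < v ^ 4 := by positivity
  constructor
  · apply div_nonneg _ hv4.le
    nlinarith
  · rw [div_le_div_iff₀ hv4 (by positivity)]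
    have : 0 < v ^ 2 := by positivity
    have e : ℓ ^ 2 * v ^ 4 = (v ^ 2 * ℓ ^ 2) * v ^ 2 := by ring
    rw [e]
    apply mul_le_mul_of_nonneg_right _ this.le
    linarith

lemma Hh_cont (ℓ : ℝ) : Continuous (Hh ℓ) := by
  unfold Hh
  have h1 : Continuous (Function.uncurry fun (z : ℝ × ℝ) (t : ℝ) => ps ℓ z.1 z.2 t) := by
    unfold Function.uncurry ps
    fun_prop
  have h2 : Continuous (fun z : ℝ × ℝ => ∫ t in (0 : ℝ)..ℓ, ps ℓ z.1 z.2 t) :=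
    intervalIntegral.continuous_parametric_intervalIntegral_of_continuous' h1 0 ℓ
  exact intervalIntegral.continuous_parametric_intervalIntegral_of_continuous' (f := fun v s =>
    ∫ t in (0 : ℝ)..ℓ, ps ℓ v s t) h2 0 ℓ

lemma Hh_nonneg {ℓ : ℝ} (hℓ : 0 ≤ ℓ) (v : ℝ) : 0 ≤ Hh ℓ v := by
  by_cases hv : v = 0
  · subst hv
    unfold Hh
    apply intervalIntegral.integral_nonneg hℓ
    intro s _
    apply intervalIntegral.integral_nonneg hℓ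
    intro t _
    unfold ps
    simp only [zero_mul, Real.cos_zero, mul_one]
    positivity
  · exact (Hh_far hℓ hv).1

end

end K1H48.SW
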