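import Pool.Agent.K1H48.SW.Km2
import Pool.Agent.K1H48.SW.Wg

set_option autoImplicit false

/-! The correlation of two real functions approximated by Dirichlet polynomials, and its `k`-th moment. -/

namespace K1H48.SW

open MeasureTheory Set Finset Filter
open Pool.Agent.Y969.GP

noncomputable section

/-- the weighted correlation of two real functions -/
def CW (W : ℝ → ℝ) (T : ℝ) (g g' : ℝ → ℝ) (t t' : ℝ) : ℝ :=
  ∫ c in T / 2..4 * T, W (c / T) * (g (c + t) * g' (c + t'))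

lemma corr_step2 {KW : ℝ} {W W1 W2 : ℝ → ℝ} (hW : Wgt KW W W1 W2) {J : ℕ} {T K U t t' η B : ℝ}
    {a a1 a2 b b1 b2 : ℕ × ℕ → ℝ → ℝ} {g g' : ℝ → ℝ} (hg : Continuous g) (hg' : Continuous g')
    (hT : 1 ≤ T) (hK : 0 ≤ K) (hU : U ≤ T) (ht0 : 0 ≤ t)
    (ht : t ≤ U) (ht0' : 0 ≤ t') (ht' : t' ≤ U) (h : Fam J T K a a1 a2) (h' : Fam J T K b b1 b2)
    (hη : ∀ u ∈ Icc (T / 2) (8 * T), ‖(g u : ℂ) - gP J a u‖ ≤ η)
    (hη' : ∀ u ∈ Icc (T / 2) (8 * T), ‖(g' u : ℂ) - gP J b u‖ ≤ η)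
    (hB : 10 ^ 15 * KW * (K * K) * (((J : ℝ) + 1) * T + U * (((J : ℝ) + 1) ^ 2 * (1 + Real.log T) ^ 2)) ≤ B) :
    ‖(CW W T g g' t t' : ℂ) - T * Cm J (fun p => DW W T (a p) (b p)) (t - t')‖ ≤
      B + η * ((2 + η) * (4 * KW * T) +
        2 * (T * (8 * KW * (K * K) * (((J : ℝ) + 1) ^ 2 * (1 + Real.log T) ^ 2)) + B)) := by
  have hT0 : 0 < T := by linarith
  have hU0 : 0 ≤ U := ht0.trans ht
  have hle : T / 2 ≤ 4 * T := by linarith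
  have hKW : 0 ≤ KW := by linarith [hW.one]
  have hη0 : 0 ≤ η := (norm_nonneg _).trans (hη T ⟨by linarith, by linarith⟩)
  have hsh : ∀ (a a1 a2 : ℕ × ℕ → ℝ → ℝ), Fam J T K a a1 a2 → ∀ s : ℝ, 0 ≤ s → s ≤ U →
      ContinuousOn (fun c => gP J a (c + s)) (Icc (T / 2) (4 * T)) := by
    intro a a1 a2 h s hs0 hs
    refine (gP_cont h).comp (by fun_prop) fun c hc' => ⟨?_, ?_⟩
    · linarith [hc'.1]
    · linarith [hc'.2]
  have hw : Continuous (fun c => W (c / T)) := by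
    have := hW.c0
    fun_prop
  -- the mean square
  have hms : ∀ (a a1 a2 : ℕ × ℕ → ℝ → ℝ), Fam J T K a a1 a2 → ∀ s : ℝ, 0 ≤ s → s ≤ U →
      ∫ c in T / 2..4 * T, W (c / T) * ‖gP J a (c + s)‖ ^ 2 ≤
      T * (8 * KW * (K * K) * (((J : ℝ) + 1) ^ 2 * (1 + Real.log T) ^ 2)) + B := by
    intro a a1 a2 h s hs0 hs
    have h1 := (corr2 hW hT hK hK hU hs0 hs hs0 hs h h).trans hB
    have h2 := CmW_le hW hT hK hK h h (s - s)
    have e1 : ((∫ c in T / 2..4 * T, W (c / T) * ‖gP J a (c + s)‖ ^ 2 : ℝ) : ℂ) =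
        ∫ c in T / 2..4 * T, (W (c / T) : ℂ) * (gP J a (c + s) * (starRingEnd ℂ) (gP J a (c + s))) := by
      rw [← intervalIntegral.integral_ofReal]
      congr 1
      funext c
      rw [Complex.mul_conj, Complex.normSq_eq_norm_sq]
      push_cast
      ring
    rw [← e1] at h1
    have h3 : ‖((∫ c in T / 2..4 * T, W (c / T) * ‖gP J a (c + s)‖ ^ 2 : ℝ) : ℂ)‖ ≤
        ‖(T : ℂ) * Cm J (fun p => DW W T (a p) (a p)) (s - s)‖ + B := by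
      calc _ = ‖(((∫ c in T / 2..4 * T, W (c / T) * ‖gP J a (c + s)‖ ^ 2 : ℝ) : ℂ) -
            T * Cm J (fun p => DW W T (a p) (a p)) (s - s)) + T * Cm J (fun p => DW W T (a p) (a p)) (s - s)‖ := by
            rw [sub_add_cancel]
        _ ≤ _ := (norm_add_le _ _).trans (by linarith)
    rw [norm_mul, Complex.norm_real, Complex.norm_real, Real.norm_eq_abs, Real.norm_eq_abs,
      abs_of_pos hT0] at h3
    have h4 := mul_le_mul_of_nonneg_left h2 hT0.le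
    have h5 := le_abs_self (∫ c in T / 2..4 * T, W (c / T) * ‖gP J a (c + s)‖ ^ 2)
    linarith
  -- comparison
  have h1 := (corr2 hW hT hK hK hU ht0 ht ht0' ht' h h').trans hB
  have hi1 : IntervalIntegrable (fun c => (W (c / T) : ℂ) * ((g (c + t) * g' (c + t') : ℝ) : ℂ)) volume
      (T / 2) (4 * T) := by
    apply Continuous.intervalIntegrable
    have hgg : Continuous fun c => g (c + t) * g' (c + t') := by fun_prop
    exact (Complex.continuous_ofReal.comp hw).mul (Complex.continuous_ofReal.comp hgg)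
  have hi2 : IntervalIntegrable (fun c => (W (c / T) : ℂ) *
      (gP J a (c + t) * (starRingEnd ℂ) (gP J b (c + t')))) volume (T / 2) (4 * T) := by
    apply ContinuousOn.intervalIntegrable
    rw [Set.uIcc_of_le hle]
    exact (Complex.continuous_ofReal.comp hw).continuousOn.mul ((hsh a a1 a2 h t ht0 ht).mul
      (Complex.continuous_conj.comp_continuousOn (hsh b b1 b2 h' t' ht0' ht')))
  have e2 : (CW W T g g' t t' : ℂ) = ∫ c in T / 2..4 * T, (W (c / T) : ℂ) * ((g (c + t) * g' (c + t') : ℝ) : ℂ) := by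
    unfold CW
    rw [← intervalIntegral.integral_ofReal]
    congr 1
    funext c
    push_cast
    ring
  have h2 : ‖(CW W T g g' t t' : ℂ) - ∫ c in T / 2..4 * T, (W (c / T) : ℂ) *
      (gP J a (c + t) * (starRingEnd ℂ) (gP J b (c + t')))‖ ≤
      η * ((2 + η) * (4 * KW * T) +
        2 * (T * (8 * KW * (K * K) * (((J : ℝ) + 1) ^ 2 * (1 + Real.log T) ^ 2)) + B)) := by
    rw [e2, ← intervalIntegral.integral_sub hi1 hi2]
    have hq : ∀ (a a1 a2 : ℕ × ℕ → ℝ → ℝ), Fam J T K a a1 a2 → ∀ s : ℝ, 0 ≤ s → s ≤ U →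
        IntervalIntegrable (fun c => W (c / T) * ‖gP J a (c + s)‖ ^ 2) volume (T / 2) (4 * T) := by
      intro a a1 a2 h s hs0 hs
      apply ContinuousOn.intervalIntegrable
      rw [Set.uIcc_of_le hle]
      exact hw.continuousOn.mul ((hsh a a1 a2 h s hs0 hs).norm.pow 2)
    have hw' : IntervalIntegrable (fun c => W (c / T)) volume (T / 2) (4 * T) := hw.intervalIntegrable _ _
    have hqa := hq a a1 a2 h t ht0 ht
    have hqb := hq b b1 b2 h' t' ht0' ht'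
    have hmaj : IntervalIntegrable (fun c => η * ((2 + η) * W (c / T) +
        (W (c / T) * ‖gP J a (c + t)‖ ^ 2 + W (c / T) * ‖gP J b (c + t')‖ ^ 2))) volume (T / 2) (4 * T) :=
      (((hw'.const_mul (2 + η)).add (hqa.add hqb)).const_mul η)
    have h3 : ‖∫ c in T / 2..4 * T, ((W (c / T) : ℂ) * ((g (c + t) * g' (c + t') : ℝ) : ℂ) -
        (W (c / T) : ℂ) * (gP J a (c + t) * (starRingEnd ℂ) (gP J b (c + t'))))‖ ≤
        ∫ c in T / 2..4 * T, η * ((2 + η) * W (c / T) +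
        (W (c / T) * ‖gP J a (c + t)‖ ^ 2 + W (c / T) * ‖gP J b (c + t')‖ ^ 2)) := by
      apply intervalIntegral.norm_integral_le_of_norm_le hle _ hmaj
      filter_upwards with c hc
      rw [← mul_sub, norm_mul, Complex.norm_real, Real.norm_eq_abs, abs_of_nonneg (hW.nn _)]
      have h4 := prod_err (hη (c + t) ⟨by linarith [hc.1], by linarith [hc.2]⟩)
        (hη' (c + t') ⟨by linarith [hc.1], by linarith [hc.2]⟩)
      calc _ ≤ W (c / T) * (η * (2 + η + ‖gP J a (c + t)‖ ^ 2 + ‖gP J b (c + t')‖ ^ 2)) :=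
            mul_le_mul_of_nonneg_left h4 (hW.nn _)
        _ = _ := by ring
    refine h3.trans ?_
    rw [intervalIntegral.integral_const_mul]
    apply mul_le_mul_of_nonneg_left _ hη0
    rw [intervalIntegral.integral_add (hw'.const_mul _) (hqa.add hqb),
      intervalIntegral.integral_add hqa hqb, intervalIntegral.integral_const_mul]
    have h5 : ∫ c in T / 2..4 * T, W (c / T) ≤ 4 * KW * T := by
      have h6 := DW_le hW hT0 (K := 1) (K' := 1) (F := fun _ => 1) (G := fun _ => 1)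
        (fun c _ => by simp) (fun c _ => by simp) (by norm_num)
      unfold DW at h6
      rw [abs_div, abs_of_pos hT0, div_le_iff₀ hT0] at h6
      simp only [mul_one] at h6
      exact (le_abs_self _).trans h6
    have h6 := hms a a1 a2 h t ht0 ht
    have h7 := hms b b1 b2 h' t' ht0' ht'
    have h8 : (2 + η) * ∫ c in T / 2..4 * T, W (c / T) ≤ (2 + η) * (4 * KW * T) :=
      mul_le_mul_of_nonneg_left h5 (by linarith)
    linarith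
  calc _ = ‖((CW W T g g' t t' : ℂ) - ∫ c in T / 2..4 * T, (W (c / T) : ℂ) *
      (gP J a (c + t) * (starRingEnd ℂ) (gP J b (c + t')))) +
      ((∫ c in T / 2..4 * T, (W (c / T) : ℂ) *
      (gP J a (c + t) * (starRingEnd ℂ) (gP J b (c + t')))) - T * Cm J (fun p => DW W T (a p) (b p)) (t - t'))‖ := by
        rw [sub_add_sub_cancel]
    _ ≤ _ := (norm_add_le _ _).trans (by linarith)

/-- the correlation of two real functions approximated by Dirichlet polynomials -/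
theorem corr_real2 {KW : ℝ} {W W1 W2 : ℝ → ℝ} (hW : Wgt KW W W1 W2) {K E : ℝ} (hK : 0 ≤ K) (hE : 0 ≤ E) :
    ∃ C T₀ : ℝ, 0 < C ∧ 1 ≤ T₀ ∧ ∀ T : ℝ, T₀ ≤ T →
    ∀ (g g' : ℝ → ℝ) (a a1 a2 b b1 b2 : ℕ × ℕ → ℝ → ℝ), Continuous g → Continuous g' →
    Fam (JT T) T K a a1 a2 → Fam (JT T) T K b b1 b2 →
    (∀ u ∈ Icc (T / 2) (8 * T), ‖(g u : ℂ) - gP (JT T) a u‖ ≤ E * T ^ (-(1 / 4) : ℝ)) →
    (∀ u ∈ Icc (T / 2) (8 * T), ‖(g' u : ℂ) - gP (JT T) b u‖ ≤ E * T ^ (-(1 / 4) : ℝ)) →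
    ∀ t t' : ℝ, 0 ≤ t → t ≤ √T → 0 ≤ t' → t' ≤ √T →
    ‖(CW W T g g' t t' : ℂ) - T * Cm (JT T) (fun p => DW W T (a p) (b p)) (t - t')‖ ≤
      C * (T * (1 + Real.log T)) := by
  have hKW1 := hW.one
  have hKW : 0 ≤ KW := by linarith
  have ev1 := log_small (1 / 2) (by norm_num) (1 / 9) (by norm_num) 4
  have ev2 := log_small (1 / 4) (by norm_num) (1 / (E + 1)) (by positivity) 4
  obtain ⟨T₁, hT₁⟩ := (ev1.and (ev2.and (eventually_ge_atTop (1 : ℝ)))).exists_forall_of_atTop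
  refine ⟨4 * 10 ^ 15 * (KW * K ^ 2) * 3 + 12 * KW + 144 * (KW * K ^ 2), max T₁ 1, by positivity,
    le_max_right _ _,
    fun T hT g g' a a1 a2 b b1 b2 hg hg' hF hF' hap hap' t t' ht0 ht ht0' ht' => ?_⟩
  obtain ⟨e1, e2, hT1⟩ := hT₁ T ((le_max_left _ _).trans hT)
  have hT0 : 0 < T := by linarith
  have hl := Real.log_nonneg hT1
  obtain ⟨ℓ, hℓ⟩ : ∃ ℓ, ℓ = 1 + Real.log T := ⟨_, rfl⟩
  have hℓ1 : 1 ≤ ℓ := by rw [hℓ]; linarith
  rw [← hℓ] at e1 e2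
  have hU : √T ≤ T := by
    rw [Real.sqrt_le_left hT0.le]
    nlinarith
  have hJ := JT_le hT1
  rw [← hℓ] at hJ
  have hJ0 : (0 : ℝ) ≤ (JT T : ℝ) + 1 := by positivity
  obtain ⟨η, hη⟩ : ∃ η, η = E * T ^ (-(1 / 4) : ℝ) := ⟨_, rfl⟩
  have hη0 : 0 ≤ η := by rw [hη]; positivity
  have hη4 : η * ℓ ^ 4 ≤ 1 := by
    have h1 : η * ℓ ^ 4 ≤ (E * T ^ (-(1 / 4) : ℝ)) * (1 / (E + 1) * T ^ (1 / 4 : ℝ)) := by
      rw [hη]
      exact mul_le_mul_of_nonneg_left e2 (by positivity)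
    have h2 : (E * T ^ (-(1 / 4) : ℝ)) * (1 / (E + 1) * T ^ (1 / 4 : ℝ)) = E / (E + 1) := by
      have : T ^ (-(1 / 4) : ℝ) * T ^ (1 / 4 : ℝ) = 1 := by
        rw [← Real.rpow_add hT0]; norm_num
      calc _ = E / (E + 1) * (T ^ (-(1 / 4) : ℝ) * T ^ (1 / 4 : ℝ)) := by ring
        _ = _ := by rw [this, mul_one]
    have h3 : E / (E + 1) ≤ 1 := by rw [div_le_one (by positivity)]; linarith
    linarith
  have hℓ4 : 1 ≤ ℓ ^ 4 := one_le_pow₀ hℓ1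
  have hη1 : η ≤ 1 := by nlinarith
  have hsq : √T * (9 * ℓ ^ 4) ≤ T := by
    have h1 : T ^ (1 / 2 : ℝ) = √T := (Real.sqrt_eq_rpow T).symm
    rw [h1] at e1
    have h2 : √T * √T = T := Real.mul_self_sqrt hT0.le
    have h3 : 0 ≤ √T := Real.sqrt_nonneg T
    nlinarith
  obtain ⟨Q, hQ⟩ : ∃ Q, Q = KW * K ^ 2 := ⟨_, rfl⟩
  have hQ0 : 0 ≤ Q := by rw [hQ]; positivity
  -- the bound B
  have hB : 10 ^ 15 * KW * (K * K) * (((JT T : ℕ) + 1 : ℝ) * T + √T * (((JT T : ℕ) + 1 : ℝ) ^ 2 * (1 + Real.log T) ^ 2)) ≤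
      4 * 10 ^ 15 * Q * (ℓ * T) := by
    rw [← hℓ]
    have h1 : (((JT T : ℕ) + 1 : ℝ) ^ 2 * ℓ ^ 2) ≤ 9 * ℓ ^ 4 := by
      have : ((JT T : ℕ) + 1 : ℝ) ^ 2 ≤ (3 * ℓ) ^ 2 := pow_le_pow_left₀ hJ0 hJ 2
      nlinarith [mul_le_mul_of_nonneg_right this (sq_nonneg ℓ)]
    have h2 : √T * (((JT T : ℕ) + 1 : ℝ) ^ 2 * ℓ ^ 2) ≤ √T * (9 * ℓ ^ 4) :=
      mul_le_mul_of_nonneg_left h1 (Real.sqrt_nonneg T)
    have h3 : ((JT T : ℕ) + 1 : ℝ) * T ≤ 3 * ℓ * T := mul_le_mul_of_nonneg_right hJ hT0.le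
    have h4 : T ≤ ℓ * T := by nlinarith
    have h5 : ((JT T : ℕ) + 1 : ℝ) * T + √T * (((JT T : ℕ) + 1 : ℝ) ^ 2 * ℓ ^ 2) ≤ 4 * (ℓ * T) := by linarith
    have e3 : 10 ^ 15 * KW * (K * K) = 10 ^ 15 * Q := by rw [hQ]; ring
    rw [e3]
    have h6 := mul_le_mul_of_nonneg_left h5 (by positivity : 0 ≤ 10 ^ 15 * Q)
    linarith
  have hmain := corr_step2 hW hg hg' hT1 hK hU ht0 ht ht0' ht' hF hF' (hη ▸ hap) (hη ▸ hap') hB
  refine hmain.trans ?_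
  rw [← hℓ, ← hQ]
  have h1 : (((JT T : ℕ) + 1 : ℝ) ^ 2 * ℓ ^ 2) ≤ 9 * ℓ ^ 4 := by
    have : ((JT T : ℕ) + 1 : ℝ) ^ 2 ≤ (3 * ℓ) ^ 2 := pow_le_pow_left₀ hJ0 hJ 2
    nlinarith [mul_le_mul_of_nonneg_right this (sq_nonneg ℓ)]
  have h2 : η * (T * (8 * KW * (K * K) * (((JT T : ℕ) + 1 : ℝ) ^ 2 * ℓ ^ 2))) ≤ 72 * Q * T := by
    calc η * (T * (8 * KW * (K * K) * (((JT T : ℕ) + 1 : ℝ) ^ 2 * ℓ ^ 2))) ≤
          η * (T * (8 * KW * (K * K) * (9 * ℓ ^ 4))) := by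
          apply mul_le_mul_of_nonneg_left _ hη0
          apply mul_le_mul_of_nonneg_left _ hT0.le
          exact mul_le_mul_of_nonneg_left h1 (by positivity)
      _ = (η * ℓ ^ 4) * (72 * Q * T) := by rw [hQ]; ring
      _ ≤ 1 * (72 * Q * T) := mul_le_mul_of_nonneg_right hη4 (by positivity)
      _ = _ := one_mul _
  have h3 : η * (4 * 10 ^ 15 * Q * (ℓ * T)) ≤ 1 * (4 * 10 ^ 15 * Q * (ℓ * T)) :=
    mul_le_mul_of_nonneg_right hη1 (by positivity)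
  have h4 : η * ((2 + η) * (4 * KW * T)) ≤ 12 * KW * T := by
    have h5 : η * (2 + η) ≤ 3 := by nlinarith
    have h6 : 0 ≤ 4 * KW * T := by positivity
    nlinarith
  have h5 : T ≤ T * ℓ := by nlinarith
  have h6 : Q * T ≤ Q * (T * ℓ) := mul_le_mul_of_nonneg_left h5 hQ0
  have h7 : KW * T ≤ KW * (T * ℓ) := mul_le_mul_of_nonneg_left h5 hKW
  nlinarith [h2, h3, h4, h5, h6, h7]

lemma CW_cont (W : ℝ → ℝ) (hWc : Continuous W) (T : ℝ) {g g' : ℝ → ℝ} (hg : Continuous g) (hg' : Continuous g') :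
    Continuous (Function.uncurry fun t t' : ℝ => CW W T g g' t t') := by
  unfold CW
  have h := intervalIntegral.continuous_parametric_intervalIntegral_of_continuous' (X := ℝ × ℝ) (μ := volume)
    (f := fun z c => W (c / T) * (g (c + z.1) * g' (c + z.2))) (by
      fun_prop) (T / 2) (4 * T)
  exact h

/-- the crude `k`-th moment of the correlation -/
theorem kmom2 {k : ℕ} (hk : 2 ≤ k) {KW : ℝ} {W W1 W2 : ℝ → ℝ} (hW : Wgt KW W W1 W2) {K E : ℝ}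
    (hK : 0 ≤ K) (hE : 0 ≤ E) : ∃ C T₀ : ℝ, 0 < C ∧ 1 ≤ T₀ ∧ ∀ T : ℝ, T₀ ≤ T →
    ∀ (g g' : ℝ → ℝ) (a a1 a2 b b1 b2 : ℕ × ℕ → ℝ → ℝ), Continuous g → Continuous g' →
    Fam (JT T) T K a a1 a2 → Fam (JT T) T K b b1 b2 →
    (∀ u ∈ Icc (T / 2) (8 * T), ‖(g u : ℂ) - gP (JT T) a u‖ ≤ E * T ^ (-(1 / 4) : ℝ)) →
    (∀ u ∈ Icc (T / 2) (8 * T), ‖(g' u : ℂ) - gP (JT T) b u‖ ≤ E * T ^ (-(1 / 4) : ℝ)) →
    (∀ p ∈ FR (2 ^ JT T), ∀ c ∈ Icc (T / 2) (4 * T), 0 ≤ a p c ∧ 0 ≤ b p c) →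
    ∀ U : ℝ, 0 < U → U ≤ √T →
    ∫ t in (0 : ℝ)..U, ∫ t' in (0 : ℝ)..U, |CW W T g g' t t'| ^ k ≤
      C * (T ^ k * U ^ 2 * ((1 + Real.log T) ^ (2 * k) * (1 + (1 + Real.log T) ^ (2 * k - 1) / U))) := by
  obtain ⟨C₀, T₀, hC₀, hT₀, h0⟩ := corr_real2 hW hK hE
  obtain ⟨C₁, hC₁, h1⟩ := blk_main hk
  have hKW : 0 ≤ KW := by linarith [hW.one]
  have htl := tl_nonneg k 0
  obtain ⟨c, hc⟩ : ∃ c : ℝ, c = (4 * KW * (K * K)) ^ k * (3 ^ (2 * k - 1) * (tl k 0 + 1)) := ⟨_, rfl⟩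
  have hc0 : 0 ≤ c := by rw [hc]; positivity
  refine ⟨2 ^ (k - 1) * (C₁ * (c + 1) + C₀ ^ k), T₀, by positivity, hT₀,
    fun T hT g g' a a1 a2 b b1 b2 hg hg' hF hF' hap hap' hnn U hU hUT => ?_⟩
  have hT1 : 1 ≤ T := hT₀.trans hT
  have hTp : 0 < T := by linarith
  have hl := Real.log_nonneg hT1
  have hJ := JT_le hT1
  obtain ⟨ℓ, hℓ⟩ : ∃ ℓ, ℓ = 1 + Real.log T := ⟨_, rfl⟩
  rw [← hℓ] at hJ
  have hℓ1 : 1 ≤ ℓ := by rw [hℓ]; linarith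
  obtain ⟨D, hD⟩ : ∃ D : ℕ × ℕ → ℝ, D = fun p => DW W T (a p) (b p) := ⟨_, rfl⟩
  have hDb : ∀ p ∈ FR (2 ^ JT T), 0 ≤ D p ∧ D p ≤ (4 * KW * (K * K) * ℓ ^ 2) / ht p := by
    intro p hp
    rw [hD, hℓ]
    exact ⟨DW_nonneg hW hTp (fun c hc => (hnn p hp c hc).1) (fun c hc => (hnn p hp c hc).2),
      (le_abs_self _).trans (DW_fam' hW hT1 hK hK hF hF' hp)⟩
  have hempty : ∑ p ∈ (FR (2 ^ JT T)).filter (fun p => lev p < 0), D p ≤ 0 := by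
    rw [Finset.filter_false_of_mem (fun p _ => Nat.not_lt_zero _), Finset.sum_empty]
  have hblk := h1 (JT T) 0 D (4 * KW * (K * K) * ℓ ^ 2) 0 U (by positivity) hU hDb hempty
  have hpt : ∀ t ∈ Icc 0 U, ∀ t' ∈ Icc 0 U, |CW W T g g' t t'| ^ k ≤
      2 ^ (k - 1) * ((C₀ * (T * ℓ)) ^ k + T ^ k * ‖Cm (JT T) D (t - t')‖ ^ k) := by
    intro t ht t' ht'
    have h2 := h0 T hT g g' a a1 a2 b b1 b2 hg hg' hF hF' hap hap' t t' ht.1 (ht.2.trans hUT) ht'.1 (ht'.2.trans hUT)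
    rw [← hD, ← hℓ] at h2
    have h3 : |CW W T g g' t t'| ≤ C₀ * (T * ℓ) + T * ‖Cm (JT T) D (t - t')‖ := by
      calc |CW W T g g' t t'| = ‖(CW W T g g' t t' : ℂ)‖ := by rw [Complex.norm_real, Real.norm_eq_abs]
        _ = ‖((CW W T g g' t t' : ℂ) - T * Cm (JT T) D (t - t')) + T * Cm (JT T) D (t - t')‖ := by
            rw [sub_add_cancel]
        _ ≤ C₀ * (T * ℓ) + ‖(T : ℂ) * Cm (JT T) D (t - t')‖ := (norm_add_le _ _).trans (by linarith)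
        _ = _ := by rw [norm_mul, Complex.norm_real, Real.norm_eq_abs, abs_of_pos hTp]
    refine (pow_le_pow_left₀ (abs_nonneg _) h3 k).trans ((add_pow_le (by positivity) (by positivity) k).trans
      (le_of_eq ?_))
    rw [mul_pow T]
  have hcL : Continuous (Function.uncurry fun t t' : ℝ => |CW W T g g' t t'| ^ k) :=
    ((CW_cont W hW.c0 T hg hg').abs.pow k)
  have hcC : Continuous (Function.uncurry fun t t' : ℝ => ‖Cm (JT T) D (t - t')‖ ^ k) :=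
    uncC (Cm_cont _ _)
  have hcR : Continuous (Function.uncurry fun t t' : ℝ =>
      2 ^ (k - 1) * ((C₀ * (T * ℓ)) ^ k + T ^ k * ‖Cm (JT T) D (t - t')‖ ^ k)) :=
    continuous_const.mul (continuous_const.add (continuous_const.mul hcC))
  refine (int2_mono' hU.le hcL hcR hpt).trans ?_
  have e1 : ∫ t in (0 : ℝ)..U, ∫ t' in (0 : ℝ)..U,
      2 ^ (k - 1) * ((C₀ * (T * ℓ)) ^ k + T ^ k * ‖Cm (JT T) D (t - t')‖ ^ k) =
      2 ^ (k - 1) * ((C₀ * (T * ℓ)) ^ k * U ^ 2 + T ^ k *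
        ∫ t in (0 : ℝ)..U, ∫ t' in (0 : ℝ)..U, ‖Cm (JT T) D (t - t')‖ ^ k) := by
    have := int_expand {0} (fun _ => T ^ k) (fun _ t t' => ‖Cm (JT T) D (t - t')‖ ^ k) (fun _ => hcC)
      (2 ^ (k - 1)) ((C₀ * (T * ℓ)) ^ k) U
    simpa only [Finset.sum_singleton] using this
  rw [e1, ← hℓ, mul_assoc (2 ^ (k - 1))]
  apply mul_le_mul_of_nonneg_left _ (by positivity)
  obtain ⟨Y, hY⟩ : ∃ Y : ℝ, Y = ℓ ^ (2 * k) * (1 + ℓ ^ (2 * k - 1) / U) := ⟨_, rfl⟩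
  have hYk : ℓ ^ k ≤ Y := by
    rw [hY]
    have a1 : ℓ ^ k ≤ ℓ ^ (2 * k) := pow_le_pow_right₀ hℓ1 (by omega)
    have a2 : 0 ≤ ℓ ^ (2 * k) * (ℓ ^ (2 * k - 1) / U) := by positivity
    nlinarith
  have hY0 : 0 ≤ Y := le_trans (by positivity) hYk
  have a1 : (4 * KW * (K * K) * ℓ ^ 2) ^ k * (tl k 0 + ((JT T : ℕ) + 1 : ℝ) ^ (2 * k - 1) / U) + 0 ^ k ≤ c * Y := by
    have e2 : (4 * KW * (K * K) * ℓ ^ 2) ^ k = (4 * KW * (K * K)) ^ k * ℓ ^ (2 * k) := by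
      rw [mul_pow, pow_mul]
    have h3 : ((JT T : ℕ) + 1 : ℝ) ^ (2 * k - 1) ≤ 3 ^ (2 * k - 1) * ℓ ^ (2 * k - 1) := by
      rw [← mul_pow]
      exact pow_le_pow_left₀ (by positivity) hJ _
    have h4 : tl k 0 + ((JT T : ℕ) + 1 : ℝ) ^ (2 * k - 1) / U ≤
        3 ^ (2 * k - 1) * (tl k 0 + 1) * (1 + ℓ ^ (2 * k - 1) / U) := by
      have h5 : (1 : ℝ) ≤ 3 ^ (2 * k - 1) := one_le_pow₀ (by norm_num)
      have h6 : ((JT T : ℕ) + 1 : ℝ) ^ (2 * k - 1) / U ≤ 3 ^ (2 * k - 1) * (ℓ ^ (2 * k - 1) / U) := by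
        rw [mul_div_assoc']
        exact div_le_div_of_nonneg_right h3 hU.le
      have h7 : 0 ≤ ℓ ^ (2 * k - 1) / U := by positivity
      have h8 : tl k 0 ≤ 3 ^ (2 * k - 1) * tl k 0 := by nlinarith
      have h9 : 0 ≤ 3 ^ (2 * k - 1) * tl k 0 * (ℓ ^ (2 * k - 1) / U) := by positivity
      nlinarith
    rw [zero_pow (by omega : k ≠ 0), add_zero]
    calc (4 * KW * (K * K) * ℓ ^ 2) ^ k * (tl k 0 + ((JT T : ℕ) + 1 : ℝ) ^ (2 * k - 1) / U) ≤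
          (4 * KW * (K * K) * ℓ ^ 2) ^ k * (3 ^ (2 * k - 1) * (tl k 0 + 1) * (1 + ℓ ^ (2 * k - 1) / U)) :=
          mul_le_mul_of_nonneg_left h4 (by positivity)
      _ = _ := by rw [e2, hc, hY]; ring
  have a2 : T ^ k * ∫ t in (0 : ℝ)..U, ∫ t' in (0 : ℝ)..U, ‖Cm (JT T) D (t - t')‖ ^ k ≤
      T ^ k * (C₁ * (U ^ 2 * (c * Y))) := by
    apply mul_le_mul_of_nonneg_left _ (by positivity)
    refine hblk.trans ?_
    apply mul_le_mul_of_nonneg_left _ hC₁.le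
    exact mul_le_mul_of_nonneg_left a1 (by positivity)
  have a3 : (C₀ * (T * ℓ)) ^ k * U ^ 2 = C₀ ^ k * (T ^ k * U ^ 2 * ℓ ^ k) := by
    rw [mul_pow, mul_pow]; ring
  rw [a3, ← hY]
  have b1 : 0 ≤ T ^ k * U ^ 2 := by positivity
  have b2 : 0 ≤ T ^ k * U ^ 2 * Y := mul_nonneg b1 hY0
  have b3 : T ^ k * U ^ 2 * ℓ ^ k ≤ T ^ k * U ^ 2 * Y := mul_le_mul_of_nonneg_left hYk b1
  have b5 : 0 ≤ C₀ ^ k := by positivity
  calc C₀ ^ k * (T ^ k * U ^ 2 * ℓ ^ k) + T ^ k * ∫ t in (0 : ℝ)..U, ∫ t' in (0 : ℝ)..U, ‖Cm (JT T) D (t - t')‖ ^ k ≤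
        C₀ ^ k * (T ^ k * U ^ 2 * Y) + T ^ k * (C₁ * (U ^ 2 * (c * Y))) :=
        add_le_add (mul_le_mul_of_nonneg_left b3 b5) a2
    _ = (C₁ * c + C₀ ^ k) * (T ^ k * U ^ 2 * Y) := by ring
    _ ≤ (C₁ * (c + 1) + C₀ ^ k) * (T ^ k * U ^ 2 * Y) := by
        apply mul_le_mul_of_nonneg_right _ b2
        nlinarith

end

end K1H48.SW
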