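import Pool.Agent.K1H48.SW.Asm
import Pool.Agent.K1H48.SW.Rl
import Pool.Agent.K1H48.SW.Dbl

set_option autoImplicit false

/-! The weighted variance as an integral of correlations. -/

namespace K1H48.SW

open MeasureTheory Set Finset Filter
open Pool.Agent.Y969.GP

noncomputable section

theorem fub2 {k : ℕ} {a b U : ℝ} (hU : 0 ≤ U) (w : ℝ → ℝ) (hw : Continuous w) {g g' : ℝ → ℝ} (hg : Continuous g)
    (hg' : Continuous g') :
    ∫ c, (∏ j, w (c j)) * ((∫ t in (0 : ℝ)..U, ∏ j, g (c j + t)) * ∫ t in (0 : ℝ)..U, ∏ j, g' (c j + t)) ∂(bm k a b) =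
      I2 U (fun z => (∫ x in Icc a b, w x * (g (x + z.1) * g' (x + z.2))) ^ k) := by
  unfold I2
  set ν : Measure ℝ := volume.restrict (Ioc 0 U) with hν
  obtain ⟨Φ, hΦ⟩ : ∃ Φ : (Fin k → ℝ) → ℝ × ℝ → ℝ, Φ = fun c z =>
      ∏ j, (w (c j) * (g (c j + z.1) * g' (c j + z.2))) := ⟨_, rfl⟩
  have hΦc : Continuous (Function.uncurry Φ) := by
    rw [hΦ]
    unfold Function.uncurry
    fun_prop
  have h1 : ∀ c : Fin k → ℝ, (∏ j, w (c j)) * ((∫ t in (0 : ℝ)..U, ∏ j, g (c j + t)) *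
      ∫ t in (0 : ℝ)..U, ∏ j, g' (c j + t)) = ∫ z, Φ c z ∂(ν.prod ν) := by
    intro c
    have e1 : (∫ t in (0 : ℝ)..U, ∏ j, g (c j + t)) * (∫ t in (0 : ℝ)..U, ∏ j, g' (c j + t)) =
        ∫ z, (∏ j, g (c j + z.1)) * (∏ j, g' (c j + z.2)) ∂(ν.prod ν) := by
      rw [integral_prod_mul (fun t => ∏ j, g (c j + t)) (fun t => ∏ j, g' (c j + t)),
        intervalIntegral.integral_of_le hU, intervalIntegral.integral_of_le hU]
    rw [e1, ← integral_const_mul]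
    congr 1
    funext z
    rw [hΦ]
    simp only [Finset.prod_mul_distrib]
  simp_rw [h1]
  rw [integral_integral_swap (int_box hΦc)]
  congr 1
  funext z
  rw [hΦ]
  unfold bm
  rw [integral_fintype_prod_eq_prod (μ := fun _ : Fin k => volume.restrict (Icc a b))
      (fun _ x => w x * (g (x + z.1) * g' (x + z.2))), Finset.prod_const, Finset.card_univ, Fintype.card_fin]

lemma lin3 {X : Type*} [MeasurableSpace X] {μ : Measure X} {A B C : X → ℝ} (hA : Integrable A μ)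
    (hB : Integrable B μ) (hC : Integrable C μ) :
    ∫ c, (A c - 2 * B c + C c) ∂μ = ∫ c, A c ∂μ - 2 * ∫ c, B c ∂μ + ∫ c, C c ∂μ := by
  have h1 : Integrable (fun c => A c - 2 * B c) μ := hA.sub (hB.const_mul 2)
  have h2 : Integrable (fun c => 2 * B c) μ := hB.const_mul 2
  rw [integral_add h1 hC, integral_sub hA h2, integral_const_mul]

/-- the weighted variance -/
theorem var_eq {k : ℕ} {U T : ℝ} (hU : 0 ≤ U) (hT : 0 < T) {W : ℝ → ℝ} (hW : Continuous W) {f q : ℝ → ℝ}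
    (hf : Continuous f) (hq : Continuous q) :
    ∫ c, (∏ j, W (c j / T)) * ((∫ t in (0 : ℝ)..U, ∏ j, f (c j + t)) - ∫ t in (0 : ℝ)..U, ∏ j, q (c j + t)) ^ 2
      ∂(bm k (T / 2) (4 * T)) =
    I2 U (fun z => CW W T f f z.1 z.2 ^ k - 2 * CW W T f q z.1 z.2 ^ k + CW W T q q z.1 z.2 ^ k) := by
  have hwc : Continuous (fun x => W (x / T)) := by fun_prop
  have hle : T / 2 ≤ 4 * T := by linarith
  have hgen : ∀ g g' : ℝ → ℝ, Continuous g → Continuous g' →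
      ∫ c, (∏ j, W (c j / T)) * ((∫ t in (0 : ℝ)..U, ∏ j, g (c j + t)) * ∫ t in (0 : ℝ)..U, ∏ j, g' (c j + t))
        ∂(bm k (T / 2) (4 * T)) = I2 U (fun z => CW W T g g' z.1 z.2 ^ k) := by
    intro g g' hg hg'
    rw [fub2 hU (fun x => W (x / T)) hwc hg hg']
    unfold CW
    simp_rw [intervalIntegral.integral_of_le hle, integral_Icc_eq_integral_Ioc]
  have cW : ∀ g g' : ℝ → ℝ, Continuous g → Continuous g' → Continuous (fun z : ℝ × ℝ => CW W T g g' z.1 z.2 ^ k) :=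
    fun g g' hg hg' => (CW_cont W hW T hg hg').pow k
  have cp : Continuous (fun c : Fin k → ℝ => ∏ j, W (c j / T)) := by fun_prop
  have cf : Continuous (fun c : Fin k → ℝ => ∫ t in (0 : ℝ)..U, ∏ j, f (c j + t)) := cont_avg (fun _ => hf) U
  have cq : Continuous (fun c : Fin k → ℝ => ∫ t in (0 : ℝ)..U, ∏ j, q (c j + t)) := cont_avg (fun _ => hq) U
  have i1 : Integrable (fun c : Fin k → ℝ => (∏ j, W (c j / T)) * ((∫ t in (0 : ℝ)..U, ∏ j, f (c j + t)) *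
      ∫ t in (0 : ℝ)..U, ∏ j, f (c j + t))) (bm k (T / 2) (4 * T)) := int_bm (cp.mul (cf.mul cf))
  have i2 : Integrable (fun c : Fin k → ℝ => (∏ j, W (c j / T)) * ((∫ t in (0 : ℝ)..U, ∏ j, f (c j + t)) *
      ∫ t in (0 : ℝ)..U, ∏ j, q (c j + t))) (bm k (T / 2) (4 * T)) := int_bm (cp.mul (cf.mul cq))
  have i3 : Integrable (fun c : Fin k → ℝ => (∏ j, W (c j / T)) * ((∫ t in (0 : ℝ)..U, ∏ j, q (c j + t)) *
      ∫ t in (0 : ℝ)..U, ∏ j, q (c j + t))) (bm k (T / 2) (4 * T)) := int_bm (cp.mul (cq.mul cq))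
  have e : ∀ c : Fin k → ℝ, (∏ j, W (c j / T)) * ((∫ t in (0 : ℝ)..U, ∏ j, f (c j + t)) -
      ∫ t in (0 : ℝ)..U, ∏ j, q (c j + t)) ^ 2 =
      (∏ j, W (c j / T)) * ((∫ t in (0 : ℝ)..U, ∏ j, f (c j + t)) * ∫ t in (0 : ℝ)..U, ∏ j, f (c j + t)) -
      2 * ((∏ j, W (c j / T)) * ((∫ t in (0 : ℝ)..U, ∏ j, f (c j + t)) * ∫ t in (0 : ℝ)..U, ∏ j, q (c j + t))) +
      (∏ j, W (c j / T)) * ((∫ t in (0 : ℝ)..U, ∏ j, q (c j + t)) * ∫ t in (0 : ℝ)..U, ∏ j, q (c j + t)) := by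
    intro c; ring
  simp_rw [e]
  have b1 := cW _ _ hf hf
  have b2 := cW _ _ hf hq
  have b3 := cW _ _ hq hq
  rw [lin3 i1 i2 i3, hgen f f hf hf, hgen f q hf hq, hgen q q hq hq]
  have := lin3 (int_sq (U := U) b1) (int_sq b2) (int_sq b3)
  unfold I2
  rw [this]

end

end K1H48.SW
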