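import Pool.Agent.K1H48.SW.Far2

set_option autoImplicit false

/-! The kernel `(x² - 2 + 2 cos x)/x⁴`. -/

namespace K1H48.SW

open MeasureTheory Set Finset Filter
open Pool.Agent.Y969.GP

noncomputable section

/-- the kernel -/
def gk (x : ℝ) : ℝ := (x ^ 2 - 2 + 2 * Real.cos x) / x ^ 4

/-- the constant of the variance -/
def kap2 (k : ℕ) : ℝ := ∫ x : ℝ, gk x ^ k

lemma gk_zero : gk 0 = 0 := by unfold gk; simp

lemma gk_Hh {L v : ℝ} (hL : 0 < L) (hv : v ≠ 0) : Hh L v = L ^ 4 * gk (L * v) := by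
  rw [Hh_closed hL.le hv]
  unfold gk
  rw [mul_comm v L]
  field_simp

lemma gk_nonneg (x : ℝ) : 0 ≤ gk x := by
  unfold gk
  apply div_nonneg _ (by positivity)
  have := Real.one_sub_sq_div_two_le_cos (x := x)
  linarith

lemma gk_even (x : ℝ) : gk (-x) = gk x := by
  unfold gk
  rw [Real.cos_neg]
  ring_nf

lemma gk_le (x : ℝ) : gk x ≤ 4 / (1 + |x|) ^ 2 := by
  by_cases hx : x = 0
  · rw [hx, gk_zero]; positivity
  · have h0 : 0 ≤ |x| := abs_nonneg x
    rw [le_div_iff₀ (by positivity)]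
    have hg := gk_nonneg x
    rcases le_total |x| 1 with h | h
    · have h1 : gk x ≤ 1 := by
        have h2 := gk_Hh one_pos hx
        rw [one_pow, one_mul, one_mul] at h2
        rw [← h2]
        have := (le_abs_self _).trans (Hh_bd (ℓ := 1) (v := x) (by norm_num))
        simpa using this
      have h2 : (1 + |x|) ^ 2 ≤ 4 := by nlinarith
      calc gk x * (1 + |x|) ^ 2 ≤ 1 * 4 := mul_le_mul h1 h2 (by positivity) (by norm_num)
        _ = 4 := by norm_num
    · have h1 : gk x ≤ 1 / x ^ 2 := by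
        unfold gk
        have hx2 : 0 < x ^ 2 := by positivity
        rw [div_le_div_iff₀ (by positivity) hx2]
        have h3 := Real.cos_le_one x
        have e : 1 * x ^ 4 = x ^ 2 * x ^ 2 := by ring
        rw [e]
        apply mul_le_mul_of_nonneg_right _ hx2.le
        linarith
      have h2 : (1 + |x|) ^ 2 ≤ 4 * x ^ 2 := by
        rw [← sq_abs x]
        nlinarith
      have hx2 : 0 < x ^ 2 := by positivity
      calc gk x * (1 + |x|) ^ 2 ≤ 1 / x ^ 2 * (4 * x ^ 2) := mul_le_mul h1 h2 (by positivity) (by positivity)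
        _ = 4 := by field_simp

lemma gk_meas : Measurable gk := by
  unfold gk
  fun_prop

lemma gk_pow_le {k : ℕ} (hk : 2 ≤ k) (x : ℝ) : gk x ^ k ≤ 4 ^ k * (1 + |x|) ^ (-(4 : ℝ)) := by
  have h0 : 0 ≤ |x| := abs_nonneg x
  have h1 : (1 : ℝ) ≤ 1 + |x| := by linarith
  refine (pow_le_pow_left₀ (gk_nonneg x) (gk_le x) k).trans ?_
  rw [div_pow, div_eq_mul_inv]
  apply mul_le_mul_of_nonneg_left _ (by positivity)
  rw [Real.rpow_neg (by positivity), ← pow_mul]
  apply inv_anti₀ (by positivity)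
  have e : (1 + |x|) ^ (4 : ℝ) = (1 + |x|) ^ 4 := by
    rw [← Real.rpow_natCast]; norm_num
  rw [e]
  exact pow_le_pow_right₀ h1 (by omega)

lemma gk_int {k : ℕ} (hk : 2 ≤ k) : Integrable (fun x => gk x ^ k) := by
  have h1 : Integrable (fun x : ℝ => 4 ^ k * (1 + ‖x‖) ^ (-(4 : ℝ))) :=
    (integrable_one_add_norm (by simp)).const_mul _
  refine h1.mono' (gk_meas.pow_const k).aestronglyMeasurable (Filter.Eventually.of_forall fun x => ?_)
  rw [Real.norm_eq_abs, abs_of_nonneg (pow_nonneg (gk_nonneg x) k), Real.norm_eq_abs]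
  exact gk_pow_le hk x

lemma tail_bd {k : ℕ} (hk : 2 ≤ k) {a : ℝ} (ha : 0 ≤ a) : ∫ x in Ioi a, gk x ^ k ≤ 4 ^ k * (1 / (1 + a) ^ 2) := by
  have hd : ∀ x ∈ Ici a, HasDerivAt (fun x : ℝ => -(1 / 3) * ((1 + x) ^ 3)⁻¹) ((1 + x) ^ (-(4 : ℝ))) x := by
    intro x hx
    rw [Set.mem_Ici] at hx
    have hp : 0 < 1 + x := by linarith
    have d1 : HasDerivAt (fun x : ℝ => 1 + x) 1 x := (hasDerivAt_id x).const_add 1
    have d2 := ((d1.pow 3).inv (pow_ne_zero 3 hp.ne')).const_mul (-(1 / 3) : ℝ)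
    refine d2.congr_deriv ?_
    have e : (1 + x) ^ (-(4 : ℝ)) = ((1 + x) ^ 4)⁻¹ := by
      rw [Real.rpow_neg hp.le]
      congr 1
      rw [← Real.rpow_natCast]; norm_num
    rw [e]
    simp only [Pi.pow_apply]
    field_simp
    ring
  have hlim : Tendsto (fun x : ℝ => -(1 / 3) * ((1 + x) ^ 3)⁻¹) atTop (nhds 0) := by
    have h1 : Tendsto (fun x : ℝ => (1 + x) ^ 3) atTop atTop :=
      (tendsto_pow_atTop (by norm_num)).comp (tendsto_atTop_add_const_left _ _ tendsto_id)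
    have h2 := (tendsto_inv_atTop_zero.comp h1).const_mul (-(1 / 3) : ℝ)
    simpa using h2
  have hnn : ∀ x ∈ Ioi a, 0 ≤ (1 + x) ^ (-(4 : ℝ)) := by
    intro x hx
    rw [Set.mem_Ioi] at hx
    have : 0 < 1 + x := by linarith
    positivity
  have hi := integrableOn_Ioi_deriv_of_nonneg' hd hnn hlim
  have hv := integral_Ioi_of_hasDerivAt_of_nonneg' hd hnn hlim
  have h1 : ∫ x in Ioi a, gk x ^ k ≤ ∫ x in Ioi a, 4 ^ k * (1 + x) ^ (-(4 : ℝ)) := by
    apply setIntegral_mono_on (gk_int hk).integrableOn (hi.const_mul _) measurableSet_Ioi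
    intro x hx
    rw [Set.mem_Ioi] at hx
    have := gk_pow_le hk x
    rwa [abs_of_nonneg (by linarith)] at this
  refine h1.trans ?_
  rw [integral_const_mul, hv]
  apply mul_le_mul_of_nonneg_left _ (by positivity)
  rw [zero_sub, neg_mul, neg_neg, one_div_mul_eq_div, ← one_div, div_div]
  apply one_div_le_one_div_of_le (by positivity)
  have : 0 < (1 + a) ^ 2 := by positivity
  nlinarith

/-- the truncated integral -/
lemma trunc_bd {k : ℕ} (hk : 2 ≤ k) {a b : ℝ} (ha : 0 ≤ a) (hb : 0 ≤ b) :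
    0 ≤ kap2 k - ∫ x in (-a)..b, gk x ^ k ∧
      kap2 k - ∫ x in (-a)..b, gk x ^ k ≤ 4 ^ k * (1 / (1 + a) ^ 2) + 4 ^ k * (1 / (1 + b) ^ 2) := by
  have hi := gk_int hk
  have h1 : kap2 k = (∫ x in Iic (-a), gk x ^ k) + (∫ x in (-a)..b, gk x ^ k) + ∫ x in Ioi b, gk x ^ k := by
    unfold kap2
    rw [← intervalIntegral.integral_Iic_add_Ioi (b := b) hi.integrableOn hi.integrableOn,
      ← intervalIntegral.integral_Iic_sub_Iic hi.integrableOn hi.integrableOn]
    ring
  have h2 : ∫ x in Iic (-a), gk x ^ k = ∫ x in Ioi a, gk x ^ k := by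
    rw [← integral_comp_neg_Ioi (f := fun x => gk x ^ k)]
    simp_rw [gk_even]
  have h3 := tail_bd hk ha
  have h4 := tail_bd hk hb
  have h5 : ∀ s : Set ℝ, 0 ≤ ∫ x in s, gk x ^ k := fun s => integral_nonneg fun x => pow_nonneg (gk_nonneg x) k
  have h6 := h5 (Ioi a)
  have h7 := h5 (Ioi b)
  rw [h1, h2]
  constructor <;> linarith

lemma one_tail {L U : ℝ} (hL : 0 < L) (hU : 0 ≤ U) : ∫ t in (0 : ℝ)..U, 1 / (1 + L * t) ^ 2 ≤ 1 / L := by
  have hd : ∀ t ∈ Set.uIcc 0 U, HasDerivAt (fun t : ℝ => -(1 / L) * (1 + L * t)⁻¹) (1 / (1 + L * t) ^ 2) t := by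
    intro t ht
    rw [Set.uIcc_of_le hU] at ht
    have hp : 0 < 1 + L * t := by have := mul_nonneg hL.le ht.1; linarith
    have d1 : HasDerivAt (fun t : ℝ => 1 + L * t) L t := by
      simpa using ((hasDerivAt_id t).const_mul L).const_add 1
    have d2 := (d1.inv hp.ne').const_mul (-(1 / L) : ℝ)
    refine d2.congr_deriv ?_
    field_simp
  have hci : IntervalIntegrable (fun t : ℝ => 1 / (1 + L * t) ^ 2) volume 0 U := by
    apply ContinuousOn.intervalIntegrable
    rw [Set.uIcc_of_le hU]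
    apply ContinuousOn.div continuousOn_const (by fun_prop)
    intro t ht
    have : 0 < 1 + L * t := by have := mul_nonneg hL.le ht.1; linarith
    positivity
  rw [intervalIntegral.integral_eq_sub_of_hasDerivAt hd hci]
  have hp : 0 < 1 + L * U := by positivity
  have : 0 < (1 / L) * (1 + L * U)⁻¹ := by positivity
  rw [mul_zero, add_zero, inv_one]
  linarith

/-- the main term -/
theorem ker_main {k : ℕ} (hk : 2 ≤ k) {L U : ℝ} (hL : 0 < L) (hU : 0 ≤ U) :
    |I2 U (fun z => Hh L (z.1 - z.2) ^ k) - kap2 k * U * L ^ (4 * k - 1)| ≤ 2 * 4 ^ k * L ^ (4 * k - 2) := by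
  have hc : Continuous (Function.uncurry fun t t' : ℝ => Hh L (t - t') ^ k) :=
    ((Hh_cont L).comp (by fun_prop : Continuous fun z : ℝ × ℝ => z.1 - z.2)).pow k
  have h := I2_eq hU hc
  have e : (fun z : ℝ × ℝ => Hh L (z.1 - z.2) ^ k) = Function.uncurry fun t t' : ℝ => Hh L (t - t') ^ k := by
    funext z; rfl
  rw [e, ← h]
  have hin : ∀ t : ℝ, ∫ t' in (0 : ℝ)..U, Hh L (t - t') ^ k = L ^ (4 * k - 1) * ∫ x in (-(L * (U - t)))..(L * t), gk x ^ k := by
    intro t
    rw [intervalIntegral.integral_comp_sub_left (fun s => Hh L s ^ k) t, sub_zero]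
    have e1 : ∫ s in (t - U)..t, Hh L s ^ k = ∫ s in (t - U)..t, L ^ (4 * k) * gk (L * s) ^ k := by
      apply intervalIntegral.integral_congr_ae
      have : ∀ᵐ x : ℝ ∂volume, x ≠ 0 := by
        rw [ae_iff]
        simp
      filter_upwards [this] with s hs _
      rw [gk_Hh hL hs, mul_pow, ← pow_mul]
    rw [e1, intervalIntegral.integral_const_mul]
    have e2 := intervalIntegral.integral_comp_mul_left (a := t - U) (b := t) (fun x => gk x ^ k) hL.ne'
    rw [e2, smul_eq_mul, ← mul_assoc]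
    have e3 : L ^ (4 * k) * L⁻¹ = L ^ (4 * k - 1) := by
      have : L ^ (4 * k) = L ^ (4 * k - 1) * L := by rw [← pow_succ]; congr 1; omega
      rw [this, mul_assoc, mul_inv_cancel₀ hL.ne', mul_one]
    rw [e3]
    congr 2
    ring
  have hco : Continuous fun t : ℝ => ∫ t' in (0 : ℝ)..U, Hh L (t - t') ^ k :=
    intervalIntegral.continuous_parametric_intervalIntegral_of_continuous' hc 0 U
  simp_rw [hin] at hco ⊢
  have hLp : 0 < L ^ (4 * k - 1) := by positivity
  have hQ : Continuous fun t : ℝ => ∫ x in (-(L * (U - t)))..(L * t), gk x ^ k := by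
    have h2 := hco.const_mul (L ^ (4 * k - 1))⁻¹
    refine h2.congr fun t => ?_
    rw [← mul_assoc, inv_mul_cancel₀ hLp.ne', one_mul]
  rw [intervalIntegral.integral_const_mul]
  have hb1 : ∀ t ∈ Icc 0 U, (0 : ℝ) ≤ kap2 k - ∫ x in (-(L * (U - t)))..(L * t), gk x ^ k := fun t ht =>
    (trunc_bd hk (mul_nonneg hL.le (by linarith [ht.2])) (mul_nonneg hL.le ht.1)).1
  have hb2 : ∀ t ∈ Icc 0 U, kap2 k - ∫ x in (-(L * (U - t)))..(L * t), gk x ^ k ≤
      4 ^ k * (1 / (1 + L * (U - t)) ^ 2) + 4 ^ k * (1 / (1 + L * t) ^ 2) := fun t ht =>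
    (trunc_bd hk (mul_nonneg hL.le (by linarith [ht.2])) (mul_nonneg hL.le ht.1)).2
  have hid : IntervalIntegrable (fun t => kap2 k - ∫ x in (-(L * (U - t)))..(L * t), gk x ^ k) volume 0 U :=
    (continuous_const.sub hQ).intervalIntegrable _ _
  have hc1 : IntervalIntegrable (fun t : ℝ => 1 / (1 + L * t) ^ 2) volume 0 U := by
    apply ContinuousOn.intervalIntegrable
    rw [Set.uIcc_of_le hU]
    apply ContinuousOn.div continuousOn_const (by fun_prop)
    intro t ht
    have : 0 < 1 + L * t := by have := mul_nonneg hL.le ht.1; linarith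
    positivity
  have hc2 : IntervalIntegrable (fun t : ℝ => 1 / (1 + L * (U - t)) ^ 2) volume 0 U := by
    apply ContinuousOn.intervalIntegrable
    rw [Set.uIcc_of_le hU]
    apply ContinuousOn.div continuousOn_const (by fun_prop)
    intro t ht
    have : 0 < 1 + L * (U - t) := by have := mul_nonneg hL.le (by linarith [ht.2] : 0 ≤ U - t); linarith
    positivity
  have i0 : ∫ t in (0 : ℝ)..U, (kap2 k - ∫ x in (-(L * (U - t)))..(L * t), gk x ^ k) =
      kap2 k * U - ∫ t in (0 : ℝ)..U, ∫ x in (-(L * (U - t)))..(L * t), gk x ^ k := by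
    rw [intervalIntegral.integral_sub (continuous_const.intervalIntegrable _ _) (hQ.intervalIntegrable _ _),
      intervalIntegral.integral_const, smul_eq_mul, sub_zero, mul_comm]
  have i1 : 0 ≤ ∫ t in (0 : ℝ)..U, (kap2 k - ∫ x in (-(L * (U - t)))..(L * t), gk x ^ k) :=
    intervalIntegral.integral_nonneg hU hb1
  have i2 : ∫ t in (0 : ℝ)..U, (kap2 k - ∫ x in (-(L * (U - t)))..(L * t), gk x ^ k) ≤ 2 * 4 ^ k * (1 / L) := by
    refine (intervalIntegral.integral_mono_on hU hid ((hc2.const_mul _).add (hc1.const_mul _)) hb2).trans ?_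
    rw [intervalIntegral.integral_add (hc2.const_mul _) (hc1.const_mul _), intervalIntegral.integral_const_mul,
      intervalIntegral.integral_const_mul]
    have e4 : ∫ t in (0 : ℝ)..U, 1 / (1 + L * (U - t)) ^ 2 = ∫ t in (0 : ℝ)..U, 1 / (1 + L * t) ^ 2 := by
      rw [intervalIntegral.integral_comp_sub_left (fun t => 1 / (1 + L * t) ^ 2) U, sub_self, sub_zero]
    rw [e4]
    have h5 := one_tail hL hU
    have h6 : (0 : ℝ) < 4 ^ k := by positivity
    nlinarith
  rw [i0] at i1 i2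
  obtain ⟨Q, hQe⟩ : ∃ Q, Q = ∫ t in (0 : ℝ)..U, ∫ x in (-(L * (U - t)))..(L * t), gk x ^ k := ⟨_, rfl⟩
  rw [← hQe] at i1 i2 ⊢
  have e5 : L ^ (4 * k - 1) * Q - kap2 k * U * L ^ (4 * k - 1) = -(L ^ (4 * k - 1) * (kap2 k * U - Q)) := by ring
  rw [e5, abs_neg, abs_of_nonneg (mul_nonneg hLp.le i1)]
  have e6 : L ^ (4 * k - 1) = L ^ (4 * k - 2) * L := by rw [← pow_succ]; congr 1; omega
  calc L ^ (4 * k - 1) * (kap2 k * U - Q) ≤ L ^ (4 * k - 1) * (2 * 4 ^ k * (1 / L)) :=
        mul_le_mul_of_nonneg_left i2 hLp.le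
    _ = 2 * 4 ^ k * L ^ (4 * k - 2) := by rw [e6]; field_simp

lemma kap2_nonneg (k : ℕ) : 0 ≤ kap2 k := integral_nonneg fun x => pow_nonneg (gk_nonneg x) k

end

end K1H48.SW
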