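import Pool.Agent.K1H48.SW.Mn4
import Pool.Agent.K1H48.SW.Fub2
import Pool.Agent.K1H48.SW.Ker

set_option autoImplicit false

/-! The weighted variance. -/

namespace K1H48.SW

open MeasureTheory Set Finset Filter
open Pool.Agent.Y969.GP

noncomputable section

/-- the size of the variance -/
def er (k : ℕ) (L U : ℝ) : ℝ := 1 + L ^ (2 * k) / (1 + U * L)

/-- the constant -/
def kc (k : ℕ) : ℝ := (6 / Real.pi ^ 2) ^ k * kap2 k

lemma kc_nonneg (k : ℕ) : 0 ≤ kc k := mul_nonneg (pow_nonneg six_le.1 k) (kap2_nonneg k)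

/-- the main term -/
def pm (k : ℕ) (L U : ℝ) : ℝ :=
  (6 / Real.pi ^ 2) ^ k * I2 U (fun z => Hh L (z.1 - z.2) ^ k) / (U ^ 2 * L ^ (2 * k))

lemma I2_Hh_nonneg (k : ℕ) {L : ℝ} (hL : 0 ≤ L) (U : ℝ) : 0 ≤ I2 U (fun z => Hh L (z.1 - z.2) ^ k) :=
  integral_nonneg fun _ => pow_nonneg (Hh_nonneg hL _) k

lemma pm_nonneg (k : ℕ) {L : ℝ} (hL : 0 ≤ L) (U : ℝ) : 0 ≤ pm k L U :=
  div_nonneg (mul_nonneg (pow_nonneg six_le.1 k) (I2_Hh_nonneg k hL U)) (by positivity)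

/-- the main term for long averages -/
lemma pm_long {k : ℕ} (hk : 2 ≤ k) {L U : ℝ} (hL : 0 < L) (hU : 0 < U) :
    |pm k L U - kc k * (L ^ (2 * k - 1) / U)| ≤ 2 * 4 ^ k * (L ^ (2 * k - 2) / U ^ 2) := by
  have h := ker_main hk hL hU.le
  obtain ⟨H, hH⟩ : ∃ H, H = I2 U (fun z => Hh L (z.1 - z.2) ^ k) := ⟨_, rfl⟩
  obtain ⟨c, hc⟩ : ∃ c : ℝ, c = (6 / Real.pi ^ 2) ^ k := ⟨_, rfl⟩
  have hc0 : 0 ≤ c := by rw [hc]; exact pow_nonneg six_le.1 k
  have hc1 : c ≤ 1 := by rw [hc]; exact pow_le_one₀ six_le.1 six_le.2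
  unfold pm kc
  rw [← hH] at h ⊢
  rw [← hc]
  have hden : 0 < U ^ 2 * L ^ (2 * k) := by positivity
  have e1 : L ^ (4 * k - 1) = L ^ (2 * k - 1) * L ^ (2 * k) := by rw [← pow_add]; congr 1; omega
  have e2 : L ^ (4 * k - 2) = L ^ (2 * k - 2) * L ^ (2 * k) := by rw [← pow_add]; congr 1; omega
  have e : c * H / (U ^ 2 * L ^ (2 * k)) - c * kap2 k * (L ^ (2 * k - 1) / U) =
      c * (H - kap2 k * U * L ^ (4 * k - 1)) / (U ^ 2 * L ^ (2 * k)) := by
    rw [e1]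
    field_simp
  rw [e, abs_div, abs_of_pos hden, abs_mul, abs_of_nonneg hc0, div_le_iff₀ hden]
  have h2 : c * |H - kap2 k * U * L ^ (4 * k - 1)| ≤ 1 * (2 * 4 ^ k * L ^ (4 * k - 2)) :=
    mul_le_mul hc1 h (abs_nonneg _) (by norm_num)
  refine h2.trans (le_of_eq ?_)
  rw [e2]
  field_simp

/-- the size of the main term -/
lemma pm_le {k : ℕ} (hk : 2 ≤ k) {L U : ℝ} (hL : 1 ≤ L) (hU : 0 < U) :
    pm k L U ≤ 2 * (kc k + 2 * 4 ^ k + 1) * er k L U := by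
  have hL0 : 0 < L := by linarith
  have hκ := kc_nonneg k
  have h4 : (0 : ℝ) < 4 ^ k := by positivity
  have hUL : 0 < U * L := by positivity
  have her : L ^ (2 * k) / (1 + U * L) ≤ er k L U := by unfold er; linarith
  rcases le_or_gt (U * L) 1 with h | h
  · have h1 : pm k L U ≤ L ^ (2 * k) := by
      unfold pm
      rw [div_le_iff₀ (by positivity)]
      have h2 : I2 U (fun z => Hh L (z.1 - z.2) ^ k) ≤ (L ^ 4) ^ k * U ^ 2 := by
        rw [← I2_const hU.le]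
        apply I2_mono (((Hh_cont L).comp (by fun_prop : Continuous fun z : ℝ × ℝ => z.1 - z.2)).pow k) continuous_const
        intro t _ t' _
        exact pow_le_pow_left₀ (Hh_nonneg hL0.le _) ((le_abs_self _).trans (Hh_bd hL0.le)) k
      calc (6 / Real.pi ^ 2) ^ k * I2 U (fun z => Hh L (z.1 - z.2) ^ k) ≤ 1 * ((L ^ 4) ^ k * U ^ 2) :=
            mul_le_mul (pow_le_one₀ six_le.1 six_le.2) h2 (I2_Hh_nonneg k hL0.le U) (by norm_num)
        _ = L ^ (2 * k) * (U ^ 2 * L ^ (2 * k)) := by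
            rw [← pow_mul, one_mul]
            have : L ^ (4 * k) = L ^ (2 * k) * L ^ (2 * k) := by rw [← pow_add]; congr 1; omega
            rw [this]; ring
    have h2 : L ^ (2 * k) ≤ 2 * (L ^ (2 * k) / (1 + U * L)) := by
      rw [mul_div_assoc', le_div_iff₀ (by positivity)]
      have : 0 < L ^ (2 * k) := by positivity
      nlinarith
    have h3 : 0 ≤ er k L U := by unfold er; positivity
    nlinarith
  · have h1 := (abs_le.1 (pm_long hk hL0 hU)).2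
    have h2 : L ^ (2 * k - 2) / U ^ 2 ≤ L ^ (2 * k - 1) / U := by
      rw [div_le_div_iff₀ (by positivity) hU]
      have e : L ^ (2 * k - 1) = L ^ (2 * k - 2) * L := by rw [← pow_succ]; congr 1; omega
      rw [e]
      have : 0 < L ^ (2 * k - 2) * U := by positivity
      nlinarith
    have h3 : L ^ (2 * k - 1) / U ≤ 2 * (L ^ (2 * k) / (1 + U * L)) := by
      rw [mul_div_assoc', div_le_div_iff₀ hU (by positivity)]
      have e : L ^ (2 * k) = L ^ (2 * k - 1) * L := by rw [← pow_succ]; congr 1; omega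
      rw [e]
      have : 0 < L ^ (2 * k - 1) := by positivity
      nlinarith
    have h5 : pm k L U ≤ (kc k + 2 * 4 ^ k) * (L ^ (2 * k - 1) / U) := by nlinarith
    have h6 : (kc k + 2 * 4 ^ k) * (L ^ (2 * k - 1) / U) ≤ (kc k + 2 * 4 ^ k) * (2 * er k L U) :=
      mul_le_mul_of_nonneg_left (by linarith) (by positivity)
    have h7 : 0 ≤ er k L U := by unfold er; positivity
    nlinarith

/-- the weighted mean square of `F - G` -/
def VW (k : ℕ) (W : ℝ → ℝ) (T U : ℝ) (S : Finset (ℕ × ℕ)) : ℝ :=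
  (∫ c : Fin k → ℝ, (∏ j, W (c j / T)) * (((∫ t in (0 : ℝ)..U, ∏ j, ff (c j + t)) -
    ∫ t in (0 : ℝ)..U, ∏ j, qr T S (c j + t)) / (U * Real.log T ^ k)) ^ 2 ∂(bm k (T / 2) (4 * T))) / T ^ k

lemma VW_eq {k : ℕ} {W : ℝ → ℝ} (hW : Continuous W) {T U : ℝ} (hT : 1 < T) (hU : 0 < U) (S : Finset (ℕ × ℕ)) :
    VW k W T U S = I2 U (fun z => CW W T ff ff z.1 z.2 ^ k - 2 * CW W T ff (qr T S) z.1 z.2 ^ k +
      CW W T (qr T S) (qr T S) z.1 z.2 ^ k) / (T ^ k * (U ^ 2 * Real.log T ^ (2 * k))) := by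
  have hT0 : 0 < T := by linarith
  have hL : 0 < Real.log T := Real.log_pos hT
  unfold VW
  rw [← var_eq hU.le hT0 hW ff_cont (qr_cont T S)]
  have e : ∀ c : Fin k → ℝ, (∏ j, W (c j / T)) * (((∫ t in (0 : ℝ)..U, ∏ j, ff (c j + t)) -
      ∫ t in (0 : ℝ)..U, ∏ j, qr T S (c j + t)) / (U * Real.log T ^ k)) ^ 2 =
      (U ^ 2 * Real.log T ^ (2 * k))⁻¹ * ((∏ j, W (c j / T)) * ((∫ t in (0 : ℝ)..U, ∏ j, ff (c j + t)) -
      ∫ t in (0 : ℝ)..U, ∏ j, qr T S (c j + t)) ^ 2) := by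
    intro c
    rw [div_pow, mul_pow, ← pow_mul, mul_comm k 2]
    field_simp
  simp_rw [e]
  rw [integral_const_mul]
  field_simp

theorem wvar {k : ℕ} (hk : 2 ≤ k) {KW : ℝ} {W W1 W2 : ℝ → ℝ} (hW : Wgt KW W W1 W2) {ε : ℝ} (hε : 0 < ε) :
    ∃ J₀ : ℕ, ∀ (A : ℝ) (J₁ : ℕ), 0 < A → J₀ ≤ J₁ → ∃ T₀ : ℝ, 3 ≤ T₀ ∧ ∀ T : ℝ, T₀ ≤ T → ∀ S : Finset (ℕ × ℕ),
    FR (2 ^ J₀) ⊆ S → S ⊆ FR (2 ^ J₁) → Sym S → ∀ U : ℝ, 0 < U → U ≤ A * Real.log T ^ (2 * k - 1) →
    |VW k W T U S - wh W ^ k * pm k (Real.log T) U| ≤ ε * er k (Real.log T) U := by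
  obtain ⟨J₀, h⟩ := main_var hk hW (ε := ε / (2 * 2 ^ (4 * k))) (by positivity)
  refine ⟨J₀, fun A J₁ hA h01 => ?_⟩
  obtain ⟨T₁, hT₁, h1⟩ := h A J₁ hA h01
  obtain ⟨T₂, hT₂, h2⟩ := main_small hk hW (ε := ε / (2 * 2 ^ (4 * k))) (by positivity) J₁
  refine ⟨max 3 (max T₁ (max T₂ (Real.exp 1))), le_max_left _ _, fun T hT S hS hS1 hsym U hU0 hUA => ?_⟩
  have hT3 : 3 ≤ T := (le_max_left _ _).trans hT
  have hTa : T₁ ≤ T := ((le_max_left _ _).trans (le_max_right _ _)).trans hT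
  have hTb : T₂ ≤ T := ((le_max_left _ _).trans ((le_max_right _ _).trans (le_max_right _ _))).trans hT
  have hTc : Real.exp 1 ≤ T := ((le_max_right _ _).trans ((le_max_right _ _).trans (le_max_right _ _))).trans hT
  have hT0 : 0 < T := by linarith
  obtain ⟨L, hL⟩ : ∃ L : ℝ, L = Real.log T := ⟨_, rfl⟩
  have hL1 : 1 ≤ L := by rw [hL, Real.le_log_iff_exp_le hT0]; exact hTc
  have hL0 : 0 < L := by linarith
  -- the main term
  have e1 : I2 U (fun z => xi W T (z.1 - z.2) ^ k) =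
      T ^ k * (wh W * (6 / Real.pi ^ 2)) ^ k * I2 U (fun z => Hh L (z.1 - z.2) ^ k) := by
    rw [← I2_mul]
    congr 1
    funext z
    unfold xi
    rw [← hL, ← mul_pow, ← mul_pow]
    congr 1
    ring
  obtain ⟨I, hI⟩ : ∃ I, I = I2 U (fun z => CW W T ff ff z.1 z.2 ^ k - 2 * CW W T ff (qr T S) z.1 z.2 ^ k +
      CW W T (qr T S) (qr T S) z.1 z.2 ^ k) := ⟨_, rfl⟩
  obtain ⟨X, hX⟩ : ∃ X, X = I2 U (fun z => xi W T (z.1 - z.2) ^ k) := ⟨_, rfl⟩
  have g1 := h1 T hTa S hS hS1 hsym U hU0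
  have g2 := h2 T hTb S hS1 hsym U hU0
  rw [← hI, ← hX, ← hL] at g1 g2
  rw [VW_eq hW.c0 (by linarith) hU0, ← hI, ← hL]
  obtain ⟨N, hN⟩ : ∃ N : ℝ, N = T ^ k * (U ^ 2 * L ^ (2 * k)) := ⟨_, rfl⟩
  have hN0 : 0 < N := by rw [hN]; positivity
  have e2 : wh W ^ k * pm k L U = X / N := by
    rw [hX, e1, hN]
    unfold pm
    rw [mul_pow (wh W)]
    field_simp
  rw [← hN, e2, ← sub_div, abs_div, abs_of_pos hN0, div_le_iff₀ hN0]
  have hUL : 0 < U * L := by positivity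
  have a1 : (1 + L) ^ (2 * k) ≤ 2 ^ (2 * k) * L ^ (2 * k) := by
    rw [← mul_pow]; exact pow_le_pow_left₀ (by positivity) (by linarith) _
  have e4 : (2 : ℝ) ^ (4 * k) = 2 ^ (2 * k) * 2 ^ (2 * k) := by rw [← pow_add]; congr 1; omega
  rcases le_or_gt (U * L) 1 with hs | hs
  · have hU1 : U ≤ 1 := by nlinarith
    refine (g2 hU1).trans ?_
    have b1 : (1 + L) ^ (4 * k) ≤ 2 ^ (4 * k) * L ^ (4 * k) := by
      rw [← mul_pow]; exact pow_le_pow_left₀ (by positivity) (by linarith) _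
    have b2 : L ^ (2 * k) ≤ 2 * er k L U := by
      unfold er
      have h3 : L ^ (2 * k) ≤ 2 * (L ^ (2 * k) / (1 + U * L)) := by
        rw [mul_div_assoc', le_div_iff₀ (by positivity)]
        have : 0 < L ^ (2 * k) := by positivity
        nlinarith
      linarith
    have e5 : L ^ (4 * k) = L ^ (2 * k) * L ^ (2 * k) := by rw [← pow_add]; congr 1; omega
    calc ε / (2 * 2 ^ (4 * k)) * (T ^ k * (1 + L) ^ (4 * k)) * U ^ 2 ≤
          ε / (2 * 2 ^ (4 * k)) * (T ^ k * (2 ^ (4 * k) * L ^ (4 * k))) * U ^ 2 := by gcongr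
      _ = ε / 2 * L ^ (2 * k) * N := by rw [e5, hN]; field_simp
      _ ≤ ε / 2 * (2 * er k L U) * N := by gcongr
      _ = ε * er k L U * N := by ring
  · have hUA' : U ≤ A * (1 + L) ^ (2 * k - 1) := by
      refine hUA.trans (mul_le_mul_of_nonneg_left ?_ hA.le)
      rw [← hL]
      exact pow_le_pow_left₀ hL0.le (by linarith) _
    refine (g1 hUA').trans ?_
    have a2 : (1 + L) ^ (2 * k - 1) ≤ 2 ^ (2 * k) * L ^ (2 * k - 1) := by
      calc (1 + L) ^ (2 * k - 1) ≤ (2 * L) ^ (2 * k - 1) := pow_le_pow_left₀ (by positivity) (by linarith) _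
        _ = 2 ^ (2 * k - 1) * L ^ (2 * k - 1) := mul_pow _ _ _
        _ ≤ 2 ^ (2 * k) * L ^ (2 * k - 1) := by
            apply mul_le_mul_of_nonneg_right _ (by positivity)
            exact pow_le_pow_right₀ (by norm_num) (by omega)
    have a3 : U ^ 2 + U * (1 + L) ^ (2 * k - 1) ≤ 2 ^ (2 * k) * (U ^ 2 + U * L ^ (2 * k - 1)) := by
      have b1 : U ^ 2 ≤ 2 ^ (2 * k) * U ^ 2 := le_mul_of_one_le_left (by positivity) (one_le_pow₀ (by norm_num))
      have b2 : U * (1 + L) ^ (2 * k - 1) ≤ U * (2 ^ (2 * k) * L ^ (2 * k - 1)) := mul_le_mul_of_nonneg_left a2 hU0.le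
      linarith
    have a4 : U ^ 2 + U * L ^ (2 * k - 1) ≤ 2 * er k L U * U ^ 2 := by
      have h3 : L ^ (2 * k - 1) / U ≤ 2 * (L ^ (2 * k) / (1 + U * L)) := by
        rw [mul_div_assoc', div_le_div_iff₀ hU0 (by positivity)]
        have e : L ^ (2 * k) = L ^ (2 * k - 1) * L := by rw [← pow_succ]; congr 1; omega
        rw [e]
        have : 0 < L ^ (2 * k - 1) := by positivity
        nlinarith
      have h4 : U * L ^ (2 * k - 1) = L ^ (2 * k - 1) / U * U ^ 2 := by field_simp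
      rw [h4]
      unfold er
      have h5 : L ^ (2 * k - 1) / U * U ^ 2 ≤ 2 * (L ^ (2 * k) / (1 + U * L)) * U ^ 2 :=
        mul_le_mul_of_nonneg_right h3 (by positivity)
      have h6 : 0 ≤ U ^ 2 := by positivity
      linarith
    have her : 0 ≤ er k L U := by unfold er; positivity
    calc ε / (2 * 2 ^ (4 * k)) * (T ^ k * (1 + L) ^ (2 * k) * (U ^ 2 + U * (1 + L) ^ (2 * k - 1))) ≤
          ε / (2 * 2 ^ (4 * k)) * (T ^ k * (2 ^ (2 * k) * L ^ (2 * k)) * (2 ^ (2 * k) * (2 * er k L U * U ^ 2))) := by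
          have a5 := a3.trans (mul_le_mul_of_nonneg_left a4 (by positivity : (0 : ℝ) ≤ 2 ^ (2 * k)))
          gcongr
      _ = ε * er k L U * N := by
          rw [hN, e4]
          field_simp

end

end K1H48.SW
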