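import Pool.Agent.K1H48.SW.Close
import Pool.Agent.K1H48.SW.Nd3
import Mathlib.Analysis.SpecialFunctions.SmoothTransition

set_option autoImplicit false

/-! Smooth weights close to the indicator of `[1, 2]`. -/

namespace K1H48.SW

open MeasureTheory Set Finset Filter
open Pool.Agent.Y969.GP

noncomputable section

/-- a smooth bump -/
def bp (α β a s : ℝ) : ℝ := Real.smoothTransition ((s - α) / a) * Real.smoothTransition ((β - s) / a)

lemma bp_contDiff (α β a : ℝ) : ContDiff ℝ 2 (bp α β a) := by
  unfold bp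
  have h : ContDiff ℝ 2 Real.smoothTransition := Real.smoothTransition.contDiff
  exact (h.comp (by fun_prop)).mul (h.comp (by fun_prop))

lemma bp_nonneg (α β a s : ℝ) : 0 ≤ bp α β a s :=
  mul_nonneg (Real.smoothTransition.nonneg _) (Real.smoothTransition.nonneg _)

lemma bp_le (α β a s : ℝ) : bp α β a s ≤ 1 := by
  unfold bp
  calc _ ≤ 1 * 1 := mul_le_mul (Real.smoothTransition.le_one _) (Real.smoothTransition.le_one _)
        (Real.smoothTransition.nonneg _) (by norm_num)
    _ = 1 := by norm_num

lemma bp_zero_l {α β a s : ℝ} (ha : 0 < a) (h : s ≤ α) : bp α β a s = 0 := by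
  unfold bp
  rw [Real.smoothTransition.zero_of_nonpos (div_nonpos_of_nonpos_of_nonneg (by linarith) ha.le), zero_mul]

lemma bp_zero_r {α β a s : ℝ} (ha : 0 < a) (h : β ≤ s) : bp α β a s = 0 := by
  unfold bp
  rw [Real.smoothTransition.zero_of_nonpos (x := (β - s) / a)
    (div_nonpos_of_nonpos_of_nonneg (by linarith) ha.le), mul_zero]

lemma bp_one {α β a s : ℝ} (ha : 0 < a) (h1 : α + a ≤ s) (h2 : s ≤ β - a) : bp α β a s = 1 := by
  unfold bp
  rw [Real.smoothTransition.one_of_one_le (by rw [le_div_iff₀ ha]; linarith),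
    Real.smoothTransition.one_of_one_le (by rw [le_div_iff₀ ha]; linarith), one_mul]

theorem bp_wgt {α β a : ℝ} (ha : 0 < a) (hα : 1 / 2 < α) (hβ : β < 4) : ∃ (KW : ℝ) (W1 W2 : ℝ → ℝ),
    Wgt KW (bp α β a) W1 W2 := by
  have h0 := bp_contDiff α β a
  have h1 : ContDiff ℝ 1 (deriv (bp α β a)) := by
    have := (contDiff_succ_iff_deriv (n := 1)).1 (by exact_mod_cast h0)
    exact this.2.2
  have h2 : Continuous (deriv (deriv (bp α β a))) := by
    have := (contDiff_one_iff_deriv).1 h1
    exact this.2
  have hd0 : Differentiable ℝ (bp α β a) := h0.differentiable (by norm_num)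
  have hd1 : Differentiable ℝ (deriv (bp α β a)) := h1.differentiable (by norm_num)
  have hc : IsCompact (Icc (1 / 2 : ℝ) 4) := isCompact_Icc
  obtain ⟨C0, hC0⟩ := hc.exists_bound_of_continuousOn h0.continuous.continuousOn
  obtain ⟨C1, hC1⟩ := hc.exists_bound_of_continuousOn h1.continuous.continuousOn
  obtain ⟨C2, hC2⟩ := hc.exists_bound_of_continuousOn h2.continuousOn
  refine ⟨max 1 (max C0 (max C1 C2)), deriv (bp α β a), deriv (deriv (bp α β a)), ?_⟩
  have zl : ∀ᶠ s in nhds (1 / 2 : ℝ), bp α β a s = (fun _ => (0 : ℝ)) s := by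
    filter_upwards [Iio_mem_nhds hα] with s hs
    exact bp_zero_l ha (le_of_lt hs)
  have zr : ∀ᶠ s in nhds (4 : ℝ), bp α β a s = (fun _ => (0 : ℝ)) s := by
    filter_upwards [Ioi_mem_nhds hβ] with s hs
    exact bp_zero_r ha (le_of_lt hs)
  refine ⟨fun s => (hd0 s).hasDerivAt, fun s => (hd1 s).hasDerivAt, h2, fun s => bp_nonneg _ _ _ _,
    bp_zero_l ha hα.le, bp_zero_r ha hβ.le, ?_, ?_, le_max_left _ _, fun s hs => ⟨?_, ?_, ?_⟩⟩
  · rw [Filter.EventuallyEq.deriv_eq zl]; simp
  · rw [Filter.EventuallyEq.deriv_eq zr]; simp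
  · exact (hC0 s hs).trans ((le_max_left _ _).trans (le_max_right _ _))
  · exact (hC1 s hs).trans (((le_max_left _ _).trans (le_max_right _ _)).trans (le_max_right _ _))
  · exact (hC2 s hs).trans (((le_max_right _ _).trans (le_max_right _ _)).trans (le_max_right _ _))

lemma bp_wh {α β a : ℝ} (ha : 0 < a) (hα : 1 / 2 < α) (hβ : β < 4) (hab : α + a ≤ β - a) :
    β - α - 2 * a ≤ wh (bp α β a) ∧ wh (bp α β a) ≤ β - α := by
  have hc := (bp_contDiff α β a).continuous
  have hi : ∀ x y : ℝ, IntervalIntegrable (bp α β a) volume x y := fun x y => hc.intervalIntegrable _ _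
  have e : wh (bp α β a) = ∫ s in α..β, bp α β a s := by
    unfold wh
    rw [← intervalIntegral.integral_add_adjacent_intervals (hi (1 / 2) α) (hi α 4),
      ← intervalIntegral.integral_add_adjacent_intervals (hi α β) (hi β 4)]
    have z1 : ∫ s in (1 / 2 : ℝ)..α, bp α β a s = 0 := by
      apply intervalIntegral.integral_zero_ae
      refine Filter.Eventually.of_forall fun s hs => ?_
      rw [Set.uIoc_of_le hα.le] at hs
      exact bp_zero_l ha hs.2
    have z2 : ∫ s in β..(4 : ℝ), bp α β a s = 0 := by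
      apply intervalIntegral.integral_zero_ae
      refine Filter.Eventually.of_forall fun s hs => ?_
      rw [Set.uIoc_of_le hβ.le] at hs
      exact bp_zero_r ha hs.1.le
    rw [z1, z2, zero_add, add_zero]
  rw [e]
  constructor
  · rw [← intervalIntegral.integral_add_adjacent_intervals (hi α (α + a)) (hi (α + a) β),
      ← intervalIntegral.integral_add_adjacent_intervals (hi (α + a) (β - a)) (hi (β - a) β)]
    have z1 : 0 ≤ ∫ s in α..(α + a), bp α β a s := intervalIntegral.integral_nonneg (by linarith) fun s _ => bp_nonneg _ _ _ _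
    have z2 : 0 ≤ ∫ s in (β - a)..β, bp α β a s := intervalIntegral.integral_nonneg (by linarith) fun s _ => bp_nonneg _ _ _ _
    have z3 : ∫ s in (α + a)..(β - a), bp α β a s = ∫ s in (α + a)..(β - a), (1 : ℝ) := by
      apply intervalIntegral.integral_congr
      intro s hs
      rw [Set.uIcc_of_le hab] at hs
      exact bp_one ha hs.1 hs.2
    rw [z3, intervalIntegral.integral_const, smul_eq_mul, mul_one]
    linarith
  · have h1 := intervalIntegral.integral_mono (μ := volume) (a := α) (b := β) (by linarith) (hi α β)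
      ((continuous_const : Continuous fun _ : ℝ => (1 : ℝ)).intervalIntegrable _ _) (fun s => bp_le α β a s)
    rw [intervalIntegral.integral_const, smul_eq_mul, mul_one] at h1
    exact h1

/-- the mass of the product weight -/
lemma mass {k : ℕ} {W : ℝ → ℝ} {T : ℝ} (hT : 0 < T) :
    ∫ c : Fin k → ℝ, ∏ j, W (c j / T) ∂(bm k (T / 2) (4 * T)) = (T * wh W) ^ k := by
  have hle : T / 2 ≤ 4 * T := by linarith
  unfold bm
  rw [integral_fintype_prod_eq_prod (μ := fun _ : Fin k => volume.restrict (Icc (T / 2) (4 * T)))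
      (fun _ x => W (x / T)), Finset.prod_const, Finset.card_univ, Fintype.card_fin]
  congr 1
  rw [integral_Icc_eq_integral_Ioc, ← intervalIntegral.integral_of_le hle, ← wh_eq W hT]
  field_simp

end

end K1H48.SW
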