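import Pool.Agent.K1H48.SW.Up
import Pool.Agent.K1H48.SW.Wts
import Pool.Agent.K1H48.SW.Vr

set_option autoImplicit false

/-! The variance formula. -/

namespace K1H48.SW

open MeasureTheory Set Finset Filter
open Pool.Agent.Y969.GP

noncomputable section

lemma reg_up {k : ℕ} {W : ℝ → ℝ} (hW : Continuous W) (h0 : ∀ s, 0 ≤ W s) (h1 : ∀ s ∈ Icc (1 : ℝ) 2, 1 ≤ W s) {T : ℝ}
    (hT : 0 < T) {Φ : (Fin k → ℝ) → ℝ} (hΦ : Continuous Φ) (hΦ0 : ∀ c, 0 ≤ Φ c) :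
    ∫ c, Φ c ∂(bm k T (2 * T)) ≤ ∫ c, (∏ j, W (c j / T)) * Φ c ∂(bm k (T / 2) (4 * T)) := by
  have cp : Continuous (fun c : Fin k → ℝ => ∏ j, W (c j / T)) := by fun_prop
  have h2 : ∫ c, Φ c ∂(bm k T (2 * T)) ≤ ∫ c, (∏ j, W (c j / T)) * Φ c ∂(bm k T (2 * T)) := by
    apply integral_mono_ae (int_bm hΦ) (int_bm (cp.mul hΦ))
    rw [bm_eq]
    filter_upwards [ae_restrict_mem (MeasurableSet.univ_pi fun _ => measurableSet_Icc)] with c hc
    have h3 : 1 ≤ ∏ j, W (c j / T) := by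
      calc (1 : ℝ) = ∏ _j : Fin k, (1 : ℝ) := by simp
        _ ≤ ∏ j, W (c j / T) := Finset.prod_le_prod (fun _ _ => by norm_num) fun j _ => by
            apply h1
            have := hc j (Set.mem_univ j)
            exact ⟨by rw [le_div_iff₀ hT]; linarith [this.1], by rw [div_le_iff₀ hT]; exact this.2⟩
    exact le_mul_of_one_le_left (hΦ0 c) h3
  refine h2.trans ?_
  exact box_mono (by linarith) (by linarith) (cp.mul hΦ) fun c => mul_nonneg (Finset.prod_nonneg fun _ _ => h0 _) (hΦ0 c)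

lemma reg_lo {k : ℕ} {W : ℝ → ℝ} (hW : Continuous W) (h0 : ∀ s, 0 ≤ W s) (h1 : ∀ s, W s ≤ 1)
    (h2 : ∀ s, s ∉ Icc (1 : ℝ) 2 → W s = 0) {T : ℝ}
    (hT : 0 < T) {Φ : (Fin k → ℝ) → ℝ} (hΦ : Continuous Φ) (hΦ0 : ∀ c, 0 ≤ Φ c) :
    ∫ c, (∏ j, W (c j / T)) * Φ c ∂(bm k (T / 2) (4 * T)) ≤ ∫ c, Φ c ∂(bm k T (2 * T)) := by
  have cp : Continuous (fun c : Fin k → ℝ => ∏ j, W (c j / T)) := by fun_prop
  have h3 : ∫ c, (∏ j, W (c j / T)) * Φ c ∂(bm k (T / 2) (4 * T)) = ∫ c, (∏ j, W (c j / T)) * Φ c ∂(bm k T (2 * T)) := by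
    rw [bm_eq, bm_eq]
    apply setIntegral_eq_of_subset_of_forall_sdiff_eq_zero (MeasurableSet.univ_pi fun _ => measurableSet_Icc)
    · intro c hc i hi
      have := hc i hi
      exact ⟨by linarith [this.1], by linarith [this.2]⟩
    · rintro c ⟨_, hc⟩
      rw [Set.mem_univ_pi] at hc
      push Not at hc
      obtain ⟨j, hj⟩ := hc
      have : W (c j / T) = 0 := by
        apply h2
        intro h
        apply hj
        exact ⟨by have := h.1; rw [le_div_iff₀ hT] at this; linarith, by have := h.2; rwa [div_le_iff₀ hT] at this⟩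
      rw [Finset.prod_eq_zero (Finset.mem_univ j) this, zero_mul]
  rw [h3]
  apply integral_mono (int_bm (cp.mul hΦ)) (int_bm hΦ)
  intro c
  have h4 : ∏ j, W (c j / T) ≤ 1 := Finset.prod_le_one (fun j _ => h0 _) (fun j _ => h1 _)
  exact mul_le_of_le_one_left (hΦ0 c) h4

/-- the two comparisons between `F - S` and `F - G` -/
lemma cmp {k : ℕ} {W : ℝ → ℝ} (hW : Continuous W) (h0 : ∀ s, 0 ≤ W s) {T δ D : ℝ} (hT : 0 < T) (hδ : 0 < δ)
    {x d : (Fin k → ℝ) → ℝ} (hx : Continuous x) (hd : Continuous d) (hD : ∀ c, d c ^ 2 ≤ D) :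
    ∫ c, (∏ j, W (c j / T)) * (x c + d c) ^ 2 ∂(bm k (T / 2) (4 * T)) ≤
      (1 + δ) * ∫ c, (∏ j, W (c j / T)) * x c ^ 2 ∂(bm k (T / 2) (4 * T)) + (1 + 1 / δ) * D * (T * wh W) ^ k ∧
    (1 - δ) * ∫ c, (∏ j, W (c j / T)) * x c ^ 2 ∂(bm k (T / 2) (4 * T)) - 1 / δ * D * (T * wh W) ^ k ≤
      ∫ c, (∏ j, W (c j / T)) * (x c + d c) ^ 2 ∂(bm k (T / 2) (4 * T)) := by
  have cp : Continuous (fun c : Fin k → ℝ => ∏ j, W (c j / T)) := by fun_prop
  have i1 : Integrable (fun c : Fin k → ℝ => (∏ j, W (c j / T)) * (x c + d c) ^ 2) (bm k (T / 2) (4 * T)) :=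
    int_bm (cp.mul ((hx.add hd).pow 2))
  have i2 : Integrable (fun c : Fin k → ℝ => (∏ j, W (c j / T)) * x c ^ 2) (bm k (T / 2) (4 * T)) :=
    int_bm (cp.mul (hx.pow 2))
  have i3 : Integrable (fun c : Fin k → ℝ => ∏ j, W (c j / T)) (bm k (T / 2) (4 * T)) := int_bm cp
  have hp : ∀ c : Fin k → ℝ, 0 ≤ ∏ j, W (c j / T) := fun c => Finset.prod_nonneg fun _ _ => h0 _
  have key : ∀ c, |2 * (x c * d c)| ≤ δ * x c ^ 2 + 1 / δ * d c ^ 2 := by
    intro c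
    have e1 : 0 ≤ δ * (x c - 1 / δ * d c) ^ 2 := by positivity
    have e2 : 0 ≤ δ * (x c + 1 / δ * d c) ^ 2 := by positivity
    have e3 : δ * (x c - 1 / δ * d c) ^ 2 = δ * x c ^ 2 + 1 / δ * d c ^ 2 - 2 * (x c * d c) := by field_simp; ring
    have e4 : δ * (x c + 1 / δ * d c) ^ 2 = δ * x c ^ 2 + 1 / δ * d c ^ 2 + 2 * (x c * d c) := by field_simp; ring
    rw [abs_le]
    constructor <;> linarith
  have hinv : 0 < 1 / δ := by positivity
  constructor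
  · have h1 : ∫ c, (∏ j, W (c j / T)) * (x c + d c) ^ 2 ∂(bm k (T / 2) (4 * T)) ≤
        ∫ c, ((1 + δ) * ((∏ j, W (c j / T)) * x c ^ 2) + (1 + 1 / δ) * D * ∏ j, W (c j / T)) ∂(bm k (T / 2) (4 * T)) := by
      have i4 : Integrable (fun c : Fin k → ℝ => (1 + δ) * ((∏ j, W (c j / T)) * x c ^ 2) +
          (1 + 1 / δ) * D * ∏ j, W (c j / T)) (bm k (T / 2) (4 * T)) := (i2.const_mul _).add (i3.const_mul _)
      apply integral_mono i1 i4
      intro c
      show (∏ j, W (c j / T)) * (x c + d c) ^ 2 ≤ (1 + δ) * ((∏ j, W (c j / T)) * x c ^ 2) +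
          (1 + 1 / δ) * D * ∏ j, W (c j / T)
      have h2 := (le_abs_self _).trans (key c)
      have h3 := hD c
      have h4 : (x c + d c) ^ 2 ≤ (1 + δ) * x c ^ 2 + (1 + 1 / δ) * D := by nlinarith
      calc (∏ j, W (c j / T)) * (x c + d c) ^ 2 ≤ (∏ j, W (c j / T)) * ((1 + δ) * x c ^ 2 + (1 + 1 / δ) * D) :=
            mul_le_mul_of_nonneg_left h4 (hp c)
        _ = _ := by ring
    refine h1.trans (le_of_eq ?_)
    rw [integral_add (i2.const_mul _) (i3.const_mul _), integral_const_mul, integral_const_mul, mass hT]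
  · have h1 : ∫ c, ((1 - δ) * ((∏ j, W (c j / T)) * x c ^ 2) - 1 / δ * D * ∏ j, W (c j / T)) ∂(bm k (T / 2) (4 * T)) ≤
        ∫ c, (∏ j, W (c j / T)) * (x c + d c) ^ 2 ∂(bm k (T / 2) (4 * T)) := by
      have i4 : Integrable (fun c : Fin k → ℝ => (1 - δ) * ((∏ j, W (c j / T)) * x c ^ 2) -
          1 / δ * D * ∏ j, W (c j / T)) (bm k (T / 2) (4 * T)) := (i2.const_mul _).sub (i3.const_mul _)
      apply integral_mono i4 i1
      intro c
      show (1 - δ) * ((∏ j, W (c j / T)) * x c ^ 2) - 1 / δ * D * ∏ j, W (c j / T) ≤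
          (∏ j, W (c j / T)) * (x c + d c) ^ 2
      have h2 := (neg_le_abs _).trans (key c)
      have h3 := hD c
      have h4 : (1 - δ) * x c ^ 2 - 1 / δ * D ≤ (x c + d c) ^ 2 := by nlinarith [sq_nonneg (d c)]
      calc _ = (∏ j, W (c j / T)) * ((1 - δ) * x c ^ 2 - 1 / δ * D) := by ring
        _ ≤ _ := mul_le_mul_of_nonneg_left h4 (hp c)
    refine le_trans (le_of_eq ?_) h1
    rw [integral_sub (i2.const_mul _) (i3.const_mul _), integral_const_mul, integral_const_mul, mass hT]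

/-- the model is close to the singular product -/
theorem d_bd {k : ℕ} (y : ℕ) {η : ℝ} (hη : 0 < η) : ∃ N₀ : ℕ, ∀ N : ℕ, N₀ ≤ N → ∃ C : ℝ, 0 < C ∧
    ∀ T U : ℝ, 1 < T → 0 < U → ∀ c : Fin k → ℝ,
    ((∫ t in (0 : ℝ)..U, ∏ j, qr T (Sy y N) (c j + t)) / (U * Real.log T ^ k) - SP y c) ^ 2 ≤ C / (1 + U) + 2 * η ^ 2 := by
  obtain ⟨N₀, h⟩ := model_lim (k := k) y hη
  refine ⟨N₀, fun N hN => ?_⟩
  obtain ⟨C, hC, hmod⟩ := h N hN
  obtain ⟨B, hB⟩ : ∃ B : ℝ, B = ∑ p ∈ Sy y N, (√(ht p))⁻¹ := ⟨_, rfl⟩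
  have hB0 : 0 ≤ B := by rw [hB]; exact Finset.sum_nonneg fun _ _ => by positivity
  have hq : ∀ T u : ℝ, 1 < T → |qr T (Sy y N) u| ≤ Real.log T * B := by
    intro T u hT
    have hL : 0 < Real.log T := Real.log_pos hT
    unfold qr
    rw [abs_mul, abs_of_pos hL]
    apply mul_le_mul_of_nonneg_left _ hL.le
    rw [hB]
    refine (Finset.abs_sum_le_sum_abs _ _).trans (Finset.sum_le_sum fun p _ => ?_)
    rw [abs_mul, abs_of_nonneg (by positivity : 0 ≤ (√(ht p))⁻¹)]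
    exact mul_le_of_le_one_right (by positivity) (Real.abs_cos_le_one _)
  have hI : ∀ T U : ℝ, 1 < T → 0 < U → ∀ c : Fin k → ℝ,
      |(∫ t in (0 : ℝ)..U, ∏ j, qr T (Sy y N) (c j + t)) / (U * Real.log T ^ k)| ≤ B ^ k := by
    intro T U hT hU c
    have hL : 0 < Real.log T := Real.log_pos hT
    have hden : 0 < U * Real.log T ^ k := by positivity
    rw [abs_div, abs_of_pos hden, div_le_iff₀ hden]
    have h1 := intervalIntegral.norm_integral_le_of_norm_le_const (a := 0) (b := U) (C := (Real.log T * B) ^ k)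
      (f := fun t => ∏ j, qr T (Sy y N) (c j + t)) (fun t _ => by
        rw [Real.norm_eq_abs, Finset.abs_prod]
        calc ∏ j, |qr T (Sy y N) (c j + t)| ≤ ∏ _j : Fin k, (Real.log T * B) :=
              Finset.prod_le_prod (fun _ _ => abs_nonneg _) fun j _ => hq T _ hT
          _ = _ := by rw [Finset.prod_const, Finset.card_univ, Fintype.card_fin])
    rw [Real.norm_eq_abs, sub_zero, abs_of_pos hU] at h1
    refine h1.trans (le_of_eq ?_)
    rw [mul_pow]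
    ring
  have hS : ∀ c : Fin k → ℝ, |SP y c| ≤ B ^ k + C + η := by
    intro c
    obtain ⟨T, hT⟩ : ∃ T : ℝ, T = Real.exp 1 := ⟨_, rfl⟩
    have hT1 : 1 < T := by rw [hT]; exact Real.one_lt_exp_iff.2 one_pos
    have hLT : Real.log T = 1 := by rw [hT, Real.log_exp]
    have h1 := hI T 1 hT1 one_pos c
    have h2 := hmod T 1 hT1.le (by norm_num) c
    rw [hLT] at h1 h2
    simp only [one_pow, one_mul, div_one] at h1 h2
    have e : SP y c = (∫ t in (0 : ℝ)..1, ∏ j, qr T (Sy y N) (c j + t)) -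
        ((∫ t in (0 : ℝ)..1, ∏ j, qr T (Sy y N) (c j + t)) - ∏ p ∈ Pr y, sg p c) := by
      unfold SP; ring
    rw [e]
    refine (abs_sub _ _).trans ?_
    linarith
  refine ⟨4 * C ^ 2 + 2 * (2 * B ^ k + C + η) ^ 2, by positivity, fun T U hT hU c => ?_⟩
  have hL : 0 < Real.log T := Real.log_pos hT
  have hden : 0 < U * Real.log T ^ k := by positivity
  obtain ⟨d, hd⟩ : ∃ d : ℝ, d = (∫ t in (0 : ℝ)..U, ∏ j, qr T (Sy y N) (c j + t)) / (U * Real.log T ^ k) - SP y c := ⟨_, rfl⟩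
  rw [← hd]
  rw [add_div]
  have p1 : 0 ≤ 4 * C ^ 2 / (1 + U) := by positivity
  have p2 : 0 ≤ 2 * (2 * B ^ k + C + η) ^ 2 / (1 + U) := by positivity
  have p3 : 0 ≤ 2 * η ^ 2 := by positivity
  rcases le_or_gt U 1 with hU1 | hU1
  · have h1 : |d| ≤ 2 * B ^ k + C + η := by
      rw [hd]
      refine (abs_sub _ _).trans ?_
      have := hI T U hT hU c
      have := hS c
      linarith
    have h2 : d ^ 2 ≤ 2 * (2 * B ^ k + C + η) ^ 2 / (1 + U) := by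
      rw [le_div_iff₀ (by positivity), ← sq_abs d]
      have h3 := pow_le_pow_left₀ (abs_nonneg _) h1 2
      have h4 : 0 ≤ |d| ^ 2 := by positivity
      nlinarith
    linarith
  · have h2 : |d| ≤ C / U + η := by
      rw [hd]
      have e : (∫ t in (0 : ℝ)..U, ∏ j, qr T (Sy y N) (c j + t)) / (U * Real.log T ^ k) - SP y c =
          ((∫ t in (0 : ℝ)..U, ∏ j, qr T (Sy y N) (c j + t)) - U * Real.log T ^ k * ∏ p ∈ Pr y, sg p c) /
            (U * Real.log T ^ k) := by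
        unfold SP
        field_simp
      rw [e, abs_div, abs_of_pos hden, div_le_iff₀ hden]
      refine (hmod T U hT.le hU.le c).trans (le_of_eq ?_)
      field_simp
    have h3 : (C / U) ^ 2 ≤ 2 * C ^ 2 / (1 + U) := by
      rw [div_pow, div_le_div_iff₀ (by positivity) (by positivity)]
      have : C ^ 2 * (1 + U) ≤ C ^ 2 * (2 * U ^ 2) := mul_le_mul_of_nonneg_left (by nlinarith) (by positivity)
      linarith
    have h4 : 0 ≤ (C / U - η) ^ 2 := sq_nonneg _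
    have h5 : d ^ 2 ≤ (C / U + η) ^ 2 := by
      rw [← sq_abs d]
      exact pow_le_pow_left₀ (abs_nonneg _) h2 2
    have e6 : 4 * C ^ 2 / (1 + U) = 2 * (2 * C ^ 2 / (1 + U)) := by ring
    rw [e6] at p1 ⊢
    nlinarith

/-- both bounds, for short averages -/
theorem both {k : ℕ} {T U δ D : ℝ} {y N : ℕ} (hT : 1 < T) (hδ : 0 < δ)
    (hD : ∀ c : Fin k → ℝ,
      ((∫ t in (0 : ℝ)..U, ∏ j, qr T (Sy y N) (c j + t)) / (U * Real.log T ^ k) - SP y c) ^ 2 ≤ D)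
    {W : ℝ → ℝ} (hW : Continuous W) (h0 : ∀ s, 0 ≤ W s) :
    ((∀ s ∈ Icc (1 : ℝ) 2, 1 ≤ W s) →
      (∫ c : Fin k → ℝ, (FA T U c - SP y c) ^ 2 ∂(bm k T (2 * T))) / T ^ k ≤
        (1 + δ) * VW k W T U (Sy y N) + (1 + 1 / δ) * D * wh W ^ k) ∧
    ((∀ s, W s ≤ 1) → (∀ s, s ∉ Icc (1 : ℝ) 2 → W s = 0) →
      (1 - δ) * VW k W T U (Sy y N) - 1 / δ * D * wh W ^ k ≤
        (∫ c : Fin k → ℝ, (FA T U c - SP y c) ^ 2 ∂(bm k T (2 * T))) / T ^ k) := by
  have hT0 : 0 < T := by linarith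
  obtain ⟨x, hx⟩ : ∃ x : (Fin k → ℝ) → ℝ, x = fun c => ((∫ t in (0 : ℝ)..U, ∏ j, ff (c j + t)) -
    ∫ t in (0 : ℝ)..U, ∏ j, qr T (Sy y N) (c j + t)) / (U * Real.log T ^ k) := ⟨_, rfl⟩
  obtain ⟨d, hd⟩ : ∃ d : (Fin k → ℝ) → ℝ, d = fun c =>
    (∫ t in (0 : ℝ)..U, ∏ j, qr T (Sy y N) (c j + t)) / (U * Real.log T ^ k) - SP y c := ⟨_, rfl⟩
  have cf : Continuous (fun c : Fin k → ℝ => ∫ t in (0 : ℝ)..U, ∏ j, ff (c j + t)) := cont_avg (fun _ => ff_cont) U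
  have cq : Continuous (fun c : Fin k → ℝ => ∫ t in (0 : ℝ)..U, ∏ j, qr T (Sy y N) (c j + t)) :=
    cont_avg (fun _ => qr_cont T _) U
  have hxc : Continuous x := by rw [hx]; exact (cf.sub cq).div_const _
  have hdc : Continuous d := by rw [hd]; exact (cq.div_const _).sub (SP_cont y)
  have hxd : ∀ c, FA T U c - SP y c = x c + d c := by
    intro c
    rw [hx, hd]
    unfold FA
    simp only
    ring
  have hD' : ∀ c, d c ^ 2 ≤ D := by
    intro c
    rw [hd]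
    exact hD c
  obtain ⟨c1, c2⟩ := cmp (k := k) hW h0 hT0 hδ hxc hdc hD'
  have hVW : VW k W T U (Sy y N) = (∫ c, (∏ j, W (c j / T)) * x c ^ 2 ∂(bm k (T / 2) (4 * T))) / T ^ k := by
    unfold VW
    rw [hx]
  have hTk : 0 < T ^ k := by positivity
  have hΦ : Continuous fun c : Fin k → ℝ => (FA T U c - SP y c) ^ 2 := ((FA_cont T U).sub (SP_cont y)).pow 2
  have hE : ∫ c, (∏ j, W (c j / T)) * (FA T U c - SP y c) ^ 2 ∂(bm k (T / 2) (4 * T)) =
      ∫ c, (∏ j, W (c j / T)) * (x c + d c) ^ 2 ∂(bm k (T / 2) (4 * T)) := by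
    simp_rw [hxd]
  constructor
  · intro h1
    have r := reg_up hW h0 h1 hT0 hΦ (fun c => sq_nonneg _)
    rw [hE] at r
    have r2 := r.trans c1
    rw [hVW, div_le_iff₀ hTk]
    refine r2.trans (le_of_eq ?_)
    rw [mul_pow]
    field_simp
  · intro h1 h2
    have r := reg_lo hW h0 h1 h2 hT0 hΦ (fun c => sq_nonneg _)
    rw [hE] at r
    have r2 := c2.trans r
    rw [hVW, le_div_iff₀ hTk]
    refine le_trans (le_of_eq ?_) r2
    rw [mul_pow]
    field_simp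

end

end K1H48.SW
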