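import Pool.Agent.K1H48.SW.Fin1

set_option autoImplicit false

/-! The variance formula, uniformly in the length. -/

namespace K1H48.SW

open MeasureTheory Set Finset Filter
open Pool.Agent.Y969.GP

noncomputable section

lemma small_a (k : ℕ) {δ : ℝ} (hδ : 0 < δ) : ∃ a : ℝ, 0 < a ∧ a < 1 / 8 ∧ (1 + 2 * a) ^ k ≤ 1 + δ ∧ 1 - δ ≤ (1 - 2 * a) ^ k := by
  have h1 : Tendsto (fun a : ℝ => (1 + 2 * a) ^ k) (nhdsWithin 0 (Ioi 0)) (nhds ((1 + 2 * 0) ^ k)) :=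
    ((by fun_prop : Continuous fun a : ℝ => (1 + 2 * a) ^ k).tendsto 0).mono_left nhdsWithin_le_nhds
  have h2 : Tendsto (fun a : ℝ => (1 - 2 * a) ^ k) (nhdsWithin 0 (Ioi 0)) (nhds ((1 - 2 * 0) ^ k)) :=
    ((by fun_prop : Continuous fun a : ℝ => (1 - 2 * a) ^ k).tendsto 0).mono_left nhdsWithin_le_nhds
  rw [mul_zero, add_zero, one_pow] at h1
  rw [mul_zero, sub_zero, one_pow] at h2
  have e1 := h1.eventually (gt_mem_nhds (show (1 : ℝ) < 1 + δ by linarith))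
  have e2 := h2.eventually (lt_mem_nhds (show 1 - δ < (1 : ℝ) by linarith))
  have e3 : ∀ᶠ a : ℝ in nhdsWithin 0 (Ioi 0), a < 1 / 8 :=
    nhdsWithin_le_nhds (Iio_mem_nhds (by norm_num))
  have e4 : ∀ᶠ a : ℝ in nhdsWithin 0 (Ioi 0), 0 < a := self_mem_nhdsWithin
  obtain ⟨a, a1, a2, a3, a4⟩ := (e1.and (e2.and (e3.and e4))).exists
  exact ⟨a, a4, a3, a1.le, a2.le⟩

lemma arith1 {L U : ℝ} (hL1 : 1 ≤ L) : L * (1 + U * L) ≤ L ^ 2 * (1 + U) := by
  have : L * 1 ≤ L * L := mul_le_mul_of_nonneg_left hL1 (by linarith)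
  linarith

lemma arith2 {a b U : ℝ} (ha : 0 ≤ a) (hU : 0 ≤ U) (h6 : 1 ≤ b * U) : a * U ≤ a * b * U ^ 2 := by
  have := mul_le_mul_of_nonneg_left h6 (mul_nonneg ha hU)
  linarith

lemma arith3 {P κ X q Y : ℝ} (hq : 0 ≤ q) (h3 : P - κ * X ≤ q * Y) (h4 : Y ≤ X) : P ≤ (κ + q) * X := by
  have := mul_le_mul_of_nonneg_left h4 hq
  linarith

/-- the arithmetic of the final step -/
lemma arith {P E c δ ε ε₁ D w₁ w₂ V₁ V₂ M : ℝ} (hP : 0 ≤ P) (hE : 0 ≤ E) (hPE : P ≤ c * E) (hδ : 0 < δ) (hδ1 : δ ≤ 1)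
    (hε₁ : 0 ≤ ε₁) (hD : 0 ≤ D) (hδκ : 3 * δ * c ≤ ε / 4) (hε₁ε : 2 * ε₁ ≤ ε / 4) (hDε : 4 / δ * D ≤ ε / 2 * E)
    (hw₁ : w₁ ≤ 1 + δ) (hw₂ : 1 - δ ≤ w₂) (hw₂' : w₂ ≤ 1)
    (h1 : |V₁ - w₁ * P| ≤ ε₁ * E) (h2 : |V₂ - w₂ * P| ≤ ε₁ * E)
    (hM1 : M ≤ (1 + δ) * V₁ + (1 + 1 / δ) * D * w₁) (hM2 : (1 - δ) * V₂ - 1 / δ * D * w₂ ≤ M) :
    |M - P| ≤ ε * E := by
  have a1 := (abs_le.1 h1).2
  have a2 := (abs_le.1 h2).1
  have hE' : 0 ≤ ε₁ * E := mul_nonneg hε₁ hE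
  have b1 : V₁ ≤ (1 + δ) * P + ε₁ * E := by
    have := mul_le_mul_of_nonneg_right hw₁ hP
    linarith
  have b2 : (1 - δ) * P - ε₁ * E ≤ V₂ := by
    have := mul_le_mul_of_nonneg_right hw₂ hP
    linarith
  have c1 : (1 + δ) * V₁ ≤ P + 3 * δ * P + 2 * (ε₁ * E) := by
    have := mul_le_mul_of_nonneg_left b1 (by linarith : 0 ≤ 1 + δ)
    have h3 : δ * (ε₁ * E) ≤ 1 * (ε₁ * E) := mul_le_mul_of_nonneg_right hδ1 hE'
    have h4 : δ * (δ * P) ≤ 1 * (δ * P) := mul_le_mul_of_nonneg_right hδ1 (mul_nonneg hδ.le hP)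
    linarith
  have c2 : P - 3 * δ * P - 2 * (ε₁ * E) ≤ (1 - δ) * V₂ := by
    have := mul_le_mul_of_nonneg_left b2 (by linarith : 0 ≤ 1 - δ)
    have h3 : 0 ≤ δ * (ε₁ * E) := mul_nonneg hδ.le hE'
    have h4 : 0 ≤ δ * (δ * P) := mul_nonneg hδ.le (mul_nonneg hδ.le hP)
    have h5 : 0 ≤ δ * P := mul_nonneg hδ.le hP
    linarith
  have d1 : 3 * δ * P ≤ ε / 4 * E := by
    calc 3 * δ * P ≤ 3 * δ * (c * E) := mul_le_mul_of_nonneg_left hPE (by linarith)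
      _ = 3 * δ * c * E := by ring
      _ ≤ _ := mul_le_mul_of_nonneg_right hδκ hE
  have d2 : 2 * (ε₁ * E) ≤ ε / 4 * E := by
    have := mul_le_mul_of_nonneg_right hε₁ε hE
    linarith
  have hi : 1 ≤ 1 / δ := by rw [le_div_iff₀ hδ]; linarith
  have d3 : (1 + 1 / δ) * D * w₁ ≤ 4 / δ * D := by
    have e1 : (1 + 1 / δ) * D ≤ 2 / δ * D := by
      apply mul_le_mul_of_nonneg_right _ hD
      have : 2 / δ = 1 / δ + 1 / δ := by ring
      linarith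
    have e2 : (1 + 1 / δ) * D * w₁ ≤ (1 + 1 / δ) * D * 2 :=
      mul_le_mul_of_nonneg_left (by linarith) (mul_nonneg (by linarith) hD)
    have e3 : 4 / δ * D = 2 / δ * D * 2 := by ring
    linarith
  have d4 : 1 / δ * D * w₂ ≤ 4 / δ * D := by
    have e0 : 0 ≤ 1 / δ * D := mul_nonneg (by linarith) hD
    have e1 : 1 / δ * D * w₂ ≤ 1 / δ * D * 1 := mul_le_mul_of_nonneg_left hw₂' e0
    have e3 : 4 / δ * D = 4 * (1 / δ * D) := by ring
    linarith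
  rw [abs_le]
  constructor <;> linarith

/-- the variance of the short averages -/
theorem variance {k : ℕ} (hk : 2 ≤ k) {ε : ℝ} (hε : 0 < ε) : ∃ y₀ : ℕ, ∀ y : ℕ, y₀ ≤ y → ∃ T₀ : ℝ, 3 ≤ T₀ ∧
    ∀ T : ℝ, T₀ ≤ T → ∀ U : ℝ, 0 < U → U ≤ T →
    |(∫ c : Fin k → ℝ, (FA T U c - SP y c) ^ 2 ∂(bm k T (2 * T))) / T ^ k - pm k (Real.log T) U| ≤
      ε * er k (Real.log T) U := by
  have hκ := kc_nonneg k
  have h4k : (0 : ℝ) < 4 ^ k := by positivity
  obtain ⟨cP, hcP⟩ : ∃ cP : ℝ, cP = 2 * (kc k + 2 * 4 ^ k + 1) := ⟨_, rfl⟩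
  have hcP0 : 0 < cP := by rw [hcP]; positivity
  obtain ⟨δ, hδe⟩ : ∃ δ : ℝ, δ = min 1 (ε / (12 * cP)) := ⟨_, rfl⟩
  have hδ : 0 < δ := by rw [hδe]; apply lt_min one_pos; positivity
  have hδ1 : δ ≤ 1 := by rw [hδe]; exact min_le_left _ _
  have hδκ : 3 * δ * cP ≤ ε / 4 := by
    have h1 : δ ≤ ε / (12 * cP) := by rw [hδe]; exact min_le_right _ _
    rw [le_div_iff₀ (by positivity)] at h1
    linarith
  obtain ⟨a, ha, ha8, ha1, ha2⟩ := small_a k hδ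
  obtain ⟨K₁, P1, P2, hP⟩ := bp_wgt (α := 1 - a) (β := 2 + a) ha (by linarith) (by linarith)
  obtain ⟨K₂, Q1, Q2, hQ⟩ := bp_wgt (α := 1) (β := 2) ha (by norm_num) (by norm_num)
  obtain ⟨p1, p2⟩ := bp_wh (α := 1 - a) (β := 2 + a) ha (by linarith) (by linarith) (by linarith)
  obtain ⟨q1, q2⟩ := bp_wh (α := 1) (β := 2) ha (by norm_num) (by norm_num) (by linarith)
  have hwp : wh (bp (1 - a) (2 + a) a) ^ k ≤ 1 + δ := by
    refine (pow_le_pow_left₀ (wh_nonneg hP) ?_ k).trans ha1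
    linarith
  have hwq : 1 - δ ≤ wh (bp 1 2 a) ^ k := by
    refine ha2.trans (pow_le_pow_left₀ (by linarith) ?_ k)
    linarith
  have hwq1 : wh (bp 1 2 a) ^ k ≤ 1 := pow_le_one₀ (wh_nonneg hQ) (by linarith)
  obtain ⟨J₁, h1⟩ := wvar hk hP (ε := ε / 8) (by positivity)
  obtain ⟨J₂, h2⟩ := wvar hk hQ (ε := ε / 8) (by positivity)
  obtain ⟨y₁, hup⟩ := upper hk (ε := ε / 2) (by positivity)
  refine ⟨max y₁ (2 ^ max J₁ J₂), fun y hy => ?_⟩
  have hy1 : y₁ ≤ y := (le_max_left _ _).trans hy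
  have hy2 : 2 ^ max J₁ J₂ ≤ y := (le_max_right _ _).trans hy
  obtain ⟨A₀, T₀, hA₀, hT₀, hup2⟩ := hup y hy1
  obtain ⟨A, hAe⟩ : ∃ A : ℝ, A = max (max A₀ 1) (2 * (kc k + 2 * 4 ^ k) / ε) := ⟨_, rfl⟩
  have hA0 : A₀ ≤ A := by rw [hAe]; exact (le_max_left _ _).trans (le_max_left _ _)
  have hAone : 1 ≤ A := by rw [hAe]; exact (le_max_right _ _).trans (le_max_left _ _)
  have hA1 : 2 * (kc k + 2 * 4 ^ k) / ε ≤ A := by rw [hAe]; exact le_max_right _ _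
  have hA : 0 < A := by linarith
  obtain ⟨η, hη⟩ : ∃ η : ℝ, η = √(δ * ε / 32) := ⟨_, rfl⟩
  have hη0 : 0 < η := by rw [hη]; positivity
  have hη2 : η ^ 2 = δ * ε / 32 := by rw [hη, Real.sq_sqrt (by positivity)]
  obtain ⟨N₀, hN₀⟩ := d_bd (k := k) y hη0
  obtain ⟨N, hN⟩ : ∃ N, N = max N₀ (max J₁ J₂) := ⟨_, rfl⟩
  obtain ⟨C, hC, hmod⟩ := hN₀ N (by rw [hN]; exact le_max_left _ _)
  obtain ⟨J₃, hJ₃⟩ := Sy_sub y N
  have hsup : FR (2 ^ max J₁ J₂) ⊆ Sy y N := Sy_sup hy2 (by rw [hN]; exact le_max_right _ _)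
  obtain ⟨J, hJ⟩ : ∃ J, J = max J₃ (max J₁ J₂) := ⟨_, rfl⟩
  have hSJ : Sy y N ⊆ FR (2 ^ J) := hJ₃.trans (FR_mono (Nat.pow_le_pow_right (by norm_num) (by rw [hJ]; exact le_max_left _ _)))
  obtain ⟨T₁, hT₁, g1⟩ := h1 A J hA (by rw [hJ]; exact (le_max_left _ _).trans (le_max_right _ _))
  obtain ⟨T₂, hT₂, g2⟩ := h2 A J hA (by rw [hJ]; exact (le_max_right _ _).trans (le_max_right _ _))
  refine ⟨max (max T₀ T₁) (max T₂ (Real.exp (1 + 16 * C / (δ * ε)))), hT₁.trans ((le_max_right _ _).trans (le_max_left _ _)),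
    fun T hT U hU0 hUT => ?_⟩
  have t0 : T₀ ≤ T := ((le_max_left _ _).trans (le_max_left _ _)).trans hT
  have t1 : T₁ ≤ T := ((le_max_right _ _).trans (le_max_left _ _)).trans hT
  have t2 : T₂ ≤ T := ((le_max_left _ _).trans (le_max_right _ _)).trans hT
  have t3 : Real.exp (1 + 16 * C / (δ * ε)) ≤ T := ((le_max_right _ _).trans (le_max_right _ _)).trans hT
  have hTp : 0 < T := by linarith
  obtain ⟨L, hL⟩ : ∃ L : ℝ, L = Real.log T := ⟨_, rfl⟩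
  have hLe : 1 + 16 * C / (δ * ε) ≤ L := by rw [hL, Real.le_log_iff_exp_le hTp]; exact t3
  have hLn : 0 ≤ 16 * C / (δ * ε) := by positivity
  have hL1 : 1 ≤ L := by linarith
  have hL0 : 0 < L := by linarith
  obtain ⟨M, hM⟩ : ∃ M : ℝ, M = (∫ c : Fin k → ℝ, (FA T U c - SP y c) ^ 2 ∂(bm k T (2 * T))) / T ^ k := ⟨_, rfl⟩
  obtain ⟨P, hPe⟩ : ∃ P : ℝ, P = pm k L U := ⟨_, rfl⟩
  obtain ⟨E, hEe⟩ : ∃ E : ℝ, E = er k L U := ⟨_, rfl⟩
  have hP0 : 0 ≤ P := by rw [hPe]; exact pm_nonneg k hL0.le U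
  have hE1 : 1 ≤ E := by
    rw [hEe]; unfold er
    have : 0 ≤ L ^ (2 * k) / (1 + U * L) := by positivity
    linarith
  have hPE : P ≤ cP * E := by rw [hPe, hEe, hcP]; exact pm_le hk hL1 hU0
  rw [← hM, ← hL, ← hPe, ← hEe]
  rcases le_or_gt U (A * L ^ (2 * k - 1)) with hs | hs
  · have r1 := g1 T t1 (Sy y N) ((FR_mono (Nat.pow_le_pow_right (by norm_num) (le_max_left _ _))).trans hsup) hSJ (Sy_sym _ _) U hU0
      (by rw [← hL]; exact hs)
    have r2 := g2 T t2 (Sy y N) ((FR_mono (Nat.pow_le_pow_right (by norm_num) (le_max_right _ _))).trans hsup) hSJ (Sy_sym _ _) U hU0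
      (by rw [← hL]; exact hs)
    rw [← hL, ← hPe, ← hEe] at r1 r2
    have cP := (bp_contDiff (1 - a) (2 + a) a).continuous
    have cQ := (bp_contDiff 1 2 a).continuous
    have s1 := (both (by linarith : 1 < T) hδ (hmod T U (by linarith) hU0) cP
      (fun s => bp_nonneg _ _ _ _)).1 (fun s hs => by rw [bp_one ha (by linarith [hs.1]) (by linarith [hs.2])])
    have s2 := (both (by linarith : 1 < T) hδ (hmod T U (by linarith) hU0) cQ
      (fun s => bp_nonneg _ _ _ _)).2 (fun s => bp_le _ _ _ _) (fun s hs => by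
        rw [Set.mem_Icc, not_and_or, not_le, not_le] at hs
        rcases hs with h | h
        · exact bp_zero_l ha h.le
        · exact bp_zero_r ha h.le)
    rw [← hM] at s1 s2
    have hDε : 4 / δ * (C / (1 + U) + 2 * η ^ 2) ≤ ε / 2 * E := by
      have e1 : 4 / δ * (2 * η ^ 2) = ε / 4 := by rw [hη2]; field_simp; norm_num
      have e2 : 4 / δ * (C / (1 + U)) ≤ ε / 4 * E := by
        have h3 : 16 * C / (δ * ε) ≤ L := by linarith
        rw [div_le_iff₀ (by positivity)] at h3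
        have h4 : L / (1 + U) ≤ E := by
          rw [hEe]; unfold er
          have h5 : L ^ 2 ≤ L ^ (2 * k) := pow_le_pow_right₀ hL1 (by omega)
          have h6 : L / (1 + U) ≤ L ^ (2 * k) / (1 + U * L) := by
            rw [div_le_div_iff₀ (by positivity) (by positivity)]
            calc L * (1 + U * L) ≤ L ^ 2 * (1 + U) := arith1 hL1
              _ ≤ L ^ (2 * k) * (1 + U) := mul_le_mul_of_nonneg_right h5 (by positivity)
          linarith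
        have e3 : 4 / δ * (C / (1 + U)) = (4 * C) / (δ * (1 + U)) := div_mul_div_comm _ _ _ _
        rw [e3]
        calc (4 * C) / (δ * (1 + U)) ≤ (ε / 4 * L * δ) / (δ * (1 + U)) := by
              apply div_le_div_of_nonneg_right _ (by positivity)
              linarith
          _ = ε / 4 * (L / (1 + U)) := by field_simp
          _ ≤ _ := mul_le_mul_of_nonneg_left h4 (by positivity)
      have e5 : 4 / δ * (C / (1 + U) + 2 * η ^ 2) = 4 / δ * (C / (1 + U)) + 4 / δ * (2 * η ^ 2) := by ring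
      have e6 : ε / 4 ≤ ε / 4 * E := le_mul_of_one_le_right (by positivity) hE1
      linarith
    exact arith hP0 (by linarith) hPE hδ hδ1 (by positivity : 0 ≤ ε / 8) (by positivity) hδκ (by linarith) hDε hwp hwq hwq1
      r1 r2 s1 s2
  · have hLp : 0 < L ^ (2 * k - 1) := by positivity
    have hL1p : 1 ≤ L ^ (2 * k - 1) := one_le_pow₀ hL1
    have hU1 : 1 ≤ U := (one_le_mul_of_one_le_of_one_le hAone hL1p).trans hs.le
    have hAU : A₀ * Real.log T ^ (2 * k - 1) ≤ U := by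
      rw [← hL]
      have : A₀ * L ^ (2 * k - 1) ≤ A * L ^ (2 * k - 1) := mul_le_mul_of_nonneg_right hA0 (by positivity)
      linarith
    have r := hup2 T t0 U hAU hUT
    have hTk : 0 < T ^ k := by positivity
    have m1 : M ≤ ε / 2 := by
      rw [hM, div_le_iff₀ hTk]
      exact r
    have m0 : 0 ≤ M := by
      rw [hM]
      exact div_nonneg (integral_nonneg fun c => sq_nonneg _) hTk.le
    have v1 : P ≤ ε / 2 := by
      have h3 := (abs_le.1 (pm_long hk hL0 hU0)).2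
      rw [← hPe] at h3
      have h4 : L ^ (2 * k - 2) / U ^ 2 ≤ L ^ (2 * k - 1) / U := by
        rw [div_le_div_iff₀ (by positivity) hU0]
        have e : L ^ (2 * k - 1) = L ^ (2 * k - 2) * L := by rw [← pow_succ]; congr 1; omega
        rw [e]
        exact arith2 (pow_nonneg hL0.le _) hU0.le (one_le_mul_of_one_le_of_one_le hL1 hU1)
      have h5 : P ≤ (kc k + 2 * 4 ^ k) * (L ^ (2 * k - 1) / U) := arith3 (by positivity) h3 h4
      refine h5.trans ?_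
      rw [mul_div_assoc', div_le_iff₀ hU0]
      rw [div_le_iff₀ hε] at hA1
      have h6 : 2 * (kc k + 2 * 4 ^ k) * L ^ (2 * k - 1) ≤ A * ε * L ^ (2 * k - 1) := mul_le_mul_of_nonneg_right hA1 hLp.le
      have h7 : ε * (A * L ^ (2 * k - 1)) ≤ ε * U := mul_le_mul_of_nonneg_left hs.le hε.le
      linarith
    have hεE : ε ≤ ε * E := le_mul_of_one_le_right hε.le hE1
    rw [abs_le]
    constructor <;> linarith

end

end K1H48.SW
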