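import Pool.Agent.K1H48.SW.Corr
import Pool.Agent.Y891.GP.AFE
import Pool.Agent.Y587.GP.Chi

set_option autoImplicit false

/-! The families of amplitudes. -/

namespace K1H48.SW

open MeasureTheory Set Finset Filter
open Pool.Agent.Y969.GP
open Pool.Agent.Y587.GP

noncomputable section

/-- the number of dyadic blocks -/
def JT (T : ℝ) : ℕ := ⌈2 * Real.logb 2 T⌉₊

lemma JT_pow {T : ℝ} (hT : 1 ≤ T) : T ^ 2 ≤ 2 ^ JT T := by
  have hT0 : 0 < T := by linarith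
  have h1 : T ^ 2 = (2 : ℝ) ^ (2 * Real.logb 2 T) := by
    rw [mul_comm, Real.rpow_mul (by norm_num), Real.rpow_logb (by norm_num) (by norm_num) hT0]
    norm_num
  rw [h1, ← Real.rpow_natCast]
  apply Real.rpow_le_rpow_of_exponent_le (by norm_num)
  exact Nat.le_ceil _

lemma JT_le {T : ℝ} (hT : 1 ≤ T) : ((JT T : ℕ) : ℝ) + 1 ≤ 3 * (1 + Real.log T) := by
  have hl := Real.log_nonneg hT
  have h2 := Real.log_two_gt_d9
  have h0 : 0 ≤ 2 * Real.logb 2 T := by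
    have := Real.logb_nonneg (by norm_num : (1 : ℝ) < 2) hT
    linarith
  have h1 := (Nat.ceil_lt_add_one h0).le
  unfold JT
  have h3 : 2 * Real.logb 2 T ≤ 3 * Real.log T := by
    unfold Real.logb
    rw [mul_div_assoc', div_le_iff₀ (by linarith)]
    nlinarith
  linarith

lemma AmpOn.diff {A B T K K' : ℝ} {F F1 F2 G G1 G2 : ℝ → ℝ} (h : AmpOn A B T K F F1 F2)
    (h' : AmpOn A B T K' G G1 G2) :
    AmpOn A B T (K + K') (fun u => F u - G u) (fun u => F1 u - G1 u) (fun u => F2 u - G2 u) where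
  d1 u hu := (h.d1 u hu).sub (h'.d1 u hu)
  d2 u hu := (h.d2 u hu).sub (h'.d2 u hu)
  c2 := h.c2.sub h'.c2
  b0 u hu := (abs_sub _ _).trans (add_le_add (h.b0 u hu) (h'.b0 u hu))
  b1 u hu := by
    rw [add_div]
    exact (abs_sub _ _).trans (add_le_add (h.b1 u hu) (h'.b1 u hu))
  b2 u hu := by
    rw [add_div]
    exact (abs_sub _ _).trans (add_le_add (h.b2 u hu) (h'.b2 u hu))

lemma Fam.diff {J : ℕ} {T K K' : ℝ} {a a1 a2 b b1 b2 : ℕ × ℕ → ℝ → ℝ} (h : Fam J T K a a1 a2)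
    (h' : Fam J T K' b b1 b2) :
    Fam J T (K + K') (fun p u => a p u - b p u) (fun p u => a1 p u - b1 p u) (fun p u => a2 p u - b2 p u) := by
  intro p hp
  have := (h p hp).diff (h' p hp)
  rwa [← add_mul] at this

lemma co2_cont {q : ℕ × ℕ} (hq : 0 < ht q) {A B : ℝ} (hA : 0 < A) : ContinuousOn (co2 q) (Icc A B) := by
  have hpi := Real.pi_pos
  have h1 : ContinuousOn (fun u : ℝ => Real.log (2 * Real.pi * ht q / u)) (Icc A B) := by
    apply ContinuousOn.log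
    · exact continuousOn_const.div continuousOn_id fun u hu => (lt_of_lt_of_le hA hu.1).ne'
    · intro u hu
      have : 0 < u := lt_of_lt_of_le hA hu.1
      positivity
  unfold co2
  apply continuousOn_const.mul
  apply ContinuousOn.div
  · exact (continuousOn_const.mul (gs_cont.comp_continuousOn h1)).mul
      ((h1.div_const 2).sub continuousOn_const)
  · fun_prop
  · intro u hu
    have : 0 < u := lt_of_lt_of_le hA hu.1
    positivity

/-- the amplitudes of `|ζ(1/2+iu)|²` -/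
theorem fam_f : ∃ K : ℝ, 0 < K ∧ ∀ (J : ℕ) (T : ℝ), 0 < T →
    Fam J T K (cr (2 ^ J)) (cr1 (2 ^ J)) (cr2 (2 ^ J)) := by
  obtain ⟨C, hC, h⟩ := cr_bds
  refine ⟨2048 * C, by positivity, fun J T hT p hp => ?_⟩
  rw [FR_iff] at hp
  obtain ⟨h1, h2, h3, h4⟩ := hp
  have hh := ht_pos h1 h2
  have hu0 : ∀ u ∈ Icc (T / 2) (8 * T), 0 < u := fun u hu => lt_of_lt_of_le (by linarith) hu.1
  have hs : 0 ≤ (√(ht p))⁻¹ := by positivity
  have hW : ∀ u ∈ Icc (T / 2) (8 * T), (√(ht p))⁻¹ * W (u / ht p) ≤ 512 * bet T p := by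
    intro u hu
    have h5 : W (u / ht p) ≤ 512 * W (T / ht p) := by
      refine (W_mono (div_nonneg (hu0 u hu).le hh.le) ?_).trans (W_scale (by positivity))
      rw [mul_div_assoc']
      exact div_le_div_of_nonneg_right hu.2 hh.le
    unfold bet
    calc (√(ht p))⁻¹ * W (u / ht p) ≤ (√(ht p))⁻¹ * (512 * W (T / ht p)) :=
          mul_le_mul_of_nonneg_left h5 hs
      _ = _ := by ring
  have hb := bet_nonneg hT p
  refine ⟨fun u hu => cr_deriv _ h1 h2 (hu0 u hu), fun u hu => cr1_deriv _ h1 h2 (hu0 u hu), ?_,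
    fun u hu => ?_, fun u hu => ?_, fun u hu => ?_⟩
  · unfold cr2
    apply continuousOn_finsetSum
    intro g hg
    have hg1 := (Finset.mem_Icc.1 (Finset.mem_filter.1 hg).1).1
    exact co2_cont (ht_pos (p := (g * p.1, g * p.2)) (Nat.mul_pos hg1 h1) (Nat.mul_pos hg1 h2)) (by linarith)
  · have := (h (2 ^ J) p u h1 h2 (hu0 u hu)).1
    have h6 := mul_le_mul_of_nonneg_left (hW u hu) hC.le
    have h7 : 0 ≤ C * bet T p := by positivity
    calc _ ≤ _ := this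
      _ ≤ _ := h6
      _ ≤ _ := by nlinarith
  · have := (h (2 ^ J) p u h1 h2 (hu0 u hu)).2.1
    have h6 := mul_le_mul_of_nonneg_left (hW u hu) hC.le
    have h7 : 0 ≤ C * bet T p := by positivity
    refine this.trans ?_
    rw [div_le_div_iff₀ (hu0 u hu) hT]
    have h8 : C * ((√(ht p))⁻¹ * W (u / ht p)) * T ≤ (512 * (C * bet T p)) * T := by
      apply mul_le_mul_of_nonneg_right _ hT.le
      linarith
    have h9 : (512 * (C * bet T p)) * T ≤ 2048 * C * bet T p * u := by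
      have := hu.1
      nlinarith
    linarith
  · have := (h (2 ^ J) p u h1 h2 (hu0 u hu)).2.2
    have h6 := mul_le_mul_of_nonneg_left (hW u hu) hC.le
    have h7 : 0 ≤ C * bet T p := by positivity
    refine this.trans ?_
    have hu00 := hu0 u hu
    rw [div_le_div_iff₀ (by positivity) (by positivity)]
    have h8 : C * ((√(ht p))⁻¹ * W (u / ht p)) * T ^ 2 ≤ (512 * (C * bet T p)) * T ^ 2 := by
      apply mul_le_mul_of_nonneg_right _ (by positivity)
      linarith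
    have h9 : T ^ 2 ≤ 4 * u ^ 2 := by
      have := hu.1
      nlinarith
    have h10 : (512 * (C * bet T p)) * T ^ 2 ≤ (512 * (C * bet T p)) * (4 * u ^ 2) :=
      mul_le_mul_of_nonneg_left h9 (by positivity)
    linarith

/-- the amplitudes of the model -/
def aQ (T : ℝ) (S : Finset (ℕ × ℕ)) (p : ℕ × ℕ) (_u : ℝ) : ℝ :=
  if p ∈ S then Real.log T * (√(ht p))⁻¹ else 0

theorem fam_Q (J₁ : ℕ) (S : Finset (ℕ × ℕ)) (hS : S ⊆ FR (2 ^ J₁)) (J : ℕ) (T : ℝ) (hT : (2 ^ J₁) ^ 2 ≤ T) :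
    Fam J T 2 (aQ T S) (fun _ _ => 0) (fun _ _ => 0) := by
  intro p hp
  have hpow : (1 : ℝ) ≤ (2 ^ J₁) := one_le_pow₀ (by norm_num)
  have hT1 : 1 ≤ T := by nlinarith
  have hT0 : 0 < T := by linarith
  have hL := Real.log_nonneg hT1
  have hb := bet_nonneg hT0 p
  refine ⟨fun u _ => hasDerivAt_const u _, fun u _ => hasDerivAt_const u _, continuousOn_const,
    fun u _ => ?_, fun u _ => ?_, fun u _ => ?_⟩
  · unfold aQ
    split_ifs with h
    · have hp' := hS h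
      rw [FR_iff] at hp'
      have hh := ht_pos hp'.1 hp'.2.1
      have hh2 : ht p ≤ 2 ^ J₁ := by
        unfold ht
        exact_mod_cast hp'.2.2.1
      rw [abs_of_nonneg (by positivity)]
      unfold bet
      have h1 : 1 ≤ T / ht p := by
        rw [le_div_iff₀ hh]
        nlinarith
      rw [W_ge h1, Real.log_div hT0.ne' hh.ne']
      have h2 : Real.log (ht p) ≤ Real.log T / 2 := by
        have h3 : Real.log (ht p) ≤ Real.log (2 ^ J₁) := Real.log_le_log hh hh2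
        have h4 : Real.log ((2 ^ J₁) ^ 2) ≤ Real.log T := Real.log_le_log (by positivity) hT
        rw [Real.log_pow] at h4
        push_cast at h4
        linarith
      have hs : 0 ≤ (√(ht p))⁻¹ := by positivity
      nlinarith
    · rw [abs_zero]; positivity
  · simp only [abs_zero]; positivity
  · simp only [abs_zero]; positivity

/-- the model -/
def Qf (T : ℝ) (S : Finset (ℕ × ℕ)) (u : ℝ) : ℂ :=
  Real.log T * ∑ p ∈ S, ((√(ht p))⁻¹ : ℂ) * ex u (lam p)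

lemma gP_Q {J₁ J : ℕ} {S : Finset (ℕ × ℕ)} (hS : S ⊆ FR (2 ^ J₁)) (hJ : J₁ ≤ J) (T u : ℝ) :
    gP J (aQ T S) u = Qf T S u := by
  unfold gP aQ Qf
  rw [Finset.mul_sum]
  have h1 : S ⊆ FR (2 ^ J) := hS.trans (FR_mono (Nat.pow_le_pow_right (by norm_num) hJ))
  rw [← Finset.sum_subset h1]
  · refine Finset.sum_congr rfl fun p hp => ?_
    rw [if_pos hp]
    push_cast
    ring
  · intro p _ hp
    rw [if_neg hp]
    simp

lemma gP_diff (J : ℕ) (a b : ℕ × ℕ → ℝ → ℝ) (u : ℝ) :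
    gP J (fun p u => a p u - b p u) u = gP J a u - gP J b u := by
  unfold gP
  rw [← Finset.sum_sub_distrib]
  refine Finset.sum_congr rfl fun p _ => ?_
  push_cast
  ring

/-- the approximate functional equation -/
theorem afe_f : ∃ C : ℝ, 0 < C ∧ ∀ T : ℝ, 32 ≤ T → ∀ u ∈ Icc (T / 2) (8 * T),
    ‖(ff u : ℂ) - gP (JT T) (cr (2 ^ JT T)) u‖ ≤ C * T ^ (-(1 / 4) : ℝ) := by
  obtain ⟨C, hC, h⟩ := Pool.Agent.Y891.GP.t_AFE t_V Pool.Agent.Y587.GP.Chi.t_CHI (1 / 4) (by norm_num)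
  refine ⟨2 * C, by positivity, fun T hT u hu => ?_⟩
  have hT0 : 0 < T := by linarith
  have hu1 : 1 ≤ u := by linarith [hu.1]
  have hu0 : 0 < u := by linarith
  have h1 : u ^ ((1 : ℝ) + 1 / 4) ≤ ((2 ^ JT T : ℕ) : ℝ) := by
    have h2 : 8 * T ≤ T ^ (8 / 5 : ℝ) := by
      have h3 : (8 : ℝ) ≤ T ^ (3 / 5 : ℝ) := by
        calc (8 : ℝ) = (32 : ℝ) ^ (3 / 5 : ℝ) := by
              rw [show (32 : ℝ) = 2 ^ (5 : ℝ) by norm_num, ← Real.rpow_mul (by norm_num)]
              norm_num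
          _ ≤ T ^ (3 / 5 : ℝ) := Real.rpow_le_rpow (by norm_num) hT (by norm_num)
      calc 8 * T ≤ T ^ (3 / 5 : ℝ) * T := mul_le_mul_of_nonneg_right h3 hT0.le
        _ = T ^ (8 / 5 : ℝ) := by
            nth_rw 2 [← Real.rpow_one T]
            rw [← Real.rpow_add hT0]
            norm_num
    calc u ^ ((1 : ℝ) + 1 / 4) ≤ (T ^ (8 / 5 : ℝ)) ^ ((1 : ℝ) + 1 / 4) :=
          Real.rpow_le_rpow hu0.le (hu.2.trans h2) (by norm_num)
      _ = T ^ 2 := by
          rw [← Real.rpow_mul hT0.le]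
          norm_num
      _ ≤ 2 ^ JT T := JT_pow (by linarith)
      _ = _ := by push_cast; rfl
  have h2 := h u (2 ^ JT T) hu1 h1
  rw [Pool.Agent.Y545.GP.part1] at h2
  refine le_trans h2 ?_
  have e : (-(1 / 2) + 1 / 4 : ℝ) = -(1 / 4) := by norm_num
  rw [e]
  have h3 : u ^ (-(1 / 4) : ℝ) ≤ (T / 2) ^ (-(1 / 4) : ℝ) :=
    Real.rpow_le_rpow_of_nonpos (by positivity) hu.1 (by norm_num)
  have h4 : (T / 2) ^ (-(1 / 4) : ℝ) ≤ 2 * T ^ (-(1 / 4) : ℝ) := by
    rw [Real.div_rpow hT0.le (by norm_num), div_eq_mul_inv, mul_comm]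
    apply mul_le_mul_of_nonneg_right _ (by positivity)
    rw [← Real.rpow_neg (by norm_num), neg_neg]
    calc (2 : ℝ) ^ (1 / 4 : ℝ) ≤ 2 ^ (1 : ℝ) := Real.rpow_le_rpow_of_exponent_le (by norm_num) (by norm_num)
      _ = 2 := by norm_num
  calc C * u ^ (-(1 / 4) : ℝ) ≤ C * (2 * T ^ (-(1 / 4) : ℝ)) := by gcongr; exact h3.trans h4
    _ = _ := by ring

lemma ff_cont : Continuous ff := by
  unfold ff
  have h1 : Continuous fun u : ℝ => riemannZeta (1 / 2 + Complex.I * u) := by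
    rw [continuous_iff_continuousAt]
    intro u
    have h2 : (1 / 2 + Complex.I * (u : ℂ)) ≠ 1 := by
      intro h
      have := congrArg Complex.re h
      simp at this
    have h3 : ContinuousAt (fun u : ℝ => (1 / 2 + Complex.I * (u : ℂ))) u := by fun_prop
    exact ContinuousAt.comp (g := riemannZeta) (f := fun u : ℝ => (1 / 2 + Complex.I * (u : ℂ)))
      (differentiableAt_riemannZeta h2).continuousAt h3
  exact h1.norm.pow 2

/-- the diagonal terms -/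
lemma Dp_nonneg {T α β : ℝ} (hT : 0 < T) (hαβ : α ≤ β) (F : ℝ → ℝ) : 0 ≤ Dp T α β F := by
  unfold Dp
  apply div_nonneg _ hT.le
  apply intervalIntegral.integral_nonneg (by nlinarith)
  intro c _
  exact mul_nonneg (wt_nonneg _ _ _ _) (sq_nonneg _)

lemma Dp_le {T α β K : ℝ} (hT : 0 < T) (hα : 1 / 2 ≤ α) (hαβ : α ≤ β) (hβ : β ≤ 4) {F : ℝ → ℝ}
    (hF : ∀ c ∈ Icc (T / 2) (8 * T), |F c| ≤ K) : Dp T α β F ≤ 602 * K ^ 2 := by
  unfold Dp
  rw [div_le_iff₀ hT]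
  have hle : α * T ≤ β * T := by nlinarith
  have hw := wt_amp hT hα (hαβ.trans hβ) hβ (hα.trans hαβ)
  have h1 := intervalIntegral.norm_integral_le_of_norm_le_const (a := α * T) (b := β * T) (C := 172 * K ^ 2)
    (f := fun c => wt T α β c * (F c) ^ 2) (fun c hc => by
      rw [Set.uIoc_of_le hle] at hc
      have c1 : T / 2 ≤ c := by nlinarith [hc.1]
      have c2 : c ≤ 4 * T := by nlinarith [hc.2]
      rw [norm_mul, Real.norm_eq_abs, Real.norm_eq_abs, abs_pow]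
      apply mul_le_mul (hw.b0 c ⟨c1, c2⟩) _ (by positivity) (by norm_num)
      exact pow_le_pow_left₀ (abs_nonneg _) (hF c ⟨c1, by linarith⟩) 2)
  rw [Real.norm_eq_abs, abs_of_nonneg (by linarith : 0 ≤ β * T - α * T)] at h1
  refine (le_abs_self _).trans (h1.trans ?_)
  have h3 : β * T - α * T ≤ 3.5 * T := by nlinarith
  calc 172 * K ^ 2 * (β * T - α * T) ≤ 172 * K ^ 2 * (3.5 * T) := mul_le_mul_of_nonneg_left h3 (by positivity)
    _ = _ := by ring

lemma Dp_fam {J : ℕ} {T α β K : ℝ} {a a1 a2 : ℕ × ℕ → ℝ → ℝ} (hT : 0 < T) (hα : 1 / 2 ≤ α) (hαβ : α ≤ β)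
    (hβ : β ≤ 4) (h : Fam J T K a a1 a2) {p : ℕ × ℕ} (hp : p ∈ FR (2 ^ J)) :
    Dp T α β (a p) ≤ 602 * K ^ 2 * bet T p ^ 2 := by
  have := Dp_le hT hα hαβ hβ (h p hp).b0
  rw [mul_pow] at this
  linarith

lemma Dp_fam' {J : ℕ} {T α β K : ℝ} {a a1 a2 : ℕ × ℕ → ℝ → ℝ} (hT : 1 ≤ T) (hα : 1 / 2 ≤ α) (hαβ : α ≤ β)
    (hβ : β ≤ 4) (h : Fam J T K a a1 a2) {p : ℕ × ℕ} (hp : p ∈ FR (2 ^ J)) :
    Dp T α β (a p) ≤ 602 * K ^ 2 * (1 + Real.log T) ^ 2 / ht p := by
  have hT0 : 0 < T := by linarith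
  refine (Dp_fam hT0 hα hαβ hβ h hp).trans ?_
  rw [FR_iff] at hp
  have hh := ht_pos hp.1 hp.2.1
  have hh1 := ht_one_le hp.1 hp.2.1
  rw [mul_div_assoc]
  apply mul_le_mul_of_nonneg_left _ (by positivity)
  unfold bet
  rw [mul_pow, inv_pow, Real.sq_sqrt hh.le, inv_mul_eq_div]
  apply div_le_div_of_nonneg_right _ hh.le
  apply pow_le_pow_left₀ (W_nonneg (by positivity))
  refine (W_mono (by positivity) (div_le_self hT0.le hh1)).trans ?_
  rw [W_ge hT]

lemma Cm_le {J : ℕ} {T α β K : ℝ} {a a1 a2 : ℕ × ℕ → ℝ → ℝ} (hT : 1 ≤ T) (hα : 1 / 2 ≤ α) (hαβ : α ≤ β)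
    (hβ : β ≤ 4) (h : Fam J T K a a1 a2) (v : ℝ) :
    ‖Cm J (fun p => Dp T α β (a p)) v‖ ≤ 1204 * K ^ 2 * ((J + 1) ^ 2 * (1 + Real.log T) ^ 2) := by
  have hT0 : 0 < T := by linarith
  unfold Cm
  refine (norm_sum_le _ _).trans ?_
  have h1 : ∀ p ∈ FR (2 ^ J), ‖((Dp T α β (a p) : ℝ) : ℂ) * ex v (lam p)‖ ≤ 602 * K ^ 2 * bet T p ^ 2 := by
    intro p hp
    rw [norm_mul, norm_ex, mul_one, Complex.norm_real, Real.norm_eq_abs,
      abs_of_nonneg (Dp_nonneg hT0 hαβ _)]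
    exact Dp_fam hT0 hα hαβ hβ h hp
  refine (Finset.sum_le_sum h1).trans ?_
  rw [← Finset.mul_sum]
  have := bet_sq hT J
  calc 602 * K ^ 2 * ∑ p ∈ FR (2 ^ J), bet T p ^ 2 ≤
        602 * K ^ 2 * (2 * ((J : ℝ) + 1) ^ 2 * (1 + Real.log T) ^ 2) :=
        mul_le_mul_of_nonneg_left this (by positivity)
    _ = _ := by ring

end

end K1H48.SW
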