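import Pool.Agent.K1H48.SW.Wg
import Pool.Agent.K1H48.SW.Exs

set_option autoImplicit false

/-! The high blocks of the correlation of `|ζ|²` with itself, away from the diagonal. -/

namespace K1H48.SW

open MeasureTheory Set Finset Filter
open Pool.Agent.Y969.GP
open Pool.Agent.Y587.GP

noncomputable section

lemma abel {D : ℕ → ℝ} {e : ℕ → ℂ} {a b : ℕ} {Bd : ℝ} (hab : a < b) (hD0 : ∀ n, a < n → 0 ≤ D n)
    (hD : ∀ n, a < n → D (n + 1) ≤ D n) (hB : ∀ m, a ≤ m → m ≤ b → ‖∑ n ∈ Finset.Ioc a m, e n‖ ≤ Bd) :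
    ‖∑ n ∈ Finset.Ioc a b, (D n : ℂ) * e n‖ ≤ D (a + 1) * Bd := by
  have hBd : 0 ≤ Bd := (norm_nonneg _).trans (hB a le_rfl hab.le)
  have key : ∀ m, a + 1 ≤ m → m ≤ b → ‖∑ n ∈ Finset.Ioc a m, (D n : ℂ) * e n -
      (D m : ℂ) * ∑ n ∈ Finset.Ioc a m, e n‖ ≤ (D (a + 1) - D m) * Bd := by
    intro m hm
    induction m, hm using Nat.le_induction with
    | base =>
      intro _
      rw [Finset.sum_Ioc_succ_top (by omega), Finset.sum_Ioc_succ_top (by omega)]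
      simp
    | succ m hm ih =>
      intro hmb
      have h1 := ih (by omega)
      have h2 := hB m (by omega) (by omega)
      have h3 := hD m (by omega)
      rw [Finset.sum_Ioc_succ_top (by omega : a ≤ m), Finset.sum_Ioc_succ_top (by omega : a ≤ m)]
      have e1 : ∑ n ∈ Finset.Ioc a m, (D n : ℂ) * e n + (D (m + 1) : ℂ) * e (m + 1) -
          (D (m + 1) : ℂ) * (∑ n ∈ Finset.Ioc a m, e n + e (m + 1)) =
          (∑ n ∈ Finset.Ioc a m, (D n : ℂ) * e n - (D m : ℂ) * ∑ n ∈ Finset.Ioc a m, e n) +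
          (((D m - D (m + 1) : ℝ)) : ℂ) * ∑ n ∈ Finset.Ioc a m, e n := by
        push_cast; ring
      rw [e1]
      refine (norm_add_le _ _).trans ?_
      rw [norm_mul, Complex.norm_real, Real.norm_eq_abs, abs_of_nonneg (by linarith)]
      have h4 : (D m - D (m + 1)) * ‖∑ n ∈ Finset.Ioc a m, e n‖ ≤ (D m - D (m + 1)) * Bd :=
        mul_le_mul_of_nonneg_left h2 (by linarith)
      linarith
  have h1 := key b (by omega) le_rfl
  have h2 := hB b hab.le le_rfl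
  have h3 := hD0 b hab
  calc _ = ‖(∑ n ∈ Finset.Ioc a b, (D n : ℂ) * e n - (D b : ℂ) * ∑ n ∈ Finset.Ioc a b, e n) +
        (D b : ℂ) * ∑ n ∈ Finset.Ioc a b, e n‖ := by rw [sub_add_cancel]
    _ ≤ (D (a + 1) - D b) * Bd + D b * Bd := by
        refine (norm_add_le _ _).trans (add_le_add h1 ?_)
        rw [norm_mul, Complex.norm_real, Real.norm_eq_abs, abs_of_nonneg h3]
        exact mul_le_mul_of_nonneg_left h2 h3
    _ = _ := by ring

/-- the pairs with product `n` -/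
def en (v : ℝ) (n : ℕ) : ℂ := ∑ p ∈ (FR n).filter (fun p => p.1 * p.2 = n), ex v (lam p)

lemma EX_eq (v : ℝ) (m : ℕ) : EX m v = ∑ n ∈ Finset.Icc 1 m, en v n := by
  classical
  unfold EX en
  rw [← Finset.sum_fiberwise_of_maps_to (t := Finset.Icc 1 m) (g := fun p => p.1 * p.2) (fun p hp => by
    rw [FR_iff] at hp
    rw [Finset.mem_Icc]
    exact ⟨Nat.mul_pos hp.1 hp.2.1, hp.2.2.1⟩)]
  refine Finset.sum_congr rfl fun n hn => ?_
  apply Finset.sum_congr _ fun _ _ => rfl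
  ext p
  rw [Finset.mem_filter, Finset.mem_filter, FR_iff, FR_iff]
  rw [Finset.mem_Icc] at hn
  constructor
  · rintro ⟨⟨h1, h2, h3, h4⟩, h5⟩; exact ⟨⟨h1, h2, h5.le, h4⟩, h5⟩
  · rintro ⟨⟨h1, h2, h3, h4⟩, h5⟩; exact ⟨⟨h1, h2, by omega, h4⟩, h5⟩

lemma blk_en {J j : ℕ} (hj : 1 ≤ j) (hJ : j ≤ J) (D : ℕ → ℝ) (v : ℝ) :
    ∑ p ∈ blk J j, (D (p.1 * p.2) : ℂ) * ex v (lam p) = ∑ n ∈ Finset.Ioc (2 ^ (j - 1)) (2 ^ j), (D n : ℂ) * en v n := by
  classical
  have hmaps : ∀ p ∈ blk J j, p.1 * p.2 ∈ Finset.Ioc (2 ^ (j - 1)) (2 ^ j) := by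
    intro p hp
    unfold blk at hp
    rw [Finset.mem_filter, FR_iff] at hp
    obtain ⟨⟨h1, h2, h3, h4⟩, h5⟩ := hp
    unfold lev at h5
    rw [Finset.mem_Ioc]
    constructor
    · have h6 : 1 < p.1 * p.2 := by
        by_contra hcon
        have : p.1 * p.2 ≤ 1 := by omega
        have h7 : Nat.clog 2 (p.1 * p.2) = 0 := Nat.clog_of_right_le_one this 2
        omega
      have h7 := Nat.pow_pred_clog_lt_self (b := 2) (by norm_num) h6
      rw [h5, Nat.pred_eq_sub_one] at h7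
      exact h7
    · rw [← h5]; exact Nat.le_pow_clog (by norm_num) _
  rw [← Finset.sum_fiberwise_of_maps_to hmaps]
  refine Finset.sum_congr rfl fun n hn => ?_
  unfold en
  rw [Finset.mul_sum]
  rw [Finset.mem_Ioc] at hn
  apply Finset.sum_congr
  · ext p
    unfold blk
    rw [Finset.mem_filter, Finset.mem_filter, Finset.mem_filter, FR_iff, FR_iff]
    constructor
    · rintro ⟨⟨⟨h1, h2, h3, h4⟩, h5⟩, h6⟩; exact ⟨⟨h1, h2, h6.le, h4⟩, h6⟩
    · rintro ⟨⟨h1, h2, h3, h4⟩, h6⟩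
      refine ⟨⟨⟨h1, h2, ?_, h4⟩, ?_⟩, h6⟩
      · rw [h6]; exact hn.2.trans (Nat.pow_le_pow_right (by norm_num) hJ)
      · unfold lev
        rw [h6]
        apply le_antisymm
        · exact Nat.clog_le_of_le_pow hn.2
        · have h7 : j - 1 < Nat.clog 2 n := by
            rw [Nat.lt_clog_iff_pow_lt (by norm_num)]
            exact hn.1
          omega
  · intro p hp
    rw [Finset.mem_filter] at hp
    rw [hp.2]

/-- `2^(-1/4)` -/
def r4 : ℝ := (2 : ℝ) ^ (-(1 / 4) : ℝ)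

lemma r4_pos : 0 < r4 := by unfold r4; positivity

lemma r4_pow4 : r4 ^ 4 = 1 / 2 := by
  unfold r4
  rw [← Real.rpow_natCast, ← Real.rpow_mul (by norm_num)]
  norm_num

lemma r4_lt : r4 ≤ 0.85 := by
  by_contra h
  push Not at h
  have : (0.85 : ℝ) ^ 4 < r4 ^ 4 := pow_lt_pow_left₀ h (by norm_num) (by norm_num)
  rw [r4_pow4] at this
  norm_num at this

lemma pow34 (j : ℕ) : ((2 : ℝ) ^ j) ^ (3 / 4 : ℝ) = 2 ^ j * r4 ^ j := by
  unfold r4
  rw [← Real.rpow_natCast, ← Real.rpow_natCast, ← Real.rpow_mul (by norm_num), ← Real.rpow_mul (by norm_num),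
    ← Real.rpow_add (by norm_num)]
  congr 1
  ring

lemma blk_hi {J j : ℕ} (hj : 1 ≤ j) (hJ : j ≤ J) {D : ℕ → ℝ} {M v : ℝ} (hM : 0 ≤ M) (hv : v ≠ 0)
    (hD0 : ∀ n, 0 ≤ D n) (hDa : ∀ n, 1 ≤ n → D (n + 1) ≤ D n) (hDM : ∀ n, 1 ≤ n → n ≤ 2 ^ J → D n ≤ M / n) :
    ‖∑ p ∈ blk J j, (D (p.1 * p.2) : ℂ) * ex v (lam p)‖ ≤ M * (176 * lv v + 35152 * r4 ^ j * (2 + |v|) ^ 2) := by
  rw [blk_en hj hJ]
  have hlv := lv_nonneg v
  have hr4 := r4_pos
  have hpow : 2 ^ (j - 1) < 2 ^ j := Nat.pow_lt_pow_right (by norm_num) (by omega)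
  have h2j : (2 : ℝ) ^ j = 2 * 2 ^ (j - 1) := by
    rw [← pow_succ']; congr 1; omega
  obtain ⟨E, hE⟩ : ∃ E : ℝ, E = 44 * 2 ^ j * lv v + 8788 * (2 ^ j * r4 ^ j) * (2 + |v|) ^ 2 := ⟨_, rfl⟩
  have hE0 : 0 ≤ E := by rw [hE]; positivity
  have hEX : ∀ m, 1 ≤ m → m ≤ 2 ^ j → ‖EX m v‖ ≤ E := by
    intro m hm hm2
    have h1 := EX_le2 hm hv
    have h2 : (m : ℝ) ≤ 2 ^ j := by exact_mod_cast hm2
    have h3 : (m : ℝ) ^ (3 / 4 : ℝ) ≤ 2 ^ j * r4 ^ j := by
      rw [← pow34]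
      exact Real.rpow_le_rpow (by positivity) h2 (by norm_num)
    rw [hE]
    refine h1.trans (add_le_add ?_ ?_)
    · apply mul_le_mul_of_nonneg_right _ hlv
      linarith
    · apply mul_le_mul_of_nonneg_right _ (by positivity)
      linarith
  have h1 := abel (D := D) (e := en v) (a := 2 ^ (j - 1)) (b := 2 ^ j) (Bd := 2 * E) hpow
    (fun n _ => hD0 n) (fun n hn => hDa n (by have := Nat.one_le_two_pow (n := j - 1); omega)) (by
      intro m hm hm2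
      have ha1 : 1 ≤ 2 ^ (j - 1) := Nat.one_le_two_pow
      have e1 : ∑ n ∈ Finset.Ioc (2 ^ (j - 1)) m, en v n = EX m v - EX (2 ^ (j - 1)) v := by
        rw [EX_eq, EX_eq]
        have e2 : Finset.Icc 1 m = Finset.Icc 1 (2 ^ (j - 1)) ∪ Finset.Ioc (2 ^ (j - 1)) m := by
          ext x; simp only [Finset.mem_Icc, Finset.mem_union, Finset.mem_Ioc]; omega
        rw [e2, Finset.sum_union (by
          rw [Finset.disjoint_left]
          intro x hx hx'
          rw [Finset.mem_Icc] at hx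
          rw [Finset.mem_Ioc] at hx'
          omega)]
        ring
      rw [e1]
      refine (norm_sub_le _ _).trans ?_
      have := hEX m (by omega) hm2
      have := hEX (2 ^ (j - 1)) ha1 hpow.le
      linarith)
  refine h1.trans ?_
  have h2 : D (2 ^ (j - 1) + 1) ≤ M * (2 / 2 ^ j) := by
    have h3 := hDM (2 ^ (j - 1) + 1) (Nat.le_add_left 1 _)
      ((Nat.succ_le_of_lt hpow).trans (Nat.pow_le_pow_right (by norm_num) hJ))
    refine h3.trans ?_
    rw [mul_div_assoc', div_le_div_iff₀ (by positivity) (by positivity), h2j]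
    push_cast
    have : 0 ≤ M * 2 ^ (j - 1) := by positivity
    nlinarith
  calc D (2 ^ (j - 1) + 1) * (2 * E) ≤ M * (2 / 2 ^ j) * (2 * E) := mul_le_mul_of_nonneg_right h2 (by positivity)
    _ = M * (176 * lv v + 35152 * r4 ^ j * (2 + |v|) ^ 2) := by
        rw [hE]
        field_simp
        ring

/-- the sum of the high blocks -/
lemma hi_sum {J J₂ : ℕ} (hJ₂ : 1 ≤ J₂) {D : ℕ → ℝ} {M v : ℝ} (hM : 0 ≤ M) (hv : v ≠ 0)
    (hD0 : ∀ n, 0 ≤ D n) (hDa : ∀ n, 1 ≤ n → D (n + 1) ≤ D n) (hDM : ∀ n, 1 ≤ n → n ≤ 2 ^ J → D n ≤ M / n) :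
    ‖∑ j ∈ Finset.Ico J₂ (J + 1), ∑ p ∈ blk J j, (D (p.1 * p.2) : ℂ) * ex v (lam p)‖ ≤
      M * (176 * lv v * (J + 1) + 246064 * r4 ^ J₂ * (2 + |v|) ^ 2) := by
  have hlv := lv_nonneg v
  have hr4 := r4_pos
  have hr4' := r4_lt
  refine (norm_sum_le _ _).trans ?_
  have h1 : ∀ j ∈ Finset.Ico J₂ (J + 1), ‖∑ p ∈ blk J j, (D (p.1 * p.2) : ℂ) * ex v (lam p)‖ ≤
      M * (176 * lv v) + M * (35152 * (2 + |v|) ^ 2) * r4 ^ j := by
    intro j hj
    rw [Finset.mem_Ico] at hj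
    refine (blk_hi (by omega) (by omega) hM hv hD0 hDa hDM).trans (le_of_eq ?_)
    ring
  refine (Finset.sum_le_sum h1).trans ?_
  rw [Finset.sum_add_distrib, Finset.sum_const, ← Finset.mul_sum, nsmul_eq_mul]
  have h2 : ((Finset.Ico J₂ (J + 1)).card : ℝ) ≤ (J : ℝ) + 1 := by
    rw [Nat.card_Ico]
    exact_mod_cast Nat.sub_le _ _
  have h3 : ∑ j ∈ Finset.Ico J₂ (J + 1), r4 ^ j ≤ 7 * r4 ^ J₂ := by
    rw [Finset.sum_Ico_eq_sum_range]
    simp_rw [pow_add]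
    rw [← Finset.mul_sum]
    have h4 := (summable_geometric_of_lt_one hr4.le (by linarith)).sum_le_tsum (Finset.range (J + 1 - J₂))
      (fun _ _ => pow_nonneg hr4.le _)
    rw [tsum_geometric_of_lt_one hr4.le (by linarith)] at h4
    have h5 : (1 - r4)⁻¹ ≤ 7 := by
      rw [inv_le_comm₀ (by linarith) (by norm_num)]
      norm_num
      linarith
    have h6 : 0 ≤ r4 ^ J₂ := by positivity
    nlinarith
  have h4 : 0 ≤ M * (176 * lv v) := by positivity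
  have h5 : 0 ≤ M * (35152 * (2 + |v|) ^ 2) := by positivity
  calc _ ≤ ((J : ℝ) + 1) * (M * (176 * lv v)) + M * (35152 * (2 + |v|) ^ 2) * (7 * r4 ^ J₂) :=
        add_le_add (mul_le_mul_of_nonneg_right h2 h4) (mul_le_mul_of_nonneg_left h3 h5)
    _ = _ := by ring

/-! ### The diagonal terms are monotone -/

lemma V_anti {x y : ℝ} (hx : 0 < x) (hxy : x ≤ y) : V y ≤ V x := by
  rw [V_eq, V_eq]
  apply mul_le_mul_of_nonneg_left _ (inv_nonneg.2 c0_pos.le)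
  apply setIntegral_mono_set gs_int.integrableOn
  · exact Filter.Eventually.of_forall fun v => (gs_pos v).le
  · apply LE.le.eventuallyLE
    exact Ioi_subset_Ioi (Real.log_le_log hx hxy)

lemma co_prod (g : ℕ) (p : ℕ × ℕ) (u : ℝ) : co (g * p.1, g * p.2) u = co (g * (p.1 * p.2), g * 1) u := by
  unfold co ht
  push_cast
  have : (g : ℝ) * p.1 * (g * p.2) = g * (p.1 * p.2) * (g * 1) := by ring
  rw [this]

lemma cr_prod (X : ℕ) (p : ℕ × ℕ) (u : ℝ) : cr X p u = cr X (p.1 * p.2, 1) u := by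
  unfold cr
  simp only [mul_one]
  refine Finset.sum_congr rfl fun g _ => ?_
  have := co_prod g p u
  rw [mul_one] at this
  exact this

lemma cr_nonneg (X : ℕ) (p : ℕ × ℕ) (u : ℝ) : 0 ≤ cr X p u := by
  unfold cr
  apply Finset.sum_nonneg
  intro g _
  unfold co
  exact mul_nonneg (by positivity) (V_nonneg _)

lemma cr_anti (X : ℕ) {n m : ℕ} (hn : 1 ≤ n) (hnm : n ≤ m) {u : ℝ} (hu : 0 < u) : cr X (m, 1) u ≤ cr X (n, 1) u := by
  unfold cr
  simp only [mul_one]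
  have hpi := Real.pi_pos
  have h1 : (Finset.Icc 1 X).filter (fun g => g * g * m ≤ X) ⊆ (Finset.Icc 1 X).filter (fun g => g * g * n ≤ X) := by
    intro g hg
    rw [Finset.mem_filter] at hg ⊢
    exact ⟨hg.1, (Nat.mul_le_mul_left _ hnm).trans hg.2⟩
  have h2 : ∀ g ∈ (Finset.Icc 1 X).filter (fun g => g * g * m ≤ X), co (g * m, g) u ≤ co (g * n, g) u := by
    intro g hg
    rw [Finset.mem_filter, Finset.mem_Icc] at hg
    have hg0 : (0 : ℝ) < g := by exact_mod_cast hg.1.1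
    have hn0 : (0 : ℝ) < n := by exact_mod_cast hn
    have hm : (n : ℝ) ≤ m := by exact_mod_cast hnm
    unfold co ht
    push_cast
    have h3 : (g : ℝ) * n * g ≤ g * m * g := by
      apply mul_le_mul_of_nonneg_right _ hg0.le
      exact mul_le_mul_of_nonneg_left hm hg0.le
    have h4 : 0 < (g : ℝ) * n * g := by positivity
    apply mul_le_mul
    · apply mul_le_mul_of_nonneg_left _ (by norm_num)
      apply inv_anti₀ (Real.sqrt_pos.2 h4)
      exact Real.sqrt_le_sqrt h3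
    · apply V_anti (by positivity)
      apply div_le_div_of_nonneg_right _ hu.le
      exact mul_le_mul_of_nonneg_left h3 (by positivity)
    · exact V_nonneg _
    · positivity
  refine (Finset.sum_le_sum h2).trans ?_
  apply Finset.sum_le_sum_of_subset_of_nonneg h1
  intro g _ _
  unfold co
  exact mul_nonneg (by positivity) (V_nonneg _)

/-- the diagonal terms as a function of the height -/
def Dn (W : ℝ → ℝ) (T : ℝ) (J : ℕ) (n : ℕ) : ℝ := DW W T (cr (2 ^ J) (n, 1)) (cr (2 ^ J) (n, 1))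

lemma Dn_eq (W : ℝ → ℝ) (T : ℝ) (J : ℕ) (p : ℕ × ℕ) :
    DW W T (cr (2 ^ J) p) (cr (2 ^ J) p) = Dn W T J (p.1 * p.2) := by
  unfold Dn DW
  congr 1
  congr 1
  funext c
  rw [cr_prod]

lemma Dn_nonneg {KW : ℝ} {W W1 W2 : ℝ → ℝ} (hW : Wgt KW W W1 W2) {T : ℝ} (hT : 0 < T) (J n : ℕ) :
    0 ≤ Dn W T J n := DW_nonneg hW hT (fun _ _ => cr_nonneg _ _ _) (fun _ _ => cr_nonneg _ _ _)

lemma cr_contOn (X n : ℕ) (hn : 1 ≤ n) {A B : ℝ} (hA : 0 < A) : ContinuousOn (cr X (n, 1)) (Icc A B) := by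
  intro u hu
  exact (cr_deriv X (p := (n, 1)) hn le_rfl (lt_of_lt_of_le hA hu.1)).continuousAt.continuousWithinAt

lemma Dn_anti {KW : ℝ} {W W1 W2 : ℝ → ℝ} (hW : Wgt KW W W1 W2) {T : ℝ} (hT : 0 < T) (J : ℕ) {n : ℕ} (hn : 1 ≤ n) :
    Dn W T J (n + 1) ≤ Dn W T J n := by
  unfold Dn DW
  apply div_le_div_of_nonneg_right _ hT.le
  have hwc : Continuous (fun c => W (c / T)) := by
    have := hW.c0
    fun_prop
  have hci : ∀ m, 1 ≤ m → IntervalIntegrable (fun c => W (c / T) * (cr (2 ^ J) (m, 1) c * cr (2 ^ J) (m, 1) c))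
      volume (T / 2) (4 * T) := by
    intro m hm
    apply ContinuousOn.intervalIntegrable
    rw [Set.uIcc_of_le (by linarith)]
    exact hwc.continuousOn.mul ((cr_contOn _ m hm (by linarith)).mul (cr_contOn _ m hm (by linarith)))
  apply intervalIntegral.integral_mono_on (by linarith) (hci _ (by omega)) (hci _ hn)
  intro c hc
  have hc0 : 0 < c := by linarith [hc.1]
  apply mul_le_mul_of_nonneg_left _ (hW.nn _)
  have h1 := cr_anti (2 ^ J) hn (Nat.le_succ n) hc0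
  exact mul_le_mul h1 h1 (cr_nonneg _ _ _) (cr_nonneg _ _ _)

lemma Dn_le {KW : ℝ} {W W1 W2 : ℝ → ℝ} (hW : Wgt KW W W1 W2) {K : ℝ} (hK : 0 ≤ K) {J : ℕ} {T : ℝ} (hT : 1 ≤ T)
    (hF : Fam J T K (cr (2 ^ J)) (cr1 (2 ^ J)) (cr2 (2 ^ J))) {n : ℕ} (hn : 1 ≤ n) (hn2 : n ≤ 2 ^ J) :
    Dn W T J n ≤ 4 * KW * (K * K) * (1 + Real.log T) ^ 2 / n := by
  have hp : ((n, 1) : ℕ × ℕ) ∈ FR (2 ^ J) := by
    rw [FR_iff]
    exact ⟨hn, le_rfl, by simpa using hn2, by simp⟩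
  have h1 := DW_fam' hW hT hK hK hF hF hp
  have e : ht ((n, 1) : ℕ × ℕ) = n := by unfold ht; simp
  rw [e] at h1
  exact (le_abs_self _).trans h1

end

end K1H48.SW
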