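import Pool.Agent.K1H48.SW.Close
import Pool.Agent.K1H48.SW.Rl
import Pool.Agent.K1H48.SW.Far2

set_option autoImplicit false

/-! The pointwise inequality behind the variance formula. -/

namespace K1H48.SW

open MeasureTheory Set Finset Filter
open Pool.Agent.Y969.GP

noncomputable section

lemma near_bd {k : ℕ} (hk : 2 ≤ k) {T ℓ e₁ B X Y Z ξ CS : ℝ} (hT : 0 < T) (hℓ : 1 ≤ ℓ) (he : 0 ≤ e₁)
    (hB : 0 ≤ B) (hX : |X - ξ| ≤ e₁ * (T * ℓ ^ 4)) (hξ : |ξ| ≤ B * (T * ℓ ^ 4))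
    (hCS : 0 ≤ CS) (hY : |Y| ≤ CS * (T * ℓ ^ 2)) (hZ : |Z| ≤ CS * (T * ℓ ^ 2)) :
    |X ^ k - 2 * Y ^ k + Z ^ k - ξ ^ k| ≤ (e₁ * k * (B + e₁) ^ (k - 1) + 3 * CS ^ k / ℓ) * (T ^ k * ℓ ^ (4 * k)) := by
  have hℓ0 : 0 < ℓ := by linarith
  obtain ⟨s, hs⟩ : ∃ s, s = T * ℓ ^ 4 := ⟨_, rfl⟩
  have hs0 : 0 < s := by rw [hs]; positivity
  have hsk : s ^ k = T ^ k * ℓ ^ (4 * k) := by rw [hs, mul_pow, ← pow_mul]
  rw [← hs] at hX hξ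
  have hX' : |X| ≤ (B + e₁) * s := by
    have : |X| ≤ |X - ξ| + |ξ| := by
      have := abs_add_le (X - ξ) ξ
      rwa [sub_add_cancel] at this
    linarith
  have hm : max |X| |ξ| ≤ (B + e₁) * s := by
    apply max_le hX'
    have : 0 ≤ e₁ * s := by positivity
    linarith
  have h1 : |X ^ k - ξ ^ k| ≤ e₁ * k * (B + e₁) ^ (k - 1) * s ^ k := by
    refine (abs_pow_sub_pow_le (a := X) (b := ξ) (n := k)).trans ?_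
    have hm0 : 0 ≤ max |X| |ξ| := le_trans (abs_nonneg _) (le_max_left _ _)
    calc _ ≤ e₁ * s * k * ((B + e₁) * s) ^ (k - 1) := by gcongr
      _ = e₁ * k * (B + e₁) ^ (k - 1) * (s * s ^ (k - 1)) := by rw [mul_pow]; ring
      _ = _ := by
          rw [← pow_succ']
          congr 2
          omega
  have hpow : ∀ Y : ℝ, |Y| ≤ CS * (T * ℓ ^ 2) → |Y ^ k| ≤ CS ^ k / ℓ * s ^ k := by
    intro Y hY
    rw [abs_pow]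
    refine (pow_le_pow_left₀ (abs_nonneg _) hY k).trans ?_
    rw [mul_pow, mul_pow, ← pow_mul, hsk, div_mul_eq_mul_div, le_div_iff₀ hℓ0]
    have h3 : ℓ ^ (2 * k) * ℓ ≤ ℓ ^ (4 * k) := by
      rw [← pow_succ]
      exact pow_le_pow_right₀ hℓ (by omega)
    calc CS ^ k * (T ^ k * ℓ ^ (2 * k)) * ℓ = CS ^ k * (T ^ k * (ℓ ^ (2 * k) * ℓ)) := by ring
      _ ≤ CS ^ k * (T ^ k * ℓ ^ (4 * k)) := by gcongr
  have h2 := hpow Y hY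
  have h3 := hpow Z hZ
  rw [← hsk]
  have e : X ^ k - 2 * Y ^ k + Z ^ k - ξ ^ k = (X ^ k - ξ ^ k) - 2 * Y ^ k + Z ^ k := by ring
  rw [e]
  refine (abs_add_le _ _).trans ((add_le_add (abs_sub _ _) le_rfl).trans ?_)
  rw [abs_mul, abs_two]
  have e2 : 3 * CS ^ k / ℓ = 3 * (CS ^ k / ℓ) := by ring
  rw [e2]
  linarith

lemma far_bd {k : ℕ} (hk : 2 ≤ k) {T δ X Y Z ξ a1 a2 a3 a4 a5 b1 b2 b3 : ℝ} (hT : 0 < T) (hδ : 0 < δ)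
    (h1 : 0 ≤ a1) (h2 : 0 ≤ a2) (h3 : 0 ≤ a3) (h4 : 0 ≤ a4) (h5 : 0 ≤ a5) (g1 : 0 ≤ b1) (g2 : 0 ≤ b2) (g3 : 0 ≤ b3)
    (hXY : |X - Y| ≤ T * (a1 + a2 + a3 + a4 + a5)) (hYZ : |Y - Z| ≤ T * (b1 + b2 + b3)) :
    |X ^ k - 2 * Y ^ k + Z ^ k - ξ ^ k| ≤ δ * (|X| ^ k + 2 * |Y| ^ k + |Z| ^ k) +
      k * (k / δ) ^ (k - 1) * 16 ^ k * T ^ k * (a1 ^ k + a2 ^ k + a3 ^ k + a4 ^ k + a5 ^ k + b1 ^ k + b2 ^ k + b3 ^ k) +
      |ξ| ^ k := by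
  have y1 := pow_young (by omega : 1 ≤ k) hδ X Y
  have y2 := pow_young (by omega : 1 ≤ k) hδ Y Z
  obtain ⟨c, hc⟩ : ∃ c : ℝ, c = k * (k / δ) ^ (k - 1) := ⟨_, rfl⟩
  have hc0 : 0 ≤ c := by rw [hc]; positivity
  rw [← hc] at y1 y2 ⊢
  have z1 : |X - Y| ^ k ≤ T ^ k * (16 ^ k * (a1 ^ k + a2 ^ k + a3 ^ k + a4 ^ k + a5 ^ k)) := by
    refine (pow_le_pow_left₀ (abs_nonneg _) hXY k).trans ?_
    rw [mul_pow]
    exact mul_le_mul_of_nonneg_left (add_pow5 h1 h2 h3 h4 h5) (by positivity)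
  have z2 : |Y - Z| ^ k ≤ T ^ k * (16 ^ k * (b1 ^ k + b2 ^ k + b3 ^ k)) := by
    refine (pow_le_pow_left₀ (abs_nonneg _) hYZ k).trans ?_
    rw [mul_pow]
    apply mul_le_mul_of_nonneg_left _ (by positivity)
    have := add_pow5 (k := k) g1 g2 g3 le_rfl le_rfl
    rw [zero_pow (by omega)] at this
    simpa only [add_zero] using this
  have w1 := mul_le_mul_of_nonneg_left z1 hc0
  have w2 := mul_le_mul_of_nonneg_left z2 hc0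
  have e : X ^ k - 2 * Y ^ k + Z ^ k - ξ ^ k = (X ^ k - Y ^ k) - (Y ^ k - Z ^ k) - ξ ^ k := by ring
  rw [e]
  refine (abs_sub _ _).trans ((add_le_add (abs_sub _ _) le_rfl).trans ?_)
  rw [abs_pow ξ]
  nlinarith

/-- the correlations of `|ζ|²` and of the model -/
lemma corr3 {KW : ℝ} {W W1 W2 : ℝ → ℝ} (hW : Wgt KW W W1 W2) : ∃ K C T₀ : ℝ, 2 ≤ K ∧ 0 < C ∧ 1 ≤ T₀ ∧
    (∀ T : ℝ, 0 < T → Fam (JT T) T K (cr (2 ^ JT T)) (cr1 (2 ^ JT T)) (cr2 (2 ^ JT T))) ∧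
    ∀ T : ℝ, T₀ ≤ T → ∀ (J₁ : ℕ) (S : Finset (ℕ × ℕ)), S ⊆ FR (2 ^ J₁) → Sym S → (2 ^ J₁) ^ 2 ≤ T →
    ∀ t t' : ℝ, 0 ≤ t → t ≤ √T → 0 ≤ t' → t' ≤ √T →
    ‖(CW W T ff ff t t' : ℂ) - T * Cm (JT T) (Dff W T) (t - t')‖ ≤ C * (T * (1 + Real.log T)) ∧
    ‖(CW W T ff (qr T S) t t' : ℂ) - T * Cm (JT T) (Dfq W T S) (t - t')‖ ≤ C * (T * (1 + Real.log T)) ∧
    ‖(CW W T (qr T S) (qr T S) t t' : ℂ) - T * Cm (JT T) (Dqq W T S) (t - t')‖ ≤ C * (T * (1 + Real.log T)) := by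
  obtain ⟨K₀, hK₀, hfam⟩ := fam_f
  obtain ⟨E, hE, hafe⟩ := afe_f
  obtain ⟨C, T₁, hC, hT₁, h⟩ := corr_real2 hW (K := max K₀ 2) (E := E) (le_max_of_le_right (by norm_num)) hE.le
  have hF : ∀ T : ℝ, 0 < T → Fam (JT T) T (max K₀ 2) (cr (2 ^ JT T)) (cr1 (2 ^ JT T)) (cr2 (2 ^ JT T)) := by
    intro T hT p hp
    exact (hfam (JT T) T hT p hp).mono (mul_le_mul_of_nonneg_right (le_max_left _ _) (bet_nonneg hT p)) hT
  refine ⟨max K₀ 2, C, max T₁ 32, le_max_right _ _, hC, hT₁.trans (le_max_left _ _), hF,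
    fun T hT J₁ S hS hsym hJT t t' ht0 ht ht0' ht' => ?_⟩
  have hTa : T₁ ≤ T := (le_max_left _ _).trans hT
  have hTb : 32 ≤ T := (le_max_right _ _).trans hT
  have hT0 : 0 < T := by linarith
  have hFQ2 := fam_Q J₁ S hS (JT T) T hJT
  have hFQ : Fam (JT T) T (max K₀ 2) (aQ T S) (fun _ _ => 0) (fun _ _ => 0) := fun p hp =>
    (hFQ2 p hp).mono (mul_le_mul_of_nonneg_right (le_max_right _ _) (bet_nonneg hT0 p)) hT0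
  have hJ1 : J₁ ≤ JT T := J_le_JT hJT
  have hq : ∀ u ∈ Icc (T / 2) (8 * T), ‖(qr T S u : ℂ) - gP (JT T) (aQ T S) u‖ ≤ E * T ^ (-(1 / 4) : ℝ) := by
    intro u _
    rw [gP_Q hS hJ1, Qf_real hsym, sub_self, norm_zero]
    positivity
  refine ⟨h T hTa ff ff _ _ _ _ _ _ ff_cont ff_cont (hF T hT0) (hF T hT0) (hafe T hTb) (hafe T hTb) t t' ht0 ht ht0' ht',
    h T hTa ff (qr T S) _ _ _ _ _ _ ff_cont (qr_cont T S) (hF T hT0) hFQ (hafe T hTb) hq t t' ht0 ht ht0' ht',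
    h T hTa (qr T S) (qr T S) _ _ _ _ _ _ (qr_cont T S) (qr_cont T S) hFQ hFQ hq hq t t' ht0 ht ht0' ht'⟩

/-- the moments of the correlations -/
lemma mom3 {k : ℕ} (hk : 2 ≤ k) {KW : ℝ} {W W1 W2 : ℝ → ℝ} (hW : Wgt KW W W1 W2) : ∃ C T₀ : ℝ, 0 < C ∧ 1 ≤ T₀ ∧
    ∀ T : ℝ, T₀ ≤ T → ∀ (J₁ : ℕ) (S : Finset (ℕ × ℕ)), S ⊆ FR (2 ^ J₁) → Sym S → (2 ^ J₁) ^ 2 ≤ T →
    ∀ U : ℝ, 0 < U → U ≤ √T →
    I2 U (fun z => |CW W T ff ff z.1 z.2| ^ k) + 2 * I2 U (fun z => |CW W T ff (qr T S) z.1 z.2| ^ k) +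
      I2 U (fun z => |CW W T (qr T S) (qr T S) z.1 z.2| ^ k) ≤
      C * (T ^ k * (1 + Real.log T) ^ (2 * k) * (U ^ 2 + U * (1 + Real.log T) ^ (2 * k - 1))) := by
  obtain ⟨K₀, hK₀, hfam⟩ := fam_f
  obtain ⟨E, hE, hafe⟩ := afe_f
  obtain ⟨C, T₁, hC, hT₁, h⟩ := kmom2 hk hW (K := max K₀ 2) (E := E) (le_max_of_le_right (by norm_num)) hE.le
  have hF : ∀ T : ℝ, 0 < T → Fam (JT T) T (max K₀ 2) (cr (2 ^ JT T)) (cr1 (2 ^ JT T)) (cr2 (2 ^ JT T)) := by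
    intro T hT p hp
    exact (hfam (JT T) T hT p hp).mono (mul_le_mul_of_nonneg_right (le_max_left _ _) (bet_nonneg hT p)) hT
  refine ⟨4 * C, max T₁ 32, by positivity, hT₁.trans (le_max_left _ _), fun T hT J₁ S hS hsym hJT U hU hUT => ?_⟩
  have hTa : T₁ ≤ T := (le_max_left _ _).trans hT
  have hTb : 32 ≤ T := (le_max_right _ _).trans hT
  have hT0 : 0 < T := by linarith
  have hFQ2 := fam_Q J₁ S hS (JT T) T hJT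
  have hFQ : Fam (JT T) T (max K₀ 2) (aQ T S) (fun _ _ => 0) (fun _ _ => 0) := fun p hp =>
    (hFQ2 p hp).mono (mul_le_mul_of_nonneg_right (le_max_right _ _) (bet_nonneg hT0 p)) hT0
  have hJ1 : J₁ ≤ JT T := J_le_JT hJT
  have hq : ∀ u ∈ Icc (T / 2) (8 * T), ‖(qr T S u : ℂ) - gP (JT T) (aQ T S) u‖ ≤ E * T ^ (-(1 / 4) : ℝ) := by
    intro u _
    rw [gP_Q hS hJ1, Qf_real hsym, sub_self, norm_zero]
    positivity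
  have e : ∀ g g' : ℝ → ℝ, Continuous g → Continuous g' →
      ∫ t in (0 : ℝ)..U, ∫ t' in (0 : ℝ)..U, |CW W T g g' t t'| ^ k = I2 U (fun z => |CW W T g g' z.1 z.2| ^ k) := by
    intro g g' hg hg'
    exact I2_eq hU.le ((CW_cont W hW.c0 T hg hg').abs.pow k)
  have h1 := h T hTa ff ff _ _ _ _ _ _ ff_cont ff_cont (hF T hT0) (hF T hT0) (hafe T hTb) (hafe T hTb)
    (fun p _ c _ => ⟨cr_nonneg _ _ _, cr_nonneg _ _ _⟩) U hU hUT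
  have h2 := h T hTa ff (qr T S) _ _ _ _ _ _ ff_cont (qr_cont T S) (hF T hT0) hFQ (hafe T hTb) hq
    (fun p _ c _ => ⟨cr_nonneg _ _ _, aQ_nonneg (by linarith) _ _ _⟩) U hU hUT
  have h3 := h T hTa (qr T S) (qr T S) _ _ _ _ _ _ (qr_cont T S) (qr_cont T S) hFQ hFQ hq hq
    (fun p _ c _ => ⟨aQ_nonneg (by linarith) _ _ _, aQ_nonneg (by linarith) _ _ _⟩) U hU hUT
  rw [e _ _ ff_cont ff_cont] at h1
  rw [e _ _ ff_cont (qr_cont T S)] at h2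
  rw [e _ _ (qr_cont T S) (qr_cont T S)] at h3
  have e2 : C * (T ^ k * U ^ 2 * ((1 + Real.log T) ^ (2 * k) * (1 + (1 + Real.log T) ^ (2 * k - 1) / U))) =
      C * (T ^ k * (1 + Real.log T) ^ (2 * k) * (U ^ 2 + U * (1 + Real.log T) ^ (2 * k - 1))) := by
    field_simp
  rw [e2] at h1 h2 h3
  linarith

end

end K1H48.SW
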