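import Pool.Agent.K1H48.SW.Mn1

set_option autoImplicit false

/-! The pointwise inequality, continued. -/

namespace K1H48.SW

open MeasureTheory Set Finset Filter
open Pool.Agent.Y969.GP

noncomputable section

/-- the asymptotic value of the correlation of `|ζ|²` -/
def xi (W : ℝ → ℝ) (T v : ℝ) : ℝ := T * (wh W * (6 / Real.pi ^ 2 * Hh (Real.log T) v))

lemma six_le : 0 ≤ 6 / Real.pi ^ 2 ∧ 6 / Real.pi ^ 2 ≤ 1 := by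
  have hpi := Real.pi_gt_three
  constructor
  · positivity
  · rw [div_le_one (by positivity)]
    nlinarith

lemma xi_abs {KW : ℝ} {W W1 W2 : ℝ → ℝ} (hW : Wgt KW W W1 W2) {T : ℝ} (hT : 1 ≤ T) (v : ℝ) {H : ℝ}
    (hH : |Hh (Real.log T) v| ≤ H) : |xi W T v| ≤ 4 * KW * (T * H) := by
  have h1 := wh_nonneg hW
  have h2 := wh_le hW
  obtain ⟨h3, h4⟩ := six_le
  have hKW : 0 ≤ KW := by linarith [hW.one]
  have hT0 : 0 < T := by linarith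
  have hH0 : 0 ≤ H := (abs_nonneg _).trans hH
  unfold xi
  rw [abs_mul, abs_mul, abs_mul, abs_of_pos hT0, abs_of_nonneg h1, abs_of_nonneg h3]
  calc T * (wh W * (6 / Real.pi ^ 2 * |Hh (Real.log T) v|)) ≤ T * (4 * KW * (1 * H)) := by gcongr
    _ = _ := by ring

lemma xi_cont (W : ℝ → ℝ) (T : ℝ) : Continuous (xi W T) := by
  unfold xi
  exact continuous_const.mul (continuous_const.mul (continuous_const.mul (Hh_cont _)))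

/-- the error term of the pointwise inequality -/
def Gpt (k : ℕ) (W : ℝ → ℝ) (KW K m δ e₁ R η T : ℝ) (J₀ J₁ J₂ : ℕ) (S : Finset (ℕ × ℕ)) (z : ℝ × ℝ) : ℝ :=
  e₁ * (T ^ k * (1 + Real.log T) ^ (4 * k)) * (2 / (1 + ((z.1 - z.2) / (R / (1 + Real.log T))) ^ 2)) +
  δ * (|CW W T ff ff z.1 z.2| ^ k + 2 * |CW W T ff (qr T S) z.1 z.2| ^ k + |CW W T (qr T S) (qr T S) z.1 z.2| ^ k) +
  k * (k / δ) ^ (k - 1) * 16 ^ k * T ^ k * (2 * (m * (1 + Real.log T)) ^ k +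
    ‖Cm J₂ (Dmid J₀ J₂ (Dff W T)) (z.1 - z.2)‖ ^ k +
    2 * ‖Cm (J₁ + 1) (Dmid J₀ (J₁ + 1) (Dfq W T S)) (z.1 - z.2)‖ ^ k +
    ‖Cm (J₁ + 1) (Dmid J₀ (J₁ + 1) (Dqq W T S)) (z.1 - z.2)‖ ^ k +
    (4 * KW * (K * K) * 528 * (1 + Real.log T) ^ 3) ^ k * fk (R / (1 + Real.log T)) (z.1 - z.2) ^ k +
    (4 * KW * (K * K) * 246064 * (1 + Real.log T) ^ 2 * η) ^ k) +
  (16 * KW * (T * (1 + Real.log T) ^ 2)) ^ k * (R / (1 + Real.log T) + |z.1 - z.2|) ^ (-(2 * k : ℝ))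

lemma toReal {T : ℝ} (hT0 : 0 < T) {x B : ℝ} {w : ℂ} (h : ‖(x : ℂ) - T * w‖ ≤ B) : |x| ≤ B + T * ‖w‖ := by
  calc |x| = ‖(x : ℂ)‖ := by rw [Complex.norm_real, Real.norm_eq_abs]
    _ = ‖((x : ℂ) - T * w) + T * w‖ := by rw [sub_add_cancel]
    _ ≤ B + ‖(T : ℂ) * w‖ := (norm_add_le _ _).trans (by linarith)
    _ = _ := by rw [norm_mul, Complex.norm_real, Real.norm_eq_abs, abs_of_pos hT0]

lemma toDiff {T : ℝ} (hT0 : 0 < T) {x y B : ℝ} {w w' : ℂ} (h : ‖(x : ℂ) - T * w‖ ≤ B) (h' : ‖(y : ℂ) - T * w'‖ ≤ B) :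
    |x - y| ≤ 2 * B + T * ‖w - w'‖ := by
  have e : ((x - y : ℝ) : ℂ) = ((x : ℂ) - T * w) - ((y : ℂ) - T * w') + T * (w - w') := by push_cast; ring
  calc |x - y| = ‖((x - y : ℝ) : ℂ)‖ := by rw [Complex.norm_real, Real.norm_eq_abs]
    _ = ‖((x : ℂ) - T * w) - ((y : ℂ) - T * w') + T * (w - w')‖ := by rw [e]
    _ ≤ (B + B) + ‖(T : ℂ) * (w - w')‖ := (norm_add_le _ _).trans (add_le_add ((norm_sub_le _ _).trans
        (add_le_add h h')) le_rfl)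
    _ = _ := by rw [norm_mul, Complex.norm_real, Real.norm_eq_abs, abs_of_pos hT0]; ring

/-- near the diagonal, one pair of points -/
lemma near_one {k : ℕ} (hk : 2 ≤ k) {KW : ℝ} {W W1 W2 : ℝ → ℝ} (hW : Wgt KW W W1 W2) {T C M ε' X Y Z v : ℝ}
    {wX wY wZ : ℂ} (hT : 1 ≤ T) (hC : 0 ≤ C) (hM : 0 ≤ M) (hε : 0 < ε') (hCℓ : C ≤ ε' * (1 + Real.log T))
    (c1 : ‖(X : ℂ) - T * wX‖ ≤ C * (T * (1 + Real.log T))) (c2 : ‖(Y : ℂ) - T * wY‖ ≤ C * (T * (1 + Real.log T)))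
    (c3 : ‖(Z : ℂ) - T * wZ‖ ≤ C * (T * (1 + Real.log T)))
    (d1 : |wX.re - wh W * (6 / Real.pi ^ 2 * Hh (Real.log T) v)| ≤ ε' * (1 + Real.log T) ^ 4)
    (q1 : ‖wY‖ ≤ M * (1 + Real.log T) ^ 2) (q2 : ‖wZ‖ ≤ M * (1 + Real.log T) ^ 2) :
    |X ^ k - 2 * Y ^ k + Z ^ k - xi W T v ^ k| ≤
      (2 * ε' * k * (4 * KW + 2 * ε') ^ (k - 1) + 3 * (M + C) ^ k / (1 + Real.log T)) *
        (T ^ k * (1 + Real.log T) ^ (4 * k)) := by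
  have hKW : 0 ≤ KW := by linarith [hW.one]
  have hT0 : 0 < T := by linarith
  have hL := Real.log_nonneg hT
  obtain ⟨ℓ, hℓ⟩ : ∃ ℓ, ℓ = 1 + Real.log T := ⟨_, rfl⟩
  rw [← hℓ] at hCℓ c1 c2 c3 d1 q1 q2 ⊢
  have hℓ1 : 1 ≤ ℓ := by linarith
  have hℓ0 : 0 < ℓ := by linarith
  have d2 : |X - T * wX.re| ≤ C * (T * ℓ) := by
    have e := Complex.abs_re_le_norm ((X : ℂ) - T * wX)
    rw [Complex.sub_re, Complex.ofReal_re, Complex.re_ofReal_mul] at e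
    exact e.trans c1
  have d3 : |X - xi W T v| ≤ 2 * ε' * (T * ℓ ^ 4) := by
    have e : X - xi W T v = (X - T * wX.re) + T * (wX.re - wh W * (6 / Real.pi ^ 2 * Hh (Real.log T) v)) := by
      unfold xi; ring
    rw [e]
    refine (abs_add_le _ _).trans ?_
    rw [abs_mul, abs_of_pos hT0]
    have e2 := mul_le_mul_of_nonneg_left d1 hT0.le
    have e3 : C * (T * ℓ) ≤ ε' * (T * ℓ ^ 4) := by
      have e4 : ℓ ^ 2 ≤ ℓ ^ 4 := pow_le_pow_right₀ hℓ1 (by norm_num)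
      calc C * (T * ℓ) ≤ (ε' * ℓ) * (T * ℓ) := mul_le_mul_of_nonneg_right hCℓ (by positivity)
        _ = ε' * (T * ℓ ^ 2) := by ring
        _ ≤ ε' * (T * ℓ ^ 4) := mul_le_mul_of_nonneg_left (mul_le_mul_of_nonneg_left e4 hT0.le) hε.le
    linarith
  have d4 : |xi W T v| ≤ 4 * KW * (T * ℓ ^ 4) := by
    apply xi_abs hW hT
    exact (Hh_bd hL).trans (pow_le_pow_left₀ hL (by linarith) 4)
  have d5 : ∀ (x : ℝ) (w : ℂ), ‖(x : ℂ) - T * w‖ ≤ C * (T * ℓ) → ‖w‖ ≤ M * ℓ ^ 2 → |x| ≤ (M + C) * (T * ℓ ^ 2) := by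
    intro x w hx hw
    refine (toReal hT0 hx).trans ?_
    have e1 := mul_le_mul_of_nonneg_left hw hT0.le
    have e2 : C * (T * ℓ) ≤ C * (T * ℓ ^ 2) := by
      have : ℓ ≤ ℓ ^ 2 := by nlinarith
      exact mul_le_mul_of_nonneg_left (mul_le_mul_of_nonneg_left this hT0.le) hC
    linarith
  exact near_bd hk hT0 hℓ1 (by positivity : 0 ≤ 2 * ε') (by positivity) d3 d4 (by positivity) (d5 Y _ c2 q1)
    (d5 Z _ c3 q2)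

/-- near the diagonal -/
theorem near_pt {k : ℕ} (hk : 2 ≤ k) {KW : ℝ} {W W1 W2 : ℝ → ℝ} (hW : Wgt KW W W1 W2) {e₁ : ℝ} (he₁ : 0 < e₁)
    (J₁ : ℕ) : ∃ T₀ : ℝ, 1 ≤ T₀ ∧ ∀ T : ℝ, T₀ ≤ T → ∀ (S : Finset (ℕ × ℕ)), S ⊆ FR (2 ^ J₁) → Sym S →
    ∀ t t' : ℝ, 0 ≤ t → t ≤ √T → 0 ≤ t' → t' ≤ √T → |t - t'| ≤ 1 →
      |CW W T ff ff t t' ^ k - 2 * CW W T ff (qr T S) t t' ^ k + CW W T (qr T S) (qr T S) t t' ^ k -
        xi W T (t - t') ^ k| ≤ e₁ * (T ^ k * (1 + Real.log T) ^ (4 * k)) := by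
  obtain ⟨K, C, T₁, hK, hC, hT₁, hfam, h1⟩ := corr3 hW
  have hKW : 0 < KW := by linarith [hW.one]
  have hk0 : (0 : ℝ) < k := by exact_mod_cast (by omega : 0 < k)
  obtain ⟨ε', hε'⟩ : ∃ ε' : ℝ, ε' = min 1 (e₁ / (4 * k * (4 * KW + 2) ^ (k - 1))) := ⟨_, rfl⟩
  have hε0 : 0 < ε' := by rw [hε']; apply lt_min one_pos; positivity
  have hε1 : ε' ≤ 1 := by rw [hε']; exact min_le_left _ _
  have hε2 : ε' ≤ e₁ / (4 * k * (4 * KW + 2) ^ (k - 1)) := by rw [hε']; exact min_le_right _ _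
  obtain ⟨T₃, hT₃, h3⟩ := near_ff hW hε0
  obtain ⟨M, hM⟩ : ∃ M : ℝ, M = 4 * KW * (K * K) * ((J₁ : ℝ) + 1) ^ 2 := ⟨_, rfl⟩
  have hM0 : 0 ≤ M := by rw [hM]; positivity
  refine ⟨max T₁ (max (max T₃ ((2 ^ J₁) ^ 2)) (Real.exp (C / ε' + 6 * (M + C) ^ k / e₁))),
    hT₁.trans (le_max_left _ _), fun T hT S hS1 hsym t t' ht ht2 ht' ht2' hv => ?_⟩
  have hTa : T₁ ≤ T := (le_max_left _ _).trans hT
  have hTc : T₃ ≤ T := (((le_max_left _ _).trans (le_max_left _ _)).trans (le_max_right _ _)).trans hT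
  have hTd : (2 ^ J₁) ^ 2 ≤ T := (((le_max_right _ _).trans (le_max_left _ _)).trans (le_max_right _ _)).trans hT
  have hTe : Real.exp (C / ε' + 6 * (M + C) ^ k / e₁) ≤ T := ((le_max_right _ _).trans (le_max_right _ _)).trans hT
  have hT1 : 1 ≤ T := hT₁.trans hTa
  have hT0 : 0 < T := by linarith
  have hL := Real.log_nonneg hT1
  have hLe : C / ε' + 6 * (M + C) ^ k / e₁ ≤ Real.log T := by rw [Real.le_log_iff_exp_le hT0]; exact hTe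
  have hp1 : 0 ≤ C / ε' := by positivity
  have hp2 : 0 ≤ 6 * (M + C) ^ k / e₁ := by positivity
  have hCℓ : C ≤ ε' * (1 + Real.log T) := by
    have : C / ε' ≤ 1 + Real.log T := by linarith
    rw [div_le_iff₀ hε0] at this
    linarith
  obtain ⟨c1, c2, c3⟩ := h1 T hTa J₁ S hS1 hsym hTd t t' ht ht2 ht' ht2'
  obtain ⟨q1, q2⟩ := q_crude hW hK hT1 (hfam T hT0) hS1 hTd (J_le_JT hTd) (t - t')
  have r1 : ∀ x : ℝ, x ≤ 4 * KW * (K * K) * (1 + Real.log T) ^ 2 * ((J₁ : ℝ) + 1) ^ 2 → x ≤ M * (1 + Real.log T) ^ 2 := by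
    intro x hx
    refine hx.trans (le_of_eq ?_)
    rw [hM]; ring
  refine (near_one hk hW hT1 hC.le hM0 hε0 hCℓ c1 c2 c3 (h3 T hTc _ hv) (r1 _ q1) (r1 _ q2)).trans ?_
  apply mul_le_mul_of_nonneg_right _ (by positivity)
  have e1 : (4 * KW + 2 * ε') ^ (k - 1) ≤ (4 * KW + 2) ^ (k - 1) :=
    pow_le_pow_left₀ (by positivity) (by linarith) _
  have e2 : 2 * ε' * k * (4 * KW + 2 * ε') ^ (k - 1) ≤ e₁ / 2 := by
    rw [le_div_iff₀ (by positivity)] at hε2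
    have : 2 * ε' * k * (4 * KW + 2 * ε') ^ (k - 1) ≤ 2 * ε' * k * (4 * KW + 2) ^ (k - 1) :=
      mul_le_mul_of_nonneg_left e1 (by positivity)
    linarith
  have e3 : 3 * (M + C) ^ k / (1 + Real.log T) ≤ e₁ / 2 := by
    have h4 : 6 * (M + C) ^ k / e₁ ≤ 1 + Real.log T := by linarith
    rw [div_le_iff₀ he₁] at h4
    rw [div_le_iff₀ (by linarith)]
    linarith
  linarith

/-- far from the diagonal, one pair of points -/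
lemma xi_far {k : ℕ} {KW : ℝ} {W W1 W2 : ℝ → ℝ} (hW : Wgt KW W W1 W2) {T ρ v : ℝ}
    (hT : 1 ≤ T) (hρ : 0 < ρ) (hv : ρ ≤ |v|) :
    |xi W T v| ^ k ≤ (16 * KW * (T * (1 + Real.log T) ^ 2)) ^ k * (ρ + |v|) ^ (-(2 * k : ℝ)) := by
  have hKW : 0 ≤ KW := by linarith [hW.one]
  have hT0 : 0 < T := by linarith
  have hL := Real.log_nonneg hT
  have hv0 : v ≠ 0 := by
    intro h
    rw [h, abs_zero] at hv
    linarith
  obtain ⟨ℓ, hℓ⟩ : ∃ ℓ, ℓ = 1 + Real.log T := ⟨_, rfl⟩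
  rw [← hℓ]
  obtain ⟨a1, a2⟩ := Hh_far hL hv0
  have hs : 0 < ρ + |v| := by positivity
  have a3 : |xi W T v| ≤ 16 * KW * (T * ℓ ^ 2) * (ρ + |v|) ^ (-(2 : ℝ)) := by
    have b1 : |Hh (Real.log T) v| ≤ ℓ ^ 2 / v ^ 2 := by
      rw [abs_of_nonneg a1]
      refine a2.trans ?_
      apply div_le_div_of_nonneg_right _ (by positivity)
      exact pow_le_pow_left₀ hL (by linarith) 2
    refine (xi_abs hW hT v b1).trans ?_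
    rw [Real.rpow_neg hs.le, Real.rpow_two, ← div_eq_mul_inv, le_div_iff₀ (by positivity)]
    have b2 : (ρ + |v|) ^ 2 ≤ 4 * v ^ 2 := by
      rw [← sq_abs v]
      have : ρ + |v| ≤ 2 * |v| := by linarith
      nlinarith [abs_nonneg v]
    have hv2 : 0 < v ^ 2 := by positivity
    calc 4 * KW * (T * (ℓ ^ 2 / v ^ 2)) * (ρ + |v|) ^ 2 ≤ 4 * KW * (T * (ℓ ^ 2 / v ^ 2)) * (4 * v ^ 2) :=
          mul_le_mul_of_nonneg_left b2 (by positivity)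
      _ = _ := by field_simp; ring
  refine (pow_le_pow_left₀ (abs_nonneg _) a3 k).trans (le_of_eq ?_)
  rw [mul_pow, ← Real.rpow_mul_natCast hs.le]
  congr 2
  ring

/-- far from the diagonal -/
theorem far_pt {k : ℕ} (hk : 2 ≤ k) {KW : ℝ} {W W1 W2 : ℝ → ℝ} (hW : Wgt KW W W1 W2) : ∃ K : ℝ, 2 ≤ K ∧
    (∀ T : ℝ, 0 < T → Fam (JT T) T K (cr (2 ^ JT T)) (cr1 (2 ^ JT T)) (cr2 (2 ^ JT T))) ∧
    ∀ J₀ : ℕ, ∃ m T₀ : ℝ, 0 < m ∧ 1 ≤ T₀ ∧ ∀ (δ ρ : ℝ) (J₁ : ℕ), 0 < δ → 0 < ρ → J₀ ≤ J₁ →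
    ∀ T : ℝ, T₀ ≤ T → (2 ^ J₁) ^ 2 ≤ T → ∀ (J₂ : ℕ) (S : Finset (ℕ × ℕ)) (η U : ℝ), J₁ + 1 ≤ J₂ → J₂ ≤ JT T →
    FR (2 ^ J₀) ⊆ S → S ⊆ FR (2 ^ J₁) → Sym S → 0 ≤ η → 0 ≤ U → U ≤ √T → r4 ^ J₂ * (2 + U) ^ 2 ≤ η →
    ∀ t ∈ Icc 0 U, ∀ t' ∈ Icc 0 U, ρ ≤ |t - t'| →
      |CW W T ff ff t t' ^ k - 2 * CW W T ff (qr T S) t t' ^ k + CW W T (qr T S) (qr T S) t t' ^ k -
        xi W T (t - t') ^ k| ≤
      δ * (|CW W T ff ff t t'| ^ k + 2 * |CW W T ff (qr T S) t t'| ^ k + |CW W T (qr T S) (qr T S) t t'| ^ k) +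
      k * (k / δ) ^ (k - 1) * 16 ^ k * T ^ k * (2 * (m * (1 + Real.log T)) ^ k +
        ‖Cm J₂ (Dmid J₀ J₂ (Dff W T)) (t - t')‖ ^ k +
        2 * ‖Cm (J₁ + 1) (Dmid J₀ (J₁ + 1) (Dfq W T S)) (t - t')‖ ^ k +
        ‖Cm (J₁ + 1) (Dmid J₀ (J₁ + 1) (Dqq W T S)) (t - t')‖ ^ k +
        (4 * KW * (K * K) * 528 * (1 + Real.log T) ^ 3) ^ k * fk ρ (t - t') ^ k +
        (4 * KW * (K * K) * 246064 * (1 + Real.log T) ^ 2 * η) ^ k) +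
      (16 * KW * (T * (1 + Real.log T) ^ 2)) ^ k * (ρ + |t - t'|) ^ (-(2 * k : ℝ)) := by
  obtain ⟨K, C, T₁, hK, hC, hT₁, hfam, h1⟩ := corr3 hW
  have hKW : 0 < KW := by linarith [hW.one]
  refine ⟨K, hK, hfam, fun J₀ => ?_⟩
  obtain ⟨m, T₂, hm, hT₂, h2⟩ := diff_pt J₀ hW hK
  refine ⟨m + 2 * C, max T₁ T₂, by positivity, hT₁.trans (le_max_left _ _),
    fun δ ρ J₁ hδ hρ h01 T hT hTd J₂ S η U h12 h2J hS hS1 hsym hη hU hUT hr4 t ht t' ht' hfar => ?_⟩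
  have hTa : T₁ ≤ T := (le_max_left _ _).trans hT
  have hTb : T₂ ≤ T := (le_max_right _ _).trans hT
  have hT1 : 1 ≤ T := hT₁.trans hTa
  have hT0 : 0 < T := by linarith
  have hL := Real.log_nonneg hT1
  obtain ⟨c1, c2, c3⟩ := h1 T hTa J₁ S hS1 hsym hTd t t' ht.1 (ht.2.trans hUT) ht'.1 (ht'.2.trans hUT)
  have e4 := xi_far (k := k) hW hT1 hρ hfar
  have hv0 : t - t' ≠ 0 := by
    intro h
    rw [h, abs_zero] at hfar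
    linarith
  obtain ⟨g1, g2⟩ := h2 T hTb (hfam T hT0) J₁ J₂ S hS hS1 hTd h01 h12 h2J _ hv0
  have hlv : lv (t - t') ≤ fk ρ (t - t') := lvm hρ hfar
  have hvU : |t - t'| ≤ U := by
    rw [abs_le]
    constructor
    · linarith [ht.1, ht'.2]
    · linarith [ht.2, ht'.1]
  have b1 : r4 ^ J₂ * (2 + |t - t'|) ^ 2 ≤ η := by
    refine le_trans ?_ hr4
    apply mul_le_mul_of_nonneg_left _ (pow_nonneg r4_pos.le _)
    exact pow_le_pow_left₀ (by positivity) (by linarith) 2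
  have hfk := fk_nonneg hρ (t - t')
  obtain ⟨X, hX⟩ : ∃ X, X = CW W T ff ff t t' := ⟨_, rfl⟩
  obtain ⟨Y, hY⟩ : ∃ Y, Y = CW W T ff (qr T S) t t' := ⟨_, rfl⟩
  obtain ⟨Z, hZ⟩ : ∃ Z, Z = CW W T (qr T S) (qr T S) t t' := ⟨_, rfl⟩
  obtain ⟨v, hv⟩ : ∃ v, v = t - t' := ⟨_, rfl⟩
  obtain ⟨ℓ, hℓ⟩ : ∃ ℓ, ℓ = 1 + Real.log T := ⟨_, rfl⟩
  have f1 := toDiff hT0 c1 c2
  have f2 := toDiff hT0 c2 c3
  rw [← hX, ← hY, ← hv, ← hℓ] at f1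
  rw [← hY, ← hZ, ← hv, ← hℓ] at f2
  rw [← hv, ← hℓ] at g1 g2 e4
  rw [← hv] at hlv b1 hfk
  rw [← hX, ← hY, ← hZ, ← hv, ← hℓ]
  clear hX hY hZ hv hfar hvU hv0 c1 c2 c3 h1 h2 hr4 ht ht'
  have hℓ1 : 1 ≤ ℓ := by linarith
  have hℓ0 : 0 < ℓ := by linarith
  obtain ⟨P, hP⟩ : ∃ P, P = ‖Cm J₂ (Dmid J₀ J₂ (Dff W T)) v‖ := ⟨_, rfl⟩
  obtain ⟨Q, hQ⟩ : ∃ Q, Q = ‖Cm (J₁ + 1) (Dmid J₀ (J₁ + 1) (Dfq W T S)) v‖ := ⟨_, rfl⟩
  obtain ⟨Q', hQ'⟩ : ∃ Q', Q' = ‖Cm (J₁ + 1) (Dmid J₀ (J₁ + 1) (Dqq W T S)) v‖ := ⟨_, rfl⟩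
  have hP0 : 0 ≤ P := by rw [hP]; exact norm_nonneg _
  have hQ0 : 0 ≤ Q := by rw [hQ]; exact norm_nonneg _
  have hQ0' : 0 ≤ Q' := by rw [hQ']; exact norm_nonneg _
  rw [← hP, ← hQ] at g1
  rw [← hQ, ← hQ'] at g2
  rw [← hP, ← hQ, ← hQ']
  obtain ⟨M, hM⟩ : ∃ M, M = 4 * KW * (K * K) := ⟨_, rfl⟩
  have hM0 : 0 ≤ M := by rw [hM]; positivity
  rw [← hM] at g1 ⊢
  have a1 : M * ℓ ^ 2 * (528 * ℓ * lv v) ≤ M * 528 * ℓ ^ 3 * fk ρ v := by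
    calc _ = M * 528 * ℓ ^ 3 * lv v := by ring
      _ ≤ _ := mul_le_mul_of_nonneg_left hlv (by positivity)
  have a2 : M * ℓ ^ 2 * (246064 * r4 ^ J₂ * (2 + |v|) ^ 2) ≤ M * 246064 * ℓ ^ 2 * η := by
    calc _ = M * 246064 * ℓ ^ 2 * (r4 ^ J₂ * (2 + |v|) ^ 2) := by ring
      _ ≤ _ := mul_le_mul_of_nonneg_left b1 (by positivity)
  have e1 : |X - Y| ≤ T * ((m + 2 * C) * ℓ + P + Q + M * 528 * ℓ ^ 3 * fk ρ v + M * 246064 * ℓ ^ 2 * η) := by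
    refine f1.trans ?_
    have a3 := mul_le_mul_of_nonneg_left g1 hT0.le
    have a4 := mul_le_mul_of_nonneg_left a1 hT0.le
    have a5 := mul_le_mul_of_nonneg_left a2 hT0.le
    linarith
  have e2 : |Y - Z| ≤ T * ((m + 2 * C) * ℓ + Q + Q') := by
    refine f2.trans ?_
    have a3 := mul_le_mul_of_nonneg_left g2 hT0.le
    linarith
  have e3 := far_bd (ξ := xi W T v) hk hT0 hδ (by positivity : 0 ≤ (m + 2 * C) * ℓ) hP0 hQ0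
    (by positivity : 0 ≤ M * 528 * ℓ ^ 3 * fk ρ v)
    (by positivity : 0 ≤ M * 246064 * ℓ ^ 2 * η)
    (by positivity : 0 ≤ (m + 2 * C) * ℓ) hQ0 hQ0' e1 e2
  rw [mul_pow (M * 528 * ℓ ^ 3) (fk ρ v)] at e3
  refine e3.trans ?_
  obtain ⟨c, hc⟩ : ∃ c : ℝ, c = k * (k / δ) ^ (k - 1) * 16 ^ k * T ^ k := ⟨_, rfl⟩
  rw [← hc]
  linarith

theorem main_pt {k : ℕ} (hk : 2 ≤ k) {KW : ℝ} {W W1 W2 : ℝ → ℝ} (hW : Wgt KW W W1 W2) : ∃ K : ℝ, 2 ≤ K ∧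
    (∀ T : ℝ, 0 < T → Fam (JT T) T K (cr (2 ^ JT T)) (cr1 (2 ^ JT T)) (cr2 (2 ^ JT T))) ∧
    ∀ J₀ : ℕ, ∃ m : ℝ, 0 < m ∧ ∀ (δ e₁ R : ℝ) (J₁ : ℕ), 0 < δ → 0 < e₁ → 1 ≤ R → J₀ ≤ J₁ → ∃ T₀ : ℝ, 1 ≤ T₀ ∧
    ∀ T : ℝ, T₀ ≤ T → ∀ (J₂ : ℕ) (S : Finset (ℕ × ℕ)) (η U : ℝ), J₁ + 1 ≤ J₂ → J₂ ≤ JT T →
    FR (2 ^ J₀) ⊆ S → S ⊆ FR (2 ^ J₁) → Sym S → 0 ≤ η → 0 ≤ U → U ≤ √T → r4 ^ J₂ * (2 + U) ^ 2 ≤ η →
    ∀ t ∈ Icc 0 U, ∀ t' ∈ Icc 0 U,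
      |CW W T ff ff t t' ^ k - 2 * CW W T ff (qr T S) t t' ^ k + CW W T (qr T S) (qr T S) t t' ^ k -
        xi W T (t - t') ^ k| ≤ Gpt k W KW K m δ e₁ R η T J₀ J₁ J₂ S (t, t') := by
  obtain ⟨K, hK, hfam, hfar⟩ := far_pt hk hW
  have hKW : 0 < KW := by linarith [hW.one]
  refine ⟨K, hK, hfam, fun J₀ => ?_⟩
  obtain ⟨m, T₁, hm, hT₁, h1⟩ := hfar J₀
  refine ⟨m, hm, fun δ e₁ R J₁ hδ he₁ hR h01 => ?_⟩
  obtain ⟨T₂, hT₂, h2⟩ := near_pt hk hW he₁ J₁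
  refine ⟨max T₁ (max T₂ (max ((2 ^ J₁) ^ 2) (Real.exp R))), hT₁.trans (le_max_left _ _),
    fun T hT J₂ S η U h12 h2J hS hS1 hsym hη hU hUT hr4 t ht t' ht' => ?_⟩
  have hTa : T₁ ≤ T := (le_max_left _ _).trans hT
  have hTb : T₂ ≤ T := ((le_max_left _ _).trans (le_max_right _ _)).trans hT
  have hTc : (2 ^ J₁) ^ 2 ≤ T := ((le_max_left _ _).trans ((le_max_right _ _).trans (le_max_right _ _))).trans hT
  have hTd : Real.exp R ≤ T := ((le_max_right _ _).trans ((le_max_right _ _).trans (le_max_right _ _))).trans hT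
  have hT1 : 1 ≤ T := hT₁.trans hTa
  have hT0 : 0 < T := by linarith
  have hL := Real.log_nonneg hT1
  have hRL : R ≤ Real.log T := by rw [Real.le_log_iff_exp_le hT0]; exact hTd
  have hℓ0 : 0 < 1 + Real.log T := by linarith
  have hR0 : 0 < R := by linarith
  have hρ : 0 < R / (1 + Real.log T) := by positivity
  have hfk := fk_nonneg hρ (t - t')
  have n1 : 0 ≤ e₁ * (T ^ k * (1 + Real.log T) ^ (4 * k)) * (2 / (1 + ((t - t') / (R / (1 + Real.log T))) ^ 2)) := by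
    positivity
  rcases le_or_gt |t - t'| (R / (1 + Real.log T)) with hnear | hf
  · have hv1 : |t - t'| ≤ 1 := hnear.trans (by rw [div_le_one hℓ0]; linarith)
    refine (h2 T hTb S hS1 hsym t t' ht.1 (ht.2.trans hUT) ht'.1 (ht'.2.trans hUT) hv1).trans ?_
    have d8 : (1 : ℝ) ≤ 2 / (1 + ((t - t') / (R / (1 + Real.log T))) ^ 2) := by
      rw [le_div_iff₀ (by positivity), one_mul]
      have : ((t - t') / (R / (1 + Real.log T))) ^ 2 ≤ 1 := by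
        rw [← sq_abs, abs_div, abs_of_pos hρ]
        have : |t - t'| / (R / (1 + Real.log T)) ≤ 1 := by rw [div_le_one hρ]; exact hnear
        have h0 : 0 ≤ |t - t'| / (R / (1 + Real.log T)) := by positivity
        nlinarith
      linarith
    have hA : 0 ≤ e₁ * (T ^ k * (1 + Real.log T) ^ (4 * k)) := by positivity
    have d9 := le_mul_of_one_le_right hA d8
    refine d9.trans ?_
    unfold Gpt
    have n2 : 0 ≤ δ * (|CW W T ff ff t t'| ^ k + 2 * |CW W T ff (qr T S) t t'| ^ k + |CW W T (qr T S) (qr T S) t t'| ^ k) := by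
      positivity
    have n3 : 0 ≤ k * (k / δ) ^ (k - 1) * 16 ^ k * T ^ k * (2 * (m * (1 + Real.log T)) ^ k +
        ‖Cm J₂ (Dmid J₀ J₂ (Dff W T)) (t - t')‖ ^ k +
        2 * ‖Cm (J₁ + 1) (Dmid J₀ (J₁ + 1) (Dfq W T S)) (t - t')‖ ^ k +
        ‖Cm (J₁ + 1) (Dmid J₀ (J₁ + 1) (Dqq W T S)) (t - t')‖ ^ k +
        (4 * KW * (K * K) * 528 * (1 + Real.log T) ^ 3) ^ k * fk (R / (1 + Real.log T)) (t - t') ^ k +
        (4 * KW * (K * K) * 246064 * (1 + Real.log T) ^ 2 * η) ^ k) := by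
      positivity
    have n4 : 0 ≤ (16 * KW * (T * (1 + Real.log T) ^ 2)) ^ k * (R / (1 + Real.log T) + |t - t'|) ^ (-(2 * k : ℝ)) := by
      positivity
    exact (le_add_of_nonneg_right n2).trans ((le_add_of_nonneg_right n3).trans (le_add_of_nonneg_right n4))
  · have r := h1 δ _ J₁ hδ hρ h01 T hTa hTc J₂ S η U h12 h2J hS hS1 hsym hη hU hUT hr4 t ht t' ht' hf.le
    unfold Gpt
    refine r.trans ?_
    rw [add_assoc (e₁ * (T ^ k * (1 + Real.log T) ^ (4 * k)) * _), add_assoc (e₁ * (T ^ k * (1 + Real.log T) ^ (4 * k)) * _)]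
    exact le_add_of_nonneg_left n1

end

end K1H48.SW
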