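import Pool.Agent.K1H48.SW.Mn2

set_option autoImplicit false

/-! Integration of the pointwise inequality. -/

namespace K1H48.SW

open MeasureTheory Set Finset Filter
open Pool.Agent.Y969.GP

noncomputable section

lemma I2_lin {U : ℝ} (hU : 0 ≤ U) {f1 f2a f2b f2c f3a f3b f3c f4 f5 : ℝ × ℝ → ℝ} (h1 : Continuous f1)
    (h2a : Continuous f2a) (h2b : Continuous f2b) (h2c : Continuous f2c) (h3a : Continuous f3a)
    (h3b : Continuous f3b) (h3c : Continuous f3c) (h4 : Continuous f4) (h5 : Continuous f5)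
    (c1 δ c3 n A B c5 : ℝ) :
    I2 U (fun z => c1 * f1 z + δ * (f2a z + 2 * f2b z + f2c z) +
      c3 * (n + f3a z + 2 * f3b z + f3c z + A * f4 z + B) + c5 * f5 z) =
    c1 * I2 U f1 + δ * (I2 U f2a + 2 * I2 U f2b + I2 U f2c) +
      c3 * (n * U ^ 2 + I2 U f3a + 2 * I2 U f3b + I2 U f3c + A * I2 U f4 + B * U ^ 2) + c5 * I2 U f5 := by
  have i1 := int_sq (U := U) h1
  have i2a := int_sq (U := U) h2a
  have i2b := int_sq (U := U) h2b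
  have i2c := int_sq (U := U) h2c
  have i3a := int_sq (U := U) h3a
  have i3b := int_sq (U := U) h3b
  have i3c := int_sq (U := U) h3c
  have i4 := int_sq (U := U) h4
  have i5 := int_sq (U := U) h5
  have hn := I2_const hU n
  have hB := I2_const hU B
  rw [← hn, ← hB]
  rw [I2_add (by fun_prop) (by fun_prop), I2_add (by fun_prop) (by fun_prop), I2_add (by fun_prop) (by fun_prop),
    I2_mul, I2_mul, I2_mul, I2_mul, I2_add (by fun_prop) (by fun_prop), I2_add (by fun_prop) (by fun_prop), I2_mul,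
    I2_add (by fun_prop) (by fun_prop), I2_add (by fun_prop) (by fun_prop), I2_add (by fun_prop) (by fun_prop),
    I2_add (by fun_prop) (by fun_prop), I2_add (by fun_prop) (by fun_prop), I2_mul, I2_mul]

lemma f1_cont {ρ : ℝ} : Continuous (fun z : ℝ × ℝ => 2 / (1 + ((z.1 - z.2) / ρ) ^ 2)) := by
  apply Continuous.div continuous_const (by fun_prop)
  intro z
  positivity

lemma f3_cont (k J : ℕ) (D : ℕ × ℕ → ℝ) : Continuous (fun z : ℝ × ℝ => ‖Cm J D (z.1 - z.2)‖ ^ k) :=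
  uncC (k := k) (Cm_cont J D)

/-- all the integrals -/
lemma Gpt_int {k : ℕ} (hk : 2 ≤ k) {W : ℝ → ℝ} {KW K m δ e₁ R η T κ Cb Cm' U : ℝ} {J₀ J₁ J₂ : ℕ}
    {S : Finset (ℕ × ℕ)} (hWc : Continuous W) (hKW : 0 < KW) (hK : 0 < K) (hm : 0 < m) (hδ : 0 < δ) (he : 0 < e₁) (hR : 1 ≤ R)
    (hη : 0 ≤ η) (hη1 : η ≤ 1) (hT : 1 ≤ T) (_hκ : 0 ≤ κ) (hCb : 0 < Cb) (hU : 0 < U)
    (hJ₂ : ((J₂ : ℝ) + 1) ^ (2 * k - 1) ≤ κ * (1 + Real.log T) ^ (2 * k - 1))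
    (hJ₁ : (((J₁ + 1 : ℕ) : ℝ) + 1) ^ (2 * k - 1) ≤ κ * (1 + Real.log T) ^ (2 * k - 1))
    (hm2 : I2 U (fun z => |CW W T ff ff z.1 z.2| ^ k) + 2 * I2 U (fun z => |CW W T ff (qr T S) z.1 z.2| ^ k) +
      I2 U (fun z => |CW W T (qr T S) (qr T S) z.1 z.2| ^ k) ≤
      Cm' * (T ^ k * (1 + Real.log T) ^ (2 * k) * (U ^ 2 + U * (1 + Real.log T) ^ (2 * k - 1))))
    (h3a : I2 U (fun z => ‖Cm J₂ (Dmid J₀ J₂ (Dff W T)) (z.1 - z.2)‖ ^ k) ≤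
      Cb * (U ^ 2 * ((4 * KW * (K * K) * (1 + Real.log T) ^ 2) ^ k * (tl k J₀ + ((J₂ : ℝ) + 1) ^ (2 * k - 1) / U))))
    (h3b : I2 U (fun z => ‖Cm (J₁ + 1) (Dmid J₀ (J₁ + 1) (Dfq W T S)) (z.1 - z.2)‖ ^ k) ≤
      Cb * (U ^ 2 * ((4 * KW * (K * K) * (1 + Real.log T) ^ 2) ^ k *
        (tl k J₀ + (((J₁ + 1 : ℕ) : ℝ) + 1) ^ (2 * k - 1) / U))))
    (h3c : I2 U (fun z => ‖Cm (J₁ + 1) (Dmid J₀ (J₁ + 1) (Dqq W T S)) (z.1 - z.2)‖ ^ k) ≤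
      Cb * (U ^ 2 * ((4 * KW * (K * K) * (1 + Real.log T) ^ 2) ^ k *
        (tl k J₀ + (((J₁ + 1 : ℕ) : ℝ) + 1) ^ (2 * k - 1) / U)))) :
    I2 U (Gpt k W KW K m δ e₁ R η T J₀ J₁ J₂ S) ≤
      (7 * e₁ * R + δ * Cm' + k * (k / δ) ^ (k - 1) * 16 ^ k * (2 * m ^ k / (1 + Real.log T) +
        4 * (Cb * (4 * KW * (K * K)) ^ k * (tl k J₀ + κ)) + (16 * (4 * KW * (K * K) * 528)) ^ k * R ^ (-(1 / 2) : ℝ) +
        (4 * KW * (K * K) * 246064) ^ k * η) + 2 * (16 * KW) ^ k * R ^ (-(1 / 2) : ℝ)) *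
      (T ^ k * (1 + Real.log T) ^ (2 * k) * (U ^ 2 + U * (1 + Real.log T) ^ (2 * k - 1))) := by
  have hT0 : 0 < T := by linarith
  have hL := Real.log_nonneg hT
  have htl := tl_nonneg k J₀
  have hk2 : (2 : ℝ) ≤ k := by exact_mod_cast hk
  obtain ⟨ℓ, hℓ⟩ : ∃ ℓ, ℓ = 1 + Real.log T := ⟨_, rfl⟩
  have hG : Gpt k W KW K m δ e₁ R η T J₀ J₁ J₂ S = fun z : ℝ × ℝ =>
    e₁ * (T ^ k * ℓ ^ (4 * k)) * (2 / (1 + ((z.1 - z.2) / (R / ℓ)) ^ 2)) +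
    δ * (|CW W T ff ff z.1 z.2| ^ k + 2 * |CW W T ff (qr T S) z.1 z.2| ^ k + |CW W T (qr T S) (qr T S) z.1 z.2| ^ k) +
    k * (k / δ) ^ (k - 1) * 16 ^ k * T ^ k * (2 * (m * ℓ) ^ k +
    ‖Cm J₂ (Dmid J₀ J₂ (Dff W T)) (z.1 - z.2)‖ ^ k +
    2 * ‖Cm (J₁ + 1) (Dmid J₀ (J₁ + 1) (Dfq W T S)) (z.1 - z.2)‖ ^ k +
    ‖Cm (J₁ + 1) (Dmid J₀ (J₁ + 1) (Dqq W T S)) (z.1 - z.2)‖ ^ k +
    (4 * KW * (K * K) * 528 * ℓ ^ 3) ^ k * fk (R / ℓ) (z.1 - z.2) ^ k +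
    (4 * KW * (K * K) * 246064 * ℓ ^ 2 * η) ^ k) +
    (16 * KW * (T * ℓ ^ 2)) ^ k * (R / ℓ + |z.1 - z.2|) ^ (-(2 * k : ℝ)) := by
    funext z
    rw [hℓ]
    rfl
  rw [hG]
  rw [← hℓ] at hJ₂ hJ₁ hm2 h3a h3b h3c ⊢
  have hℓ1 : 1 ≤ ℓ := by linarith
  have hℓ0 : 0 < ℓ := by linarith
  have hR0 : 0 < R := by linarith
  have hρ : 0 < R / ℓ := by positivity
  have cW : ∀ g g' : ℝ → ℝ, Continuous g → Continuous g' → Continuous (fun z : ℝ × ℝ => |CW W T g g' z.1 z.2| ^ k) :=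
    fun g g' hg hg' => (CW_cont W hWc T hg hg').abs.pow k
  have hfkc : Continuous (fun z : ℝ × ℝ => fk (R / ℓ) (z.1 - z.2) ^ k) := (fk_cont hρ).pow k
  rw [I2_lin hU.le (f1_cont (ρ := R / ℓ)) (cW _ _ ff_cont ff_cont) (cW _ _ ff_cont (qr_cont T S)) (cW _ _ (qr_cont T S) (qr_cont T S))
    (f3_cont k _ _) (f3_cont k _ _) (f3_cont k _ _) hfkc (kr_cont hρ)]
  obtain ⟨V1, hV1⟩ : ∃ V1 : ℝ, V1 = ℓ ^ (2 * k - 1) := ⟨_, rfl⟩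
  obtain ⟨V2, hV2⟩ : ∃ V2 : ℝ, V2 = T ^ k * ℓ ^ (2 * k) := ⟨_, rfl⟩
  have hV1p : 0 < V1 := by rw [hV1]; positivity
  have hV2p : 0 < V2 := by rw [hV2]; positivity
  have hr0 : 0 < R ^ (-(1 / 2) : ℝ) := by positivity
  rw [← hV1] at hJ₂ hJ₁ hm2 ⊢
  rw [← hV2] at hm2 ⊢
  -- the five bounds
  have b1 : e₁ * (T ^ k * ℓ ^ (4 * k)) * I2 U (fun z => 2 / (1 + ((z.1 - z.2) / (R / ℓ)) ^ 2)) ≤
      7 * e₁ * R * (V2 * (U * V1)) := by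
    refine (mul_le_mul_of_nonneg_left (near_int hρ hU.le) (by positivity)).trans (le_of_eq ?_)
    have e : ℓ ^ (4 * k) = ℓ ^ (2 * k) * (V1 * ℓ) := by
      rw [hV1, ← pow_succ, ← pow_add]
      congr 1
      omega
    rw [e, hV2]
    field_simp
  have b2 := mul_le_mul_of_nonneg_left hm2 hδ.le
  have b3 : 2 * (m * ℓ) ^ k * U ^ 2 ≤ 2 * m ^ k / ℓ * (ℓ ^ (2 * k) * U ^ 2) := by
    have e : ℓ ^ k * ℓ ≤ ℓ ^ (2 * k) := by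
      rw [← pow_succ]
      exact pow_le_pow_right₀ hℓ1 (by omega)
    rw [mul_pow, div_mul_eq_mul_div, le_div_iff₀ hℓ0]
    calc _ = 2 * m ^ k * (ℓ ^ k * ℓ) * U ^ 2 := by ring
      _ ≤ 2 * m ^ k * ℓ ^ (2 * k) * U ^ 2 := by gcongr
      _ = _ := by ring
  have bb : ∀ x J' : ℝ, J' ≤ κ * V1 → x ≤ Cb * (U ^ 2 * ((4 * KW * (K * K) * ℓ ^ 2) ^ k * (tl k J₀ + J' / U))) →
      x ≤ Cb * (4 * KW * (K * K)) ^ k * (tl k J₀ + κ) * (ℓ ^ (2 * k) * (U ^ 2 + U * V1)) := by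
    intro x J' hJ' hx
    refine hx.trans ?_
    rw [mul_pow, ← pow_mul]
    have e : U ^ 2 * (tl k J₀ + J' / U) ≤ (tl k J₀ + κ) * (U ^ 2 + U * V1) := by
      have e1 : U ^ 2 * (tl k J₀ + J' / U) = U ^ 2 * tl k J₀ + U * J' := by field_simp
      rw [e1]
      have e2 : U * J' ≤ U * (κ * V1) := mul_le_mul_of_nonneg_left hJ' hU.le
      have e3 : 0 ≤ tl k J₀ * (U * V1) := by positivity
      have e4 : 0 ≤ κ * U ^ 2 := by positivity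
      nlinarith
    calc _ = Cb * (4 * KW * (K * K)) ^ k * ℓ ^ (2 * k) * (U ^ 2 * (tl k J₀ + J' / U)) := by ring
      _ ≤ Cb * (4 * KW * (K * K)) ^ k * ℓ ^ (2 * k) * ((tl k J₀ + κ) * (U ^ 2 + U * V1)) :=
          mul_le_mul_of_nonneg_left e (by positivity)
      _ = _ := by ring
  have b4a := bb _ _ hJ₂ h3a
  have b4b := bb _ _ hJ₁ h3b
  have b4c := bb _ _ hJ₁ h3c
  have b5 : (4 * KW * (K * K) * 528 * ℓ ^ 3) ^ k * I2 U (fun z => fk (R / ℓ) (z.1 - z.2) ^ k) ≤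
      (16 * (4 * KW * (K * K) * 528)) ^ k * R ^ (-(1 / 2) : ℝ) * (ℓ ^ (2 * k) * (U * V1)) := by
    refine (mul_le_mul_of_nonneg_left (fk_int hk hR hℓ1 hU.le) (by positivity)).trans (le_of_eq ?_)
    have e : (ℓ ^ 3) ^ k * ℓ ^ (k - 1) = ℓ ^ (2 * k) * V1 := by
      rw [hV1, ← pow_mul, ← pow_add, ← pow_add]
      congr 1
      omega
    calc _ = (16 * (4 * KW * (K * K) * 528)) ^ k * R ^ (-(1 / 2) : ℝ) * U * ((ℓ ^ 3) ^ k * ℓ ^ (k - 1)) := by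
          rw [mul_pow (4 * KW * (K * K) * 528) (ℓ ^ 3), mul_pow 16 (4 * KW * (K * K) * 528)]; ring
      _ = _ := by rw [e]; ring
  have b6 : (4 * KW * (K * K) * 246064 * ℓ ^ 2 * η) ^ k * U ^ 2 ≤
      (4 * KW * (K * K) * 246064) ^ k * η * (ℓ ^ (2 * k) * U ^ 2) := by
    have e : η ^ k ≤ η := by
      calc η ^ k ≤ η ^ 1 := pow_le_pow_of_le_one hη hη1 (by omega)
        _ = η := pow_one η
    rw [mul_pow _ η, mul_pow _ (ℓ ^ 2), ← pow_mul]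
    calc _ = (4 * KW * (K * K) * 246064) ^ k * η ^ k * (ℓ ^ (2 * k) * U ^ 2) := by ring
      _ ≤ _ := by gcongr
  have b7 : (16 * KW * (T * ℓ ^ 2)) ^ k * I2 U (fun z => (R / ℓ + |z.1 - z.2|) ^ (-(2 * k : ℝ))) ≤
      2 * (16 * KW) ^ k * R ^ (-(1 / 2) : ℝ) * (V2 * (U * V1)) := by
    have i := far_int (U := U) hρ (by linarith : (1 : ℝ) < 2 * k) hU.le
    have e1 : (R / ℓ) ^ (1 - (2 * k : ℝ)) / (2 * k - 1) ≤ V1 * R ^ (-(1 / 2) : ℝ) := by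
      have h1 : (R / ℓ) ^ (1 - (2 * k : ℝ)) = R ^ (1 - (2 * k : ℝ)) * ℓ ^ ((2 * k : ℝ) - 1) := by
        rw [Real.div_rpow hR0.le hℓ0.le, div_eq_mul_inv, ← Real.rpow_neg hℓ0.le]
        congr 2
        ring
      have h2 : R ^ (1 - (2 * k : ℝ)) ≤ R ^ (-(1 / 2) : ℝ) := Real.rpow_le_rpow_of_exponent_le hR (by linarith)
      have h3 : ℓ ^ ((2 * k : ℝ) - 1) = V1 := by
        rw [hV1, ← Real.rpow_natCast, Nat.cast_sub (by omega)]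
        norm_num
      refine (div_le_self (by positivity) (by linarith)).trans ?_
      rw [h1, h3, mul_comm]
      exact mul_le_mul_of_nonneg_left h2 hV1p.le
    calc _ ≤ (16 * KW * (T * ℓ ^ 2)) ^ k * (U * (2 * (V1 * R ^ (-(1 / 2) : ℝ)))) := by
          apply mul_le_mul_of_nonneg_left _ (by positivity)
          refine i.trans ?_
          gcongr
      _ = _ := by
          rw [mul_pow, mul_pow T, ← pow_mul, hV2]; ring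
  obtain ⟨c, hc⟩ : ∃ c : ℝ, c = k * (k / δ) ^ (k - 1) * 16 ^ k := ⟨_, rfl⟩
  have hc0 : 0 < c := by rw [hc]; positivity
  rw [← hc]
  obtain ⟨P, hP⟩ : ∃ P : ℝ, P = U ^ 2 + U * V1 := ⟨_, rfl⟩
  have hP1 : U ^ 2 ≤ P := by rw [hP]; have : 0 ≤ U * V1 := by positivity
                             linarith
  have hP2 : U * V1 ≤ P := by rw [hP]; have : 0 ≤ U ^ 2 := by positivity
                              linarith
  rw [← hP] at b2 b4a b4b b4c ⊢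
  have hl2k : 0 < ℓ ^ (2 * k) := by positivity
  -- sum of the middle
  have d3 : 2 * (m * ℓ) ^ k * U ^ 2 ≤ 2 * m ^ k / ℓ * (ℓ ^ (2 * k) * P) :=
    b3.trans (by gcongr)
  have d5 : (4 * KW * (K * K) * 528 * ℓ ^ 3) ^ k * I2 U (fun z => fk (R / ℓ) (z.1 - z.2) ^ k) ≤
      (16 * (4 * KW * (K * K) * 528)) ^ k * R ^ (-(1 / 2) : ℝ) * (ℓ ^ (2 * k) * P) := b5.trans (by gcongr)
  have d6 : (4 * KW * (K * K) * 246064 * ℓ ^ 2 * η) ^ k * U ^ 2 ≤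
      (4 * KW * (K * K) * 246064) ^ k * η * (ℓ ^ (2 * k) * P) := b6.trans (by gcongr)
  have d1 : e₁ * (T ^ k * ℓ ^ (4 * k)) * I2 U (fun z => 2 / (1 + ((z.1 - z.2) / (R / ℓ)) ^ 2)) ≤
      7 * e₁ * R * (V2 * P) := b1.trans (by gcongr)
  have d7 : (16 * KW * (T * ℓ ^ 2)) ^ k * I2 U (fun z => (R / ℓ + |z.1 - z.2|) ^ (-(2 * k : ℝ))) ≤
      2 * (16 * KW) ^ k * R ^ (-(1 / 2) : ℝ) * (V2 * P) := b7.trans (by gcongr)
  have dm : 2 * (m * ℓ) ^ k * U ^ 2 + I2 U (fun z => ‖Cm J₂ (Dmid J₀ J₂ (Dff W T)) (z.1 - z.2)‖ ^ k) +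
      2 * I2 U (fun z => ‖Cm (J₁ + 1) (Dmid J₀ (J₁ + 1) (Dfq W T S)) (z.1 - z.2)‖ ^ k) +
      I2 U (fun z => ‖Cm (J₁ + 1) (Dmid J₀ (J₁ + 1) (Dqq W T S)) (z.1 - z.2)‖ ^ k) +
      (4 * KW * (K * K) * 528 * ℓ ^ 3) ^ k * I2 U (fun z => fk (R / ℓ) (z.1 - z.2) ^ k) +
      (4 * KW * (K * K) * 246064 * ℓ ^ 2 * η) ^ k * U ^ 2 ≤
      (2 * m ^ k / ℓ + 4 * (Cb * (4 * KW * (K * K)) ^ k * (tl k J₀ + κ)) +
        (16 * (4 * KW * (K * K) * 528)) ^ k * R ^ (-(1 / 2) : ℝ) + (4 * KW * (K * K) * 246064) ^ k * η) *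
        (ℓ ^ (2 * k) * P) := by
    linarith
  have dm2 := mul_le_mul_of_nonneg_left dm (by positivity : 0 ≤ c * T ^ k)
  have e9 : c * T ^ k * ((2 * m ^ k / ℓ + 4 * (Cb * (4 * KW * (K * K)) ^ k * (tl k J₀ + κ)) +
        (16 * (4 * KW * (K * K) * 528)) ^ k * R ^ (-(1 / 2) : ℝ) + (4 * KW * (K * K) * 246064) ^ k * η) *
        (ℓ ^ (2 * k) * P)) = c * (2 * m ^ k / ℓ + 4 * (Cb * (4 * KW * (K * K)) ^ k * (tl k J₀ + κ)) +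
        (16 * (4 * KW * (K * K) * 528)) ^ k * R ^ (-(1 / 2) : ℝ) + (4 * KW * (K * K) * 246064) ^ k * η) * (V2 * P) := by
    rw [hV2]; ring
  rw [e9] at dm2
  linarith

end

end K1H48.SW
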