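import Pool.Agent.K1H48.SW.Mn3

set_option autoImplicit false

/-! The variance in terms of the kernel. -/

namespace K1H48.SW

open MeasureTheory Set Finset Filter
open Pool.Agent.Y969.GP

noncomputable section

lemma Gpt_cont (k : ℕ) {W : ℝ → ℝ} (hWc : Continuous W) (KW K m δ e₁ : ℝ) {R η T : ℝ} (hR : 0 < R) (hT : 1 ≤ T)
    (J₀ J₁ J₂ : ℕ) (S : Finset (ℕ × ℕ)) : Continuous (Gpt k W KW K m δ e₁ R η T J₀ J₁ J₂ S) := by
  have hL := Real.log_nonneg hT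
  have hρ : 0 < R / (1 + Real.log T) := by positivity
  have cW : ∀ g g' : ℝ → ℝ, Continuous g → Continuous g' → Continuous (fun z : ℝ × ℝ => |CW W T g g' z.1 z.2| ^ k) :=
    fun g g' hg hg' => (CW_cont W hWc T hg hg').abs.pow k
  have hfkc : Continuous (fun z : ℝ × ℝ => fk (R / (1 + Real.log T)) (z.1 - z.2) ^ k) := (fk_cont hρ).pow k
  have a1 := f1_cont (ρ := R / (1 + Real.log T))
  have a2 := cW _ _ ff_cont ff_cont
  have a3 := cW _ _ ff_cont (qr_cont T S)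
  have a4 := cW _ _ (qr_cont T S) (qr_cont T S)
  have a5 := f3_cont k J₂ (Dmid J₀ J₂ (Dff W T))
  have a6 := f3_cont k (J₁ + 1) (Dmid J₀ (J₁ + 1) (Dfq W T S))
  have a7 := f3_cont k (J₁ + 1) (Dmid J₀ (J₁ + 1) (Dqq W T S))
  have a8 := kr_cont (a := (2 * k : ℝ)) hρ
  unfold Gpt
  exact (((a1.const_mul _).add (((a2.add (a3.const_mul 2)).add a4).const_mul _)).add
    ((((((continuous_const.add a5).add (a6.const_mul 2)).add a7).add (hfkc.const_mul _)).add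
      continuous_const).const_mul _)).add (a8.const_mul _)

lemma lin_log (a b : ℝ) {κ : ℝ} (hκ : 0 < κ) : ∀ᶠ s : ℝ in atTop, a + b * Real.log s ≤ κ * s := by
  have h : (fun s : ℝ => a + b * Real.log s) =o[atTop] (fun s : ℝ => s) := by
    apply Asymptotics.IsLittleO.add
    · exact Asymptotics.isLittleO_const_id_atTop a
    · exact (Real.isLittleO_log_id_atTop).const_mul_left b
  filter_upwards [h.bound hκ, eventually_ge_atTop 0] with s hs hs0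
  rw [Real.norm_eq_abs, Real.norm_eq_abs, abs_of_nonneg hs0] at hs
  exact (le_abs_self _).trans hs

/-- the cut between the middle and the high part -/
def J2 (q k : ℕ) (A ℓ : ℝ) : ℕ := q + 8 * ⌈Real.logb 2 (2 + A * ℓ ^ (2 * k - 1))⌉₊

lemma J2_small (q k : ℕ) {A κ : ℝ} (hA : 0 < A) (hκ : 0 < κ) :
    ∀ᶠ s : ℝ in atTop, (J2 q k A s : ℝ) + 1 ≤ κ * s := by
  have h := lin_log (q + 8 * (Real.log (2 + A) / Real.log 2 + 1) + 1) (8 * ((2 * k : ℕ) / Real.log 2)) hκ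
  filter_upwards [h, eventually_ge_atTop 1] with s hs hs1
  have hs0 : 0 < s := by linarith
  have hl2 : 0 < Real.log 2 := Real.log_pos (by norm_num)
  refine le_trans ?_ hs
  unfold J2
  have hx : 1 ≤ 2 + A * s ^ (2 * k - 1) := by
    have : 0 ≤ A * s ^ (2 * k - 1) := by positivity
    linarith
  have h1 : 0 ≤ Real.logb 2 (2 + A * s ^ (2 * k - 1)) := Real.logb_nonneg (by norm_num) hx
  have h2 := (Nat.ceil_lt_add_one h1).le
  have h3 : Real.logb 2 (2 + A * s ^ (2 * k - 1)) ≤ Real.log (2 + A) / Real.log 2 + (2 * k : ℕ) / Real.log 2 * Real.log s := by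
    unfold Real.logb
    rw [div_mul_eq_mul_div, ← add_div]
    apply div_le_div_of_nonneg_right _ hl2.le
    have h4 : 2 + A * s ^ (2 * k - 1) ≤ (2 + A) * s ^ (2 * k) := by
      have h5 : s ^ (2 * k - 1) ≤ s ^ (2 * k) := pow_le_pow_right₀ hs1 (by omega)
      have h6 : 1 ≤ s ^ (2 * k) := one_le_pow₀ hs1
      nlinarith
    calc _ ≤ Real.log ((2 + A) * s ^ (2 * k)) := Real.log_le_log (by linarith) h4
      _ = _ := by rw [Real.log_mul (by positivity) (by positivity), Real.log_pow]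
  push_cast at h3 h2 ⊢
  linarith

lemma J2_r4 {q k : ℕ} {A ℓ η U : ℝ} (hA : 0 < A) (hℓ : 1 ≤ ℓ) (hq : r4 ^ q ≤ η) (hU : 0 ≤ U)
    (hU2 : U ≤ A * ℓ ^ (2 * k - 1)) : r4 ^ J2 q k A ℓ * (2 + U) ^ 2 ≤ η := by
  have hr := r4_pos
  have h8 : r4 ^ 8 = 1 / 4 := by
    have : r4 ^ 8 = (r4 ^ 4) ^ 2 := by rw [← pow_mul]
    rw [this, r4_pow4]; norm_num
  obtain ⟨n, hn⟩ : ∃ n, n = ⌈Real.logb 2 (2 + A * ℓ ^ (2 * k - 1))⌉₊ := ⟨_, rfl⟩
  have hx : 0 < 2 + A * ℓ ^ (2 * k - 1) := by positivity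
  have h1 : 2 + A * ℓ ^ (2 * k - 1) ≤ 2 ^ n := by
    have h2 : Real.logb 2 (2 + A * ℓ ^ (2 * k - 1)) ≤ n := by rw [hn]; exact Nat.le_ceil _
    calc 2 + A * ℓ ^ (2 * k - 1) = (2 : ℝ) ^ (Real.logb 2 (2 + A * ℓ ^ (2 * k - 1))) := by
          rw [Real.rpow_logb (by norm_num) (by norm_num) hx]
      _ ≤ (2 : ℝ) ^ (n : ℝ) := Real.rpow_le_rpow_of_exponent_le (by norm_num) h2
      _ = 2 ^ n := Real.rpow_natCast _ _
  have h2 : (2 + U) ^ 2 ≤ 4 ^ n := by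
    calc (2 + U) ^ 2 ≤ (2 ^ n) ^ 2 := pow_le_pow_left₀ (by linarith) (by linarith) 2
      _ = 4 ^ n := by rw [← pow_mul, mul_comm, pow_mul]; norm_num
  unfold J2
  rw [← hn, pow_add, pow_mul, h8]
  calc r4 ^ q * (1 / 4) ^ n * (2 + U) ^ 2 ≤ r4 ^ q * (1 / 4) ^ n * 4 ^ n := by gcongr
    _ = r4 ^ q := by rw [mul_assoc, ← mul_pow]; norm_num
    _ ≤ η := hq

theorem main_var {k : ℕ} (hk : 2 ≤ k) {KW : ℝ} {W W1 W2 : ℝ → ℝ} (hW : Wgt KW W W1 W2) {ε : ℝ} (hε : 0 < ε) :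
    ∃ J₀ : ℕ, ∀ (A : ℝ) (J₁ : ℕ), 0 < A → J₀ ≤ J₁ → ∃ T₀ : ℝ, 1 ≤ T₀ ∧ ∀ T : ℝ, T₀ ≤ T → ∀ S : Finset (ℕ × ℕ),
    FR (2 ^ J₀) ⊆ S → S ⊆ FR (2 ^ J₁) → Sym S → ∀ U : ℝ, 0 < U → U ≤ A * (1 + Real.log T) ^ (2 * k - 1) →
    |I2 U (fun z => CW W T ff ff z.1 z.2 ^ k - 2 * CW W T ff (qr T S) z.1 z.2 ^ k + CW W T (qr T S) (qr T S) z.1 z.2 ^ k) -
      I2 U (fun z => xi W T (z.1 - z.2) ^ k)| ≤
      ε * (T ^ k * (1 + Real.log T) ^ (2 * k) * (U ^ 2 + U * (1 + Real.log T) ^ (2 * k - 1))) := by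
  obtain ⟨K, hK, hfam, hmain⟩ := main_pt hk hW
  obtain ⟨Cm', Tm, hCm, hTm, hmom⟩ := mom3 hk hW
  obtain ⟨Cb, hCb, hb⟩ := mid_mom hk
  have hKW : 0 < KW := by linarith [hW.one]
  have hK0 : 0 < K := by linarith
  have hk0 : (0 : ℝ) < k := by exact_mod_cast (by omega : 0 < k)
  obtain ⟨δ, hδe⟩ : ∃ δ : ℝ, δ = ε / (8 * Cm') := ⟨_, rfl⟩
  have hδ : 0 < δ := by rw [hδe]; positivity
  have hδC : δ * Cm' ≤ ε / 8 := by rw [hδe]; apply le_of_eq; field_simp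
  obtain ⟨c, hce⟩ : ∃ c : ℝ, c = k * (k / δ) ^ (k - 1) * 16 ^ k := ⟨_, rfl⟩
  have hc : 0 < c := by rw [hce]; positivity
  obtain ⟨M, hMe⟩ : ∃ M : ℝ, M = Cb * (4 * KW * (K * K)) ^ k := ⟨_, rfl⟩
  have hM : 0 < M := by rw [hMe]; positivity
  obtain ⟨J₀, hJ₀⟩ : ∃ J₀ : ℕ, tl k J₀ ≤ ε / (32 * c * M) := by
    have h1 := (tl_tendsto k).eventually (gt_mem_nhds (show (0 : ℝ) < ε / (32 * c * M) by positivity))
    obtain ⟨J₀, h2⟩ := h1.exists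
    exact ⟨J₀, h2.le⟩
  obtain ⟨m, hm, h⟩ := hmain J₀
  obtain ⟨D1, hD1⟩ : ∃ D1 : ℝ, D1 = (16 * (4 * KW * (K * K) * 528)) ^ k := ⟨_, rfl⟩
  obtain ⟨D2, hD2⟩ : ∃ D2 : ℝ, D2 = 2 * (16 * KW) ^ k := ⟨_, rfl⟩
  have hD1p : 0 < D1 := by rw [hD1]; positivity
  have hD2p : 0 < D2 := by rw [hD2]; positivity
  obtain ⟨R, hRe⟩ : ∃ R : ℝ, R = max 1 ((8 * (c * D1 + D2) / ε) ^ 2) := ⟨_, rfl⟩
  have hR : 1 ≤ R := by rw [hRe]; exact le_max_left _ _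
  have hR0 : 0 < R := by linarith
  have hRr : (c * D1 + D2) * R ^ (-(1 / 2) : ℝ) ≤ ε / 8 := by
    have h1 : 8 * (c * D1 + D2) / ε ≤ √R := by
      apply Real.le_sqrt_of_sq_le
      rw [hRe]; exact le_max_right _ _
    have h2 : R ^ (-(1 / 2) : ℝ) = (√R)⁻¹ := by rw [Real.rpow_neg hR0.le, Real.sqrt_eq_rpow]
    have h3 : 0 < √R := Real.sqrt_pos.2 hR0
    rw [h2, ← div_eq_mul_inv, div_le_iff₀ h3]
    rw [div_le_iff₀ hε] at h1
    linarith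
  refine ⟨J₀, fun A J₁ hA h01 => ?_⟩
  obtain ⟨e₁, he₁e⟩ : ∃ e₁ : ℝ, e₁ = ε / (56 * R) := ⟨_, rfl⟩
  have he₁ : 0 < e₁ := by rw [he₁e]; positivity
  have he₁R : 7 * e₁ * R ≤ ε / 8 := by rw [he₁e]; apply le_of_eq; field_simp; ring
  obtain ⟨T₁, hT₁, hpt⟩ := h δ e₁ R J₁ hδ he₁ hR h01
  obtain ⟨κ, hκe⟩ : ∃ κ : ℝ, κ = min 1 (ε / (32 * c * M)) := ⟨_, rfl⟩
  have hκ : 0 < κ := by rw [hκe]; apply lt_min one_pos; positivity
  have hκ1 : κ ≤ 1 := by rw [hκe]; exact min_le_left _ _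
  have hκ2 : κ ≤ ε / (32 * c * M) := by rw [hκe]; exact min_le_right _ _
  obtain ⟨D3, hD3⟩ : ∃ D3 : ℝ, D3 = (4 * KW * (K * K) * 246064) ^ k := ⟨_, rfl⟩
  have hD3p : 0 < D3 := by rw [hD3]; positivity
  obtain ⟨η, hηe⟩ : ∃ η : ℝ, η = min 1 (ε / (8 * c * D3)) := ⟨_, rfl⟩
  have hη : 0 < η := by rw [hηe]; apply lt_min one_pos; positivity
  have hη1 : η ≤ 1 := by rw [hηe]; exact min_le_left _ _
  have hη2 : c * (D3 * η) ≤ ε / 8 := by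
    have : η ≤ ε / (8 * c * D3) := by rw [hηe]; exact min_le_right _ _
    rw [le_div_iff₀ (by positivity)] at this
    linarith
  obtain ⟨q, hq1, hq2⟩ : ∃ q : ℕ, J₁ + 1 ≤ q ∧ r4 ^ q ≤ η := by
    have h1 := (tendsto_pow_atTop_nhds_zero_of_lt_one r4_pos.le (by have := r4_lt; linarith : r4 < 1)).eventually
      (gt_mem_nhds hη)
    obtain ⟨q, hq, hq'⟩ := (h1.and (eventually_ge_atTop (J₁ + 1))).exists
    exact ⟨q, hq', hq.le⟩
  have hlog : Tendsto (fun T : ℝ => 1 + Real.log T) atTop atTop :=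
    tendsto_atTop_add_const_left _ _ Real.tendsto_log_atTop
  have hev : ∀ᶠ T : ℝ in atTop, ((J2 q k A (1 + Real.log T) : ℝ) + 1 ≤ κ * (1 + Real.log T) ∧
      (J₁ : ℝ) + 2 ≤ κ * (1 + Real.log T) ∧ 16 * c * m ^ k / ε ≤ 1 + Real.log T) ∧
      (A * (1 + Real.log T) ^ (2 * k - 1) ≤ √T ∧ (2 ^ J₁) ^ 2 ≤ T) := by
    have e1 := hlog.eventually (J2_small q k hA hκ)
    have e2 := (hlog.const_mul_atTop hκ).eventually_ge_atTop ((J₁ : ℝ) + 2)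
    have e3 := hlog.eventually_ge_atTop (16 * c * m ^ k / ε)
    have e4 := log_small (1 / 2) (by norm_num) (1 / A) (by positivity) (2 * k - 1)
    filter_upwards [e1, e2, e3, e4, eventually_ge_atTop ((2 ^ J₁) ^ 2 : ℝ)] with T a1 a2 a3 a4 a5
    refine ⟨⟨a1, a2, a3⟩, ?_, a5⟩
    rw [Real.sqrt_eq_rpow]
    rw [one_div_mul_eq_div, le_div_iff₀ hA] at a4
    linarith
  obtain ⟨T₂, hT₂⟩ := eventually_atTop.1 hev
  refine ⟨max T₁ (max Tm T₂), hT₁.trans (le_max_left _ _), fun T hT S hS hS1 hsym U hU0 hUA => ?_⟩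
  have hTa : T₁ ≤ T := (le_max_left _ _).trans hT
  have hTb : Tm ≤ T := ((le_max_left _ _).trans (le_max_right _ _)).trans hT
  have hTc : T₂ ≤ T := ((le_max_right _ _).trans (le_max_right _ _)).trans hT
  have hT1 : 1 ≤ T := hT₁.trans hTa
  have hT0 : 0 < T := by linarith
  obtain ⟨⟨a1, a2, a3⟩, a4, a5⟩ := hT₂ T hTc
  have hL := Real.log_nonneg hT1
  have hℓ1 : 1 ≤ 1 + Real.log T := by linarith
  have hℓ0 : 0 < 1 + Real.log T := by linarith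
  have hUT : U ≤ √T := hUA.trans a4
  obtain ⟨J₂, hJ₂⟩ : ∃ J₂ : ℕ, J₂ = J2 q k A (1 + Real.log T) := ⟨_, rfl⟩
  rw [← hJ₂] at a1
  have hJ12 : J₁ + 1 ≤ J₂ := by
    rw [hJ₂]
    unfold J2
    omega
  have hJ2T : J₂ ≤ JT T := by
    have h1 : (J₂ : ℝ) ≤ Real.log T := by nlinarith
    have h2 : Real.log T ≤ 2 * Real.logb 2 T := by
      unfold Real.logb
      have hl2 : 0 < Real.log 2 := Real.log_pos (by norm_num)
      have hl2' := Real.log_two_lt_d9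
      rw [mul_div_assoc', le_div_iff₀ hl2]
      nlinarith
    have h3 : 2 * Real.logb 2 T ≤ JT T := by unfold JT; exact Nat.le_ceil _
    exact_mod_cast h1.trans (h2.trans h3)
  have hr := J2_r4 (k := k) hA hℓ1 hq2 hU0.le hUA
  rw [← hJ₂] at hr
  have hpow : ∀ x : ℝ, 0 ≤ x → x ≤ κ * (1 + Real.log T) → x ^ (2 * k - 1) ≤ κ * (1 + Real.log T) ^ (2 * k - 1) := by
    intro x hx hx2
    refine (pow_le_pow_left₀ hx hx2 _).trans ?_
    rw [mul_pow]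
    apply mul_le_mul_of_nonneg_right _ (by positivity)
    calc κ ^ (2 * k - 1) ≤ κ ^ 1 := pow_le_pow_of_le_one hκ.le hκ1 (by omega)
      _ = κ := pow_one κ
  have hF := hfam T hT0
  have hFQ2 := fam_Q J₁ S hS1 (JT T) T a5
  have hFQ : Fam (JT T) T K (aQ T S) (fun _ _ => 0) (fun _ _ => 0) := fun p hp =>
    (hFQ2 p hp).mono (mul_le_mul_of_nonneg_right hK (bet_nonneg hT0 p)) hT0
  have hM0 : 0 ≤ 4 * KW * (K * K) * (1 + Real.log T) ^ 2 := by positivity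
  have h3a := hb J₀ J₂ (Dff W T) _ U hM0 hU0 (fun p hp _ =>
    ⟨DW_nonneg hW hT0 (fun _ _ => cr_nonneg _ _ _) (fun _ _ => cr_nonneg _ _ _), (le_abs_self _).trans
      (DW_fam' hW hT1 hK0.le hK0.le hF hF (FR_mono (Nat.pow_le_pow_right (by norm_num) hJ2T) hp))⟩)
  have h3b := hb J₀ (J₁ + 1) (Dfq W T S) _ U hM0 hU0 (fun p hp _ =>
    ⟨DW_nonneg hW hT0 (fun _ _ => cr_nonneg _ _ _) (fun _ _ => aQ_nonneg hT1 _ _ _), (le_abs_self _).trans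
      (DW_fam' hW hT1 hK0.le hK0.le hF hFQ (FR_mono (Nat.pow_le_pow_right (by norm_num) (hJ12.trans hJ2T)) hp))⟩)
  have h3c := hb J₀ (J₁ + 1) (Dqq W T S) _ U hM0 hU0 (fun p hp _ =>
    ⟨DW_nonneg hW hT0 (fun _ _ => aQ_nonneg hT1 _ _ _) (fun _ _ => aQ_nonneg hT1 _ _ _), (le_abs_self _).trans
      (DW_fam' hW hT1 hK0.le hK0.le hFQ hFQ (FR_mono (Nat.pow_le_pow_right (by norm_num) (hJ12.trans hJ2T)) hp))⟩)
  have hmm := hmom T hTb J₁ S hS1 hsym a5 U hU0 hUT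
  have hint := Gpt_int hk hW.c0 hKW hK0 hm hδ he₁ hR hη.le hη1 hT1 hκ.le hCb hU0 (hpow _ (by positivity) a1)
    (hpow _ (by positivity) (by push_cast; linarith)) hmm h3a h3b h3c
  have hptT := hpt T hTa J₂ S η U hJ12 hJ2T hS hS1 hsym hη.le hU0.le hUT hr
  have cW : ∀ g g' : ℝ → ℝ, Continuous g → Continuous g' → Continuous (fun z : ℝ × ℝ => CW W T g g' z.1 z.2 ^ k) :=
    fun g g' hg hg' => (CW_cont W hW.c0 T hg hg').pow k
  have b1 := cW _ _ ff_cont ff_cont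
  have b2 := cW _ _ ff_cont (qr_cont T S)
  have b3 := cW _ _ (qr_cont T S) (qr_cont T S)
  have b4 : Continuous (fun z : ℝ × ℝ => xi W T (z.1 - z.2) ^ k) :=
    ((xi_cont W T).comp (by fun_prop : Continuous fun z : ℝ × ℝ => z.1 - z.2)).pow k
  have b5 : Continuous (fun z : ℝ × ℝ => CW W T ff ff z.1 z.2 ^ k - 2 * CW W T ff (qr T S) z.1 z.2 ^ k +
      CW W T (qr T S) (qr T S) z.1 z.2 ^ k) := (b1.sub (b2.const_mul 2)).add b3
  rw [← I2_sub b5 b4]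
  refine (I2_abs U _).trans ((I2_mono (g := Gpt k W KW K m δ e₁ R η T J₀ J₁ J₂ S) (b5.sub b4).abs
    (Gpt_cont k hW.c0 KW K m δ e₁ hR0 hT1 J₀ J₁ J₂ S) (fun t ht t' ht' => hptT t ht t' ht')).trans
    (hint.trans ?_))
  apply mul_le_mul_of_nonneg_right _ (by positivity)
  rw [← hce, ← hD1, ← hD2, ← hD3, ← hMe]
  have d1 : c * (2 * m ^ k / (1 + Real.log T)) ≤ ε / 8 := by
    rw [div_le_iff₀ hε] at a3
    rw [mul_div_assoc', div_le_iff₀ hℓ0]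
    linarith
  have d2 : c * (4 * (M * tl k J₀)) ≤ ε / 8 := by
    rw [le_div_iff₀ (by positivity)] at hJ₀
    linarith
  have d3 : c * (4 * (M * κ)) ≤ ε / 8 := by
    rw [le_div_iff₀ (by positivity)] at hκ2
    linarith
  linarith

/-- short averages of length at most one -/
theorem main_small {k : ℕ} (hk : 2 ≤ k) {KW : ℝ} {W W1 W2 : ℝ → ℝ} (hW : Wgt KW W W1 W2) {ε : ℝ} (hε : 0 < ε)
    (J₁ : ℕ) : ∃ T₀ : ℝ, 1 ≤ T₀ ∧ ∀ T : ℝ, T₀ ≤ T → ∀ S : Finset (ℕ × ℕ),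
    S ⊆ FR (2 ^ J₁) → Sym S → ∀ U : ℝ, 0 < U → U ≤ 1 →
    |I2 U (fun z => CW W T ff ff z.1 z.2 ^ k - 2 * CW W T ff (qr T S) z.1 z.2 ^ k + CW W T (qr T S) (qr T S) z.1 z.2 ^ k) -
      I2 U (fun z => xi W T (z.1 - z.2) ^ k)| ≤
      ε * (T ^ k * (1 + Real.log T) ^ (4 * k)) * U ^ 2 := by
  obtain ⟨T₀, hT₀, h⟩ := near_pt hk hW hε J₁
  refine ⟨T₀, hT₀, fun T hT S hS1 hsym U hU hU1 => ?_⟩
  have hT1 : 1 ≤ T := hT₀.trans hT
  have hUT : U ≤ √T := hU1.trans (Real.one_le_sqrt.2 hT1)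
  have cW : ∀ g g' : ℝ → ℝ, Continuous g → Continuous g' → Continuous (fun z : ℝ × ℝ => CW W T g g' z.1 z.2 ^ k) :=
    fun g g' hg hg' => (CW_cont W hW.c0 T hg hg').pow k
  have b1 := cW _ _ ff_cont ff_cont
  have b2 := cW _ _ ff_cont (qr_cont T S)
  have b3 := cW _ _ (qr_cont T S) (qr_cont T S)
  have b4 : Continuous (fun z : ℝ × ℝ => xi W T (z.1 - z.2) ^ k) :=
    ((xi_cont W T).comp (by fun_prop : Continuous fun z : ℝ × ℝ => z.1 - z.2)).pow k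
  have b5 : Continuous (fun z : ℝ × ℝ => CW W T ff ff z.1 z.2 ^ k - 2 * CW W T ff (qr T S) z.1 z.2 ^ k +
      CW W T (qr T S) (qr T S) z.1 z.2 ^ k) := (b1.sub (b2.const_mul 2)).add b3
  rw [← I2_sub b5 b4, ← I2_const hU.le (ε * (T ^ k * (1 + Real.log T) ^ (4 * k)))]
  refine (I2_abs U _).trans (I2_mono (b5.sub b4).abs continuous_const fun t ht t' ht' => ?_)
  refine h T hT S hS1 hsym t t' ht.1 (ht.2.trans hUT) ht'.1 (ht'.2.trans hUT) ?_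
  rw [abs_le]
  constructor
  · linarith [ht.1, ht'.2]
  · linarith [ht.2, ht'.1]

end

end K1H48.SW
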