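import Pool.Agent.K1H48.SW.Co2

set_option autoImplicit false

/-! Spacing of the frequencies, sums over spaced points, dyadic blocks. -/

namespace K1H48.SW

open MeasureTheory Set Finset
open Pool.Agent.Y969.GP

noncomputable section

/-- spacing of the logarithms of two reduced fractions -/
lemma sp_sqrt {p q : ℕ × ℕ} (hp1 : 1 ≤ p.1) (hp2 : 1 ≤ p.2) (hpc : Nat.Coprime p.1 p.2)
    (hq1 : 1 ≤ q.1) (hq2 : 1 ≤ q.2) (hqc : Nat.Coprime q.1 q.2) (hpq : p ≠ q) :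
    1 / (2 * √(ht p * ht q)) ≤ |lam p - lam q| := by
  obtain ⟨a, b⟩ := p
  obtain ⟨a', b'⟩ := q
  simp only at hp1 hp2 hpc hq1 hq2 hqc
  have ha0 : (a : ℝ) ≠ 0 := by positivity
  have hb0 : (b : ℝ) ≠ 0 := by positivity
  have ha0' : (a' : ℝ) ≠ 0 := by positivity
  have hb0' : (b' : ℝ) ≠ 0 := by positivity
  have hlam : lam (a, b) - lam (a', b') = Real.log ((b * a' : ℕ) : ℝ)
      - Real.log ((b' * a : ℕ) : ℝ) := by
    unfold lam
    push_cast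
    rw [Real.log_mul hb0 ha0', Real.log_mul hb0' ha0]
    ring
  have hne : b * a' ≠ b' * a := by
    intro h
    apply hpq
    have h1 : a ∣ b * a' := ⟨b', by rw [h]; ring⟩
    have h2 : a ∣ a' := hpc.dvd_of_dvd_mul_left h1
    have h3 : a' ∣ b' * a := ⟨b, by rw [← h]; ring⟩
    have h4 : a' ∣ a := hqc.dvd_of_dvd_mul_left h3
    have h5 : a = a' := Nat.dvd_antisymm h2 h4
    subst h5
    have h6 : b = b' := Nat.eq_of_mul_eq_mul_right hp1 h
    rw [h6]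
  have hx1 : 1 ≤ b * a' := Nat.mul_pos hp2 hq1
  have hy1 : 1 ≤ b' * a := Nat.mul_pos hq2 hp1
  have hx0 : (0 : ℝ) < ((b * a' : ℕ) : ℝ) := by exact_mod_cast hx1
  have hy0 : (0 : ℝ) < ((b' * a : ℕ) : ℝ) := by exact_mod_cast hy1
  have hprod : ht (a, b) * ht (a', b') = ((b * a' : ℕ) : ℝ) * ((b' * a : ℕ) : ℝ) := by
    unfold ht
    push_cast
    ring
  rw [hlam, hprod]
  rcases lt_or_gt_of_ne hne with h | h
  · have h1 := Pool.Agent.Y379.GP.log_gap hx1 h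
    have h3 : (((b * a' : ℕ)) : ℝ) ≤ √(((b * a' : ℕ) : ℝ) * ((b' * a : ℕ) : ℝ)) := by
      apply Real.le_sqrt_of_sq_le
      have : ((b * a' : ℕ) : ℝ) ≤ ((b' * a : ℕ) : ℝ) := by exact_mod_cast h.le
      nlinarith
    have h5 : 1 / (2 * √(((b * a' : ℕ) : ℝ) * ((b' * a : ℕ) : ℝ))) ≤ 1 / (2 * ((b * a' : ℕ) : ℝ)) :=
      one_div_le_one_div_of_le (by positivity) (by linarith)
    rw [abs_sub_comm]
    exact (h5.trans h1).trans (le_abs_self _)
  · have h1 := Pool.Agent.Y379.GP.log_gap hy1 h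
    have h3 : (((b' * a : ℕ)) : ℝ) ≤ √(((b * a' : ℕ) : ℝ) * ((b' * a : ℕ) : ℝ)) := by
      apply Real.le_sqrt_of_sq_le
      have : ((b' * a : ℕ) : ℝ) ≤ ((b * a' : ℕ) : ℝ) := by exact_mod_cast h.le
      nlinarith
    have h5 : 1 / (2 * √(((b * a' : ℕ) : ℝ) * ((b' * a : ℕ) : ℝ))) ≤ 1 / (2 * ((b' * a : ℕ) : ℝ)) :=
      one_div_le_one_div_of_le (by positivity) (by linarith)
    exact (h5.trans h1).trans (le_abs_self _)

lemma floor_inj {ι : Type*} (s : Finset ι) (x : ι → ℝ) {δ : ℝ} (hδ : 0 < δ)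
    (h0 : ∀ i ∈ s, 0 ≤ x i) (hsp : ∀ i ∈ s, ∀ j ∈ s, i ≠ j → δ ≤ |x i - x j|) :
    Set.InjOn (fun i => ⌊x i / δ⌋₊) s := by
  intro i hi j hj hij
  by_contra hne
  have key : ∀ a ∈ s, ∀ b ∈ s, a ≠ b → x a ≤ x b → ⌊x a / δ⌋₊ ≠ ⌊x b / δ⌋₊ := by
    intro a ha b hb hab hle h
    have h1 := hsp a ha b hb hab
    rw [abs_sub_comm, abs_of_nonneg (by linarith)] at h1
    have h2 : x a / δ + 1 ≤ x b / δ := by
      rw [div_add_one hδ.ne']
      exact div_le_div_of_nonneg_right (by linarith) hδ.le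
    have h3 : ⌊x a / δ⌋₊ + 1 ≤ ⌊x b / δ⌋₊ := by
      apply Nat.le_floor
      push_cast
      have := Nat.floor_le (show 0 ≤ x a / δ from div_nonneg (h0 a ha) hδ.le)
      linarith
    omega
  rcases le_total (x i) (x j) with h | h
  · exact key i hi j hj hne h hij
  · exact key j hj i hi (Ne.symm hne) h hij.symm

lemma bin_one {ι : Type*} (s : Finset ι) (x : ι → ℝ) {δ δ₁ : ℝ} (hδ : 0 < δ) (hδ₁ : δ ≤ δ₁)
    (h0 : ∀ i ∈ s, δ₁ ≤ x i) (hsp : ∀ i ∈ s, ∀ j ∈ s, i ≠ j → δ ≤ |x i - x j|) :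
    ∑ i ∈ s, 1 / (x i) ^ 2 ≤ 4 / (δ * δ₁) := by
  classical
  have hδ1 : 0 < δ₁ := by linarith
  have hinj := floor_inj s x hδ (fun i hi => by have := h0 i hi; linarith) hsp
  set N := ⌊δ₁ / δ⌋₊ with hN
  have hN1 : 1 ≤ N := by
    apply Nat.le_floor
    push_cast
    rw [le_div_iff₀ hδ]; linarith
  have hNge : δ₁ / δ ≤ 2 * N := by
    have h1 := Nat.lt_floor_add_one (δ₁ / δ)
    have h2 : (1 : ℝ) ≤ N := by exact_mod_cast hN1
    linarith
  have hn : ∀ i ∈ s, N ≤ ⌊x i / δ⌋₊ := by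
    intro i hi
    apply Nat.floor_le_floor
    exact div_le_div_of_nonneg_right (h0 i hi) hδ.le
  have h1 : ∀ i ∈ s, 1 / (x i) ^ 2 ≤ (δ ^ 2)⁻¹ * (((⌊x i / δ⌋₊ : ℕ) : ℝ) ^ 2)⁻¹ := by
    intro i hi
    have hxi : 0 < x i := by have := h0 i hi; linarith
    have hni : 1 ≤ ⌊x i / δ⌋₊ := hN1.trans (hn i hi)
    have hni0 : (0 : ℝ) < ((⌊x i / δ⌋₊ : ℕ) : ℝ) := by exact_mod_cast hni
    rw [← mul_inv, ← mul_pow, one_div]
    apply inv_anti₀ (by positivity)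
    apply pow_le_pow_left₀ (by positivity)
    have := Nat.floor_le (show 0 ≤ x i / δ by positivity)
    rw [le_div_iff₀ hδ] at this
    linarith
  refine (Finset.sum_le_sum h1).trans ?_
  rw [← Finset.mul_sum]
  have h2 : ∑ i ∈ s, (((⌊x i / δ⌋₊ : ℕ) : ℝ) ^ 2)⁻¹ = ∑ n ∈ s.image (fun i => ⌊x i / δ⌋₊), ((n : ℝ) ^ 2)⁻¹ := by
    rw [Finset.sum_image]
    intro a ha b hb hab
    exact hinj ha hb hab
  obtain ⟨M, hM⟩ : ∃ M, s.image (fun i => ⌊x i / δ⌋₊) ⊆ Finset.Ioo (N - 1) M := by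
    refine ⟨(s.image (fun i => ⌊x i / δ⌋₊)).sup id + 1, fun n hn' => ?_⟩
    have h3 : n ≤ (s.image (fun i => ⌊x i / δ⌋₊)).sup id := Finset.le_sup (f := id) hn'
    obtain ⟨i, hi, rfl⟩ := Finset.mem_image.1 hn'
    have := hn i hi
    rw [Finset.mem_Ioo]
    constructor <;> omega
  have h3 : ∑ i ∈ s, (((⌊x i / δ⌋₊ : ℕ) : ℝ) ^ 2)⁻¹ ≤ 2 / N := by
    rw [h2]
    refine (Finset.sum_le_sum_of_subset_of_nonneg hM fun _ _ _ => by positivity).trans ?_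
    have := sum_Ioo_inv_sq_le (α := ℝ) (N - 1) M
    have e : ((N - 1 : ℕ) : ℝ) + 1 = N := by
      have : ((N - 1 + 1 : ℕ) : ℝ) = N := by rw [Nat.sub_add_cancel hN1]
      push_cast at this; linarith
    rwa [e] at this
  calc (δ ^ 2)⁻¹ * ∑ i ∈ s, (((⌊x i / δ⌋₊ : ℕ) : ℝ) ^ 2)⁻¹ ≤ (δ ^ 2)⁻¹ * (2 / N) :=
        mul_le_mul_of_nonneg_left h3 (by positivity)
    _ ≤ 4 / (δ * δ₁) := by
        have hN0 : (0 : ℝ) < N := by exact_mod_cast hN1
        rw [← div_eq_inv_mul, div_div, div_le_div_iff₀ (by positivity) (by positivity)]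
        rw [div_le_iff₀ hδ] at hNge
        nlinarith [mul_le_mul_of_nonneg_left hNge hδ.le]

/-- sum of the inverse squares over spaced points -/
lemma bin_sum {ι : Type*} (s : Finset ι) (x : ι → ℝ) {δ δ₁ : ℝ} (hδ : 0 < δ) (hδ₁ : δ ≤ δ₁)
    (h0 : ∀ i ∈ s, δ₁ ≤ |x i|) (hsp : ∀ i ∈ s, ∀ j ∈ s, i ≠ j → δ ≤ |x i - x j|) :
    ∑ i ∈ s, 1 / (x i) ^ 2 ≤ 8 / (δ * δ₁) := by
  classical
  have hδ1 : 0 < δ₁ := by linarith
  rw [← Finset.sum_filter_add_sum_filter_not s (fun i => 0 ≤ x i)]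
  have h1 := bin_one (s.filter (fun i => 0 ≤ x i)) x hδ hδ₁ (fun i hi => by
    rw [Finset.mem_filter] at hi
    have := h0 i hi.1
    rwa [abs_of_nonneg hi.2] at this) (fun i hi j hj => hsp i (Finset.mem_filter.1 hi).1 j (Finset.mem_filter.1 hj).1)
  have h2 := bin_one (s.filter (fun i => ¬ 0 ≤ x i)) (fun i => - x i) hδ hδ₁ (fun i hi => by
    rw [Finset.mem_filter] at hi
    have := h0 i hi.1
    rwa [abs_of_neg (not_le.1 hi.2)] at this) (fun i hi j hj hij => by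
      have := hsp i (Finset.mem_filter.1 hi).1 j (Finset.mem_filter.1 hj).1 hij
      rw [abs_sub_comm] at this
      rwa [show - x i - - x j = x j - x i by ring])
  simp only [neg_sq] at h2
  calc _ ≤ 4 / (δ * δ₁) + 4 / (δ * δ₁) := add_le_add h1 h2
    _ = _ := by ring

lemma ker_one {ι : Type*} (s : Finset ι) (x : ι → ℝ) {δ U : ℝ} (hδ : 0 < δ) (hU : 0 < U)
    (h0 : ∀ i ∈ s, 0 ≤ x i) (hsp : ∀ i ∈ s, ∀ j ∈ s, i ≠ j → δ ≤ |x i - x j|) :
    ∑ i ∈ s, 1 / (1 + (U * x i) ^ 2) ≤ 2 + 2 / (U * δ) := by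
  classical
  have hinj := floor_inj s x hδ h0 hsp
  set α := U * δ with hα
  have hα0 : 0 < α := by positivity
  have h1 : ∀ i ∈ s, 1 / (1 + (U * x i) ^ 2) ≤ 1 / (1 + (α * ((⌊x i / δ⌋₊ : ℕ) : ℝ)) ^ 2) := by
    intro i hi
    apply one_div_le_one_div_of_le (by positivity)
    have := Nat.floor_le (show 0 ≤ x i / δ from div_nonneg (h0 i hi) hδ.le)
    rw [le_div_iff₀ hδ] at this
    have h2 : α * ((⌊x i / δ⌋₊ : ℕ) : ℝ) ≤ U * x i := by
      rw [hα, mul_assoc]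
      apply mul_le_mul_of_nonneg_left _ hU.le
      linarith
    have := pow_le_pow_left₀ (by positivity) h2 2
    linarith
  refine (Finset.sum_le_sum h1).trans ?_
  have h2 : ∑ i ∈ s, 1 / (1 + (α * ((⌊x i / δ⌋₊ : ℕ) : ℝ)) ^ 2) =
      ∑ n ∈ s.image (fun i => ⌊x i / δ⌋₊), 1 / (1 + (α * (n : ℝ)) ^ 2) := by
    rw [Finset.sum_image (f := fun n : ℕ => 1 / (1 + (α * (n : ℝ)) ^ 2))]
    intro a ha b hb hab
    exact hinj ha hb hab
  rw [h2]
  set N := ⌈1 / α⌉₊ with hN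
  have hN1 : 1 ≤ N := Nat.ceil_pos.2 (by positivity)
  have hN0 : (0 : ℝ) < N := by exact_mod_cast hN1
  have hNge : 1 / α ≤ N := Nat.le_ceil _
  have hNle : (N : ℝ) ≤ 1 / α + 1 := (Nat.ceil_lt_add_one (by positivity)).le
  obtain ⟨M, hM⟩ : ∃ M, s.image (fun i => ⌊x i / δ⌋₊) ⊆ Finset.range (N + 1) ∪ Finset.Ioc N M := by
    refine ⟨(s.image (fun i => ⌊x i / δ⌋₊)).sup id, fun n hn' => ?_⟩
    have h3 : n ≤ (s.image (fun i => ⌊x i / δ⌋₊)).sup id := Finset.le_sup (f := id) hn'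
    rw [Finset.mem_union, Finset.mem_range, Finset.mem_Ioc]
    omega
  refine (Finset.sum_le_sum_of_subset_of_nonneg hM fun _ _ _ => by positivity).trans ?_
  rw [Finset.sum_union (by
    rw [Finset.disjoint_left]
    intro a ha hb
    rw [Finset.mem_range] at ha
    rw [Finset.mem_Ioc] at hb
    omega)]
  have h4 : ∑ n ∈ Finset.range (N + 1), 1 / (1 + (α * (n : ℝ)) ^ 2) ≤ (N : ℝ) + 1 := by
    calc ∑ n ∈ Finset.range (N + 1), 1 / (1 + (α * (n : ℝ)) ^ 2) ≤ ∑ n ∈ Finset.range (N + 1), (1 : ℝ) := by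
          apply Finset.sum_le_sum
          intro n _
          rw [div_le_one (by positivity)]
          nlinarith [sq_nonneg (α * (n : ℝ))]
      _ = N + 1 := by simp
  have h5 : ∑ n ∈ Finset.Ioc N M, 1 / (1 + (α * (n : ℝ)) ^ 2) ≤ 1 / α := by
    rcases le_or_gt N M with hNM | hNM
    · calc ∑ n ∈ Finset.Ioc N M, 1 / (1 + (α * (n : ℝ)) ^ 2) ≤ ∑ n ∈ Finset.Ioc N M, (α ^ 2)⁻¹ * ((n : ℝ) ^ 2)⁻¹ := by
            apply Finset.sum_le_sum
            intro n hn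
            have hn0 : (0 : ℝ) < n := by
              rw [Finset.mem_Ioc] at hn
              exact_mod_cast (by omega : 0 < n)
            rw [← mul_inv, ← mul_pow, ← one_div]
            apply one_div_le_one_div_of_le (by positivity)
            linarith
        _ ≤ (α ^ 2)⁻¹ * ((N : ℝ)⁻¹ - (M : ℝ)⁻¹) := by
            rw [← Finset.mul_sum]
            exact mul_le_mul_of_nonneg_left (sum_Ioc_inv_sq_le_sub (α := ℝ) (by omega) hNM) (by positivity)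
        _ ≤ (α ^ 2)⁻¹ * (N : ℝ)⁻¹ := by
            apply mul_le_mul_of_nonneg_left _ (by positivity)
            have : (0 : ℝ) ≤ (M : ℝ)⁻¹ := by positivity
            linarith
        _ ≤ (α ^ 2)⁻¹ * α := by
            apply mul_le_mul_of_nonneg_left _ (by positivity)
            rw [inv_le_comm₀ hN0 hα0, ← one_div]
            exact hNge
        _ = 1 / α := by field_simp
    · rw [Finset.Ioc_eq_empty (by omega), Finset.sum_empty]
      positivity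
  calc _ ≤ ((N : ℝ) + 1) + 1 / α := add_le_add h4 h5
    _ ≤ 2 + 2 / α := by
        have : 2 / α = 1 / α + 1 / α := by ring
        linarith

/-- sum of the kernel over spaced points -/
lemma ker_sum {ι : Type*} (s : Finset ι) (x : ι → ℝ) {δ U : ℝ} (hδ : 0 < δ) (hU : 0 < U)
    (hsp : ∀ i ∈ s, ∀ j ∈ s, i ≠ j → δ ≤ |x i - x j|) :
    ∑ i ∈ s, 1 / (1 + (U * x i) ^ 2) ≤ 4 + 4 / (U * δ) := by
  classical
  rw [← Finset.sum_filter_add_sum_filter_not s (fun i => 0 ≤ x i)]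
  have h1 := ker_one (s.filter (fun i => 0 ≤ x i)) x hδ hU (fun i hi => (Finset.mem_filter.1 hi).2)
    (fun i hi j hj => hsp i (Finset.mem_filter.1 hi).1 j (Finset.mem_filter.1 hj).1)
  have h2 := ker_one (s.filter (fun i => ¬ 0 ≤ x i)) (fun i => - x i) hδ hU (fun i hi => by
    have := (Finset.mem_filter.1 hi).2
    push Not at this
    linarith) (fun i hi j hj hij => by
      have := hsp i (Finset.mem_filter.1 hi).1 j (Finset.mem_filter.1 hj).1 hij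
      rw [abs_sub_comm] at this
      rwa [show - x i - - x j = x j - x i by ring])
  have h3 : ∑ i ∈ s.filter (fun i => ¬ 0 ≤ x i), 1 / (1 + (U * x i) ^ 2) =
      ∑ i ∈ s.filter (fun i => ¬ 0 ≤ x i), 1 / (1 + (U * (- x i)) ^ 2) := by
    refine Finset.sum_congr rfl fun i _ => ?_
    congr 2
    ring
  rw [h3]
  calc _ ≤ (2 + 2 / (U * δ)) + (2 + 2 / (U * δ)) := add_le_add h1 h2
    _ = _ := by ring

/-! ### Dyadic blocks -/

/-- the level of a pair -/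
def lev (p : ℕ × ℕ) : ℕ := Nat.clog 2 (p.1 * p.2)

/-- the pairs of level `j` -/
def blk (J j : ℕ) : Finset (ℕ × ℕ) := (FR (2 ^ J)).filter fun p => lev p = j

lemma FR_iff {X : ℕ} {p : ℕ × ℕ} :
    p ∈ FR X ↔ 1 ≤ p.1 ∧ 1 ≤ p.2 ∧ p.1 * p.2 ≤ X ∧ Nat.Coprime p.1 p.2 := by
  unfold FR PS
  simp only [Finset.mem_filter, Finset.mem_product, Finset.mem_Icc]
  constructor
  · rintro ⟨⟨⟨⟨h1, h2⟩, h3, h4⟩, h5⟩, h6⟩
    exact ⟨h1, h3, h5, h6⟩
  · rintro ⟨h1, h2, h3, h4⟩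
    refine ⟨⟨⟨⟨h1, ?_⟩, h2, ?_⟩, h3⟩, h4⟩
    · exact (Nat.le_mul_of_pos_right _ h2).trans h3
    · exact (Nat.le_mul_of_pos_left _ h1).trans h3

lemma FR_mono {X Y : ℕ} (h : X ≤ Y) : FR X ⊆ FR Y := by
  intro p hp
  rw [FR_iff] at hp ⊢
  exact ⟨hp.1, hp.2.1, hp.2.2.1.trans h, hp.2.2.2⟩

lemma lev_le {J : ℕ} {p : ℕ × ℕ} (hp : p ∈ FR (2 ^ J)) : lev p ≤ J := by
  rw [FR_iff] at hp
  unfold lev
  exact Nat.clog_le_of_le_pow hp.2.2.1

lemma mem_FR_lev {p : ℕ × ℕ} (h1 : 1 ≤ p.1) (h2 : 1 ≤ p.2) (hc : Nat.Coprime p.1 p.2) :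
    p ∈ FR (2 ^ lev p) := by
  rw [FR_iff]
  exact ⟨h1, h2, Nat.le_pow_clog (by norm_num) _, hc⟩

lemma blk_FR {J j : ℕ} {p : ℕ × ℕ} (hp : p ∈ blk J j) : p ∈ FR (2 ^ j) := by
  unfold blk at hp
  rw [Finset.mem_filter] at hp
  obtain ⟨h1, h2⟩ := hp
  rw [FR_iff] at h1
  rw [← h2]
  exact mem_FR_lev h1.1 h1.2.1 h1.2.2.2

lemma ht_ge_lev {p : ℕ × ℕ} (h1 : 1 ≤ p.1) (h2 : 1 ≤ p.2) : (2 : ℝ) ^ lev p ≤ 2 * ht p := by
  have h3 : 1 ≤ p.1 * p.2 := Nat.mul_pos h1 h2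
  have h4 : 2 ^ lev p ≤ 2 * (p.1 * p.2) := by
    unfold lev
    rcases Nat.lt_or_ge 1 (p.1 * p.2) with h | h
    · have h5 := Nat.pow_pred_clog_lt_self (b := 2) (by norm_num) h
      have h6 : 1 ≤ Nat.clog 2 (p.1 * p.2) := Nat.clog_pos (by norm_num) (by omega)
      have h7 : 2 ^ Nat.clog 2 (p.1 * p.2) = 2 * 2 ^ (Nat.clog 2 (p.1 * p.2)).pred := by
        rw [← pow_succ']
        congr 1
        rw [Nat.pred_eq_sub_one]; omega
      rw [h7]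
      omega
    · have h5 : p.1 * p.2 = 1 := by omega
      rw [h5]; simp
  unfold ht
  exact_mod_cast h4

lemma ht_le_lev {p : ℕ × ℕ} : ht p ≤ (2 : ℝ) ^ lev p := by
  have := Nat.le_pow_clog (b := 2) (by norm_num) (p.1 * p.2)
  unfold ht lev
  exact_mod_cast this

lemma blk_ht {J j : ℕ} {p : ℕ × ℕ} (hp : p ∈ blk J j) : (2 : ℝ) ^ j ≤ 2 * ht p ∧ ht p ≤ 2 ^ j := by
  unfold blk at hp
  rw [Finset.mem_filter, FR_iff] at hp
  obtain ⟨h1, h2⟩ := hp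
  rw [← h2]
  exact ⟨ht_ge_lev h1.1 h1.2.1, ht_le_lev⟩

lemma blk_pos {J j : ℕ} {p : ℕ × ℕ} (hp : p ∈ blk J j) : 1 ≤ p.1 ∧ 1 ≤ p.2 := by
  unfold blk at hp
  rw [Finset.mem_filter, FR_iff] at hp
  exact ⟨hp.1.1, hp.1.2.1⟩

lemma card_FR_le (X : ℕ) (hX : 1 ≤ X) : ((FR X).card : ℝ) ≤ X * (1 + Real.log X) := by
  classical
  have h1 : FR X ⊆ (Finset.Icc 1 X).biUnion (fun a => (Finset.Icc 1 (X / a)).image (fun b => (a, b))) := by
    intro p hp
    rw [FR_iff] at hp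
    rw [Finset.mem_biUnion]
    refine ⟨p.1, Finset.mem_Icc.2 ⟨hp.1, (Nat.le_mul_of_pos_right _ hp.2.1).trans hp.2.2.1⟩, ?_⟩
    rw [Finset.mem_image]
    refine ⟨p.2, Finset.mem_Icc.2 ⟨hp.2.1, ?_⟩, rfl⟩
    rw [Nat.le_div_iff_mul_le hp.1, mul_comm]
    exact hp.2.2.1
  have h2 : (FR X).card ≤ ∑ a ∈ Finset.Icc 1 X, X / a := by
    refine (Finset.card_le_card h1).trans (Finset.card_biUnion_le.trans ?_)
    apply Finset.sum_le_sum
    intro a _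
    refine Finset.card_image_le.trans ?_
    simp
  have h3 : ((FR X).card : ℝ) ≤ ∑ a ∈ Finset.Icc 1 X, (X : ℝ) * (1 / (a : ℝ)) := by
    calc ((FR X).card : ℝ) ≤ ((∑ a ∈ Finset.Icc 1 X, X / a : ℕ) : ℝ) := by exact_mod_cast h2
      _ = ∑ a ∈ Finset.Icc 1 X, ((X / a : ℕ) : ℝ) := by push_cast; rfl
      _ ≤ _ := by
        apply Finset.sum_le_sum
        intro a _
        rw [mul_one_div]
        exact Nat.cast_div_le
  refine h3.trans ?_
  rw [← Finset.mul_sum]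
  exact mul_le_mul_of_nonneg_left (harm_le X) (by positivity)

lemma blk_card (J j : ℕ) : ((blk J j).card : ℝ) ≤ 2 ^ j * (j + 1) := by
  have h1 : (blk J j).card ≤ (FR (2 ^ j)).card := Finset.card_le_card fun p hp => blk_FR hp
  have h2 := card_FR_le (2 ^ j) Nat.one_le_two_pow
  have h3 : Real.log ((2 ^ j : ℕ) : ℝ) ≤ j := by
    push_cast
    rw [Real.log_pow]
    have := Real.log_two_lt_d9
    have hj : (0 : ℝ) ≤ j := by positivity
    nlinarith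
  calc ((blk J j).card : ℝ) ≤ ((FR (2 ^ j)).card : ℝ) := by exact_mod_cast h1
    _ ≤ ((2 ^ j : ℕ) : ℝ) * (1 + Real.log ((2 ^ j : ℕ) : ℝ)) := h2
    _ ≤ 2 ^ j * (j + 1) := by
        push_cast at h3 ⊢
        apply mul_le_mul_of_nonneg_left _ (by positivity)
        linarith

/-- a sum over the pairs, by blocks -/
lemma sum_blk {β : Type*} [AddCommMonoid β] (J : ℕ) (F : ℕ × ℕ → β) :
    ∑ p ∈ FR (2 ^ J), F p = ∑ j ∈ Finset.range (J + 1), ∑ p ∈ blk J j, F p := by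
  classical
  unfold blk
  rw [Finset.sum_fiberwise_of_maps_to]
  intro p hp
  rw [Finset.mem_range]
  have := lev_le hp
  omega

/-- spacing inside a set of pairs of bounded height -/
lemma sp_in {j : ℕ} {p q : ℕ × ℕ} (hp : p ∈ FR (2 ^ j)) (hq : q ∈ FR (2 ^ j)) (hpq : p ≠ q) :
    1 / (2 * 2 ^ j : ℝ) ≤ |lam p - lam q| := by
  have := Pool.Agent.Y379.GP.sp1 (2 ^ j) p q hp hq hpq
  push_cast at this
  exact this

/-- the row sums -/
lemma row {i j : ℕ} (hij : i ≤ j) {p : ℕ × ℕ} (hp : p ∈ FR (2 ^ i)) (s : Finset (ℕ × ℕ))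
    (hs : s ⊆ FR (2 ^ j)) :
    ∑ q ∈ s.filter (fun q => q ≠ p), 1 / (lam p - lam q) ^ 2 ≤ 32 * 2 ^ j * √(2 ^ i * 2 ^ j) := by
  have h1 : (0 : ℝ) < 2 ^ i * 2 ^ j := by positivity
  have h2 : √((2 : ℝ) ^ i * 2 ^ j) ≤ 2 ^ j := by
    apply Real.sqrt_le_iff.2
    refine ⟨by positivity, ?_⟩
    rw [sq]
    apply mul_le_mul_of_nonneg_right _ (by positivity)
    exact pow_le_pow_right₀ (by norm_num) hij
  have h3 : 0 < √((2 : ℝ) ^ i * 2 ^ j) := Real.sqrt_pos.2 h1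
  have := bin_sum (s.filter (fun q => q ≠ p)) (fun q => lam p - lam q) (δ := 1 / (2 * 2 ^ j))
    (δ₁ := 1 / (2 * √(2 ^ i * 2 ^ j))) (by positivity)
    (one_div_le_one_div_of_le (by positivity) (by linarith)) ?_ ?_
  · refine this.trans (le_of_eq ?_)
    field_simp
    ring
  · intro q hq
    rw [Finset.mem_filter] at hq
    have hq' := hs hq.1
    rw [FR_iff] at hp hq'
    refine le_trans ?_ (sp_sqrt hp.1 hp.2.1 hp.2.2.2 hq'.1 hq'.2.1 hq'.2.2.2 (Ne.symm hq.2))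
    apply one_div_le_one_div_of_le
    · have a1 := ht_pos hp.1 hp.2.1
      have a2 := ht_pos hq'.1 hq'.2.1
      positivity
    · apply mul_le_mul_of_nonneg_left _ (by norm_num)
      apply Real.sqrt_le_sqrt
      have a1 := ht_pos hp.1 hp.2.1
      have a3 : ht p ≤ 2 ^ i := by
        unfold ht
        exact_mod_cast hp.2.2.1
      have a4 : ht q ≤ 2 ^ j := by
        unfold ht
        exact_mod_cast hq'.2.2.1
      exact mul_le_mul a3 a4 (ht_pos hq'.1 hq'.2.1).le (by positivity)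
  · intro q hq q' hq' hne
    rw [Finset.mem_filter] at hq hq'
    have := sp_in (hs hq.1) (hs hq'.1) hne
    rw [abs_sub_comm] at this
    rwa [show lam p - lam q - (lam p - lam q') = lam q' - lam q by ring]

end

end K1H48.SW
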