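import Pool.Agent.K1H48.SW.Eul

set_option autoImplicit false

/-! The averages of the model converge to the product of the local averages. -/

namespace K1H48.SW

open MeasureTheory Set Finset Filter
open Pool.Agent.Y969.GP

noncomputable section

/-- the logarithms of the primes are linearly independent -/
lemma log_indep {y : ℕ} (n : ↥(Pr y) → ℤ) (h : ∑ p : ↥(Pr y), Real.log ((p : ℕ) : ℝ) * (n p : ℝ) = 0) (q : ↥(Pr y)) :
    n q = 0 := by
  have h1 := pr_lam n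
  have h2 : ∑ p : ↥(Pr y), (n p : ℝ) * Real.log ((p : ℕ) : ℝ) = 0 := by
    rw [← h]
    exact Finset.sum_congr rfl fun p _ => mul_comm _ _
  rw [h2] at h1
  obtain ⟨p1, p2⟩ := pr_pos n
  have h3 : (pr n).1 = (pr n).2 := by
    unfold lam at h1
    have h4 : Real.log ((pr n).2 : ℝ) = Real.log ((pr n).1 : ℝ) := by linarith
    have h5 := Real.log_injOn_pos (Set.mem_Ioi.2 (by exact_mod_cast p2)) (Set.mem_Ioi.2 (by exact_mod_cast p1)) h4
    exact_mod_cast h5.symm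
  have h4 := pr_coprime n
  rw [h3, Nat.coprime_self] at h4
  have h5 : (pr n).1 = 1 := h3.trans h4
  have a1 : (n q).toNat = 0 := by
    have := congrArg (fun m : ℕ => m.factorization q) h4
    simp only [pr] at this
    rwa [prod_fact (fun p => (n p).toNat), Nat.factorization_one, Finsupp.zero_apply] at this
  have a2 : (-(n q)).toNat = 0 := by
    have := congrArg (fun m : ℕ => m.factorization q) h5
    simp only [pr] at this
    rwa [prod_fact (fun p => (-(n p)).toNat), Nat.factorization_one, Finsupp.zero_apply] at this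
  omega

/-- equidistribution, in a uniform form -/
lemma weyl {y : ℕ} {τ : Type*} [DecidableEq τ] (S : Finset τ) (n : τ → ℤ) : ∃ C : ℝ, 0 ≤ C ∧
    ∀ a : ↥(Pr y) → τ → ℂ, (∀ p m, ‖a p m‖ ≤ 1) → ∀ U : ℝ, 
    ‖(∫ t in (0 : ℝ)..U, ∏ p : ↥(Pr y), ∑ m ∈ S, a p m * ex (t * Real.log ((p : ℕ) : ℝ)) (n m)) -
      U * ∏ p : ↥(Pr y), ∑ m ∈ S.filter (fun m => n m = 0), a p m‖ ≤ C := by
  classical
  set F : Finset (↥(Pr y) → τ) := Fintype.piFinset fun _ => S with hF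
  set μ : (↥(Pr y) → τ) → ℝ := fun M => ∑ p : ↥(Pr y), Real.log ((p : ℕ) : ℝ) * (n (M p) : ℝ) with hμ
  refine ⟨∑ M ∈ F, 2 / |μ M|, Finset.sum_nonneg fun M _ => by positivity, fun a ha U => ?_⟩
  have e1 : ∀ t : ℝ, ∏ p : ↥(Pr y), ∑ m ∈ S, a p m * ex (t * Real.log ((p : ℕ) : ℝ)) (n m) =
      ∑ M ∈ F, (∏ p, a p (M p)) * ex t (μ M) := by
    intro t
    rw [Finset.prod_univ_sum]
    refine Finset.sum_congr rfl fun M _ => ?_
    rw [Finset.prod_mul_distrib, hμ]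
    congr 1
    simp only
    rw [ex_sum]
    refine Finset.prod_congr rfl fun p _ => ?_
    unfold ex
    congr 2
    push_cast
    ring
  have e2 : ∫ t in (0 : ℝ)..U, ∏ p : ↥(Pr y), ∑ m ∈ S, a p m * ex (t * Real.log ((p : ℕ) : ℝ)) (n m) =
      ∑ M ∈ F, (∏ p, a p (M p)) * Iex U (μ M) := by
    simp_rw [e1]
    have hcM : ∀ M : ↥(Pr y) → τ, Continuous fun t : ℝ => (∏ p, a p (M p)) * ex t (μ M) := fun M =>
      continuous_const.mul (ex_cont _)
    rw [intervalIntegral.integral_finsetSum (fun M _ => (hcM M).intervalIntegrable _ _)]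
    refine Finset.sum_congr rfl fun M _ => ?_
    rw [intervalIntegral.integral_const_mul]
    rfl
  have e3 : (U : ℂ) * ∏ p : ↥(Pr y), ∑ m ∈ S.filter (fun m => n m = 0), a p m =
      ∑ M ∈ F, if (∀ p, n (M p) = 0) then (∏ p, a p (M p)) * (U : ℂ) else 0 := by
    rw [Finset.prod_univ_sum, Finset.mul_sum, ← Finset.sum_filter]
    apply Finset.sum_congr
    · ext M
      rw [Fintype.mem_piFinset, Finset.mem_filter, hF, Fintype.mem_piFinset]
      simp only [Finset.mem_filter]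
      constructor
      · intro h; exact ⟨fun p => (h p).1, fun p => (h p).2⟩
      · rintro ⟨h, h'⟩ p; exact ⟨h p, h' p⟩
    · intro M _
      ring
  rw [e2, e3, ← Finset.sum_sub_distrib]
  refine (norm_sum_le _ _).trans (Finset.sum_le_sum fun M _ => ?_)
  split_ifs with h
  · have h1 : μ M = 0 := by
      rw [hμ]
      simp only
      apply Finset.sum_eq_zero
      intro p _
      rw [h p]; simp
    have h2 : Iex U (μ M) = (U : ℂ) := by
      rw [h1]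
      unfold Iex
      simp only [ex_zero]
      rw [intervalIntegral.integral_const]
      simp
    rw [h2, sub_self, norm_zero]
    positivity
  · have h1 : μ M ≠ 0 := by
      intro h0
      apply h
      intro p
      exact log_indep (fun p => n (M p)) h0 p
    rw [sub_zero, norm_mul]
    have h2 : ‖∏ p, a p (M p)‖ ≤ 1 := by
      rw [norm_prod]
      exact Finset.prod_le_one (fun p _ => norm_nonneg _) fun p _ => ha p (M p)
    calc _ ≤ 1 * (2 / |μ M|) := mul_le_mul h2 (Iex_le2 h1) (norm_nonneg _) (by norm_num)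
      _ = _ := one_mul _

/-- the integral over the circle -/
lemma circ {τ : Type*} [DecidableEq τ] (S : Finset τ) (n : τ → ℤ) (a : τ → ℂ) :
    ∫ θ in (0 : ℝ)..1, ∑ m ∈ S, a m * ex (2 * Real.pi * θ) (n m) = ∑ m ∈ S.filter (fun m => n m = 0), a m := by
  have hc : ∀ m : τ, Continuous fun θ : ℝ => a m * ex (2 * Real.pi * θ) (n m) := by
    intro m
    unfold ex
    fun_prop
  rw [intervalIntegral.integral_finsetSum (fun m _ => (hc m).intervalIntegrable _ _), Finset.sum_filter]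
  refine Finset.sum_congr rfl fun m _ => ?_
  rw [intervalIntegral.integral_const_mul]
  split_ifs with h
  · rw [h]
    have : ∀ θ : ℝ, ex (2 * Real.pi * θ) ((0 : ℤ) : ℝ) = 1 := by
      intro θ; rw [Int.cast_zero, ex_zero]
    simp_rw [this]
    simp
  · have hn : (n m : ℝ) ≠ 0 := by exact_mod_cast h
    have hI : (Complex.I * ((2 * Real.pi * (n m) : ℝ) : ℂ)) ≠ 0 :=
      mul_ne_zero Complex.I_ne_zero (by
        have : (2 * Real.pi * (n m : ℝ)) ≠ 0 := by have := Real.pi_pos; positivity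
        exact_mod_cast this)
    have e : ∀ θ : ℝ, ex (2 * Real.pi * θ) (n m) = ex θ (2 * Real.pi * (n m)) := by
      intro θ
      unfold ex
      congr 2
      push_cast
      ring
    simp_rw [e]
    have h1 := intervalIntegral.integral_eq_sub_of_hasDerivAt (a := 0) (b := 1)
      (f := fun t => ex t (2 * Real.pi * (n m)) * (Complex.I * ((2 * Real.pi * (n m) : ℝ) : ℂ))⁻¹)
      (f' := fun t => ex t (2 * Real.pi * (n m))) (fun t _ => by
        have := (ex_deriv t (2 * Real.pi * (n m))).mul_const (Complex.I * ((2 * Real.pi * (n m) : ℝ) : ℂ))⁻¹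
        refine this.congr_deriv ?_
        rw [mul_assoc, mul_inv_cancel₀ hI, mul_one]) ((ex_cont _).intervalIntegrable _ _)
    rw [h1, ex_zero']
    have h2 : ex 1 (2 * Real.pi * (n m)) = 1 := by
      unfold ex
      rw [Complex.exp_eq_one_iff]
      refine ⟨n m, ?_⟩
      push_cast
      ring
    rw [h2, sub_self, mul_zero]

lemma prod_diff {ι : Type*} (s : Finset ι) (a b : ι → ℂ) {B η : ℝ} (hB : 1 ≤ B) 
    (ha : ∀ i ∈ s, ‖a i‖ ≤ B) (hb : ∀ i ∈ s, ‖b i‖ ≤ B) (hab : ∀ i ∈ s, ‖a i - b i‖ ≤ η) :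
    ‖∏ i ∈ s, a i - ∏ i ∈ s, b i‖ ≤ s.card * B ^ s.card * η := by
  classical
  induction s using Finset.induction_on with
  | empty => simp
  | insert i s hi ih =>
    have h0 : 0 ≤ η := (norm_nonneg _).trans (hab i (Finset.mem_insert_self i s))
    have ih' := ih (fun j hj => ha j (Finset.mem_insert_of_mem hj)) (fun j hj => hb j (Finset.mem_insert_of_mem hj))
      (fun j hj => hab j (Finset.mem_insert_of_mem hj))
    rw [Finset.prod_insert hi, Finset.prod_insert hi, Finset.card_insert_of_notMem hi]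
    have e : a i * ∏ j ∈ s, a j - b i * ∏ j ∈ s, b j =
        a i * (∏ j ∈ s, a j - ∏ j ∈ s, b j) + (a i - b i) * ∏ j ∈ s, b j := by ring
    rw [e]
    refine (norm_add_le _ _).trans ?_
    rw [norm_mul, norm_mul]
    have hpb : ‖∏ j ∈ s, b j‖ ≤ B ^ s.card := by
      rw [norm_prod, ← Finset.prod_const]
      exact Finset.prod_le_prod (fun j _ => norm_nonneg _) fun j hj => hb j (Finset.mem_insert_of_mem hj)
    have hB0 : 0 ≤ B := by linarith
    have hBs : 0 ≤ B ^ s.card := by positivity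
    have t1 : ‖a i‖ * ‖∏ j ∈ s, a j - ∏ j ∈ s, b j‖ ≤ B * (s.card * B ^ s.card * η) :=
      mul_le_mul (ha i (Finset.mem_insert_self i s)) ih' (norm_nonneg _) hB0
    have t2 : ‖a i - b i‖ * ‖∏ j ∈ s, b j‖ ≤ η * B ^ s.card :=
      mul_le_mul (hab i (Finset.mem_insert_self i s)) hpb (norm_nonneg _) h0
    have t3 : η * B ^ s.card ≤ B * (B ^ s.card * η) := by
      have : 0 ≤ B ^ s.card * η := by positivity
      nlinarith
    push_cast
    rw [pow_succ]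
    nlinarith

lemma rp_bd {y : ℕ} (p : ↥(Pr y)) : 0 ≤ (√((p : ℕ) : ℝ))⁻¹ ∧ (√((p : ℕ) : ℝ))⁻¹ ≤ (√2)⁻¹ ∧
    (√((p : ℕ) : ℝ))⁻¹ ≤ 0.708 := by
  obtain ⟨h1, h2⟩ := sqrt2_bds
  have h3 : √2 ≤ √((p : ℕ) : ℝ) := Real.sqrt_le_sqrt (by exact_mod_cast (Pr_prime p).two_le)
  have h4 : (√((p : ℕ) : ℝ))⁻¹ ≤ (√2)⁻¹ := inv_anti₀ (by linarith) h3
  refine ⟨by positivity, h4, h4.trans ?_⟩
  rw [inv_le_comm₀ (by linarith) (by norm_num)]
  norm_num
  linarith

/-- the local average -/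
def sg {k : ℕ} (p : ℕ) (c : Fin k → ℝ) : ℝ :=
  ∫ θ in (0 : ℝ)..1, ∏ j, Pk ((√(p : ℝ))⁻¹) (c j * Real.log (p : ℝ) + 2 * Real.pi * θ)

/-- the truncated local average -/
def sgN {k : ℕ} (N p : ℕ) (c : Fin k → ℝ) : ℂ :=
  ∫ θ in (0 : ℝ)..1, ∏ j, PkN N ((√(p : ℝ))⁻¹) (c j * Real.log (p : ℝ) + 2 * Real.pi * θ)

lemma Pk_cont {r : ℝ} (hr0 : 0 ≤ r) (hr : r < 1) : Continuous (Pk r) := by
  unfold Pk
  apply Continuous.div continuous_const (by fun_prop)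
  intro φ h
  have h1 : (1 - (r : ℂ) * Complex.exp (Complex.I * φ)) = 0 := by
    rw [← norm_eq_zero]
    exact pow_eq_zero_iff (two_ne_zero) |>.1 h
  have h2 : ‖(r : ℂ) * Complex.exp (Complex.I * φ)‖ = 1 := by
    have : (r : ℂ) * Complex.exp (Complex.I * φ) = 1 := by linear_combination -h1
    rw [this, norm_one]
  rw [norm_mul, mul_comm Complex.I, Complex.norm_exp_ofReal_mul_I, mul_one, Complex.norm_real,
      Real.norm_eq_abs, abs_of_nonneg hr0] at h2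
  linarith

lemma PkN_cont (N : ℕ) (r : ℝ) : Continuous (PkN N r) := by
  unfold PkN ex
  fun_prop

lemma eta_bd {y : ℕ} (N : ℕ) (p : ↥(Pr y)) (φ : ℝ) :
    ‖PkN N ((√((p : ℕ) : ℝ))⁻¹) φ - (Pk ((√((p : ℕ) : ℝ))⁻¹) φ : ℂ)‖ ≤ 7 * (√2)⁻¹ ^ (N + 1) ∧
    ‖(Pk ((√((p : ℕ) : ℝ))⁻¹) φ : ℂ)‖ ≤ 14 ∧ ‖PkN N ((√((p : ℕ) : ℝ))⁻¹) φ‖ ≤ 14 := by
  obtain ⟨h1, h2, h3⟩ := rp_bd p
  obtain ⟨s1, s2⟩ := sqrt2_bds
  set r := (√((p : ℕ) : ℝ))⁻¹ with hr
  have hr1 : r < 1 := by linarith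
  have a1 := PkN_close N (φ := φ) h1 hr1
  have a2 := Pk_bd (φ := φ) h1 hr1
  have hden : (0.29 : ℝ) ≤ 1 - r := by linarith
  have b1 : 2 * r ^ (N + 1) / (1 - r) ≤ 7 * (√2)⁻¹ ^ (N + 1) := by
    rw [div_le_iff₀ (by linarith)]
    have b2 : r ^ (N + 1) ≤ (√2)⁻¹ ^ (N + 1) := pow_le_pow_left₀ h1 h2 _
    have b3 : 0 ≤ (√2)⁻¹ ^ (N + 1) := by positivity
    nlinarith
  have b2 : 2 / (1 - r) ≤ 7 := by
    rw [div_le_iff₀ (by linarith)]; linarith
  have b3 : ‖(Pk r φ : ℂ)‖ ≤ 7 := by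
    rw [Complex.norm_real, Real.norm_eq_abs, abs_of_nonneg a2.1]; linarith [a2.2]
  have b4 : (√2)⁻¹ ^ (N + 1) ≤ 1 := pow_le_one₀ (by positivity) (inv_le_one_of_one_le₀ (by linarith))
  refine ⟨a1.trans b1, b3.trans (by norm_num), ?_⟩
  calc ‖PkN N r φ‖ = ‖(PkN N r φ - (Pk r φ : ℂ)) + (Pk r φ : ℂ)‖ := by rw [sub_add_cancel]
    _ ≤ ‖PkN N r φ - (Pk r φ : ℂ)‖ + ‖(Pk r φ : ℂ)‖ := norm_add_le _ _
    _ ≤ 14 := by linarith

lemma sg_close {y k : ℕ} (N : ℕ) (p : ↥(Pr y)) (c : Fin k → ℝ) :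
    ‖sgN N p c - (sg p c : ℂ)‖ ≤ k * 14 ^ k * (7 * (√2)⁻¹ ^ (N + 1)) ∧
    ‖(sg p c : ℂ)‖ ≤ 14 ^ k ∧ ‖sgN N p c‖ ≤ 14 ^ k := by
  obtain ⟨h1, h2, h3⟩ := rp_bd p
  have hc1 : Continuous fun θ : ℝ => ∏ j, PkN N ((√((p : ℕ) : ℝ))⁻¹) (c j * Real.log ((p : ℕ) : ℝ) + 2 * Real.pi * θ) :=
    continuous_finsetProd _ fun j _ => (PkN_cont _ _).comp (by fun_prop)
  have hc2 : Continuous fun θ : ℝ => ∏ j, (Pk ((√((p : ℕ) : ℝ))⁻¹) (c j * Real.log ((p : ℕ) : ℝ) + 2 * Real.pi * θ) : ℂ) :=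
    continuous_finsetProd _ fun j _ => Complex.continuous_ofReal.comp
      ((Pk_cont h1 (by linarith)).comp (by fun_prop))
  have e1 : (sg p c : ℂ) = ∫ θ in (0 : ℝ)..1, ∏ j, (Pk ((√((p : ℕ) : ℝ))⁻¹) (c j * Real.log ((p : ℕ) : ℝ) + 2 * Real.pi * θ) : ℂ) := by
    unfold sg
    rw [← intervalIntegral.integral_ofReal]
    congr 1
    funext θ
    push_cast
    rfl
  have e2 : sgN N p c = ∫ θ in (0 : ℝ)..1, ∏ j, PkN N ((√((p : ℕ) : ℝ))⁻¹) (c j * Real.log ((p : ℕ) : ℝ) + 2 * Real.pi * θ) := rfl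
  have hfin : ∀ x : Fin k → ℂ, (∀ j, ‖x j‖ ≤ 14) → ‖∏ j, x j‖ ≤ 14 ^ k := by
    intro x hx
    rw [norm_prod]
    calc ∏ j, ‖x j‖ ≤ ∏ _j : Fin k, (14 : ℝ) := Finset.prod_le_prod (fun _ _ => norm_nonneg _) fun j _ => hx j
      _ = 14 ^ k := by rw [Finset.prod_const, Finset.card_univ, Fintype.card_fin]
  refine ⟨?_, ?_, ?_⟩
  · rw [e1, e2, ← intervalIntegral.integral_sub (hc1.intervalIntegrable _ _) (hc2.intervalIntegrable _ _)]
    have := intervalIntegral.norm_integral_le_of_norm_le_const (a := 0) (b := 1)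
      (C := k * 14 ^ k * (7 * (√2)⁻¹ ^ (N + 1)))
      (f := fun θ => ∏ j, PkN N ((√((p : ℕ) : ℝ))⁻¹) (c j * Real.log ((p : ℕ) : ℝ) + 2 * Real.pi * θ) -
        ∏ j, (Pk ((√((p : ℕ) : ℝ))⁻¹) (c j * Real.log ((p : ℕ) : ℝ) + 2 * Real.pi * θ) : ℂ)) (fun θ _ => by
        have := prod_diff (Finset.univ : Finset (Fin k))
          (fun j => PkN N ((√((p : ℕ) : ℝ))⁻¹) (c j * Real.log ((p : ℕ) : ℝ) + 2 * Real.pi * θ))
          (fun j => (Pk ((√((p : ℕ) : ℝ))⁻¹) (c j * Real.log ((p : ℕ) : ℝ) + 2 * Real.pi * θ) : ℂ))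
          (B := 14) (η := 7 * (√2)⁻¹ ^ (N + 1)) (by norm_num)
          (fun j _ => (eta_bd N p _).2.2) (fun j _ => (eta_bd N p _).2.1) (fun j _ => (eta_bd N p _).1)
        rwa [Finset.card_univ, Fintype.card_fin] at this)
    simpa using this
  · rw [e1]
    have := intervalIntegral.norm_integral_le_of_norm_le_const (a := 0) (b := 1) (C := 14 ^ k)
      (f := fun θ => ∏ j, (Pk ((√((p : ℕ) : ℝ))⁻¹) (c j * Real.log ((p : ℕ) : ℝ) + 2 * Real.pi * θ) : ℂ))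
      (fun θ _ => hfin _ fun j => (eta_bd N p _).2.1)
    simpa using this
  · rw [e2]
    have := intervalIntegral.norm_integral_le_of_norm_le_const (a := 0) (b := 1) (C := 14 ^ k)
      (f := fun θ => ∏ j, PkN N ((√((p : ℕ) : ℝ))⁻¹) (c j * Real.log ((p : ℕ) : ℝ) + 2 * Real.pi * θ))
      (fun θ _ => hfin _ fun j => (eta_bd N p _).2.2)
    simpa using this

/-- the expansion of the product over the heights, at one prime -/
lemma expand_p {k : ℕ} (N : ℕ) (r : ℝ) (x : Fin k → ℝ) (φ : ℝ) :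
    ∏ j, PkN N r (x j + φ) = ∑ m ∈ Fintype.piFinset (fun _ : Fin k => Finset.Icc (-(N : ℤ)) N),
      (∏ j, (((r ^ (m j).natAbs : ℝ) : ℂ) * ex (x j) (m j))) * ex φ ((∑ j, m j : ℤ) : ℝ) := by
  unfold PkN
  rw [Finset.prod_univ_sum]
  refine Finset.sum_congr rfl fun m _ => ?_
  have : ((∑ j, m j : ℤ) : ℝ) = ∑ j, (m j : ℝ) := by push_cast; rfl
  rw [this, ex_sum, ← Finset.prod_mul_distrib]
  refine Finset.prod_congr rfl fun j _ => ?_
  rw [ex_add]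
  ring

/-- the limit of the averages of the model -/
theorem model_lim {k : ℕ} (y : ℕ) {η : ℝ} (hη : 0 < η) : ∃ N₀ : ℕ, ∀ N : ℕ, N₀ ≤ N → ∃ C : ℝ, 0 ≤ C ∧
    ∀ T U : ℝ, 1 ≤ T → 0 ≤ U → ∀ c : Fin k → ℝ,
    |(∫ t in (0 : ℝ)..U, ∏ j, qr T (Sy y N) (c j + t)) - U * Real.log T ^ k * ∏ p ∈ Pr y, sg p c| ≤
      Real.log T ^ k * (C + U * η) := by
  classical
  obtain ⟨E, hE⟩ : ∃ E : ℝ, E = ((Pr y).card : ℝ) * (14 ^ k) ^ (Pr y).card * (k * 14 ^ k * 7) := ⟨_, rfl⟩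
  have hE0 : 0 ≤ E := by rw [hE]; positivity
  obtain ⟨s1, s2⟩ := sqrt2_bds
  have hlim : Tendsto (fun N : ℕ => E * (√2)⁻¹ ^ (N + 1)) atTop (nhds 0) := by
    have h1 : Tendsto (fun N : ℕ => (√2)⁻¹ ^ N) atTop (nhds 0) :=
      tendsto_pow_atTop_nhds_zero_of_lt_one (by positivity) (inv_lt_one_of_one_lt₀ (by linarith))
    have h2 := (h1.comp (tendsto_add_atTop_nat 1)).const_mul E
    simpa using h2
  obtain ⟨N₀, hN₀⟩ := (hlim.eventually (gt_mem_nhds hη)).exists_forall_of_atTop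
  refine ⟨N₀, fun N hN => ?_⟩
  obtain ⟨C, hC, hw⟩ := weyl (y := y) (Fintype.piFinset (fun _ : Fin k => Finset.Icc (-(N : ℤ)) N))
    (fun m => ∑ j, m j)
  refine ⟨C, hC, fun T U hT hU c => ?_⟩
  have hL := Real.log_nonneg hT
  -- the model as a complex function
  have e1 : ∀ u : ℝ, (qr T (Sy y N) u : ℂ) = Real.log T * ∏ p : ↥(Pr y), PkN N ((√((p : ℕ) : ℝ))⁻¹) (u * Real.log ((p : ℕ) : ℝ)) := by
    intro u
    rw [← Qf_real (Sy_sym y N)]
    unfold Qf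
    rw [model_prod]
  have e2 : ((∫ t in (0 : ℝ)..U, ∏ j, qr T (Sy y N) (c j + t) : ℝ) : ℂ) =
      (Real.log T : ℂ) ^ k * ∫ t in (0 : ℝ)..U, ∏ p : ↥(Pr y),
        ∑ m ∈ Fintype.piFinset (fun _ : Fin k => Finset.Icc (-(N : ℤ)) N),
        (∏ j, ((((√((p : ℕ) : ℝ))⁻¹ ^ (m j).natAbs : ℝ) : ℂ) * ex (c j * Real.log ((p : ℕ) : ℝ)) (m j))) *
          ex (t * Real.log ((p : ℕ) : ℝ)) ((∑ j, m j : ℤ) : ℝ) := by
    rw [← intervalIntegral.integral_ofReal, ← intervalIntegral.integral_const_mul]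
    congr 1
    funext t
    push_cast
    simp_rw [e1]
    rw [Finset.prod_mul_distrib, Finset.prod_const, Finset.card_univ, Fintype.card_fin, Finset.prod_comm]
    congr 1
    refine Finset.prod_congr rfl fun p _ => ?_
    have := expand_p N ((√((p : ℕ) : ℝ))⁻¹) (fun j => c j * Real.log ((p : ℕ) : ℝ)) (t * Real.log ((p : ℕ) : ℝ))
    push_cast at this
    rw [← this]
    refine Finset.prod_congr rfl fun j _ => ?_
    congr 1
    ring
  have e3 : ∀ p : ↥(Pr y), ∑ m ∈ (Fintype.piFinset (fun _ : Fin k => Finset.Icc (-(N : ℤ)) N)).filter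
      (fun m => ∑ j, m j = 0),
      (∏ j, ((((√((p : ℕ) : ℝ))⁻¹ ^ (m j).natAbs : ℝ) : ℂ) * ex (c j * Real.log ((p : ℕ) : ℝ)) (m j))) = sgN N p c := by
    intro p
    rw [← circ _ (fun m : Fin k → ℤ => ∑ j, m j)]
    unfold sgN
    congr 1
    funext θ
    rw [expand_p N]
  have ha : ∀ (p : ↥(Pr y)) (m : Fin k → ℤ),
      ‖∏ j, ((((√((p : ℕ) : ℝ))⁻¹ ^ (m j).natAbs : ℝ) : ℂ) * ex (c j * Real.log ((p : ℕ) : ℝ)) (m j))‖ ≤ 1 := by
    intro p m
    rw [norm_prod]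
    apply Finset.prod_le_one (fun _ _ => norm_nonneg _)
    intro j _
    rw [norm_mul, norm_ex, mul_one, Complex.norm_real, Real.norm_eq_abs, abs_of_nonneg (by positivity)]
    obtain ⟨h1, h2, h3⟩ := rp_bd p
    exact pow_le_one₀ h1 (by linarith)
  have h1 := hw _ ha U
  simp_rw [e3] at h1
  -- the comparison of the local averages
  have h2 := prod_diff (Finset.univ : Finset ↥(Pr y)) (fun p => sgN N p c) (fun p => ((sg (p : ℕ) c : ℝ) : ℂ))
    (B := 14 ^ k) (η := k * 14 ^ k * (7 * (√2)⁻¹ ^ (N + 1))) (one_le_pow₀ (by norm_num))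
    (fun p _ => (sg_close N p c).2.2) (fun p _ => (sg_close N p c).2.1) (fun p _ => (sg_close N p c).1)
  rw [Finset.card_univ, Fintype.card_coe] at h2
  have h3 : ((Pr y).card : ℝ) * (14 ^ k) ^ (Pr y).card * (k * 14 ^ k * (7 * (√2)⁻¹ ^ (N + 1))) ≤ η := by
    have := (hN₀ N hN).le
    rw [hE] at this
    linarith
  have h4 := h2.trans h3
  have e4 : ∏ p : ↥(Pr y), ((sg (p : ℕ) c : ℝ) : ℂ) = ((∏ p ∈ Pr y, sg p c : ℝ) : ℂ) := by
    rw [Finset.prod_coe_sort (Pr y) (fun p => ((sg p c : ℝ) : ℂ))]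
    push_cast
    rfl
  rw [e4] at h4
  have e5 : ((∫ t in (0 : ℝ)..U, ∏ j, qr T (Sy y N) (c j + t) : ℝ) : ℂ) -
      ((U * Real.log T ^ k * ∏ p ∈ Pr y, sg p c : ℝ) : ℂ) = (Real.log T : ℂ) ^ k *
      (((∫ t in (0 : ℝ)..U, ∏ p : ↥(Pr y),
        ∑ m ∈ Fintype.piFinset (fun _ : Fin k => Finset.Icc (-(N : ℤ)) N),
        (∏ j, ((((√((p : ℕ) : ℝ))⁻¹ ^ (m j).natAbs : ℝ) : ℂ) * ex (c j * Real.log ((p : ℕ) : ℝ)) (m j))) *
          ex (t * Real.log ((p : ℕ) : ℝ)) ((∑ j, m j : ℤ) : ℝ)) - U * ∏ p : ↥(Pr y), sgN N p c) +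
      U * (∏ p : ↥(Pr y), sgN N p c - ((∏ p ∈ Pr y, sg p c : ℝ) : ℂ))) := by
    rw [e2]
    push_cast
    ring
  have h5 : |(∫ t in (0 : ℝ)..U, ∏ j, qr T (Sy y N) (c j + t)) - U * Real.log T ^ k * ∏ p ∈ Pr y, sg p c| =
      ‖((∫ t in (0 : ℝ)..U, ∏ j, qr T (Sy y N) (c j + t) : ℝ) : ℂ) -
      ((U * Real.log T ^ k * ∏ p ∈ Pr y, sg p c : ℝ) : ℂ)‖ := by
    rw [← Complex.ofReal_sub, Complex.norm_real, Real.norm_eq_abs]
  rw [h5, e5, norm_mul, norm_pow, Complex.norm_real, Real.norm_eq_abs, abs_of_nonneg hL]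
  apply mul_le_mul_of_nonneg_left _ (by positivity)
  refine (norm_add_le _ _).trans (add_le_add h1 ?_)
  rw [norm_mul, Complex.norm_real, Real.norm_eq_abs, abs_of_nonneg hU]
  exact mul_le_mul_of_nonneg_left h4 hU

end

end K1H48.SW
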