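import Pool.Agent.K1H48.SW.Close
import Pool.Agent.K1H48.SW.Wey

set_option autoImplicit false

/-! The asymptotic formula for the short averages, in mean square. -/

namespace K1H48.SW

open MeasureTheory Set Finset Filter
open Pool.Agent.Y969.GP

noncomputable section

/-- the normalised short average of the product -/
def FA {k : ℕ} (T U : ℝ) (c : Fin k → ℝ) : ℝ :=
  (∫ t in (0 : ℝ)..U, ∏ j, ff (c j + t)) / (U * Real.log T ^ k)

/-- the singular product -/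
def SP {k : ℕ} (y : ℕ) (c : Fin k → ℝ) : ℝ := ∏ p ∈ Pr y, sg p c

lemma FA_cont {k : ℕ} (T U : ℝ) : Continuous (FA (k := k) T U) := by
  unfold FA
  exact (cont_avg (fun _ => ff_cont) U).div_const _

lemma sg_cont {k p : ℕ} (hp : p.Prime) : Continuous (sg (k := k) p) := by
  have h2 : (2 : ℝ) ≤ p := by exact_mod_cast hp.two_le
  have h3 : √2 ≤ √(p : ℝ) := Real.sqrt_le_sqrt h2
  obtain ⟨s1, s2⟩ := sqrt2_bds
  have h4 : (√(p : ℝ))⁻¹ < 1 := inv_lt_one_of_one_lt₀ (by linarith)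
  have hc := Pk_cont (r := (√(p : ℝ))⁻¹) (by positivity) h4
  unfold sg
  apply intervalIntegral.continuous_parametric_intervalIntegral_of_continuous'
    (f := fun (c : Fin k → ℝ) θ => ∏ j, Pk ((√(p : ℝ))⁻¹) (c j * Real.log (p : ℝ) + 2 * Real.pi * θ))
  unfold Function.uncurry
  exact continuous_finsetProd _ fun j _ => hc.comp (by fun_prop)

lemma SP_cont {k : ℕ} (y : ℕ) : Continuous (SP (k := k) y) := by
  unfold SP
  exact continuous_finsetProd _ fun p hp => sg_cont (Finset.mem_filter.1 hp).2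

lemma Pk_periodic (r : ℝ) : Function.Periodic (Pk r) (2 * Real.pi) := by
  intro φ
  unfold Pk
  have : Complex.exp (Complex.I * ((φ + 2 * Real.pi : ℝ) : ℂ)) = Complex.exp (Complex.I * φ) := by
    push_cast
    rw [mul_add, Complex.exp_add]
    have : Complex.exp (Complex.I * (2 * Real.pi)) = 1 := by
      rw [mul_comm, Complex.exp_two_pi_mul_I]
    rw [this, mul_one]
  rw [this]

/-- invariance under diagonal translations -/
lemma sg_shift {k p : ℕ} (c : Fin k → ℝ) (s : ℝ) : sg p (fun j => c j + s) = sg p c := by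
  unfold sg
  have hpi := Real.pi_pos
  set F : ℝ → ℝ := fun θ => ∏ j, Pk ((√(p : ℝ))⁻¹) (c j * Real.log (p : ℝ) + 2 * Real.pi * θ) with hF
  have hper : Function.Periodic F 1 := by
    intro θ
    rw [hF]
    simp only
    refine Finset.prod_congr rfl fun j _ => ?_
    have := Pk_periodic ((√(p : ℝ))⁻¹) (c j * Real.log (p : ℝ) + 2 * Real.pi * θ)
    rw [← this]
    congr 1
    ring
  have e1 : ∀ θ : ℝ, ∏ j, Pk ((√(p : ℝ))⁻¹) ((c j + s) * Real.log (p : ℝ) + 2 * Real.pi * θ) =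
      F (θ + s * Real.log (p : ℝ) / (2 * Real.pi)) := by
    intro θ
    rw [hF]
    simp only
    refine Finset.prod_congr rfl fun j _ => ?_
    congr 1
    field_simp
    ring
  simp_rw [e1]
  rw [intervalIntegral.integral_comp_add_right (fun θ => F θ)]
  have := hper.intervalIntegral_add_eq (0 + s * Real.log (p : ℝ) / (2 * Real.pi)) 0
  rw [zero_add (1 : ℝ)] at this
  rw [← this]
  congr 1
  ring

lemma SP_shift {k : ℕ} (y : ℕ) (c : Fin k → ℝ) (s : ℝ) : SP y (fun j => c j + s) = SP y c := by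
  unfold SP
  exact Finset.prod_congr rfl fun p _ => sg_shift c s

lemma box_mono {k : ℕ} {a b a' b' : ℝ} (ha : a' ≤ a) (hb : b ≤ b') {Φ : (Fin k → ℝ) → ℝ} (hΦ : Continuous Φ)
    (h0 : ∀ c, 0 ≤ Φ c) : ∫ c, Φ c ∂(bm k a b) ≤ ∫ c, Φ c ∂(bm k a' b') := by
  have hi := int_bm (k := k) (a := a') (b := b') hΦ
  rw [bm_eq] at hi ⊢
  rw [bm_eq]
  apply setIntegral_mono_set hi
  · exact Filter.Eventually.of_forall fun c => h0 c
  · apply HasSubset.Subset.eventuallyLE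
    intro c hc i hi'
    have := hc i hi'
    exact ⟨ha.trans this.1, this.2.trans hb⟩

lemma box_shift {k : ℕ} (a b s : ℝ) (Φ : (Fin k → ℝ) → ℝ) :
    ∫ c, Φ (fun j => c j + s) ∂(bm k a b) = ∫ c, Φ c ∂(bm k (a + s) (b + s)) := by
  rw [bm_eq, bm_eq]
  have h := (measurePreserving_add_right (volume : Measure (Fin k → ℝ)) (fun _ => s)).setIntegral_preimage_emb
    (measurableEmbedding_addRight _) Φ (Set.univ.pi fun _ => Icc (a + s) (b + s))
  have e : (fun x : Fin k → ℝ => x + fun _ => s) ⁻¹' (Set.univ.pi fun _ => Icc (a + s) (b + s)) =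
      Set.univ.pi fun _ => Icc a b := by
    ext c
    simp only [Set.mem_preimage, Set.mem_pi, Set.mem_univ, true_implies, Pi.add_apply, Set.mem_Icc,
      add_le_add_iff_right]
  rw [e] at h
  exact h

lemma box_vol {k : ℕ} {a b : ℝ} (hab : a ≤ b) : (bm k a b).real Set.univ = (b - a) ^ k := by
  unfold bm Measure.real
  rw [Measure.pi_univ]
  simp only [Measure.restrict_apply_univ, Real.volume_Icc, Finset.prod_const, Finset.card_univ, Fintype.card_fin]
  rw [ENNReal.toReal_pow, ENNReal.toReal_ofReal (by linarith)]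

lemma wt_ge_one {T c : ℝ} (hT : 0 < T) (h1 : T ≤ c) (h2 : c ≤ 3 * T) : 1 ≤ wt T (1 / 2) 4 c := by
  unfold wt
  have a1 : 1 ≤ c / T := by rw [le_div_iff₀ hT]; linarith
  have a2 : c / T ≤ 3 := by rw [div_le_iff₀ hT]; exact h2
  have a3 : 1 ≤ (c / T - 1 / 2) * (4 - c / T) := by nlinarith
  exact one_le_pow₀ a3

/-- the asymptotic formula on `[T, 3T]^k`, for `U ≤ √T` -/
theorem upper1 {k : ℕ} (hk : 2 ≤ k) {ε : ℝ} (hε : 0 < ε) : ∃ y₀ : ℕ, ∀ y : ℕ, y₀ ≤ y → ∃ A T₀ : ℝ, 0 < A ∧ 1 ≤ T₀ ∧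
    ∀ T : ℝ, T₀ ≤ T → ∀ U : ℝ, A * Real.log T ^ (2 * k - 1) ≤ U → U ≤ √T →
    ∫ c, (FA T U c - SP y c) ^ 2 ∂(bm k T (3 * T)) ≤ ε * T ^ k := by
  obtain ⟨J₀, A, hA, hclose⟩ := close hk (ε := ε / 4) (by positivity)
  refine ⟨2 ^ J₀, fun y hy => ?_⟩
  obtain ⟨η, hη⟩ : ∃ η : ℝ, η = √(ε / (2 * (8 * 2 ^ k))) := ⟨_, rfl⟩
  have hη0 : 0 < η := by rw [hη]; positivity
  have hη2 : 8 * 2 ^ k * η ^ 2 = ε / 2 := by
    rw [hη, Real.sq_sqrt (by positivity)]
    field_simp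
  obtain ⟨N₀, hN₀⟩ := model_lim (k := k) y hη0
  obtain ⟨C, hC, hmod⟩ := hN₀ (max N₀ J₀) (le_max_left _ _)
  obtain ⟨J₁, hJ₁⟩ := Sy_sub y (max N₀ J₀)
  obtain ⟨T₀, hT₀, hcl⟩ := hclose J₁ (Sy y (max N₀ J₀)) hJ₁ (Sy_sup hy (le_max_right _ _)) (Sy_sym _ _)
  obtain ⟨L₀, hL₀⟩ : ∃ L₀ : ℝ, L₀ = max 1 (C / (η * A)) := ⟨_, rfl⟩
  refine ⟨A, max T₀ (Real.exp L₀), hA, hT₀.trans (le_max_left _ _), fun T hT U hU hUT => ?_⟩
  have hT0 : T₀ ≤ T := (le_max_left _ _).trans hT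
  have hT1 : 1 ≤ T := hT₀.trans hT0
  have hTp : 0 < T := by linarith
  obtain ⟨L, hL⟩ : ∃ L : ℝ, L = Real.log T := ⟨_, rfl⟩
  have hLL : L₀ ≤ L := by rw [hL, Real.le_log_iff_exp_le hTp]; exact (le_max_right _ _).trans hT
  have hL1 : 1 ≤ L := le_trans (by rw [hL₀]; exact le_max_left _ _) hLL
  have hLC : C / (η * A) ≤ L := le_trans (by rw [hL₀]; exact le_max_right _ _) hLL
  have hL0 : 0 < L := by linarith
  have hmain := hcl T hT0 U hU hUT
  rw [← hL] at hU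
  have hLp : L ≤ L ^ (2 * k - 1) := by
    calc L = L ^ 1 := (pow_one L).symm
      _ ≤ L ^ (2 * k - 1) := pow_le_pow_right₀ hL1 (by omega)
  have hU0 : 0 < U := lt_of_lt_of_le (by positivity) hU
  have hCU : C ≤ U * η := by
    rw [div_le_iff₀ (by positivity)] at hLC
    have : L * (η * A) ≤ L ^ (2 * k - 1) * (η * A) := mul_le_mul_of_nonneg_right hLp (by positivity)
    nlinarith
  -- pointwise
  have hw := wt_cont T (1 / 2) 4
  have hpt : ∀ c ∈ (Set.univ.pi fun _ : Fin k => Icc T (3 * T)), (FA T U c - SP y c) ^ 2 ≤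
      2 / (U * L ^ k) ^ 2 * ((∏ j, wt T (1 / 2) 4 (c j)) * ((∫ t in (0 : ℝ)..U, ∏ j, ff (c j + t)) -
      ∫ t in (0 : ℝ)..U, ∏ j, qr T (Sy y (max N₀ J₀)) (c j + t)) ^ 2) + 8 * η ^ 2 := by
    intro c hc
    have h1 := hmod T U hT1 hU0.le c
    rw [← hL] at h1
    obtain ⟨I1, hI1⟩ : ∃ I1 : ℝ, I1 = ∫ t in (0 : ℝ)..U, ∏ j, ff (c j + t) := ⟨_, rfl⟩
    obtain ⟨I2, hI2⟩ : ∃ I2 : ℝ, I2 = ∫ t in (0 : ℝ)..U, ∏ j, qr T (Sy y (max N₀ J₀)) (c j + t) := ⟨_, rfl⟩
    have e1 : FA T U c = I1 / (U * L ^ k) := by unfold FA; rw [hI1, hL]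
    have e2 : SP y c = ∏ p ∈ Pr y, sg p c := rfl
    rw [← hI2, ← e2] at h1
    rw [← hI1, ← hI2, e1]
    have hden : 0 < U * L ^ k := by positivity
    have h2 : |I2 / (U * L ^ k) - SP y c| ≤ 2 * η := by
      have e3 : I2 / (U * L ^ k) - SP y c = (I2 - U * L ^ k * SP y c) / (U * L ^ k) := by field_simp
      rw [e3, abs_div, abs_of_pos hden, div_le_iff₀ hden]
      refine h1.trans ?_
      have : L ^ k * (C + U * η) ≤ L ^ k * (U * η + U * η) := mul_le_mul_of_nonneg_left (by linarith) (by positivity)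
      nlinarith
    have hW : 1 ≤ ∏ j, wt T (1 / 2) 4 (c j) := by
      calc (1 : ℝ) = ∏ _j : Fin k, (1 : ℝ) := by simp
        _ ≤ ∏ j, wt T (1 / 2) 4 (c j) := Finset.prod_le_prod (fun _ _ => by norm_num) fun j _ =>
            wt_ge_one hTp (hc j (Set.mem_univ j)).1 (hc j (Set.mem_univ j)).2
    have h3 : (I1 / (U * L ^ k) - SP y c) ^ 2 ≤ 2 * ((I1 - I2) / (U * L ^ k)) ^ 2 + 2 * (I2 / (U * L ^ k) - SP y c) ^ 2 := by
      have e4 : I1 / (U * L ^ k) - SP y c = (I1 - I2) / (U * L ^ k) + (I2 / (U * L ^ k) - SP y c) := by ring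
      rw [e4]
      nlinarith [sq_nonneg ((I1 - I2) / (U * L ^ k) - (I2 / (U * L ^ k) - SP y c))]
    have h4 : (I2 / (U * L ^ k) - SP y c) ^ 2 ≤ 4 * η ^ 2 := by
      rw [← sq_abs]
      have := pow_le_pow_left₀ (abs_nonneg _) h2 2
      nlinarith
    have h5 : 2 * ((I1 - I2) / (U * L ^ k)) ^ 2 ≤ 2 / (U * L ^ k) ^ 2 * ((∏ j, wt T (1 / 2) 4 (c j)) * (I1 - I2) ^ 2) := by
      have e5 : 2 * ((I1 - I2) / (U * L ^ k)) ^ 2 = 2 / (U * L ^ k) ^ 2 * (1 * (I1 - I2) ^ 2) := by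
        rw [div_pow]; ring
      rw [e5]
      apply mul_le_mul_of_nonneg_left _ (by positivity)
      exact mul_le_mul_of_nonneg_right hW (sq_nonneg _)
    linarith
  have hcont1 : Continuous fun c : Fin k → ℝ => (∏ j, wt T (1 / 2) 4 (c j)) * ((∫ t in (0 : ℝ)..U, ∏ j, ff (c j + t)) -
      ∫ t in (0 : ℝ)..U, ∏ j, qr T (Sy y (max N₀ J₀)) (c j + t)) ^ 2 :=
    (by fun_prop : Continuous fun c : Fin k → ℝ => ∏ j, wt T (1 / 2) 4 (c j)).mul
      (((cont_avg (fun _ : Fin k => ff_cont) U).sub (cont_avg (fun _ : Fin k => qr_cont T _) U)).pow 2)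
  have hcont2 : Continuous fun c : Fin k → ℝ => (FA T U c - SP y c) ^ 2 := ((FA_cont T U).sub (SP_cont y)).pow 2
  have h1 : ∫ c, (FA T U c - SP y c) ^ 2 ∂(bm k T (3 * T)) ≤
      ∫ c, (2 / (U * L ^ k) ^ 2 * ((∏ j, wt T (1 / 2) 4 (c j)) * ((∫ t in (0 : ℝ)..U, ∏ j, ff (c j + t)) -
      ∫ t in (0 : ℝ)..U, ∏ j, qr T (Sy y (max N₀ J₀)) (c j + t)) ^ 2) + 8 * η ^ 2) ∂(bm k T (3 * T)) := by
    apply integral_mono_ae (int_bm hcont2) (int_bm ((continuous_const.mul hcont1).add continuous_const))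
    rw [bm_eq]
    filter_upwards [ae_restrict_mem (MeasurableSet.univ_pi fun _ => measurableSet_Icc)] with c hc
    exact hpt c hc
  refine h1.trans ?_
  have hi1 : Integrable (fun c : Fin k → ℝ => 2 / (U * L ^ k) ^ 2 * ((∏ j, wt T (1 / 2) 4 (c j)) *
      ((∫ t in (0 : ℝ)..U, ∏ j, ff (c j + t)) -
      ∫ t in (0 : ℝ)..U, ∏ j, qr T (Sy y (max N₀ J₀)) (c j + t)) ^ 2)) (bm k T (3 * T)) :=
    int_bm (continuous_const.mul hcont1)
  rw [integral_add hi1 (integrable_const _), integral_const_mul, integral_const, box_vol (by linarith), smul_eq_mul]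
  have h2 := box_mono (k := k) (a := T) (b := 3 * T) (a' := 1 / 2 * T) (b' := 4 * T) (by linarith) (by linarith)
    hcont1 (fun c => mul_nonneg (Finset.prod_nonneg fun _ _ => wt_nonneg _ _ _ _) (sq_nonneg _))
  have h3 := h2.trans hmain
  rw [← hL] at h3
  have h4 : 2 / (U * L ^ k) ^ 2 * (ε / 4 * (T ^ k * U ^ 2 * L ^ (2 * k))) = ε / 2 * T ^ k := by
    rw [mul_pow, ← pow_mul, mul_comm k 2]
    field_simp
    ring
  have h5 : 2 / (U * L ^ k) ^ 2 * ∫ c, (∏ j, wt T (1 / 2) 4 (c j)) * ((∫ t in (0 : ℝ)..U, ∏ j, ff (c j + t)) -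
      ∫ t in (0 : ℝ)..U, ∏ j, qr T (Sy y (max N₀ J₀)) (c j + t)) ^ 2 ∂(bm k T (3 * T)) ≤ ε / 2 * T ^ k := by
    rw [← h4]
    exact mul_le_mul_of_nonneg_left h3 (by positivity)
  have h6 : (3 * T - T) ^ k * (8 * η ^ 2) = ε / 2 * T ^ k := by
    rw [show 3 * T - T = 2 * T by ring, mul_pow]
    rw [← hη2]
    ring
  rw [h6]
  linarith

/-- the average over a long interval is an average of averages over shorter intervals -/
lemma FA_avg {k : ℕ} (T U₀ : ℝ) (m : ℕ) (hm : 1 ≤ m) (hU : 0 < U₀) (c : Fin k → ℝ) :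
    FA T (m * U₀) c = (1 / (m : ℝ)) * ∑ i ∈ Finset.range m, FA T U₀ (fun j => c j + i * U₀) := by
  have hm0 : (0 : ℝ) < m := by exact_mod_cast hm
  set G : ℝ → ℝ := fun t => ∏ j, ff (c j + t) with hG
  have hGc : Continuous G := by
    rw [hG]
    exact continuous_finsetProd _ fun j _ => ff_cont.comp (by fun_prop)
  have h1 : ∫ t in (0 : ℝ)..(m * U₀), G t = ∑ i ∈ Finset.range m, ∫ t in (0 : ℝ)..U₀, G (t + i * U₀) := by
    have h2 := intervalIntegral.sum_integral_adjacent_intervals (f := G) (μ := volume) (n := m)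
      (a := fun i : ℕ => (i : ℝ) * U₀) (fun i _ => hGc.intervalIntegrable _ _)
    simp only [Nat.cast_zero, zero_mul] at h2
    rw [← h2]
    refine Finset.sum_congr rfl fun i _ => ?_
    rw [intervalIntegral.integral_comp_add_right (fun t => G t)]
    congr 1
    · ring
    · push_cast; ring
  unfold FA
  rw [h1, Finset.mul_sum, Finset.sum_div]
  refine Finset.sum_congr rfl fun i _ => ?_
  have e : ∀ t : ℝ, G (t + i * U₀) = ∏ j, ff (c j + i * U₀ + t) := by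
    intro t
    rw [hG]
    simp only
    refine Finset.prod_congr rfl fun j _ => ?_
    congr 1
    ring
  simp_rw [e]
  field_simp

/-- the asymptotic formula -/
theorem upper {k : ℕ} (hk : 2 ≤ k) {ε : ℝ} (hε : 0 < ε) : ∃ y₀ : ℕ, ∀ y : ℕ, y₀ ≤ y → ∃ A T₀ : ℝ, 0 < A ∧ 1 ≤ T₀ ∧
    ∀ T : ℝ, T₀ ≤ T → ∀ U : ℝ, A * Real.log T ^ (2 * k - 1) ≤ U → U ≤ T →
    ∫ c, (FA T U c - SP y c) ^ 2 ∂(bm k T (2 * T)) ≤ ε * T ^ k := by
  obtain ⟨y₀, h⟩ := upper1 hk hε
  refine ⟨y₀, fun y hy => ?_⟩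
  obtain ⟨A, T₀, hA, hT₀, h1⟩ := h y hy
  have ev := log_small (1 / 2) (by norm_num) (1 / (2 * A)) (by positivity) (2 * k - 1)
  obtain ⟨T₁, hT₁⟩ := ev.exists_forall_of_atTop
  refine ⟨A, max T₀ (max T₁ 3), hA, hT₀.trans (le_max_left _ _), fun T hT U hU hUT => ?_⟩
  have g0 : T₀ ≤ T := (le_max_left _ _).trans hT
  have g1 : T₁ ≤ T := ((le_max_left _ _).trans (le_max_right _ _)).trans hT
  have g2 : 3 ≤ T := ((le_max_right _ _).trans (le_max_right _ _)).trans hT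
  have hTp : 0 < T := by linarith
  have hL0 : 0 < Real.log T := Real.log_pos (by linarith)
  have hU0 : 0 < U := lt_of_lt_of_le (by positivity) hU
  have hcont : ∀ U : ℝ, Continuous fun c : Fin k → ℝ => (FA T U c - SP y c) ^ 2 := fun U =>
    ((FA_cont T U).sub (SP_cont y)).pow 2
  rcases le_or_gt U (√T) with hs | hs
  · exact (box_mono le_rfl (by linarith) (hcont U) fun c => sq_nonneg _).trans (h1 T g0 U hU hs)
  · -- `U = m U₀`
    have hsT : 0 < √T := Real.sqrt_pos.2 hTp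
    obtain ⟨m, hm⟩ : ∃ m : ℕ, m = ⌈U / √T⌉₊ := ⟨_, rfl⟩
    have hm1 : 1 ≤ m := by rw [hm]; exact Nat.ceil_pos.2 (by positivity)
    have hm0 : (0 : ℝ) < m := by exact_mod_cast hm1
    have hmge : U / √T ≤ m := by rw [hm]; exact Nat.le_ceil _
    have hmle : (m : ℝ) ≤ 2 * (U / √T) := by
      have h2 : (m : ℝ) < U / √T + 1 := by rw [hm]; exact Nat.ceil_lt_add_one (by positivity)
      have h3 : 1 < U / √T := by rw [lt_div_iff₀ hsT]; linarith
      linarith
    obtain ⟨U₀, hU₀⟩ : ∃ U₀ : ℝ, U₀ = U / m := ⟨_, rfl⟩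
    have hUm : (m : ℝ) * U₀ = U := by rw [hU₀]; field_simp
    have hU₀0 : 0 < U₀ := by rw [hU₀]; positivity
    have hU₀le : U₀ ≤ √T := by
      rw [hU₀, div_le_iff₀ hm0]
      rw [div_le_iff₀ hsT] at hmge
      linarith
    have hU₀ge : √T / 2 ≤ U₀ := by
      rw [hU₀, le_div_iff₀ hm0]
      have : (m : ℝ) * √T ≤ 2 * U := by
        calc (m : ℝ) * √T ≤ 2 * (U / √T) * √T := mul_le_mul_of_nonneg_right hmle hsT.le
          _ = 2 * U := by field_simp
      linarith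
    have hAU : A * Real.log T ^ (2 * k - 1) ≤ U₀ := by
      have h2 := hT₁ T g1
      rw [← Real.sqrt_eq_rpow] at h2
      have h3 : Real.log T ^ (2 * k - 1) ≤ (1 + Real.log T) ^ (2 * k - 1) :=
        pow_le_pow_left₀ hL0.le (by linarith) _
      have h4 : A * Real.log T ^ (2 * k - 1) ≤ A * (1 / (2 * A) * √T) :=
        mul_le_mul_of_nonneg_left (h3.trans h2) hA.le
      have h5 : A * (1 / (2 * A) * √T) = √T / 2 := by field_simp
      linarith
    have hmain := h1 T g0 U₀ hAU hU₀le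
    have hpt : ∀ c : Fin k → ℝ, (FA T U c - SP y c) ^ 2 ≤
        (1 / (m : ℝ)) * ∑ i ∈ Finset.range m, (FA T U₀ (fun j => c j + i * U₀) - SP y (fun j => c j + i * U₀)) ^ 2 := by
      intro c
      have e1 : FA T U c - SP y c = (1 / (m : ℝ)) * ∑ i ∈ Finset.range m,
          (FA T U₀ (fun j => c j + i * U₀) - SP y (fun j => c j + i * U₀)) := by
        rw [← hUm, FA_avg T U₀ m hm1 hU₀0, Finset.sum_sub_distrib]
        simp_rw [SP_shift]
        rw [Finset.sum_const, Finset.card_range, nsmul_eq_mul, mul_sub]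
        congr 1
        rw [← mul_assoc, one_div, inv_mul_cancel₀ hm0.ne', one_mul]
      rw [e1, mul_pow]
      have h2 := sq_sum_le_card_mul_sum_sq (s := Finset.range m)
        (f := fun i => FA T U₀ (fun j => c j + (i : ℝ) * U₀) - SP y (fun j => c j + (i : ℝ) * U₀))
      rw [Finset.card_range] at h2
      calc _ ≤ (1 / (m : ℝ)) ^ 2 * ((m : ℝ) * ∑ i ∈ Finset.range m,
            (FA T U₀ (fun j => c j + i * U₀) - SP y (fun j => c j + i * U₀)) ^ 2) :=
            mul_le_mul_of_nonneg_left h2 (by positivity)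
        _ = _ := by
            rw [← mul_assoc]
            congr 1
            field_simp
    have hci : ∀ i : ℕ, Continuous fun c : Fin k → ℝ =>
        (FA T U₀ (fun j => c j + i * U₀) - SP y (fun j => c j + i * U₀)) ^ 2 := fun i =>
      (hcont U₀).comp (by fun_prop : Continuous fun c : Fin k → ℝ => fun j => c j + (i : ℝ) * U₀)
    have h2 := integral_mono (μ := bm k T (2 * T)) (int_bm (hcont U))
      ((int_bm (continuous_finsetSum _ fun i _ => hci i)).const_mul (1 / (m : ℝ))) hpt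
    refine h2.trans ?_
    rw [integral_const_mul, integral_finsetSum _ (fun i _ => int_bm (hci i))]
    have h3 : ∀ i ∈ Finset.range m, ∫ c, (FA T U₀ (fun j => c j + i * U₀) - SP y (fun j => c j + i * U₀)) ^ 2
        ∂(bm k T (2 * T)) ≤ ε * T ^ k := by
      intro i hi
      rw [box_shift T (2 * T) (i * U₀) (fun c => (FA T U₀ c - SP y c) ^ 2)]
      refine (box_mono ?_ ?_ (hcont U₀) fun c => sq_nonneg _).trans hmain
      · have : 0 ≤ (i : ℝ) * U₀ := by positivity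
        linarith
      · have h4 : (i : ℝ) ≤ m := by exact_mod_cast (Finset.mem_range.1 hi).le
        have : (i : ℝ) * U₀ ≤ m * U₀ := mul_le_mul_of_nonneg_right h4 hU₀0.le
        linarith
    calc (1 / (m : ℝ)) * ∑ i ∈ Finset.range m, ∫ c, (FA T U₀ (fun j => c j + i * U₀) - SP y (fun j => c j + i * U₀)) ^ 2
        ∂(bm k T (2 * T)) ≤ (1 / (m : ℝ)) * ∑ _i ∈ Finset.range m, ε * T ^ k :=
          mul_le_mul_of_nonneg_left (Finset.sum_le_sum h3) (by positivity)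
      _ = ε * T ^ k := by
          rw [Finset.sum_const, Finset.card_range, nsmul_eq_mul]
          field_simp

end

end K1H48.SW
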