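import Pool.Agent.K1H48.SW.Spc

set_option autoImplicit false

/-! The weighted sums over the pairs. -/

namespace K1H48.SW

open MeasureTheory Set Finset
open Pool.Agent.Y969.GP

noncomputable section

lemma sqrt2_bds : 1.414 < √(2 : ℝ) ∧ √(2 : ℝ) < 1.4143 := by
  constructor
  · apply Real.lt_sqrt_of_sq_lt; norm_num
  · rw [Real.sqrt_lt' (by norm_num)]; norm_num

lemma W_tel {z : ℝ} (hz : 0 < z) : W z / z ≤ 24 / (1 + √z) - 24 / (1 + √(2 * z)) := by
  obtain ⟨h1, h2⟩ := sqrt2_bds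
  set r := √(2 : ℝ) with hr
  have hr2 : r ^ 2 = 2 := Real.sq_sqrt (by norm_num)
  rw [Real.sqrt_mul (by norm_num), ← hr]
  set s := √z with hs
  have hs0 : 0 < s := Real.sqrt_pos.2 hz
  have hs2 : s ^ 2 = z := Real.sq_sqrt hz.le
  have e : 24 / (1 + s) - 24 / (1 + r * s) = 24 * (r - 1) * s / ((1 + s) * (1 + r * s)) := by
    field_simp
    ring
  rw [e]
  rcases le_or_gt 1 z with h | h
  · have hs1 : 1 ≤ s := Real.one_le_sqrt.2 h
    rw [W_ge h]
    have h3 : Real.log z ≤ 2 * (s - 1) := by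
      rw [← hs2, Real.log_pow]
      have := Real.log_le_sub_one_of_pos hs0
      push_cast
      linarith
    have h4 : (1 + Real.log z) / z ≤ 2 / s := by
      rw [← hs2, div_le_div_iff₀ (by positivity) hs0]
      rw [hs2]
      nlinarith
    refine h4.trans ?_
    rw [div_le_div_iff₀ hs0 (by positivity)]
    nlinarith [mul_nonneg (sub_nonneg.2 hs1) hs0.le, mul_nonneg (sub_nonneg.2 hs1) (sub_nonneg.2 hs1)]
  · have hs1 : s ≤ 1 := by
      rw [hs]; exact Real.sqrt_le_one.2 h.le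
    rw [W_lt h]
    have h4 : z ^ 3 / z = s ^ 4 := by
      rw [← hs2]; field_simp
    rw [h4, le_div_iff₀ (by positivity)]
    have h5 : s ^ 3 ≤ 1 := pow_le_one₀ hs0.le hs1
    have h6 : (1 + s) * (1 + r * s) ≤ 2 * 2.4143 := by
      apply mul_le_mul (by linarith) _ (by positivity) (by norm_num)
      nlinarith
    calc s ^ 4 * ((1 + s) * (1 + r * s)) = s * (s ^ 3 * ((1 + s) * (1 + r * s))) := by ring
      _ ≤ s * (1 * (2 * 2.4143)) := by
          apply mul_le_mul_of_nonneg_left _ hs0.le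
          exact mul_le_mul h5 h6 (by positivity) (by norm_num)
      _ ≤ 24 * (r - 1) * s := by nlinarith

lemma W_sum {T : ℝ} (hT : 0 < T) (n : ℕ) :
    ∑ i ∈ Finset.range n, (2 : ℝ) ^ i * W (T / 2 ^ i) ≤ 24 * T := by
  have h1 : ∀ n : ℕ, ∑ i ∈ Finset.range n, (2 : ℝ) ^ i * W (T / 2 ^ i) ≤
      T * (24 / (1 + √(2 * (T / 2 ^ n))) - 24 / (1 + √(2 * T))) := by
    intro n
    induction n with
    | zero => simp
    | succ n ih =>
      rw [Finset.sum_range_succ]
      have h2 := W_tel (z := T / 2 ^ n) (by positivity)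
      have h3 : (2 : ℝ) ^ n * W (T / 2 ^ n) = T * (W (T / 2 ^ n) / (T / 2 ^ n)) := by
        field_simp
      have h4 : 2 * (T / 2 ^ (n + 1)) = T / 2 ^ n := by
        rw [pow_succ]; field_simp
      rw [h3, h4]
      nlinarith [mul_le_mul_of_nonneg_left h2 hT.le]
  refine (h1 n).trans ?_
  have h2 : 24 / (1 + √(2 * (T / 2 ^ n))) ≤ 24 := by
    rw [div_le_iff₀ (by positivity)]
    nlinarith [Real.sqrt_nonneg (2 * (T / 2 ^ n))]
  have h3 : 0 ≤ 24 / (1 + √(2 * T)) := by positivity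
  nlinarith

/-- size of the coefficient of `p` -/
def bet (T : ℝ) (p : ℕ × ℕ) : ℝ := (√(ht p))⁻¹ * W (T / ht p)

lemma bet_nonneg {T : ℝ} (hT : 0 < T) (p : ℕ × ℕ) : 0 ≤ bet T p := by
  unfold bet
  have : 0 ≤ ht p := by unfold ht; positivity
  exact mul_nonneg (by positivity) (W_nonneg (by positivity))

lemma bet_blk {T : ℝ} (hT : 0 < T) {J j : ℕ} {p : ℕ × ℕ} (hp : p ∈ blk J j) :
    bet T p ≤ 1024 * ((√(2 ^ j))⁻¹ * W (T / 2 ^ j)) := by
  obtain ⟨h1, h2⟩ := blk_ht hp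
  obtain ⟨a1, a2⟩ := blk_pos hp
  have hh := ht_pos a1 a2
  unfold bet
  have h3 : (√(ht p))⁻¹ ≤ 2 * (√(2 ^ j))⁻¹ := by
    have h4 : √((2 : ℝ) ^ j) ≤ 2 * √(ht p) := by
      rw [show (2 : ℝ) = √(2 ^ 2) by simp, ← Real.sqrt_mul (by norm_num)]
      apply Real.sqrt_le_sqrt
      have : (√(2 ^ 2) : ℝ) = 2 := by simp
      rw [this]
      nlinarith
    have h5 : 0 < √((2 : ℝ) ^ j) := by positivity
    have h6 : 0 < √(ht p) := Real.sqrt_pos.2 hh
    rw [← div_eq_mul_inv, ← one_div, div_le_div_iff₀ h6 h5]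
    linarith
  have h4 : W (T / ht p) ≤ 512 * W (T / 2 ^ j) := by
    refine (W_mono (by positivity) ?_).trans (W_scale (by positivity))
    rw [mul_div_assoc', div_le_div_iff₀ hh (by positivity)]
    nlinarith
  calc (√(ht p))⁻¹ * W (T / ht p) ≤ (2 * (√(2 ^ j))⁻¹) * (512 * W (T / 2 ^ j)) :=
        mul_le_mul h3 h4 (W_nonneg (by positivity)) (by positivity)
    _ = _ := by ring

lemma row' {i j : ℕ} (hij : i ≤ j) {p : ℕ × ℕ} (hp : p ∈ FR (2 ^ i)) (s : Finset (ℕ × ℕ))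
    (hs : s ⊆ FR (2 ^ j)) :
    ∑ q ∈ s, 1 / (lam p - lam q) ^ 2 ≤ 32 * 2 ^ j * √(2 ^ i * 2 ^ j) := by
  classical
  refine le_trans (le_of_eq ?_) (row hij hp s hs)
  rw [Finset.sum_filter]
  refine Finset.sum_congr rfl fun q _ => ?_
  by_cases h : q = p
  · subst h; simp
  · rw [if_pos h]

/-- the pairs of blocks -/
lemma offd_blk {T : ℝ} (hT : 0 < T) {J i j : ℕ} (hij : i ≤ j) :
    ∑ p ∈ blk J i, ∑ q ∈ blk J j, bet T p * bet T q / (lam p - lam q) ^ 2 ≤
      33554432 * (i + 1) * ((2 ^ i * W (T / 2 ^ i)) * (2 ^ j * W (T / 2 ^ j))) := by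
  have hWi : 0 ≤ W (T / 2 ^ i) := W_nonneg (by positivity)
  have hWj : 0 ≤ W (T / 2 ^ j) := W_nonneg (by positivity)
  have h1 : ∀ p ∈ blk J i, ∑ q ∈ blk J j, bet T p * bet T q / (lam p - lam q) ^ 2 ≤
      33554432 * (W (T / 2 ^ i) * (2 ^ j * W (T / 2 ^ j))) := by
    intro p hp
    have h2 : ∀ q ∈ blk J j, bet T p * bet T q / (lam p - lam q) ^ 2 ≤
        (1024 * ((√(2 ^ i))⁻¹ * W (T / 2 ^ i))) * (1024 * ((√(2 ^ j))⁻¹ * W (T / 2 ^ j))) *
          (1 / (lam p - lam q) ^ 2) := by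
      intro q hq
      rw [div_eq_mul_one_div]
      apply mul_le_mul_of_nonneg_right _ (by positivity)
      exact mul_le_mul (bet_blk hT hp) (bet_blk hT hq) (bet_nonneg hT q) (by positivity)
    refine (Finset.sum_le_sum h2).trans ?_
    rw [← Finset.mul_sum]
    refine (mul_le_mul_of_nonneg_left (row' hij (blk_FR hp) (blk J j) (fun q hq => blk_FR hq))
      (by positivity)).trans (le_of_eq ?_)
    have e1 : √((2 : ℝ) ^ i * 2 ^ j) = √(2 ^ i) * √(2 ^ j) := Real.sqrt_mul (by positivity) _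
    rw [e1]
    have e2 : √((2 : ℝ) ^ i) ≠ 0 := by positivity
    have e3 : √((2 : ℝ) ^ j) ≠ 0 := by positivity
    field_simp
    ring
  refine (Finset.sum_le_sum h1).trans ?_
  rw [Finset.sum_const, nsmul_eq_mul]
  refine (mul_le_mul_of_nonneg_right (blk_card J i) (by positivity)).trans (le_of_eq ?_)
  ring

/-- the off-diagonal sum -/
lemma offd {T : ℝ} (hT : 0 < T) (J : ℕ) :
    ∑ p ∈ FR (2 ^ J), ∑ q ∈ FR (2 ^ J), bet T p * bet T q / (lam p - lam q) ^ 2 ≤
      19327352832 * (J + 1) * T ^ 2 := by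
  have hsym : ∀ i j : ℕ, ∑ p ∈ blk J i, ∑ q ∈ blk J j, bet T p * bet T q / (lam p - lam q) ^ 2 =
      ∑ p ∈ blk J j, ∑ q ∈ blk J i, bet T p * bet T q / (lam p - lam q) ^ 2 := by
    intro i j
    rw [Finset.sum_comm]
    refine Finset.sum_congr rfl fun p _ => Finset.sum_congr rfl fun q _ => ?_
    rw [mul_comm (bet T q), show (lam q - lam p) ^ 2 = (lam p - lam q) ^ 2 by ring]
  have h1 : ∀ i ∈ Finset.range (J + 1), ∀ j ∈ Finset.range (J + 1),
      ∑ p ∈ blk J i, ∑ q ∈ blk J j, bet T p * bet T q / (lam p - lam q) ^ 2 ≤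
      33554432 * (J + 1) * ((2 ^ i * W (T / 2 ^ i)) * (2 ^ j * W (T / 2 ^ j))) := by
    intro i hi j hj
    rw [Finset.mem_range] at hi hj
    have hWi : 0 ≤ W (T / 2 ^ i) := W_nonneg (by positivity)
    have hWj : 0 ≤ W (T / 2 ^ j) := W_nonneg (by positivity)
    have hiJ : (i : ℝ) ≤ J := by exact_mod_cast (by omega : i ≤ J)
    have hjJ : (j : ℝ) ≤ J := by exact_mod_cast (by omega : j ≤ J)
    rcases le_total i j with h | h
    · refine (offd_blk hT h).trans ?_
      apply mul_le_mul_of_nonneg_right _ (by positivity)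
      linarith
    · rw [hsym]
      refine (offd_blk hT h).trans ?_
      rw [mul_comm (2 ^ j * W (T / 2 ^ j))]
      apply mul_le_mul_of_nonneg_right _ (by positivity)
      linarith
  have h2 : ∑ p ∈ FR (2 ^ J), ∑ q ∈ FR (2 ^ J), bet T p * bet T q / (lam p - lam q) ^ 2 =
      ∑ i ∈ Finset.range (J + 1), ∑ j ∈ Finset.range (J + 1),
        ∑ p ∈ blk J i, ∑ q ∈ blk J j, bet T p * bet T q / (lam p - lam q) ^ 2 := by
    rw [sum_blk]
    refine Finset.sum_congr rfl fun i _ => ?_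
    rw [Finset.sum_comm]
    rw [sum_blk]
    refine Finset.sum_congr rfl fun j _ => ?_
    rw [Finset.sum_comm]
  rw [h2]
  refine (Finset.sum_le_sum fun i hi => Finset.sum_le_sum fun j hj => h1 i hi j hj).trans ?_
  have h3 := W_sum hT (J + 1)
  have h4 : 0 ≤ ∑ i ∈ Finset.range (J + 1), (2 : ℝ) ^ i * W (T / 2 ^ i) :=
    Finset.sum_nonneg fun i _ => mul_nonneg (by positivity) (W_nonneg (by positivity))
  calc ∑ i ∈ Finset.range (J + 1), ∑ j ∈ Finset.range (J + 1),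
        33554432 * ((J : ℝ) + 1) * ((2 ^ i * W (T / 2 ^ i)) * (2 ^ j * W (T / 2 ^ j))) =
        33554432 * ((J : ℝ) + 1) * ((∑ i ∈ Finset.range (J + 1), 2 ^ i * W (T / 2 ^ i)) *
          (∑ i ∈ Finset.range (J + 1), 2 ^ i * W (T / 2 ^ i))) := by
        rw [Finset.sum_mul_sum, Finset.mul_sum]
        refine Finset.sum_congr rfl fun i _ => ?_
        rw [Finset.mul_sum]
    _ ≤ 33554432 * ((J : ℝ) + 1) * ((24 * T) * (24 * T)) := by
        apply mul_le_mul_of_nonneg_left _ (by positivity)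
        exact mul_le_mul h3 h3 h4 (by positivity)
    _ = _ := by ring

/-- the diagonal sum -/
lemma bet_sq {T : ℝ} (hT : 1 ≤ T) (J : ℕ) :
    ∑ p ∈ FR (2 ^ J), bet T p ^ 2 ≤ 2 * (J + 1) ^ 2 * (1 + Real.log T) ^ 2 := by
  have hl := Real.log_nonneg hT
  have hT0 : 0 < T := by linarith
  rw [sum_blk]
  have h1 : ∀ j ∈ Finset.range (J + 1), ∑ p ∈ blk J j, bet T p ^ 2 ≤
      2 * (J + 1) * (1 + Real.log T) ^ 2 := by
    intro j hj
    rw [Finset.mem_range] at hj
    have hjJ : (j : ℝ) ≤ J := by exact_mod_cast (by omega : j ≤ J)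
    have h2 : ∀ p ∈ blk J j, bet T p ^ 2 ≤ 2 / 2 ^ j * (1 + Real.log T) ^ 2 := by
      intro p hp
      obtain ⟨a1, a2⟩ := blk_pos hp
      have hh := ht_pos a1 a2
      have hh1 := ht_one_le a1 a2
      unfold bet
      rw [mul_pow, inv_pow, Real.sq_sqrt hh.le]
      apply mul_le_mul
      · rw [inv_eq_one_div, div_le_div_iff₀ hh (by positivity)]
        have := (blk_ht hp).1
        linarith
      · apply pow_le_pow_left₀ (W_nonneg (by positivity))
        refine (W_mono (by positivity) (div_le_self hT0.le hh1)).trans ?_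
        rw [W_ge hT]
      · exact pow_nonneg (W_nonneg (by positivity)) 2
      · positivity
    refine (Finset.sum_le_sum h2).trans ?_
    rw [Finset.sum_const, nsmul_eq_mul]
    refine (mul_le_mul_of_nonneg_right (blk_card J j) (by positivity)).trans ?_
    have e : 2 ^ j * ((j : ℝ) + 1) * (2 / 2 ^ j * (1 + Real.log T) ^ 2) =
        2 * (j + 1) * (1 + Real.log T) ^ 2 := by field_simp
    rw [e]
    apply mul_le_mul_of_nonneg_right _ (by positivity)
    linarith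
  refine (Finset.sum_le_sum h1).trans ?_
  rw [Finset.sum_const, Finset.card_range, nsmul_eq_mul]
  push_cast
  apply le_of_eq
  ring

end

end K1H48.SW
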